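import Pool.Agent.L0h35.BcMain

/-!
# The Boolean closure of cheap two-head languages (helper35)
-/

set_option autoImplicit false

namespace Pool.Agent.L0h35.Bc

open Pool.Agent.L0h32.HA

/-- The Boolean combinations of finitely many languages of the class `𝓒`. -/
def BoolClosure {A : Type} (𝓒 : Set (Set (List A))) : Set (Set (List A)) :=
  {L | ∃ (K : ℕ) (G : Fin K → Set (List A)) (h : (Fin K → Prop) → Prop),
    (∀ i, G i ∈ 𝓒) ∧ ∀ w, w ∈ L ↔ h (fun i => w ∈ G i)}

/-- The languages of nondeterministic two-way two-head automata that have, for every accepted word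
`w`, an accepting computation with at most `t |w|` steps. -/
def FastTwoHeads (A : Type) (t : ℕ → ℕ) : Set (Set (List A)) :=
  {L | ∃ M : HeadAut 2 A, M.lang = L ∧
    ∀ w ∈ M.lang, ∃ T c, M.IsAccRun w T c ∧ T ≤ t w.length}

/-- The languages of nondeterministic two-way two-head automata that have, for every accepted word
`w`, an accepting computation with at most `r |w|` head reversals. -/
def FewReversals (A : Type) (r : ℕ → ℕ) : Set (Set (List A)) :=
  {L | ∃ M : HeadAut 2 A, M.lang = L ∧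
    ∀ w ∈ M.lang, ∃ T c, M.IsAccRun w T c ∧ HeadAut.revs c T ≤ r w.length}

/-- The language is not trivial. -/
theorem lang_nontriv : ∃ u v : List Sym, u ∈ P.lang ∧ v ∉ P.lang := by
  refine ⟨W (l := 1) (fun _ => true) (fun _ => true) (fun _ => true),
    W (l := 1) (fun _ => false) (fun _ => false) (fun _ => false), ?_, ?_⟩
  · rw [W_mem_lang _ _ _ le_rfl]
    simp [sg, sb]
  · rw [W_mem_lang _ _ _ le_rfl]
    simp [sg, sb]

/-- large lengths -/
theorem exists_len (K N : ℕ) : ∃ l, N ≤ l ∧ 2 ^ 10 * K * (Nat.log 2 l + 1) ≤ l := by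
  obtain ⟨a, ha⟩ : ∃ a, a = K + N + 4 := ⟨_, rfl⟩
  refine ⟨2 ^ (2 * a + 11), ?_, ?_⟩
  · have : 2 * a + 11 < 2 ^ (2 * a + 11) := Nat.lt_two_pow_self
    omega
  · rw [Nat.log_pow (by norm_num)]
    have h1 : K ≤ 2 ^ a := by
      have : a < 2 ^ a := Nat.lt_two_pow_self
      omega
    have h2 : a + 6 ≤ 2 ^ a := by
      obtain ⟨b, hb⟩ : ∃ b, a = b + 4 := ⟨K + N, ha⟩
      rw [hb, pow_add]
      have : b < 2 ^ b := Nat.lt_two_pow_self
      omega
    calc 2 ^ 10 * K * (2 * a + 11 + 1) = 2 ^ 11 * (K * (a + 6)) := by ring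
      _ ≤ 2 ^ 11 * (2 ^ a * 2 ^ a) := Nat.mul_le_mul_left _ (Nat.mul_le_mul h1 h2)
      _ = 2 ^ (2 * a + 11) := by ring

theorem not_closure (t r : ℕ → ℕ)
    (ht : (fun n => (t n : ℝ)) =o[Filter.atTop] (fun n : ℕ => (n : ℝ) ^ 2))
    (hr : (fun n => (r n : ℝ)) =o[Filter.atTop] (fun n : ℕ => (n : ℝ))) :
    P.lang ∉ BoolClosure (FastTwoHeads Sym t ∪ FewReversals Sym r) := by
  rintro ⟨K, G, h, hG, hL⟩
  rcases Nat.eq_zero_or_pos K with hK0 | hK
  · subst hK0
    obtain ⟨u, v, hu, hv⟩ := lang_nontriv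
    rw [hL] at hu hv
    have : (fun i => u ∈ G i) = fun i => v ∈ G i := funext fun i => i.elim0
    rw [this] at hu
    exact hv hu
  · have hM : ∀ i, ∃ M : HeadAut 2 Sym, M.lang = G i ∧ ∀ w ∈ M.lang, ∃ T c, M.IsAccRun w T c ∧
        (T ≤ t w.length ∨ HeadAut.revs c T ≤ r w.length) := by
      intro i
      rcases hG i with ⟨M, h1, h2⟩ | ⟨M, h1, h2⟩
      · exact ⟨M, h1, fun w hw => by
          obtain ⟨T, c, hc, hT⟩ := h2 w hw
          exact ⟨T, c, hc, Or.inl hT⟩⟩
      · exact ⟨M, h1, fun w hw => by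
          obtain ⟨T, c, hc, hT⟩ := h2 w hw
          exact ⟨T, c, hc, Or.inr hT⟩⟩
    choose M hMl hMr using hM
    obtain ⟨s, hs⟩ : ∃ s : ℕ, ∀ i, Fintype.card (M i).Q ≤ s :=
      ⟨Finset.univ.sup fun i => Fintype.card (M i).Q, fun i =>
        Finset.le_sup (f := fun i => Fintype.card (M i).Q) (Finset.mem_univ i)⟩
    obtain ⟨B, hB⟩ : ∃ B : ℕ, B = 2 ^ 20 * K * (Nat.log 2 (K * s) + 1) := ⟨_, rfl⟩
    have hBpos : 0 < B := by rw [hB]; positivity
    have hev1 := ht.def (c := 1 / (100 * (B : ℝ))) (by positivity)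
    have hev2 := hr.def (c := 1 / (10 * (B : ℝ))) (by positivity)
    obtain ⟨N1, hN1⟩ := Filter.eventually_atTop.1 hev1
    obtain ⟨N2, hN2⟩ := Filter.eventually_atTop.1 hev2
    obtain ⟨l, hl, hlK⟩ := exists_len K (N1 + N2 + 2 * B + 2)
    obtain ⟨i, w, hw, hlen, hall⟩ := comb_lower_bound hK M h l s hs hlK (fun w _ => by
      rw [hL]
      simp only [hMl])
    obtain ⟨T, c, hc, hcheap⟩ := hMr i w hw
    obtain ⟨h1, h2⟩ := hall T c hc
    rw [← hB] at h1 h2
    rw [hlen] at hcheap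
    have hBr : (0 : ℝ) < B := by exact_mod_cast hBpos
    have h5 : 2 * (B : ℝ) + 2 ≤ l := by
      have : 2 * B + 2 ≤ l := by omega
      exact_mod_cast this
    rcases hcheap with hT | hT
    · have h3 : (l : ℝ) ^ 2 ≤ B * (T + 1) := by exact_mod_cast h1
      have hT' : (T : ℝ) ≤ t (5 * l) := by exact_mod_cast hT
      have h4 := hN1 (5 * l) (by omega)
      rw [Real.norm_of_nonneg (by positivity), Real.norm_of_nonneg (by positivity)] at h4
      push_cast at h4
      have h6 : (B : ℝ) * T ≤ (l : ℝ) ^ 2 / 4 := by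
        calc (B : ℝ) * T ≤ B * (1 / (100 * (B : ℝ)) * (5 * (l : ℝ)) ^ 2) :=
              mul_le_mul_of_nonneg_left (hT'.trans h4) hBr.le
          _ = (l : ℝ) ^ 2 / 4 := by field_simp; ring
      have h7 : (0 : ℝ) ≤ l := by positivity
      nlinarith
    · have h3 : (l : ℝ) ≤ B * (HeadAut.revs c T + 1) := by exact_mod_cast h2
      have hT' : (HeadAut.revs c T : ℝ) ≤ r (5 * l) := by exact_mod_cast hT
      have h4 := hN2 (5 * l) (by omega)
      rw [Real.norm_of_nonneg (by positivity), Real.norm_of_nonneg (by positivity)] at h4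
      push_cast at h4
      have h6 : (B : ℝ) * HeadAut.revs c T ≤ (l : ℝ) / 2 := by
        calc (B : ℝ) * HeadAut.revs c T ≤ B * (1 / (10 * (B : ℝ)) * (5 * (l : ℝ))) :=
              mul_le_mul_of_nonneg_left (hT'.trans h4) hBr.le
          _ = (l : ℝ) / 2 := by field_simp; ring
      linarith

end Pool.Agent.L0h35.Bc
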