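import Pool.Agent.L0h32.HA.Main

/-!
# Boolean combinations of unions of cylinder intersections (helper35)
-/

set_option autoImplicit false

namespace Pool.Agent.L0h35.Bc

open Pool.Agent.L0h32.HA

/-- triples of words of length `l` -/
abbrev Tr (l : ℕ) : Type := (Fin l → Bool) × (Fin l → Bool) × (Fin l → Bool)

/-- cylinder intersections -/
def IsCyl {l : ℕ} (A : Finset (Tr l)) : Prop :=
  ∃ p0 p1 p2 : (Fin l → Bool) → (Fin l → Bool) → Prop,
    ∀ a : Tr l, a ∈ A ↔ p0 a.2.1 a.2.2 ∧ p1 a.1 a.2.2 ∧ p2 a.1 a.2.1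

theorem IsCyl.univ {l : ℕ} : IsCyl (Finset.univ : Finset (Tr l)) :=
  ⟨fun _ _ => True, fun _ _ => True, fun _ _ => True, fun a => by simp⟩

theorem IsCyl.inter {l : ℕ} {A B : Finset (Tr l)} (hA : IsCyl A) (hB : IsCyl B) :
    IsCyl (A ∩ B) := by
  obtain ⟨p0, p1, p2, h⟩ := hA
  obtain ⟨q0, q1, q2, h'⟩ := hB
  refine ⟨fun x y => p0 x y ∧ q0 x y, fun x y => p1 x y ∧ q1 x y, fun x y => p2 x y ∧ q2 x y, ?_⟩
  intro a
  rw [Finset.mem_inter, h, h']
  tauto

/-- Discrepancy. -/
theorem disc {l : ℕ} {A : Finset (Tr l)} (hA : IsCyl A) :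
    (∑ a ∈ A, sg a.1 a.2.1 a.2.2) ^ 4 ≤ (3072 : ℤ) ^ l := by
  classical
  obtain ⟨p0, p1, p2, h⟩ := hA
  let i0 : (Fin l → Bool) → (Fin l → Bool) → ℤ := fun y z => if p0 y z then 1 else 0
  let i1 : (Fin l → Bool) → (Fin l → Bool) → ℤ := fun y z => if p1 y z then 1 else 0
  let i2 : (Fin l → Bool) → (Fin l → Bool) → ℤ := fun y z => if p2 y z then 1 else 0
  have hb : ∀ (p : (Fin l → Bool) → (Fin l → Bool) → Prop) (x y : Fin l → Bool),
      (if p x y then (1 : ℤ) else 0) ^ 2 ≤ 1 := by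
    intro p x y; split_ifs <;> simp
  have hS := S_pow_le i0 i1 i2 (hb p0) (hb p1) (hb p2)
  have he : S i0 i1 i2 = ∑ a ∈ A, sg a.1 a.2.1 a.2.2 := by
    have h1 : ∑ a ∈ A, sg a.1 a.2.1 a.2.2 =
        ∑ a : Tr l, if a ∈ A then sg a.1 a.2.1 a.2.2 else 0 := by
      rw [Finset.sum_ite_mem, Finset.univ_inter]
    rw [h1, Fintype.sum_prod_type]
    unfold S
    refine Finset.sum_congr rfl fun x _ => ?_
    rw [Fintype.sum_prod_type]
    refine Finset.sum_congr rfl fun y _ => ?_
    rw [Finset.mul_sum]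
    refine Finset.sum_congr rfl fun z _ => ?_
    simp only [i0, i1, i2, h]
    by_cases a0 : p0 y z <;> by_cases a1 : p1 x z <;> by_cases a2 : p2 x y <;>
      simp [a0, a1, a2]
  rw [← he]
  exact hS

/-- **Combinations.** If the sign is a function of the memberships in `K` sets, each of them a union of
at most `N` cylinder intersections, then there is a large cylinder intersection with a large sum. -/
theorem comb {l K N : ℕ} (hK : 1 ≤ K) (hN : 1 ≤ N) (G : Fin K → Finset (Tr l))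
    (C : Fin K → Finset (Finset (Tr l))) (hC : ∀ i, ∀ B ∈ C i, IsCyl B ∧ B ⊆ G i)
    (hcov : ∀ i, ∀ a ∈ G i, ∃ B ∈ C i, a ∈ B) (hcard : ∀ i, (C i).card ≤ N)
    (hdet : ∀ a b : Tr l, (∀ i, a ∈ G i ↔ b ∈ G i) → sg a.1 a.2.1 a.2.2 = sg b.1 b.2.1 b.2.2) :
    ∃ R : Finset (Tr l), IsCyl R ∧ 8 ^ l ≤ R.card * (4 * K * N) ^ K ∧
      (R.card : ℤ) ≤ 2 * |∑ a ∈ R, sg a.1 a.2.1 a.2.2| := by
  classical
  -- the possible sets of indices
  let Good : Finset (Fin K) → Prop := fun I => ∃ R : Finset (Tr l), IsCyl R ∧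
    (∀ i ∈ I, R ⊆ G i) ∧ 8 ^ l ≤ R.card * (4 * K * N) ^ I.card
  have h0 : Good ∅ := by
    refine ⟨Finset.univ, IsCyl.univ, by simp, ?_⟩
    rw [Finset.card_univ, Finset.card_empty, pow_zero, mul_one]
    simp only [Fintype.card_prod, Fintype.card_fun, Fintype.card_bool, Fintype.card_fin]
    rw [← mul_pow, ← mul_pow]
    norm_num
  obtain ⟨I, hI, hmax⟩ := Finset.exists_max_image
    (Finset.univ.filter fun I : Finset (Fin K) => Good I) Finset.card
    ⟨∅, Finset.mem_filter.2 ⟨Finset.mem_univ _, h0⟩⟩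
  obtain ⟨R, hR, hRG, hRc⟩ := (Finset.mem_filter.1 hI).2
  have hpos : 0 < 4 * K * N := by positivity
  have hsmall : ∀ i, i ∉ I → 4 * K * (R ∩ G i).card ≤ R.card := by
    intro i hi
    by_contra hcon
    push Not at hcon
    -- some cylinder intersection is large
    obtain ⟨B, hB, hBc⟩ : ∃ B ∈ C i, R.card ≤ (R ∩ B).card * (4 * K * N) := by
      by_contra hno
      push Not at hno
      have hsub : R ∩ G i ⊆ (C i).biUnion fun B => R ∩ B := by
        intro a ha
        rw [Finset.mem_inter] at ha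
        obtain ⟨B, hB, haB⟩ := hcov i a ha.2
        exact Finset.mem_biUnion.2 ⟨B, hB, Finset.mem_inter.2 ⟨ha.1, haB⟩⟩
      have h1 : (R ∩ G i).card ≤ ∑ B ∈ C i, (R ∩ B).card :=
        (Finset.card_le_card hsub).trans Finset.card_biUnion_le
      have h2 : (R ∩ G i).card * (4 * K * N) ≤ N * R.card := by
        calc (R ∩ G i).card * (4 * K * N) ≤ (∑ B ∈ C i, (R ∩ B).card) * (4 * K * N) :=
              Nat.mul_le_mul_right _ h1
          _ = ∑ B ∈ C i, (R ∩ B).card * (4 * K * N) := Finset.sum_mul _ _ _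
          _ ≤ ∑ _B ∈ C i, R.card := Finset.sum_le_sum fun B hB => (hno B hB).le
          _ = (C i).card * R.card := by rw [Finset.sum_const, smul_eq_mul]
          _ ≤ N * R.card := Nat.mul_le_mul_right _ (hcard i)
      have h3 : N * (4 * K * (R ∩ G i).card) ≤ N * R.card := by
        calc N * (4 * K * (R ∩ G i).card) = (R ∩ G i).card * (4 * K * N) := by ring
          _ ≤ N * R.card := h2
      have h4 := Nat.le_of_mul_le_mul_left h3 hN
      omega
    have hgood : Good (insert i I) := by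
      refine ⟨R ∩ B, hR.inter (hC i B hB).1, ?_, ?_⟩
      · intro j hj
        rcases Finset.mem_insert.1 hj with rfl | hj
        · exact Finset.inter_subset_right.trans (hC j B hB).2
        · exact Finset.inter_subset_left.trans (hRG j hj)
      · rw [Finset.card_insert_of_notMem hi, pow_succ]
        calc 8 ^ l ≤ R.card * (4 * K * N) ^ I.card := hRc
          _ ≤ ((R ∩ B).card * (4 * K * N)) * (4 * K * N) ^ I.card :=
              Nat.mul_le_mul_right _ hBc
          _ = _ := by ring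
    have := hmax _ (Finset.mem_filter.2 ⟨Finset.mem_univ _, hgood⟩)
    rw [Finset.card_insert_of_notMem hi] at this
    omega
  -- the exceptional set
  let X : Finset (Tr l) := (Finset.univ.filter fun i => i ∉ I).biUnion fun i => R ∩ G i
  have hX : 4 * X.card ≤ R.card := by
    have h1 : X.card ≤ ∑ i ∈ Finset.univ.filter fun i => i ∉ I, (R ∩ G i).card :=
      Finset.card_biUnion_le
    have h2 : K * (4 * X.card) ≤ K * R.card := by
      calc K * (4 * X.card) = 4 * K * X.card := by ring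
        _ ≤ 4 * K * ∑ i ∈ Finset.univ.filter fun i => i ∉ I, (R ∩ G i).card :=
            Nat.mul_le_mul_left _ h1
        _ = ∑ i ∈ Finset.univ.filter fun i => i ∉ I, 4 * K * (R ∩ G i).card :=
            Finset.mul_sum _ _ _
        _ ≤ ∑ _i ∈ Finset.univ.filter fun i => i ∉ I, R.card :=
            Finset.sum_le_sum fun i hi => hsmall i (Finset.mem_filter.1 hi).2
        _ = (Finset.univ.filter fun i => i ∉ I).card * R.card := by
            rw [Finset.sum_const, smul_eq_mul]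
        _ ≤ K * R.card := by
            refine Nat.mul_le_mul_right _ ?_
            exact (Finset.card_le_univ _).trans (by simp)
    exact Nat.le_of_mul_le_mul_left h2 hK
  refine ⟨R, hR, ?_, ?_⟩
  · refine hRc.trans (Nat.mul_le_mul_left _ (Nat.pow_le_pow_right hpos ?_))
    exact (Finset.card_le_univ _).trans (by simp)
  · have hXR : X ⊆ R := by
      intro a ha
      obtain ⟨i, -, hi⟩ := Finset.mem_biUnion.1 ha
      exact (Finset.mem_inter.1 hi).1
    have hpat : ∀ a ∈ R \ X, ∀ i, a ∈ G i ↔ i ∈ I := by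
      intro a ha i
      rw [Finset.mem_sdiff] at ha
      constructor
      · intro h1
        by_contra h2
        exact ha.2 (Finset.mem_biUnion.2 ⟨i, Finset.mem_filter.2 ⟨Finset.mem_univ _, h2⟩,
          Finset.mem_inter.2 ⟨ha.1, h1⟩⟩)
      · intro h1
        exact hRG i h1 ha.1
    have hsplit : ∑ a ∈ R, sg a.1 a.2.1 a.2.2 =
        ∑ a ∈ R \ X, sg a.1 a.2.1 a.2.2 + ∑ a ∈ X, sg a.1 a.2.1 a.2.2 :=
      (Finset.sum_sdiff hXR).symm
    have hXs : |∑ a ∈ X, sg a.1 a.2.1 a.2.2| ≤ X.card := by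
      refine (Finset.abs_sum_le_sum_abs _ _).trans ?_
      have : ∀ a ∈ X, |sg a.1 a.2.1 a.2.2| ≤ 1 := by
        intro a _
        rcases sg_cases a.1 a.2.1 a.2.2 with h | h <;> rw [h] <;> decide
      refine (Finset.sum_le_sum this).trans ?_
      simp
    have hRs : |∑ a ∈ R \ X, sg a.1 a.2.1 a.2.2| = (R \ X).card := by
      rcases (R \ X).eq_empty_or_nonempty with h | ⟨b, hb⟩
      · rw [h]
        simp
      · have h1 : ∀ a ∈ R \ X, sg a.1 a.2.1 a.2.2 = sg b.1 b.2.1 b.2.2 := by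
          intro a ha
          apply hdet
          intro i
          rw [hpat a ha i, hpat b hb i]
        rw [Finset.sum_congr rfl h1, Finset.sum_const]
        rcases sg_cases b.1 b.2.1 b.2.2 with h | h <;> rw [h] <;> simp
    have hc : ((R \ X).card : ℤ) + X.card = R.card := by
      exact_mod_cast Finset.card_sdiff_add_card_eq_card hXR
    have hX' : 4 * (X.card : ℤ) ≤ R.card := by exact_mod_cast hX
    have htri : |∑ a ∈ R \ X, sg a.1 a.2.1 a.2.2| ≤
        |∑ a ∈ R, sg a.1 a.2.1 a.2.2| + |∑ a ∈ X, sg a.1 a.2.1 a.2.2| := by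
      have h1 : ∑ a ∈ R \ X, sg a.1 a.2.1 a.2.2 =
          ∑ a ∈ R, sg a.1 a.2.1 a.2.2 - ∑ a ∈ X, sg a.1 a.2.1 a.2.2 := by
        rw [hsplit]; ring
      rw [h1]
      exact abs_sub _ _
    rw [hRs] at htri
    linarith

end Pool.Agent.L0h35.Bc
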