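import Pool.Agent.L0h35.BcComb

/-!
# The language of a two-head automaton with cheap accepting computations is a union of few
cylinder intersections (helper35, from the certificates of helper32)
-/

set_option autoImplicit false

namespace Pool.Agent.L0h35.Bc

open Pool.Agent.L0h32.HA

/-- The automaton has an accepting computation on the word of the triple with few boundary
edges. -/
def Few (M : HeadAut 2 Sym) (l R : ℕ) (a : Tr l) : Prop :=
  ∃ T c, M.IsAccRun (W a.1 a.2.1 a.2.2) T c ∧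
    ∃ c1 ∈ Finset.Icc l (2 * l), ∃ c2 ∈ Finset.Icc (3 * l) (4 * l),
      bcount (ow M c1 c2) c T ≤ R

open Classical in
/-- **Cover.** -/
theorem coverFew (M : HeadAut 2 Sym) {l R s : ℕ} (hl : 1 ≤ l) (hs : Fintype.card M.Q ≤ s) (m : ℝ)
    (hm : 1 ≤ m) (G : Finset (Tr l)) (hG : ∀ a : Tr l, a ∈ G ↔ W a.1 a.2.1 a.2.2 ∈ M.lang) :
    ∃ C : Finset (Finset (Tr l)), (∀ B ∈ C, IsCyl B ∧ B ⊆ G) ∧
      (∀ a : Tr l, Few M l R a → ∃ B ∈ C, a ∈ B) ∧
      C.card ≤ 3 * (l + 1) ^ 2 * ⌊m ^ R * (1 + 1 / m) ^ (168 * s * l)⌋₊ := by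
  let D : ℕ → ℕ → Fin 3 → Finset (M.Cfg × Fin 3) → Finset (Tr l) := fun c1 c2 lf S =>
    Finset.univ.filter (fun a =>
      Psi (ow M c1 c2) (M.Step (W (fun _ => false) a.2.1 a.2.2)) (Fa M) M.init lf
        (Finset.insertNone S) 0 ∧
      Psi (ow M c1 c2) (M.Step (W a.1 (fun _ => false) a.2.2)) (Fa M) M.init lf
        (Finset.insertNone S) 1 ∧
      Psi (ow M c1 c2) (M.Step (W a.1 a.2.1 (fun _ => false))) (Fa M) M.init lf
        (Finset.insertNone S) 2)
  have hD : ∀ c1 ∈ Finset.Icc l (2 * l), ∀ c2 ∈ Finset.Icc (3 * l) (4 * l), ∀ lf S,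
      IsCyl (D c1 c2 lf S) ∧ D c1 c2 lf S ⊆ G := by
    intro c1 hc1 c2 hc2 lf S
    rw [Finset.mem_Icc] at hc1 hc2
    refine ⟨⟨fun y z => Psi (ow M c1 c2) (M.Step (W (fun _ => false) y z)) (Fa M) M.init lf
        (Finset.insertNone S) 0,
      fun x z => Psi (ow M c1 c2) (M.Step (W x (fun _ => false) z)) (Fa M) M.init lf
        (Finset.insertNone S) 1,
      fun x y => Psi (ow M c1 c2) (M.Step (W x y (fun _ => false))) (Fa M) M.init lf
        (Finset.insertNone S) 2, ?_⟩, ?_⟩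
    · intro a
      simp only [D, Finset.mem_filter, Finset.mem_univ, true_and]
    · rintro ⟨x, y, z⟩ ha
      obtain ⟨p0, p1, p2⟩ := (Finset.mem_filter.1 ha).2
      rw [hG]
      have q0 : Psi (ow M c1 c2) (M.Step (W x y z)) (Fa M) M.init lf
          (Finset.insertNone S) 0 := p0.congr (fun u v ho => indep0 M (by omega) _ _ _ _ u v ho)
      have q1 : Psi (ow M c1 c2) (M.Step (W x y z)) (Fa M) M.init lf
          (Finset.insertNone S) 1 :=
        p1.congr (fun u v ho => indep1 M (by omega) (by omega) _ _ _ _ u v ho)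
      have q2 : Psi (ow M c1 c2) (M.Step (W x y z)) (Fa M) M.init lf
          (Finset.insertNone S) 2 := p2.congr (fun u v ho => indep2 M (by omega) _ _ _ _ u v ho)
      obtain ⟨u, hu, hr⟩ := cert_sound (Finset.insertNone S) Finset.none_mem_insertNone
        (fun i => by
          fin_cases i
          · exact q0
          · exact q1
          · exact q2)
      exact mem_lang_of_reach M hr hu
  set E : ℝ := m ^ R * (1 + 1 / m) ^ (168 * s * l) with hE
  have hm0 : (0 : ℝ) < m := by linarith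
  have hPS : ∀ c1 c2, ((Un M l c1 c2).powerset.filter (fun t => t.card ≤ R)).card ≤ ⌊E⌋₊ := by
    intro c1 c2
    refine Nat.le_floor ?_
    refine (card_small_subsets (Un M l c1 c2) R m hm).trans ?_
    refine mul_le_mul_of_nonneg_left ?_ (by positivity)
    refine pow_le_pow_right₀ ?_ ?_
    · have : (0 : ℝ) ≤ 1 / m := by positivity
      linarith
    · refine (Un_card M hl c1 c2).trans ?_
      exact Nat.mul_le_mul_right _ (Nat.mul_le_mul_left _ hs)
  let Idx : Finset (ℕ × ℕ × Fin 3) :=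
    Finset.Icc l (2 * l) ×ˢ (Finset.Icc (3 * l) (4 * l) ×ˢ (Finset.univ : Finset (Fin 3)))
  let C : Finset (Finset (Tr l)) := Idx.biUnion fun κ =>
    ((Un M l κ.1 κ.2.1).powerset.filter (fun t => t.card ≤ R)).image
      (fun S => D κ.1 κ.2.1 κ.2.2 S)
  refine ⟨C, ?_, ?_, ?_⟩
  · intro B hB
    obtain ⟨κ, hκ, hB⟩ := Finset.mem_biUnion.1 hB
    obtain ⟨S, -, rfl⟩ := Finset.mem_image.1 hB
    simp only [Idx, Finset.mem_product] at hκ
    exact hD _ hκ.1 _ hκ.2.1 _ _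
  · rintro ⟨x, y, z⟩ ⟨T, c, hc, c1, hc1, c2, hc2, hb⟩
    obtain ⟨S, hS1, hS2, hS3⟩ := cert_complete (o := ow M c1 c2) (F := Fa M) (v0 := M.init)
      hc.1 hc.2.1 hc.2.2 hb
    refine ⟨D c1 c2 (ow M c1 c2 (c T)) S, Finset.mem_biUnion.2 ⟨(c1, c2, ow M c1 c2 (c T)), ?_, ?_⟩,
      ?_⟩
    · simp only [Idx, Finset.mem_product, Finset.mem_univ, and_true]
      exact ⟨hc1, hc2⟩
    · refine Finset.mem_image.2 ⟨S, ?_, rfl⟩
      rw [Finset.mem_filter, Finset.mem_powerset]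
      refine ⟨?_, hS1⟩
      rintro ⟨v, i⟩ he
      obtain ⟨u, hu, ho, _⟩ := hS2 _ he
      exact mem_Un M hu ho
    · rw [Finset.mem_Icc] at hc1 hc2
      refine Finset.mem_filter.2 ⟨Finset.mem_univ _, ?_, ?_, ?_⟩
      · exact (hS3 0).congr (fun u v ho => indep0 M (by omega) _ _ _ _ u v ho)
      · exact (hS3 1).congr (fun u v ho => indep1 M (by omega) (by omega) _ _ _ _ u v ho)
      · exact (hS3 2).congr (fun u v ho => indep2 M (by omega) _ _ _ _ u v ho)
  · have hIdx : Idx.card = 3 * (l + 1) ^ 2 := by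
      simp only [Idx, Finset.card_product, Nat.card_Icc, Finset.card_univ, Fintype.card_fin]
      rw [show 2 * l + 1 - l = l + 1 by omega, show 4 * l + 1 - 3 * l = l + 1 by omega]
      ring
    rw [← hIdx]
    refine Finset.card_biUnion_le_card_mul _ _ _ fun κ hκ => ?_
    exact Finset.card_image_le.trans (hPS _ _)

/-- The cover for automata all of whose accepted words of the family are cheap. -/
theorem cover (M : HeadAut 2 Sym) {l R s : ℕ} (hl : 1 ≤ l) (hs : Fintype.card M.Q ≤ s) (m : ℝ)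
    (hm : 1 ≤ m) (G : Finset (Tr l)) (hG : ∀ a : Tr l, a ∈ G ↔ W a.1 a.2.1 a.2.2 ∈ M.lang)
    (hcheap : ∀ a ∈ G, Few M l R a) :
    ∃ C : Finset (Finset (Tr l)), (∀ B ∈ C, IsCyl B ∧ B ⊆ G) ∧ (∀ a ∈ G, ∃ B ∈ C, a ∈ B) ∧
      C.card ≤ 3 * (l + 1) ^ 2 * ⌊m ^ R * (1 + 1 / m) ^ (168 * s * l)⌋₊ := by
  obtain ⟨C, h1, h2, h3⟩ := coverFew (R := R) M hl hs m hm G hG
  exact ⟨C, h1, fun a ha => h2 a (hcheap a ha), h3⟩

end Pool.Agent.L0h35.Bc
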