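import Pool.Agent.L0h35.BcMain
import Pool.Agent.L0h32.HA.Lazy2

/-!
# The words accepted with a lazy head are covered by few cylinder intersections inside the
language (helper35, from the certificates with guessed tables of helper32)
-/

set_option autoImplicit false

namespace Pool.Agent.L0h35.Bc

open Pool.Agent.L0h32.HA

open Classical in
/-- **Cover for a lazy second head.** -/
theorem cover2 (M : HeadAut 2 Sym) {l R D s : ℕ} (hl : 1 ≤ l) (hD : D ≤ l)
    (hs : Fintype.card M.Q ≤ s) (m : ℝ) (hm : 1 ≤ m) (G : Finset (Tr l))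
    (hG : ∀ a : Tr l, a ∈ G ↔ W a.1 a.2.1 a.2.2 ∈ M.lang) :
    ∃ C : Finset (Finset (Tr l)), (∀ B ∈ C, IsCyl B ∧ B ⊆ G) ∧
      (∀ a : Tr l, Cheap M l D R a → ∃ B ∈ C, a ∈ B) ∧
      C.card ≤ 3 * (l + 1) ^ 2 * (2 ^ Fintype.card (TS M D) * (2 ^ Fintype.card (TS M D) *
        ⌊m ^ R * (1 + 1 / m) ^ (168 * s * l)⌋₊)) := by
  let Cy : ℕ → ℕ → Fin 3 → Set (TS M D) → Set (TS M D) → Finset (M.Cfg × Fin 3) →
      Finset (Tr l) := fun c1 c2 lf τR τL S =>
    Finset.univ.filter (fun a => Chk0 M c1 c2 D lf τR τL S a.2.1 a.2.2 ∧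
      Chk1 M c1 c2 D lf τR τL S a.1 a.2.2 ∧ Chk2 M c1 c2 D lf τR τL S a.1 a.2.1)
  have htR : ∀ c2 : ℕ, 3 * l ≤ c2 → ∀ x x' y z : Fin l → Bool,
      table M (W x y z) (fun p => c2 < p) c2 D = table M (W x' y z) (fun p => c2 < p) c2 D := by
    intro c2 h2 x x' y z
    refine table_congr (by rw [W_length, W_length]) (cell_indep_x _ _ _ _ (by omega)) ?_
    intro p hp
    exact cell_indep_x _ _ _ _ (by omega)
  have htL : ∀ c1 : ℕ, c1 ≤ 2 * l → ∀ x y z z' : Fin l → Bool,
      table M (W x y z) (fun p => p ≤ c1) (c1 + 1) D =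
        table M (W x y z') (fun p => p ≤ c1) (c1 + 1) D := by
    intro c1 h2 x y z z'
    refine table_congr (by rw [W_length, W_length]) (cell_indep_z _ _ _ _ (by omega)) ?_
    intro p hp
    exact cell_indep_z _ _ _ _ (by omega)
  have hC : ∀ c1 ∈ Finset.Icc l (2 * l), ∀ c2 ∈ Finset.Icc (3 * l) (4 * l), ∀ lf τR τL S,
      IsCyl (Cy c1 c2 lf τR τL S) ∧ Cy c1 c2 lf τR τL S ⊆ G := by
    intro c1 hc1 c2 hc2 lf τR τL S
    rw [Finset.mem_Icc] at hc1 hc2
    refine ⟨⟨Chk0 M c1 c2 D lf τR τL S, Chk1 M c1 c2 D lf τR τL S,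
      Chk2 M c1 c2 D lf τR τL S, fun a => by simp only [Cy, Finset.mem_filter, Finset.mem_univ,
        true_and]⟩, ?_⟩
    rintro ⟨x, y, z⟩ ha
    obtain ⟨⟨p0, t0⟩, p1, ⟨p2, t2⟩⟩ := (Finset.mem_filter.1 ha).2
    rw [hG]
    have q0 : Psi (ow M c1 c2) (EE M c1 c2 D τR τL (W x y z)) (Fa M) M.init lf
        (Finset.insertNone S) 0 := p0.congr
          (fun u v ho => eindep0 hl (by omega) (by omega) _ _ _ _ u v ho)
    have q1 : Psi (ow M c1 c2) (EE M c1 c2 D τR τL (W x y z)) (Fa M) M.init lf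
        (Finset.insertNone S) 1 :=
      p1.congr (fun u v ho => eindep1 (by omega) (by omega) (by omega) _ _ _ _ u v ho)
    have q2 : Psi (ow M c1 c2) (EE M c1 c2 D τR τL (W x y z)) (Fa M) M.init lf
        (Finset.insertNone S) 2 := p2.congr
          (fun u v ho => eindep2 (by omega) (by omega) _ _ _ _ u v ho)
    simp only at t0 t2
    rw [htR c2 (by omega) _ x] at t0
    rw [htL c1 (by omega) _ _ _ z] at t2
    obtain ⟨u, hu, hr⟩ := cert_sound (Finset.insertNone S) Finset.none_mem_insertNone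
      (fun i => by
        fin_cases i
        · exact q0
        · exact q1
        · exact q2)
    refine mem_lang_of_reach M ?_ hu
    subst t0 t2
    clear q0 q1 q2 p0 p1 p2 hu ha
    induction hr with
    | refl => exact Relation.ReflTransGen.refl
    | tail _ hb ih => exact ih.trans (EE.sound hb)
  set E : ℝ := m ^ R * (1 + 1 / m) ^ (168 * s * l) with hE
  have hm0 : (0 : ℝ) < m := by linarith
  have hPS : ∀ c1 c2, ((Un M l c1 c2).powerset.filter (fun t => t.card ≤ R)).card ≤ ⌊E⌋₊ := by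
    intro c1 c2
    refine Nat.le_floor ?_
    refine (card_small_subsets (Un M l c1 c2) R m hm).trans ?_
    refine mul_le_mul_of_nonneg_left ?_ (by positivity)
    refine pow_le_pow_right₀ ?_ ?_
    · have : (0 : ℝ) ≤ 1 / m := by positivity
      linarith
    · refine (Un_card M hl c1 c2).trans ?_
      exact Nat.mul_le_mul_right _ (Nat.mul_le_mul_left _ hs)
  let Idx : Finset (ℕ × ℕ × Fin 3) :=
    Finset.Icc l (2 * l) ×ˢ (Finset.Icc (3 * l) (4 * l) ×ˢ (Finset.univ : Finset (Fin 3)))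
  let C : Finset (Finset (Tr l)) := Idx.biUnion fun κ =>
    (Finset.univ : Finset (Set (TS M D))).biUnion fun τR =>
      (Finset.univ : Finset (Set (TS M D))).biUnion fun τL =>
        ((Un M l κ.1 κ.2.1).powerset.filter (fun t => t.card ≤ R)).image
          (fun S => Cy κ.1 κ.2.1 κ.2.2 τR τL S)
  refine ⟨C, ?_, ?_, ?_⟩
  · intro B hB
    obtain ⟨κ, hκ, hB⟩ := Finset.mem_biUnion.1 hB
    obtain ⟨τR, -, hB⟩ := Finset.mem_biUnion.1 hB
    obtain ⟨τL, -, hB⟩ := Finset.mem_biUnion.1 hB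
    obtain ⟨S, -, rfl⟩ := Finset.mem_image.1 hB
    simp only [Idx, Finset.mem_product] at hκ
    exact hC _ hκ.1 _ hκ.2.1 _ _ _ _
  · rintro ⟨x, y, z⟩ ⟨T, c, hc, hb⟩
    simp only at hc
    obtain ⟨c1, hc1, c2, hc2, hbb⟩ := exists_lines2 l D R hD hc hb
    have hc1' := hc1
    have hc2' := hc2
    rw [Finset.mem_Icc] at hc1' hc2'
    obtain ⟨b, hb1, hb2⟩ := compress (D := D) (lf := ow M c1 c2 (c T))
      (show c1 < c2 by omega) hc
    have hbR : b ≤ R := by
      have h3 : (D + 1) * b ≤ (D + 1) * R := hb2.trans hbb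
      exact Nat.le_of_mul_le_mul_left h3 (by omega)
    obtain ⟨S, hS1, hS2, hS3⟩ := cert_complete' (hb1.mono hbR) hc.2.2
    refine ⟨Cy c1 c2 (ow M c1 c2 (c T)) (table M (W x y z) (fun p => c2 < p) c2 D)
      (table M (W x y z) (fun p => p ≤ c1) (c1 + 1) D) S, ?_, ?_⟩
    · refine Finset.mem_biUnion.2 ⟨(c1, c2, ow M c1 c2 (c T)), ?_, ?_⟩
      · simp only [Idx, Finset.mem_product, Finset.mem_univ, and_true]
        exact ⟨hc1, hc2⟩
      · refine Finset.mem_biUnion.2 ⟨table M (W x y z) (fun p => c2 < p) c2 D,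
          Finset.mem_univ _, ?_⟩
        refine Finset.mem_biUnion.2 ⟨table M (W x y z) (fun p => p ≤ c1) (c1 + 1) D,
          Finset.mem_univ _, ?_⟩
        refine Finset.mem_image.2 ⟨S, ?_, rfl⟩
        rw [Finset.mem_filter, Finset.mem_powerset]
        refine ⟨?_, hS1⟩
        rintro ⟨v, i⟩ he
        obtain ⟨u, hu, ho, _⟩ := hS2 _ he
        exact emem_Un (show c1 < c2 by omega) hu ho
    · refine Finset.mem_filter.2 ⟨Finset.mem_univ _, ⟨?_, ?_⟩, ?_, ⟨?_, ?_⟩⟩
      · exact (hS3 0).congr (fun u v ho => eindep0 hl (by omega) (by omega) _ _ _ _ u v ho)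
      · exact htR c2 (by omega) _ _ _ _
      · exact (hS3 1).congr
          (fun u v ho => eindep1 (by omega) (by omega) (by omega) _ _ _ _ u v ho)
      · exact (hS3 2).congr (fun u v ho => eindep2 (by omega) (by omega) _ _ _ _ u v ho)
      · exact htL c1 (by omega) _ _ _ _
  · have hIdx : Idx.card = 3 * (l + 1) ^ 2 := by
      simp only [Idx, Finset.card_product, Nat.card_Icc, Finset.card_univ, Fintype.card_fin]
      rw [show 2 * l + 1 - l = l + 1 by omega, show 4 * l + 1 - 3 * l = l + 1 by omega]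
      ring
    have hsets : (Finset.univ : Finset (Set (TS M D))).card = 2 ^ Fintype.card (TS M D) := by
      rw [Finset.card_univ, Fintype.card_set]
    rw [← hIdx]
    refine Finset.card_biUnion_le_card_mul _ _ _ fun κ hκ => ?_
    rw [← hsets]
    refine Finset.card_biUnion_le_card_mul _ _ _ fun τR _ => ?_
    refine Finset.card_biUnion_le_card_mul _ _ _ fun τL _ => ?_
    exact Finset.card_image_le.trans (hPS _ _)

end Pool.Agent.L0h35.Bc
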