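import Pool.Agent.L0h35.BcMix
import Pool.Agent.L0h35.BcClosure

/-!
# The Boolean closure of the languages of two-head automata with a lazy head (helper35)

The lemmas on moves and reversals of one head are helper32's (from the file of
`MP_d0a708_lc.LazyHead`).
-/

set_option autoImplicit false

namespace Pool.Agent.L0h35.Bc

open Pool.Agent.L0h32.HA

/-- The number of reversals of head `i` in the first `T` steps of `c`. -/
noncomputable def revsOf {k : ℕ} {A : Type} {M : HeadAut k A} (c : ℕ → M.Cfg)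
    (i : Fin k) (T : ℕ) : ℕ :=
  Set.ncard {t : ℕ | t < T ∧ HeadAut.Rev c i t}

/-- Head `i` is one-way: it never moves to the left. -/
def OneWay {k : ℕ} {A : Type} (M : HeadAut k A) (i : Fin k) : Prop :=
  ∀ q σ q' m, M.δ q σ q' m → m i ≠ -1

/-- The languages of nondeterministic two-way two-head automata that have, for every accepted word
`w`, an accepting computation in which some head makes at most `f |w|` moves, or some head makes at
most `q |w|` reversals. -/
def LazyTwoHeads (A : Type) (f q : ℕ → ℕ) : Set (Set (List A)) :=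
  {L | ∃ M : HeadAut 2 A, M.lang = L ∧ ∀ w ∈ M.lang, ∃ T c, M.IsAccRun w T c ∧
    ∃ i, HeadAut.moves c i T ≤ f w.length ∨ revsOf c i T ≤ q w.length}

/-- The languages of nondeterministic two-head automata with a two-way head and a one-way head
(or two one-way heads). -/
def OneWayHead (A : Type) : Set (Set (List A)) :=
  {L | ∃ (M : HeadAut 2 A) (i : Fin 2), OneWay M i ∧ M.lang = L}

/-- A head that makes few reversals makes few moves. -/
lemma mv_le_rev (p : ℕ → ℕ) (B N : ℕ) (hB : ∀ t ≤ N, p t ≤ B)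
    (hp : ∀ t < N, p (t + 1) ≤ p t + 1 ∧ p t ≤ p (t + 1) + 1) :
    mv p N ≤ B * (((Finset.range N).filter (fun t => Rv p t)).card + 1) := by
  have key : ∀ T ≤ N, mv p T ≤ B * ((Finset.range T).filter (fun t => Rv p t)).card +
      (if dr p T = 1 then p T else if dr p T = -1 then B - p T else 0) := by
    intro T
    induction T with
    | zero => simp [mv]
    | succ T ih =>
      intro hTN
      replace ih := ih (by omega)
      have hrv : ((Finset.range (T + 1)).filter (fun t => Rv p t)).card =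
          ((Finset.range T).filter (fun t => Rv p t)).card + if Rv p T then 1 else 0 := by
        rw [Finset.range_add_one, Finset.filter_insert]
        split_ifs with h
        · rw [Finset.card_insert_of_notMem (by simp)]
        · rfl
      rw [hrv, mv_succ, Nat.mul_add]
      have hd : dr p (T + 1) = if p T < p (T + 1) then 1 else if p (T + 1) < p T then -1
        else dr p T := rfl
      have b1 := hB T (by omega)
      have b2 := hB (T + 1) hTN
      obtain ⟨s1, s2⟩ := hp T (by omega)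
      rcases lt_trichotomy (p T) (p (T + 1)) with h | h | h
      · have hd1 : dr p (T + 1) = 1 := by rw [hd, if_pos h]
        rw [hd1, if_pos (show (1 : SignType) = 1 from rfl),
          if_pos (show p T ≠ p (T + 1) by omega)]
        by_cases h1 : dr p T = -1
        · rw [if_pos (show Rv p T from Or.inl ⟨h, h1⟩)]
          rw [h1] at ih
          rw [if_neg (by decide), if_pos rfl] at ih
          omega
        · by_cases h2 : dr p T = 1
          · rw [if_pos h2] at ih
            omega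
          · rw [if_neg h2, if_neg h1] at ih
            omega
      · have hd1 : dr p (T + 1) = dr p T := by
          rw [hd, if_neg (by omega), if_neg (by omega)]
        rw [hd1, if_neg (show ¬ (p T ≠ p (T + 1)) by omega), ← h]
        omega
      · have hd1 : dr p (T + 1) = -1 := by rw [hd, if_neg (by omega), if_pos h]
        rw [hd1, if_neg (show ¬ ((-1 : SignType) = 1) by decide),
          if_pos (show (-1 : SignType) = -1 from rfl),
          if_pos (show p T ≠ p (T + 1) by omega)]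
        by_cases h1 : dr p T = 1
        · rw [if_pos (show Rv p T from Or.inr ⟨h, h1⟩)]
          rw [if_pos h1] at ih
          omega
        · rw [if_neg h1] at ih
          by_cases h2 : dr p T = -1
          · rw [if_pos h2] at ih
            omega
          · rw [if_neg h2] at ih
            omega
  have h := key N le_rfl
  have h1 : (if dr p N = 1 then p N else if dr p N = -1 then B - p N else 0) ≤ B := by
    have := hB N le_rfl
    split_ifs <;> omega
  rw [Nat.mul_add, Nat.mul_one]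
  omega

lemma revsOf_eq {M : HeadAut 2 Sym} (c : ℕ → M.Cfg) (i : Fin 2) (T : ℕ) :
    revsOf c i T =
      ((Finset.range T).filter (fun t => Rv (fun t => (c t).2 i) t)).card := by
  unfold revsOf
  rw [← Set.ncard_coe_finset]
  congr 1
  ext t
  simp [rev_iff]

lemma moves_le_revs {M : HeadAut 2 Sym} {w : List Sym} {T : ℕ} {c : ℕ → M.Cfg}
    (hc : M.IsAccRun w T c) (i : Fin 2) :
    HeadAut.moves c i T ≤ (w.length + 1) * (revsOf c i T + 1) := by
  rw [revsOf_eq]
  obtain ⟨h0, h1, _⟩ := hc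
  refine mv_le_rev (fun t => (c t).2 i) (w.length + 1) T ?_ ?_
  · intro t ht
    cases t with
    | zero => rw [h0]; simp [HeadAut.init]
    | succ t => exact (step_pos M (h1 t (by omega)) i).2.2
  · intro t ht
    have := step_pos M (h1 t ht) i
    exact ⟨this.1, this.2.1⟩

lemma log_five_pow (j : ℕ) : Real.log ((5 * 2 ^ j : ℕ) : ℝ) ≤ j + 3 := by
  have h1 : ((5 * 2 ^ j : ℕ) : ℝ) ≤ Real.exp (j + 3) := by
    have h2 : (2 : ℝ) ≤ Real.exp 1 := by
      have := Real.add_one_le_exp (1 : ℝ)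
      linarith
    have h3 : Real.exp ((j : ℝ) + 3) = Real.exp 1 ^ (j + 3) := by
      rw [← Real.exp_nat_mul]
      congr 1
      push_cast
      ring
    rw [h3, pow_add]
    push_cast
    have h4 : (2 : ℝ) ^ j ≤ Real.exp 1 ^ j := pow_le_pow_left₀ (by norm_num) h2 j
    have h5 : (2 : ℝ) ^ 3 ≤ Real.exp 1 ^ 3 := pow_le_pow_left₀ (by norm_num) h2 3
    have h6 : (0 : ℝ) ≤ 2 ^ j := by positivity
    nlinarith
  have h2 : (0 : ℝ) < ((5 * 2 ^ j : ℕ) : ℝ) := by positivity
  calc Real.log ((5 * 2 ^ j : ℕ) : ℝ) ≤ Real.log (Real.exp (j + 3)) := Real.log_le_log h2 h1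
    _ = j + 3 := Real.log_exp _

/-- A one-way head makes no reversals. -/
lemma oneway_revs {k : ℕ} {A : Type} {M : HeadAut k A} {w : List A} {T : ℕ} {c : ℕ → M.Cfg}
    (hc : M.IsAccRun w T c) {i : Fin k} (h : OneWay M i) : revsOf c i T = 0 := by
  obtain ⟨_, h1, _⟩ := hc
  have hup : ∀ t < T, (c t).2 i ≤ (c (t + 1)).2 i := by
    intro t ht
    obtain ⟨m, m1, m2, _⟩ := h1 t ht
    have m3 := h _ _ _ _ m1
    have m4 := m2 i
    have m5 : (0 : ℤ) ≤ (m i : ℤ) := by
      cases hmi : m i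
      · simp
      · exact absurd hmi m3
      · simp
    omega
  have hdir : ∀ t ≤ T, HeadAut.dir c i t ≠ -1 := by
    intro t
    induction t with
    | zero => intro _; simp [HeadAut.dir]
    | succ t ih =>
      intro ht
      have := hup t (by omega)
      unfold HeadAut.dir
      split_ifs with h2 h3
      · decide
      · omega
      · exact ih (by omega)
  unfold revsOf
  have : {t : ℕ | t < T ∧ HeadAut.Rev c i t} = ∅ := by
    ext t
    simp only [Set.mem_ofPred_eq, Set.mem_empty_iff_false, iff_false, not_and]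
    intro ht hrev
    have a := hup t ht
    have b := hdir t ht.le
    rcases hrev with ⟨_, h3⟩ | ⟨h3, _⟩
    · exact b h3
    · omega
  rw [this, Set.ncard_empty]


/-- large lengths -/
theorem exists_len_pow (K N : ℕ) : ∃ j, N ≤ j ∧ 2 ^ 10 * K * (Nat.log 2 (2 ^ j) + 1) ≤ 2 ^ j := by
  obtain ⟨a, ha⟩ : ∃ a, a = K + N + 4 := ⟨_, rfl⟩
  refine ⟨2 * a + 11, by omega, ?_⟩
  rw [Nat.log_pow (by norm_num)]
  have h1 : K ≤ 2 ^ a := by
    have : a < 2 ^ a := Nat.lt_two_pow_self
    omega
  have h2 : a + 6 ≤ 2 ^ a := by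
    obtain ⟨b, hb⟩ : ∃ b, a = b + 4 := ⟨K + N, ha⟩
    rw [hb, pow_add]
    have : b < 2 ^ b := Nat.lt_two_pow_self
    omega
  calc 2 ^ 10 * K * (2 * a + 11 + 1) = 2 ^ 11 * (K * (a + 6)) := by ring
    _ ≤ 2 ^ 11 * (2 ^ a * 2 ^ a) := Nat.mul_le_mul_left _ (Nat.mul_le_mul h1 h2)
    _ = 2 ^ (2 * a + 11) := by ring

/-- **The lower bound for combinations.** -/
theorem lazy_comb_bound (K : ℕ) (M : Fin K → HeadAut 2 Sym)
    (h : (Fin K → Prop) → Prop) (l s : ℕ) (hK : 1 ≤ K) (hs : ∀ i, Fintype.card (M i).Q ≤ s)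
    (hl : 2 ^ 10 * K * (Nat.log 2 l + 1) ≤ l)
    (hM : ∀ w : List Sym, w.length = 5 * l → (w ∈ P.lang ↔ h (fun i => w ∈ (M i).lang))) :
    ∃ i, ∃ w ∈ (M i).lang, w.length = 5 * l ∧ ∀ T c, (M i).IsAccRun w T c → ∀ j : Fin 2,
      l * Nat.log 2 l ≤ 2 ^ 20 * K * (Nat.log 2 (K * s) + 1) * (HeadAut.moves c j T + l) ∧
      Nat.log 2 l ≤ 2 ^ 23 * K * (Nat.log 2 (K * s) + 1) * (revsOf c j T + 1) := by
  have hl1 : 1 ≤ l := by
    rcases Nat.eq_zero_or_pos l with h0 | h0
    · subst h0
      have : 1 ≤ 2 ^ 10 * K * (Nat.log 2 0 + 1) := Nat.succ_le_of_lt (by positivity)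
      omega
    · exact h0
  obtain ⟨i, w, hw, hlen, hall⟩ := mixed_bound hK M h l s hs hl hM
  refine ⟨i, w, hw, hlen, fun T c hc j => ?_⟩
  have h1 := (hall T c hc).2.2 j
  refine ⟨h1, ?_⟩
  have h2 := moves_le_revs hc j
  rw [hlen] at h2
  set Q := Nat.log 2 (K * s) + 1 with hQ
  set r := revsOf c j T with hr
  have h3 : HeadAut.moves c j T + l ≤ l * (8 * (r + 1)) := by
    have e1 : (5 * l + 1) * (r + 1) + l ≤ l * (8 * (r + 1)) := by
      have e2 : 1 * (r + 1) ≤ l * (r + 1) := Nat.mul_le_mul_right _ hl1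
      have e3 : l * 1 ≤ l * (r + 1) := Nat.mul_le_mul_left _ (by omega)
      have e4 : (5 * l + 1) * (r + 1) + l = 5 * (l * (r + 1)) + 1 * (r + 1) + l * 1 := by ring
      have e5 : l * (8 * (r + 1)) = 8 * (l * (r + 1)) := by ring
      rw [e4, e5]
      omega
    omega
  have h4 : l * Nat.log 2 l ≤ l * (2 ^ 23 * K * Q * (r + 1)) := by
    calc l * Nat.log 2 l ≤ 2 ^ 20 * K * Q * (HeadAut.moves c j T + l) := h1
      _ ≤ 2 ^ 20 * K * Q * (l * (8 * (r + 1))) := Nat.mul_le_mul_left _ h3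
      _ = l * (2 ^ 23 * K * Q * (r + 1)) := by ring
  exact Nat.le_of_mul_le_mul_left h4 (by omega)

theorem not_lazy_closure (f q : ℕ → ℕ)
    (hf : (fun n => (f n : ℝ)) =o[Filter.atTop] (fun n : ℕ => (n : ℝ) * Real.log n))
    (hq : (fun n => (q n : ℝ)) =o[Filter.atTop] (fun n : ℕ => Real.log n)) :
    P.lang ∉ BoolClosure (LazyTwoHeads Sym f q) := by
  rintro ⟨K, G, h, hG, hL⟩
  rcases Nat.eq_zero_or_pos K with hK0 | hK
  · subst hK0
    obtain ⟨u, v, hu, hv⟩ := lang_nontriv
    rw [hL] at hu hv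
    have : (fun i => u ∈ G i) = fun i => v ∈ G i := funext fun i => i.elim0
    rw [this] at hu
    exact hv hu
  choose M hMl hMr using hG
  obtain ⟨s, hs⟩ : ∃ s : ℕ, ∀ i, Fintype.card (M i).Q ≤ s :=
    ⟨Finset.univ.sup fun i => Fintype.card (M i).Q, fun i =>
      Finset.le_sup (f := fun i => Fintype.card (M i).Q) (Finset.mem_univ i)⟩
  obtain ⟨Q, hQ⟩ : ∃ Q : ℕ, Q = Nat.log 2 (K * s) + 1 := ⟨_, rfl⟩
  have hQpos : 0 < Q := by omega
  obtain ⟨B, hB⟩ : ∃ B : ℕ, B = 2 ^ 20 * K * Q := ⟨_, rfl⟩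
  have hBpos : 0 < B := by rw [hB]; positivity
  obtain ⟨B', hB'⟩ : ∃ B' : ℕ, B' = 2 ^ 23 * K * Q := ⟨_, rfl⟩
  have hBpos' : 0 < B' := by rw [hB']; positivity
  obtain ⟨N3, hN3⟩ := Filter.eventually_atTop.1 (hf.def (c := 1 / (20 * (B : ℝ)))
    (by positivity))
  obtain ⟨N4, hN4⟩ := Filter.eventually_atTop.1 (hq.def (c := 1 / (4 * (B' : ℝ)))
    (by positivity))
  obtain ⟨j, hj, hlK⟩ := exists_len_pow K (N3 + N4 + 2 * B + 2 * B' + 2)
  have hjj : j < 2 ^ j := Nat.lt_two_pow_self
  obtain ⟨i, w, hw, hlen, hall⟩ := lazy_comb_bound K M h (2 ^ j) s hK hs hlK (fun w _ => by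
    rw [hL]
    simp only [hMl])
  obtain ⟨T, c, hc, e, hcheap⟩ := hMr i w hw
  have h34 := hall T c hc e
  rw [hlen] at hcheap
  have hBr : (0 : ℝ) < B := by exact_mod_cast hBpos
  have hBr' : (0 : ℝ) < B' := by exact_mod_cast hBpos'
  have h5' : 2 * (B : ℝ) + 2 ≤ j := by
    have : 2 * B + 2 ≤ j := by omega
    exact_mod_cast this
  have h5'' : 2 * (B' : ℝ) + 2 ≤ j := by
    have : 2 * B' + 2 ≤ j := by omega
    exact_mod_cast this
  have hp : (0 : ℝ) < (2 : ℝ) ^ j := by positivity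
  have hlog := log_five_pow j
  have hlog0 : 0 ≤ Real.log ((5 * 2 ^ j : ℕ) : ℝ) := by
    apply Real.log_nonneg
    have : 1 ≤ 5 * 2 ^ j := by omega
    exact_mod_cast this
  rcases hcheap with hT | hT
  · have h7 := h34.1
    rw [← hQ, ← hB, Nat.log_pow (by norm_num)] at h7
    have h8 := hN3 (5 * 2 ^ j) (by omega)
    rw [Real.norm_of_nonneg (by positivity),
      Real.norm_of_nonneg (mul_nonneg (by positivity) hlog0)] at h8
    have hT' : (HeadAut.moves c e T : ℝ) ≤ f (5 * 2 ^ j) := by exact_mod_cast hT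
    have h1' : (2 : ℝ) ^ j * j ≤ B * (HeadAut.moves c e T + 2 ^ j) := by exact_mod_cast h7
    have h3 : (HeadAut.moves c e T : ℝ) ≤ 1 / (20 * (B : ℝ)) * (5 * 2 ^ j * (j + 3)) := by
      refine (hT'.trans h8).trans ?_
      refine mul_le_mul_of_nonneg_left ?_ (by positivity)
      push_cast at hlog ⊢
      exact mul_le_mul_of_nonneg_left hlog (by positivity)
    have h4 : (B : ℝ) * HeadAut.moves c e T ≤ 2 ^ j * ((j + 3) / 4) := by
      calc (B : ℝ) * HeadAut.moves c e T ≤
            B * (1 / (20 * (B : ℝ)) * (5 * 2 ^ j * (j + 3))) :=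
            mul_le_mul_of_nonneg_left h3 hBr.le
        _ = 2 ^ j * ((j + 3) / 4) := by field_simp; ring
    have h9 : (2 : ℝ) ^ j * j ≤ 2 ^ j * ((j + 3) / 4 + B) := by
      calc (2 : ℝ) ^ j * j ≤ B * (HeadAut.moves c e T + 2 ^ j) := h1'
        _ = B * HeadAut.moves c e T + 2 ^ j * B := by ring
        _ ≤ 2 ^ j * ((j + 3) / 4) + 2 ^ j * B := by linarith
        _ = _ := by ring
    have h6 : (j : ℝ) ≤ (j + 3) / 4 + B := le_of_mul_le_mul_left h9 hp
    linarith
  · have h7 := h34.2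
    rw [← hQ, ← hB', Nat.log_pow (by norm_num)] at h7
    have h8 := hN4 (5 * 2 ^ j) (by omega)
    rw [Real.norm_of_nonneg (by positivity), Real.norm_of_nonneg hlog0] at h8
    have hT' : (revsOf c e T : ℝ) ≤ q (5 * 2 ^ j) := by exact_mod_cast hT
    have h1' : (j : ℝ) ≤ B' * (revsOf c e T + 1) := by exact_mod_cast h7
    have h3 : (revsOf c e T : ℝ) ≤ 1 / (4 * (B' : ℝ)) * (j + 3) := by
      refine (hT'.trans h8).trans ?_
      exact mul_le_mul_of_nonneg_left hlog (by positivity)
    have h4 : (B' : ℝ) * revsOf c e T ≤ (j + 3) / 4 := by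
      calc (B' : ℝ) * revsOf c e T ≤ B' * (1 / (4 * (B' : ℝ)) * (j + 3)) :=
            mul_le_mul_of_nonneg_left h3 hBr'.le
        _ = (j + 3) / 4 := by field_simp
    linarith

/-- Combinations of automata with a one-way head. -/
theorem not_oneway_closure : P.lang ∉ BoolClosure (OneWayHead Sym) := by
  rintro ⟨K, G, h, hG, hL⟩
  refine not_lazy_closure (fun _ => 0) (fun _ => 0) ?_ ?_ ⟨K, G, h, ?_, hL⟩
  · simp only [Nat.cast_zero]
    exact Asymptotics.isLittleO_zero _ _
  · simp only [Nat.cast_zero]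
    exact Asymptotics.isLittleO_zero _ _
  · intro i
    obtain ⟨M, e, he, hM⟩ := hG i
    refine ⟨M, hM, ?_⟩
    rintro w ⟨T, c, hc⟩
    exact ⟨T, c, hc, e, Or.inr (oneway_revs hc he).le⟩

end Pool.Agent.L0h35.Bc
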