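import Pool.Agent.L0h35.BcCover
import Pool.Agent.L0h35.BcNum

/-!
# Boolean combinations of cheap two-head automata (helper35)
-/

set_option autoImplicit false

namespace Pool.Agent.L0h35.Bc

open Pool.Agent.L0h32.HA

open Classical in
theorem no_cheap_comb {K : ℕ} (hK : 1 ≤ K) (M : Fin K → HeadAut 2 Sym)
    (h : (Fin K → Prop) → Prop) {l s R lam : ℕ} (hs : ∀ i, Fintype.card (M i).Q ≤ s)
    (hKs : K * s ≤ 2 ^ lam) (hlam : 1 ≤ lam) (hR : 600 * K * lam * R ≤ l)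
    (hl : 1024 * K * (Nat.log 2 l + 1) ≤ l)
    (hM : ∀ x y z : Fin l → Bool, sg x y z = -1 ↔ h (fun i => W x y z ∈ (M i).lang))
    (hcheap : ∀ i, ∀ x y z : Fin l → Bool, W x y z ∈ (M i).lang →
      ∃ T c, (M i).IsAccRun (W x y z) T c ∧
      ∃ c1 ∈ Finset.Icc l (2 * l), ∃ c2 ∈ Finset.Icc (3 * l) (4 * l),
        bcount (ow (M i) c1 c2) c T ≤ R) : False := by
  have hl1 : 1 ≤ l := by
    rcases Nat.eq_zero_or_pos l with h0 | h0
    · subst h0
      have : 1 ≤ 1024 * K * (Nat.log 2 0 + 1) := Nat.succ_le_of_lt (by positivity)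
      omega
    · exact h0
  let G : Fin K → Finset (Tr l) := fun i =>
    Finset.univ.filter fun a => W a.1 a.2.1 a.2.2 ∈ (M i).lang
  have hG : ∀ i, ∀ a : Tr l, a ∈ G i ↔ W a.1 a.2.1 a.2.2 ∈ (M i).lang := by
    intro i a
    simp only [G, Finset.mem_filter, Finset.mem_univ, true_and]
  have hm : (1 : ℝ) ≤ (2 : ℝ) ^ (lam + 14) := one_le_pow₀ (by norm_num)
  choose C hC1 hC2 hC3 using fun i => cover (M i) hl1 (hs i) ((2 : ℝ) ^ (lam + 14)) hm (G i) (hG i)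
    (fun a ha => hcheap i a.1 a.2.1 a.2.2 ((hG i a).1 ha))
  set E : ℝ := ((2 : ℝ) ^ (lam + 14)) ^ R * (1 + 1 / (2 : ℝ) ^ (lam + 14)) ^ (168 * s * l) with hE
  have hE1 : 1 ≤ E := by
    have h1 : (1 : ℝ) ≤ ((2 : ℝ) ^ (lam + 14)) ^ R := one_le_pow₀ hm
    have h2 : (1 : ℝ) ≤ (1 + 1 / (2 : ℝ) ^ (lam + 14)) ^ (168 * s * l) := by
      refine one_le_pow₀ ?_
      have : (0 : ℝ) ≤ 1 / (2 : ℝ) ^ (lam + 14) := by positivity
      linarith
    calc (1 : ℝ) = 1 * 1 := by ring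
      _ ≤ E := mul_le_mul h1 h2 (by norm_num) (by linarith)
  have hfl : 1 ≤ ⌊E⌋₊ := Nat.le_floor (by exact_mod_cast hE1)
  set N : ℕ := 3 * (l + 1) ^ 2 * ⌊E⌋₊ with hN
  have hN1 : 1 ≤ N := Nat.succ_le_of_lt (by positivity)
  obtain ⟨B, hB, hbig, hsum⟩ := comb hK hN1 G C hC1 hC2 hC3 (by
    intro a b hab
    have h1 : (fun i => W a.1 a.2.1 a.2.2 ∈ (M i).lang) =
        fun i => W b.1 b.2.1 b.2.2 ∈ (M i).lang := by
      funext i
      rw [← hG i a, ← hG i b]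
      exact propext (hab i)
    have h2 : sg a.1 a.2.1 a.2.2 = -1 ↔ sg b.1 b.2.1 b.2.2 = -1 := by
      rw [hM, hM, h1]
    rcases sg_cases a.1 a.2.1 a.2.2 with ha | ha <;>
      rcases sg_cases b.1 b.2.1 b.2.2 with hb | hb
    · rw [ha, hb]
    · rw [h2.2 hb, hb]
    · rw [ha, h2.1 ha]
    · rw [ha, hb])
  have hB4 : (B.card : ℤ) ^ 4 ≤ 16 * 3072 ^ l := by
    calc (B.card : ℤ) ^ 4 ≤ (2 * |∑ a ∈ B, sg a.1 a.2.1 a.2.2|) ^ 4 :=
          pow_le_pow_left₀ (by positivity) hsum 4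
      _ = 16 * (∑ a ∈ B, sg a.1 a.2.1 a.2.2) ^ 4 := by
          rw [mul_pow, Even.pow_abs (by decide)]
          norm_num
      _ ≤ 16 * 3072 ^ l := by
          have := disc hB
          linarith
  have hB4' : (B.card : ℝ) ^ 4 ≤ 16 * 3072 ^ l := by exact_mod_cast hB4
  have hbig' : (8 : ℝ) ^ l ≤ B.card * (4 * K * N) ^ K := by exact_mod_cast hbig
  have hN' : (N : ℝ) ≤ 3 * ((l : ℝ) + 1) ^ 2 * E := by
    rw [hN]
    push_cast
    exact mul_le_mul_of_nonneg_left (Nat.floor_le (by linarith)) (by positivity)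
  have hnum := numeric l K s R lam hK hKs hlam hR hl
  rw [← hE] at hnum
  have h84 : ((8 : ℝ) ^ l) ^ 4 ≤ (B.card * (4 * K * N) ^ K) ^ 4 :=
    pow_le_pow_left₀ (by positivity) hbig' 4
  have h4096 : ((8 : ℝ) ^ l) ^ 4 = (4 / 3) ^ l * 3072 ^ l := by
    rw [← mul_pow, ← pow_mul, mul_comm l 4, pow_mul]
    norm_num
  have hKr : (1 : ℝ) ≤ K := by exact_mod_cast hK
  have h1 : ((B.card : ℝ) * (4 * K * N) ^ K) ^ 4 = (B.card : ℝ) ^ 4 * (4 * K * N) ^ (4 * K) := by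
    rw [mul_pow, ← pow_mul, mul_comm K 4]
  have h2 : (4 * (K : ℝ) * N) ^ (4 * K) ≤
      (4 * K * (3 * ((l : ℝ) + 1) ^ 2 * E)) ^ (4 * K) :=
    pow_le_pow_left₀ (by positivity) (mul_le_mul_of_nonneg_left hN' (by positivity)) _
  have h3 : (B.card : ℝ) ^ 4 * (4 * K * N) ^ (4 * K) ≤
      (16 * 3072 ^ l) * (4 * K * (3 * ((l : ℝ) + 1) ^ 2 * E)) ^ (4 * K) :=
    mul_le_mul hB4' h2 (by positivity) (by positivity)
  have h4 : (16 * 3072 ^ l) * (4 * (K : ℝ) * (3 * ((l : ℝ) + 1) ^ 2 * E)) ^ (4 * K) <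
      (4 / 3) ^ l * 3072 ^ l := by
    calc (16 * 3072 ^ l) * (4 * (K : ℝ) * (3 * ((l : ℝ) + 1) ^ 2 * E)) ^ (4 * K) =
        (16 * (4 * (K : ℝ) * (3 * ((l : ℝ) + 1) ^ 2 * E)) ^ (4 * K)) * 3072 ^ l := by ring
      _ < (4 / 3) ^ l * 3072 ^ l := mul_lt_mul_of_pos_right hnum (by positivity)
  rw [h1] at h84
  rw [h4096] at h84
  linarith

/-- **The lower bound for combinations.** -/
theorem comb_lower_bound {K : ℕ} (hK : 1 ≤ K) (M : Fin K → HeadAut 2 Sym)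
    (h : (Fin K → Prop) → Prop) (l s : ℕ) (hs : ∀ i, Fintype.card (M i).Q ≤ s)
    (hl : 2 ^ 10 * K * (Nat.log 2 l + 1) ≤ l)
    (hM : ∀ w : List Sym, w.length = 5 * l → (w ∈ P.lang ↔ h (fun i => w ∈ (M i).lang))) :
    ∃ i, ∃ w ∈ (M i).lang, w.length = 5 * l ∧ ∀ T c, (M i).IsAccRun w T c →
      l ^ 2 ≤ 2 ^ 20 * K * (Nat.log 2 (K * s) + 1) * (T + 1) ∧
      l ≤ 2 ^ 20 * K * (Nat.log 2 (K * s) + 1) * (HeadAut.revs c T + 1) := by
  have hl1 : 1 ≤ l := by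
    rcases Nat.eq_zero_or_pos l with h0 | h0
    · subst h0
      have : 1 ≤ 2 ^ 10 * K * (Nat.log 2 0 + 1) := Nat.succ_le_of_lt (by positivity)
      omega
    · exact h0
  have hM' : ∀ x y z : Fin l → Bool, sg x y z = -1 ↔ h (fun i => W x y z ∈ (M i).lang) :=
    fun x y z => (W_mem_lang x y z hl1).symm.trans (hM _ (W_length x y z))
  set lam := Nat.log 2 (K * s) + 1 with hlam
  have hlam1 : 1 ≤ lam := by omega
  have hKs : K * s ≤ 2 ^ lam := (Nat.lt_pow_succ_log_self (by norm_num) _).le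
  by_contra hcon
  push Not at hcon
  have hp : 0 < 600 * K * lam := by positivity
  refine no_cheap_comb (R := l / (600 * K * lam)) hK M h hs hKs hlam1
    (Nat.mul_div_le l (600 * K * lam)) (by simpa using hl) hM' ?_
  intro i x y z hxyz
  obtain ⟨T, c, hc, hsmall⟩ := hcon i (W x y z) hxyz (W_length x y z)
  refine ⟨T, c, hc, ?_⟩
  have hle : ∀ b : ℕ, 600 * K * lam * b ≤ l → b ≤ l / (600 * K * lam) := by
    intro b hb
    rw [Nat.le_div_iff_mul_le hp]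
    rw [mul_comm]; exact hb
  by_cases h1 : l ^ 2 ≤ 2 ^ 20 * K * lam * (T + 1)
  · -- few reversals
    have h2 := hsmall h1
    refine ⟨l, by simp; omega, 3 * l, by simp; omega, hle _ ?_⟩
    have hb := bcount_le_revs (M i) l (3 * l) hc
    calc 600 * K * lam * bcount (ow (M i) l (3 * l)) c T ≤
          600 * K * lam * (4 * (HeadAut.revs c T + 1)) := Nat.mul_le_mul_left _ hb
      _ = 2400 * K * lam * (HeadAut.revs c T + 1) := by ring
      _ ≤ 2 ^ 20 * K * lam * (HeadAut.revs c T + 1) := by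
          refine Nat.mul_le_mul_right _ (Nat.mul_le_mul_right _ (Nat.mul_le_mul_right _
            (by norm_num)))
      _ ≤ l := h2.le
  · -- short
    push Not at h1
    obtain ⟨c1, hc1, c2, hc2, hb⟩ := exists_lines (M i) l hc
    refine ⟨c1, hc1, c2, hc2, hle _ ?_⟩
    set b := bcount (ow (M i) c1 c2) c T with hbdef
    by_contra hgt
    push Not at hgt
    have e1 : (l + 1) * (600 * K * lam * b) ≤ 2400 * K * lam * T := by
      calc (l + 1) * (600 * K * lam * b) = 600 * K * lam * ((l + 1) * b) := by ring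
        _ ≤ 600 * K * lam * (4 * T) := Nat.mul_le_mul_left _ hb
        _ = 2400 * K * lam * T := by ring
    have e2 : 2400 * K * lam * T ≤ 2 ^ 20 * K * lam * (T + 1) := by
      calc 2400 * K * lam * T ≤ 2 ^ 20 * K * lam * T :=
            Nat.mul_le_mul_right _ (Nat.mul_le_mul_right _ (Nat.mul_le_mul_right _ (by norm_num)))
        _ ≤ _ := Nat.mul_le_mul_left _ (by omega)
    have e3 : (l + 1) * l ≤ (l + 1) * (600 * K * lam * b) := Nat.mul_le_mul_left _ hgt.le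
    nlinarith

end Pool.Agent.L0h35.Bc
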