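import Mathlib

/-!
# The numerical inequality with tables (helper35)
-/

set_option autoImplicit false

namespace Pool.Agent.L0h35.Bc

theorem numeric3 (l K s R lam NT : ℕ) (hK : 1 ≤ K) (hs : K * s ≤ 2 ^ lam) (hlam : 1 ≤ lam)
    (hR : 600 * K * lam * R ≤ l) (hl : 1024 * K * (Nat.log 2 l + 1) ≤ l)
    (hNT : 128 * K * NT ≤ l) :
    (16 : ℝ) * (4 * K * (9 * ((l : ℝ) + 1) ^ 2 * (2 ^ (2 * NT) *
      (((2 : ℝ) ^ (lam + 14)) ^ R * (1 + 1 / (2 : ℝ) ^ (lam + 14)) ^ (168 * s * l))))) ^ (4 * K) <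
      (4 / 3 : ℝ) ^ l := by
  set L2 := Nat.log 2 l + 1 with hL2
  have hL21 : 1 ≤ L2 := by omega
  have hl1024 : 1024 * K ≤ l := le_trans (Nat.le_mul_of_pos_right _ hL21) hl
  have hl1 : 1024 ≤ l := le_trans (Nat.le_mul_of_pos_right _ hK) hl1024
  have hlt : l < 2 ^ L2 := Nat.lt_pow_succ_log_self (by norm_num) l
  have hKr : (1 : ℝ) ≤ K := by exact_mod_cast hK
  have hK0 : (0 : ℝ) < K := by linarith
  have hlr : (1024 : ℝ) ≤ l := by exact_mod_cast hl1
  have hlogpos : 0 ≤ Real.log 2 := Real.log_nonneg (by norm_num)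
  have hlog2 : Real.log 2 < 0.6931471808 := Real.log_two_lt_d9
  -- the certificate count
  have h1 : ((2 : ℝ) ^ (lam + 14)) ^ R ≤ Real.exp (15 * lam * R * Real.log 2) := by
    rw [← pow_mul, ← Real.rpow_natCast, Real.rpow_def_of_pos (by norm_num)]
    apply Real.exp_le_exp.2
    rw [mul_comm]
    refine mul_le_mul_of_nonneg_right ?_ hlogpos
    push_cast
    have : ((lam : ℝ) + 14) ≤ 15 * lam := by
      have : (1 : ℝ) ≤ lam := by exact_mod_cast hlam
      linarith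
    exact mul_le_mul_of_nonneg_right this (by positivity)
  have h2 : (1 + 1 / (2 : ℝ) ^ (lam + 14)) ^ (168 * s * l) ≤
      Real.exp (168 * l / (16384 * K)) := by
    have hle : 1 + 1 / (2 : ℝ) ^ (lam + 14) ≤ Real.exp (1 / (2 : ℝ) ^ (lam + 14)) := by
      have := Real.add_one_le_exp (1 / (2 : ℝ) ^ (lam + 14))
      linarith
    refine (pow_le_pow_left₀ (by positivity) hle _).trans ?_
    rw [← Real.exp_nat_mul]
    apply Real.exp_le_exp.2
    have hs' : (K : ℝ) * s ≤ 2 ^ lam := by exact_mod_cast hs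
    have hpos : (0 : ℝ) < 2 ^ lam := by positivity
    rw [pow_add, mul_one_div]
    rw [div_le_div_iff₀ (by positivity) (by positivity)]
    have h16 : (2 : ℝ) ^ 14 = 16384 := by norm_num
    rw [h16]
    push_cast
    have h3 : (168 * (l : ℝ) * 16384) * (K * s) ≤ (168 * (l : ℝ) * 16384) * 2 ^ lam :=
      mul_le_mul_of_nonneg_left hs' (by positivity)
    nlinarith
  have h2' : (2 : ℝ) ^ (2 * NT) = Real.exp (2 * NT * Real.log 2) := by
    rw [← Real.rpow_natCast, Real.rpow_def_of_pos (by norm_num)]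
    congr 1
    push_cast
    ring
  -- the polynomial factor
  have h3 : 4 * (K : ℝ) * (9 * ((l : ℝ) + 1) ^ 2) ≤ Real.exp (3 * L2 * Real.log 2) := by
    have e1 : (36 * K : ℕ) ≤ 2 ^ L2 := by omega
    have e2 : l + 1 ≤ 2 ^ L2 := by omega
    have e1' : (36 : ℝ) * K ≤ 2 ^ L2 := by exact_mod_cast e1
    have e2' : (l : ℝ) + 1 ≤ 2 ^ L2 := by exact_mod_cast e2
    have e3 : Real.exp (3 * L2 * Real.log 2) = (2 : ℝ) ^ L2 * ((2 : ℝ) ^ L2) ^ 2 := by
      have : (2 : ℝ) ^ L2 = Real.exp (L2 * Real.log 2) := by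
        rw [← Real.rpow_natCast, Real.rpow_def_of_pos (by norm_num), mul_comm]
      rw [this, ← Real.exp_nat_mul, ← Real.exp_add]
      congr 1
      push_cast
      ring
    rw [e3]
    calc 4 * (K : ℝ) * (9 * ((l : ℝ) + 1) ^ 2) = (36 * K) * ((l : ℝ) + 1) ^ 2 := by ring
      _ ≤ (2 : ℝ) ^ L2 * ((2 : ℝ) ^ L2) ^ 2 :=
        mul_le_mul e1' (pow_le_pow_left₀ (by positivity) e2' 2) (by positivity) (by positivity)
  -- together
  have h4 : 4 * (K : ℝ) * (9 * ((l : ℝ) + 1) ^ 2 * (2 ^ (2 * NT) *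
      (((2 : ℝ) ^ (lam + 14)) ^ R * (1 + 1 / (2 : ℝ) ^ (lam + 14)) ^ (168 * s * l)))) ≤
      Real.exp (3 * L2 * Real.log 2 + (2 * NT * Real.log 2 + (15 * lam * R * Real.log 2 +
        168 * l / (16384 * K)))) := by
    rw [Real.exp_add, Real.exp_add, Real.exp_add]
    calc 4 * (K : ℝ) * (9 * ((l : ℝ) + 1) ^ 2 * (2 ^ (2 * NT) *
      (((2 : ℝ) ^ (lam + 14)) ^ R * (1 + 1 / (2 : ℝ) ^ (lam + 14)) ^ (168 * s * l))))
        = (4 * (K : ℝ) * (9 * ((l : ℝ) + 1) ^ 2)) * (2 ^ (2 * NT) *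
      (((2 : ℝ) ^ (lam + 14)) ^ R * (1 + 1 / (2 : ℝ) ^ (lam + 14)) ^ (168 * s * l))) := by ring
      _ ≤ _ := mul_le_mul h3 (mul_le_mul h2'.le (mul_le_mul h1 h2 (by positivity)
        (Real.exp_pos _).le) (by positivity) (Real.exp_pos _).le)
        (by positivity) (Real.exp_pos _).le
  have h5 : (4 * (K : ℝ) * (9 * ((l : ℝ) + 1) ^ 2 * (2 ^ (2 * NT) *
      (((2 : ℝ) ^ (lam + 14)) ^ R * (1 + 1 / (2 : ℝ) ^ (lam + 14)) ^ (168 * s * l))))) ^
        (4 * K) ≤ Real.exp ((4 * K : ℕ) *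
        (3 * L2 * Real.log 2 + (2 * NT * Real.log 2 + (15 * lam * R * Real.log 2 +
          168 * l / (16384 * K))))) := by
    refine (pow_le_pow_left₀ (by positivity) h4 (4 * K)).trans ?_
    rw [← Real.exp_nat_mul]
  have h6 : (16 : ℝ) = Real.exp (4 * Real.log 2) := by
    have : (4 : ℝ) * Real.log 2 = ((4 : ℕ) : ℝ) * Real.log 2 := by norm_num
    rw [this, Real.exp_nat_mul, Real.exp_log (by norm_num)]
    norm_num
  have h7 : Real.exp (l / 4) ≤ (4 / 3 : ℝ) ^ l := by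
    rw [← Real.rpow_natCast, Real.rpow_def_of_pos (by norm_num)]
    apply Real.exp_le_exp.2
    have : 1 - (4 / 3 : ℝ)⁻¹ ≤ Real.log (4 / 3) := Real.one_sub_inv_le_log_of_pos (by norm_num)
    have h' : (1 / 4 : ℝ) ≤ Real.log (4 / 3) := by
      refine le_trans ?_ this
      norm_num
    nlinarith
  refine lt_of_lt_of_le ?_ h7
  refine lt_of_le_of_lt (mul_le_mul_of_nonneg_left h5 (by norm_num)) ?_
  nth_rewrite 1 [h6]
  rw [← Real.exp_add]
  apply Real.exp_lt_exp.2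
  push_cast
  have hRr : (600 : ℝ) * K * lam * R ≤ l := by exact_mod_cast hR
  have hLr : (1024 : ℝ) * K * L2 ≤ l := by exact_mod_cast hl
  have hNr : (128 : ℝ) * K * NT ≤ l := by exact_mod_cast hNT
  have e1 : 4 * (K : ℝ) * (168 * l / (16384 * K)) = 672 / 16384 * l := by
    field_simp
    ring
  have e2 : 4 * (K : ℝ) * (3 * L2 * Real.log 2 + (2 * NT * Real.log 2 +
      (15 * lam * R * Real.log 2 + 168 * l / (16384 * K)))) =
      12 * (K * L2) * Real.log 2 + 8 * (K * NT) * Real.log 2 +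
      60 * (K * lam * R) * Real.log 2 + 672 / 16384 * l := by
    rw [← e1]
    ring
  rw [e2]
  have e3 : 12 * ((K : ℝ) * L2) * Real.log 2 ≤ 12 * ((K : ℝ) * L2) * 0.7 :=
    mul_le_mul_of_nonneg_left (by linarith) (by positivity)
  have e3' : 8 * ((K : ℝ) * NT) * Real.log 2 ≤ 8 * ((K : ℝ) * NT) * 0.7 :=
    mul_le_mul_of_nonneg_left (by linarith) (by positivity)
  have e4 : 60 * ((K : ℝ) * lam * R) * Real.log 2 ≤ 60 * ((K : ℝ) * lam * R) * 0.7 :=
    mul_le_mul_of_nonneg_left (by linarith) (by positivity)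
  have e5 : (1024 : ℝ) * (K * L2) ≤ l := by linarith
  have e6 : (600 : ℝ) * (K * lam * R) ≤ l := by linarith
  have e7 : (128 : ℝ) * (K * NT) ≤ l := by linarith
  nlinarith

end Pool.Agent.L0h35.Bc
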