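import Pool.Agent.L0h35.BcCover2
import Pool.Agent.L0h35.BcNum2

/-!
# Boolean combinations of two-head automata that are cheap in any of four senses (helper35)
-/

set_option autoImplicit false

namespace Pool.Agent.L0h35.Bc

open Pool.Agent.L0h32.HA

open Classical in
/-- The cover for a machine each of whose accepted words is cheap in one of three senses. -/
theorem coverAll (M : HeadAut 2 Sym) {l R D s NT : ℕ} (hl : 1 ≤ l) (hD : D ≤ l)
    (hs : Fintype.card M.Q ≤ s) (m : ℝ) (hm : 1 ≤ m) (hNT : Fintype.card (TS M D) ≤ NT)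
    (G : Finset (Tr l))
    (hG : ∀ a : Tr l, a ∈ G ↔ W a.1 a.2.1 a.2.2 ∈ M.lang)
    (hcheap : ∀ a ∈ G, Few M l R a ∨ Cheap M l D R a ∨ Cheap (swapM M) l D R a) :
    ∃ C : Finset (Finset (Tr l)), (∀ B ∈ C, IsCyl B ∧ B ⊆ G) ∧ (∀ a ∈ G, ∃ B ∈ C, a ∈ B) ∧
      C.card ≤ 9 * (l + 1) ^ 2 * (2 ^ (2 * NT) * ⌊m ^ R * (1 + 1 / m) ^ (168 * s * l)⌋₊) := by
  set F : ℕ := ⌊m ^ R * (1 + 1 / m) ^ (168 * s * l)⌋₊ with hF
  -- the sub-machine view: restrict the first cover to the cheap words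
  obtain ⟨C1, h11, h12, h13⟩ := cover2 (R := R) M hl hD hs m hm G hG
  have hG' : ∀ a : Tr l, a ∈ G ↔ W a.1 a.2.1 a.2.2 ∈ (swapM M).lang := by
    intro a
    rw [swap_lang]
    exact hG a
  have hs' : Fintype.card (swapM M).Q ≤ s := hs
  obtain ⟨C2, h21, h22, h23⟩ := cover2 (R := R) (swapM M) hl hD hs' m hm G hG'
  obtain ⟨C0, h01, h02, h03⟩ := coverFew (R := R) M hl hs m hm G hG
  have hT2 : Fintype.card (TS (swapM M) D) = Fintype.card (TS M D) := by
    rw [card_TS, card_TS]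
    rfl
  rw [hT2] at h23
  rw [← hF] at h13 h23 h03
  refine ⟨C0 ∪ (C1 ∪ C2), ?_, ?_, ?_⟩
  · intro B hB
    rcases Finset.mem_union.1 hB with h | h
    · exact h01 B h
    · rcases Finset.mem_union.1 h with h | h
      · exact h11 B h
      · exact h21 B h
  · intro a ha
    rcases hcheap a ha with h | h | h
    · obtain ⟨B, hB, haB⟩ := h02 a h
      exact ⟨B, Finset.mem_union_left _ hB, haB⟩
    · obtain ⟨B, hB, haB⟩ := h12 a h
      exact ⟨B, Finset.mem_union_right _ (Finset.mem_union_left _ hB), haB⟩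
    · obtain ⟨B, hB, haB⟩ := h22 a h
      exact ⟨B, Finset.mem_union_right _ (Finset.mem_union_right _ hB), haB⟩
  · have hp : (2 : ℕ) ^ Fintype.card (TS M D) * (2 ^ Fintype.card (TS M D) * F) ≤
        2 ^ (2 * NT) * F := by
      calc (2 : ℕ) ^ Fintype.card (TS M D) * (2 ^ Fintype.card (TS M D) * F) =
          2 ^ (2 * Fintype.card (TS M D)) * F := by
            rw [← mul_assoc, ← pow_add, ← two_mul]
        _ ≤ 2 ^ (2 * NT) * F :=
          Nat.mul_le_mul_right _ (Nat.pow_le_pow_right (by norm_num) (by omega))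
    have hp0 : F ≤ 2 ^ (2 * NT) * F := Nat.le_mul_of_pos_left _ (by positivity)
    have e0 : C0.card ≤ 3 * (l + 1) ^ 2 * (2 ^ (2 * NT) * F) :=
      h03.trans (Nat.mul_le_mul_left _ hp0)
    have e1 : C1.card ≤ 3 * (l + 1) ^ 2 * (2 ^ (2 * NT) * F) :=
      h13.trans (Nat.mul_le_mul_left _ hp)
    have e2 : C2.card ≤ 3 * (l + 1) ^ 2 * (2 ^ (2 * NT) * F) :=
      h23.trans (Nat.mul_le_mul_left _ hp)
    refine (Finset.card_union_le _ _).trans ?_
    have e3 := Finset.card_union_le C1 C2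
    calc C0.card + (C1 ∪ C2).card ≤ C0.card + (C1.card + C2.card) := by omega
      _ ≤ 3 * (l + 1) ^ 2 * (2 ^ (2 * NT) * F) + (3 * (l + 1) ^ 2 * (2 ^ (2 * NT) * F) +
          3 * (l + 1) ^ 2 * (2 ^ (2 * NT) * F)) := by omega
      _ = _ := by ring

open Classical in
theorem no_cheap_mixed {K : ℕ} (hK : 1 ≤ K) (M : Fin K → HeadAut 2 Sym)
    (h : (Fin K → Prop) → Prop) {l s R D NT lam : ℕ} (hs : ∀ i, Fintype.card (M i).Q ≤ s)
    (hKs : K * s ≤ 2 ^ lam) (hlam : 1 ≤ lam) (hR : 600 * K * lam * R ≤ l)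
    (hl : 1024 * K * (Nat.log 2 l + 1) ≤ l) (hD : D ≤ l)
    (hNTs : ∀ i, Fintype.card (TS (M i) D) ≤ NT) (hNT : 128 * K * NT ≤ l)
    (hM : ∀ x y z : Fin l → Bool, sg x y z = -1 ↔ h (fun i => W x y z ∈ (M i).lang))
    (hcheap : ∀ i, ∀ a : Tr l, W a.1 a.2.1 a.2.2 ∈ (M i).lang →
      Few (M i) l R a ∨ Cheap (M i) l D R a ∨ Cheap (swapM (M i)) l D R a) : False := by
  have hl1 : 1 ≤ l := by
    rcases Nat.eq_zero_or_pos l with h0 | h0
    · subst h0
      have : 1 ≤ 1024 * K * (Nat.log 2 0 + 1) := Nat.succ_le_of_lt (by positivity)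
      omega
    · exact h0
  let G : Fin K → Finset (Tr l) := fun i =>
    Finset.univ.filter fun a => W a.1 a.2.1 a.2.2 ∈ (M i).lang
  have hG : ∀ i, ∀ a : Tr l, a ∈ G i ↔ W a.1 a.2.1 a.2.2 ∈ (M i).lang := by
    intro i a
    simp only [G, Finset.mem_filter, Finset.mem_univ, true_and]
  have hm : (1 : ℝ) ≤ (2 : ℝ) ^ (lam + 14) := one_le_pow₀ (by norm_num)
  choose C hC1 hC2 hC3 using fun i => coverAll (M i) (R := R) hl1 hD (hs i)
    ((2 : ℝ) ^ (lam + 14)) hm (hNTs i) (G i) (hG i) (fun a ha => hcheap i a ((hG i a).1 ha))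
  set E : ℝ := ((2 : ℝ) ^ (lam + 14)) ^ R * (1 + 1 / (2 : ℝ) ^ (lam + 14)) ^ (168 * s * l) with hE
  have hE1 : 1 ≤ E := by
    have h1 : (1 : ℝ) ≤ ((2 : ℝ) ^ (lam + 14)) ^ R := one_le_pow₀ hm
    have h2 : (1 : ℝ) ≤ (1 + 1 / (2 : ℝ) ^ (lam + 14)) ^ (168 * s * l) := by
      refine one_le_pow₀ ?_
      have : (0 : ℝ) ≤ 1 / (2 : ℝ) ^ (lam + 14) := by positivity
      linarith
    calc (1 : ℝ) = 1 * 1 := by ring
      _ ≤ E := mul_le_mul h1 h2 (by norm_num) (by linarith)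
  have hfl : 1 ≤ ⌊E⌋₊ := Nat.le_floor (by exact_mod_cast hE1)
  set N : ℕ := 9 * (l + 1) ^ 2 * (2 ^ (2 * NT) * ⌊E⌋₊) with hN
  have hN1 : 1 ≤ N := Nat.succ_le_of_lt (by positivity)
  obtain ⟨B, hB, hbig, hsum⟩ := comb hK hN1 G C hC1 hC2 hC3 (by
    intro a b hab
    have h1 : (fun i => W a.1 a.2.1 a.2.2 ∈ (M i).lang) =
        fun i => W b.1 b.2.1 b.2.2 ∈ (M i).lang := by
      funext i
      rw [← hG i a, ← hG i b]
      exact propext (hab i)
    have h2 : sg a.1 a.2.1 a.2.2 = -1 ↔ sg b.1 b.2.1 b.2.2 = -1 := by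
      rw [hM, hM, h1]
    rcases sg_cases a.1 a.2.1 a.2.2 with ha | ha <;>
      rcases sg_cases b.1 b.2.1 b.2.2 with hb | hb
    · rw [ha, hb]
    · rw [h2.2 hb, hb]
    · rw [ha, h2.1 ha]
    · rw [ha, hb])
  have hB4 : (B.card : ℤ) ^ 4 ≤ 16 * 3072 ^ l := by
    calc (B.card : ℤ) ^ 4 ≤ (2 * |∑ a ∈ B, sg a.1 a.2.1 a.2.2|) ^ 4 :=
          pow_le_pow_left₀ (by positivity) hsum 4
      _ = 16 * (∑ a ∈ B, sg a.1 a.2.1 a.2.2) ^ 4 := by
          rw [mul_pow, Even.pow_abs (by decide)]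
          norm_num
      _ ≤ 16 * 3072 ^ l := by
          have := disc hB
          linarith
  have hB4' : (B.card : ℝ) ^ 4 ≤ 16 * 3072 ^ l := by exact_mod_cast hB4
  have hbig' : (8 : ℝ) ^ l ≤ B.card * (4 * K * N) ^ K := by exact_mod_cast hbig
  have hN' : (N : ℝ) ≤ 9 * ((l : ℝ) + 1) ^ 2 * (2 ^ (2 * NT) * E) := by
    rw [hN]
    push_cast
    refine mul_le_mul_of_nonneg_left ?_ (by positivity)
    exact mul_le_mul_of_nonneg_left (Nat.floor_le (by linarith)) (by positivity)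
  have hnum := numeric3 l K s R lam NT hK hKs hlam hR hl hNT
  rw [← hE] at hnum
  have h84 : ((8 : ℝ) ^ l) ^ 4 ≤ (B.card * (4 * K * N) ^ K) ^ 4 :=
    pow_le_pow_left₀ (by positivity) hbig' 4
  have h4096 : ((8 : ℝ) ^ l) ^ 4 = (4 / 3) ^ l * 3072 ^ l := by
    rw [← mul_pow, ← pow_mul, mul_comm l 4, pow_mul]
    norm_num
  have hKr : (1 : ℝ) ≤ K := by exact_mod_cast hK
  have h1 : ((B.card : ℝ) * (4 * K * N) ^ K) ^ 4 = (B.card : ℝ) ^ 4 * (4 * K * N) ^ (4 * K) := by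
    rw [mul_pow, ← pow_mul, mul_comm K 4]
  have h2 : (4 * (K : ℝ) * N) ^ (4 * K) ≤
      (4 * K * (9 * ((l : ℝ) + 1) ^ 2 * (2 ^ (2 * NT) * E))) ^ (4 * K) :=
    pow_le_pow_left₀ (by positivity) (mul_le_mul_of_nonneg_left hN' (by positivity)) _
  have h3 : (B.card : ℝ) ^ 4 * (4 * K * N) ^ (4 * K) ≤
      (16 * 3072 ^ l) * (4 * K * (9 * ((l : ℝ) + 1) ^ 2 * (2 ^ (2 * NT) * E))) ^ (4 * K) :=
    mul_le_mul hB4' h2 (by positivity) (by positivity)
  have h4 : (16 * 3072 ^ l) * (4 * (K : ℝ) * (9 * ((l : ℝ) + 1) ^ 2 * (2 ^ (2 * NT) * E))) ^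
      (4 * K) < (4 / 3) ^ l * 3072 ^ l := by
    calc (16 * 3072 ^ l) * (4 * (K : ℝ) * (9 * ((l : ℝ) + 1) ^ 2 * (2 ^ (2 * NT) * E))) ^
          (4 * K) =
        (16 * (4 * (K : ℝ) * (9 * ((l : ℝ) + 1) ^ 2 * (2 ^ (2 * NT) * E))) ^ (4 * K)) *
          3072 ^ l := by ring
      _ < (4 / 3) ^ l * 3072 ^ l := mul_lt_mul_of_pos_right hnum (by positivity)
  rw [h1] at h84
  rw [h4096] at h84
  linarith

/-- Short computations have few boundary edges for suitable lines. -/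
theorem few_of_time {M : HeadAut 2 Sym} {w : List Sym} {T : ℕ} {c : ℕ → M.Cfg} {l K lam : ℕ}
    (hK : 1 ≤ K) (hlam : 1 ≤ lam) (hc : M.IsAccRun w T c)
    (h1 : 2 ^ 20 * K * lam * (T + 1) < l ^ 2) :
    ∃ c1 ∈ Finset.Icc l (2 * l), ∃ c2 ∈ Finset.Icc (3 * l) (4 * l),
      bcount (ow M c1 c2) c T ≤ l / (600 * K * lam) := by
  have hp : 0 < 600 * K * lam := by positivity
  obtain ⟨c1, hc1, c2, hc2, hb⟩ := exists_lines M l hc
  refine ⟨c1, hc1, c2, hc2, ?_⟩
  set b := bcount (ow M c1 c2) c T with hbdef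
  rw [Nat.le_div_iff_mul_le hp, mul_comm]
  by_contra hgt
  push Not at hgt
  have e1 : (l + 1) * (600 * K * lam * b) ≤ 2400 * K * lam * T := by
    calc (l + 1) * (600 * K * lam * b) = 600 * K * lam * ((l + 1) * b) := by ring
      _ ≤ 600 * K * lam * (4 * T) := Nat.mul_le_mul_left _ hb
      _ = 2400 * K * lam * T := by ring
  have e2 : 2400 * K * lam * T ≤ 2 ^ 20 * K * lam * (T + 1) := by
    calc 2400 * K * lam * T ≤ 2 ^ 20 * K * lam * T :=
          Nat.mul_le_mul_right _ (Nat.mul_le_mul_right _ (Nat.mul_le_mul_right _ (by norm_num)))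
      _ ≤ _ := Nat.mul_le_mul_left _ (by omega)
  have e3 : (l + 1) * l ≤ (l + 1) * (600 * K * lam * b) := Nat.mul_le_mul_left _ hgt.le
  nlinarith

/-- Computations with few reversals have few boundary edges. -/
theorem few_of_revs {M : HeadAut 2 Sym} {w : List Sym} {T : ℕ} {c : ℕ → M.Cfg} {l K lam : ℕ}
    (hK : 1 ≤ K) (hlam : 1 ≤ lam) (hc : M.IsAccRun w T c)
    (h2 : 2 ^ 20 * K * lam * (HeadAut.revs c T + 1) < l) :
    ∃ c1 ∈ Finset.Icc l (2 * l), ∃ c2 ∈ Finset.Icc (3 * l) (4 * l),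
      bcount (ow M c1 c2) c T ≤ l / (600 * K * lam) := by
  have hp : 0 < 600 * K * lam := by positivity
  refine ⟨l, by simp; omega, 3 * l, by simp; omega, ?_⟩
  rw [Nat.le_div_iff_mul_le hp, mul_comm]
  have hb := bcount_le_revs M l (3 * l) hc
  calc 600 * K * lam * bcount (ow M l (3 * l)) c T ≤
        600 * K * lam * (4 * (HeadAut.revs c T + 1)) := Nat.mul_le_mul_left _ hb
    _ = 2400 * K * lam * (HeadAut.revs c T + 1) := by ring
    _ ≤ 2 ^ 20 * K * lam * (HeadAut.revs c T + 1) := by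
        refine Nat.mul_le_mul_right _ (Nat.mul_le_mul_right _ (Nat.mul_le_mul_right _
          (by norm_num)))
    _ ≤ l := h2.le

/-- **The lower bound for combinations, all four costs.** -/
theorem mixed_bound {K : ℕ} (hK : 1 ≤ K) (M : Fin K → HeadAut 2 Sym)
    (h : (Fin K → Prop) → Prop) (l s : ℕ) (hs : ∀ i, Fintype.card (M i).Q ≤ s)
    (hl : 2 ^ 10 * K * (Nat.log 2 l + 1) ≤ l)
    (hM : ∀ w : List Sym, w.length = 5 * l → (w ∈ P.lang ↔ h (fun i => w ∈ (M i).lang))) :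
    ∃ i, ∃ w ∈ (M i).lang, w.length = 5 * l ∧ ∀ T c, (M i).IsAccRun w T c →
      l ^ 2 ≤ 2 ^ 20 * K * (Nat.log 2 (K * s) + 1) * (T + 1) ∧
      l ≤ 2 ^ 20 * K * (Nat.log 2 (K * s) + 1) * (HeadAut.revs c T + 1) ∧
      ∀ j : Fin 2, l * Nat.log 2 l ≤
        2 ^ 20 * K * (Nat.log 2 (K * s) + 1) * (HeadAut.moves c j T + l) := by
  have hl1 : 1 ≤ l := by
    rcases Nat.eq_zero_or_pos l with h0 | h0
    · subst h0
      have : 1 ≤ 2 ^ 10 * K * (Nat.log 2 0 + 1) := Nat.succ_le_of_lt (by positivity)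
      omega
    · exact h0
  have hM' : ∀ x y z : Fin l → Bool, sg x y z = -1 ↔ h (fun i => W x y z ∈ (M i).lang) :=
    fun x y z => (W_mem_lang x y z hl1).symm.trans (hM _ (W_length x y z))
  set lam := Nat.log 2 (K * s) + 1 with hlam
  have hlam1 : 1 ≤ lam := by omega
  have hKs : K * s ≤ 2 ^ lam := (Nat.lt_pow_succ_log_self (by norm_num) _).le
  set g := Nat.log 2 l with hg
  rcases Nat.lt_or_ge g (6 * lam + 24) with hsmall | hbig
  · -- the bound on the moves is trivial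
    obtain ⟨i, w, hw, hlen, hall⟩ := comb_lower_bound hK M h l s hs hl hM
    refine ⟨i, w, hw, hlen, fun T c hc => ⟨(hall T c hc).1, (hall T c hc).2, fun j => ?_⟩⟩
    have e1 : g ≤ 2 ^ 20 * K * lam := by
      have e2 : 30 * lam ≤ 2 ^ 20 * K * lam := by
        refine Nat.mul_le_mul_right _ ?_
        calc 30 ≤ 2 ^ 20 * 1 := by norm_num
          _ ≤ 2 ^ 20 * K := Nat.mul_le_mul_left _ hK
      omega
    calc l * g ≤ l * (2 ^ 20 * K * lam) := Nat.mul_le_mul_left _ e1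
      _ = 2 ^ 20 * K * lam * l := by ring
      _ ≤ _ := Nat.mul_le_mul_left _ (by omega)
  · have hlog : 2 ^ g ≤ l := Nat.pow_log_le_self 2 (by omega)
    have hs1 : 1 ≤ s := by
      have h1 := hs ⟨0, hK⟩
      have h2 : 0 < Fintype.card (M ⟨0, hK⟩).Q := Fintype.card_pos_iff.2 ⟨(M ⟨0, hK⟩).start⟩
      omega
    have hKlam : K ≤ 2 ^ lam := (Nat.le_mul_of_pos_right K hs1).trans hKs
    have hslam : s ≤ 2 ^ lam := (Nat.le_mul_of_pos_left s hK).trans hKs
    obtain ⟨D, hD⟩ : ∃ D, D = (g - 3 * lam - 12) / 8 := ⟨_, rfl⟩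
    have hD1 : 8 * D + 12 + 3 * lam ≤ g := by omega
    have hD2 : g < 16 * (D + 1) := by omega
    obtain ⟨R, hRdef⟩ : ∃ R, R = l / (600 * K * lam) := ⟨_, rfl⟩
    have hR : 600 * K * lam * R ≤ l := by rw [hRdef]; exact Nat.mul_div_le l (600 * K * lam)
    have hR' : l < 600 * K * lam * (R + 1) := by
      rw [hRdef]
      exact Nat.lt_mul_div_succ l (by positivity)
    have hDl : D ≤ l := by
      have h1 : g < 2 ^ g := Nat.lt_two_pow_self
      omega
    have hNTs : ∀ i, Fintype.card (TS (M i) D) ≤ 2 ^ (8 * D + 5 + 2 * lam) := by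
      intro i
      have h1 := card_TS_le (M i) D lam ((hs i).trans hslam)
      have h2 : (2 : ℕ) ^ (8 * D + 12 + 2 * lam) = 128 * 2 ^ (8 * D + 5 + 2 * lam) := by
        rw [show 8 * D + 12 + 2 * lam = 7 + (8 * D + 5 + 2 * lam) by ring, pow_add]
        norm_num
      rw [h2] at h1
      omega
    have hNT : 128 * K * 2 ^ (8 * D + 5 + 2 * lam) ≤ l := by
      calc 128 * K * 2 ^ (8 * D + 5 + 2 * lam) ≤ 128 * 2 ^ lam * 2 ^ (8 * D + 5 + 2 * lam) :=
            Nat.mul_le_mul_right _ (Nat.mul_le_mul_left _ hKlam)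
        _ = 2 ^ (8 * D + 12 + 3 * lam) := by
            rw [show 8 * D + 12 + 3 * lam = 7 + lam + (8 * D + 5 + 2 * lam) by ring,
              pow_add 2 (7 + lam) (8 * D + 5 + 2 * lam), pow_add 2 7 lam]
            norm_num
        _ ≤ 2 ^ g := Nat.pow_le_pow_right (by norm_num) hD1
        _ ≤ l := hlog
    have hR2 : 2 ≤ R := by
      rw [hRdef, Nat.le_div_iff_mul_le (by positivity)]
      calc 2 * (600 * K * lam) = 200 * K * (6 * lam) := by ring
        _ ≤ 1024 * K * (g + 1) := Nat.mul_le_mul (Nat.mul_le_mul_right _ (by norm_num))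
            (by omega)
        _ ≤ l := by simpa using hl
    have hA : 2 * (D + 1) ≤ (D + 1) * R := by
      rw [mul_comm]
      exact Nat.mul_le_mul_left _ hR2
    -- the arithmetic
    have key : ∀ m : ℕ, 2 ^ 20 * K * lam * (m + l) < l * g →
        8 * m + (D + 1) ≤ (D + 1) * R := by
      intro m hm
      have h1 : l * g ≤ 600 * K * lam * (R + 1) * (16 * (D + 1)) := Nat.mul_le_mul hR'.le hD2.le
      have h2 : 2 ^ 20 * K * lam * m ≤ 2 ^ 20 * K * lam * (m + l) :=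
        Nat.mul_le_mul_left _ (by omega)
      have h3 : (K * lam) * (2 ^ 20 * m) < (K * lam) * (9600 * ((R + 1) * (D + 1))) := by
        calc (K * lam) * (2 ^ 20 * m) = 2 ^ 20 * K * lam * m := by ring
          _ < 600 * K * lam * (R + 1) * (16 * (D + 1)) := by omega
          _ = (K * lam) * (9600 * ((R + 1) * (D + 1))) := by ring
      have h4 : 2 ^ 20 * m < 9600 * ((R + 1) * (D + 1)) := Nat.lt_of_mul_lt_mul_left h3
      have h5 : (R + 1) * (D + 1) = (D + 1) * R + (D + 1) := by ring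
      rw [h5] at h4
      have h6 : (2 : ℕ) ^ 20 = 1048576 := by norm_num
      rw [h6] at h4
      omega
    by_contra hcon
    push Not at hcon
    refine no_cheap_mixed (R := R) hK M h hs hKs hlam1 hR (by simpa using hl) hDl hNTs hNT
      hM' ?_
    intro i a ha
    obtain ⟨T, c, hc, hsmall⟩ := hcon i (W a.1 a.2.1 a.2.2) ha (W_length _ _ _)
    by_cases h1 : l ^ 2 ≤ 2 ^ 20 * K * lam * (T + 1)
    · by_cases h2 : l ≤ 2 ^ 20 * K * lam * (HeadAut.revs c T + 1)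
      · obtain ⟨j, hj⟩ := hsmall h1 h2
        refine Or.inr ?_
        fin_cases j
        · refine Or.inr ⟨T, _, swap_run hc, ?_⟩
          exact key _ hj
        · exact Or.inl ⟨T, c, hc, key _ hj⟩
      · push Not at h2
        refine Or.inl ⟨T, c, hc, ?_⟩
        rw [hRdef]
        exact few_of_revs hK hlam1 hc h2
    · push Not at h1
      refine Or.inl ⟨T, c, hc, ?_⟩
      rw [hRdef]
      exact few_of_time hK hlam1 hc h1

end Pool.Agent.L0h35.Bc
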