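import Pool.Agent.L0h35.BcMix
import Pool.Agent.L0h35.BcNum3
import Pool.Agent.L0h80.HP.Visit

/-!
# Boolean combinations with errors (helper35)
-/

set_option autoImplicit false

namespace Pool.Agent.L0h35.Bc

open Pool.Agent.L0h32.HA

/-- **Greedy restriction.** Given `K` sets, each of them a union of at most `N` cylinder intersections,
there is a large cylinder intersection on which the memberships are constant up to a quarter. -/
theorem restrict {l K N : ℕ} (hK : 1 ≤ K) (hN : 1 ≤ N) (G : Fin K → Finset (Tr l))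
    (C : Fin K → Finset (Finset (Tr l))) (hC : ∀ i, ∀ B ∈ C i, IsCyl B ∧ B ⊆ G i)
    (hcov : ∀ i, ∀ a ∈ G i, ∃ B ∈ C i, a ∈ B) (hcard : ∀ i, (C i).card ≤ N) :
    ∃ (R X : Finset (Tr l)) (I : Finset (Fin K)), IsCyl R ∧ 8 ^ l ≤ R.card * (4 * K * N) ^ K ∧
      X ⊆ R ∧ 4 * X.card ≤ R.card ∧ ∀ a ∈ R \ X, ∀ i, a ∈ G i ↔ i ∈ I := by
  classical
  -- the possible sets of indices
  let Good : Finset (Fin K) → Prop := fun I => ∃ R : Finset (Tr l), IsCyl R ∧
    (∀ i ∈ I, R ⊆ G i) ∧ 8 ^ l ≤ R.card * (4 * K * N) ^ I.card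
  have h0 : Good ∅ := by
    refine ⟨Finset.univ, IsCyl.univ, by simp, ?_⟩
    rw [Finset.card_univ, Finset.card_empty, pow_zero, mul_one]
    simp only [Fintype.card_prod, Fintype.card_fun, Fintype.card_bool, Fintype.card_fin]
    rw [← mul_pow, ← mul_pow]
    norm_num
  obtain ⟨I, hI, hmax⟩ := Finset.exists_max_image
    (Finset.univ.filter fun I : Finset (Fin K) => Good I) Finset.card
    ⟨∅, Finset.mem_filter.2 ⟨Finset.mem_univ _, h0⟩⟩
  obtain ⟨R, hR, hRG, hRc⟩ := (Finset.mem_filter.1 hI).2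
  have hpos : 0 < 4 * K * N := by positivity
  have hsmall : ∀ i, i ∉ I → 4 * K * (R ∩ G i).card ≤ R.card := by
    intro i hi
    by_contra hcon
    push Not at hcon
    -- some cylinder intersection is large
    obtain ⟨B, hB, hBc⟩ : ∃ B ∈ C i, R.card ≤ (R ∩ B).card * (4 * K * N) := by
      by_contra hno
      push Not at hno
      have hsub : R ∩ G i ⊆ (C i).biUnion fun B => R ∩ B := by
        intro a ha
        rw [Finset.mem_inter] at ha
        obtain ⟨B, hB, haB⟩ := hcov i a ha.2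
        exact Finset.mem_biUnion.2 ⟨B, hB, Finset.mem_inter.2 ⟨ha.1, haB⟩⟩
      have h1 : (R ∩ G i).card ≤ ∑ B ∈ C i, (R ∩ B).card :=
        (Finset.card_le_card hsub).trans Finset.card_biUnion_le
      have h2 : (R ∩ G i).card * (4 * K * N) ≤ N * R.card := by
        calc (R ∩ G i).card * (4 * K * N) ≤ (∑ B ∈ C i, (R ∩ B).card) * (4 * K * N) :=
              Nat.mul_le_mul_right _ h1
          _ = ∑ B ∈ C i, (R ∩ B).card * (4 * K * N) := Finset.sum_mul _ _ _
          _ ≤ ∑ _B ∈ C i, R.card := Finset.sum_le_sum fun B hB => (hno B hB).le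
          _ = (C i).card * R.card := by rw [Finset.sum_const, smul_eq_mul]
          _ ≤ N * R.card := Nat.mul_le_mul_right _ (hcard i)
      have h3 : N * (4 * K * (R ∩ G i).card) ≤ N * R.card := by
        calc N * (4 * K * (R ∩ G i).card) = (R ∩ G i).card * (4 * K * N) := by ring
          _ ≤ N * R.card := h2
      have h4 := Nat.le_of_mul_le_mul_left h3 hN
      omega
    have hgood : Good (insert i I) := by
      refine ⟨R ∩ B, hR.inter (hC i B hB).1, ?_, ?_⟩
      · intro j hj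
        rcases Finset.mem_insert.1 hj with rfl | hj
        · exact Finset.inter_subset_right.trans (hC j B hB).2
        · exact Finset.inter_subset_left.trans (hRG j hj)
      · rw [Finset.card_insert_of_notMem hi, pow_succ]
        calc 8 ^ l ≤ R.card * (4 * K * N) ^ I.card := hRc
          _ ≤ ((R ∩ B).card * (4 * K * N)) * (4 * K * N) ^ I.card :=
              Nat.mul_le_mul_right _ hBc
          _ = _ := by ring
    have := hmax _ (Finset.mem_filter.2 ⟨Finset.mem_univ _, hgood⟩)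
    rw [Finset.card_insert_of_notMem hi] at this
    omega
  -- the exceptional set
  let X : Finset (Tr l) := (Finset.univ.filter fun i => i ∉ I).biUnion fun i => R ∩ G i
  have hX : 4 * X.card ≤ R.card := by
    have h1 : X.card ≤ ∑ i ∈ Finset.univ.filter fun i => i ∉ I, (R ∩ G i).card :=
      Finset.card_biUnion_le
    have h2 : K * (4 * X.card) ≤ K * R.card := by
      calc K * (4 * X.card) = 4 * K * X.card := by ring
        _ ≤ 4 * K * ∑ i ∈ Finset.univ.filter fun i => i ∉ I, (R ∩ G i).card :=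
            Nat.mul_le_mul_left _ h1
        _ = ∑ i ∈ Finset.univ.filter fun i => i ∉ I, 4 * K * (R ∩ G i).card :=
            Finset.mul_sum _ _ _
        _ ≤ ∑ _i ∈ Finset.univ.filter fun i => i ∉ I, R.card :=
            Finset.sum_le_sum fun i hi => hsmall i (Finset.mem_filter.1 hi).2
        _ = (Finset.univ.filter fun i => i ∉ I).card * R.card := by
            rw [Finset.sum_const, smul_eq_mul]
        _ ≤ K * R.card := by
            refine Nat.mul_le_mul_right _ ?_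
            exact (Finset.card_le_univ _).trans (by simp)
    exact Nat.le_of_mul_le_mul_left h2 hK
  refine ⟨R, X, I, hR, ?_, ?_, hX, ?_⟩
  · refine hRc.trans (Nat.mul_le_mul_left _ (Nat.pow_le_pow_right hpos ?_))
    exact (Finset.card_le_univ _).trans (by simp)
  · intro a ha
    obtain ⟨i, -, hi⟩ := Finset.mem_biUnion.1 ha
    exact (Finset.mem_inter.1 hi).1
  · intro a ha i
    rw [Finset.mem_sdiff] at ha
    constructor
    · intro h1
      by_contra h2
      exact ha.2 (Finset.mem_biUnion.2 ⟨i, Finset.mem_filter.2 ⟨Finset.mem_univ _, h2⟩,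
        Finset.mem_inter.2 ⟨ha.1, h1⟩⟩)
    · intro h1
      exact hRG i h1 ha.1


open Classical in
/-- **Errors.** A Boolean function of the memberships in the `K` sets makes many errors. -/
theorem rob_core {K l s R NT lam : ℕ} (hK : 1 ≤ K) (hKs : K * s ≤ 2 ^ lam) (hlam : 1 ≤ lam)
    (hR : 600 * K * lam * R ≤ l) (hl : 1024 * K * (Nat.log 2 l + 1) ≤ l)
    (hNT : 128 * K * NT ≤ l)
    (G : Fin K → Finset (Tr l)) (C : Fin K → Finset (Finset (Tr l)))
    (hC : ∀ i, ∀ B ∈ C i, IsCyl B ∧ B ⊆ G i) (hcov : ∀ i, ∀ a ∈ G i, ∃ B ∈ C i, a ∈ B)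
    (hcard : ∀ i, (C i).card ≤ 9 * (l + 1) ^ 2 * (2 ^ (2 * NT) *
      ⌊((2 : ℝ) ^ (lam + 14)) ^ R * (1 + 1 / (2 : ℝ) ^ (lam + 14)) ^ (168 * s * l)⌋₊))
    (h : (Fin K → Prop) → Prop) (F : Finset (Tr l))
    (hF : ∀ a : Tr l, ¬ (sg a.1 a.2.1 a.2.2 = -1 ↔ h (fun i => a ∈ G i)) → a ∈ F) :
    7 ^ l ≤ F.card := by
  by_contra hcon
  push Not at hcon
  have hm : (1 : ℝ) ≤ (2 : ℝ) ^ (lam + 14) := one_le_pow₀ (by norm_num)
  set E : ℝ := ((2 : ℝ) ^ (lam + 14)) ^ R * (1 + 1 / (2 : ℝ) ^ (lam + 14)) ^ (168 * s * l) with hE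
  have hE1 : 1 ≤ E := by
    have h1 : (1 : ℝ) ≤ ((2 : ℝ) ^ (lam + 14)) ^ R := one_le_pow₀ hm
    have h2 : (1 : ℝ) ≤ (1 + 1 / (2 : ℝ) ^ (lam + 14)) ^ (168 * s * l) := by
      refine one_le_pow₀ ?_
      have : (0 : ℝ) ≤ 1 / (2 : ℝ) ^ (lam + 14) := by positivity
      linarith
    calc (1 : ℝ) = 1 * 1 := by ring
      _ ≤ E := mul_le_mul h1 h2 (by norm_num) (by linarith)
  have hfl : 1 ≤ ⌊E⌋₊ := Nat.le_floor (by exact_mod_cast hE1)
  set N : ℕ := 9 * (l + 1) ^ 2 * (2 ^ (2 * NT) * ⌊E⌋₊) with hN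
  have hN1 : 1 ≤ N := Nat.succ_le_of_lt (by positivity)
  obtain ⟨B, X, I, hB, hbig, hXB, hX, hpat⟩ := restrict hK hN1 G C hC hcov hcard
  -- the memberships outside `X`
  have hfun : ∀ a ∈ B, a ∉ X → (fun i => a ∈ G i) = fun i => i ∈ I := by
    intro a ha hx
    funext i
    exact propext (hpat a (Finset.mem_sdiff.2 ⟨ha, hx⟩) i)
  have hXr : 4 * (X.card : ℤ) ≤ B.card := by exact_mod_cast hX
  -- the main inequality
  have main : ∀ u : ℤ, (u = 1 ∨ u = -1) →
      (∀ a ∈ B, a ∉ X → a ∉ F → 1 + u * sg a.1 a.2.1 a.2.2 = 0) →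
      (B.card : ℤ) ≤ 2 * |∑ a ∈ B, sg a.1 a.2.1 a.2.2| + 4 * F.card := by
    intro u hu hz
    have e1 : ∑ a ∈ B, (1 + u * sg a.1 a.2.1 a.2.2) ≤
        ∑ a ∈ B, (if a ∈ X ∪ F then (2 : ℤ) else 0) := by
      refine Finset.sum_le_sum fun a ha => ?_
      by_cases hx : a ∈ X ∪ F
      · rw [if_pos hx]
        rcases hu with rfl | rfl <;> rcases sg_cases a.1 a.2.1 a.2.2 with h1 | h1 <;>
          rw [h1] <;> norm_num
      · rw [if_neg hx]
        rw [Finset.mem_union, not_or] at hx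
        rw [hz a ha hx.1 hx.2]
    have e2 : ∑ a ∈ B, (if a ∈ X ∪ F then (2 : ℤ) else 0) ≤ 2 * (X.card + F.card) := by
      rw [← Finset.sum_filter, Finset.sum_const, nsmul_eq_mul]
      have e3 : (B.filter fun a => a ∈ X ∪ F).card ≤ X.card + F.card := by
        refine (Finset.card_le_card ?_).trans (Finset.card_union_le X F)
        intro a ha
        exact (Finset.mem_filter.1 ha).2
      have e4 : (((B.filter fun a => a ∈ X ∪ F).card : ℕ) : ℤ) ≤ X.card + F.card := by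
        exact_mod_cast e3
      linarith
    have e5 : ∑ a ∈ B, (1 + u * sg a.1 a.2.1 a.2.2) =
        B.card + u * ∑ a ∈ B, sg a.1 a.2.1 a.2.2 := by
      rw [Finset.sum_add_distrib, Finset.mul_sum, Finset.sum_const, nsmul_eq_mul, mul_one]
    have e6 : -|∑ a ∈ B, sg a.1 a.2.1 a.2.2| ≤ u * ∑ a ∈ B, sg a.1 a.2.1 a.2.2 := by
      rcases hu with rfl | rfl
      · rw [one_mul]
        exact neg_abs_le _
      · have := le_abs_self (∑ a ∈ B, sg a.1 a.2.1 a.2.2)
        linarith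
    linarith
  have hineq : (B.card : ℤ) ≤ 2 * |∑ a ∈ B, sg a.1 a.2.1 a.2.2| + 4 * F.card := by
    by_cases hv : h (fun i => i ∈ I)
    · refine main 1 (Or.inl rfl) ?_
      intro a ha hx hf
      have h1 : sg a.1 a.2.1 a.2.2 = -1 := by
        by_contra hne
        refine hf (hF a ?_)
        rw [hfun a ha hx]
        exact fun h2 => hne (h2.2 hv)
      rw [h1]
      norm_num
    · refine main (-1) (Or.inr rfl) ?_
      intro a ha hx hf
      have h1 : sg a.1 a.2.1 a.2.2 = 1 := by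
        rcases sg_cases a.1 a.2.1 a.2.2 with h1 | h1
        · exact h1
        · exfalso
          refine hf (hF a ?_)
          rw [hfun a ha hx]
          exact fun h2 => hv (h2.1 h1)
      rw [h1]
      norm_num
  -- fourth powers
  obtain ⟨D, hD⟩ : ∃ D : ℤ, D = max |∑ a ∈ B, sg a.1 a.2.1 a.2.2| (7 ^ l) := ⟨_, rfl⟩
  have hD4 : D ^ 4 ≤ 3072 ^ l := by
    rcases max_choice |∑ a ∈ B, sg a.1 a.2.1 a.2.2| ((7 : ℤ) ^ l) with h1 | h1
    · rw [hD, h1, Even.pow_abs (by decide)]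
      exact disc hB
    · rw [hD, h1, ← pow_mul, mul_comm, pow_mul]
      exact pow_le_pow_left₀ (by norm_num) (by norm_num) l
  have hD1 : |∑ a ∈ B, sg a.1 a.2.1 a.2.2| ≤ D := by rw [hD]; exact le_max_left _ _
  have hD2 : (F.card : ℤ) ≤ D := by
    have h1 : (F.card : ℤ) ≤ 7 ^ l := by exact_mod_cast hcon.le
    exact h1.trans (by rw [hD]; exact le_max_right _ _)
  have hB6 : (B.card : ℤ) ≤ 6 * D := by linarith
  have hB4 : (B.card : ℤ) ^ 4 ≤ 2048 * 3072 ^ l := by
    calc (B.card : ℤ) ^ 4 ≤ (6 * D) ^ 4 := pow_le_pow_left₀ (by positivity) hB6 4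
      _ = 1296 * D ^ 4 := by ring
      _ ≤ 1296 * 3072 ^ l := by linarith
      _ ≤ 2048 * 3072 ^ l := by
          have : (0 : ℤ) < 3072 ^ l := by positivity
          linarith
  have hB4' : (B.card : ℝ) ^ 4 ≤ 2048 * 3072 ^ l := by exact_mod_cast hB4
  have hbig' : (8 : ℝ) ^ l ≤ B.card * (4 * K * N) ^ K := by exact_mod_cast hbig
  have hN' : (N : ℝ) ≤ 9 * ((l : ℝ) + 1) ^ 2 * (2 ^ (2 * NT) * E) := by
    rw [hN]
    push_cast
    refine mul_le_mul_of_nonneg_left ?_ (by positivity)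
    exact mul_le_mul_of_nonneg_left (Nat.floor_le (by linarith)) (by positivity)
  have hnum := numeric4 l K s R lam NT hK hKs hlam hR hl hNT
  rw [← hE] at hnum
  have h84 : ((8 : ℝ) ^ l) ^ 4 ≤ (B.card * (4 * K * N) ^ K) ^ 4 :=
    pow_le_pow_left₀ (by positivity) hbig' 4
  have h4096 : ((8 : ℝ) ^ l) ^ 4 = (4 / 3) ^ l * 3072 ^ l := by
    rw [← mul_pow, ← pow_mul, mul_comm l 4, pow_mul]
    norm_num
  have hKr : (1 : ℝ) ≤ K := by exact_mod_cast hK
  have h1 : ((B.card : ℝ) * (4 * K * N) ^ K) ^ 4 = (B.card : ℝ) ^ 4 * (4 * K * N) ^ (4 * K) := by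
    rw [mul_pow, ← pow_mul, mul_comm K 4]
  have h2 : (4 * (K : ℝ) * N) ^ (4 * K) ≤
      (4 * K * (9 * ((l : ℝ) + 1) ^ 2 * (2 ^ (2 * NT) * E))) ^ (4 * K) :=
    pow_le_pow_left₀ (by positivity) (mul_le_mul_of_nonneg_left hN' (by positivity)) _
  have h3 : (B.card : ℝ) ^ 4 * (4 * K * N) ^ (4 * K) ≤
      (2048 * 3072 ^ l) * (4 * K * (9 * ((l : ℝ) + 1) ^ 2 * (2 ^ (2 * NT) * E))) ^ (4 * K) :=
    mul_le_mul hB4' h2 (by positivity) (by positivity)
  have h4 : (2048 * 3072 ^ l) * (4 * (K : ℝ) * (9 * ((l : ℝ) + 1) ^ 2 * (2 ^ (2 * NT) * E))) ^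
      (4 * K) < (4 / 3) ^ l * 3072 ^ l := by
    calc (2048 * 3072 ^ l) * (4 * (K : ℝ) * (9 * ((l : ℝ) + 1) ^ 2 * (2 ^ (2 * NT) * E))) ^
          (4 * K) =
        (2048 * (4 * (K : ℝ) * (9 * ((l : ℝ) + 1) ^ 2 * (2 ^ (2 * NT) * E))) ^ (4 * K)) *
          3072 ^ l := by ring
      _ < (4 / 3) ^ l * 3072 ^ l := mul_lt_mul_of_pos_right hnum (by positivity)
  rw [h1] at h84
  rw [h4096] at h84
  linarith

end Pool.Agent.L0h35.Bc
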