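import Pool.Agent.L0h35.BcClosure
import Pool.Agent.L0h80.HP.Visit

/-!
# Boolean combinations of two-head automata with few pairs of head positions (helper35)

The definitions `configs`, `pairs`, `cells`, `Near` and the lemmas comparing them are helper80's (from
the file of `MP_d0a708_lc.PositionPairs`).
-/

set_option autoImplicit false

open Filter Asymptotics

namespace Pool.Agent.L0h35.Bc

open Pool.Agent.L0h32.HA Pool.Agent.L0h80.HP

section Resources

variable {k : ℕ} {A : Type} {M : HeadAut k A}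

/-- The number of different configurations among `c 0, ..., c T`. -/
noncomputable def configs (c : ℕ → M.Cfg) (T : ℕ) : ℕ := {v : M.Cfg | ∃ t ≤ T, c t = v}.ncard

/-- The number of different tuples (for two heads: pairs) of head positions in `c 0, ..., c T`. -/
noncomputable def pairs (c : ℕ → M.Cfg) (T : ℕ) : ℕ := {p : Fin k → ℕ | ∃ t ≤ T, (c t).2 = p}.ncard

/-- The number of different cells visited by head `i` in `c 0, ..., c T`. -/
noncomputable def cells (c : ℕ → M.Cfg) (T : ℕ) (i : Fin k) : ℕ := {p : ℕ | ∃ t ≤ T, (c t).2 i = p}.ncard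

/-- In `c 0, ..., c T` any two heads have at most the distance `d`. -/
def Near (c : ℕ → M.Cfg) (T d : ℕ) : Prop := ∀ t ≤ T, ∀ i j : Fin k, (c t).2 i ≤ (c t).2 j + d

end Resources

/-- The languages of nondeterministic two-way two-head automata that have, for every accepted word
`w`, an accepting computation with at most `f |w|` steps, or with at most `f |w|` different pairs of
head positions, or with a head that visits at most `g |w|` cells, or with heads always at distance at
most `g |w|`, or with at most `g |w|` head reversals. -/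
def Economical (A : Type) (f g : ℕ → ℕ) : Set (Set (List A)) :=
  {L | ∃ M : HeadAut 2 A, M.lang = L ∧ ∀ w ∈ M.lang, ∃ T c, M.IsAccRun w T c ∧
    (T ≤ f w.length ∨ pairs c T ≤ f w.length ∨ (∃ i, cells c T i ≤ g w.length) ∨
      Near c T (g w.length) ∨ HeadAut.revs c T ≤ g w.length)}

section Lem

variable {M : HeadAut 2 Sym}

lemma vis_eq (c : ℕ → M.Cfg) (T : ℕ) : configs c T = (vis c T).card := by
  classical
  unfold configs
  rw [← Set.ncard_coe_finset]
  congr 1
  ext v
  simp only [Set.mem_ofPred_eq, vis, Finset.coe_image, Set.mem_image, Finset.mem_coe, Finset.mem_range]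
  constructor
  · rintro ⟨t, ht, h⟩
    exact ⟨t, by omega, h⟩
  · rintro ⟨t, ht, h⟩
    exact ⟨t, by omega, h⟩

lemma fin_set {β : Type*} (u : ℕ → β) (T : ℕ) : {v : β | ∃ t ≤ T, u t = v}.Finite := by
  have : {v : β | ∃ t ≤ T, u t = v} = u '' (Set.Iic T) := by
    ext v
    simp [Set.mem_image]
  rw [this]
  exact (Set.finite_Iic T).image u

lemma configs_le_time (c : ℕ → M.Cfg) (T : ℕ) : configs c T ≤ T + 1 := by
  classical
  rw [vis_eq]
  exact Finset.card_image_le.trans (by simp)

lemma configs_le_pairs (c : ℕ → M.Cfg) (T : ℕ) : configs c T ≤ Fintype.card M.Q * pairs c T := by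
  classical
  unfold configs pairs
  have h1 : {v : M.Cfg | ∃ t ≤ T, c t = v} ⊆
      (Set.univ : Set M.Q) ×ˢ {p : Fin 2 → ℕ | ∃ t ≤ T, (c t).2 = p} := by
    rintro v ⟨t, ht, rfl⟩
    exact ⟨Set.mem_univ _, t, ht, rfl⟩
  refine (Set.ncard_le_ncard h1 (Set.finite_univ.prod (fin_set (fun t => (c t).2) T))).trans ?_
  rw [Set.ncard_prod, Set.ncard_univ, Nat.card_eq_fintype_card]

lemma pairs_le (c : ℕ → M.Cfg) (T : ℕ) (S : Finset (ℕ × ℕ))
    (h : ∀ t ≤ T, ((c t).2 0, (c t).2 1) ∈ S) : pairs c T ≤ S.card := by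
  classical
  unfold pairs
  rw [← Set.ncard_coe_finset]
  refine Set.ncard_le_ncard_of_injOn (fun p : Fin 2 → ℕ => (p 0, p 1)) ?_ ?_ (Finset.finite_toSet S)
  · rintro p ⟨t, ht, rfl⟩
    exact Finset.mem_coe.2 (h t ht)
  · intro p _ q _ he
    have h0 : p 0 = q 0 := congrArg Prod.fst he
    have h1 : p 1 = q 1 := congrArg Prod.snd he
    funext i
    fin_cases i
    · exact h0
    · exact h1

lemma pos_le {w : List Sym} {T : ℕ} {c : ℕ → M.Cfg} (hc : M.IsAccRun w T c) :
    ∀ t ≤ T, ∀ i, (c t).2 i ≤ w.length + 1 := by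
  intro t ht i
  cases t with
  | zero => rw [hc.1]; simp [HeadAut.init]
  | succ t => exact (step_pos M (hc.2.1 t (by omega)) i).2.2

lemma pairs_le_cells {w : List Sym} {T : ℕ} {c : ℕ → M.Cfg} (hc : M.IsAccRun w T c) (i : Fin 2) :
    pairs c T ≤ cells c T i * (w.length + 2) := by
  classical
  have hf : {p : ℕ | ∃ t ≤ T, (c t).2 i = p}.Finite := fin_set (fun t => (c t).2 i) T
  have hcard : cells c T i = hf.toFinset.card := by
    unfold cells
    rw [← Set.ncard_coe_finset, Set.Finite.coe_toFinset]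
  rw [hcard]
  have hp := pos_le hc
  fin_cases i
  · refine (pairs_le c T (hf.toFinset ×ˢ Finset.range (w.length + 2)) ?_).trans ?_
    · intro t ht
      rw [Finset.mem_product]
      refine ⟨hf.mem_toFinset.2 ⟨t, ht, rfl⟩, Finset.mem_range.2 ?_⟩
      have := hp t ht 1
      omega
    · rw [Finset.card_product, Finset.card_range]
  · refine (pairs_le c T (Finset.range (w.length + 2) ×ˢ hf.toFinset) ?_).trans ?_
    · intro t ht
      rw [Finset.mem_product]
      refine ⟨Finset.mem_range.2 ?_, hf.mem_toFinset.2 ⟨t, ht, rfl⟩⟩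
      have := hp t ht 0
      show (c t).2 0 < w.length + 2
      omega
    · rw [Finset.card_product, Finset.card_range, mul_comm]

lemma pairs_le_near {w : List Sym} {T d : ℕ} {c : ℕ → M.Cfg} (hc : M.IsAccRun w T c)
    (hd : Near c T d) : pairs c T ≤ (w.length + 2) * (2 * d + 1) := by
  classical
  have hp := pos_le hc
  refine (pairs_le c T ((Finset.range (w.length + 2)).biUnion
    (fun p => (Finset.Icc (p - d) (p + d)).image (fun q => (p, q)))) ?_).trans ?_
  · intro t ht
    rw [Finset.mem_biUnion]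
    have h0 := hp t ht 0
    have h1 := hd t ht 0 1
    have h2 := hd t ht 1 0
    refine ⟨(c t).2 0, Finset.mem_range.2 (by omega), Finset.mem_image.2 ⟨(c t).2 1, ?_, rfl⟩⟩
    rw [Finset.mem_Icc]
    omega
  · refine (Finset.card_biUnion_le_card_mul _ _ (2 * d + 1) fun p _ => ?_).trans ?_
    · refine Finset.card_image_le.trans ?_
      rw [Nat.card_Icc]
      omega
    · rw [Finset.card_range]


end Lem

/-- **The lower bound for combinations, with different configurations.** -/
theorem configs_bound (K : ℕ) (M : Fin K → HeadAut 2 Sym)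
    (h : (Fin K → Prop) → Prop) (l s : ℕ) (hK : 1 ≤ K) (hs : ∀ i, Fintype.card (M i).Q ≤ s)
    (hl : 2 ^ 10 * K * (Nat.log 2 l + 1) ≤ l)
    (hM : ∀ w : List Sym, w.length = 5 * l → (w ∈ P.lang ↔ h (fun i => w ∈ (M i).lang))) :
    ∃ i, ∃ w ∈ (M i).lang, w.length = 5 * l ∧ ∀ T c, (M i).IsAccRun w T c →
      l ^ 2 ≤ 2 ^ 20 * K * (Nat.log 2 (K * s) + 1) * configs c T ∧
      l ≤ 2 ^ 20 * K * (Nat.log 2 (K * s) + 1) * (HeadAut.revs c T + 1) := by
  obtain ⟨i, w, hw, hlen, hall⟩ := comb_lower_bound hK M h l s hs hl hM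
  refine ⟨i, w, hw, hlen, fun T c hc => ⟨?_, (hall T c hc).2⟩⟩
  obtain ⟨T', g, hg, hT⟩ := loop_free (M i) hc
  rw [← vis_eq] at hT
  exact (hall T' g hg).1.trans (Nat.mul_le_mul_left _ hT)

theorem not_economical (f g : ℕ → ℕ)
    (hf : (fun n => (f n : ℝ)) =o[atTop] (fun n : ℕ => (n : ℝ) ^ 2))
    (hg : (fun n => (g n : ℝ)) =o[atTop] (fun n : ℕ => (n : ℝ))) :
    P.lang ∉ BoolClosure (Economical Sym f g) := by
  rintro ⟨K, G, h, hG, hL⟩
  rcases Nat.eq_zero_or_pos K with hK0 | hK
  · subst hK0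
    obtain ⟨u, v, hu, hv⟩ := lang_nontriv
    rw [hL] at hu hv
    have : (fun i => u ∈ G i) = fun i => v ∈ G i := funext fun i => i.elim0
    rw [this] at hu
    exact hv hu
  choose M hMl hMr using hG
  obtain ⟨s, hs⟩ : ∃ s : ℕ, ∀ i, Fintype.card (M i).Q ≤ s :=
    ⟨Finset.univ.sup fun i => Fintype.card (M i).Q, fun i =>
      Finset.le_sup (f := fun i => Fintype.card (M i).Q) (Finset.mem_univ i)⟩
  obtain ⟨B, hB⟩ : ∃ B : ℕ, B = 2 ^ 20 * K * (Nat.log 2 (K * s) + 1) := ⟨_, rfl⟩
  have hBpos : 0 < B := by rw [hB]; positivity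
  obtain ⟨C, hC⟩ : ∃ C : ℕ, C = B * s + B := ⟨_, rfl⟩
  have hCpos : 0 < C := by omega
  have hBC : B ≤ C := by omega
  have hBsC : B * s ≤ C := by omega
  have hCr : (0 : ℝ) < C := by exact_mod_cast hCpos
  obtain ⟨N1, hN1⟩ := eventually_atTop.1 (hf.def (c := 1 / (100 * (C : ℝ))) (by positivity))
  obtain ⟨N2, hN2⟩ := eventually_atTop.1 (hg.def (c := 1 / (200 * (C : ℝ))) (by positivity))
  obtain ⟨l, hl, hlK⟩ := exists_len K (N1 + N2 + 64 * C + 1)
  obtain ⟨i, w, hw, hlen, hall⟩ := configs_bound K M h l s hK hs hlK (fun w _ => by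
    rw [hL]
    simp only [hMl])
  obtain ⟨T, c, hc, hE⟩ := hMr i w hw
  obtain ⟨a1, a2⟩ := hall T c hc
  rw [← hB] at a1 a2
  have h1 := hN1 (5 * l) (by omega)
  have h2 := hN2 (5 * l) (by omega)
  rw [Real.norm_of_nonneg (by positivity), Real.norm_of_nonneg (by positivity)] at h1 h2
  push_cast at h1 h2
  have hlr : (64 * (C : ℝ)) + 1 ≤ l := by
    have : 64 * C + 1 ≤ l := by omega
    exact_mod_cast this
  have hl0 : (0 : ℝ) < l := by linarith
  have hl1 : 0 < l := by omega
  -- C (f + 1) < l ^ 2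
  have hF : C * (f (5 * l) + 1) < l ^ 2 := by
    have : (C : ℝ) * (f (5 * l) + 1) < (l : ℝ) ^ 2 := by
      have h4 : (C : ℝ) * f (5 * l) ≤ (l : ℝ) ^ 2 / 4 := by
        calc (C : ℝ) * f (5 * l) ≤ C * (1 / (100 * (C : ℝ)) * (5 * (l : ℝ)) ^ 2) :=
              mul_le_mul_of_nonneg_left h1 hCr.le
          _ = (l : ℝ) ^ 2 / 4 := by field_simp; ring
      nlinarith
    exact_mod_cast this
  -- 16 C (g + 1) < l
  have hG : 16 * C * (g (5 * l) + 1) < l := by
    have : 16 * (C : ℝ) * (g (5 * l) + 1) < l := by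
      have h4 : (C : ℝ) * g (5 * l) ≤ (l : ℝ) / 40 := by
        calc (C : ℝ) * g (5 * l) ≤ C * (1 / (200 * (C : ℝ)) * (5 * (l : ℝ))) :=
              mul_le_mul_of_nonneg_left h2 hCr.le
          _ = (l : ℝ) / 40 := by field_simp; ring
      nlinarith
    exact_mod_cast this
  rw [hlen] at hE
  -- few pairs are impossible
  have key : ∀ m : ℕ, pairs c T ≤ m → C * m < l ^ 2 → False := by
    intro m hm hlt
    have e1 : B * configs c T ≤ C * m := by
      calc B * configs c T ≤ B * (s * m) := Nat.mul_le_mul_left _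
            ((configs_le_pairs c T).trans (Nat.mul_le_mul (hs i) hm))
        _ = B * s * m := by ring
        _ ≤ C * m := Nat.mul_le_mul_right _ hBsC
    omega
  rcases hE with h | h | ⟨e, h⟩ | h | h
  · have e1 : B * configs c T ≤ C * (f (5 * l) + 1) :=
      Nat.mul_le_mul hBC ((configs_le_time c T).trans (by omega))
    omega
  · refine key _ h (lt_of_le_of_lt (Nat.mul_le_mul_left _ (by omega)) hF)
  · refine key _ (pairs_le_cells hc e) ?_
    rw [hlen]
    have h3 : (5 * l + 2) ≤ 8 * l := by omega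
    calc C * (cells c T e * (5 * l + 2)) ≤ C * ((g (5 * l)) * (8 * l)) :=
          Nat.mul_le_mul_left _ (Nat.mul_le_mul h h3)
      _ = (8 * C * g (5 * l)) * l := by ring
      _ ≤ (16 * C * (g (5 * l) + 1)) * l := Nat.mul_le_mul_right _
          (Nat.mul_le_mul (Nat.mul_le_mul_right _ (by norm_num)) (by omega))
      _ < l * l := Nat.mul_lt_mul_of_pos_right hG hl1
      _ = l ^ 2 := by ring
  · refine key _ (pairs_le_near hc h) ?_
    rw [hlen]
    have h3 : (5 * l + 2) * (2 * g (5 * l) + 1) ≤ (8 * l) * (2 * (g (5 * l) + 1)) :=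
      Nat.mul_le_mul (by omega) (by omega)
    calc C * ((5 * l + 2) * (2 * g (5 * l) + 1)) ≤ C * ((8 * l) * (2 * (g (5 * l) + 1))) :=
          Nat.mul_le_mul_left _ h3
      _ = (16 * C * (g (5 * l) + 1)) * l := by ring
      _ < l * l := Nat.mul_lt_mul_of_pos_right hG hl1
      _ = l ^ 2 := by ring
  · have e1 : B * (HeadAut.revs c T + 1) ≤ 16 * C * (g (5 * l) + 1) := by
      refine Nat.mul_le_mul ?_ (by omega)
      omega
    omega

end Pool.Agent.L0h35.Bc
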