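import Pool.Agent.L0h35.BcRobMain
import Pool.Agent.L0h35.BcThrift
import Pool.Agent.L0h35.BcLazy

/-!
# Boolean combinations with errors, for all large lengths (helper35)
-/

set_option autoImplicit false

open Filter Asymptotics

namespace Pool.Agent.L0h35.Bc

open Pool.Agent.L0h32.HA Pool.Agent.L0h80.HP

/-- The number of words of length `n` on which `L` and `L'` differ. -/
noncomputable def differ (L L' : Set (List Sym)) (n : ℕ) : ℕ :=
  {w : List Sym | w.length = n ∧ ¬ (w ∈ L ↔ w ∈ L')}.ncard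

theorem ev_log (C : ℕ) : ∀ᶠ l : ℕ in atTop, C * (Nat.log 2 l + 1) ≤ l := by
  obtain ⟨j, -, hj⟩ := exists_len_pow C 0
  rw [Nat.log_pow (by norm_num)] at hj
  have h0 : C * (j + 1) ≤ 2 ^ j := by
    refine le_trans (Nat.mul_le_mul_right _ ?_) hj
    exact Nat.le_mul_of_pos_left _ (by norm_num)
  have mono : ∀ g, j ≤ g → C * (g + 1) ≤ 2 ^ g := by
    intro g hg
    induction g, hg using Nat.le_induction with
    | base => exact h0
    | succ g hg ih =>
      calc C * (g + 1 + 1) ≤ C * (2 * (g + 1)) := Nat.mul_le_mul_left _ (by omega)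
        _ = 2 * (C * (g + 1)) := by ring
        _ ≤ 2 * 2 ^ g := Nat.mul_le_mul_left _ ih
        _ = 2 ^ (g + 1) := by ring
  filter_upwards [eventually_ge_atTop (2 ^ j)] with l hl
  have hl0 : l ≠ 0 := by
    have := Nat.one_le_two_pow (n := j)
    omega
  have h1 : j ≤ Nat.log 2 l := Nat.le_log_of_pow_le (by norm_num) hl
  exact (mono _ h1).trans (Nat.pow_log_le_self 2 hl0)

/-- The automaton that accepts nothing. -/
def M0 : HeadAut 2 Sym where
  Q := Unit
  finQ := inferInstance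
  start := ()
  acc := ∅
  δ := fun _ _ _ _ => False

theorem clos {Q : HeadAut 2 Sym → List Sym → Prop} {L' : Set (List Sym)}
    (hL' : L' ∈ BoolClosure {L | ∃ M : HeadAut 2 Sym, M.lang = L ∧ ∀ w ∈ M.lang, Q M w}) :
    ∃ (K : ℕ) (M : Fin K → HeadAut 2 Sym) (h : (Fin K → Prop) → Prop), 1 ≤ K ∧
      (∀ i, ∀ w ∈ (M i).lang, Q (M i) w) ∧ ∀ w, (w ∈ L' ↔ h (fun i => w ∈ (M i).lang)) := by
  obtain ⟨K, G, h, hG, hL⟩ := hL'
  choose M hMl hMr using hG
  refine ⟨K + 1, Fin.cons M0 M, fun v => h (fun i => v i.succ), by omega, ?_, ?_⟩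
  · intro i
    refine Fin.cases ?_ ?_ i
    · rw [Fin.cons_zero]
      rintro w ⟨T, c, -, -, hc⟩
      exact absurd hc (Set.notMem_empty _)
    · intro i
      rw [Fin.cons_succ]
      exact hMr i
  · intro w
    rw [hL]
    simp only [Fin.cons_succ, hMl]

/-- The finite bound, with different configurations. -/
theorem rob_configs (K : ℕ) (M : Fin K → HeadAut 2 Sym)
    (h : (Fin K → Prop) → Prop) (l s : ℕ) (hK : 1 ≤ K) (hs : ∀ i, Fintype.card (M i).Q ≤ s)
    (hl : 2 ^ 10 * K * (Nat.log 2 l + 1) ≤ l)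
    (herr : differ P.lang {w | h (fun i => w ∈ (M i).lang)} (5 * l) < 7 ^ l) :
    ∃ i, ∃ w ∈ (M i).lang, w.length = 5 * l ∧ ∀ T c, (M i).IsAccRun w T c →
      l ^ 2 ≤ 2 ^ 20 * K * (Nat.log 2 (K * s) + 1) * configs c T ∧
      l ≤ 2 ^ 20 * K * (Nat.log 2 (K * s) + 1) * (HeadAut.revs c T + 1) := by
  obtain ⟨i, w, hw, hlen, hall⟩ := rob_bound hK M h l s hs hl herr
  refine ⟨i, w, hw, hlen, fun T c hc => ⟨?_, (hall T c hc).2.1⟩⟩
  obtain ⟨T', g, hg, hT⟩ := loop_free (M i) hc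
  rw [← vis_eq] at hT
  exact (hall T' g hg).1.trans (Nat.mul_le_mul_left _ hT)

/-- The finite bound, for each head. -/
theorem rob_lazy (K : ℕ) (M : Fin K → HeadAut 2 Sym)
    (h : (Fin K → Prop) → Prop) (l s : ℕ) (hK : 1 ≤ K) (hs : ∀ i, Fintype.card (M i).Q ≤ s)
    (hl : 2 ^ 10 * K * (Nat.log 2 l + 1) ≤ l)
    (herr : differ P.lang {w | h (fun i => w ∈ (M i).lang)} (5 * l) < 7 ^ l) :
    ∃ i, ∃ w ∈ (M i).lang, w.length = 5 * l ∧ ∀ T c, (M i).IsAccRun w T c → ∀ j : Fin 2,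
      l * Nat.log 2 l ≤ 2 ^ 20 * K * (Nat.log 2 (K * s) + 1) * (HeadAut.moves c j T + l) ∧
      Nat.log 2 l ≤ 2 ^ 23 * K * (Nat.log 2 (K * s) + 1) * (revsOf c j T + 1) := by
  have hl1 : 1 ≤ l := by
    rcases Nat.eq_zero_or_pos l with h0 | h0
    · subst h0
      have : 1 ≤ 2 ^ 10 * K * (Nat.log 2 0 + 1) := Nat.succ_le_of_lt (by positivity)
      omega
    · exact h0
  obtain ⟨i, w, hw, hlen, hall⟩ := rob_bound hK M h l s hs hl herr
  refine ⟨i, w, hw, hlen, fun T c hc j => ?_⟩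
  have h1 := (hall T c hc).2.2 j
  refine ⟨h1, ?_⟩
  have h2 := moves_le_revs hc j
  rw [hlen] at h2
  set Q := Nat.log 2 (K * s) + 1 with hQ
  set r := revsOf c j T with hr
  have h3 : HeadAut.moves c j T + l ≤ l * (8 * (r + 1)) := by
    have e1 : (5 * l + 1) * (r + 1) + l ≤ l * (8 * (r + 1)) := by
      have e2 : 1 * (r + 1) ≤ l * (r + 1) := Nat.mul_le_mul_right _ hl1
      have e3 : l * 1 ≤ l * (r + 1) := Nat.mul_le_mul_left _ (by omega)
      have e4 : (5 * l + 1) * (r + 1) + l = 5 * (l * (r + 1)) + 1 * (r + 1) + l * 1 := by ring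
      have e5 : l * (8 * (r + 1)) = 8 * (l * (r + 1)) := by ring
      rw [e4, e5]
      omega
    omega
  have h4 : l * Nat.log 2 l ≤ l * (2 ^ 23 * K * Q * (r + 1)) := by
    calc l * Nat.log 2 l ≤ 2 ^ 20 * K * Q * (HeadAut.moves c j T + l) := h1
      _ ≤ 2 ^ 20 * K * Q * (l * (8 * (r + 1))) := Nat.mul_le_mul_left _ h3
      _ = l * (2 ^ 23 * K * Q * (r + 1)) := by ring
  exact Nat.le_of_mul_le_mul_left h4 (by omega)

theorem ev_economical (f g : ℕ → ℕ)
    (hf : (fun n => (f n : ℝ)) =o[atTop] (fun n : ℕ => (n : ℝ) ^ 2))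
    (hg : (fun n => (g n : ℝ)) =o[atTop] (fun n : ℕ => (n : ℝ)))
    (L' : Set (List Sym)) (hL' : L' ∈ BoolClosure (Economical Sym f g)) :
    ∀ᶠ l : ℕ in atTop, 7 ^ l ≤ differ P.lang L' (5 * l) := by
  obtain ⟨K, M, h, hK, hMr, hL⟩ := clos hL'
  obtain ⟨s, hs⟩ : ∃ s : ℕ, ∀ i, Fintype.card (M i).Q ≤ s :=
    ⟨Finset.univ.sup fun i => Fintype.card (M i).Q, fun i =>
      Finset.le_sup (f := fun i => Fintype.card (M i).Q) (Finset.mem_univ i)⟩
  obtain ⟨B, hB⟩ : ∃ B : ℕ, B = 2 ^ 20 * K * (Nat.log 2 (K * s) + 1) := ⟨_, rfl⟩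
  have hBpos : 0 < B := by rw [hB]; positivity
  obtain ⟨C, hC⟩ : ∃ C : ℕ, C = B * s + B := ⟨_, rfl⟩
  have hCpos : 0 < C := by omega
  have hBC : B ≤ C := by omega
  have hBsC : B * s ≤ C := by omega
  have hCr : (0 : ℝ) < C := by exact_mod_cast hCpos
  have ht : Tendsto (fun l : ℕ => 5 * l) atTop atTop :=
    tendsto_id.const_mul_atTop' (by norm_num)
  have e1 := ht.eventually (hf.def (c := 1 / (100 * (C : ℝ))) (by positivity))
  have e2 := ht.eventually (hg.def (c := 1 / (200 * (C : ℝ))) (by positivity))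
  filter_upwards [e1, e2, eventually_ge_atTop (64 * C + 1), ev_log (2 ^ 10 * K)] with l h1 h2 h3 hlK
  have hlr : (64 * (C : ℝ)) + 1 ≤ l := by exact_mod_cast h3
  rw [Real.norm_of_nonneg (by positivity), Real.norm_of_nonneg (by positivity)] at h1 h2
  push_cast at h1 h2
  have hl0 : (0 : ℝ) < l := by linarith
  have hl1 : 0 < l := by omega
  -- C (f + 1) < l ^ 2
  have hF : C * (f (5 * l) + 1) < l ^ 2 := by
    have : (C : ℝ) * (f (5 * l) + 1) < (l : ℝ) ^ 2 := by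
      have h4 : (C : ℝ) * f (5 * l) ≤ (l : ℝ) ^ 2 / 4 := by
        calc (C : ℝ) * f (5 * l) ≤ C * (1 / (100 * (C : ℝ)) * (5 * (l : ℝ)) ^ 2) :=
              mul_le_mul_of_nonneg_left h1 hCr.le
          _ = (l : ℝ) ^ 2 / 4 := by field_simp; ring
      nlinarith
    exact_mod_cast this
  -- 16 C (g + 1) < l
  have hG : 16 * C * (g (5 * l) + 1) < l := by
    have : 16 * (C : ℝ) * (g (5 * l) + 1) < l := by
      have h4 : (C : ℝ) * g (5 * l) ≤ (l : ℝ) / 40 := by
        calc (C : ℝ) * g (5 * l) ≤ C * (1 / (200 * (C : ℝ)) * (5 * (l : ℝ))) :=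
              mul_le_mul_of_nonneg_left h2 hCr.le
          _ = (l : ℝ) / 40 := by field_simp; ring
      nlinarith
    exact_mod_cast this
  by_contra hcon
  push Not at hcon
  have hLs : {w | h (fun i => w ∈ (M i).lang)} = L' := by
    ext w
    exact (hL w).symm
  obtain ⟨i, w, hw, hlen, hall⟩ := rob_configs K M h l s hK hs hlK (by rw [hLs]; exact hcon)
  obtain ⟨T, c, hc, hE⟩ := hMr i w hw
  obtain ⟨a1, a2⟩ := hall T c hc
  rw [← hB] at a1 a2
  rw [hlen] at hE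
  -- few pairs are impossible
  have key : ∀ m : ℕ, pairs c T ≤ m → C * m < l ^ 2 → False := by
    intro m hm hlt
    have e1 : B * configs c T ≤ C * m := by
      calc B * configs c T ≤ B * (s * m) := Nat.mul_le_mul_left _
            ((configs_le_pairs c T).trans (Nat.mul_le_mul (hs i) hm))
        _ = B * s * m := by ring
        _ ≤ C * m := Nat.mul_le_mul_right _ hBsC
    omega
  rcases hE with h | h | ⟨e, h⟩ | h | h
  · have e1 : B * configs c T ≤ C * (f (5 * l) + 1) :=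
      Nat.mul_le_mul hBC ((configs_le_time c T).trans (by omega))
    omega
  · refine key _ h (lt_of_le_of_lt (Nat.mul_le_mul_left _ (by omega)) hF)
  · refine key _ (pairs_le_cells hc e) ?_
    rw [hlen]
    have h3 : (5 * l + 2) ≤ 8 * l := by omega
    calc C * (cells c T e * (5 * l + 2)) ≤ C * ((g (5 * l)) * (8 * l)) :=
          Nat.mul_le_mul_left _ (Nat.mul_le_mul h h3)
      _ = (8 * C * g (5 * l)) * l := by ring
      _ ≤ (16 * C * (g (5 * l) + 1)) * l := Nat.mul_le_mul_right _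
          (Nat.mul_le_mul (Nat.mul_le_mul_right _ (by norm_num)) (by omega))
      _ < l * l := Nat.mul_lt_mul_of_pos_right hG hl1
      _ = l ^ 2 := by ring
  · refine key _ (pairs_le_near hc h) ?_
    rw [hlen]
    have h3 : (5 * l + 2) * (2 * g (5 * l) + 1) ≤ (8 * l) * (2 * (g (5 * l) + 1)) :=
      Nat.mul_le_mul (by omega) (by omega)
    calc C * ((5 * l + 2) * (2 * g (5 * l) + 1)) ≤ C * ((8 * l) * (2 * (g (5 * l) + 1))) :=
          Nat.mul_le_mul_left _ h3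
      _ = (16 * C * (g (5 * l) + 1)) * l := by ring
      _ < l * l := Nat.mul_lt_mul_of_pos_right hG hl1
      _ = l ^ 2 := by ring
  · have e1 : B * (HeadAut.revs c T + 1) ≤ 16 * C * (g (5 * l) + 1) := by
      refine Nat.mul_le_mul ?_ (by omega)
      omega
    omega

theorem log_five (l : ℕ) (hl : 1 ≤ l) : Real.log (5 * (l : ℝ)) ≤ Nat.log 2 l + 4 := by
  have h1 : l < 2 ^ (Nat.log 2 l + 1) := Nat.lt_pow_succ_log_self (by norm_num) l
  have h2 : 5 * l ≤ 2 ^ (Nat.log 2 l + 4) := by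
    calc 5 * l ≤ 8 * 2 ^ (Nat.log 2 l + 1) := Nat.mul_le_mul (by norm_num) h1.le
      _ = 2 ^ (Nat.log 2 l + 4) := by ring
  have h3 : (5 : ℝ) * l ≤ 2 ^ (Nat.log 2 l + 4) := by exact_mod_cast h2
  have hlr : (1 : ℝ) ≤ l := by exact_mod_cast hl
  have hlog2 : Real.log 2 ≤ 1 := by
    have := Real.log_two_lt_d9
    linarith
  calc Real.log (5 * (l : ℝ)) ≤ Real.log (2 ^ (Nat.log 2 l + 4)) :=
        Real.log_le_log (by linarith) h3
    _ = (Nat.log 2 l + 4 : ℕ) * Real.log 2 := Real.log_pow _ _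
    _ ≤ (Nat.log 2 l + 4 : ℕ) * 1 := mul_le_mul_of_nonneg_left hlog2 (by positivity)
    _ = Nat.log 2 l + 4 := by push_cast; ring

theorem ev_lazy (f q : ℕ → ℕ)
    (hf : (fun n => (f n : ℝ)) =o[atTop] (fun n : ℕ => (n : ℝ) * Real.log n))
    (hq : (fun n => (q n : ℝ)) =o[atTop] (fun n : ℕ => Real.log n))
    (L' : Set (List Sym)) (hL' : L' ∈ BoolClosure (LazyTwoHeads Sym f q)) :
    ∀ᶠ l : ℕ in atTop, 7 ^ l ≤ differ P.lang L' (5 * l) := by
  obtain ⟨K, M, h, hK, hMr, hL⟩ := clos hL'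
  obtain ⟨s, hs⟩ : ∃ s : ℕ, ∀ i, Fintype.card (M i).Q ≤ s :=
    ⟨Finset.univ.sup fun i => Fintype.card (M i).Q, fun i =>
      Finset.le_sup (f := fun i => Fintype.card (M i).Q) (Finset.mem_univ i)⟩
  obtain ⟨Q, hQ⟩ : ∃ Q : ℕ, Q = Nat.log 2 (K * s) + 1 := ⟨_, rfl⟩
  have hQpos : 0 < Q := by omega
  obtain ⟨B, hB⟩ : ∃ B : ℕ, B = 2 ^ 20 * K * Q := ⟨_, rfl⟩
  have hBpos : 0 < B := by rw [hB]; positivity
  obtain ⟨B', hB'⟩ : ∃ B' : ℕ, B' = 2 ^ 23 * K * Q := ⟨_, rfl⟩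
  have hBpos' : 0 < B' := by rw [hB']; positivity
  have hBr : (0 : ℝ) < B := by exact_mod_cast hBpos
  have hBr' : (0 : ℝ) < B' := by exact_mod_cast hBpos'
  have ht : Tendsto (fun l : ℕ => 5 * l) atTop atTop :=
    tendsto_id.const_mul_atTop' (by norm_num)
  have e1 := ht.eventually (hf.def (c := 1 / (20 * (B : ℝ))) (by positivity))
  have e2 := ht.eventually (hq.def (c := 1 / (4 * (B' : ℝ))) (by positivity))
  filter_upwards [e1, e2, eventually_ge_atTop (2 ^ (2 * B + 2 * B' + 2)), ev_log (2 ^ 10 * K)]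
    with l h1 h2 h3 hlK
  have hl1 : 1 ≤ l := le_trans Nat.one_le_two_pow h3
  have hlr : (1 : ℝ) ≤ l := by exact_mod_cast hl1
  have hg : 2 * B + 2 * B' + 2 ≤ Nat.log 2 l :=
    Nat.le_log_of_pow_le (by norm_num) h3
  obtain ⟨g, hgdef⟩ : ∃ g, g = Nat.log 2 l := ⟨_, rfl⟩
  rw [← hgdef] at hg
  have hgr : 2 * (B : ℝ) + 2 * B' + 2 ≤ g := by exact_mod_cast hg
  have hlog := log_five l hl1
  rw [← hgdef] at hlog
  have hlog0 : 0 ≤ Real.log (5 * (l : ℝ)) := Real.log_nonneg (by linarith)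
  push_cast at h1 h2
  rw [Real.norm_of_nonneg (by positivity),
    Real.norm_of_nonneg (mul_nonneg (by positivity) hlog0)] at h1
  rw [Real.norm_of_nonneg (by positivity), Real.norm_of_nonneg hlog0] at h2
  by_contra hcon
  push Not at hcon
  have hLs : {w | h (fun i => w ∈ (M i).lang)} = L' := by
    ext w
    exact (hL w).symm
  obtain ⟨i, w, hw, hlen, hall⟩ := rob_lazy K M h l s hK hs hlK (by rw [hLs]; exact hcon)
  obtain ⟨T, c, hc, e, hcheap⟩ := hMr i w hw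
  have h34 := hall T c hc e
  rw [← hQ, ← hB, ← hB', ← hgdef] at h34
  rw [hlen] at hcheap
  have hl0 : (0 : ℝ) < l := by linarith
  rcases hcheap with hT | hT
  · have hT' : (HeadAut.moves c e T : ℝ) ≤ f (5 * l) := by exact_mod_cast hT
    have h7 : (l : ℝ) * g ≤ B * (HeadAut.moves c e T + l) := by exact_mod_cast h34.1
    have h8 : (HeadAut.moves c e T : ℝ) ≤ 1 / (20 * (B : ℝ)) * (5 * l * (g + 4)) := by
      refine (hT'.trans h1).trans ?_
      refine mul_le_mul_of_nonneg_left ?_ (by positivity)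
      exact mul_le_mul_of_nonneg_left hlog (by positivity)
    have h4 : (B : ℝ) * HeadAut.moves c e T ≤ l * ((g + 4) / 4) := by
      calc (B : ℝ) * HeadAut.moves c e T ≤
            B * (1 / (20 * (B : ℝ)) * (5 * l * (g + 4))) :=
            mul_le_mul_of_nonneg_left h8 hBr.le
        _ = l * ((g + 4) / 4) := by field_simp; ring
    have h9 : (l : ℝ) * g ≤ l * ((g + 4) / 4 + B) := by
      calc (l : ℝ) * g ≤ B * (HeadAut.moves c e T + l) := h7
        _ = B * HeadAut.moves c e T + l * B := by ring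
        _ ≤ l * ((g + 4) / 4) + l * B := by linarith
        _ = _ := by ring
    have h6 : (g : ℝ) ≤ (g + 4) / 4 + B := le_of_mul_le_mul_left h9 hl0
    linarith
  · have hT' : (revsOf c e T : ℝ) ≤ q (5 * l) := by exact_mod_cast hT
    have h7 : (g : ℝ) ≤ B' * (revsOf c e T + 1) := by exact_mod_cast h34.2
    have h8 : (revsOf c e T : ℝ) ≤ 1 / (4 * (B' : ℝ)) * (g + 4) := by
      refine (hT'.trans h2).trans ?_
      exact mul_le_mul_of_nonneg_left hlog (by positivity)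
    have h4 : (B' : ℝ) * revsOf c e T ≤ (g + 4) / 4 := by
      calc (B' : ℝ) * revsOf c e T ≤ B' * (1 / (4 * (B' : ℝ)) * (g + 4)) :=
            mul_le_mul_of_nonneg_left h8 hBr'.le
        _ = (g + 4) / 4 := by field_simp
    linarith

theorem ev_oneway (L' : Set (List Sym)) (hL' : L' ∈ BoolClosure (OneWayHead Sym)) :
    ∀ᶠ l : ℕ in atTop, 7 ^ l ≤ differ P.lang L' (5 * l) := by
  obtain ⟨K, G, h, hG, hL⟩ := hL'
  refine ev_lazy (fun _ => 0) (fun _ => 0) ?_ ?_ L' ⟨K, G, h, ?_, hL⟩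
  · simp only [Nat.cast_zero]
    exact Asymptotics.isLittleO_zero _ _
  · simp only [Nat.cast_zero]
    exact Asymptotics.isLittleO_zero _ _
  · intro i
    obtain ⟨M, e, he, hM⟩ := hG i
    refine ⟨M, hM, ?_⟩
    rintro w ⟨T, c, hc⟩
    exact ⟨T, c, hc, e, Or.inr (oneway_revs hc he).le⟩

end Pool.Agent.L0h35.Bc
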