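import Pool.Agent.L0h35.BcRob

/-!
# The lower bound for Boolean combinations with errors (helper35)
-/

set_option autoImplicit false

namespace Pool.Agent.L0h35.Bc

open Pool.Agent.L0h32.HA Pool.Agent.L0h80.HP

open Classical in
/-- **The lower bound for combinations with errors.** -/
theorem rob_bound {K : ℕ} (hK : 1 ≤ K) (M : Fin K → HeadAut 2 Sym)
    (h : (Fin K → Prop) → Prop) (l s : ℕ) (hs : ∀ i, Fintype.card (M i).Q ≤ s)
    (hl : 2 ^ 10 * K * (Nat.log 2 l + 1) ≤ l)
    (herr : {w : List Sym | w.length = 5 * l ∧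
      ¬ (w ∈ P.lang ↔ h (fun i => w ∈ (M i).lang))}.ncard < 7 ^ l) :
    ∃ i, ∃ w ∈ (M i).lang, w.length = 5 * l ∧ ∀ T c, (M i).IsAccRun w T c →
      l ^ 2 ≤ 2 ^ 20 * K * (Nat.log 2 (K * s) + 1) * (T + 1) ∧
      l ≤ 2 ^ 20 * K * (Nat.log 2 (K * s) + 1) * (HeadAut.revs c T + 1) ∧
      ∀ j : Fin 2, l * Nat.log 2 l ≤
        2 ^ 20 * K * (Nat.log 2 (K * s) + 1) * (HeadAut.moves c j T + l) := by
  have hl1 : 1 ≤ l := by
    rcases Nat.eq_zero_or_pos l with h0 | h0
    · subst h0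
      have : 1 ≤ 2 ^ 10 * K * (Nat.log 2 0 + 1) := Nat.succ_le_of_lt (by positivity)
      omega
    · exact h0
  -- the errors among the test words
  let F : Finset (Tr l) := Finset.univ.filter fun a =>
    ¬ (sg a.1 a.2.1 a.2.2 = -1 ↔ h (fun i => W a.1 a.2.1 a.2.2 ∈ (M i).lang))
  have hF7 : F.card < 7 ^ l := by
    refine lt_of_le_of_lt ?_ herr
    rw [← Finset.card_image_of_injective F (W_inj (l := l)), ← Set.ncard_coe_finset]
    refine Set.ncard_le_ncard ?_ ?_
    · intro w hw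
      obtain ⟨a, ha, rfl⟩ := Finset.mem_image.1 (Finset.mem_coe.1 hw)
      have ha' := (Finset.mem_filter.1 ha).2
      refine ⟨W_length _ _ _, ?_⟩
      show ¬ (W a.1 a.2.1 a.2.2 ∈ P.lang ↔ h (fun i => W a.1 a.2.1 a.2.2 ∈ (M i).lang))
      rw [W_mem_lang _ _ _ hl1]
      exact ha'
    · exact (List.finite_length_eq Sym (5 * l)).subset fun w hw => hw.1
  let G : Fin K → Finset (Tr l) := fun i =>
    Finset.univ.filter fun a => W a.1 a.2.1 a.2.2 ∈ (M i).lang
  have hG : ∀ i, ∀ a : Tr l, a ∈ G i ↔ W a.1 a.2.1 a.2.2 ∈ (M i).lang := by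
    intro i a
    simp only [G, Finset.mem_filter, Finset.mem_univ, true_and]
  have hGF : ∀ a : Tr l, ¬ (sg a.1 a.2.1 a.2.2 = -1 ↔ h (fun i => a ∈ G i)) → a ∈ F := by
    intro a ha
    refine Finset.mem_filter.2 ⟨Finset.mem_univ _, ?_⟩
    have : (fun i => a ∈ G i) = fun i => W a.1 a.2.1 a.2.2 ∈ (M i).lang :=
      funext fun i => propext (hG i a)
    rw [← this]
    exact ha
  set lam := Nat.log 2 (K * s) + 1 with hlam
  have hlam1 : 1 ≤ lam := by omega
  have hKs : K * s ≤ 2 ^ lam := (Nat.lt_pow_succ_log_self (by norm_num) _).le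
  have hm : (1 : ℝ) ≤ (2 : ℝ) ^ (lam + 14) := one_le_pow₀ (by norm_num)
  have hl' : 1024 * K * (Nat.log 2 l + 1) ≤ l := by simpa using hl
  set g := Nat.log 2 l with hg
  obtain ⟨R, hRdef⟩ : ∃ R, R = l / (600 * K * lam) := ⟨_, rfl⟩
  have hR : 600 * K * lam * R ≤ l := by rw [hRdef]; exact Nat.mul_div_le l (600 * K * lam)
  by_contra hcon
  push Not at hcon
  rcases Nat.lt_or_ge g (6 * lam + 24) with hsmall | hbig
  · -- the bound on the moves is trivial
    have hfew : ∀ i, ∀ a ∈ G i, Few (M i) l R a := by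
      intro i a ha
      obtain ⟨T, c, hc, hsm⟩ := hcon i (W a.1 a.2.1 a.2.2) ((hG i a).1 ha) (W_length _ _ _)
      refine ⟨T, c, hc, ?_⟩
      rw [hRdef]
      by_cases h1 : l ^ 2 ≤ 2 ^ 20 * K * lam * (T + 1)
      · by_cases h2 : l ≤ 2 ^ 20 * K * lam * (HeadAut.revs c T + 1)
        · exfalso
          obtain ⟨j, hj⟩ := hsm h1 h2
          have e1 : g ≤ 2 ^ 20 * K * lam := by
            have e2 : 30 * lam ≤ 2 ^ 20 * K * lam := by
              refine Nat.mul_le_mul_right _ ?_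
              calc 30 ≤ 2 ^ 20 * 1 := by norm_num
                _ ≤ 2 ^ 20 * K := Nat.mul_le_mul_left _ hK
            omega
          have e3 : l * g ≤ 2 ^ 20 * K * lam * (HeadAut.moves c j T + l) := by
            calc l * g ≤ l * (2 ^ 20 * K * lam) := Nat.mul_le_mul_left _ e1
              _ = 2 ^ 20 * K * lam * l := by ring
              _ ≤ _ := Nat.mul_le_mul_left _ (by omega)
          omega
        · push Not at h2
          exact few_of_revs hK hlam1 hc h2
      · push Not at h1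
        exact few_of_time hK hlam1 hc h1
    choose C hC1 hC2 hC3 using fun i => cover (M i) (R := R) hl1 (hs i) ((2 : ℝ) ^ (lam + 14)) hm
      (G i) (hG i) (hfew i)
    have h7 := rob_core (NT := 0) hK hKs hlam1 hR hl' (by omega) G C hC1 hC2 (fun i => by
      refine (hC3 i).trans ?_
      rw [Nat.mul_zero, pow_zero, one_mul]
      exact Nat.mul_le_mul_right _ (Nat.mul_le_mul_right _ (by norm_num))) h F hGF
    omega
  · have hlog : 2 ^ g ≤ l := Nat.pow_log_le_self 2 (by omega)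
    have hs1 : 1 ≤ s := by
      have h1 := hs ⟨0, hK⟩
      have h2 : 0 < Fintype.card (M ⟨0, hK⟩).Q := Fintype.card_pos_iff.2 ⟨(M ⟨0, hK⟩).start⟩
      omega
    have hKlam : K ≤ 2 ^ lam := (Nat.le_mul_of_pos_right K hs1).trans hKs
    have hslam : s ≤ 2 ^ lam := (Nat.le_mul_of_pos_left s hK).trans hKs
    obtain ⟨D, hD⟩ : ∃ D, D = (g - 3 * lam - 12) / 8 := ⟨_, rfl⟩
    have hD1 : 8 * D + 12 + 3 * lam ≤ g := by omega
    have hD2 : g < 16 * (D + 1) := by omega
    have hR' : l < 600 * K * lam * (R + 1) := by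
      rw [hRdef]
      exact Nat.lt_mul_div_succ l (by positivity)
    have hDl : D ≤ l := by
      have h1 : g < 2 ^ g := Nat.lt_two_pow_self
      omega
    have hNTs : ∀ i, Fintype.card (TS (M i) D) ≤ 2 ^ (8 * D + 5 + 2 * lam) := by
      intro i
      have h1 := card_TS_le (M i) D lam ((hs i).trans hslam)
      have h2 : (2 : ℕ) ^ (8 * D + 12 + 2 * lam) = 128 * 2 ^ (8 * D + 5 + 2 * lam) := by
        rw [show 8 * D + 12 + 2 * lam = 7 + (8 * D + 5 + 2 * lam) by ring, pow_add]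
        norm_num
      rw [h2] at h1
      omega
    have hNT : 128 * K * 2 ^ (8 * D + 5 + 2 * lam) ≤ l := by
      calc 128 * K * 2 ^ (8 * D + 5 + 2 * lam) ≤ 128 * 2 ^ lam * 2 ^ (8 * D + 5 + 2 * lam) :=
            Nat.mul_le_mul_right _ (Nat.mul_le_mul_left _ hKlam)
        _ = 2 ^ (8 * D + 12 + 3 * lam) := by
            rw [show 8 * D + 12 + 3 * lam = 7 + lam + (8 * D + 5 + 2 * lam) by ring,
              pow_add 2 (7 + lam) (8 * D + 5 + 2 * lam), pow_add 2 7 lam]
            norm_num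
        _ ≤ 2 ^ g := Nat.pow_le_pow_right (by norm_num) hD1
        _ ≤ l := hlog
    have hR2 : 2 ≤ R := by
      rw [hRdef, Nat.le_div_iff_mul_le (by positivity)]
      calc 2 * (600 * K * lam) = 200 * K * (6 * lam) := by ring
        _ ≤ 1024 * K * (g + 1) := Nat.mul_le_mul (Nat.mul_le_mul_right _ (by norm_num))
            (by omega)
        _ ≤ l := hl'
    have hA : 2 * (D + 1) ≤ (D + 1) * R := by
      rw [mul_comm]
      exact Nat.mul_le_mul_left _ hR2
    -- the arithmetic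
    have key : ∀ m : ℕ, 2 ^ 20 * K * lam * (m + l) < l * g →
        8 * m + (D + 1) ≤ (D + 1) * R := by
      intro m hm
      have h1 : l * g ≤ 600 * K * lam * (R + 1) * (16 * (D + 1)) := Nat.mul_le_mul hR'.le hD2.le
      have h2 : 2 ^ 20 * K * lam * m ≤ 2 ^ 20 * K * lam * (m + l) :=
        Nat.mul_le_mul_left _ (by omega)
      have h3 : (K * lam) * (2 ^ 20 * m) < (K * lam) * (9600 * ((R + 1) * (D + 1))) := by
        calc (K * lam) * (2 ^ 20 * m) = 2 ^ 20 * K * lam * m := by ring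
          _ < 600 * K * lam * (R + 1) * (16 * (D + 1)) := by omega
          _ = (K * lam) * (9600 * ((R + 1) * (D + 1))) := by ring
      have h4 : 2 ^ 20 * m < 9600 * ((R + 1) * (D + 1)) := Nat.lt_of_mul_lt_mul_left h3
      have h5 : (R + 1) * (D + 1) = (D + 1) * R + (D + 1) := by ring
      rw [h5] at h4
      have h6 : (2 : ℕ) ^ 20 = 1048576 := by norm_num
      rw [h6] at h4
      omega
    have hall : ∀ i, ∀ a ∈ G i,
        Few (M i) l R a ∨ Cheap (M i) l D R a ∨ Cheap (swapM (M i)) l D R a := by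
      intro i a ha
      obtain ⟨T, c, hc, hsm⟩ := hcon i (W a.1 a.2.1 a.2.2) ((hG i a).1 ha) (W_length _ _ _)
      by_cases h1 : l ^ 2 ≤ 2 ^ 20 * K * lam * (T + 1)
      · by_cases h2 : l ≤ 2 ^ 20 * K * lam * (HeadAut.revs c T + 1)
        · obtain ⟨j, hj⟩ := hsm h1 h2
          refine Or.inr ?_
          fin_cases j
          · refine Or.inr ⟨T, _, swap_run hc, ?_⟩
            exact key _ hj
          · exact Or.inl ⟨T, c, hc, key _ hj⟩
        · push Not at h2
          refine Or.inl ⟨T, c, hc, ?_⟩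
          rw [hRdef]
          exact few_of_revs hK hlam1 hc h2
      · push Not at h1
        refine Or.inl ⟨T, c, hc, ?_⟩
        rw [hRdef]
        exact few_of_time hK hlam1 hc h1
    choose C hC1 hC2 hC3 using fun i => coverAll (M i) (R := R) hl1 hDl (hs i)
      ((2 : ℝ) ^ (lam + 14)) hm (hNTs i) (G i) (hG i) (hall i)
    have h7 := rob_core hK hKs hlam1 hR hl' hNT G C hC1 hC2 hC3 h F hGF
    omega

end Pool.Agent.L0h35.Bc
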