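import Pool.Agent.L0h66.EV.Adv

/-!
# Evasiveness from exchange families (helper35)
-/

set_option autoImplicit false

namespace Pool.Agent.L0h35.Ev

open Finset

variable {E : Type} [DecidableEq E]

/-- Every adaptive rule `σ` needs all elements of `E0`. -/
def EvOn (E0 : Finset E) (P : Finset E → Prop) : Prop :=
  ∀ σ : Finset E → Finset E → E,
    (∀ Q A B, (∀ e ∈ Q, (e ∈ A ↔ e ∈ B)) → σ Q A = σ Q B) →
    ∃ A B, A ⊆ E0 ∧ B ⊆ E0 ∧
      (∀ e ∈ (fun Q : Finset E => insert (σ Q A) Q)^[E0.card - 1] ∅, (e ∈ A ↔ e ∈ B)) ∧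
      P A ∧ ¬ P B

/-- **Exchange families.** -/
theorem exchange (E0 : Finset E) (hne : E0.Nonempty) (F : Finset E → Prop)
    (hsub : ∀ B, F B → B ⊆ E0) (hex : ∃ B, F B)
    (hX : ∀ B, F B → ∀ e ∈ E0, e ∉ B → ∃ b ∈ B, ∃ B', F B' ∧ B' ⊆ insert e (B.erase b))
    (P : Finset E → Prop)
    (hP : ∀ B, F B → (∀ B', F B' → B' ⊆ B → B' = B) → P B)
    (hN : ∀ B, F B → (∀ B', F B' → B' ⊆ B → B' = B) → ∀ b ∈ B, ¬ P (B.erase b)) :
    EvOn E0 P := by
  intro σ hσ
  refine Pool.Agent.L0h66.EV.adversary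
    (fun U Y => U ⊆ E0 ∧ Disjoint U Y ∧ (∃ B, F B ∧ B ⊆ Y ∪ U) ∧
      ∀ y ∈ Y, ∀ B, F B → B ⊆ Y ∪ U → y ∈ B) P ?_ ?_ E0 ?_ hne σ hσ
  · rintro U Y e ⟨hU, hd, ⟨B, hB, hBs⟩, hess⟩ he _
    by_cases h : ∃ B', F B' ∧ B' ⊆ Y ∪ U.erase e
    · left
      refine ⟨(erase_subset _ _).trans hU, disjoint_of_subset_left (erase_subset _ _) hd, h, ?_⟩
      intro y hy B' hB' hs
      exact hess y hy B' hB' (hs.trans (union_subset_union (Subset.refl _) (erase_subset _ _)))
    · right
      have hun : insert e Y ∪ U.erase e = Y ∪ U := by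
        ext x
        simp only [mem_union, mem_insert, mem_erase]
        constructor
        · rintro ((rfl | h1) | h1)
          · exact Or.inr he
          · exact Or.inl h1
          · exact Or.inr h1.2
        · rintro (h1 | h1)
          · exact Or.inl (Or.inr h1)
          · by_cases hx : x = e
            · exact Or.inl (Or.inl hx)
            · exact Or.inr ⟨hx, h1⟩
      refine ⟨(erase_subset _ _).trans hU, ?_, ⟨B, hB, by rw [hun]; exact hBs⟩, ?_⟩
      · rw [disjoint_insert_right]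
        exact ⟨notMem_erase _ _, disjoint_of_subset_left (erase_subset _ _) hd⟩
      · intro y hy B' hB' hs
        rw [hun] at hs
        rcases mem_insert.1 hy with rfl | hy
        · by_contra hyB
          refine h ⟨B', hB', ?_⟩
          intro x hx
          rcases mem_union.1 (hs hx) with h1 | h1
          · exact mem_union_left _ h1
          · refine mem_union_right _ (mem_erase.2 ⟨?_, h1⟩)
            rintro rfl
            exact hyB hx
        · exact hess y hy B' hB' hs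
  · rintro e Y ⟨hU, hd, ⟨B, hB, hBs⟩, hess⟩
    have heE : e ∈ E0 := hU (mem_singleton_self e)
    have heY : e ∉ Y := fun h => (disjoint_left.1 hd) (mem_singleton_self e) h
    have hun : Y ∪ {e} = insert e Y := by
      rw [union_comm, ← insert_eq]
    rw [hun] at hBs
    have hess' : ∀ B', F B' → B' ⊆ insert e Y → B' = insert e Y := by
      intro B' hB' hs
      have hYB : Y ⊆ B' := fun y hy => hess y hy B' hB' (by rw [hun]; exact hs)
      by_cases he : e ∈ B'
      · exact Subset.antisymm hs (insert_subset he hYB)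
      · exfalso
        have hBY : B' = Y := by
          apply Subset.antisymm _ hYB
          intro x hx
          rcases mem_insert.1 (hs hx) with rfl | h1
          · exact absurd hx he
          · exact h1
        subst hBY
        obtain ⟨b, hb, B'', hB'', hs''⟩ := hX B' hB' e heE he
        have h1 : b ∈ B'' := hess b hb B'' hB'' (by
          rw [hun]
          exact hs''.trans (insert_subset_insert _ (erase_subset _ _)))
        rcases mem_insert.1 (hs'' h1) with rfl | h2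
        · exact he hb
        · exact (notMem_erase _ _) h2
    have hBe : B = insert e Y := hess' B hB hBs
    have hmin : ∀ B', F B' → B' ⊆ insert e Y → B' = insert e Y := hess'
    rw [hBe] at hB
    refine ⟨hP _ hB hmin, ?_⟩
    have := hN _ hB hmin e (mem_insert_self e Y)
    rwa [erase_insert heY] at this
  · obtain ⟨B, hB⟩ := hex
    refine ⟨Subset.refl _, disjoint_empty_right _, ⟨B, hB, ?_⟩, ?_⟩
    · rw [empty_union]
      exact hsub B hB
    · intro y hy
      exact absurd hy (notMem_empty y)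

theorem traj_eq (σ : Finset E → Finset E → E)
    (hσ : ∀ Q A B, (∀ e ∈ Q, (e ∈ A ↔ e ∈ B)) → σ Q A = σ Q B) (A B : Finset E) :
    ∀ m, (∀ e ∈ (fun Q : Finset E => insert (σ Q A) Q)^[m] ∅, (e ∈ A ↔ e ∈ B)) →
      (fun Q : Finset E => insert (σ Q B) Q)^[m] ∅ =
        (fun Q : Finset E => insert (σ Q A) Q)^[m] ∅ := by
  intro m
  induction m with
  | zero => intro _; rfl
  | succ m ih =>
    intro h
    rw [Function.iterate_succ_apply'] at h
    have h1 : ∀ e ∈ (fun Q : Finset E => insert (σ Q A) Q)^[m] ∅, (e ∈ A ↔ e ∈ B) :=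
      fun e he => h e (mem_insert_of_mem he)
    rw [Function.iterate_succ_apply', Function.iterate_succ_apply', ih h1]
    rw [hσ _ B A fun e he => (h1 e he).symm]

/-- Duality. -/
theorem dual (E0 : Finset E) (P : Finset E → Prop)
    (h : EvOn E0 fun A => ¬ P (E0 \ A)) : EvOn E0 P := by
  intro σ hσ
  have hσ' : ∀ Q A B, (∀ e ∈ Q, (e ∈ A ↔ e ∈ B)) → σ Q (E0 \ A) = σ Q (E0 \ B) := by
    intro Q A B hAB
    apply hσ
    intro e he
    rw [mem_sdiff, mem_sdiff, hAB e he]
  obtain ⟨A, B, -, -, h3, h4, h5⟩ := h (fun Q A => σ Q (E0 \ A)) hσ'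
  have h6 : ∀ e ∈ (fun Q : Finset E => insert (σ Q (E0 \ A)) Q)^[E0.card - 1] ∅,
      (e ∈ E0 \ A ↔ e ∈ E0 \ B) := by
    intro e he
    rw [mem_sdiff, mem_sdiff, h3 e he]
  refine ⟨E0 \ B, E0 \ A, sdiff_subset, sdiff_subset, ?_, not_not.1 h5, h4⟩
  rw [traj_eq σ hσ (E0 \ A) (E0 \ B) _ h6]
  intro e he
  exact (h6 e he).symm

/-- A monotone property together with a lower bound for the number of elements. -/
theorem count (E0 : Finset E) (P0 : Finset E → Prop) (k : ℕ) (hk : k ≤ E0.card)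
    (hmono : ∀ A B, A ⊆ B → B ⊆ E0 → P0 A → P0 B)
    (hmin : ∀ A, A ⊆ E0 → P0 A → ∃ B ⊆ A, P0 B ∧ B.card < k)
    (hex : ∃ A, A ⊆ E0 ∧ P0 A) (P : Finset E → Prop)
    (h1 : ∀ A, A ⊆ E0 → P0 A → k ≤ A.card → P A)
    (h2 : ∀ A, A ⊆ E0 → P A → k ≤ A.card) : EvOn E0 P := by
  obtain ⟨A, hA, hA0⟩ := hex
  obtain ⟨A1, hA1, hA2, hA3⟩ := hmin A hA hA0
  have hkpos : 0 < k := by omega
  have hne : E0.Nonempty := card_pos.1 (by omega)
  refine exchange E0 hne (fun B => B ⊆ E0 ∧ P0 B ∧ B.card = k) (fun B hB => hB.1) ?_ ?_ P ?_ ?_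
  · obtain ⟨B, hB1, hB2, hB3⟩ := exists_subsuperset_card_eq (hA1.trans hA) hA3.le hk
    exact ⟨B, hB2, hmono _ _ hB1 hB2 hA2, hB3⟩
  · rintro B ⟨hB1, hB2, hB3⟩ e he heB
    obtain ⟨C, hC1, hC2, hC3⟩ := hmin B hB1 hB2
    obtain ⟨b, hb1, hb2⟩ : ∃ b ∈ B, b ∉ C := by
      by_contra hcon
      push Not at hcon
      have := card_le_card (show B ⊆ C from hcon)
      omega
    have hsub : insert e (B.erase b) ⊆ E0 :=
      insert_subset he ((erase_subset _ _).trans hB1)
    refine ⟨b, hb1, insert e (B.erase b), ⟨hsub, ?_, ?_⟩, Subset.refl _⟩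
    · refine hmono C _ ?_ hsub hC2
      exact (subset_erase.2 ⟨hC1, hb2⟩).trans (subset_insert _ _)
    · rw [card_insert_of_notMem fun h => heB (mem_of_mem_erase h), card_erase_of_mem hb1]
      omega
  · rintro B ⟨hB1, hB2, hB3⟩ _
    exact h1 B hB1 hB2 hB3.ge
  · rintro B ⟨hB1, hB2, hB3⟩ _ b hb hPb
    have := h2 _ ((erase_subset _ _).trans hB1) hPb
    rw [card_erase_of_mem hb] at this
    omega

end Pool.Agent.L0h35.Ev
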