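import Pool.Agent.L0h35.EvEx

/-!
# Ranks of families of vectors; generic members of an affine family (helper35)
-/

set_option autoImplicit false

namespace Pool.Agent.L0h35.Ev

open Finset

/-- rank of the vectors `f e`, `e ∈ A` -/
noncomputable def rk {E : Type} (K : Type) {V : Type} [Field K] [AddCommGroup V] [Module K V]
    (f : E → V) (A : Set E) : ℕ :=
  Module.finrank K (Submodule.span K (f '' A))

section

variable {E K V : Type} [DecidableEq E] [Field K] [AddCommGroup V] [Module K V]

theorem rk_of_indep (f : E → V) (B : Finset E) (hB : LinearIndepOn K f (B : Set E)) :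
    rk K f (B : Set E) = B.card := by
  unfold rk
  have h1 : f '' (B : Set E) = Set.range fun x : (B : Set E) => f x := by
    rw [Set.image_eq_range]
  rw [h1, finrank_span_eq_card hB]
  simp

theorem rk_mono (f : E → V) {A B : Set E} (hB : B.Finite) (h : A ⊆ B) : rk K f A ≤ rk K f B := by
  unfold rk
  have : Module.Finite K (Submodule.span K (f '' B)) :=
    Module.Finite.span_of_finite K (hB.image f)
  exact Submodule.finrank_mono (Submodule.span_mono (Set.image_mono h))

theorem le_rk_iff (f : E → V) (A : Finset E) (k : ℕ) :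
    k ≤ rk K f (A : Set E) ↔ ∃ B ⊆ A, B.card = k ∧ LinearIndepOn K f (B : Set E) := by
  constructor
  · intro h
    obtain ⟨b, hb1, -, hb2, hb3⟩ := exists_linearIndepOn_extension
      (K := K) (v := f) (s := (∅ : Set E)) (t := (A : Set E)) (linearIndepOn_empty K f)
      (Set.empty_subset _)
    have hfin : b.Finite := A.finite_toSet.subset hb1
    have h1 : rk K f (A : Set E) = rk K f b := by
      unfold rk
      have : Submodule.span K (f '' (A : Set E)) = Submodule.span K (f '' b) := by
        apply le_antisymm
        · exact Submodule.span_le.2 hb2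
        · exact Submodule.span_mono (Set.image_mono hb1)
      rw [this]
    have h2 : rk K f b = hfin.toFinset.card := by
      have := rk_of_indep (K := K) f hfin.toFinset (by rw [hfin.coe_toFinset]; exact hb3)
      rwa [hfin.coe_toFinset] at this
    obtain ⟨B, hB1, hB2⟩ := exists_subset_card_eq (s := hfin.toFinset) (n := k) (by omega)
    refine ⟨B, ?_, hB2, ?_⟩
    · intro x hx
      exact hb1 (hfin.mem_toFinset.1 (hB1 hx))
    · refine hb3.mono ?_
      intro x hx
      exact hfin.mem_toFinset.1 (hB1 hx)
  · rintro ⟨B, hB1, hB2, hB3⟩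
    rw [← hB2, ← rk_of_indep f B hB3]
    exact rk_mono f A.finite_toSet (coe_subset.2 hB1)

theorem rk_le_card (f : E → V) (A : Finset E) : rk K f (A : Set E) ≤ A.card := by
  obtain ⟨B, hB1, hB2, -⟩ := (le_rk_iff (K := K) f A _).1 le_rfl
  rw [← hB2]
  exact card_le_card hB1

/-- **Vector configurations.** -/
theorem linear (E0 : Finset E) (f : E → V) (hf : ∀ e ∈ E0, f e ≠ 0) (k : ℕ) (hk1 : 1 ≤ k)
    (hk : k ≤ rk K f (E0 : Set E)) (P : Finset E → Prop)
    (h1 : ∀ A, A ⊆ E0 → k ≤ rk K f (A : Set E) → P A)
    (h2 : ∀ A, A ⊆ E0 → P A → k ≤ A.card) : EvOn E0 P := by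
  classical
  obtain ⟨B0, hB01, hB02, hB03⟩ := (le_rk_iff f E0 k).1 hk
  have hE0 : E0.Nonempty := (card_pos.1 (by omega : 0 < B0.card)).mono hB01
  refine exchange E0 hE0 (fun B => B ⊆ E0 ∧ B.card = k ∧ LinearIndepOn K f (B : Set E))
    (fun B hB => hB.1) ⟨B0, hB01, hB02, hB03⟩ ?_ P ?_ ?_
  · rintro B ⟨hB1, hB2, hB3⟩ e he heB
    have heB' : e ∉ (B : Set E) := fun h => heB h
    obtain ⟨b, hb, hbe⟩ : ∃ b ∈ B, f e ∉ Submodule.span K (f '' ((B.erase b : Finset E) : Set E)) := by
      by_cases hs : f e ∈ Submodule.span K (f '' (B : Set E))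
      · obtain ⟨C, hC, hCmin⟩ := exists_minimal
          (s := B.powerset.filter fun C => f e ∈ Submodule.span K (f '' ((C : Finset E) : Set E)))
          ⟨B, by simpa using hs⟩
        rw [mem_filter, mem_powerset] at hC
        have hCne : C.Nonempty := by
          rw [nonempty_iff_ne_empty]
          rintro rfl
          have := hC.2
          simp only [coe_empty, Set.image_empty, Submodule.span_empty, Submodule.mem_bot] at this
          exact hf e he this
        obtain ⟨b, hb⟩ := hCne
        refine ⟨b, hC.1 hb, fun hcon => ?_⟩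
        have h3 : f e ∉ Submodule.span K (f '' ((C.erase b : Finset E) : Set E)) := by
          intro h4
          have h5 := hCmin (show C.erase b ∈ _ from
            mem_filter.2 ⟨mem_powerset.2 ((erase_subset _ _).trans hC.1), h4⟩) (erase_subset _ _)
          exact (notMem_erase b C) (h5 hb)
        have h4 : f e ∈ Submodule.span K (insert (f b) (f '' ((C.erase b : Finset E) : Set E))) := by
          rw [← Set.image_insert_eq, ← coe_insert, insert_erase hb]
          exact hC.2
        have h5 := mem_span_insert_exchange h4 h3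
        have h6 : f b ∈ Submodule.span K (f '' ((B.erase b : Finset E) : Set E)) := by
          refine (Submodule.span_le.2 ?_) h5
          rintro x (rfl | hx)
          · exact hcon
          · exact Submodule.subset_span (Set.image_mono
              (coe_subset.2 (erase_subset_erase b hC.1)) hx)
        have h7 := hB3.notMem_span (mem_coe.2 (hC.1 hb))
        rw [← coe_erase] at h7
        exact h7 h6
      · obtain ⟨b, hb⟩ := card_pos.1 (by omega : 0 < B.card)
        refine ⟨b, hb, fun hcon => hs ?_⟩
        exact Submodule.span_mono (Set.image_mono (coe_subset.2 (erase_subset b B))) hcon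
    refine ⟨b, hb, insert e (B.erase b), ⟨insert_subset he ((erase_subset _ _).trans hB1), ?_, ?_⟩,
      Subset.refl _⟩
    · rw [card_insert_of_notMem fun h => heB (mem_of_mem_erase h), card_erase_of_mem hb]
      omega
    · rw [coe_insert, linearIndepOn_insert]
      · exact ⟨hB3.mono (coe_subset.2 (erase_subset b B)), hbe⟩
      · exact fun h => heB (mem_of_mem_erase h)
  · rintro B ⟨hB1, hB2, hB3⟩ _
    exact h1 B hB1 (by rw [rk_of_indep f B hB3, hB2])
  · rintro B ⟨hB1, hB2, hB3⟩ _ b hb hPb
    have := h2 _ ((erase_subset _ _).trans hB1) hPb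
    rw [card_erase_of_mem hb] at this
    omega

end

/-- Independence on a line is kept for all but finitely many parameters. -/
theorem indep_line {ι K V : Type} [Fintype ι] [DecidableEq ι] [Field K] [AddCommGroup V]
    [Module K V] (v w : ι → V) (hv : LinearIndependent K v) :
    {t : K | ¬ LinearIndependent K fun i => v i + t • w i}.Finite := by
  obtain ⟨g, hg⟩ := LinearMap.exists_leftInverse_of_injective (Fintype.linearCombination K v)
    (LinearMap.ker_eq_bot.2 hv.fintypeLinearCombination_injective)
  have hgv : ∀ i, g (v i) = Pi.single i 1 := by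
    intro i
    have h1 := LinearMap.congr_fun hg (Pi.single i 1)
    rw [LinearMap.comp_apply, Fintype.linearCombination_apply_single, one_smul,
      LinearMap.id_apply] at h1
    exact h1
  let G : Matrix ι ι K := Matrix.of fun i => g (w i)
  let p : Polynomial K := Matrix.det (1 + (Polynomial.X : Polynomial K) • G.map Polynomial.C)
  have hp : ∀ t : K, p.eval t = Matrix.det (1 + t • G) := by
    intro t
    have h1 : p.eval t = (Polynomial.evalRingHom t) p := rfl
    rw [h1, RingHom.map_det]
    congr 1
    ext i j
    simp only [RingHom.mapMatrix_apply, Matrix.map_apply, Matrix.add_apply, Matrix.smul_apply,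
      Polynomial.coe_evalRingHom, Polynomial.eval_add, smul_eq_mul, Polynomial.eval_mul,
      Polynomial.eval_X, Polynomial.eval_C, Matrix.one_apply]
    split_ifs <;> simp
  have hp0 : p ≠ 0 := by
    intro h
    have h1 := hp 0
    rw [h, Polynomial.eval_zero, zero_smul, add_zero, Matrix.det_one] at h1
    exact one_ne_zero h1.symm
  refine (Polynomial.finite_setOfPred_isRoot hp0).subset ?_
  intro t ht
  by_contra hr
  apply ht
  have hdet : Matrix.det (1 + t • G) ≠ 0 := by
    rw [← hp t]
    exact hr
  have h2 := Matrix.linearIndependent_rows_of_det_ne_zero hdet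
  refine LinearIndependent.of_comp g ?_
  have h3 : (g ∘ fun i => v i + t • w i) = fun i => (1 + t • G) i := by
    funext i
    funext j
    simp only [Function.comp_apply, map_add, map_smul, hgv, Matrix.add_apply,
      Matrix.smul_apply, Pi.add_apply, Pi.smul_apply]
    have h4 : (Pi.single i (1 : K) : ι → K) j = (1 : Matrix ι ι K) i j := by
      rw [Matrix.one_apply, Pi.single_apply]
      simp only [eq_comm]
    rw [h4]
    rfl
  rw [h3]
  exact h2

theorem rk_line {E K V : Type} [DecidableEq E] [Field K] [AddCommGroup V] [Module K V]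
    (v w : E → V) (A : Finset E) :
    {t : K | rk K (fun e => v e + t • w e) (A : Set E) < rk K v (A : Set E)}.Finite := by
  obtain ⟨B, hB1, hB2, hB3⟩ := (le_rk_iff (K := K) v A _).1 le_rfl
  refine (indep_line (fun e : (B : Set E) => v e) (fun e : (B : Set E) => w e) hB3).subset ?_
  intro t ht hcon
  have h1 : rk K v (A : Set E) ≤ rk K (fun e => v e + t • w e) (A : Set E) :=
    (le_rk_iff _ A _).2 ⟨B, hB1, hB2, hcon⟩
  exact absurd ht (not_lt.2 h1)

/-- **Generic members.** In an affine family of vector configurations there is one whose ranks are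
all maximal. -/
theorem generic {E V X : Type} [Fintype E] [DecidableEq E] [AddCommGroup V] [Module ℝ V]
    [AddCommGroup X] [Module ℝ X] (f : X →ₗ[ℝ] (E → V)) :
    ∃ p : X, ∀ q : X, ∀ A : Finset E, rk ℝ (f q) (A : Set E) ≤ rk ℝ (f p) (A : Set E) := by
  classical
  let Φ : X → ℕ := fun p => ∑ A : Finset E, rk ℝ (f p) (A : Set E)
  have hbd : BddAbove (Set.range Φ) := by
    refine ⟨∑ A : Finset E, A.card, ?_⟩
    rintro _ ⟨p, rfl⟩
    exact sum_le_sum fun A _ => rk_le_card _ A
  obtain ⟨p, hp⟩ := Nat.sSup_mem (Set.range_nonempty Φ) hbd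
  have hmax : ∀ q, Φ q ≤ Φ p := fun q => by
    rw [hp]
    exact le_csSup hbd ⟨q, rfl⟩
  refine ⟨p, fun q A0 => ?_⟩
  by_contra hcon
  push Not at hcon
  have hfin1 : (⋃ A : Finset E, {t : ℝ | rk ℝ (fun e => f p e + t • (f (q - p)) e) (A : Set E) <
      rk ℝ (f p) (A : Set E)}).Finite :=
    Set.finite_iUnion fun A => rk_line (f p) (f (q - p)) A
  have hfin2 : {t : ℝ | rk ℝ (fun e => f q e + (1 - t) • (f (p - q)) e) (A0 : Set E) <
      rk ℝ (f q) (A0 : Set E)}.Finite := by
    have h1 := rk_line (K := ℝ) (f q) (f (p - q)) A0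
    refine (h1.preimage (f := fun t : ℝ => 1 - t) ?_)
    intro a _ b _ hab
    simpa using hab
  obtain ⟨t, ht⟩ := (hfin1.union hfin2).exists_notMem
  rw [Set.mem_union, not_or] at ht
  obtain ⟨ht1, ht2⟩ := ht
  simp only [Set.mem_iUnion, Set.mem_setOf_eq, not_exists, not_lt] at ht1 ht2
  have hpt : f (p + t • (q - p)) = fun e => f p e + t • (f (q - p)) e := by
    funext e
    simp
  have hqt : f (p + t • (q - p)) = fun e => f q e + (1 - t) • (f (p - q)) e := by
    funext e
    simp only [map_add, map_smul, map_sub, Pi.add_apply, Pi.smul_apply, Pi.sub_apply]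
    module
  have h3 : Φ p < Φ (p + t • (q - p)) := by
    refine sum_lt_sum (fun A _ => ?_) ⟨A0, mem_univ _, ?_⟩
    · rw [hpt]
      exact ht1 A
    · refine lt_of_lt_of_le hcon ?_
      rw [hqt]
      exact ht2
  exact absurd (hmax (p + t • (q - p))) (not_le.2 h3)

end Pool.Agent.L0h35.Ev
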