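import Pool.Agent.L0h35.EvEx

/-!
# Evasiveness of properties between conditions on the rank in a matroid (helper35)
-/

set_option autoImplicit false

namespace Pool.Agent.L0h35.Ev

open Finset

variable {E : Type} [DecidableEq E]

theorem matroid (E0 : Finset E) (M : Matroid E) (hM : M.E = (E0 : Set E)) (hl : M.Loopless)
    (k : ℕ) (hk1 : 1 ≤ k) (hk : (k : ℕ∞) ≤ M.eRank) (H : Set (Set E)) (hne : H.Nonempty)
    (hflat : ∀ F ∈ H, M.IsFlat F) (hrk : ∀ F ∈ H, M.eRk F < k ∨ (k : ℕ∞) = M.eRank)
    (P : Finset E → Prop)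
    (h1 : ∀ A, A ⊆ E0 → (k : ℕ∞) ≤ M.eRk (A : Set E) →
      (∃ F ∈ H, F ⊆ M.closure ((A : Set E) ∩ F)) → P A)
    (h2 : ∀ A, A ⊆ E0 → P A → k ≤ A.card) : EvOn E0 P := by
  classical
  have hE0 : E0.Nonempty := by
    rw [nonempty_iff_ne_empty]
    rintro rfl
    have h3 := M.eRk_le_encard M.E
    rw [M.eRk_ground, hM, coe_empty, Set.encard_empty] at h3
    have h4 : (k : ℕ∞) ≤ 0 := hk.trans h3
    have h5 : k ≤ 0 := by exact_mod_cast h4
    omega
  have hFk : ∀ F ∈ H, M.eRk F ≤ k := by
    intro F hF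
    rcases hrk F hF with h3 | h3
    · exact h3.le
    · rw [h3]
      exact M.eRk_le_eRank F
  have hgr : ∀ B : Finset E, B ⊆ E0 → (B : Set E) ⊆ M.E := by
    intro B hB
    rw [hM]
    exact coe_subset.2 hB
  refine exchange E0 hE0 (fun B => B ⊆ E0 ∧ M.Indep (B : Set E) ∧ B.card = k ∧
    ∃ F ∈ H, F ⊆ M.closure ((B : Set E) ∩ F)) (fun B hB => hB.1) ?_ ?_ P ?_ ?_
  · obtain ⟨F, hF⟩ := hne
    obtain ⟨I, hI⟩ := M.exists_isBasis F (hflat F hF).subset_ground
    obtain ⟨B0, hB0, hIB⟩ := hI.indep.exists_isBase_superset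
    have hB0E : B0 ⊆ (E0 : Set E) := by
      rw [← hM]
      exact hB0.subset_ground
    have hfin : B0.Finite := E0.finite_toSet.subset hB0E
    have hIfin : I.Finite := hfin.subset hIB
    obtain ⟨B, hB1, hB2, hB3⟩ := exists_subsuperset_card_eq
      (s := hIfin.toFinset) (t := hfin.toFinset) (n := k)
      (Set.Finite.toFinset_subset_toFinset.2 hIB)
      (by
        have h3 := hFk F hF
        rw [← hI.encard_eq_eRk, hIfin.encard_eq_coe_toFinset_card] at h3
        exact_mod_cast h3)
      (by
        have h3 := hk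
        rw [← hB0.encard_eq_eRank, hfin.encard_eq_coe_toFinset_card] at h3
        exact_mod_cast h3)
    have hBB0 : (B : Set E) ⊆ B0 := by
      intro x hx
      exact hfin.mem_toFinset.1 (hB2 hx)
    refine ⟨B, ?_, hB0.indep.subset hBB0, hB3, F, hF, ?_⟩
    · intro x hx
      exact hB0E (hBB0 hx)
    · refine hI.subset_closure.trans (M.closure_subset_closure ?_)
      intro x hx
      exact ⟨hB1 (hIfin.mem_toFinset.2 hx), hI.subset hx⟩
  · rintro B ⟨hB1, hB2, hB3, F, hF, hB4⟩ e he heB
    have heM : e ∈ M.E := by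
      rw [hM]
      exact he
    have heB' : e ∉ (B : Set E) := fun h => heB h
    have hcard : ∀ b ∈ B, (insert e (B.erase b)).card = k := by
      intro b hb
      rw [card_insert_of_notMem fun h => heB (mem_of_mem_erase h), card_erase_of_mem hb]
      omega
    have hsubE : ∀ b, insert e (B.erase b) ⊆ E0 := fun b =>
      insert_subset he ((erase_subset _ _).trans hB1)
    have hcoe : ∀ b ∈ B, ((insert e (B.erase b) : Finset E) : Set E) = insert e (B : Set E) \ {b} := by
      intro b hb
      have hbe : b ≠ e := fun h => heB (h ▸ hb)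
      ext x
      simp only [coe_insert, coe_erase, Set.mem_insert_iff, Set.mem_sdiff, Set.mem_singleton_iff,
        mem_coe]
      constructor
      · rintro (rfl | h3)
        · exact ⟨Or.inl rfl, hbe.symm⟩
        · exact ⟨Or.inr h3.1, h3.2⟩
      · rintro ⟨rfl | h3, h4⟩
        · exact Or.inl rfl
        · exact Or.inr ⟨h3, h4⟩
    by_cases hind : M.Indep (insert e (B : Set E))
    · obtain ⟨b, hb1, hb2⟩ : ∃ b ∈ B, b ∉ F := by
        by_contra hcon
        push Not at hcon
        have h3 : (B : Set E).encard ≤ M.eRk F := hB2.encard_le_eRk_of_subset hcon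
        rw [Set.encard_coe_eq_coe_finsetCard, hB3] at h3
        rcases hrk F hF with h4 | h4
        · exact absurd h3 (not_le.2 h4)
        · have h5 : (insert e (B : Set E)).encard ≤ M.eRank :=
            (hind.encard_le_eRk_of_subset (Set.Subset.refl _)).trans (M.eRk_le_eRank _)
          rw [Set.encard_insert_of_notMem heB', Set.encard_coe_eq_coe_finsetCard, hB3, ← h4] at h5
          have h6 : k + 1 ≤ k := by exact_mod_cast h5
          omega
      refine ⟨b, hb1, _, ⟨hsubE b, ?_, hcard b hb1, F, hF, ?_⟩, Subset.refl _⟩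
      · rw [hcoe b hb1]
        exact hind.subset Set.sdiff_subset
      · refine hB4.trans (M.closure_subset_closure ?_)
        rintro x ⟨hx1, hx2⟩
        refine ⟨?_, hx2⟩
        rw [hcoe b hb1]
        exact ⟨Set.mem_insert_of_mem _ hx1, fun h => hb2 (h ▸ hx2)⟩
    · have hdep : M.Dep (insert e (B : Set E)) := by
        refine ⟨hind, ?_⟩
        exact Set.insert_subset heM (hgr B hB1)
      have hecl : e ∈ M.closure (B : Set E) := (hB2.mem_closure_iff_of_notMem heB').2 hdep
      have hC := hB2.fundCircuit_isCircuit hecl heB'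
      have hCs : M.fundCircuit e (B : Set E) ⊆ insert e (B : Set E) :=
        M.fundCircuit_subset_insert e B
      have hCe : e ∈ M.fundCircuit e (B : Set E) := M.mem_fundCircuit e B
      have hInd : ∀ x ∈ M.fundCircuit e (B : Set E), x ≠ e → x ∈ B ∧
          M.Indep ((insert e (B.erase x) : Finset E) : Set E) := by
        intro x hx hxe
        have hxB : x ∈ B := by
          rcases hCs hx with h3 | h3
          · exact absurd h3 hxe
          · exact h3
        refine ⟨hxB, ?_⟩
        rw [hcoe x hxB]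
        exact (hB2.mem_fundCircuit_iff hecl heB').1 hx
      by_cases h3 : ∃ x ∈ M.fundCircuit e (B : Set E), x ≠ e ∧ x ∉ F
      · obtain ⟨x, hx1, hx2, hx3⟩ := h3
        obtain ⟨hxB, hxI⟩ := hInd x hx1 hx2
        refine ⟨x, hxB, _, ⟨hsubE x, hxI, hcard x hxB, F, hF, ?_⟩, Subset.refl _⟩
        refine hB4.trans (M.closure_subset_closure ?_)
        rintro y ⟨hy1, hy2⟩
        refine ⟨?_, hy2⟩
        rw [hcoe x hxB]
        exact ⟨Set.mem_insert_of_mem _ hy1, fun h => hx3 (h ▸ hy2)⟩
      · push Not at h3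
        obtain ⟨x, hx1, hx2⟩ : ∃ x ∈ M.fundCircuit e (B : Set E), x ≠ e := by
          have h4 := (Matroid.loopless_iff_forall_isCircuit.1 hl) _ hC
          exact h4.exists_ne e
        obtain ⟨hxB, hxI⟩ := hInd x hx1 hx2
        have heF : e ∈ F := by
          rw [← (hflat F hF).closure]
          refine M.closure_subset_closure ?_ (hC.mem_closure_sdiff_singleton_of_mem hCe)
          rintro y ⟨hy1, hy2⟩
          exact h3 y hy1 hy2
        refine ⟨x, hxB, _, ⟨hsubE x, hxI, hcard x hxB, F, hF, ?_⟩, Subset.refl _⟩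
        refine hB4.trans (M.closure_subset_closure_of_subset_closure ?_)
        rintro y ⟨hy1, hy2⟩
        by_cases hyx : y = x
        · subst hyx
          refine M.closure_subset_closure ?_ (hC.mem_closure_sdiff_singleton_of_mem hx1)
          rintro z ⟨hz1, hz2⟩
          refine ⟨?_, ?_⟩
          · rw [hcoe y hxB]
            exact ⟨hCs hz1, hz2⟩
          · by_cases hze : z = e
            · rw [hze]
              exact heF
            · exact h3 z hz1 hze
        · refine M.mem_closure_of_mem' ⟨?_, hy2⟩ (hgr B hB1 hy1)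
          rw [hcoe x hxB]
          exact ⟨Set.mem_insert_of_mem _ hy1, hyx⟩
  · rintro B ⟨hB1, hB2, hB3, h3⟩ _
    refine h1 B hB1 ?_ h3
    rw [hB2.eRk_eq_encard, Set.encard_coe_eq_coe_finsetCard, hB3]
  · rintro B ⟨hB1, hB2, hB3, h3⟩ _ b hb hPb
    have := h2 _ ((erase_subset _ _).trans hB1) hPb
    rw [card_erase_of_mem hb] at this
    omega

end Pool.Agent.L0h35.Ev
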