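import Pool.Agent.L0h35.EvVec

/-!
# Rank conditions, connected partitions, rigidity, and numbers of edges are evasive for every number
of vertices (MP_257582_lc)

Monotonicity and invariance under isomorphisms are not needed for the properties `P` in (1)-(6).

(1) Let `M` be a matroid without loops on the pairs of vertices, `1 ≤ k ≤ r(M)`, and let `H` be a
nonempty set of flats of rank less than `k` (any flats if `k = r(M)`). Every property `P` of graphs
that holds for the graphs of rank at least `k` that span a flat `F ∈ H` (`F ⊆ cl (E(G) ∩ F)`) and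
implies `|E(G)| ≥ k` is evasive, and so is its dual. For `H = {∅}` these are the properties between
`rank ≥ k` and `|E| ≥ k`.
(2) Let `1 ≤ c < n` and let `S` be a nonempty set of partitions of the vertex set with more than `c`
classes (any partitions if `c = 1`). Every property that holds for the graphs with at most `c`
components for which all classes of some partition in `S` induce connected subgraphs, and implies
`|E(G)| ≥ n - c`, is evasive, and so is its dual. Example: being connected and having a partition into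
two connected subgraphs with `n / 2` vertices.
(3), (4) Let `P₀` be any monotone property. If all minimal members of `P₀` have less than `k` edges,
then all properties between `P₀ and |E| ≥ k` and `|E| ≥ k` are evasive. If all maximal graphs
without `P₀` have at least `k` edges (the saturation number of `P₀` is at least `k`), then all
properties between `|E| ≥ k` and `P₀ or |E| ≥ k` are evasive.
(5) For every placement `p` of the vertices at different points of `ℝ ^ d` and all `k` up to the
rank of the complete framework every property between `the rigidity matrix of the framework (G, p)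
has rank at least k` and `|E(G)| ≥ k` is evasive.
(6), (7) The same holds for generic placements. In particular (7) rigidity in `ℝ ^ d` is an evasive
property of graphs on `n` vertices, for all `n ≥ 2` and `d ≥ 1` (`d = 1`: connectedness).

Proof. An explicit adversary: the answer is no unless then no member of a certain family `𝓑` of
sets of pairs could be present any more (`Pool.Agent.L0h35.Ev.exchange`). This works if for each
`B ∈ 𝓑` and each further pair `e` some `B - b + e` contains a member of `𝓑`. When a single pair is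
left, a minimal member of `𝓑` is present if and only if this pair is an edge. In (1) the members of
`𝓑` are the independent sets with `k` elements that span a flat of `H` (exchange along the
fundamental circuit), in (3) the members of `P₀` with `k` edges. (2) is the case of the cycle matroid
of the complete graph (represented over the field with two elements), (4) is dual to (3). In (6) a
placement is constructed for which the ranks of all graphs are maximal.
-/

set_option autoImplicit false

namespace Pool.Agent.L0h35.EvRank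

open SimpleGraph Pool.Agent.L0h35.Ev

/-- The property `P` of graphs on `n` vertices is evasive, in the form of the frozen statement of
the problem: every adaptive strategy (a rule `σ` for choosing the next pair, depending only on the
answers to the queries made so far) needs all `n.choose 2` queries: there are two graphs that agree
on the first `n.choose 2 - 1` queried pairs, one with and one without `P`. -/
def Evasive {n : ℕ} (P : SimpleGraph (Fin n) → Prop) : Prop :=
  ∀ σ : Finset (Sym2 (Fin n)) → SimpleGraph (Fin n) → Sym2 (Fin n),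
    (∀ (Q : Finset (Sym2 (Fin n))) (G H : SimpleGraph (Fin n)),
        (∀ e ∈ Q, (e ∈ G.edgeSet ↔ e ∈ H.edgeSet)) → σ Q G = σ Q H) →
    ∃ G H : SimpleGraph (Fin n),
      (∀ e ∈ (fun Q : Finset (Sym2 (Fin n)) => insert (σ Q G) Q)^[n.choose 2 - 1]
            (∅ : Finset (Sym2 (Fin n))),
          (e ∈ G.edgeSet ↔ e ∈ H.edgeSet)) ∧ P G ∧ ¬ P H

/-- The row of the pair `u v` in the rigidity matrix of the placement `p` of the vertices in
`ℝ ^ d`: it is `p u - p v` at `u`, `p v - p u` at `v`, and zero at the other vertices. -/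
def row {n d : ℕ} (p : Fin n → Fin d → ℝ) : Sym2 (Fin n) → (Fin n → Fin d → ℝ) :=
  Sym2.lift ⟨fun u v => Pi.single u (p u - p v) + Pi.single v (p v - p u),
    fun _ _ => add_comm _ _⟩

/-- The rank of the rigidity matrix of the framework `(G, p)`. -/
noncomputable def rigidityRank {n d : ℕ} (p : Fin n → Fin d → ℝ) (G : SimpleGraph (Fin n)) : ℕ :=
  Module.finrank ℝ (Submodule.span ℝ (row p '' G.edgeSet))

/-- The graph `G` is (generically) rigid in `ℝ ^ d`: for some placement the rank of its rigidity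
matrix is the maximal rank of the rigidity matrix of the complete graph over all placements. -/
def Rigid {n : ℕ} (d : ℕ) (G : SimpleGraph (Fin n)) : Prop :=
  ∃ p : Fin n → Fin d → ℝ, ∀ q : Fin n → Fin d → ℝ, rigidityRank q ⊤ ≤ rigidityRank p G

/-! ### From sets of pairs to graphs -/

theorem EvOn.congr {E : Type} [DecidableEq E] {E0 : Finset E} {P P' : Finset E → Prop}
    (h : EvOn E0 P) (hP : ∀ A, A ⊆ E0 → (P A ↔ P' A)) : EvOn E0 P' := by
  intro σ hσ
  obtain ⟨A, B, h1, h2, h3, h4, h5⟩ := h σ hσ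
  exact ⟨A, B, h1, h2, h3, (hP A h1).1 h4, fun h6 => h5 ((hP B h2).2 h6)⟩

/-- all pairs -/
def pairs (n : ℕ) : Finset (Sym2 (Fin n)) := Finset.univ.filter fun e => ¬ e.IsDiag

theorem mem_pairs {n : ℕ} {e : Sym2 (Fin n)} : e ∈ pairs n ↔ ¬ e.IsDiag := by
  simp [pairs]

theorem card_pairs (n : ℕ) : (pairs n).card = n.choose 2 := by
  have h1 : pairs n = (⊤ : SimpleGraph (Fin n)).edgeFinset := by
    ext e
    rw [mem_pairs, mem_edgeFinset]
    induction e with
    | _ u v => simp
  rw [h1, card_edgeFinset_top_eq_card_choose_two, Fintype.card_fin]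

theorem edgeSet_of {n : ℕ} {A : Finset (Sym2 (Fin n))} (hA : A ⊆ pairs n) :
    (fromEdgeSet (A : Set (Sym2 (Fin n)))).edgeSet = A := by
  rw [edgeSet_fromEdgeSet]
  ext e
  constructor
  · intro h
    exact h.1
  · intro h
    exact ⟨h, mem_pairs.1 (hA h)⟩

theorem ncard_of {n : ℕ} {A : Finset (Sym2 (Fin n))} (hA : A ⊆ pairs n) :
    (fromEdgeSet (A : Set (Sym2 (Fin n)))).edgeSet.ncard = A.card := by
  rw [edgeSet_of hA, Set.ncard_coe_finset]

theorem compl_of {n : ℕ} {A : Finset (Sym2 (Fin n))} (_hA : A ⊆ pairs n) :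
    (fromEdgeSet ((pairs n \ A : Finset (Sym2 (Fin n))) : Set (Sym2 (Fin n))))ᶜ =
      fromEdgeSet (A : Set (Sym2 (Fin n))) := by
  ext u v
  rw [compl_adj, fromEdgeSet_adj, fromEdgeSet_adj, Finset.mem_coe, Finset.mem_coe,
    Finset.mem_sdiff, mem_pairs, Sym2.mk_isDiag_iff]
  constructor
  · rintro ⟨h1, h2⟩
    refine ⟨?_, h1⟩
    by_contra h3
    exact h2 ⟨⟨h1, h3⟩, h1⟩
  · rintro ⟨h1, h2⟩
    exact ⟨h2, fun h3 => h3.1.2 h1⟩

theorem exists_finset {n : ℕ} (G : SimpleGraph (Fin n)) :
    ∃ A : Finset (Sym2 (Fin n)), A ⊆ pairs n ∧ fromEdgeSet (A : Set (Sym2 (Fin n))) = G := by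
  classical
  refine ⟨G.edgeFinset, ?_, ?_⟩
  · intro e he
    rw [mem_edgeFinset] at he
    exact mem_pairs.2 (G.not_isDiag_of_mem_edgeSet he)
  · rw [coe_edgeFinset, fromEdgeSet_edgeSet]

theorem evasive_of {n : ℕ} {P : SimpleGraph (Fin n) → Prop}
    (h : EvOn (pairs n) fun A => P (fromEdgeSet (A : Set (Sym2 (Fin n))))) : Evasive P := by
  intro σ hσ
  obtain ⟨A, B, h1, h2, h3, h4, h5⟩ := h (fun Q A => σ Q (fromEdgeSet (A : Set (Sym2 (Fin n)))))
    (by
      intro Q A B hAB
      apply hσ
      intro e he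
      rw [edgeSet_fromEdgeSet, edgeSet_fromEdgeSet]
      constructor
      · rintro ⟨h6, h7⟩
        exact ⟨(hAB e he).1 h6, h7⟩
      · rintro ⟨h6, h7⟩
        exact ⟨(hAB e he).2 h6, h7⟩)
  refine ⟨_, _, ?_, h4, h5⟩
  rw [edgeSet_of h1, edgeSet_of h2]
  rw [card_pairs] at h3
  exact h3

/-- the property and its dual -/
theorem both {n : ℕ} {P : SimpleGraph (Fin n) → Prop}
    (h : EvOn (pairs n) fun A => P (fromEdgeSet (A : Set (Sym2 (Fin n))))) :
    Evasive P ∧ Evasive fun G => ¬ P Gᶜ := by
  refine ⟨evasive_of h, evasive_of (Pool.Agent.L0h35.Ev.dual _ _ (EvOn.congr h ?_))⟩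
  intro A hA
  rw [not_not, compl_of hA]

/-! ### The parts of the theorem -/

theorem rank_flats (n : ℕ) (M : Matroid (Sym2 (Fin n))) (hM : M.E = {e | ¬ e.IsDiag})
    (hl : M.Loopless) (k : ℕ) (hk1 : 1 ≤ k) (hk : (k : ℕ∞) ≤ M.eRank)
    (H : Set (Set (Sym2 (Fin n)))) (hne : H.Nonempty) (hflat : ∀ F ∈ H, M.IsFlat F)
    (hrk : ∀ F ∈ H, M.eRk F < k ∨ (k : ℕ∞) = M.eRank) (P : SimpleGraph (Fin n) → Prop)
    (h1 : ∀ G, (k : ℕ∞) ≤ M.eRk G.edgeSet → (∃ F ∈ H, F ⊆ M.closure (G.edgeSet ∩ F)) → P G)
    (h2 : ∀ G, P G → k ≤ G.edgeSet.ncard) : Evasive P ∧ Evasive fun G => ¬ P Gᶜ := by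
  apply both
  refine matroid (pairs n) M ?_ hl k hk1 hk H hne hflat hrk _ ?_ ?_
  · rw [hM]
    ext e
    rw [Finset.mem_coe, mem_pairs]
    rfl
  · intro A hA h3 h4
    apply h1
    · rw [edgeSet_of hA]
      exact h3
    · rw [edgeSet_of hA]
      exact h4
  · intro A hA h3
    rw [← ncard_of hA]
    exact h2 _ h3

/-- the pairs inside the classes of a partition -/
def inside {n : ℕ} (s : Setoid (Fin n)) : Set (Sym2 (Fin n)) :=
  {e | ∃ u v, e = s(u, v) ∧ u ≠ v ∧ s u v}

theorem mem_inside {n : ℕ} {s : Setoid (Fin n)} {u v : Fin n} :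
    s(u, v) ∈ inside s ↔ u ≠ v ∧ s u v := by
  constructor
  · rintro ⟨a, b, h1, h2, h3⟩
    rcases Sym2.eq_iff.1 h1 with ⟨rfl, rfl⟩ | ⟨rfl, rfl⟩
    · exact ⟨h2, h3⟩
    · exact ⟨h2.symm, s.symm h3⟩
  · rintro ⟨h1, h2⟩
    exact ⟨u, v, rfl, h1, h2⟩

theorem inside_sub {n : ℕ} (s : Setoid (Fin n)) : inside s ⊆ (pairs n : Set (Sym2 (Fin n))) := by
  rintro _ ⟨u, v, rfl, h1, -⟩
  rw [Finset.mem_coe, mem_pairs, Sym2.mk_isDiag_iff]
  exact h1

theorem edgeSet_sub {n : ℕ} (G : SimpleGraph (Fin n)) :
    G.edgeSet ⊆ (pairs n : Set (Sym2 (Fin n))) := by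
  intro e he
  rw [Finset.mem_coe, mem_pairs]
  exact G.not_isDiag_of_mem_edgeSet he

theorem inside_flat {n : ℕ} (s : Setoid (Fin n)) :
    (vecMatroid (ZMod 2) (pairs n) inc).IsFlat (inside s) := by
  classical
  rw [Matroid.isFlat_iff_closure_eq]
  apply Set.Subset.antisymm
  · intro e he
    have hE : e ∈ (pairs n : Set (Sym2 (Fin n))) :=
      (vecMatroid (ZMod 2) (pairs n) inc).closure_subset_ground _ he
    have hs := span_of_closure _ _ _ _ he
    induction e with
    | _ u v =>
      rw [Finset.mem_coe, mem_pairs, Sym2.mk_isDiag_iff] at hE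
      rw [mem_inside]
      refine ⟨hE, ?_⟩
      have h1 := closed_of_span (inside s) (Finset.univ.filter fun w => s u w) ?_ u v hs
      · simp only [Finset.mem_filter, Finset.mem_univ, true_and] at h1
        exact h1.1 (s.refl u)
      · intro a b hab
        have h2 := (mem_inside.1 hab).2
        simp only [Finset.mem_filter, Finset.mem_univ, true_and]
        exact ⟨fun h3 => s.trans h3 h2, fun h3 => s.trans h3 (s.symm h2)⟩
  · exact (vecMatroid (ZMod 2) (pairs n) inc).subset_closure _ (inside_sub s)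

theorem rank_ge {n : ℕ} (hn : 0 < n) :
    ((n - 1 : ℕ) : ℕ∞) ≤ (vecMatroid (ZMod 2) (pairs n) (inc (n := n))).eRank := by
  classical
  obtain ⟨B, hB⟩ := (vecMatroid (ZMod 2) (pairs n) (inc (n := n))).exists_isBase
  have hBE : B ⊆ (pairs n : Set (Sym2 (Fin n))) := hB.subset_ground
  have hBf : B.Finite := (pairs n).finite_toSet.subset hBE
  have hsub : hBf.toFinset ⊆ pairs n := by
    intro e he
    exact hBE (hBf.mem_toFinset.1 he)
  have hes := edgeSet_of hsub
  rw [hBf.coe_toFinset] at hes
  have hne : Nonempty (Fin n) := ⟨⟨0, hn⟩⟩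
  have hcon : (fromEdgeSet B).Connected := by
    refine ⟨fun u v => ?_⟩
    by_cases huv : u = v
    · rw [huv]
    have h1 : s(u, v) ∈ (vecMatroid (ZMod 2) (pairs n) (inc (n := n))).closure B := by
      rw [hB.closure_eq]
      show s(u, v) ∈ (pairs n : Set (Sym2 (Fin n)))
      rw [Finset.mem_coe, mem_pairs, Sym2.mk_isDiag_iff]
      exact huv
    have h2 := closed_of_span B (Finset.univ.filter fun w => (fromEdgeSet B).Reachable u w) ?_ u v
      (span_of_closure _ _ _ _ h1)
    · simp only [Finset.mem_filter, Finset.mem_univ, true_and] at h2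
      exact h2.1 (Reachable.refl u)
    · intro a b hab
      have h3 : (fromEdgeSet B).Adj a b := by
        rw [← mem_edgeSet, hes]
        exact hab
      simp only [Finset.mem_filter, Finset.mem_univ, true_and]
      exact ⟨fun h4 => h4.trans h3.reachable, fun h4 => h4.trans h3.symm.reachable⟩
  have h4 := hcon.card_vert_le_card_edgeSet_add_one
  rw [hes] at h4
  rw [← hB.encard_eq_eRank, ← hBf.cast_ncard_eq]
  have h5 : Nat.card (Fin n) = n := Nat.card_fin n
  have h6 : Nat.card B = B.ncard := rfl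
  rw [h5, h6] at h4
  exact_mod_cast (by omega : n - 1 ≤ B.ncard)

theorem eRk_quot {n : ℕ} {ι : Type} [Finite ι] (q : Fin n → ι)
    (hq : Function.Surjective q) (A : Set (Sym2 (Fin n)))
    (hAE : A ⊆ (pairs n : Set (Sym2 (Fin n)))) (hA : ∀ u v, s(u, v) ∈ A → q u = q v) {k : ℕ}
    (hk : (k : ℕ∞) ≤ (vecMatroid (ZMod 2) (pairs n) inc).eRk A) : k + Nat.card ι ≤ n := by
  classical
  have := Fintype.ofFinite ι
  rw [eRk_eq (pairs n) inc A hAE] at hk
  have h1 : k ≤ rk (ZMod 2) inc A := by exact_mod_cast hk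
  have h2 := rk_inc_quot q hq A hA
  rw [Nat.card_eq_fintype_card]
  omega

theorem partitions (n c : ℕ) (hc : 1 ≤ c) (hcn : c < n) (S : Set (Setoid (Fin n)))
    (hS : S.Nonempty) (hSc : ∀ s ∈ S, c = 1 ∨ c < Nat.card (Quotient s))
    (P : SimpleGraph (Fin n) → Prop)
    (h1 : ∀ G : SimpleGraph (Fin n), Nat.card G.ConnectedComponent ≤ c →
      (∃ s ∈ S, ∀ x, (G.induce {y | s x y}).Connected) → P G)
    (h2 : ∀ G, P G → n - c ≤ G.edgeSet.ncard) : Evasive P ∧ Evasive fun G => ¬ P Gᶜ := by
  classical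
  have hE : (vecMatroid (ZMod 2) (pairs n) (inc (n := n))).E = {e | ¬ e.IsDiag} := by
    ext e
    show e ∈ (pairs n : Set (Sym2 (Fin n))) ↔ _
    rw [Finset.mem_coe, mem_pairs]
    rfl
  have hrank := rank_ge (n := n) (by omega)
  refine rank_flats n (vecMatroid (ZMod 2) (pairs n) inc) hE ?_ (n - c) (by omega) ?_
    (inside '' S) (hS.image _) ?_ ?_ P ?_ h2
  · apply vecMatroid_loopless
    intro e he
    induction e with
    | _ u v =>
      have := mem_pairs.1 he
      rw [Sym2.mk_isDiag_iff] at this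
      exact inc_ne_zero this
  · refine le_trans ?_ hrank
    exact_mod_cast (by omega : n - c ≤ n - 1)
  · rintro _ ⟨s, hs, rfl⟩
    exact inside_flat s
  · rintro _ ⟨s, hs, rfl⟩
    rcases hSc s hs with h3 | h3
    · right
      apply le_antisymm
      · rw [h3]
        exact hrank
      · by_contra hcon
        rw [not_le, ← Matroid.eRk_ground] at hcon
        have h4 := Order.add_one_le_of_lt hcon
        have h5 := eRk_quot (n := n) (fun _ => ()) (fun _ => ⟨⟨0, by omega⟩, rfl⟩)
          (vecMatroid (ZMod 2) (pairs n) (inc (n := n))).E (Set.Subset.refl _)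
          (fun _ _ _ => rfl) (k := n - c + 1) (by exact_mod_cast h4)
        rw [Nat.card_unique] at h5
        omega
    · left
      by_contra hcon
      rw [not_lt] at hcon
      have h5 := eRk_quot (n := n) (ι := Quotient s) (Quotient.mk s) Quotient.mk_surjective
        (inside s) (inside_sub s) (fun u v h => Quotient.sound (mem_inside.1 h).2) hcon
      omega
  · rintro G hG ⟨_, ⟨s, hs, rfl⟩, hF⟩
    apply h1
    · have h5 := eRk_quot (n := n) (ι := G.ConnectedComponent) G.connectedComponentMk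
        Quot.mk_surjective G.edgeSet (edgeSet_sub G)
        (fun u v h => ConnectedComponent.sound (Adj.reachable (G.mem_edgeSet.1 h))) hG
      omega
    · refine ⟨s, hs, fun x => ?_⟩
      have hne : Nonempty {y | s x y} := ⟨⟨x, s.refl x⟩⟩
      refine ⟨fun a b => ?_⟩
      by_cases hab : a = b
      · rw [hab]
      have hab' : (a : Fin n) ≠ b := fun h => hab (Subtype.ext h)
      have h3 : s((a : Fin n), (b : Fin n)) ∈ inside s :=
        mem_inside.2 ⟨hab', s.trans (s.symm a.2) b.2⟩
      have h4 := closed_of_span (G.edgeSet ∩ inside s)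
        (Finset.univ.filter fun w => ∃ h : s x w, (G.induce {y | s x y}).Reachable a ⟨w, h⟩)
        ?_ a b (span_of_closure _ _ _ _ (hF h3))
      · simp only [Finset.mem_filter, Finset.mem_univ, true_and] at h4
        obtain ⟨h5, h6⟩ := h4.1 ⟨a.2, Reachable.refl _⟩
        exact h6
      · have key : ∀ p q : Fin n, s(p, q) ∈ G.edgeSet ∩ inside s →
            (∃ h : s x p, (G.induce {y | s x y}).Reachable a ⟨p, h⟩) →
            ∃ h : s x q, (G.induce {y | s x y}).Reachable a ⟨q, h⟩ := by
          rintro p q ⟨h5, h6⟩ ⟨h7, h8⟩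
          have h9 : s x q := s.trans h7 (mem_inside.1 h6).2
          refine ⟨h9, h8.trans (Adj.reachable ?_)⟩
          rw [comap_adj]
          exact G.mem_edgeSet.1 h5
        intro p q hpq
        simp only [Finset.mem_filter, Finset.mem_univ, true_and]
        refine ⟨key p q hpq, key q p ?_⟩
        rwa [Sym2.eq_swap]

theorem and_edges (n k : ℕ) (P₀ : SimpleGraph (Fin n) → Prop)
    (hmono : ∀ G H : SimpleGraph (Fin n), G ≤ H → P₀ G → P₀ H) (hex : ∃ G, P₀ G)
    (hmin : ∀ G, P₀ G → ∃ H, H ≤ G ∧ P₀ H ∧ H.edgeSet.ncard < k) (hk : k ≤ n.choose 2)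
    (P : SimpleGraph (Fin n) → Prop) (h1 : ∀ G, P₀ G → k ≤ G.edgeSet.ncard → P G)
    (h2 : ∀ G, P G → k ≤ G.edgeSet.ncard) : Evasive P ∧ Evasive fun G => ¬ P Gᶜ := by
  apply both
  refine count (pairs n) (fun A => P₀ (fromEdgeSet (A : Set (Sym2 (Fin n))))) k
    (by rw [card_pairs]; exact hk) ?_ ?_ ?_ _ ?_ ?_
  · intro A B hAB _ h3
    exact hmono _ _ (fromEdgeSet_mono (Finset.coe_subset.2 hAB)) h3
  · intro A hA h3
    obtain ⟨H, hH1, hH2, hH3⟩ := hmin _ h3
    obtain ⟨B, hB, rfl⟩ := exists_finset H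
    refine ⟨B, ?_, hH2, by rwa [ncard_of hB] at hH3⟩
    have h4 := edgeSet_mono hH1
    rw [edgeSet_of hB, edgeSet_of hA] at h4
    exact Finset.coe_subset.1 h4
  · obtain ⟨G, hG⟩ := hex
    obtain ⟨A, hA, rfl⟩ := exists_finset G
    exact ⟨A, hA, hG⟩
  · intro A hA h3 h4
    exact h1 _ h3 (by rw [ncard_of hA]; exact h4)
  · intro A hA h3
    rw [← ncard_of hA]
    exact h2 _ h3

theorem ncard_compl {n : ℕ} (G : SimpleGraph (Fin n)) :
    Gᶜ.edgeSet.ncard + G.edgeSet.ncard = n.choose 2 := by
  obtain ⟨A, hA, rfl⟩ := exists_finset G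
  have h1 := compl_of (n := n) (A := pairs n \ A) Finset.sdiff_subset
  rw [Finset.sdiff_sdiff_eq_self hA] at h1
  rw [h1, ncard_of hA, ncard_of Finset.sdiff_subset, Finset.card_sdiff_of_subset hA, card_pairs]
  have := Finset.card_le_card hA
  rw [card_pairs] at this
  omega

theorem or_edges (n k : ℕ) (hk : 1 ≤ k) (P₀ : SimpleGraph (Fin n) → Prop)
    (hmono : ∀ G H : SimpleGraph (Fin n), G ≤ H → P₀ G → P₀ H) (hex : ∃ G, ¬ P₀ G)
    (hmax : ∀ G, ¬ P₀ G → ∃ H, G ≤ H ∧ ¬ P₀ H ∧ k ≤ H.edgeSet.ncard)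
    (P : SimpleGraph (Fin n) → Prop) (h1 : ∀ G : SimpleGraph (Fin n), k ≤ G.edgeSet.ncard → P G)
    (h2 : ∀ G, P G → P₀ G ∨ k ≤ G.edgeSet.ncard) : Evasive P := by
  have hkn : k ≤ n.choose 2 := by
    obtain ⟨G, hG⟩ := hex
    obtain ⟨H, -, -, hH⟩ := hmax G hG
    have := ncard_compl H
    omega
  have h3 := (and_edges n (n.choose 2 - k + 1) (fun G => ¬ P₀ Gᶜ) ?_ ?_ ?_ (by omega)
    (fun G => ¬ P Gᶜ) ?_ ?_).2
  · have h4 : (fun G : SimpleGraph (Fin n) => ¬ (fun G => ¬ P Gᶜ) Gᶜ) = P := by
      funext G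
      simp only [compl_compl, not_not]
    rw [h4] at h3
    exact h3
  · intro G H hGH h4 h5
    exact h4 (hmono _ _ (compl_le_compl hGH) h5)
  · obtain ⟨G, hG⟩ := hex
    exact ⟨Gᶜ, by simpa using hG⟩
  · intro G hG
    obtain ⟨H, hH1, hH2, hH3⟩ := hmax _ hG
    refine ⟨Hᶜ, ?_, by simpa using hH2, ?_⟩
    · have := compl_le_compl hH1
      rwa [compl_compl] at this
    · have := ncard_compl H
      omega
  · intro G hG h4 h5
    rcases h2 _ h5 with h6 | h6
    · exact hG h6
    · have := ncard_compl G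
      omega
  · intro G h4
    by_contra h5
    apply h4
    apply h1
    have := ncard_compl G
    omega

theorem rigidityRank_eq {n d : ℕ} (p : Fin n → Fin d → ℝ) {A : Finset (Sym2 (Fin n))}
    (hA : A ⊆ pairs n) : rigidityRank p (fromEdgeSet (A : Set (Sym2 (Fin n)))) =
      rk ℝ (row p) (A : Set (Sym2 (Fin n))) := by
  unfold rigidityRank rk
  rw [edgeSet_of hA]

theorem top_eq (n : ℕ) : (⊤ : SimpleGraph (Fin n)) =
    fromEdgeSet ((pairs n : Finset (Sym2 (Fin n))) : Set (Sym2 (Fin n))) := by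
  ext u v
  rw [fromEdgeSet_adj, Finset.mem_coe, mem_pairs, Sym2.mk_isDiag_iff, top_adj]
  exact ⟨fun h => ⟨h, h⟩, fun h => h.1⟩

theorem row_ne_zero {n d : ℕ} {p : Fin n → Fin d → ℝ} {u v : Fin n} (huv : u ≠ v)
    (hp : p u ≠ p v) : row p s(u, v) ≠ 0 := by
  intro h
  have h1 : (Pi.single u (p u - p v) + Pi.single v (p v - p u) : Fin n → Fin d → ℝ) u = 0 := by
    have := congrFun h u
    exact this
  rw [Pi.add_apply, Pi.single_eq_same, Pi.single_eq_of_ne huv, add_zero] at h1
  exact hp (sub_eq_zero.1 h1)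

theorem placement {n d : ℕ} (p : Fin n → Fin d → ℝ)
    (hp : ∀ e ∈ pairs n, row p e ≠ 0) (k : ℕ) (hk1 : 1 ≤ k) (hk : k ≤ rigidityRank p ⊤)
    (P : SimpleGraph (Fin n) → Prop) (h1 : ∀ G, k ≤ rigidityRank p G → P G)
    (h2 : ∀ G, P G → k ≤ G.edgeSet.ncard) : Evasive P ∧ Evasive fun G => ¬ P Gᶜ := by
  apply both
  refine linear (K := ℝ) (pairs n) (row p) hp k hk1 ?_ _ ?_ ?_
  · rw [top_eq, rigidityRank_eq p (Finset.Subset.refl _)] at hk
    exact hk
  · intro A hA h3
    apply h1
    rw [rigidityRank_eq p hA]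
    exact h3
  · intro A hA h3
    rw [← ncard_of hA]
    exact h2 _ h3

/-- the rows depend linearly on the placement -/
noncomputable def rowLin (n d : ℕ) :
    (Fin n → Fin d → ℝ) →ₗ[ℝ] (Sym2 (Fin n) → (Fin n → Fin d → ℝ)) where
  toFun p := row p
  map_add' p q := by
    funext e
    induction e with
    | _ u v =>
      show (Pi.single u ((p + q) u - (p + q) v) + Pi.single v ((p + q) v - (p + q) u) :
        Fin n → Fin d → ℝ) = (Pi.single u (p u - p v) + Pi.single v (p v - p u)) +
          (Pi.single u (q u - q v) + Pi.single v (q v - q u))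
      rw [Pi.add_apply, Pi.add_apply, add_sub_add_comm, add_sub_add_comm, Pi.single_add,
        Pi.single_add]
      abel
  map_smul' c p := by
    funext e
    induction e with
    | _ u v =>
      show (Pi.single u ((c • p) u - (c • p) v) + Pi.single v ((c • p) v - (c • p) u) :
        Fin n → Fin d → ℝ) = c • (Pi.single u (p u - p v) + Pi.single v (p v - p u))
      rw [Pi.smul_apply, Pi.smul_apply, ← smul_sub, ← smul_sub, Pi.single_smul, Pi.single_smul,
        smul_add]

theorem generic_placement (n d : ℕ) : ∃ p : Fin n → Fin d → ℝ, ∀ q : Fin n → Fin d → ℝ,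
    ∀ G : SimpleGraph (Fin n), rigidityRank q G ≤ rigidityRank p G := by
  obtain ⟨p, hp⟩ := generic (rowLin n d)
  refine ⟨p, fun q G => ?_⟩
  obtain ⟨A, hA, rfl⟩ := exists_finset G
  rw [rigidityRank_eq p hA, rigidityRank_eq q hA]
  exact hp q A

theorem generic_rank (n d k : ℕ) (hk1 : 1 ≤ k)
    (hk : ∃ p : Fin n → Fin d → ℝ, k ≤ rigidityRank p ⊤) (P : SimpleGraph (Fin n) → Prop)
    (h1 : ∀ G, (∃ p : Fin n → Fin d → ℝ, k ≤ rigidityRank p G) → P G)
    (h2 : ∀ G, P G → k ≤ G.edgeSet.ncard) : Evasive P ∧ Evasive fun G => ¬ P Gᶜ := by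
  obtain ⟨p, hp⟩ := generic_placement n d
  obtain ⟨p1, hp1⟩ := hk
  refine placement p ?_ k hk1 (hp1.trans (hp p1 ⊤)) P (fun G hG => h1 G ⟨p, hG⟩) h2
  intro e he
  induction e with
  | _ u v =>
    have huv : u ≠ v := by
      have := mem_pairs.1 he
      rwa [Sym2.mk_isDiag_iff] at this
    have hd : 0 < d := by
      rcases Nat.eq_zero_or_pos d with rfl | hd
      · exfalso
        have h3 : rigidityRank p1 (⊤ : SimpleGraph (Fin n)) = 0 := by
          unfold rigidityRank
          exact Module.finrank_zero_of_subsingleton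
        omega
      · exact hd
    let q : Fin n → Fin d → ℝ := fun w => if w = u then fun _ => 1 else 0
    have hq : row q s(u, v) ≠ 0 := by
      refine row_ne_zero huv ?_
      intro h
      have h3 := congrFun h ⟨0, hd⟩
      simp only [q, if_true, if_neg huv.symm] at h3
      exact one_ne_zero h3
    have hsub : ({s(u, v)} : Finset (Sym2 (Fin n))) ⊆ pairs n :=
      Finset.singleton_subset_iff.2 he
    have h4 := hp q (fromEdgeSet (({s(u, v)} : Finset (Sym2 (Fin n))) : Set (Sym2 (Fin n))))
    rw [rigidityRank_eq q hsub, rigidityRank_eq p hsub] at h4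
    intro h5
    unfold rk at h4
    rw [Finset.coe_singleton, Set.image_singleton, Set.image_singleton, h5,
      finrank_span_singleton hq, Submodule.span_zero_singleton, finrank_bot] at h4
    omega

theorem rigid (n d : ℕ) (hn : 2 ≤ n) (hd : 1 ≤ d) :
    Evasive fun G : SimpleGraph (Fin n) => Rigid d G := by
  obtain ⟨p, hp⟩ := generic_placement n d
  have hpos : 1 ≤ rigidityRank p (⊤ : SimpleGraph (Fin n)) := by
    let u : Fin n := ⟨0, by omega⟩
    let v : Fin n := ⟨1, by omega⟩
    have huv : u ≠ v := by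
      intro h
      have := congrArg Fin.val h
      simp [u, v] at this
    let q : Fin n → Fin d → ℝ := fun w => if w = u then fun _ => 1 else 0
    have hq : row q s(u, v) ≠ 0 := by
      refine row_ne_zero huv ?_
      intro h
      have h3 := congrFun h ⟨0, hd⟩
      simp only [q, if_true, if_neg huv.symm] at h3
      exact one_ne_zero h3
    refine le_trans ?_ (hp q ⊤)
    have hmem : s(u, v) ∈ (⊤ : SimpleGraph (Fin n)).edgeSet := by
      simpa using huv
    unfold rigidityRank
    rw [Nat.one_le_iff_ne_zero]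
    intro h0
    have h4 := Submodule.finrank_eq_zero.1 h0
    have h5 : row q s(u, v) ∈ Submodule.span ℝ (row q '' (⊤ : SimpleGraph (Fin n)).edgeSet) :=
      Submodule.subset_span ⟨_, hmem, rfl⟩
    rw [h4, Submodule.mem_bot] at h5
    exact hq h5
  refine (generic_rank n d (rigidityRank p (⊤ : SimpleGraph (Fin n))) hpos ⟨p, le_rfl⟩ _ ?_ ?_).1
  · rintro G ⟨p1, hp1⟩
    exact ⟨p1, fun q => (hp q ⊤).trans hp1⟩
  · rintro G ⟨p1, hp1⟩
    refine (hp1 p).trans ?_
    obtain ⟨A, hA, rfl⟩ := exists_finset G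
    rw [rigidityRank_eq p1 hA, ncard_of hA]
    exact rk_le_card _ A

end Pool.Agent.L0h35.EvRank
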