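import Pool.Agent.L0h35.EvMat
import Pool.Agent.L0h35.EvLin

/-!
# The cycle matroid of the complete graph, by vectors over `ZMod 2` (helper35)
-/

set_option autoImplicit false

namespace Pool.Agent.L0h35.Ev

open Finset

section

variable {E K V : Type} [DecidableEq E] [Field K] [AddCommGroup V] [Module K V]

/-- the matroid of a finite vector configuration -/
noncomputable def vecMatroid (K : Type) {V : Type} [Field K] [AddCommGroup V] [Module K V]
    (E0 : Finset E) (f : E → V) : Matroid E :=
  (IndepMatroid.ofFinite E0.finite_toSet (fun I => I ⊆ (E0 : Set E) ∧ LinearIndepOn K f I)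
    ⟨Set.empty_subset _, linearIndepOn_empty K f⟩
    (fun I J hJ hIJ => ⟨hIJ.trans hJ.1, hJ.2.mono hIJ⟩)
    (by
      rintro I J ⟨hI1, hI2⟩ ⟨hJ1, hJ2⟩ hIJ
      by_contra hcon
      push Not at hcon
      have hIf : I.Finite := E0.finite_toSet.subset hI1
      have hJf : J.Finite := E0.finite_toSet.subset hJ1
      have hsub : f '' J ⊆ (Submodule.span K (f '' I) : Set V) := by
        rintro _ ⟨e, he, rfl⟩
        by_cases heI : e ∈ I
        · exact Submodule.subset_span ⟨e, heI, rfl⟩
        · by_contra hs
          refine hcon e he heI (Set.insert_subset (hJ1 he) hI1) ?_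
          rw [linearIndepOn_insert heI]
          exact ⟨hI2, hs⟩
      have h1 : rk K f J ≤ rk K f I := by
        unfold rk
        have : Module.Finite K (Submodule.span K (f '' I)) :=
          Module.Finite.span_of_finite K (hIf.image f)
        exact Submodule.finrank_mono (Submodule.span_le.2 hsub)
      have h2 := rk_of_indep (K := K) f hIf.toFinset (by rw [hIf.coe_toFinset]; exact hI2)
      have h3 := rk_of_indep (K := K) f hJf.toFinset (by rw [hJf.coe_toFinset]; exact hJ2)
      rw [hIf.coe_toFinset, ← Set.ncard_eq_toFinset_card I hIf] at h2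
      rw [hJf.coe_toFinset, ← Set.ncard_eq_toFinset_card J hJf] at h3
      omega)
    (fun I hI => hI.1)).matroid

theorem vecMatroid_E (E0 : Finset E) (f : E → V) : (vecMatroid K E0 f).E = (E0 : Set E) := rfl

theorem vecMatroid_indep (E0 : Finset E) (f : E → V) (I : Set E) :
    (vecMatroid K E0 f).Indep I ↔ I ⊆ (E0 : Set E) ∧ LinearIndepOn K f I := by
  rfl

theorem vecMatroid_loopless (E0 : Finset E) (f : E → V) (hf : ∀ e ∈ E0, f e ≠ 0) :
    (vecMatroid K E0 f).Loopless := by
  rw [Matroid.loopless_iff_forall_isNonloop]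
  intro e he
  rw [← Matroid.indep_singleton, vecMatroid_indep]
  refine ⟨Set.singleton_subset_iff.2 he, ?_⟩
  exact LinearIndepOn.singleton (hf e he)

theorem span_of_closure (E0 : Finset E) (f : E → V) (A : Set E) (e : E)
    (he : e ∈ (vecMatroid K E0 f).closure A) : f e ∈ Submodule.span K (f '' A) := by
  obtain ⟨I, hI⟩ := (vecMatroid K E0 f).exists_isBasis' A
  rw [← hI.closure_eq_closure] at he
  have heE : e ∈ (E0 : Set E) := (vecMatroid K E0 f).closure_subset_ground I he
  have hmono : Submodule.span K (f '' I) ≤ Submodule.span K (f '' A) :=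
    Submodule.span_mono (Set.image_mono hI.subset)
  by_cases heI : e ∈ I
  · exact hmono (Submodule.subset_span ⟨e, heI, rfl⟩)
  · have h1 := (hI.indep.mem_closure_iff_of_notMem heI).1 he
    by_contra hs
    refine h1.not_indep ((vecMatroid_indep E0 f _).2 ⟨?_, ?_⟩)
    · exact Set.insert_subset heE ((vecMatroid_indep E0 f I).1 hI.indep).1
    · rw [linearIndepOn_insert heI]
      exact ⟨((vecMatroid_indep E0 f I).1 hI.indep).2, fun h => hs (hmono h)⟩

theorem eRk_eq (E0 : Finset E) (f : E → V) (A : Set E) (hA : A ⊆ (E0 : Set E)) :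
    (vecMatroid K E0 f).eRk A = ((rk K f A : ℕ) : ℕ∞) := by
  obtain ⟨I, hI⟩ := (vecMatroid K E0 f).exists_isBasis A hA
  have hI2 := (vecMatroid_indep E0 f I).1 hI.indep
  have hIf : I.Finite := E0.finite_toSet.subset hI2.1
  have h1 := rk_of_indep (K := K) f hIf.toFinset (by rw [hIf.coe_toFinset]; exact hI2.2)
  rw [hIf.coe_toFinset] at h1
  have h2 : rk K f A = rk K f I := by
    unfold rk
    have : Submodule.span K (f '' A) = Submodule.span K (f '' I) := by
      apply le_antisymm
      · rw [Submodule.span_le]
        rintro _ ⟨e, he, rfl⟩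
        exact span_of_closure E0 f I e (hI.subset_closure he)
      · exact Submodule.span_mono (Set.image_mono hI.subset)
    rw [this]
  rw [← hI.encard_eq_eRk, hIf.encard_eq_coe_toFinset_card, h2, h1]

end

/-- the incidence vector of a pair over the field with two elements -/
def inc {n : ℕ} : Sym2 (Fin n) → (Fin n → ZMod 2) :=
  Sym2.lift ⟨fun u v => Pi.single u 1 + Pi.single v 1, fun _ _ => add_comm _ _⟩

/-- sum of the coordinates in a set -/
noncomputable def sumOn {n : ℕ} (C : Finset (Fin n)) : (Fin n → ZMod 2) →ₗ[ZMod 2] ZMod 2 :=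
  ∑ w ∈ C, LinearMap.proj w

theorem sumOn_inc {n : ℕ} (C : Finset (Fin n)) (u v : Fin n) :
    sumOn C (inc s(u, v)) = (if u ∈ C then 1 else 0) + (if v ∈ C then 1 else 0) := by
  have h1 : inc s(u, v) = (Pi.single u 1 + Pi.single v 1 : Fin n → ZMod 2) := rfl
  rw [h1, map_add]
  have h2 : ∀ w : Fin n, sumOn C (Pi.single w 1) = if w ∈ C then 1 else 0 := by
    intro w
    unfold sumOn
    rw [LinearMap.sum_apply]
    simp only [LinearMap.proj_apply, Pi.single_apply]
    rw [Finset.sum_ite_eq' C w (fun _ => (1 : ZMod 2))]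
  rw [h2, h2]

theorem inc_ne_zero {n : ℕ} {u v : Fin n} (h : u ≠ v) : inc s(u, v) ≠ 0 := by
  intro h0
  have h1 := sumOn_inc {u} u v
  rw [h0, map_zero, if_pos (mem_singleton_self u), if_neg (fun h2 => h (mem_singleton.1 h2).symm),
    add_zero] at h1
  exact zero_ne_one h1

/-- **Pairs in the span are joined.** If `C` is closed under the pairs of `A`, then so it is under
the pairs whose vector is in the span. -/
theorem closed_of_span {n : ℕ} (A : Set (Sym2 (Fin n))) (C : Finset (Fin n))
    (hC : ∀ u v, s(u, v) ∈ A → (u ∈ C ↔ v ∈ C)) (u v : Fin n)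
    (h : inc s(u, v) ∈ Submodule.span (ZMod 2) (inc '' A)) : u ∈ C ↔ v ∈ C := by
  have h1 : ∀ x ∈ Submodule.span (ZMod 2) (inc '' A), sumOn C x = 0 := by
    intro x hx
    induction hx using Submodule.span_induction with
    | mem x hx =>
      obtain ⟨e, he, rfl⟩ := hx
      induction e with
      | _ a b =>
        rw [sumOn_inc]
        have h2 := hC a b he
        by_cases ha : a ∈ C
        · rw [if_pos ha, if_pos (h2.1 ha)]
          decide
        · rw [if_neg ha, if_neg (fun hb => ha (h2.2 hb)), add_zero]
    | zero => exact map_zero _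
    | add x y _ _ hx hy => rw [map_add, hx, hy, add_zero]
    | smul a x _ hx => rw [map_smul, hx, smul_zero]
  have h2 := h1 _ h
  rw [sumOn_inc] at h2
  by_cases hu : u ∈ C
  · by_cases hv : v ∈ C
    · exact ⟨fun _ => hv, fun _ => hu⟩
    · rw [if_pos hu, if_neg hv, add_zero] at h2
      exact absurd h2 one_ne_zero
  · by_cases hv : v ∈ C
    · rw [if_neg hu, if_pos hv, zero_add] at h2
      exact absurd h2 one_ne_zero
    · exact ⟨fun h => absurd h hu, fun h => absurd h hv⟩

/-- The rank is at most the number of vertices minus the number of classes. -/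
theorem rk_inc_quot {n : ℕ} {ι : Type} [Fintype ι] [DecidableEq ι] (q : Fin n → ι)
    (hq : Function.Surjective q) (A : Set (Sym2 (Fin n)))
    (hA : ∀ u v, s(u, v) ∈ A → q u = q v) :
    rk (ZMod 2) inc A + Fintype.card ι ≤ n := by
  let Φ : (Fin n → ZMod 2) →ₗ[ZMod 2] (ι → ZMod 2) :=
    LinearMap.pi fun i => sumOn (univ.filter fun w => q w = i)
  have h1 : Submodule.span (ZMod 2) (inc '' A) ≤ LinearMap.ker Φ := by
    rw [Submodule.span_le]
    rintro _ ⟨e, he, rfl⟩
    induction e with
    | _ u v =>
      show Φ (inc s(u, v)) = 0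
      funext i
      show sumOn (univ.filter fun w => q w = i) (inc s(u, v)) = 0
      rw [sumOn_inc]
      simp only [mem_filter, mem_univ, true_and]
      rw [hA u v he]
      split_ifs
      · decide
      · rw [add_zero]
  have hsurj : Function.Surjective Φ := by
    intro y
    refine ⟨fun w => if w = Function.surjInv hq (q w) then y (q w) else 0, ?_⟩
    funext i
    show sumOn (univ.filter fun w => q w = i) _ = y i
    unfold sumOn
    rw [LinearMap.sum_apply]
    simp only [LinearMap.proj_apply]
    rw [Finset.sum_eq_single (Function.surjInv hq i)]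
    · rw [Function.surjInv_eq hq i, if_pos rfl]
    · intro w hw hne
      rw [mem_filter] at hw
      rw [if_neg]
      rw [hw.2]
      exact hne
    · intro h
      exfalso
      apply h
      rw [mem_filter]
      exact ⟨mem_univ _, Function.surjInv_eq hq i⟩
  have h2 := LinearMap.finrank_range_add_finrank_ker Φ
  rw [LinearMap.range_eq_top.2 hsurj, finrank_top, Module.finrank_fintype_fun_eq_card,
    Module.finrank_fin_fun] at h2
  have h4 : rk (ZMod 2) inc A ≤ Module.finrank (ZMod 2) (LinearMap.ker Φ) := by
    unfold rk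
    exact Submodule.finrank_mono h1
  omega

end Pool.Agent.L0h35.Ev
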