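import Pool.Agent.L0h35.GTPower

set_option autoImplicit false

/-!
# Normal abelian subgroups of bounded exponent
-/

namespace Pool.Agent.L0h35.GT

open Finset Module

/-- The number of solutions of `x ^ e = 1` in a finite abelian group, in terms of the numbers of
solutions of `x ^ p = 1` for the prime divisors of `e`. -/
theorem card_torsion_le {A : Type*} [CommGroup A] [Finite A] (t : ℕ) :
    ∀ e : ℕ, e ≠ 0 → (∀ p : ℕ, p.Prime → p ∣ e → Nat.card (powMonoidHom (α := A) p).ker ≤ p ^ t) →
      Nat.card (powMonoidHom (α := A) e).ker ≤ e ^ t := by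
  intro e
  induction e using Nat.recOnMul with
  | zero => intro h; exact absurd rfl h
  | one =>
    intro _ _
    rw [one_pow]
    refine le_of_eq ?_
    rw [Nat.card_eq_one_iff_unique]
    refine ⟨⟨fun x y => ?_⟩, ⟨1⟩⟩
    have hx := x.2
    have hy := y.2
    rw [MonoidHom.mem_ker, powMonoidHom_apply, pow_one] at hx hy
    exact Subtype.ext (hx.trans hy.symm)
  | prime p hp => intro _ h; exact h p hp dvd_rfl
  | mul a b iha ihb =>
    intro hab h
    have ha := iha (left_ne_zero_of_mul hab) fun p hp hpa => h p hp (hpa.mul_right b)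
    have hb := ihb (right_ne_zero_of_mul hab) fun p hp hpb => h p hp (hpb.mul_left a)
    rw [mul_pow]
    refine le_trans ?_ (Nat.mul_le_mul ha hb)
    -- `x ↦ x ^ b` maps the first kernel to the kernel of the power `a`, with fibres given by `b`
    let f : (powMonoidHom (α := A) (a * b)).ker →* (powMonoidHom (α := A) a).ker :=
      { toFun := fun x => ⟨x.1 ^ b, by
          have := x.2
          rw [MonoidHom.mem_ker, powMonoidHom_apply] at this ⊢
          rw [← pow_mul, mul_comm b a, this]⟩
        map_one' := Subtype.ext (one_pow b)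
        map_mul' := fun x y => Subtype.ext (mul_pow x.1 y.1 b) }
    have h1 := Subgroup.card_eq_card_quotient_mul_card_subgroup f.ker
    have h2 : Nat.card (_ ⧸ f.ker) ≤ Nat.card (powMonoidHom (α := A) a).ker := by
      rw [Nat.card_congr (QuotientGroup.quotientKerEquivRange f).toEquiv]
      exact Nat.card_le_card_of_injective _ Subtype.val_injective
    have h3 : Nat.card f.ker ≤ Nat.card (powMonoidHom (α := A) b).ker := by
      refine Nat.card_le_card_of_injective (fun x => ⟨x.1.1, ?_⟩) ?_
      · have := x.2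
        rw [MonoidHom.mem_ker] at this ⊢
        exact congrArg Subtype.val this
      · intro x y hxy
        simp only [Subtype.mk.injEq] at hxy
        exact Subtype.ext (Subtype.ext hxy)
    rw [h1]
    exact Nat.mul_le_mul h2 h3

/-- Some prime gives a large elementary abelian normal subgroup. -/
theorem exists_elementary {G : Type} [Group G] [Finite G] (N : Subgroup G) [N.Normal]
    (hcomm : ∀ x ∈ N, ∀ y ∈ N, x * y = y * x) {e : ℕ} (he : 2 ≤ e) (hexp : ∀ x ∈ N, x ^ e = 1) :
    ∃ (p : ℕ) (_ : Fact p.Prime) (T : Type) (_ : AddCommGroup T) (_ : Module (ZMod p) T)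
      (_ : Fintype T) (ι : Multiplicative T →* G), Function.Injective ι ∧ ι.range.Normal ∧
      Nat.card N ≤ e ^ finrank (ZMod p) T := by
  classical
  let inst : CommGroup N :=
    { (inferInstance : Group N) with
      mul_comm := fun x y => Subtype.ext (hcomm x x.2 y y.2) }
  -- the prime with the largest rank
  have hne : e.primeFactors.Nonempty := by
    rw [Nat.nonempty_primeFactors]
    omega
  have hval : ∀ (n : ℕ) (x : N), ((x ^ n : N) : G) = (x : G) ^ n := fun n x => rfl
  -- the rank of the `p`-torsion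
  have hrank : ∀ p : ℕ, ∃ r : ℕ, p.Prime → Nat.card (powMonoidHom (α := N) p).ker = p ^ r := by
    intro p
    by_cases hp : p.Prime
    · have := Fact.mk hp
      have h1 : IsPGroup p (powMonoidHom (α := N) p).ker := by
        intro x
        refine ⟨1, ?_⟩
        have h2 := x.2
        rw [MonoidHom.mem_ker, powMonoidHom_apply] at h2
        exact Subtype.ext (by rw [pow_one]; exact h2)
      obtain ⟨r, hr⟩ := IsPGroup.iff_card.1 h1
      exact ⟨r, fun _ => hr⟩
    · exact ⟨0, fun h => absurd h hp⟩
  choose r hr using hrank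
  obtain ⟨p, hp, hmax⟩ := exists_max_image e.primeFactors r hne
  have hpp : p.Prime := Nat.prime_of_mem_primeFactors hp
  have hfact := Fact.mk hpp
  set K := (powMonoidHom (α := N) p).ker with hK
  have hKmem : ∀ y : N, y ∈ K ↔ y ^ p = 1 := fun y => by
    rw [hK, MonoidHom.mem_ker, powMonoidHom_apply]
  let T := Additive K
  have hT : ∀ x : T, p • x = 0 := by
    intro x
    have h2 := (hKmem _).1 (Additive.toMul x).2
    exact congrArg Additive.ofMul (Subtype.ext h2 : (Additive.toMul x) ^ p = 1)
  let mod : Module (ZMod p) T := AddCommGroup.zmodModule hT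
  have fT : Fintype T := Fintype.ofFinite T
  let ι : Multiplicative T →* G :=
    { toFun := fun x => ((Additive.toMul (Multiplicative.toAdd x) : K) : N)
      map_one' := rfl
      map_mul' := fun _ _ => rfl }
  refine ⟨p, hfact, T, inferInstance, mod, fT, ι, ?_, ?_, ?_⟩
  · intro x y hxy
    exact Multiplicative.toAdd.injective (Additive.toMul.injective
      (Subtype.ext (Subtype.ext hxy)))
  · refine ⟨?_⟩
    rintro _ ⟨x, rfl⟩ g
    have hx := (hKmem _).1 (Additive.toMul (Multiplicative.toAdd x) : K).2
    set y : N := ((Additive.toMul (Multiplicative.toAdd x) : K) : N) with hy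
    have h1 : g * (y : G) * g⁻¹ ∈ N := Subgroup.Normal.conj_mem inferInstance _ y.2 g
    have h2 : (⟨g * (y : G) * g⁻¹, h1⟩ : N) ∈ K := by
      rw [hKmem]
      refine Subtype.ext ?_
      rw [hval]
      change (g * (y : G) * g⁻¹) ^ p = 1
      rw [conj_pow]
      have h3 : (y : G) ^ p = 1 := by
        rw [← hval, hx]
        rfl
      rw [h3, mul_one, mul_inv_cancel]
    exact ⟨Multiplicative.ofAdd (Additive.ofMul ⟨_, h2⟩), rfl⟩
  · have hcardT : p ^ finrank (ZMod p) T = p ^ r p := by
      have h1 : Fintype.card T = p ^ finrank (ZMod p) T := by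
        rw [Module.card_eq_pow_finrank (K := ZMod p), ZMod.card]
      rw [← h1, ← Nat.card_eq_fintype_card, ← hr p hpp]
      exact Nat.card_congr Additive.toMul
    have hr' : r p = finrank (ZMod p) T := (Nat.pow_right_injective hpp.two_le hcardT).symm
    have h1 := card_torsion_le (A := N) (r p) e (by omega) (fun p' hp' hd => by
      rw [hr p' hp']
      exact Nat.pow_le_pow_right hp'.pos (hmax p' (Nat.mem_primeFactors.2 ⟨hp', hd, by omega⟩)))
    rw [← hr']
    refine le_trans (le_of_eq ?_) h1
    have h2 : (powMonoidHom (α := N) e).ker = ⊤ := by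
      rw [eq_top_iff]
      intro x _
      rw [MonoidHom.mem_ker, powMonoidHom_apply]
      exact Subtype.ext (hexp x x.2)
    rw [h2]
    exact (Nat.card_congr Subgroup.topEquiv.toEquiv).symm

theorem abelian_bound {G : Type} [Group G] [Finite G] (N : Subgroup G) [N.Normal]
    (hcomm : ∀ x ∈ N, ∀ y ∈ N, x * y = y * x) {e : ℕ} (he : 2 ≤ e) (hexp : ∀ x ∈ N, x ^ e = 1)
    {I : Type*} [Fintype I] {A B C : I → Finset G} (h : STPP A B C) {τ : ℝ} (hτ : 2 ≤ τ) :
    ∑ i, ((A i).card * (B i).card * (C i).card : ℝ) ^ (τ / 3) ≤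
      (Nat.card G : ℝ) ^ (τ / 2) / (Nat.card N : ℝ) ^ (1 / (18 * Real.log e)) := by
  obtain ⟨p, _, T, _, _, _, ι, hι, hN, hcard⟩ := exists_elementary N hcomm he hexp
  refine (stpp_bound (p := p) ι hι hN h.key hτ).trans ?_
  rw [div_eq_mul_inv]
  refine mul_le_mul_of_nonneg_left ?_ (by positivity)
  set t := finrank (ZMod p) T with ht
  have hlog : 0 < Real.log e := Real.log_pos (by exact_mod_cast he)
  have hN0 : (0 : ℝ) < Nat.card N := by exact_mod_cast (Nat.card_pos (α := N))
  have hle : Real.log (Nat.card N) ≤ t * Real.log e := by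
    have h1 : (Nat.card N : ℝ) ≤ (e : ℝ) ^ t := by exact_mod_cast hcard
    have h2 := Real.log_le_log hN0 h1
    rwa [Real.log_pow] at h2
  rw [← Real.rpow_neg hN0.le, Real.rpow_def_of_pos hN0, Real.exp_le_exp]
  have h3 : Real.log (Nat.card N) * -(1 / (18 * Real.log e)) =
      -(Real.log (Nat.card N) / Real.log e) / 18 := by
    field_simp
  rw [h3]
  have h4 : Real.log (Nat.card N) / Real.log e ≤ t := by
    rwa [div_le_iff₀ hlog]
  linarith

end Pool.Agent.L0h35.GT
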