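import Pool.Agent.L0h35.GTStpp

set_option autoImplicit false

/-!
# The bound for the simultaneous triple product property
-/

namespace Pool.Agent.L0h35.GT

open Finset Module

/-- the asymptotic argument -/
theorem le_one_of_subexp {x c : ℝ} {k : ℕ} (_hx : 0 ≤ x) (hc : 0 ≤ c)
    (h : ∀ m : ℕ, x ^ (3 * m) ≤ 27 * (m + 1 : ℝ) ^ k * Real.exp (c * √m)) : x ≤ 1 := by
  by_contra hcon
  push Not at hcon
  set l := Real.log x with hl
  have hl0 : 0 < l := Real.log_pos hcon
  have hx0 : 0 < x := by linarith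
  set E := Real.log 27 + 3 * l + 2 * k + c with hE
  obtain ⟨N, hN⟩ := exists_nat_gt (E / (3 * l) + 1)
  have h27 : 0 ≤ Real.log 27 := Real.log_nonneg (by norm_num)
  have hE0 : 0 ≤ E := by positivity
  have hN1 : (1 : ℝ) < N := by
    have : 0 ≤ E / (3 * l) := by positivity
    linarith
  have hN1' : 1 < N := by exact_mod_cast hN1
  have h1 := h (N ^ 2 - 1)
  have hcast : ((N ^ 2 - 1 : ℕ) : ℝ) = (N : ℝ) ^ 2 - 1 := by
    have : 1 ≤ N ^ 2 := Nat.one_le_pow _ _ (by omega)
    push_cast [Nat.cast_sub this]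
    ring
  have h2 := Real.log_le_log (by positivity) h1
  rw [Real.log_pow, Real.log_mul (by positivity) (by positivity), Real.log_exp,
    Real.log_mul (by norm_num) (by positivity), Real.log_pow, hcast] at h2
  rw [sub_add_cancel] at h2
  push_cast at h2
  rw [hcast] at h2
  have h3 : Real.log ((N : ℝ) ^ 2) ≤ 2 * N := by
    rw [Real.log_pow]
    have := Real.log_le_self (x := (N : ℝ)) (by positivity)
    push_cast
    linarith
  have h4 : √((N : ℝ) ^ 2 - 1) ≤ N := by
    rw [Real.sqrt_le_left (by positivity)]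
    linarith
  have h5 : 3 * ((N : ℝ) ^ 2 - 1) * l ≤ Real.log 27 + k * (2 * N) + c * N := by
    refine h2.trans ?_
    have a := mul_le_mul_of_nonneg_left h3 (Nat.cast_nonneg (α := ℝ) k)
    have b := mul_le_mul_of_nonneg_left h4 hc
    linarith
  have h6 : 3 * (N : ℝ) ^ 2 * l ≤ E * N := by
    have a : Real.log 27 + 3 * l ≤ (Real.log 27 + 3 * l) * N := by
      nlinarith
    rw [hE]
    nlinarith
  have h7 : 3 * (N : ℝ) * l ≤ E := by
    refine le_of_mul_le_mul_right ?_ (show (0 : ℝ) < N by linarith)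
    calc _ = 3 * (N : ℝ) ^ 2 * l := by ring
      _ ≤ _ := h6
  have h8 : E / (3 * l) < N := by linarith
  rw [div_lt_iff₀ (by positivity)] at h8
  linarith

/-- the number of occurrences -/
def cnt {I : Type*} [DecidableEq I] {m : ℕ} (s : Fin m → I) (i : I) : Fin (m + 1) :=
  ⟨(univ.filter fun k => s k = i).card, Nat.lt_succ_of_le ((card_le_univ _).trans (by simp))⟩

theorem prod_cnt {I M : Type*} [Fintype I] [DecidableEq I] [CommMonoid M] {m : ℕ}
    (s : Fin m → I) (f : I → M) : ∏ k, f (s k) = ∏ i, f i ^ (cnt s i : ℕ) := by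
  rw [← Finset.prod_fiberwise univ s fun k => f (s k)]
  refine prod_congr rfl fun i _ => ?_
  rw [cnt, prod_congr rfl (g := fun _ => f i) (fun k hk => by rw [(mem_filter.1 hk).2]),
    prod_const]

theorem exists_class {I : Type*} [Fintype I] [DecidableEq I] [Nonempty I] (w : I → ℝ)
    (m : ℕ) : ∃ ν : I → Fin (m + 1), (∑ i, w i) ^ m ≤ (m + 1 : ℝ) ^ Fintype.card I *
      ∑ s ∈ univ.filter (fun s : Fin m → I => cnt s = ν), ∏ k, w (s k) := by
  by_contra hcon
  push Not at hcon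
  have h1 : (∑ i, w i) ^ m = ∑ ν : I → Fin (m + 1),
      ∑ s ∈ univ.filter (fun s : Fin m → I => cnt s = ν), ∏ k, w (s k) := by
    rw [Finset.sum_fiberwise univ (fun s : Fin m → I => cnt s) fun s => ∏ k, w (s k),
      Fintype.sum_pow]
  have h2 : ∑ ν : I → Fin (m + 1), (m + 1 : ℝ) ^ Fintype.card I *
      ∑ s ∈ univ.filter (fun s : Fin m → I => cnt s = ν), ∏ k, w (s k) <
      ∑ _ν : I → Fin (m + 1), (∑ i, w i) ^ m :=
    sum_lt_sum_of_nonempty univ_nonempty fun ν _ => hcon ν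
  rw [← mul_sum, ← h1, sum_const, card_univ, Fintype.card_fun, Fintype.card_fin,
    nsmul_eq_mul] at h2
  push_cast at h2
  exact lt_irrefl _ h2

theorem numeric {g S τ t : ℝ} {n q m k M : ℕ} (hg1 : 1 ≤ g) (hq0 : 0 < q) (hMpos : 0 < M)
    (hMq : M ≤ q) (hqM : (q : ℝ) ≤ 3 * M) (hS : 0 < S) (hτ : 2 ≤ τ)
    (hpack' : (q : ℝ) * q ≤ g ^ (3 * m))
    (hν : S ^ m ≤ (m + 1 : ℝ) ^ k * (n * (q : ℝ) ^ (τ / 3)))
    (hbound : (n : ℝ) ^ 3 * (M * rothNumberNat M) ≤
      3 * (g ^ (3 * m) * Real.exp (-(3 * m * t) / 18))) :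
    S ^ (3 * m) ≤ 27 * (m + 1 : ℝ) ^ (3 * k) *
        Real.exp (4 * √(3 / 2 * Real.log g) * √m) *
        (g ^ (τ / 2) * Real.exp (-t / 18)) ^ (3 * m) := by
  have hg0 : 0 < g := by linarith
  have hqr : (1 : ℝ) ≤ q := by exact_mod_cast hq0
  have hqr0 : (0 : ℝ) < q := by linarith
  have hlogq : Real.log q ≤ 3 / 2 * Real.log g * m := by
    have h1 := Real.log_le_log (by positivity) hpack'
    rw [Real.log_mul hqr0.ne' hqr0.ne', Real.log_pow] at h1
    push_cast at h1
    linarith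
  -- the Behrend bound
  have hbeh : (q : ℝ) ^ 2 / 9 * Real.exp (-(4 * √(3 / 2 * Real.log g) * √m)) ≤
      M * rothNumberNat M := by
    have h1 := Behrend.roth_lower_bound (N := M)
    have hMr : (1 : ℝ) ≤ M := by exact_mod_cast hMpos
    have h2 : √(Real.log M) ≤ √(3 / 2 * Real.log g) * √m := by
      rw [← Real.sqrt_mul (by
        have := Real.log_nonneg hg1
        positivity)]
      refine Real.sqrt_le_sqrt ?_
      refine le_trans (Real.log_le_log (by positivity) ?_) hlogq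
      exact_mod_cast hMq
    have h3 : Real.exp (-(4 * √(3 / 2 * Real.log g) * √m)) ≤ Real.exp (-4 * √(Real.log M)) := by
      rw [Real.exp_le_exp]
      linarith
    have h4 : (q : ℝ) ^ 2 / 9 ≤ (M : ℝ) ^ 2 := by
      have := pow_le_pow_left₀ hqr0.le hqM 2
      rw [mul_pow] at this
      linarith
    calc (q : ℝ) ^ 2 / 9 * Real.exp (-(4 * √(3 / 2 * Real.log g) * √m))
        ≤ (M : ℝ) ^ 2 * Real.exp (-4 * √(Real.log M)) :=
          mul_le_mul h4 h3 (Real.exp_pos _).le (by positivity)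
      _ = M * (M * Real.exp (-4 * √(Real.log M))) := by ring
      _ ≤ M * rothNumberNat M := mul_le_mul_of_nonneg_left h1 (by positivity)
  -- combine
  have hcomb : (n : ℝ) ^ 3 * (q : ℝ) ^ 2 ≤
      27 * Real.exp (4 * √(3 / 2 * Real.log g) * √m) * (g ^ (3 * m) *
        Real.exp (-(3 * m * t) / 18)) := by
    have h1 : (n : ℝ) ^ 3 * ((q : ℝ) ^ 2 / 9 *
        Real.exp (-(4 * √(3 / 2 * Real.log g) * √m))) ≤
        3 * (g ^ (3 * m) * Real.exp (-(3 * m * t) / 18)) := by
      refine le_trans (mul_le_mul_of_nonneg_left hbeh (by positivity)) ?_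
      exact hbound
    have h2 : Real.exp (-(4 * √(3 / 2 * Real.log g) * √m)) *
        Real.exp (4 * √(3 / 2 * Real.log g) * √m) = 1 := by
      rw [← Real.exp_add, neg_add_cancel, Real.exp_zero]
    have h3 := mul_le_mul_of_nonneg_right h1
      (show 0 ≤ 9 * Real.exp (4 * √(3 / 2 * Real.log g) * √m) by positivity)
    calc (n : ℝ) ^ 3 * (q : ℝ) ^ 2 = (n : ℝ) ^ 3 * (q : ℝ) ^ 2 *
          (Real.exp (-(4 * √(3 / 2 * Real.log g) * √m)) *
            Real.exp (4 * √(3 / 2 * Real.log g) * √m)) := by rw [h2, mul_one]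
      _ = (n : ℝ) ^ 3 * ((q : ℝ) ^ 2 / 9 * Real.exp (-(4 * √(3 / 2 * Real.log g) * √m))) *
          (9 * Real.exp (4 * √(3 / 2 * Real.log g) * √m)) := by ring
      _ ≤ _ := h3
      _ = _ := by ring
  have hqτ : (q : ℝ) ^ τ ≤ (q : ℝ) ^ 2 * (g ^ ((τ - 2) / 2)) ^ (3 * m) := by
    have h1 : (q : ℝ) ^ τ = (q : ℝ) ^ 2 * (q : ℝ) ^ (τ - 2) := by
      rw [← Real.rpow_natCast (q : ℝ) 2, ← Real.rpow_add hqr0]
      congr 1
      push_cast
      ring
    rw [h1]
    refine mul_le_mul_of_nonneg_left ?_ (by positivity)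
    have h2 : (q : ℝ) ^ (τ - 2) = ((q : ℝ) * q) ^ ((τ - 2) / 2) := by
      rw [← sq, ← Real.rpow_natCast (q : ℝ) 2, ← Real.rpow_mul hqr0.le]
      congr 1
      push_cast
      ring
    rw [h2]
    refine (Real.rpow_le_rpow (by positivity) hpack' (by linarith)).trans (le_of_eq ?_)
    rw [← Real.rpow_natCast g, ← Real.rpow_natCast (g ^ ((τ - 2) / 2)), ← Real.rpow_mul hg0.le,
      ← Real.rpow_mul hg0.le]
    congr 1
    ring
  have hfinal : (S) ^ (3 * m) ≤ (m + 1 : ℝ) ^ (3 * k) *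
      ((n : ℝ) ^ 3 * (q : ℝ) ^ τ) := by
    have h1 : (S) ^ (3 * m) ≤ ((m + 1 : ℝ) ^ k *
        ((n : ℝ) * (q : ℝ) ^ (τ / 3))) ^ 3 := by
      rw [mul_comm 3 m, pow_mul]
      exact pow_le_pow_left₀ (pow_nonneg hS.le m) hν 3
    refine h1.trans (le_of_eq ?_)
    rw [mul_pow, mul_pow, ← pow_mul, mul_comm (k) 3]
    congr 2
    rw [← Real.rpow_natCast ((q : ℝ) ^ (τ / 3)) 3, ← Real.rpow_mul hqr0.le]
    congr 1
    push_cast
    ring
  refine hfinal.trans ?_
  have h5 : (n : ℝ) ^ 3 * (q : ℝ) ^ τ ≤ 27 * Real.exp (4 * √(3 / 2 * Real.log g) * √m) *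
      (g ^ (3 * m) * Real.exp (-(3 * m * t) / 18)) *
        (g ^ ((τ - 2) / 2)) ^ (3 * m) := by
    calc (n : ℝ) ^ 3 * (q : ℝ) ^ τ ≤
        (n : ℝ) ^ 3 * ((q : ℝ) ^ 2 * (g ^ ((τ - 2) / 2)) ^ (3 * m)) :=
          mul_le_mul_of_nonneg_left hqτ (by positivity)
      _ = (n : ℝ) ^ 3 * (q : ℝ) ^ 2 * (g ^ ((τ - 2) / 2)) ^ (3 * m) := by ring
      _ ≤ _ := mul_le_mul_of_nonneg_right hcomb (by positivity)
  refine (mul_le_mul_of_nonneg_left h5 (by positivity)).trans (le_of_eq ?_)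
  have h6 : g ^ (3 * m) * (g ^ ((τ - 2) / 2)) ^ (3 * m) = (g ^ (τ / 2)) ^ (3 * m) := by
    rw [← mul_pow]
    congr 1
    rw [mul_comm, ← Real.rpow_add_one hg0.ne']
    congr 1
    ring
  have h7 : Real.exp (-(3 * m * t) / 18) =
      Real.exp (-t / 18) ^ (3 * m) := by
    rw [← Real.exp_nat_mul]
    congr 1
    push_cast
    ring
  rw [h7, mul_pow, ← h6]
  ring

variable {p : ℕ} [Fact p.Prime] {G T : Type*} [Group G] [Finite G] [AddCommGroup T]
  [Module (ZMod p) T] [Fintype T]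

theorem power_bound (ι : Multiplicative T →* G) (hι : Function.Injective ι)
    (hN : ι.range.Normal) {I : Type*} [Fintype I] {A B C : I → Finset G} (h : Key A B C)
    {τ : ℝ} (hτ : 2 ≤ τ) (hS : 0 < ∑ i, ((A i).card * (B i).card * (C i).card : ℝ) ^ (τ / 3))
    (m : ℕ) :
    (∑ i, ((A i).card * (B i).card * (C i).card : ℝ) ^ (τ / 3)) ^ (3 * m) ≤
      27 * (m + 1 : ℝ) ^ (3 * Fintype.card I) *
        Real.exp (4 * √(3 / 2 * Real.log (Nat.card G)) * √m) *
        ((Nat.card G : ℝ) ^ (τ / 2) * Real.exp (-(finrank (ZMod p) T : ℝ) / 18)) ^ (3 * m) := by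
  classical
  have hI : Nonempty I := by
    by_contra hI
    rw [not_nonempty_iff] at hI
    simp at hS
  set w : I → ℝ := fun i => ((A i).card * (B i).card * (C i).card : ℝ) ^ (τ / 3) with hw
  obtain ⟨ν, hν⟩ := exists_class w m
  set J := univ.filter (fun s : Fin m → I => cnt s = ν) with hJ
  set α := ∏ i, (A i).card ^ (ν i : ℕ) with hα
  set β := ∏ i, (B i).card ^ (ν i : ℕ) with hβ
  set γ := ∏ i, (C i).card ^ (ν i : ℕ) with hγ
  have hcl : ∀ s ∈ J, ∀ f : I → ℕ, ∏ k, f (s k) = ∏ i, f i ^ (ν i : ℕ) := by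
    intro s hs f
    rw [prod_cnt, (mem_filter.1 hs).2]
  set q := α * β * γ with hq
  have hw0 : ∀ i, 0 ≤ w i := fun i => by positivity
  have hsum : ∑ s ∈ J, ∏ k, w (s k) = J.card * (q : ℝ) ^ (τ / 3) := by
    rw [← nsmul_eq_mul, ← sum_const]
    refine sum_congr rfl fun s hs => ?_
    rw [hw]
    simp only
    rw [Real.finsetProd_rpow _ _ fun i _ => by positivity]
    congr 1
    rw [prod_mul_distrib, prod_mul_distrib]
    have e1 := hcl s hs (fun i => (A i).card)
    have e2 := hcl s hs (fun i => (B i).card)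
    have e3 := hcl s hs (fun i => (C i).card)
    rw [hq, hα, hβ, hγ, ← e1, ← e2, ← e3]
    push_cast
    rfl
  rw [hsum] at hν
  -- the class is not empty and q is positive
  have hpos : 0 < (J.card : ℝ) * (q : ℝ) ^ (τ / 3) := by
    have h1 : 0 < (∑ i, w i) ^ m := pow_pos hS m
    have h2 := h1.trans_le hν
    exact (mul_pos_iff_of_pos_left (by positivity)).1 h2
  have hJ0 : J.Nonempty := by
    rw [nonempty_iff_ne_empty]
    intro hJe
    rw [hJe] at hpos
    simp at hpos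
  have hq0 : 0 < q := by
    rcases Nat.eq_zero_or_pos q with hq0 | hq0
    · rw [hq0, Nat.cast_zero, Real.zero_rpow (by linarith), mul_zero] at hpos
      exact absurd hpos (lt_irrefl _)
    · exact hq0
  -- the family in the power of the group
  let AA : Fin 3 → I → Finset G := ![A, B, C]
  let BB : Fin 3 → I → Finset G := ![B, C, A]
  let CC : Fin 3 → I → Finset G := ![C, A, B]
  have hkey : ∀ x : Fin 3 × Fin m, Key (AA x.1) (BB x.1) (CC x.1) := by
    rintro ⟨e, k⟩
    fin_cases e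
    · exact h
    · exact h.rotate
    · exact h.rotate.rotate
  have hpi := Key.pi hkey
  let emb : (Fin 3 → {s // s ∈ J}) → (Fin 3 × Fin m → I) := fun σ x => (σ x.1).1 x.2
  have hemb : Function.Injective emb := by
    intro σ σ' hs
    funext e
    exact Subtype.ext (funext fun k => congr_fun hs (e, k))
  have hfam := hpi.comp hemb
  have hcard : ∀ (X Y Z : I → Finset G) (σ : Fin 3 → {s // s ∈ J}),
      (Fintype.piFinset fun x : Fin 3 × Fin m =>
        (![X, Y, Z] : Fin 3 → I → Finset G) x.1 (emb σ x)).card =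
        (∏ i, (X i).card ^ (ν i : ℕ)) * (∏ i, (Y i).card ^ (ν i : ℕ)) *
          ∏ i, (Z i).card ^ (ν i : ℕ) := by
    intro X Y Z σ
    rw [Fintype.card_piFinset, Fintype.prod_prod_type, Fin.prod_univ_three]
    have e0 := hcl (σ 0).1 (σ 0).2 (fun i => (X i).card)
    have e1 := hcl (σ 1).1 (σ 1).2 (fun i => (Y i).card)
    have e2 := hcl (σ 2).1 (σ 2).2 (fun i => (Z i).card)
    rw [← e0, ← e1, ← e2]
    rfl
  have hcA : ∀ σ, (Fintype.piFinset fun x : Fin 3 × Fin m => AA x.1 (emb σ x)).card = q :=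
    fun σ => hcard A B C σ
  have hcB : ∀ σ, (Fintype.piFinset fun x : Fin 3 × Fin m => BB x.1 (emb σ x)).card = q :=
    fun σ => by rw [hcard B C A σ, hq]; ring
  have hcC : ∀ σ, (Fintype.piFinset fun x : Fin 3 × Fin m => CC x.1 (emb σ x)).card = q :=
    fun σ => by rw [hcard C A B σ, hq]; ring
  have hHcard : (Nat.card (Fin 3 × Fin m → G) : ℝ) = (Nat.card G : ℝ) ^ (3 * m) := by
    rw [Nat.card_fun, Nat.card_eq_fintype_card (α := Fin 3 × Fin m), Fintype.card_prod,
      Fintype.card_fin, Fintype.card_fin]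
    push_cast
    rfl
  have hrank : (finrank (ZMod p) (Fin 3 × Fin m → T) : ℝ) = 3 * m * finrank (ZMod p) T := by
    rw [Module.finrank_pi_fintype]
    simp
  set M := (q + 2) / 3 with hM
  have hM1 : 3 * M ≤ q + 2 := Nat.mul_div_le _ _
  have hMpos : 0 < M := by omega
  have hMq : M ≤ q := by omega
  have hqM : (q : ℝ) ≤ 3 * M := by
    have : q ≤ 3 * M := by omega
    exact_mod_cast this
  have hbound := uniform_bound (p := p) (piHom (κ := Fin 3 × Fin m) ι) (piHom_injective hι)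
    (piHom_normal hN) hfam hcA hcB hcC hM1
  rw [hHcard, hrank, Fintype.card_fun, Fintype.card_fin, Fintype.card_coe] at hbound
  -- packing
  obtain ⟨s0, hs0⟩ := hJ0
  have hpack : q * q ≤ Nat.card (Fin 3 × Fin m → G) := by
    have h1 := hfam.card_mul_le (fun _ => ⟨s0, hs0⟩)
      (card_pos.1 (lt_of_lt_of_eq hq0 (hcC fun _ => ⟨s0, hs0⟩).symm))
    have h2 := hcA fun _ => ⟨s0, hs0⟩
    have h3 := hcB fun _ => ⟨s0, hs0⟩
    refine le_trans (le_of_eq ?_) h1
    exact (congrArg₂ (· * ·) h2 h3).symm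
  have hpack' : (q : ℝ) * q ≤ (Nat.card G : ℝ) ^ (3 * m) := by
    rw [← hHcard]
    exact_mod_cast hpack
  have hg1 : (1 : ℝ) ≤ Nat.card G := by
    have : 0 < Nat.card G := Nat.card_pos
    exact_mod_cast this
  refine numeric hg1 hq0 hMpos hMq hqM hS hτ hpack' hν ?_
  refine le_trans (le_of_eq ?_) hbound
  push_cast
  rfl

/-- **The bound for the simultaneous triple product property.** -/
theorem stpp_bound (ι : Multiplicative T →* G) (hι : Function.Injective ι)
    (hN : ι.range.Normal) {I : Type*} [Fintype I] {A B C : I → Finset G} (h : Key A B C)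
    {τ : ℝ} (hτ : 2 ≤ τ) :
    ∑ i, ((A i).card * (B i).card * (C i).card : ℝ) ^ (τ / 3) ≤
      (Nat.card G : ℝ) ^ (τ / 2) * Real.exp (-(finrank (ZMod p) T : ℝ) / 18) := by
  set S := ∑ i, ((A i).card * (B i).card * (C i).card : ℝ) ^ (τ / 3) with hS
  set R := (Nat.card G : ℝ) ^ (τ / 2) * Real.exp (-(finrank (ZMod p) T : ℝ) / 18) with hR
  have hg0 : (0 : ℝ) < Nat.card G := by exact_mod_cast (Nat.card_pos (α := G))
  have hR0 : 0 < R := by positivity
  have hS00 : 0 ≤ S := sum_nonneg fun i _ => by positivity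
  rcases hS00.eq_or_lt with hS0 | hS0
  · rw [← hS0]
    exact hR0.le
  · have h1 : S / R ≤ 1 := by
      refine le_one_of_subexp (c := 4 * √(3 / 2 * Real.log (Nat.card G)))
        (k := 3 * Fintype.card I) (div_nonneg hS0.le hR0.le)
        (mul_nonneg (by norm_num) (Real.sqrt_nonneg _)) fun m => ?_
      rw [div_pow, div_le_iff₀ (pow_pos hR0 _)]
      exact power_bound (p := p) ι hι hN h hτ hS0 m
    rwa [div_le_one hR0] at h1

end Pool.Agent.L0h35.GT
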