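import Pool.Agent.TH360.RS.Act

set_option autoImplicit false

/-!
# Matchings in groups with a normal elementary abelian subgroup
-/

namespace Pool.Agent.L0h35.GT

open Finset Module Pool.Agent.TH360.RS

variable {p : ℕ} [Fact p.Prime]

section affine

variable {T : Type*} [AddCommGroup T] [Module (ZMod p) T] [Module.Finite (ZMod p) T]

theorem mono_shift_mem {s : ℕ} (m : Fin s → ℕ) (a : Fin s → ZMod p) :
    (fun x : Fin s → ZMod p => mono m (x + a)) ∈ Pol p (Fin s) (∑ e, m e) := by
  have h1 : ∀ e : Fin s, (fun x : Fin s → ZMod p => x e + a e) ^ m e ∈ Pol p (Fin s) (m e) := by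
    intro e
    have h2 : (fun x : Fin s → ZMod p => x e + a e) ∈ Pol p (Fin s) 1 := by
      have h3 : (fun x : Fin s → ZMod p => x e + a e) =
          (fun x : Fin s → ZMod p => x e) + a e • (1 : (Fin s → ZMod p) → ZMod p) := by
        funext x
        simp
      rw [h3]
      exact Submodule.add_mem _ (coord_mem_Pol e) (Submodule.smul_mem _ _ (one_mem_Pol 1))
    have := pow_mem_Pol h2 (m e)
    rwa [mul_one] at this
  have h2 := prod_mem_Pol univ _ _ fun e (_ : e ∈ univ) => h1 e
  convert h2 using 1
  funext x
  simp [mono, Finset.prod_apply]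

theorem low_affine (φ : T →ₗ[ZMod p] T) (c : T) {α : T → ZMod p}
    (h : α ∈ LowT (⊥ : Submodule (ZMod p) T)) :
    (fun u => α (φ u + c)) ∈ LowT (⊥ : Submodule (ZMod p) T) := by
  set t := finrank (ZMod p) T with ht
  set s := finrank (ZMod p) T - finrank (ZMod p) (⊥ : Submodule (ZMod p) T) with hs
  obtain ⟨f, hf, rfl⟩ := h
  -- translation on the coordinate side
  have key : ∀ f ∈ Low p s t, ∀ a : Fin s → ZMod p, (fun x => f (x + a)) ∈ Low p s t := by
    intro f hf a
    rw [Low] at hf
    induction hf using Submodule.span_induction with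
    | mem f hf =>
      obtain ⟨m, hm, rfl⟩ := hf
      exact Pol_le_Low hm (mono_shift_mem m a)
    | zero => exact Submodule.zero_mem _
    | add f g _ _ hf hg => exact Submodule.add_mem _ hf hg
    | smul c f _ hf => exact Submodule.smul_mem _ c hf
  have h1 := key f hf (coord (⊥ : Submodule (ZMod p) T) c)
  -- composition with a linear map
  have key2 : ∀ g ∈ Low p s t, (fun u => g (coord (⊥ : Submodule (ZMod p) T) (φ u))) ∈
      LowT (⊥ : Submodule (ZMod p) T) := by
    intro g hg
    rw [Low] at hg
    induction hg using Submodule.span_induction with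
    | mem g hg =>
      obtain ⟨m, hm, rfl⟩ := hg
      exact mono_mem_LowT ⊥ ((coord (⊥ : Submodule (ZMod p) T)).comp φ) bot_le m hm
    | zero => exact Submodule.zero_mem _
    | add f g _ _ hf hg => exact Submodule.add_mem _ hf hg
    | smul c f _ hf => exact Submodule.smul_mem _ c hf
  have h2 := key2 _ h1
  convert h2 using 1
  funext u
  simp [LinearMap.funLeft_apply]

end affine

section grp

variable {G : Type*} [Group G] [Finite G] {T : Type*} [AddCommGroup T] [Module (ZMod p) T]
  [Fintype T]

omit [Finite G] in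
/-- conjugation on the normal subgroup, as a linear map -/
theorem exists_conj (ι : Multiplicative T →* G) (hN : ι.range.Normal) (g : G) :
    ∃ φ : T →ₗ[ZMod p] T, ∀ t : T, Function.Injective ι →
      ι (Multiplicative.ofAdd (φ t)) = g * ι (Multiplicative.ofAdd t) * g⁻¹ := by
  by_cases hι : Function.Injective ι
  · have h1 : ∀ t : T, ∃ u : T, ι (Multiplicative.ofAdd u) = g * ι (Multiplicative.ofAdd t) * g⁻¹ := by
      intro t
      obtain ⟨u, hu⟩ := hN.conj_mem (ι (Multiplicative.ofAdd t)) ⟨_, rfl⟩ g
      exact ⟨Multiplicative.toAdd u, by rw [← hu]; rfl⟩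
    choose φ hφ using h1
    let ψ : T →+ T :=
      { toFun := φ
        map_zero' := by
          have h2 := hφ 0
          rw [ofAdd_zero, map_one, mul_one, mul_inv_cancel] at h2
          have h3 : Multiplicative.ofAdd (φ 0) = 1 := hι (by rw [h2, map_one])
          exact h3
        map_add' := by
          intro x y
          have h2 : Multiplicative.ofAdd (φ (x + y)) =
              Multiplicative.ofAdd (φ x) * Multiplicative.ofAdd (φ y) := by
            apply hι
            rw [map_mul, hφ, hφ, hφ, ofAdd_add, map_mul]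
            group
          exact h2 }
    exact ⟨ψ.toZModLinearMap p, fun t _ => hφ t⟩
  · exact ⟨0, fun t h => absurd h hι⟩

open Classical in
/-- **Matchings in groups.** If `x i * y j * z l = 1` only if `i = j = l`, then the number of the
indices is at most `3 |G| exp (- t / 18)`, where `t` is the rank of a normal elementary abelian
`p`-subgroup. -/
theorem matching_bound (ι : Multiplicative T →* G) (hι : Function.Injective ι)
    (hN : ι.range.Normal) {I : Type*} [Fintype I] (x y z : I → G)
    (h : ∀ i j l, x i * y j * z l = 1 ↔ i = j ∧ j = l) :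
    (Fintype.card I : ℝ) ≤
      3 * (Nat.card G * Real.exp (-(finrank (ZMod p) T : ℝ) / 18)) := by
  have := hN
  choose φ hφ' using fun g : G => exists_conj (p := p) ι hN g
  have hφ : ∀ (g : G) (t : T), ι (Multiplicative.ofAdd (φ g t)) =
      g * ι (Multiplicative.ofAdd t) * g⁻¹ := fun g t => hφ' g t hι
  -- cosets
  let Q := G ⧸ ι.range
  let q : G → Q := fun g => (g : Q)
  let r : Q → G := Quotient.out
  have hr : ∀ c : Q, q (r c) = c := fun c => Quotient.out_eq c
  have hn : ∀ g : G, ∃ t : T, ι (Multiplicative.ofAdd t) = g * (r (q g))⁻¹ := by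
    intro g
    have h1 : q (g * (r (q g))⁻¹) = 1 := by
      change ((g * (r (q g))⁻¹ : G) : Q) = 1
      rw [QuotientGroup.mk_mul, QuotientGroup.mk_inv]
      change q g * (q (r (q g)))⁻¹ = 1
      rw [hr, mul_inv_cancel]
    have h2 : g * (r (q g))⁻¹ ∈ ι.range := (QuotientGroup.eq_one_iff _).1 h1
    obtain ⟨u, hu⟩ := h2
    exact ⟨Multiplicative.toAdd u, by rw [← hu]; rfl⟩
  choose n hn using hn
  have hn' : ∀ g : G, g = ι (Multiplicative.ofAdd (n g)) * r (q g) := by
    intro g
    rw [hn]
    group
  have hc : ∀ a b c : Q, ∃ t : T, a * b * c = 1 →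
      ι (Multiplicative.ofAdd t) = r a * r b * r c := by
    intro a b c
    by_cases habc : a * b * c = 1
    · have h1 : q (r a * r b * r c) = 1 := by
        change ((r a * r b * r c : G) : Q) = 1
        rw [QuotientGroup.mk_mul, QuotientGroup.mk_mul]
        change q (r a) * q (r b) * q (r c) = 1
        rw [hr, hr, hr, habc]
      obtain ⟨u, hu⟩ := (QuotientGroup.eq_one_iff _).1 h1
      exact ⟨Multiplicative.toAdd u, fun _ => by rw [← hu]; rfl⟩
    · exact ⟨0, fun h' => absurd h' habc⟩
  choose k hk using hc
  -- the value of a triple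
  have hval : ∀ g g' g'' : G, (g * g' * g'' = 1 ↔ q g * q g' * q g'' = 1 ∧
      n g + φ (r (q g)) (n g') + (φ (r (q g) * r (q g')) (n g'') + k (q g) (q g') (q g'')) = 0) := by
    intro g g' g''
    have h1 : q (g * g' * g'') = q g * q g' * q g'' := by
      change ((g * g' * g'' : G) : Q) = _
      rw [QuotientGroup.mk_mul, QuotientGroup.mk_mul]
    by_cases hE : q g * q g' * q g'' = 1
    · have h2 : g * g' * g'' = ι (Multiplicative.ofAdd (n g + φ (r (q g)) (n g') +
          (φ (r (q g) * r (q g')) (n g'') + k (q g) (q g') (q g'')))) := by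
        rw [ofAdd_add, ofAdd_add, ofAdd_add, map_mul, map_mul, map_mul, hφ, hφ,
          hk _ _ _ hE]
        conv_lhs => rw [hn' g, hn' g', hn' g'']
        group
      constructor
      · intro h3
        refine ⟨hE, ?_⟩
        rw [h3] at h2
        have h4 : Multiplicative.ofAdd (n g + φ (r (q g)) (n g') +
          (φ (r (q g) * r (q g')) (n g'') + k (q g) (q g') (q g''))) = 1 :=
          hι (by rw [← h2, map_one])
        exact h4
      · rintro ⟨-, h3⟩
        rw [h2, h3, ofAdd_zero, map_one]
    · constructor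
      · intro h3
        exfalso
        apply hE
        rw [← h1, h3]
        rfl
      · rintro ⟨h3, -⟩
        exact absurd h3 hE
  obtain ⟨Φ₁, Φ₂, Φ₃, h0, e1, e2, e3⟩ := decomp (⊥ : Submodule (ZMod p) T) ⊥ ⊥ ⊥
    le_rfl le_rfl le_rfl (by rw [finrank_bot]; omega)
  let L₁ := cls (p := p) (fun i => q (x i)) (fun i => n (x i))
      (fun _ => LowT (⊥ : Submodule (ZMod p) T))
  let L₂ := cls (p := p) (fun i => q (y i)) (fun i => n (y i))
      (fun _ => LowT (⊥ : Submodule (ZMod p) T))
  let L₃ := cls (p := p) (fun i => q (z i)) (fun i => n (z i))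
      (fun _ => LowT (⊥ : Submodule (ZMod p) T))
  have hmain : Fintype.card I ≤ finrank (ZMod p) L₁ + finrank (ZMod p) L₂ +
      finrank (ZMod p) L₃ := by
    refine diag_bound
      (fun i j l => if q (x i) * q (y j) * q (z l) = 1 then
        Φ₁ (n (x i)) (φ (r (q (x i))) (n (y j))) (φ (r (q (x i)) * r (q (y j))) (n (z l)) +
          k (q (x i)) (q (y j)) (q (z l))) else 0)
      (fun i j l => if q (x i) * q (y j) * q (z l) = 1 then
        Φ₂ (n (x i)) (φ (r (q (x i))) (n (y j))) (φ (r (q (x i)) * r (q (y j))) (n (z l)) +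
          k (q (x i)) (q (y j)) (q (z l))) else 0)
      (fun i j l => if q (x i) * q (y j) * q (z l) = 1 then
        Φ₃ (n (x i)) (φ (r (q (x i))) (n (y j))) (φ (r (q (x i)) * r (q (y j))) (n (z l)) +
          k (q (x i)) (q (y j)) (q (z l))) else 0) L₁ L₂ L₃ ?_ ?_ ?_ ?_
    · intro j l c
      by_cases hcc : c * q (y j) * q (z l) = 1
      · refine ⟨_, e1 (φ (r c) (n (y j))) (φ (r c * r (q (y j))) (n (z l)) +
          k c (q (y j)) (q (z l))), fun i hi => ?_⟩
        have hi' : q (x i) = c := hi
        simp only [hi']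
        rw [if_pos hcc]
      · refine ⟨0, Submodule.zero_mem _, fun i hi => ?_⟩
        have hi' : q (x i) = c := hi
        simp only [hi']
        rw [if_neg hcc]
        rfl
    · intro i l c
      by_cases hcc : q (x i) * c * q (z l) = 1
      · have h1 := low_affine (φ (r (q (x i)))) 0 (e2 (n (x i))
          (φ (r (q (x i)) * r c) (n (z l)) + k (q (x i)) c (q (z l))))
        refine ⟨_, h1, fun j hj => ?_⟩
        have hj' : q (y j) = c := hj
        simp only [hj']
        rw [if_pos hcc, add_zero]
      · refine ⟨0, Submodule.zero_mem _, fun j hj => ?_⟩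
        have hj' : q (y j) = c := hj
        simp only [hj']
        rw [if_neg hcc]
        rfl
    · intro i j c
      by_cases hcc : q (x i) * q (y j) * c = 1
      · have h1 := low_affine (φ (r (q (x i)) * r (q (y j)))) (k (q (x i)) (q (y j)) c)
          (e3 (n (x i)) (φ (r (q (x i))) (n (y j))))
        refine ⟨_, h1, fun l hl => ?_⟩
        have hl' : q (z l) = c := hl
        simp only [hl']
        rw [if_pos hcc]
      · refine ⟨0, Submodule.zero_mem _, fun l hl => ?_⟩
        have hl' : q (z l) = c := hl
        simp only [hl']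
        rw [if_neg hcc]
        rfl
    · intro i j l
      have h1 := hval (x i) (y j) (z l)
      rw [h i j l] at h1
      by_cases hE : q (x i) * q (y j) * q (z l) = 1
      · simp only [if_pos hE]
        rw [h0]
        simp only [Submodule.mem_bot]
        refine if_congr ?_ rfl rfl
        rw [h1]
        exact ⟨fun h2 => ⟨hE, h2⟩, fun h2 => h2.2⟩
      · simp only [if_neg hE, add_zero]
        rw [if_neg]
        intro h2
        exact hE (h1.1 h2).1
  have hfin : Finite Q := inferInstance
  have : Fintype Q := Fintype.ofFinite Q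
  have hlow : (finrank (ZMod p) (LowT (⊥ : Submodule (ZMod p) T)) : ℝ) ≤
      Fintype.card T * Real.exp (-(finrank (ZMod p) T : ℝ) / 18) := by
    refine (finrank_LowT_le (⊥ : Submodule (ZMod p) T)).trans (le_of_eq ?_)
    rw [finrank_bot, Nat.sub_zero, Module.card_eq_pow_finrank (K := ZMod p) (V := T), ZMod.card]
    push_cast
    rfl
  have hG : (Nat.card G : ℝ) = Fintype.card Q * Fintype.card T := by
    have h1 := Subgroup.card_eq_card_quotient_mul_card_subgroup ι.range
    have h2 : Nat.card ι.range = Fintype.card T := by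
      rw [← Nat.card_eq_fintype_card]
      refine (Nat.card_congr (MonoidHom.ofInjective hι).toEquiv).symm.trans ?_
      exact Nat.card_congr Multiplicative.toAdd
    rw [h1, h2, Nat.card_eq_fintype_card]
    push_cast
    rfl
  have hcls : ∀ w : I → G, (finrank (ZMod p) (cls (p := p) (fun i => q (w i)) (fun i => n (w i))
      (fun _ => LowT (⊥ : Submodule (ZMod p) T))) : ℝ) ≤
        Nat.card G * Real.exp (-(finrank (ZMod p) T : ℝ) / 18) := by
    intro w
    have h1 : (finrank (ZMod p) (cls (p := p) (fun i => q (w i)) (fun i => n (w i))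
      (fun _ => LowT (⊥ : Submodule (ZMod p) T))) : ℝ) ≤ ∑ c ∈ univ.image (fun i => q (w i)),
        (finrank (ZMod p) (LowT (⊥ : Submodule (ZMod p) T)) : ℝ) := by
      exact_mod_cast finrank_cls_le (p := p) (fun i => q (w i)) (fun i => n (w i))
        (fun _ => LowT (⊥ : Submodule (ZMod p) T))
    refine h1.trans ?_
    rw [sum_const, nsmul_eq_mul, hG, mul_assoc]
    refine mul_le_mul ?_ hlow (Nat.cast_nonneg _) (Nat.cast_nonneg _)
    exact_mod_cast card_le_univ _
  have h1 := hcls x
  have h2 := hcls y
  have h3 := hcls z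
  have h4 : (Fintype.card I : ℝ) ≤ finrank (ZMod p) L₁ + finrank (ZMod p) L₂ +
      finrank (ZMod p) L₃ := by exact_mod_cast hmain
  linarith

end grp

end Pool.Agent.L0h35.GT
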