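import Pool.Agent.L0h35.GTSlice
import Mathlib.Combinatorics.Additive.AP.Three.Behrend

set_option autoImplicit false

/-!
# From the simultaneous triple product property to matchings
-/

namespace Pool.Agent.L0h35.GT

open Finset Module

/-- The triple product property of Cohn and Umans. -/
def TPP {G : Type*} [Group G] (A B C : Finset G) : Prop :=
  ∀ a ∈ A, ∀ a' ∈ A, ∀ b ∈ B, ∀ b' ∈ B, ∀ c ∈ C, ∀ c' ∈ C,
    a * a'⁻¹ * (b * b'⁻¹) * (c * c'⁻¹) = 1 → a = a' ∧ b = b' ∧ c = c'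

/-- The simultaneous triple product property of Cohn, Kleinberg, Szegedy and Umans. -/
def STPP {G I : Type*} [Group G] (A B C : I → Finset G) : Prop :=
  (∀ i, TPP (A i) (B i) (C i)) ∧
  ∀ i j k, ∀ a ∈ A i, ∀ a' ∈ A j, ∀ b ∈ B j, ∀ b' ∈ B k, ∀ c ∈ C k, ∀ c' ∈ C i,
    a * a'⁻¹ * (b * b'⁻¹) * (c * c'⁻¹) = 1 → i = j ∧ j = k

/-- both parts of the property in one -/
def Key {G I : Type*} [Group G] (A B C : I → Finset G) : Prop :=
  ∀ i j k, ∀ a ∈ A i, ∀ a' ∈ A j, ∀ b ∈ B j, ∀ b' ∈ B k, ∀ c ∈ C k, ∀ c' ∈ C i,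
    a * a'⁻¹ * (b * b'⁻¹) * (c * c'⁻¹) = 1 → i = j ∧ j = k ∧ a = a' ∧ b = b' ∧ c = c'

variable {G I : Type*} [Group G]

theorem STPP.key {A B C : I → Finset G} (h : STPP A B C) : Key A B C := by
  intro i j k a ha a' ha' b hb b' hb' c hc c' hc' he
  obtain ⟨rfl, rfl⟩ := h.2 i j k a ha a' ha' b hb b' hb' c hc c' hc' he
  obtain ⟨h1, h2, h3⟩ := h.1 i a ha a' ha' b hb b' hb' c hc c' hc' he
  exact ⟨rfl, rfl, h1, h2, h3⟩

theorem Key.rotate {A B C : I → Finset G} (h : Key A B C) : Key B C A := by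
  intro i j k b hb b' hb' c hc c' hc' a ha a' ha' he
  have he' : a * a'⁻¹ * (b * b'⁻¹) * (c * c'⁻¹) = 1 := by
    have h1 : a * a'⁻¹ * (b * b'⁻¹) * (c * c'⁻¹) =
        (a * a'⁻¹) * (b * b'⁻¹ * (c * c'⁻¹) * (a * a'⁻¹)) * (a * a'⁻¹)⁻¹ := by group
    rw [h1, he]
    group
  obtain ⟨h1, h2, h3, h4, h5⟩ := h k i j a ha a' ha' b hb b' hb' c hc c' hc' he'
  exact ⟨h2, (h1.trans h2).symm, h4, h5, h3⟩

theorem Key.comp {J : Type*} {A B C : I → Finset G} (h : Key A B C) {f : J → I}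
    (hf : Function.Injective f) : Key (fun j => A (f j)) (fun j => B (f j)) (fun j => C (f j)) := by
  intro i j k a ha a' ha' b hb b' hb' c hc c' hc' he
  obtain ⟨h1, h2, h3⟩ := h (f i) (f j) (f k) a ha a' ha' b hb b' hb' c hc c' hc' he
  exact ⟨hf h1, hf h2, h3⟩

theorem Key.pi {κ : Type*} [Fintype κ] [DecidableEq κ] {A B C : κ → I → Finset G}
    (h : ∀ x, Key (A x) (B x) (C x)) :
    Key (G := κ → G) (fun σ : κ → I => Fintype.piFinset fun x => A x (σ x))
      (fun σ => Fintype.piFinset fun x => B x (σ x))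
      (fun σ => Fintype.piFinset fun x => C x (σ x)) := by
  intro i j k a ha a' ha' b hb b' hb' c hc c' hc' he
  rw [Fintype.mem_piFinset] at ha ha' hb hb' hc hc'
  have h1 := fun x => h x (i x) (j x) (k x) (a x) (ha x) (a' x) (ha' x) (b x) (hb x) (b' x) (hb' x)
    (c x) (hc x) (c' x) (hc' x) (by
      have := congr_fun he x
      simpa only [Pi.mul_apply, Pi.inv_apply, Pi.one_apply] using this)
  exact ⟨funext fun x => (h1 x).1, funext fun x => (h1 x).2.1, funext fun x => (h1 x).2.2.1,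
    funext fun x => (h1 x).2.2.2.1, funext fun x => (h1 x).2.2.2.2⟩

/-- the packing bound -/
theorem Key.card_mul_le [Finite G] {A B C : I → Finset G} (h : Key A B C) (i : I)
    (hC : (C i).Nonempty) : (A i).card * (B i).card ≤ Nat.card G := by
  classical
  have : Fintype G := Fintype.ofFinite G
  obtain ⟨c, hc⟩ := hC
  rw [← card_product, Nat.card_eq_fintype_card]
  refine Finset.card_le_card_of_injOn (fun x => x.1⁻¹ * x.2) (fun _ _ => mem_univ _) ?_
  rintro ⟨a, b⟩ hx ⟨a', b'⟩ hx' he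
  rw [mem_coe, mem_product] at hx hx'
  simp only at he hx hx'
  have h1 := h i i i a' hx'.1 a hx.1 b hx.2 b' hx'.2 c hc c hc (by
    have : a' * a⁻¹ * (b * b'⁻¹) * (c * c⁻¹) = a' * (a⁻¹ * b) * b'⁻¹ := by group
    rw [this, he]
    group)
  rw [h1.2.2.1, h1.2.2.2.1]

variable {p : ℕ} [Fact p.Prime] {T : Type*} [AddCommGroup T] [Module (ZMod p) T] [Fintype T]

theorem uniform_bound [Finite G] (ι : Multiplicative T →* G) (hι : Function.Injective ι)
    (hN : ι.range.Normal) {K : Type*} [Fintype K] {A B C : K → Finset G} (h : Key A B C)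
    {q M : ℕ} (hA : ∀ i, (A i).card = q) (hB : ∀ i, (B i).card = q) (hC : ∀ i, (C i).card = q)
    (hM : 3 * M ≤ q + 2) :
    (Fintype.card K : ℝ) * (M * rothNumberNat M) ≤
      3 * (Nat.card G * Real.exp (-(finrank (ZMod p) T : ℝ) / 18)) := by
  classical
  obtain ⟨R, hR, hRc, hR3⟩ := rothNumberNat_spec M
  have hRlt : ∀ s : {s // s ∈ R}, (s : ℕ) < M := fun s => mem_range.1 (hR s.2)
  let eA : ∀ i, Fin q ≃ {x // x ∈ A i} := fun i => (finCongr (hA i).symm).trans (A i).equivFin.symm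
  let eB : ∀ i, Fin q ≃ {x // x ∈ B i} := fun i => (finCongr (hB i).symm).trans (B i).equivFin.symm
  let eC : ∀ i, Fin q ≃ {x // x ∈ C i} := fun i => (finCongr (hC i).symm).trans (C i).equivFin.symm
  let J := K × Fin M × {s // s ∈ R}
  have l0 : ∀ w : J, (w.2.1 : ℕ) < q := fun w => by
    have := w.2.1.2
    omega
  have l1 : ∀ w : J, (w.2.1 : ℕ) + w.2.2 < q := fun w => by
    have := w.2.1.2
    have := hRlt w.2.2
    omega
  have l2 : ∀ w : J, (w.2.1 : ℕ) + 2 * w.2.2 < q := fun w => by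
    have := w.2.1.2
    have := hRlt w.2.2
    omega
  let fa : J → G := fun w => eA w.1 ⟨w.2.1, l0 w⟩
  let fb : J → G := fun w => eB w.1 ⟨w.2.1 + w.2.2, l1 w⟩
  let fc : J → G := fun w => eC w.1 ⟨w.2.1 + 2 * w.2.2, l2 w⟩
  have key := matching_bound (p := p) ι hι hN (I := J) (fun w => (fa w)⁻¹ * fb w)
    (fun w => (fb w)⁻¹ * fc w) (fun w => (fc w)⁻¹ * fa w) ?_
  · have hJ : (Fintype.card J : ℝ) = (Fintype.card K : ℝ) * (M * rothNumberNat M) := by
      rw [Fintype.card_prod, Fintype.card_prod, Fintype.card_fin, Fintype.card_coe, hRc]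
      push_cast
      rfl
    rwa [hJ] at key
  · intro w1 w2 w3
    constructor
    · intro he
      have he' : fa w3 * (fa w1)⁻¹ * (fb w1 * (fb w2)⁻¹) * (fc w2 * (fc w3)⁻¹) = 1 := by
        have h1 : fa w3 * (fa w1)⁻¹ * (fb w1 * (fb w2)⁻¹) * (fc w2 * (fc w3)⁻¹) =
          fa w3 * ((fa w1)⁻¹ * fb w1 * ((fb w2)⁻¹ * fc w2) * ((fc w3)⁻¹ * fa w3)) *
            (fa w3)⁻¹ := by group
        rw [h1, he]
        group
      obtain ⟨h1, h2, h3, h4, h5⟩ := h w3.1 w1.1 w2.1 _ (eA w3.1 _).2 _ (eA w1.1 _).2 _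
        (eB w1.1 _).2 _ (eB w2.1 _).2 _ (eC w2.1 _).2 _ (eC w3.1 _).2 he'
      obtain ⟨i1, u1, s1⟩ := w1
      obtain ⟨i2, u2, s2⟩ := w2
      obtain ⟨i3, u3, s3⟩ := w3
      simp only at h1 h2
      subst h1
      subst h2
      have g1 := (eA i3).injective (Subtype.ext h3)
      have g2 := (eB i3).injective (Subtype.ext h4)
      have g3 := (eC i3).injective (Subtype.ext h5)
      simp only [Fin.mk.injEq] at g1 g2 g3
      have g4 : (s1 : ℕ) + s2 = s3 + s3 := by omega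
      have g5 : (s1 : ℕ) = s3 := hR3 s1.2 s3.2 s2.2 g4
      have g6 : (s2 : ℕ) = s3 := by omega
      have g7 : (u1 : ℕ) = u2 := by omega
      have g8 : (u2 : ℕ) = u3 := by omega
      refine ⟨?_, ?_⟩
      · rw [Prod.mk.injEq, Prod.mk.injEq]
        exact ⟨rfl, Fin.ext g7, Subtype.ext (g5.trans g6.symm)⟩
      · rw [Prod.mk.injEq, Prod.mk.injEq]
        exact ⟨rfl, Fin.ext g8, Subtype.ext g6⟩
    · rintro ⟨rfl, rfl⟩
      group

/-- the power of an embedding -/
def piHom {κ : Type*} (ι : Multiplicative T →* G) : Multiplicative (κ → T) →* (κ → G) where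
  toFun f := fun x => ι (Multiplicative.ofAdd (Multiplicative.toAdd f x))
  map_one' := by
    funext x
    change ι (Multiplicative.ofAdd 0) = 1
    rw [ofAdd_zero, map_one]
  map_mul' f g := by
    funext x
    change ι (Multiplicative.ofAdd (Multiplicative.toAdd f x + Multiplicative.toAdd g x)) = _
    rw [ofAdd_add, map_mul]
    rfl

omit [Fintype T] in
theorem piHom_injective {κ : Type*} {ι : Multiplicative T →* G} (hι : Function.Injective ι) :
    Function.Injective (piHom (κ := κ) ι) := by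
  intro f g hfg
  have h1 : ∀ x, Multiplicative.toAdd f x = Multiplicative.toAdd g x := fun x =>
    Multiplicative.ofAdd.injective (hι (congr_fun hfg x))
  exact Multiplicative.toAdd.injective (funext h1)

omit [Fintype T] in
theorem piHom_normal {κ : Type*} {ι : Multiplicative T →* G} (hN : ι.range.Normal) :
    (piHom (κ := κ) ι).range.Normal := by
  refine ⟨?_⟩
  rintro _ ⟨f, rfl⟩ g
  have h1 : ∀ x, ∃ t : T, ι (Multiplicative.ofAdd t) =
      g x * ι (Multiplicative.ofAdd (Multiplicative.toAdd f x)) * (g x)⁻¹ := by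
    intro x
    obtain ⟨u, hu⟩ := hN.conj_mem _ ⟨Multiplicative.ofAdd (Multiplicative.toAdd f x), rfl⟩ (g x)
    exact ⟨Multiplicative.toAdd u, by rw [← hu]; rfl⟩
  choose t ht using h1
  exact ⟨Multiplicative.ofAdd t, funext fun x => ht x⟩

end Pool.Agent.L0h35.GT
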