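import Pool.Agent.L0h35.GnUnq

/-!
# The bits of the copies as functions of one block
-/

set_option autoImplicit false

open scoped Classical
open Finset

namespace Pool.Agent.L0h35.Gn

open H630VC (Prog marked)
open H589DT
open Pool.Agent.L0h35.Ng

variable {n D p d m N b R : ℕ} [NeZero p] {φ : Fin n → Fin D → Fin n} {B : Finset (Fin n)}
  {s : Fin n → Fin D → ZMod p} {ι : Option (Cp b R × (Fin n × Fin m)) ↪ Fin N}

theorem game_host (hφ : ∀ w i j, w ∉ B → φ w i = φ w j → i = j) {nb : ℕ}
    (e : Fin nb ≃ Fin N × Fin N × (Fin (2 * p) → Fin (2 * p))) {Y : Type}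
    (negC : Y → Finset (EE D B × Fin m × Fin m)) {t : ℕ} (ht : t < b) (w : Fin b → Y) :
    HostInputs (fun H => code e (toT (gameB φ B s ι 2 (stepA negC ∅ t w H))))
      (Circuit.inpB nb) := by
  rintro g (⟨i, rfl⟩ | ⟨a, rfl⟩)
  · by_cases hm : (fun a : Fin (2 * p) =>
        (Fin.castLE (by omega) (bmap φ B s ι 2 (e i).2.1 (e i).1 a) : Fin (2 * p))) = (e i).2.2
    · have key : ∀ H, (code e (toT (gameB φ B s ι 2 (stepA negC ∅ t w H))) i = true) ↔
          (((e i).2.1 = ι none ∧ (e i).1 = ι none) ∨
            ∃ κ : Cp b R, ∃ a ∈ stepA negC ∅ t w H κ.1, isE φ B ι κ a (e i).2.1 (e i).1) := by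
        intro H
        unfold code
        rw [decide_eq_true_iff]
        exact and_iff_left hm
      by_cases h0 : (e i).2.1 = ι none ∧ (e i).1 = ι none
      · left
        exact ⟨1, fun H => if_pos ((key H).2 (Or.inl h0))⟩
      · by_cases h1 : ∃ κ : Cp b R, ∃ a : EE D B × Fin m × Fin m,
            isE φ B ι κ a (e i).2.1 (e i).1
        · obtain ⟨κ, a, ha⟩ := h1
          have key2 : ∀ H, (code e (toT (gameB φ B s ι 2 (stepA negC ∅ t w H))) i = true) ↔
              a ∈ stepA negC ∅ t w H κ.1 := by
            intro H
            rw [key H]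
            constructor
            · rintro (h | ⟨κ', a', ha', h'⟩)
              · exact absurd h h0
              · obtain ⟨rfl, rfl⟩ := isE_unique hφ ha h'
                exact ha'
            · intro h
              exact Or.inr ⟨κ, a, h, ha⟩
          by_cases h2 : (κ.1 : ℕ) < t
          · left
            refine ⟨if a ∈ negC (w κ.1) then 1 else 0, fun H => ?_⟩
            have h3 : stepA negC ∅ t w H κ.1 = negC (w κ.1) := by
              unfold stepA
              rw [if_pos h2]
            by_cases h4 : a ∈ negC (w κ.1)
            · rw [if_pos h4]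
              exact if_pos ((key2 H).2 (by rw [h3]; exact h4))
            · rw [if_neg h4]
              exact if_neg fun h5 => h4 (by rw [← h3]; exact (key2 H).1 h5)
          · by_cases h3 : (κ.1 : ℕ) = t
            · right
              refine ⟨a, fun H => ?_⟩
              have h4 : stepA negC ∅ t w H κ.1 = H := by
                unfold stepA
                rw [if_neg h2, if_pos h3]
              by_cases h5 : a ∈ H
              · rw [if_pos h5]
                exact if_pos ((key2 H).2 (by rw [h4]; exact h5))
              · rw [if_neg h5]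
                exact if_neg fun h6 => h5 (by rw [← h4]; exact (key2 H).1 h6)
            · left
              refine ⟨0, fun H => if_neg fun h5 => ?_⟩
              have h4 : stepA negC ∅ t w H κ.1 = ∅ := by
                unfold stepA
                rw [if_neg h2, if_neg h3]
              have h6 := (key2 H).1 h5
              rw [h4] at h6
              exact absurd h6 (Finset.notMem_empty _)
        · left
          refine ⟨0, fun H => if_neg fun h5 => ?_⟩
          rcases (key H).1 h5 with h | ⟨κ, a, _, h⟩
          · exact h0 h
          · exact h1 ⟨κ, a, h⟩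
    · left
      refine ⟨0, fun H => if_neg fun h5 => hm ?_⟩
      change code e (toT (gameB φ B s ι 2 (stepA negC ∅ t w H))) i = true at h5
      unfold code at h5
      rw [decide_eq_true_iff] at h5
      exact h5.2
  · exact Or.inl ⟨a, fun _ => rfl⟩

end Pool.Agent.L0h35.Gn
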