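import Pool.Agent.L0h35.GnUnq

/-!
# Games with copies of a host game of small value
-/

set_option autoImplicit false

open scoped Classical
open Finset

namespace Pool.Agent.L0h35.Gn

open H630VC (Prog marked)
open H589DT
open Pool.Agent.L0h35.Ng

/-- the number of copies of the blocks below `t` -/
theorem card_below {b R : ℕ} (hR : 1 ≤ R) (t : Fin b) :
    (univ.filter fun κ : Cp b R => κ.1 < t).card * (R - 1) + 1 = R ^ (t : ℕ) := by
  have h1 : (univ.filter fun κ : Cp b R => κ.1 < t)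
      = (Finset.Iio t).sigma fun l => (univ : Finset (Fin (R ^ (l : ℕ)))) := by
    ext κ
    simp
  have h2 : ∑ l ∈ Finset.Iio t, R ^ (l : ℕ) = ∑ i ∈ range (t : ℕ), R ^ i := by
    rw [← Nat.Iio_eq_range, ← Fin.map_valEmbedding_Iio, Finset.sum_map]
    rfl
  rw [h1, card_sigma]
  simp only [card_univ, Fintype.card_fin]
  rw [h2]
  obtain ⟨x, rfl⟩ : ∃ x, R = x + 1 := ⟨R - 1, by omega⟩
  rw [Nat.add_sub_cancel]
  exact geom_sum_mul_add x _

section game

variable {n D p d m N b R : ℕ} [NeZero p] {φ : Fin n → Fin D → Fin n} {B : Finset (Fin n)}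
  {s : Fin n → Fin D → ZMod p} {ι : Option (Cp b R × (Fin n × Fin m)) ↪ Fin N}

/-- the edges of the copies of the block `t` -/
noncomputable def edgeK (φ : Fin n → Fin D → Fin n) (B : Finset (Fin n))
    (ι : Option (Cp b R × (Fin n × Fin m)) ↪ Fin N) (t : Fin b) (x : Fin n ⊕ Fin n → Fin m) :
    Option (Fin (R ^ (t : ℕ)) × EE D B) → Fin N × Fin N
  | none => (ι none, ι none)
  | some q => (ι (some (⟨t, q.1⟩, (φ q.2.1.1 q.2.1.2, x (Sum.inl (φ q.2.1.1 q.2.1.2))))),
      ι (some (⟨t, q.1⟩, (q.2.1.1, x (Sum.inr q.2.1.1)))))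

omit [NeZero p] in
theorem edgeK_inj (hφ : ∀ w i j, w ∉ B → φ w i = φ w j → i = j) (t : Fin b)
    (x : Fin n ⊕ Fin n → Fin m) : Function.Injective (edgeK φ B ι t x) := by
  rintro (_ | ⟨k1, ⟨⟨w1, i1⟩, hw1⟩⟩) (_ | ⟨k2, ⟨⟨w2, i2⟩, hw2⟩⟩) h
  · rfl
  · simp only [edgeK, Prod.mk.injEq, EmbeddingLike.apply_eq_iff_eq] at h
    exact absurd h.1 (by simp)
  · simp only [edgeK, Prod.mk.injEq, EmbeddingLike.apply_eq_iff_eq] at h
    exact absurd h.1 (by simp)
  · have h1 := ι.injective (Prod.mk.inj h).1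
    have h2 := ι.injective (Prod.mk.inj h).2
    simp only [Option.some.injEq, Prod.mk.injEq, Sigma.mk.injEq, heq_eq_eq, true_and] at h1 h2
    obtain ⟨-, h3, -⟩ := h1
    obtain ⟨rfl, rfl, -⟩ := h2
    have := hφ w1 i1 i2 hw1 h3
    subst this
    rfl

/-- the number of the edges -/
theorem card_adj_ge (hφ : ∀ w i j, w ∉ B → φ w i = φ w j → i = j)
    (c : Fin b → Finset (EE D B × Fin m × Fin m)) (t : Fin b) (x : Fin n ⊕ Fin n → Fin m)
    (hct : c t = hx (gameGraph (d := d) φ B s) x) :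
    R ^ (t : ℕ) * Fintype.card (EE D B) + 1 ≤
      (univ.filter fun e : Fin N × Fin N => (gameB φ B s ι d c).adj e.1 e.2).card := by
  have h1 : (univ.image (edgeK φ B ι t x)).card
      = R ^ (t : ℕ) * Fintype.card (EE D B) + 1 := by
    rw [card_image_of_injective _ (edgeK_inj hφ t x), card_univ, Fintype.card_option,
      Fintype.card_prod, Fintype.card_fin]
  rw [← h1]
  apply card_le_card
  intro e he
  obtain ⟨o, -, rfl⟩ := mem_image.1 he
  rw [mem_filter]
  refine ⟨mem_univ _, ?_⟩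
  cases o with
  | none => exact Or.inl ⟨rfl, rfl⟩
  | some q =>
    refine Or.inr ⟨⟨t, q.1⟩, (q.2, x (Sum.inl (φ q.2.1.1 q.2.1.2)), x (Sum.inr q.2.1.1)),
      ?_, rfl, rfl⟩
    show _ ∈ c t
    rw [hct]
    exact mem_hx.2 ⟨rfl, rfl⟩

theorem game_no (hφ : ∀ w i j, w ∉ B → φ w i = φ w j → i = j) (δ : ℝ) (hδ : 0 < δ) (K : ℕ)
    (hR : Fintype.card (EE D B × Fin m × Fin m) < R)
    (hK : (K : ℝ) ≤ δ * (Fintype.card (EE D B) : ℝ))
    (hs : ∀ (x : Fin n → ZMod p × Fin d) (y : Fin n → ZMod p),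
      (univ.filter fun e : Fin n × Fin D => e.1 ∉ B ∧
        (x e.1).1 - ((e.2 : ℕ) : ZMod p) * (((x e.1).2 : ℕ) : ZMod p) + s e.1 e.2
          = y (φ e.1 e.2)).card < K)
    (c : Fin b → Finset (EE D B × Fin m × Fin m)) (t : Fin b) (x : Fin n ⊕ Fin n → Fin m)
    (hct : c t = hx (gameGraph (d := d) φ B s) x) (hlater : ∀ l, t < l → c l = ∅) :
    DNo δ (gameB φ B s ι d c) := by
  intro A C
  set I := gameB φ B s ι d c with hI
  have hE := card_adj_ge (ι := ι) hφ c t x hct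
  rw [← hI] at hE
  -- the labels of the copies of the block `t`
  let xx : Fin (R ^ (t : ℕ)) → Fin n → ZMod p × Fin d := fun k w =>
    (eW p d).symm (C (ι (some (⟨t, k⟩, (w, x (Sum.inr w))))))
  let yy : Fin (R ^ (t : ℕ)) → Fin n → ZMod p := fun k v =>
    (eV p).symm (A (ι (some (⟨t, k⟩, (v, x (Sum.inl v))))))
  -- the satisfied host constraints of the copy `k`
  let F : Fin (R ^ (t : ℕ)) → Finset (Fin n × Fin D) := fun k =>
    univ.filter fun e : Fin n × Fin D => e.1 ∉ B ∧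
        (xx k e.1).1 - ((e.2 : ℕ) : ZMod p) * (((xx k e.1).2 : ℕ) : ZMod p) + s e.1 e.2
          = yy k (φ e.1 e.2)
  have hF : ∀ k, (F k).card + 1 ≤ K := fun k => hs (xx k) (yy k)
  let g1 : Cp b R × (EE D B × Fin m × Fin m) → Fin N × Fin N := fun q =>
    (ι (some (q.1, (φ q.2.1.1.1 q.2.1.1.2, q.2.2.1))), ι (some (q.1, (q.2.1.1.1, q.2.2.2))))
  let g2 : Fin (R ^ (t : ℕ)) → Fin n × Fin D → Fin N × Fin N := fun k e =>
    (ι (some (⟨t, k⟩, (φ e.1 e.2, x (Sum.inl (φ e.1 e.2))))),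
      ι (some (⟨t, k⟩, (e.1, x (Sum.inr e.1)))))
  have hS : (univ.filter fun e : Fin N × Fin N => I.adj e.1 e.2 ∧
      I.map e.1 e.2 (C e.2) = A e.1) ⊆ insert (ι none, ι none)
      ((((univ.filter fun κ : Cp b R => κ.1 < t) ×ˢ univ).image g1) ∪
        univ.biUnion fun k => (F k).image (g2 k)) := by
    rintro ⟨v, w⟩ hvw
    simp only [mem_filter, mem_univ, true_and] at hvw
    obtain ⟨hadj, hmap⟩ := hvw
    rw [mem_insert]
    rcases hadj with ⟨rfl, rfl⟩ | ⟨κ, a, ha, hE'⟩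
    · exact Or.inl rfl
    · right
      have hv : v = ι (some (κ, (φ a.1.1.1 a.1.1.2, a.2.1))) := hE'.1
      have hw : w = ι (some (κ, (a.1.1.1, a.2.2))) := hE'.2
      rw [mem_union]
      rcases lt_trichotomy κ.1 t with hlt | heq | hgt
      · left
        rw [mem_image]
        refine ⟨(κ, a), ?_, ?_⟩
        · rw [mem_product]
          exact ⟨mem_filter.2 ⟨mem_univ _, hlt⟩, mem_univ _⟩
        · rw [hv, hw]
      · right
        obtain ⟨l, k⟩ := κ
        subst heq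
        rw [mem_biUnion]
        refine ⟨k, mem_univ _, ?_⟩
        rw [mem_image]
        have ha' : a ∈ hx (gameGraph (d := d) φ B s) x := by
          rw [← hct]
          exact ha
        have h := mem_hx.1 ha'
        have e1 : a.2.1 = x (Sum.inl (φ a.1.1.1 a.1.1.2)) := h.1
        have e2 : a.2.2 = x (Sum.inr a.1.1.1) := h.2
        refine ⟨a.1.1, ?_, ?_⟩
        · rw [mem_filter]
          refine ⟨mem_univ _, a.1.2, ?_⟩
          have hm : I.map v w = cmap p d ((a.1.1.2 : ℕ) : ZMod p) (s a.1.1.1 a.1.1.2) :=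
            bmap_of hφ hE'
          rw [hm] at hmap
          show (xx k a.1.1.1).1 - _ * _ + _ = (eV p).symm (A (ι (some (⟨_, k⟩,
            (φ a.1.1.1 a.1.1.2, x (Sum.inl (φ a.1.1.1 a.1.1.2)))))))
          rw [← e1, ← hv, ← hmap]
          unfold cmap
          rw [Equiv.symm_apply_apply, hw, e2]
        · show (ι (some (⟨_, k⟩, (φ a.1.1.1 a.1.1.2, x (Sum.inl (φ a.1.1.1 a.1.1.2))))),
            ι (some (⟨_, k⟩, (a.1.1.1, x (Sum.inr a.1.1.1))))) = (v, w)
          rw [← e1, ← e2, ← hv, ← hw]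
      · rw [hlater _ hgt] at ha
        exact absurd ha (notMem_empty _)
  have hR1 : 1 ≤ R := by omega
  have hcard : (univ.filter fun e : Fin N × Fin N => I.adj e.1 e.2 ∧
      I.map e.1 e.2 (C e.2) = A e.1).card ≤ R ^ (t : ℕ) * K := by
    have h1 : (((univ.filter fun κ : Cp b R => κ.1 < t) ×ˢ
        (univ : Finset (EE D B × Fin m × Fin m))).image g1).card + 1 ≤ R ^ (t : ℕ) := by
      have h2 : (((univ.filter fun κ : Cp b R => κ.1 < t) ×ˢ
          (univ : Finset (EE D B × Fin m × Fin m))).image g1).card ≤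
          (univ.filter fun κ : Cp b R => κ.1 < t).card * (R - 1) := by
        refine card_image_le.trans ?_
        rw [card_product, card_univ]
        exact Nat.mul_le_mul_left _ (by omega)
      have h3 := card_below hR1 t
      omega
    have h4 : (univ.biUnion fun k => (F k).image (g2 k)).card + R ^ (t : ℕ) ≤
        R ^ (t : ℕ) * K := by
      have h5 : (univ.biUnion fun k => (F k).image (g2 k)).card ≤ ∑ k, (F k).card :=
        card_biUnion_le.trans (sum_le_sum fun k _ => card_image_le)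
      have h6 : ∑ k, ((F k).card + 1) ≤ R ^ (t : ℕ) * K := by
        refine (sum_le_sum fun k _ => hF k).trans ?_
        rw [sum_const, card_univ, Fintype.card_fin, smul_eq_mul]
      rw [sum_add_distrib, sum_const, card_univ, Fintype.card_fin, smul_eq_mul, mul_one] at h6
      omega
    have h7 := (card_le_card hS).trans ((card_insert_le _ _).trans
      (Nat.add_le_add_right (card_union_le _ _) 1))
    omega
  have hRt : (1 : ℝ) ≤ (R : ℝ) ^ (t : ℕ) := one_le_pow₀ (by exact_mod_cast hR1)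
  have hcard' : ((univ.filter fun e : Fin N × Fin N => I.adj e.1 e.2 ∧
      I.map e.1 e.2 (C e.2) = A e.1).card : ℝ) ≤ (R : ℝ) ^ (t : ℕ) * K := by
    exact_mod_cast hcard
  have hE2 : (R : ℝ) ^ (t : ℕ) * (Fintype.card (EE D B) : ℝ) + 1 ≤
      ((univ.filter fun e : Fin N × Fin N => I.adj e.1 e.2).card : ℝ) := by
    exact_mod_cast hE
  calc ((univ.filter fun e : Fin N × Fin N => I.adj e.1 e.2 ∧
      I.map e.1 e.2 (C e.2) = A e.1).card : ℝ) ≤ (R : ℝ) ^ (t : ℕ) * K := hcard'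
    _ ≤ (R : ℝ) ^ (t : ℕ) * (δ * (Fintype.card (EE D B) : ℝ)) :=
        mul_le_mul_of_nonneg_left hK (by linarith)
    _ < δ * ((R : ℝ) ^ (t : ℕ) * (Fintype.card (EE D B) : ℝ) + 1) := by nlinarith
    _ ≤ δ * ((univ.filter fun e : Fin N × Fin N => I.adj e.1 e.2).card : ℝ) :=
        mul_le_mul_of_nonneg_left hE2 hδ.le

end game

end Pool.Agent.L0h35.Gn
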