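import Pool.Agent.L0h35.GnUnq

/-!
# Games whose blocks have labels without conflicts have value one
-/

set_option autoImplicit false

open scoped Classical
open Finset

namespace Pool.Agent.L0h35.Gn

open H630VC (Prog marked)
open H589DT
open Pool.Agent.L0h35.Ng

variable {n D p d m N b R : ℕ} [NeZero p] {φ : Fin n → Fin D → Fin n} {B : Finset (Fin n)}
  {s : Fin n → Fin D → ZMod p} {ι : Option (Cp b R × (Fin n × Fin m)) ↪ Fin N}

theorem game_yes [NeZero d] (hφ : ∀ w i j, w ∉ B → φ w i = φ w j → i = j)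
    (c : Fin b → Finset (EE D B × Fin m × Fin m))
    (T : Fin b → Finset (((Fin n ⊕ Fin n) × Fin m) × (ZMod p × Fin d)))
    (hT0 : ∀ t, NoConflict (T t)) (hc : ∀ t, c t ⊆ hT (gameGraph φ B s) (T t)) :
    DYes (gameB φ B s ι d c) := by
  refine ⟨⟨ι none, ι none, Or.inl ⟨rfl, rfl⟩⟩, ?_⟩
  -- the labels
  let gV : Option (Cp b R × (Fin n × Fin m)) → Fin p := fun o => match o with
    | none => eV p 0
    | some q => eV p (labOf (T q.1.1) 0 (Sum.inl q.2.1, q.2.2)).1
  let gW : Option (Cp b R × (Fin n × Fin m)) → Fin (d * p) := fun o => match o with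
    | none => eW p d 0
    | some q => eW p d (labOf (T q.1.1) 0 (Sum.inr q.2.1, q.2.2))
  refine ⟨Function.extend ι gV fun _ => eV p 0, Function.extend ι gW fun _ => eW p d 0, ?_⟩
  rintro v w (⟨rfl, rfl⟩ | ⟨κ, a, ha, hav, haw⟩)
  · rw [ι.injective.extend_apply, ι.injective.extend_apply]
    show bmap φ B s ι d (ι none) (ι none) (eW p d 0) = eV p 0
    unfold bmap
    rw [dif_neg (by rintro ⟨a, κ, h⟩; exact not_isE_none h)]
    simp [cmap]
  · have hm : (gameB φ B s ι d c).map v w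
        = cmap p d ((a.1.1.2 : ℕ) : ZMod p) (s a.1.1.1 a.1.1.2) :=
      bmap_of hφ ⟨hav, haw⟩
    rw [cop_some] at hav haw
    rw [hm, hav, haw, ι.injective.extend_apply, ι.injective.extend_apply]
    obtain ⟨σ, τ, h1, h2, h3⟩ := mem_hT.1 (hc κ.1 ha)
    have e1 : labOf (T κ.1) 0 (Sum.inl (φ a.1.1.1 a.1.1.2), a.2.1) = σ := labOf_eq (hT0 κ.1) h1
    have e2 : labOf (T κ.1) 0 (Sum.inr a.1.1.1, a.2.2) = τ := labOf_eq (hT0 κ.1) h2
    show cmap p d _ _ (eW p d (labOf (T κ.1) 0 (Sum.inr a.1.1.1, a.2.2)))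
      = eV p (labOf (T κ.1) 0 (Sum.inl (φ a.1.1.1 a.1.1.2), a.2.1)).1
    rw [e1, e2]
    unfold cmap
    rw [Equiv.symm_apply_apply]
    congr 1

end Pool.Agent.L0h35.Gn
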