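import Pool.Agent.L0h35.GnGen
import Pool.Agent.L0h35.GnHst
import Pool.Agent.L0h35.GnYes
import Pool.Agent.L0h35.GnNo

/-!
# Module COR of the project GN: the choice of the parameters
-/

set_option autoImplicit false

open scoped Classical
open Finset

namespace Pool.Agent.L0h35.Gn

open H630VC (Prog marked)
open H589DT
open Pool.Agent.L0h35.Ng

/-- the fourth numerical condition -/
theorem num5 {L b nn a M q : ℕ} (hL : 1 ≤ L) (hL1 : 256 * q + 1 ≤ L) (hnn : nn = L ^ 3)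
    (ha : a = 128 * L ^ 10) (hM : M = L ^ 2) (hL0 : 16 * L ^ 28 ≤ 2 ^ L) (hb : b ≤ 2 ^ L) :
    (b : ℝ) * ((2 ^ L : ℕ) * (1 / 8 ^ L +
      2 * ((2 * nn * a * q + 1 : ℕ) : ℝ) ^ (2 * L) / 2 ^ M)) ≤ 1 := by
  have h2 : 2 * nn * a * q + 1 ≤ L ^ 14 := by
    have e1 : 2 * nn * a * q = 256 * q * L ^ 13 := by rw [hnn, ha]; ring
    have e2 : 1 ≤ L ^ 13 := Nat.one_le_pow _ _ hL
    calc 2 * nn * a * q + 1 = 256 * q * L ^ 13 + 1 := by rw [e1]
      _ ≤ 256 * q * L ^ 13 + L ^ 13 := by omega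
      _ = (256 * q + 1) * L ^ 13 := by ring
      _ ≤ L * L ^ 13 := Nat.mul_le_mul_right _ hL1
      _ = L ^ 14 := by ring
  -- natural number inequality
  have h3 : 4 ^ L * (2 * (2 * nn * a * q + 1) ^ (2 * L)) * 2 ≤ 2 ^ M := by
    have e8 : (4 : ℕ) ≤ 4 ^ L := Nat.le_self_pow (by omega) 4
    calc 4 ^ L * (2 * (2 * nn * a * q + 1) ^ (2 * L)) * 2
        = 4 ^ L * (2 * nn * a * q + 1) ^ (2 * L) * 4 := by ring
      _ ≤ 4 ^ L * (L ^ 14) ^ (2 * L) * 4 ^ L :=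
          Nat.mul_le_mul (Nat.mul_le_mul_left _ (Nat.pow_le_pow_left h2 _)) e8
      _ = (16 * L ^ 28) ^ L := by
          have a1 : (16 : ℕ) ^ L = 4 ^ L * 4 ^ L := by rw [← mul_pow]; norm_num
          have a2 : (L ^ 14) ^ (2 * L) = (L ^ 28) ^ L := by rw [← pow_mul, ← pow_mul]; ring_nf
          rw [mul_pow, a1, a2]
          ring
      _ ≤ (2 ^ L) ^ L := Nat.pow_le_pow_left hL0 L
      _ = 2 ^ M := by rw [hM, ← pow_mul, pow_two]
  set W : ℝ := ((2 * nn * a * q + 1 : ℕ) : ℝ) ^ (2 * L) with hW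
  have h3' : (4 : ℝ) ^ L * (2 * W) * 2 ≤ 2 ^ M := by
    rw [hW]
    exact_mod_cast h3
  have hW0 : 0 ≤ W := by positivity
  have hb' : (b : ℝ) ≤ 2 ^ L := by exact_mod_cast hb
  have h4 : (b : ℝ) * ((2 ^ L : ℕ) * (1 / 8 ^ L + 2 * W / 2 ^ M)) ≤
      2 ^ L * (2 ^ L * (1 / 8 ^ L + 2 * W / 2 ^ M)) := by
    push_cast
    exact mul_le_mul_of_nonneg_right hb' (by positivity)
  refine h4.trans ?_
  have h5 : (2 : ℝ) ^ L * (2 ^ L * (1 / 8 ^ L + 2 * W / 2 ^ M)) =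
      4 ^ L / 8 ^ L + 4 ^ L * (2 * W) / 2 ^ M := by
    have : (4 : ℝ) ^ L = 2 ^ L * 2 ^ L := by rw [← mul_pow]; norm_num
    rw [this]
    ring
  rw [h5]
  have h6 : (4 : ℝ) ^ L / 8 ^ L ≤ 1 / 2 := by
    rw [← div_pow]
    have e1 : (4 / 8 : ℝ) = 1 / 2 := by norm_num
    rw [e1]
    calc (1 / 2 : ℝ) ^ L ≤ (1 / 2) ^ 1 := pow_le_pow_of_le_one (by norm_num) (by norm_num) hL
      _ = 1 / 2 := pow_one _
  have h7 : (4 : ℝ) ^ L * (2 * W) / 2 ^ M ≤ 1 / 2 := by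
    rw [div_le_iff₀ (by positivity)]
    linarith
  linarith

/-- the number of vertices of all copies -/
theorem card_copies {L b R n m : ℕ} (hL : 200 ≤ L) (hR : R ≤ L ^ 24) (hn : n = L ^ 3)
    (hm : m = 128 * L ^ 10) :
    Fintype.card (Option (Cp b R × (Fin n × Fin m))) ≤ L ^ (24 * b + 15) := by
  rw [Fintype.card_option, Fintype.card_prod, Fintype.card_prod, Fintype.card_fin,
    Fintype.card_fin, Fintype.card_sigma]
  have e1 : (∑ t : Fin b, Fintype.card (Fin (R ^ (t : ℕ)))) ≤ L ^ (24 * b) := by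
    have e2 : (∑ t : Fin b, Fintype.card (Fin (R ^ (t : ℕ)))) =
        ∑ t ∈ range b, R ^ t := by
      rw [← Fin.sum_univ_eq_sum_range (fun t => R ^ t) b]
      exact Finset.sum_congr rfl fun t _ => Fintype.card_fin _
    rw [e2]
    have h24 : 2 ≤ L ^ 24 := (by omega : 2 ≤ L).trans (Nat.le_self_pow (by norm_num) L)
    calc ∑ t ∈ range b, R ^ t ≤ ∑ t ∈ range b, (L ^ 24) ^ t :=
          sum_le_sum fun t _ => Nat.pow_le_pow_left hR t
      _ ≤ (L ^ 24) ^ b := (Nat.geomSum_lt h24 fun k hk => mem_range.1 hk).le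
      _ = L ^ (24 * b) := by rw [← pow_mul]
  have e3 : n * m + 1 ≤ L ^ 15 := by
    have e4 : 1 ≤ L ^ 13 := Nat.one_le_pow _ _ (by omega)
    calc n * m + 1 = 128 * L ^ 13 + 1 := by rw [hn, hm]; ring
      _ ≤ 129 * L ^ 13 := by omega
      _ ≤ L ^ 2 * L ^ 13 := Nat.mul_le_mul_right _
          ((by omega : 129 ≤ L).trans (Nat.le_self_pow (by norm_num) L))
      _ = L ^ 15 := by ring
  have e5 : 1 ≤ L ^ (24 * b) := Nat.one_le_pow _ _ (by omega)
  calc (∑ t : Fin b, Fintype.card (Fin (R ^ (t : ℕ)))) * (n * m) + 1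
      ≤ L ^ (24 * b) * (n * m) + L ^ (24 * b) :=
        Nat.add_le_add (Nat.mul_le_mul_right _ e1) e5
    _ = L ^ (24 * b) * (n * m + 1) := by ring
    _ ≤ L ^ (24 * b) * L ^ 15 := Nat.mul_le_mul_left _ e3
    _ = L ^ (24 * b + 15) := by rw [← pow_add]

/-- **The core.** -/
theorem core_gap (δ : ℝ) (hδ : 0 < δ) : ∃ p L1 : ℕ, 1 ≤ p ∧ ∀ L : ℕ, L1 ≤ L →
    ∀ N b r K : ℕ, L ^ (24 * b + 15) ≤ N → b ≤ 2 ^ L →
    ∀ (nb : ℕ) (e : Fin nb ≃ Fin N × Fin N × (Fin (2 * p) → Fin (2 * p)))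
    (Ω : Type) [Fintype Ω] [Nonempty Ω] (h : Ω → (Fin K → Bool) → Bool)
    (C : Ω → Fin K → Circuit nb), (∀ o i, (C o i).nots ≤ r) →
    (∀ o i, (C o i).size + nb + 2 ≤ 2 ^ L ∨ 2 ^ ((C o i).depth + 1) ≤ 2 ^ L) → ∀ ε : ℝ,
    (∀ I : TGame (Fin N) (Fin N) (2 * p),
      (TNo δ I → (1 / 2 + ε) * Fintype.card Ω ≤
        (univ.filter fun o => h o (fun i => (C o i).value (code e I)) = true).card) ∧
      (TYes I → (1 / 2 + ε) * Fintype.card Ω ≤
        (univ.filter fun o => h o (fun i => (C o i).value (code e I)) = false).card)) →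
    b * ε ≤ K * 2 ^ (r + 1) := by
  obtain ⟨p, D, hp, hkp, hDp, hD⟩ := choice_p 2 (Nat.ceil (8 / δ)) le_rfl
  set k := Nat.ceil (8 / δ) with hk
  have hp1 : 1 ≤ p := hp.one_lt.le
  have : NeZero p := ⟨hp.pos.ne'⟩
  set g := 2 * (2 * p) + 4 with hg
  set h' := 3 * g with hh
  have hD1 : 1 ≤ D := by
    by_contra h0
    have : D = 0 := by omega
    rw [this, pow_zero] at hD
    have : 1 ≤ 2 * p ^ 2 := Nat.mul_pos (by omega) (pow_pos hp.pos 2)
    omega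
  obtain ⟨n0, hn0⟩ := t_EX D (2 * h') g (by omega)
  obtain ⟨L0, hL0⟩ := pow_le_two_pow
  refine ⟨p, n0 + L0 + 64 * (h' + 1) ^ 2 + 2048 * (2 * p) ^ 2 + 16384 * D + 256 * (2 * p) +
    Nat.ceil (4 / δ) + 200, hp1, ?_⟩
  intro L hL N b r K hN hbL nb e Ω _ _ h C hr hC ε hI
  have hL2 : 2 ≤ L := by omega
  -- the graph
  obtain ⟨n, hn⟩ : ∃ n, n = L ^ 3 := ⟨_, rfl⟩
  obtain ⟨M, hM⟩ : ∃ M, M = L ^ 2 := ⟨_, rfl⟩
  obtain ⟨Q, hQ⟩ : ∃ Q, Q = L ^ 9 := ⟨_, rfl⟩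
  obtain ⟨m, hm⟩ : ∃ m, m = 128 * L ^ 10 := ⟨_, rfl⟩
  have hLn : L ≤ n := by
    rw [hn]
    calc L = L ^ 1 := (pow_one L).symm
      _ ≤ L ^ 3 := Nat.pow_le_pow_right (by omega) (by norm_num)
  obtain ⟨φ, B, hB, hsp, hgi⟩ := hn0 n (by omega)
  have hφ := phi_inj (fun S hS hS2 => hgi S hS (hS2.trans (by omega)))
  -- the number of edges and `K0`
  have hEE := card_EE (D := D) B
  have hE2 : n * D ≤ 2 * Fintype.card (EE D B) := by
    rw [hEE]
    calc n * D ≤ (2 * (n - B.card)) * D := Nat.mul_le_mul_right _ (by omega)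
      _ = _ := by ring
  have hE1 : Fintype.card (EE D B) ≤ n * D := by
    rw [hEE]
    exact Nat.mul_le_mul_right _ (Nat.sub_le _ _)
  set EC := Fintype.card (EE D B) with hEC
  set K0 := Nat.ceil (δ * EC / 2) with hK0
  have hECr : (2 : ℝ) / δ ≤ EC := by
    have h1 : (4 / δ : ℝ) ≤ L := (Nat.le_ceil _).trans (Nat.cast_le.2 (by omega))
    have h2 : n ≤ 2 * EC := (Nat.le_mul_of_pos_right n hD1).trans hE2
    have h3 : (L : ℝ) ≤ 2 * EC := by exact_mod_cast hLn.trans h2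
    have h4 : (4 / δ : ℝ) = 2 * (2 / δ) := by ring
    linarith
  have hKle : (K0 : ℝ) ≤ δ * (EC : ℝ) := by
    have h1 : (K0 : ℝ) < δ * EC / 2 + 1 := Nat.ceil_lt_add_one (by positivity)
    have h2 : 2 ≤ EC * δ := (div_le_iff₀ hδ).1 hECr
    nlinarith
  have hpK : (2 * p ^ 2) ^ n * 2 ^ (D * n) < p ^ K0 := by
    have h1 : 2 * (D * n) ≤ k * K0 := by
      have h2 : (8 / δ : ℝ) ≤ k := Nat.le_ceil _
      have h3 : δ * EC / 2 ≤ (K0 : ℝ) := Nat.le_ceil _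
      have h4 : (4 * EC : ℝ) ≤ k * K0 := by
        calc (4 * EC : ℝ) = (8 / δ) * (δ * EC / 2) := by field_simp; ring
          _ ≤ k * K0 := mul_le_mul h2 h3 (by positivity) (by positivity)
      have h5 : (4 * EC : ℕ) ≤ k * K0 := by exact_mod_cast h4
      calc 2 * (D * n) = 2 * (n * D) := by ring
        _ ≤ 2 * (2 * EC) := Nat.mul_le_mul_left _ hE2
        _ = 4 * EC := by ring
        _ ≤ _ := h5
    have hn1 : n ≠ 0 := by omega
    calc (2 * p ^ 2) ^ n * 2 ^ (D * n) < (2 ^ D) ^ n * 2 ^ (D * n) := by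
          apply Nat.mul_lt_mul_of_pos_right _ (by positivity)
          exact Nat.pow_lt_pow_left hD hn1
      _ = 2 ^ (2 * (D * n)) := by rw [← pow_mul, two_mul, pow_add]
      _ ≤ 2 ^ (k * K0) := Nat.pow_le_pow_right (by norm_num) h1
      _ = (2 ^ k) ^ K0 := by rw [pow_mul]
      _ ≤ p ^ K0 := Nat.pow_le_pow_left hkp K0
  obtain ⟨s, hs⟩ := t_SH n D p 2 K0 hp1 φ B hpK
  -- local consistency
  set G := gameGraph (d := 2) φ B s with hG
  have hGgirth : G.Girth g := fun S hS hSr => lt_of_le_of_lt (ein_le φ B s S) (hgi S hS hSr)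
  have hGsparse : G.Sparse (2 * h') (8 * (h' + 1) * L) := by
    intro S hS
    refine (ein_le φ B s S).trans (hsp S ?_)
    calc S.card ^ 2 ≤ (8 * (h' + 1) * L) ^ 2 := Nat.pow_le_pow_left hS 2
      _ = (64 * (h' + 1) ^ 2) * L ^ 2 := by ring
      _ ≤ L * L ^ 2 := Nat.mul_le_mul_right _ (by omega)
      _ = n := by rw [hn]; ring
  obtain ⟨F, hF⟩ := lo_all _ _ _ G g h' (8 * (h' + 1) * L) (2 * L) (by omega) le_rfl
    (gameGraph_surj (by omega) φ B s) (t_MX n D p 2 hp hDp le_rfl φ B s) hGgirth hGsparse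
    (by ring_nf; exact le_rfl)
  -- the copies
  have hLpos : 0 < L := by omega
  have hmpos : 0 < m := by rw [hm]; exact Nat.mul_pos (by norm_num) (by positivity)
  have : NeZero m := ⟨hmpos.ne'⟩
  obtain ⟨R, hR⟩ : ∃ R, R = EC * (m * m) + 1 := ⟨_, rfl⟩
  have hRL : R ≤ L ^ 24 := by
    have e4 : 1 ≤ L ^ 23 := Nat.one_le_pow _ _ (by omega)
    calc R ≤ (n * D) * (m * m) + 1 := by
          rw [hR]
          exact Nat.add_le_add_right (Nat.mul_le_mul_right _ hE1) 1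
      _ = 16384 * D * L ^ 23 + 1 := by rw [hn, hm]; ring
      _ ≤ 16384 * D * L ^ 23 + L ^ 23 := by omega
      _ = (16384 * D + 1) * L ^ 23 := by ring
      _ ≤ L * L ^ 23 := Nat.mul_le_mul_right _ (by omega)
      _ = L ^ 24 := by ring
  have hcardE : Fintype.card (EE D B × Fin m × Fin m) < R := by
    rw [Fintype.card_prod, Fintype.card_prod, Fintype.card_fin, hR]
    exact Nat.lt_succ_self _
  have hcardV : Fintype.card (Option (Cp b R × (Fin n × Fin m))) ≤ Fintype.card (Fin N) := by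
    rw [Fintype.card_fin N]
    exact (card_copies (by omega) hRL hn hm).trans hN
  obtain ⟨ι⟩ := Function.Embedding.nonempty_of_card_le hcardV
  -- parameters of the approximation
  have hcardΛ : Fintype.card (ZMod p × Fin 2) = 2 * p := by
    rw [Fintype.card_prod, ZMod.card, Fintype.card_fin, mul_comm]
  have hcardU : Fintype.card (Fin n ⊕ Fin n) = 2 * n := by
    rw [Fintype.card_sum, Fintype.card_fin]; ring
  have hQ1 : 1 ≤ Q := by rw [hQ]; exact Nat.one_le_pow _ _ (by omega)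
  have hM1 : 1 ≤ M := by rw [hM]; exact Nat.one_le_pow _ _ (by omega)
  refine gen_gap (n := nb) (b := b) (L := L) (M := M) (Q := Q) (S := 2 ^ L) G F hF (by omega)
    hM1 hQ1 ?_ ?_ ?_ (fun c => code e (toT (gameB φ B s ι 2 c))) ?_ ?_ ?_ h C hr hC ε ?_ ?_
  · rw [Fintype.card_fin]
    calc 8 * ((8 * L + 1) * Q) ≤ 8 * ((16 * L) * Q) :=
          Nat.mul_le_mul_left _ (Nat.mul_le_mul_right _ (by omega))
      _ = m := by rw [hQ, hm]; ring
  · rw [hcardU, Fintype.card_fin, hcardΛ]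
    calc 8 * (2 * n * m * (2 * p) ^ 2 * M ^ 2) = (2048 * (2 * p) ^ 2) * L ^ 17 := by
          rw [hn, hm, hM]; ring
      _ ≤ L * L ^ 17 := Nat.mul_le_mul_right _ (by omega)
      _ = Q ^ 2 := by rw [hQ]; ring
  · rw [hcardΛ]
    calc 8 * (2 * L * (2 * p) * M) = (16 * (2 * p)) * L ^ 3 := by rw [hM]; ring
      _ ≤ L ^ 6 * L ^ 3 := Nat.mul_le_mul_right _ ((by omega : 16 * (2 * p) ≤ L).trans
          (Nat.le_self_pow (by norm_num) L))
      _ = Q := by rw [hQ]; ring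
  · intro c c' hc i hi
    exact game_mono e c c' hc i hi
  · intro Y negC t ht w
    exact game_host hφ e negC ht w
  · rw [hcardU, Fintype.card_fin, hcardΛ]
    exact num5 (by omega) (by omega) hn hm hM (hL0 L (by omega)) hbL
  · intro c t x hct hlater
    exact (hI _).1 (toT_no hp1 δ _ (game_no hφ δ hδ K0 hcardE hKle hs c t x hct hlater))
  · intro c T hT0 hc
    exact (hI _).2 (toT_yes _ (game_yes hφ c T hT0 hc))

end Pool.Agent.L0h35.Gn
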