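import Pool.Agent.L0h35.NhGen
import Pool.Agent.H589R3.DT.Two

/-!
# Gap 2-to-1 games and circuits with few NOT gates: definitions

The bits of a game, and games which consist of many copies of host games: for `t < b` there are
`R ^ t` copies with the constraints `c t`.
-/

set_option autoImplicit false

open scoped Classical
open Finset

namespace Pool.Agent.L0h35.Gn

open H630VC (Prog marked)
open H589DT
open Pool.Agent.L0h35.Ng

/-- the input bits of a game: for vertices `u`, `v` and a map `π` of labels the bit which tells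
that `u v` is an edge with the constraint `π`; the bits are numbered by `e` -/
noncomputable def code {nb N q : ℕ} (e : Fin nb ≃ Fin N × Fin N × (Fin q → Fin q))
    (I : TGame (Fin N) (Fin N) q) (i : Fin nb) : Bool :=
  decide (I.adj (e i).1 (e i).2.1 ∧ I.map (e i).1 (e i).2.1 = (e i).2.2)

/-- the copies: `R ^ t` copies of the block `t` -/
abbrev Cp (b R : ℕ) : Type := (t : Fin b) × Fin (R ^ (t : ℕ))

variable {n D p d m N b R : ℕ}

/-- the vertices of the copy `κ` -/
def cop (ι : Option (Cp b R × (Fin n × Fin m)) ↪ Fin N) (κ : Cp b R) :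
    Option (Fin n × Fin m) ↪ Fin N :=
  ⟨fun o => ι (o.map fun q => (κ, q)), fun o o' h => by
    have h1 := ι.injective h
    cases o <;> cases o' <;> simp_all⟩

/-- the host constraint `c` in the copy `κ` joins `v` and `w` -/
def isE (φ : Fin n → Fin D → Fin n) (B : Finset (Fin n))
    (ι : Option (Cp b R × (Fin n × Fin m)) ↪ Fin N) (κ : Cp b R) (c : EE D B × Fin m × Fin m)
    (v w : Fin N) : Prop :=
  isEdge φ B (cop ι κ) (cop ι κ) c v w

variable [NeZero p]

/-- the constraint maps -/
noncomputable def bmap (φ : Fin n → Fin D → Fin n) (B : Finset (Fin n))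
    (s : Fin n → Fin D → ZMod p) (ι : Option (Cp b R × (Fin n × Fin m)) ↪ Fin N) (d : ℕ)
    (v w : Fin N) : Fin (d * p) → Fin p :=
  if h : ∃ c : EE D B × Fin m × Fin m, ∃ κ, isE φ B ι κ c v w then
    cmap p d ((h.choose.1.1.2 : ℕ) : ZMod p) (s h.choose.1.1.1 h.choose.1.1.2)
  else cmap p d 0 0

/-- the game with `R ^ t` copies of the host constraints `c t`, for `t < b`, and one more edge -/
noncomputable def gameB (φ : Fin n → Fin D → Fin n) (B : Finset (Fin n))
    (s : Fin n → Fin D → ZMod p) (ι : Option (Cp b R × (Fin n × Fin m)) ↪ Fin N) (d : ℕ)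
    (c : Fin b → Finset (EE D B × Fin m × Fin m)) : DGame (Fin N) (Fin N) d p where
  adj v w := (v = ι none ∧ w = ι none) ∨ ∃ κ : Cp b R, ∃ a ∈ c κ.1, isE φ B ι κ a v w
  map v w := bmap φ B s ι d v w
  fib v w _ a := by
    unfold bmap
    split_ifs
    · exact cmap_fib _ _ _
    · exact cmap_fib _ _ _

end Pool.Agent.L0h35.Gn
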