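import Pool.Agent.L0h35.GnCor

/-!
# Gap 2-to-1 games and circuits with few NOT gates: the final estimates

The module FIN of the project GN of helper35 (MP_ec946a_lc): `final_gap` from `core_gap`.
-/

set_option autoImplicit false

open scoped Classical
open Finset

namespace Pool.Agent.L0h35.Gn

open H630VC (Prog marked)
open H589DT
open Pool.Agent.L0h35.Ng

/-- FIN: write `X = K * 2 ^ (r + 1) / ε ≥ 4`, `y = N ^ (1 / (70 * X)) ≥ log₂ N` (by the
hypothesis `hr`), `b = ⌊X⌋ + 1`, `L = ⌊y ^ 2⌋`; then `L ^ (24 b + 15) ≤ y ^ (70 X) = N`,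
`nb = N ^ 2 * (2 p) ^ (2 p) ≤ N ^ 3`, `2 ^ y + N ^ 3 + 2 ≤ 2 ^ L`, `b ≤ log₂ N ≤ 2 ^ L`, and
`b * ε > K * 2 ^ (r + 1)`. -/
theorem final_gap (δ : ℝ) (hδ : 0 < δ) : ∃ q : ℕ, 1 ≤ q ∧ ∃ N0 : ℕ, ∀ N : ℕ, N0 ≤ N →
    ∀ (K r : ℕ) (ε : ℝ), 1 ≤ K → 0 < ε → ε ≤ 1 / 2 →
    140 * (K * 2 ^ r) * Real.logb 2 (Real.logb 2 N) ≤ ε * Real.logb 2 N →
    ∀ (nb : ℕ) (e : Fin nb ≃ Fin N × Fin N × (Fin q → Fin q))
    (Ω : Type) [Fintype Ω] [Nonempty Ω] (h : Ω → (Fin K → Bool) → Bool)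
    (C : Ω → Fin K → Circuit nb), (∀ o i, (C o i).nots ≤ r) →
    (∀ I : TGame (Fin N) (Fin N) q,
      (TNo δ I → (1 / 2 + ε) * Fintype.card Ω ≤
        (univ.filter fun o => h o (fun i => (C o i).value (code e I)) = true).card) ∧
      (TYes I → (1 / 2 + ε) * Fintype.card Ω ≤
        (univ.filter fun o => h o (fun i => (C o i).value (code e I)) = false).card)) →
    ¬ ∀ o i, ((C o i).size : ℝ) < (2 : ℝ) ^ ((N : ℝ) ^ (ε / (140 * (K * 2 ^ r)))) ∨
      ((C o i).depth : ℝ) < (N : ℝ) ^ (ε / (140 * (K * 2 ^ r))) := by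
  obtain ⟨p, L1, hp, hcore⟩ := core_gap δ hδ
  have ht : Filter.Tendsto (fun n : ℕ => Real.logb 2 (n : ℝ)) Filter.atTop Filter.atTop :=
    (Real.tendsto_logb_atTop (by norm_num)).comp tendsto_natCast_atTop_atTop
  obtain ⟨n1, hn1⟩ := Filter.eventually_atTop.1
    (ht.eventually (Filter.eventually_ge_atTop (max (L1 : ℝ) 8)))
  refine ⟨2 * p, by omega, max n1 (max 1 ((2 * p) ^ (2 * p))),
    fun N hN K r ε hK hε hε2 hr nb e Ω _ _ h C hnots hright hall => ?_⟩
  have hn1' := hn1 N ((le_max_left _ _).trans hN)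
  have hNpos : 1 ≤ N := ((le_max_left _ _).trans (le_max_right _ _)).trans hN
  have hNp : (2 * p) ^ (2 * p) ≤ N := ((le_max_right _ _).trans (le_max_right _ _)).trans hN
  have hNr : (0 : ℝ) < N := by exact_mod_cast hNpos
  have hKr : (1 : ℝ) ≤ K := by exact_mod_cast hK
  set l : ℝ := Real.logb 2 N with hl
  have hlL1 : (L1 : ℝ) ≤ l := (le_max_left _ _).trans hn1'
  have hlbig : (8 : ℝ) ≤ l := (le_max_right _ _).trans hn1'
  have hl0 : (0 : ℝ) < l := by linarith
  have hl2 : (2 : ℝ) ^ l = N := Real.rpow_logb (by norm_num) (by norm_num) hNr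
  set P : ℝ := (K : ℝ) * 2 ^ (r + 1) with hP
  have hP1 : 2 ≤ P := by
    have h1 : (1 : ℝ) ≤ 2 ^ r := one_le_pow₀ (by norm_num)
    rw [hP, pow_succ]
    nlinarith
  have hPr : 70 * P = 140 * (K * 2 ^ r) := by
    rw [hP, pow_succ]
    ring
  have hP0 : 0 < P := by linarith
  obtain ⟨X, hX⟩ : ∃ X, X = P / ε := ⟨_, rfl⟩
  have hXε : X * ε = P := by
    rw [hX]
    field_simp
  have hX2 : 4 ≤ X := by
    rw [hX, le_div_iff₀ hε]
    linarith
  have hX0 : 0 < X := by linarith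
  -- `log₂ log₂ N ≤ log₂ N / (70 X)`
  have hll : Real.logb 2 l ≤ l / (70 * X) := by
    rw [le_div_iff₀ (by positivity)]
    have h1 : ε * (Real.logb 2 l * (70 * X)) ≤ ε * l := by
      calc ε * (Real.logb 2 l * (70 * X)) = 70 * (X * ε) * Real.logb 2 l := by ring
        _ = 70 * P * Real.logb 2 l := by rw [hXε]
        _ ≤ ε * l := by
            rw [hPr]
            exact hr
    exact le_of_mul_le_mul_left h1 hε
  have hll3 : 3 ≤ Real.logb 2 l := by
    rw [Real.le_logb_iff_rpow_le (by norm_num) hl0]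
    calc (2 : ℝ) ^ (3 : ℝ) = 2 ^ (3 : ℕ) := by
          rw [← Real.rpow_natCast]
          norm_num
      _ ≤ l := by
          norm_num
          linarith
  have hXl : 70 * X ≤ l := by
    have h1 : 3 ≤ l / (70 * X) := hll3.trans hll
    rw [le_div_iff₀ (by positivity)] at h1
    nlinarith
  have hexp : ε / (140 * (K * 2 ^ r)) = 1 / (70 * X) := by
    rw [← hPr, hX]
    field_simp
  rw [hexp] at hall
  set y : ℝ := (N : ℝ) ^ (1 / (70 * X)) with hy
  have hyl : y = 2 ^ (l / (70 * X)) := by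
    rw [hy, ← hl2, ← Real.rpow_mul (by norm_num)]
    congr 1
    ring
  have hly : l ≤ y := by
    rw [hyl]
    calc l = 2 ^ Real.logb 2 l := (Real.rpow_logb (by norm_num) (by norm_num) hl0).symm
      _ ≤ 2 ^ (l / (70 * X)) := Real.rpow_le_rpow_of_exponent_le (by norm_num) hll
  have hy8 : 8 ≤ y := hlbig.trans hly
  have hy0 : 0 < y := by linarith
  have hyN : y ^ (70 * X) = N := by
    rw [hy, ← Real.rpow_mul hNr.le]
    have h1 : 1 / (70 * X) * (70 * X) = 1 := by field_simp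
    rw [h1, Real.rpow_one]
  -- the number of blocks
  obtain ⟨b, hb⟩ : ∃ b, b = ⌊X⌋₊ + 1 := ⟨_, rfl⟩
  have hbX : X < b := by
    rw [hb]
    push_cast
    exact Nat.lt_floor_add_one _
  have hbX' : (b : ℝ) ≤ X + 1 := by
    have h2 : ((⌊X⌋₊ : ℕ) : ℝ) ≤ X := Nat.floor_le hX0.le
    rw [hb]
    push_cast
    linarith
  -- the parameter `L`
  obtain ⟨L, hL⟩ : ∃ L, L = ⌊y ^ 2⌋₊ := ⟨_, rfl⟩
  have hLy : y ^ 2 - 1 ≤ L := by
    rw [hL]
    linarith [Nat.lt_floor_add_one (y ^ 2)]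
  have hLy' : (L : ℝ) ≤ y ^ 2 := by
    rw [hL]
    exact Nat.floor_le (by positivity)
  have hLy3 : 3 * y + 2 ≤ (L : ℝ) := by nlinarith
  have hL1 : L1 ≤ L := by
    have : (L1 : ℝ) ≤ L := by linarith
    exact_mod_cast this
  have hLpow : L ^ (24 * b + 15) ≤ N := by
    have h1 : (L : ℝ) ^ (24 * b + 15) ≤ N := by
      calc (L : ℝ) ^ (24 * b + 15) ≤ (y ^ 2) ^ (24 * b + 15) :=
            pow_le_pow_left₀ (Nat.cast_nonneg _) hLy' _
        _ = y ^ (2 * (24 * b + 15)) := by rw [← pow_mul]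
        _ = y ^ (((2 * (24 * b + 15) : ℕ)) : ℝ) := (Real.rpow_natCast _ _).symm
        _ ≤ y ^ (70 * X) := by
            refine Real.rpow_le_rpow_of_exponent_le (by linarith) ?_
            push_cast
            linarith
        _ = N := hyN
    exact_mod_cast h1
  have hbL : b ≤ 2 ^ L := by
    have h1 : (b : ℝ) ≤ L := by linarith
    have h2 : b ≤ L := by exact_mod_cast h1
    exact h2.trans Nat.lt_two_pow_self.le
  have hnb : nb = N * (N * (2 * p) ^ (2 * p)) := by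
    have h1 := Fintype.card_congr e
    simpa [Fintype.card_prod, Fintype.card_fin, Fintype.card_fun] using h1
  have hnb3 : nb ≤ N ^ 3 := by
    rw [hnb]
    calc N * (N * (2 * p) ^ (2 * p)) ≤ N * (N * N) :=
          Nat.mul_le_mul_left _ (Nat.mul_le_mul_left _ hNp)
      _ = N ^ 3 := by ring
  have key := hcore L hL1 N b r K hLpow hbL nb e Ω h C hnots ?_ ε hright
  · have h1 : P < b * ε := by
      rw [← hXε]
      exact mul_lt_mul_of_pos_right hbX hε
    exact absurd key (not_le.2 h1)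
  · intro o i
    rcases hall o i with h | h
    · left
      have h0 : (1 : ℝ) ≤ 2 ^ y := Real.one_le_rpow (by norm_num) hy0.le
      have h1 : ((nb : ℕ) : ℝ) ≤ 2 ^ (3 * y) := by
        calc ((nb : ℕ) : ℝ) ≤ (N : ℝ) ^ 3 := by exact_mod_cast hnb3
          _ = (2 ^ l) ^ 3 := by rw [hl2]
          _ = 2 ^ (l * 3) := by
              rw [Real.rpow_mul (by norm_num)]
              norm_num
          _ ≤ 2 ^ (3 * y) := Real.rpow_le_rpow_of_exponent_le (by norm_num) (by linarith)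
      have h2 : (2 : ℝ) ^ y ≤ 2 ^ (3 * y) :=
        Real.rpow_le_rpow_of_exponent_le (by norm_num) (by linarith)
      have h3 : (2 : ℝ) ^ (3 * y + 2) ≤ 2 ^ L := by
        rw [← Real.rpow_natCast]
        exact Real.rpow_le_rpow_of_exponent_le (by norm_num) hLy3
      have h4 : (2 : ℝ) ^ (3 * y + 2) = 4 * 2 ^ (3 * y) := by
        rw [Real.rpow_add (by norm_num)]
        norm_num
        ring
      have h5 : (((C o i).size + nb + 2 : ℕ) : ℝ) ≤ ((2 ^ L : ℕ) : ℝ) := by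
        push_cast
        linarith
      exact_mod_cast h5
    · right
      have h1 : (C o i).depth < ⌈y⌉₊ := Nat.lt_ceil.2 h
      have h2 : ((⌈y⌉₊ : ℕ) : ℝ) ≤ L := by
        have := Nat.ceil_lt_add_one hy0.le
        linarith
      have h3 : ⌈y⌉₊ ≤ L := by exact_mod_cast h2
      exact Nat.pow_le_pow_right (by norm_num) (by omega)

end Pool.Agent.L0h35.Gn
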