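import Pool.Agent.L0h35.NhGen

/-!
# The guesses that matter

The monotone function which belongs to a guess depends on the target and on the guesses for the
outputs of the NOT gates below the target only; so there are at most `2 ^ (r + 1)` functions.
-/

set_option autoImplicit false

open scoped Classical
open Finset

namespace Pool.Agent.L0h35.Ng

namespace Circuit

variable {n : ℕ} (C : Circuit n)

theorem evalc_congr {c c' : Fin C.nodes → Bool} {x : Fin n → Bool} (k : Fin C.nodes)
    (h : ∀ j ≤ k, (∃ i, C.gate j = .not i) → c j = c' j) : C.evalc c x k = C.evalc c' x k := by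
  induction k using WellFoundedLT.induction with
  | _ k ih =>
  cases hg : C.gate k with
  | var i => rw [C.evalc_var hg, C.evalc_var hg]
  | const b => rw [C.evalc_const hg, C.evalc_const hg]
  | not i => rw [C.evalc_not hg, C.evalc_not hg, h k le_rfl ⟨i, hg⟩]
  | and i j =>
    rw [C.evalc_and hg, C.evalc_and hg,
      ih _ (C.up_lt k i) fun l hl => h l (hl.trans (C.up_lt k i).le),
      ih _ (C.up_lt k j) fun l hl => h l (hl.trans (C.up_lt k j).le)]
  | or i j =>
    rw [C.evalc_or hg, C.evalc_or hg,
      ih _ (C.up_lt k i) fun l hl => h l (hl.trans (C.up_lt k i).le),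
      ih _ (C.up_lt k j) fun l hl => h l (hl.trans (C.up_lt k j).le)]

/-- the code of a guess: the guesses below the target, and a mark at the target -/
noncomputable def cd (γ : C.Guess) : Option C.NotGate → Bool := fun s =>
  match γ.1, s with
  | none, none => true
  | none, some k => γ.2 k
  | some _, none => false
  | some t, some k => if k.1 < t.1 then γ.2 k else decide (k = t)

theorem cd_none (c : C.NotGate → Bool) (k : C.NotGate) : C.cd (none, c) (some k) = c k := rfl

theorem cd_some {t k : C.NotGate} (c : C.NotGate → Bool) :
    C.cd (some t, c) (some k) = if k.1 < t.1 then c k else decide (k = t) := rfl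

theorem ext_congr {c c' : C.NotGate → Bool} {j : Fin C.nodes}
    (h : ∀ hj : ∃ i, C.gate j = .not i, c ⟨j, hj⟩ = c' ⟨j, hj⟩) (hj : ∃ i, C.gate j = .not i) :
    C.ext c j = C.ext c' j := by
  unfold ext
  rw [dif_pos hj, dif_pos hj, h hj]

theorem acc_of_cd {γ γ' : C.Guess} (h : C.cd γ = C.cd γ') {x : Fin n → Bool}
    (ha : C.Acc γ x) : C.Acc γ' x := by
  obtain ⟨t, c⟩ := γ
  obtain ⟨t', c'⟩ := γ'
  cases t with
  | none =>
    cases t' with
    | none =>
      refine ⟨ha.1, ?_⟩
      have hc : c = c' := funext fun k => by
        have := congrFun h (some k)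
        rwa [cd_none, cd_none] at this
      rw [← hc]
      exact ha.2
    | some t' => exact absurd (congrFun h none) (by simp [cd])
  | some t =>
    cases t' with
    | none => exact absurd (congrFun h none) (by simp [cd])
    | some t' =>
      have htt : t = t' := by
        by_contra hne
        rcases lt_trichotomy t.1 t'.1 with hlt | heq | hlt
        · have h1 := congrFun h (some t')
          rw [cd_some, cd_some, if_neg (not_lt.2 hlt.le), if_neg (lt_irrefl _)] at h1
          rw [decide_eq_true rfl, decide_eq_true_iff] at h1
          exact hne h1.symm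
        · exact hne (Subtype.ext heq)
        · have h1 := congrFun h (some t)
          rw [cd_some, cd_some, if_neg (lt_irrefl _), if_neg (not_lt.2 hlt.le)] at h1
          have h2 := h1.symm
          rw [decide_eq_true rfl, decide_eq_true_iff] at h2
          exact hne h2
      subst htt
      refine ⟨ha.1, ?_⟩
      have h2 := ha.2
      rw [C.evalc_congr (c := C.ext c') (c' := C.ext c)]
      · exact h2
      · intro j hj hjn
        refine C.ext_congr (fun hj' => ?_) hjn
        have hlt : j < t.1 := lt_of_le_of_lt hj (C.up_lt _ _)
        have h3 := congrFun h (some ⟨j, hj'⟩)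
        rw [cd_some, cd_some, if_pos hlt, if_pos hlt] at h3
        exact h3.symm

/-- a guess with a given code -/
noncomputable def dec (z : Option C.NotGate → Bool) : C.Guess :=
  if h : ∃ γ, C.cd γ = z then h.choose else (none, fun _ => false)

theorem cd_dec (γ : C.Guess) : C.cd (C.dec (C.cd γ)) = C.cd γ := by
  unfold dec
  have h : ∃ γ', C.cd γ' = C.cd γ := ⟨γ, rfl⟩
  rw [dif_pos h]
  exact h.choose_spec

theorem acc_dec (γ : C.Guess) (x : Fin n → Bool) : C.Acc (C.dec (C.cd γ)) x ↔ C.Acc γ x :=
  ⟨C.acc_of_cd (C.cd_dec γ), C.acc_of_cd (C.cd_dec γ).symm⟩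

theorem card_code : Fintype.card (Option C.NotGate → Bool) = 2 ^ (C.nots + 1) := by
  rw [Fintype.card_fun, Fintype.card_bool, Fintype.card_option, nots, Nat.card_eq_fintype_card]

end Circuit

end Pool.Agent.L0h35.Ng
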