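import Pool.Agent.L0h35.GnDefs
import Pool.Agent.L0h35.GnGss

/-!
# Blocks and functions of circuits with few NOT gates, for promise problems
-/

set_option autoImplicit false

open scoped Classical
open Finset

namespace Pool.Agent.L0h35.Gn

open H630VC (Prog marked)
open H589DT
open Pool.Agent.L0h35.Ng

/-- **Blocks and functions of circuits with few NOT gates, for a promise problem.** -/
theorem gen_gap {U E Λ A : Type} [Fintype U] [Fintype E] [Fintype Λ] [Fintype A] {n b : ℕ}
    [Nonempty A] (G : CGraph U E Λ) {L M Q r S K : ℕ} (F : Local U Λ (2 * L))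
    (hF : ∀ T ρ, F.C T ρ → G.SatOn T ρ) (hL : 1 ≤ L) (hM : 1 ≤ M) (hQ : 1 ≤ Q)
    (hA : 8 * ((8 * L + 1) * Q) ≤ Fintype.card A)
    (h1 : 8 * (Fintype.card U * Fintype.card A * Fintype.card Λ ^ 2 * M ^ 2) ≤ Q ^ 2)
    (h2 : 8 * (2 * L * Fintype.card Λ * M) ≤ Q)
    (enc : (Fin b → Finset (E × A × A)) → Fin n → Bool)
    (hmono : ∀ c c', (∀ t, c t ⊆ c' t) → ∀ i, enc c i = true → enc c' i = true)
    (hhost : ∀ (Y : Type) (negC : Y → Finset (E × A × A)), ∀ t < b, ∀ w : Fin b → Y,
      HostInputs (fun H => enc (stepA negC ∅ t w H)) (Circuit.inpB n))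
    (hδ : (b : ℝ) * (S * (1 / 8 ^ L +
      2 * ((Fintype.card U * Fintype.card A * Fintype.card Λ + 1 : ℕ) : ℝ) ^ (2 * L) / 2 ^ M)) ≤ 1)
    {Ω : Type} [Fintype Ω] [Nonempty Ω] (h : Ω → (Fin K → Bool) → Bool)
    (C : Ω → Fin K → Circuit n) (hr : ∀ o i, (C o i).nots ≤ r)
    (hC : ∀ o i, (C o i).size + n + 2 ≤ S ∨ 2 ^ ((C o i).depth + 1) ≤ S) (ε : ℝ)
    (hno : ∀ (c : Fin b → Finset (E × A × A)) (t : Fin b) (x : U → A), c t = hx G x →
      (∀ l, t < l → c l = ∅) → (1 / 2 + ε) * Fintype.card Ω ≤
      (univ.filter fun o => h o (fun i => (C o i).value (enc c)) = true).card)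
    (hyes : ∀ (c : Fin b → Finset (E × A × A)) (T : Fin b → Finset ((U × A) × Λ)),
      (∀ t, NoConflict (T t)) → (∀ t, c t ⊆ hT G (T t)) → (1 / 2 + ε) * Fintype.card Ω ≤
      (univ.filter fun o => h o (fun i => (C o i).value (enc c)) = false).card) :
    b * ε ≤ K * 2 ^ (r + 1) := by
  have hne : (NCset (U × A) Λ M Q).Nonempty := nc_nonempty hQ (by
    rw [Fintype.card_prod]
    exact h1)
  let Y : Type := {y // y ∈ NCset (U × A) Λ M Q}
  have : Nonempty Y := hne.to_subtype
  let negC : Y → Finset (E × A × A) := fun y => hT G (marked y.1)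
  let posC : (U → A) → Finset (E × A × A) := fun x => hx G x
  have hmn : ∀ (t : ℕ) (w : Fin b → Y) (c : Finset (E × A × A)) (l : Fin b),
      lowA negC ∅ t w l ⊆ stepA negC ∅ t w c l := by
    intro t w c l
    unfold lowA stepA
    split_ifs
    · exact Subset.rfl
    · exact empty_subset _
    · exact empty_subset _
  have key := chain_eps (X := U → A) (Y := Y)
    (S := Finset (E × A × A)) (b := b) (Ω := Ω) posC negC ∅
    (S * (1 / 8 ^ L + 2 * ((Fintype.card U * Fintype.card A * Fintype.card Λ + 1 : ℕ) : ℝ) ^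
      (2 * L) / 2 ^ M)) (2 * ε) hδ
    (Γ := fun o => (i : Fin K) × (Option (C o i).NotGate → Bool)) (K * 2 ^ (r + 1)) ?_
    (fun o γ c => (C o γ.1).Acc ((C o γ.1).dec γ.2) (enc c)) ?_ ?_ ?_
  · push_cast at key
    linarith
  · intro o
    rw [Fintype.card_sigma]
    calc ∑ i : Fin K, Fintype.card (Option (C o i).NotGate → Bool) ≤
          ∑ _i : Fin K, 2 ^ (r + 1) := by
          refine sum_le_sum fun i _ => ?_
          rw [(C o i).card_code]
          exact Nat.pow_le_pow_right (by norm_num) (Nat.succ_le_succ (hr o i))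
      _ = K * 2 ^ (r + 1) := by rw [sum_const, card_univ, Fintype.card_fin, smul_eq_mul]
  · intro o γ t ht w x h
    exact (C o γ.1).acc_mono _ (hmono _ _ (hmn t w _)) h
  · intro o γ t ht w
    obtain ⟨l, hl, hlen, f, hf, hacc⟩ := (C o γ.1).prog_guess ((C o γ.1).dec γ.2) S (hC o γ.1)
    have key := host G L M Q F hF hL hM hQ hA h1 h2 (Fin n → Bool)
      (fun H => enc (stepA negC ∅ t w H)) (Circuit.inpB n) (hhost Y negC t ht w) l hl
      f hf 1
    simp only [hacc] at key
    have e1 : ((univ.filter fun y : Y => (C o γ.1).Acc ((C o γ.1).dec γ.2) (enc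
        (stepA negC ∅ t w (negC y)))).card : ℝ) / Fintype.card Y =
        (((NCset (U × A) Λ M Q).filter fun ω =>
          (C o γ.1).Acc ((C o γ.1).dec γ.2) (enc (stepA negC ∅ t w (hT G (marked ω))))).card : ℝ) /
        (NCset (U × A) Λ M Q).card := by
      rw [← card_sub (NCset (U × A) Λ M Q)
        (fun ω => (C o γ.1).Acc ((C o γ.1).dec γ.2) (enc (stepA negC ∅ t w (hT G (marked ω)))))]
      congr 2
      exact Fintype.card_coe _
    rw [e1]
    refine frac_conv _ _ _ _ _ _ (key.trans (add_le_add le_rfl ?_))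
    refine mul_le_mul_of_nonneg_right (by exact_mod_cast hlen) (by positivity)
  · intro t ht w x
    set yp := enc (stepA negC ∅ t w (posC x)) with hyp
    set yl := enc (lowA negC ∅ t w) with hyl
    have r1 := hno (stepA negC ∅ t w (posC x)) ⟨t, ht⟩ x (by
      unfold stepA
      rw [if_neg (lt_irrefl _), if_pos rfl]) (by
      intro l hl
      have hl' : t < l.1 := hl
      unfold stepA
      rw [if_neg (by omega), if_neg (by omega)])
    have r2 := hyes (lowA negC ∅ t w) (fun l => if l.1 < t then marked (w l).1 else ∅) (by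
      intro l
      split_ifs
      · have := (w l).2
        unfold NCset at this
        exact (mem_filter.1 this).2
      · intro p σ τ h
        simp at h) (by
      intro l
      unfold lowA
      split_ifs
      · exact Subset.rfl
      · exact empty_subset _)
    rw [← hyp] at r1
    rw [← hyl] at r2
    have hsub : (univ.filter fun o => h o (fun i => (C o i).value yp) = true) ∩
        (univ.filter fun o => h o (fun i => (C o i).value yl) = false) ⊆
        univ.filter fun o => ∃ γ : (i : Fin K) × (Option (C o i).NotGate → Bool),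
          (C o γ.1).Acc ((C o γ.1).dec γ.2) yp ∧ ¬ (C o γ.1).Acc ((C o γ.1).dec γ.2) yl := by
      intro o ho
      obtain ⟨h3, h4⟩ := mem_inter.1 ho
      have h5 : h o (fun i => (C o i).value yp) = true := (mem_filter.1 h3).2
      have h6 : h o (fun i => (C o i).value yl) = false := (mem_filter.1 h4).2
      have h7 : ∃ i, (C o i).value yl ≠ (C o i).value yp := by
        by_contra hcon
        push Not at hcon
        have h7 : h o (fun i => (C o i).value yl) = h o (fun i => (C o i).value yp) :=
          congrArg _ (funext hcon)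
        rw [h5, h6] at h7
        exact Bool.false_ne_true h7
      obtain ⟨i, hi⟩ := h7
      obtain ⟨γ, hγ⟩ := (C o i).exists_guess_ne
        (fun i hi => hmono _ _ (hmn t w _) i hi) hi
      exact mem_filter.2 ⟨mem_univ _, ⟨i, (C o i).cd γ⟩, ((C o i).acc_dec γ yp).2 hγ.1,
        fun h' => hγ.2 (((C o i).acc_dec γ yl).1 h')⟩
    have h5 := card_le_card hsub
    have h6 := card_union_add_card_inter
      (univ.filter fun o => h o (fun i => (C o i).value yp) = true)
      (univ.filter fun o => h o (fun i => (C o i).value yl) = false)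
    have h7 := card_le_univ ((univ.filter fun o =>
      h o (fun i => (C o i).value yp) = true) ∪
      (univ.filter fun o => h o (fun i => (C o i).value yl) = false))
    have h8 : ((univ.filter fun o => h o (fun i => (C o i).value yp) = true).card : ℝ) +
        (univ.filter fun o => h o (fun i => (C o i).value yl) = false).card ≤
        Fintype.card Ω + ((univ.filter fun o =>
          h o (fun i => (C o i).value yp) = true) ∩
        (univ.filter fun o => h o (fun i => (C o i).value yl) = false)).card := by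
      exact_mod_cast (by omega)
    have h9 : ((((univ.filter fun o => h o (fun i => (C o i).value yp) = true) ∩
        (univ.filter fun o => h o (fun i => (C o i).value yl) = false)).card : ℕ) : ℝ) ≤
        ((univ.filter fun o => ∃ γ : (i : Fin K) × (Option (C o i).NotGate → Bool),
          (C o γ.1).Acc ((C o γ.1).dec γ.2) yp ∧
            ¬ (C o γ.1).Acc ((C o γ.1).dec γ.2) yl).card : ℕ) := by
      exact_mod_cast h5
    linarith

end Pool.Agent.L0h35.Gn
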