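import Pool.Agent.L0h35.GnDefs

/-!
# The host constraints of the copies
-/

set_option autoImplicit false

open scoped Classical
open Finset

namespace Pool.Agent.L0h35.Gn

open H630VC (Prog marked)
open H589DT
open Pool.Agent.L0h35.Ng

variable {n D p d m N b R : ℕ} [NeZero p] {φ : Fin n → Fin D → Fin n} {B : Finset (Fin n)}
  {s : Fin n → Fin D → ZMod p} {ι : Option (Cp b R × (Fin n × Fin m)) ↪ Fin N}

theorem cop_some (κ : Cp b R) (q : Fin n × Fin m) : cop ι κ (some q) = ι (some (κ, q)) := rfl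

theorem cop_none (κ : Cp b R) : cop ι κ none = ι none := rfl

omit [NeZero p] in
theorem isE_unique (hφ : ∀ w i j, w ∉ B → φ w i = φ w j → i = j) {κ κ' : Cp b R}
    {a a' : EE D B × Fin m × Fin m} {v w : Fin N} (h : isE φ B ι κ a v w)
    (h' : isE φ B ι κ' a' v w) : κ = κ' ∧ a = a' := by
  have hκ : κ = κ' := by
    have h1 := h.1
    have h2 := h'.1
    rw [cop_some] at h1 h2
    have h3 := ι.injective (h1.symm.trans h2)
    simp only [Option.some.injEq, Prod.mk.injEq] at h3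
    exact h3.1
  subst hκ
  exact ⟨rfl, isEdge_unique hφ h h'⟩

theorem bmap_of (hφ : ∀ w i j, w ∉ B → φ w i = φ w j → i = j) {κ : Cp b R}
    {a : EE D B × Fin m × Fin m} {v w : Fin N} (h : isE φ B ι κ a v w) :
    bmap φ B s ι d v w = cmap p d ((a.1.1.2 : ℕ) : ZMod p) (s a.1.1.1 a.1.1.2) := by
  unfold bmap
  have hex : ∃ c : EE D B × Fin m × Fin m, ∃ κ, isE φ B ι κ c v w := ⟨a, κ, h⟩
  rw [dif_pos hex]
  obtain ⟨κ', hκ'⟩ := hex.choose_spec
  have := (isE_unique hφ hκ' h).2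
  rw [this]

omit [NeZero p] in
theorem not_isE_none {κ : Cp b R} {a : EE D B × Fin m × Fin m} {w : Fin N} :
    ¬ isE φ B ι κ a (ι none) w := by
  intro h
  exact not_isEdge_none (ιV := cop ι κ) (ιW := cop ι κ) h

theorem game_mono {nb : ℕ} (e : Fin nb ≃ Fin N × Fin N × (Fin (2 * p) → Fin (2 * p)))
    (c c' : Fin b → Finset (EE D B × Fin m × Fin m)) (h : ∀ t, c t ⊆ c' t) (i : Fin nb)
    (hi : code e (toT (gameB φ B s ι 2 c)) i = true) :
    code e (toT (gameB φ B s ι 2 c')) i = true := by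
  unfold code at hi ⊢
  rw [decide_eq_true_iff] at hi ⊢
  refine ⟨?_, hi.2⟩
  rcases hi.1 with h1 | ⟨κ, a, ha, h1⟩
  · exact Or.inl h1
  · exact Or.inr ⟨κ, a, h _ ha, h1⟩

end Pool.Agent.L0h35.Gn
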