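import Pool.Agent.L0h35.HgMain

set_option autoImplicit false

/-!
# The coefficients of the outputs at the nodes of a circuit for matrix multiplication
-/

namespace Pool.Agent.L0h35.Hg

open Finset Pool.Agent.H88R3.MM Pool.Agent.H522R2 Pool.Agent.H522R2.Circuit
open Pool.Agent.W946.Kos
open Pool.Agent.W946.Sz (lin qd IsGate poly_var poly_const poly_add poly_mul up_lt lin_gate
  D2_entry_diag D1_entry act act_card card_le_of_diag)

variable {F : Type*} [Field F] {m : ℕ}

/-- the data of the transposed computation -/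
structure Adj (C : Circuit F (Vars m)) where
  M : Fin C.nodes → Fin C.nodes → F
  P : Fin C.nodes → Vars m → Vars m → F
  desc : ∀ u, Desc C u (M u) (P u)
  o : Fin m × Fin m → Fin C.nodes
  ho : ∀ p, C.poly (o p) = entry F m p.1 p.2
  lam : Fin C.nodes → Fin m × Fin m → F
  zeta : Fin C.nodes → Fin m × Fin m → F
  hzeta : ∀ v p, zeta v p = if o p = v then 1 else 0
  hlam : ∀ v, lam v = zeta v + ∑ u, M u v • lam u

theorem exists_adjoint {C : Circuit F (Vars m)} (hP : ∀ u, Pure (C.poly u))
    (hC : ∀ i j, ∃ k : Fin C.nodes, C.poly k = entry F m i j) : Nonempty (Adj C) := by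
  classical
  choose M P hd using exists_desc hP
  choose out hout using hC
  obtain ⟨Λ, hΛ⟩ := exists_adj (F := F) (I := Fin m × Fin m) (Matrix.of M)
    (fun u v h => (hd u).lt v h) (Matrix.of fun p v => if out p.1 p.2 = v then 1 else 0)
  refine ⟨⟨M, P, hd, fun p => out p.1 p.2, fun p => hout p.1 p.2, fun v p => Λ p v,
    fun v p => if out p.1 p.2 = v then 1 else 0, fun v p => rfl, fun v => ?_⟩⟩
  funext p
  have h1 := congrFun (congrFun hΛ p) v
  rw [Matrix.add_apply, Matrix.mul_apply] at h1
  rw [h1, Pi.add_apply, Finset.sum_apply]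
  congr 1
  refine sum_congr rfl fun u _ => ?_
  rw [Pi.smul_apply, smul_eq_mul, mul_comm]
  rfl

namespace Adj

variable {C : Circuit F (Vars m)} (A : Adj C)

theorem o_inj : Function.Injective A.o := by
  intro p p' h
  have h3 : entry F m p.1 p.2 = entry F m p'.1 p'.2 := by rw [← A.ho, ← A.ho, h]
  have h4 := D2_entry_diag (F := F) p.1 p.2 p.1 p.2 p.1
  rw [h3, D2_entry_diag, if_pos rfl] at h4
  by_contra hne
  rw [if_neg hne] at h4
  exact zero_ne_one h4

theorem qd_out (p : Fin m × Fin m) : qd C (A.o p) ≠ 0 := by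
  intro h
  have h4 := D2_entry_diag (F := F) p.1 p.2 p.1 p.2 p.1
  rw [if_pos rfl, ← A.ho p] at h4
  have h5 := congrFun (congrFun h (Sum.inl (p.1, p.1))) (Sum.inr (p.1, p.2))
  rw [qd, h4] at h5
  exact one_ne_zero h5

theorem zeta_or (v : Fin C.nodes) : A.zeta v = 0 ∨ ∃ p, A.zeta v = Pi.single p 1 := by
  by_cases h : ∃ p, A.o p = v
  · obtain ⟨p, hp⟩ := h
    refine Or.inr ⟨p, ?_⟩
    funext p'
    rw [A.hzeta, Pi.single_apply, ← hp]
    by_cases h : p' = p
    · rw [if_pos h, if_pos (by rw [h])]
    · rw [if_neg h, if_neg (fun h' => h (A.o_inj h'))]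
  · left
    push Not at h
    funext p
    rw [A.hzeta, if_neg (h p)]
    rfl

open Classical in
theorem card_zeta : (univ.filter fun v => A.zeta v ≠ 0).card ≤ Fintype.card (Fin m × Fin m) := by
  refine (card_le_card (t := univ.image A.o) ?_).trans card_image_le
  intro v hv
  rw [mem_filter] at hv
  rw [mem_image]
  by_contra hcon
  push Not at hcon
  apply hv.2
  funext p
  rw [A.hzeta, if_neg (hcon p (mem_univ _))]
  rfl

theorem qd_ne {v : Fin C.nodes} (h : A.lam v ≠ 0) : qd C v ≠ 0 := by
  intro h0
  apply h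
  rw [A.hlam v]
  have h1 : A.zeta v = 0 := by
    funext p
    rw [A.hzeta, if_neg]
    · rfl
    · intro h2
      exact A.qd_out p (by rw [h2]; exact h0)
  rw [h1, zero_add]
  refine sum_eq_zero fun u _ => ?_
  have h2 : A.M u v = 0 := by
    by_contra h3
    exact (A.desc u).ne v h3 h0
  rw [h2, zero_smul]

/-- the outputs in terms of the products -/
theorem entry_eq (p : Fin m × Fin m) (x y : Vars m) :
    D2 x y (entry F m p.1 p.2) = ∑ g, A.lam g p * A.P g x y := by
  have h1 : ∀ g, A.P g x y = qd C g x y - ∑ v, A.M g v * qd C v x y := by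
    intro g
    have h2 := congrFun (congrFun (A.desc g).eq x) y
    rw [Pi.add_apply, Pi.add_apply, Finset.sum_apply, Finset.sum_apply] at h2
    rw [h2]
    simp only [Pi.smul_apply, smul_eq_mul]
    ring
  have h2 : ∀ v, A.lam v p - ∑ g, A.M g v * A.lam g p = A.zeta v p := by
    intro v
    have h3 := congrFun (A.hlam v) p
    rw [Pi.add_apply, Finset.sum_apply] at h3
    rw [h3]
    simp only [Pi.smul_apply, smul_eq_mul]
    ring
  have h3 : ∑ g, A.lam g p * A.P g x y =
      ∑ v, (A.lam v p - ∑ g, A.M g v * A.lam g p) * qd C v x y := by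
    simp only [h1, mul_sub, sub_mul, sum_sub_distrib, mul_sum, sum_mul]
    congr 1
    rw [sum_comm]
    exact sum_congr rfl fun v _ => sum_congr rfl fun g _ => by ring
  rw [h3]
  simp only [h2, A.hzeta, ite_mul, one_mul, zero_mul, sum_ite_eq, mem_univ, if_true]
  rw [← A.ho p]
  rfl

/-- the products which are used -/
abbrev Used : Type := {g : Fin C.nodes // A.lam g ≠ 0 ∧ A.P g ≠ 0}

theorem prod_eq (g : A.Used) (x y : Vars m) :
    A.P g.1 x y = lin C (inp C g.1).1 x * lin C (inp C g.1).2 y +
      lin C (inp C g.1).1 y * lin C (inp C g.1).2 x := by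
  rcases (A.desc g.1).prod with h | h
  · exact absurd h g.2.2
  · exact h.2.2 x y

open Classical in
theorem entry_used (p : Fin m × Fin m) (x y : Vars m) :
    D2 x y (entry F m p.1 p.2) = ∑ g : A.Used, A.lam g.1 p * A.P g.1 x y := by
  rw [A.entry_eq, ← Finset.sum_filter_of_ne (p := fun g => A.lam g ≠ 0 ∧ A.P g ≠ 0)]
  · exact Finset.sum_subtype _ (fun g => by simp) _
  · intro g _ hg
    refine ⟨fun h => hg ?_, fun h => hg ?_⟩
    · rw [h, Pi.zero_apply, zero_mul]
    · rw [h, Pi.zero_apply, Pi.zero_apply, mul_zero]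

open Classical in
/-- a combination of the outputs contains many products -/
theorem dist (X : Fin m × Fin m → F) (hX : X ≠ 0) :
    m ≤ 2 * (univ.filter fun g : A.Used => dotProduct (A.lam g.1) X ≠ 0).card := by
  obtain ⟨p₀, hp₀⟩ := Function.ne_iff.1 hX
  rw [Pi.zero_apply] at hp₀
  set S : Finset A.Used := univ.filter fun g : A.Used => dotProduct (A.lam g.1) X ≠ 0 with hS
  set G : Finset (Vars m → F) := (S.image fun g => lin C (inp C g.1).1) ∪
    (S.image fun g => lin C (inp C g.1).2) with hG
  have hGcard : G.card ≤ 2 * S.card := by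
    refine (card_union_le _ _).trans ?_
    have h1 : (S.image fun g => lin C (inp C g.1).1).card ≤ S.card := card_image_le
    have h2 : (S.image fun g => lin C (inp C g.1).2).card ≤ S.card := card_image_le
    omega
  refine le_trans ?_ hGcard
  refine (Fintype.card_fin m).symm.le.trans (card_le_of_diag (F := F)
    (fun k : Fin m => (fun y => ∑ p, X p * D2 (Sum.inl (p₀.1, k)) y (entry F m p.1 p.2) :
      Vars m → F))
    (fun l => LinearMap.proj (Sum.inr (l, p₀.2))) hp₀ (fun k l => ?_) G fun k => ?_)
  · rw [LinearMap.proj_apply]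
    simp only [D2_entry]
    rw [Finset.sum_eq_single p₀]
    · simp only [symM, Matrix.of_apply]
      by_cases h : k = l
      · rw [if_pos h, if_pos h.symm, Matrix.single_apply, if_pos ⟨rfl, rfl⟩, mul_one]
      · rw [if_neg h, if_neg (fun h' => h h'.symm), mul_zero]
    · intro p _ hne
      simp only [symM, Matrix.of_apply]
      by_cases h : k = l
      · rw [if_pos h, Matrix.single_apply, if_neg, mul_zero]
        rintro ⟨h1, h2⟩
        exact hne (Prod.ext h1 h2)
      · rw [if_neg h, mul_zero]
    · intro h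
      exact absurd (mem_univ _) h
  · have h1 : (fun y => ∑ p, X p * D2 (Sum.inl (p₀.1, k)) y (entry F m p.1 p.2) : Vars m → F) =
        ∑ g : A.Used, dotProduct (A.lam g.1) X •
          ((lin C (inp C g.1).1 (Sum.inl (p₀.1, k))) • lin C (inp C g.1).2 +
            (lin C (inp C g.1).2 (Sum.inl (p₀.1, k))) • lin C (inp C g.1).1) := by
      funext y
      simp only [A.entry_used, mul_sum, Finset.sum_apply, Pi.smul_apply, Pi.add_apply,
        smul_eq_mul]
      rw [sum_comm]
      refine sum_congr rfl fun g _ => ?_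
      rw [A.prod_eq g, dotProduct, sum_mul]
      exact sum_congr rfl fun p _ => by ring
    rw [h1]
    refine Submodule.sum_mem _ fun g _ => ?_
    by_cases hg : dotProduct (A.lam g.1) X = 0
    · rw [hg, zero_smul]
      exact Submodule.zero_mem _
    · have hgS : g ∈ S := mem_filter.2 ⟨mem_univ _, hg⟩
      refine Submodule.smul_mem _ _ (Submodule.add_mem _ (Submodule.smul_mem _ _ ?_)
        (Submodule.smul_mem _ _ ?_))
      · refine Submodule.subset_span ?_
        rw [hG, coe_union]
        exact Or.inr (mem_coe.2 (mem_image_of_mem (fun g : A.Used => lin C (inp C g.1).2) hgS))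
      · refine Submodule.subset_span ?_
        rw [hG, coe_union]
        exact Or.inl (mem_coe.2 (mem_image_of_mem (fun g : A.Used => lin C (inp C g.1).1) hgS))

open Classical in
/-- many products are used -/
theorem used_bound (q p : ℕ) (hqp : q * (p + 1) ≤ m) :
    m ^ 2 + (2 * p + 1) * m * q ≤
      Fintype.card A.Used + q * (p + 1) * (2 * p + 1).choose p := by
  set f := algebraMap F (AlgebraicClosure F) with hf
  refine core (K := AlgebraicClosure F) (L := A.Used)
    (u := fun g x => f (lin C (inp C g.1).1 x)) (v := fun g x => f (lin C (inp C g.1).2 x))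
    (w := fun g => Matrix.of fun i j => f (A.lam g.1 (i, j))) ?_ q p hqp
  intro G
  ext x y
  rw [symM_expand, Matrix.sum_apply]
  have h1 : ∀ i j, symM (Matrix.single i j (1 : AlgebraicClosure F)) x y =
      ∑ g : A.Used, f (A.lam g.1 (i, j)) *
      (f (lin C (inp C g.1).1 x) * f (lin C (inp C g.1).2 y) +
        f (lin C (inp C g.1).1 y) * f (lin C (inp C g.1).2 x)) := by
    intro i j
    rw [← symM_map f, ← D2_entry, A.entry_used (i, j), map_sum]
    exact sum_congr rfl fun g _ => by rw [A.prod_eq g]; simp only [map_mul, map_add]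
  simp only [h1, mul_sum]
  have h2 : ∀ g : A.Used,
      (pr G (Matrix.of fun i j => f (A.lam g.1 (i, j))) •
        (Matrix.vecMulVec (fun x => f (lin C (inp C g.1).1 x))
            (fun x => f (lin C (inp C g.1).2 x)) +
          Matrix.vecMulVec (fun x => f (lin C (inp C g.1).2 x))
            (fun x => f (lin C (inp C g.1).1 x)))) x y =
      ∑ i, ∑ j, G i j * (f (A.lam g.1 (i, j)) *
        (f (lin C (inp C g.1).1 x) * f (lin C (inp C g.1).2 y) +
          f (lin C (inp C g.1).1 y) * f (lin C (inp C g.1).2 x))) := by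
    intro g
    rw [Matrix.smul_apply, Matrix.add_apply, Matrix.vecMulVec_apply, Matrix.vecMulVec_apply,
      smul_eq_mul]
    unfold pr
    rw [sum_mul]
    refine sum_congr rfl fun i _ => ?_
    rw [sum_mul]
    refine sum_congr rfl fun j _ => ?_
    rw [Matrix.of_apply]
    ring
  simp only [h2]
  have h3 : ∀ i : Fin m, (∑ j, ∑ g : A.Used, G i j * (f (A.lam g.1 (i, j)) *
        (f (lin C (inp C g.1).1 x) * f (lin C (inp C g.1).2 y) +
          f (lin C (inp C g.1).1 y) * f (lin C (inp C g.1).2 x)))) =
      ∑ g : A.Used, ∑ j, G i j * (f (A.lam g.1 (i, j)) *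
        (f (lin C (inp C g.1).1 x) * f (lin C (inp C g.1).2 y) +
          f (lin C (inp C g.1).1 y) * f (lin C (inp C g.1).2 x))) :=
    fun i => sum_comm
  rw [sum_congr rfl fun i _ => h3 i, sum_comm]

/-- the combinations of the entries of the product with the point `X` of the first argument -/
theorem sum_used (X : Vars m → F) (p : Fin m × Fin m) [Fintype A.Used] :
    (fun y => ∑ x, X x * D2 x y (entry F m p.1 p.2) : Vars m → F) =
      ∑ g : A.Used, A.lam g.1 p • (dotProduct (lin C (inp C g.1).1) X • lin C (inp C g.1).2 +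
        dotProduct (lin C (inp C g.1).2) X • lin C (inp C g.1).1) := by
  classical
  funext y
  rw [Finset.sum_apply]
  have h1 : ∀ x, D2 x y (entry F m p.1 p.2) = ∑ g : A.Used, A.lam g.1 p * A.P g.1 x y := by
    intro x
    rw [A.entry_used]
    exact sum_congr (by ext; simp) fun _ _ => rfl
  simp only [h1, mul_sum]
  rw [sum_comm]
  refine sum_congr rfl fun g _ => ?_
  simp only [Pi.smul_apply, Pi.add_apply, smul_eq_mul, A.prod_eq g, dotProduct, sum_mul, mul_sum,
    mul_add, ← sum_add_distrib]
  exact sum_congr rfl fun x _ => by ring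

open Classical in
theorem forward_dist_used (X : Vars m → F) (hX : X ≠ 0) :
    m ≤ (univ.filter fun g : A.Used × Bool =>
      dotProduct (sym (lin C) (Sum.inr (if g.2 then (inp C g.1.1).1 else (inp C g.1.1).2) :
        Vars m ⊕ Fin C.nodes)) X ≠ 0).card := by
  obtain ⟨z, hz⟩ := Function.ne_iff.1 hX
  rw [Pi.zero_apply] at hz
  set S : Finset A.Used := univ.filter fun g : A.Used =>
    dotProduct (lin C (inp C g.1).1) X ≠ 0 ∨ dotProduct (lin C (inp C g.1).2) X ≠ 0 with hS
  set G : Finset (Vars m → F) := S.image (fun g =>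
    dotProduct (lin C (inp C g.1).1) X • lin C (inp C g.1).2 +
        dotProduct (lin C (inp C g.1).2) X • lin C (inp C g.1).1) with hG
  have hmem : ∀ p : Fin m × Fin m, (fun y => ∑ x, X x * D2 x y (entry F m p.1 p.2)) ∈
      Submodule.span F (G : Set (Vars m → F)) := by
    intro p
    rw [A.sum_used X p]
    refine Submodule.sum_mem _ fun g _ => Submodule.smul_mem _ _ ?_
    by_cases hg : g ∈ S
    · refine Submodule.subset_span ?_
      rw [hG]
      exact mem_coe.2 (mem_image_of_mem _ hg)
    · rw [hS, mem_filter] at hg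
      push Not at hg
      obtain ⟨h2, h3⟩ := hg (mem_univ _)
      rw [h2, h3, zero_smul, zero_smul, add_zero]
      exact Submodule.zero_mem _
  have hcard : G.card ≤ S.card := card_image_le
  have hS2 : S.card ≤ (univ.filter fun g : A.Used × Bool =>
      dotProduct (sym (lin C) (Sum.inr (if g.2 then (inp C g.1.1).1 else (inp C g.1.1).2) :
        Vars m ⊕ Fin C.nodes)) X ≠ 0).card := by
    refine (card_le_card (t := (univ.filter fun g : A.Used × Bool =>
      dotProduct (sym (lin C) (Sum.inr (if g.2 then (inp C g.1.1).1 else (inp C g.1.1).2) :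
        Vars m ⊕ Fin C.nodes)) X ≠ 0).image Prod.fst) ?_).trans card_image_le
    intro g hg
    rw [hS, mem_filter] at hg
    rw [mem_image]
    rcases hg.2 with h | h
    · refine ⟨(g, true), mem_filter.2 ⟨mem_univ _, ?_⟩, rfl⟩
      rw [if_pos rfl]
      exact h
    · refine ⟨(g, false), mem_filter.2 ⟨mem_univ _, ?_⟩, rfl⟩
      rw [if_neg (by simp)]
      exact h
  refine le_trans ?_ (hcard.trans hS2)
  have hm : Fintype.card (Fin m) = m := Fintype.card_fin m
  rcases z with ⟨i, k⟩ | ⟨k, j⟩
  · refine hm.symm.le.trans (card_le_of_diag (F := F)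
      (fun j : Fin m => (fun y => ∑ x, X x * D2 x y (entry F m i j) : Vars m → F))
      (fun l => LinearMap.proj (Sum.inr (k, l))) hz (fun j l => ?_) G fun j => hmem (i, j))
    rw [LinearMap.proj_apply]
    exact Pool.Agent.W946.Sz.sum_entry_inr X i j k l
  · refine hm.symm.le.trans (card_le_of_diag (F := F)
      (fun i : Fin m => (fun y => ∑ x, X x * D2 x y (entry F m i j) : Vars m → F))
      (fun l => LinearMap.proj (Sum.inl (l, k))) hz (fun i l => ?_) G fun i => hmem (i, j))
    rw [LinearMap.proj_apply]
    exact Pool.Agent.W946.Sz.sum_entry_inl X i j k l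

/-! ### Counting -/

theorem hM (u v : Fin C.nodes) (h : A.M u v ≠ 0) : v < u := (A.desc u).lt v h

open Classical in
/-- the nodes which matter for the outputs -/
noncomputable def U : Finset (Fin C.nodes) := univ.filter fun v => A.lam v ≠ 0

open Classical in
/-- the sums of two quadratic parts -/
noncomputable def U₂ : Finset (Fin C.nodes) :=
  A.U.filter fun u => (univ.filter fun v => A.M u v ≠ 0).card = 2

open Classical in
theorem rows_le (u : Fin C.nodes) : (univ.filter fun v => A.M u v ≠ 0).card ≤ 2 := by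
  obtain ⟨a, b, h, _⟩ := (A.desc u).two
  refine (card_le_card (t := {a, b}) ?_).trans card_le_two
  intro v hv
  rw [mem_filter] at hv
  rw [mem_insert, mem_singleton]
  exact h v hv.2

theorem U₂_add {u : Fin C.nodes} (h : u ∈ A.U₂) : ∃ i j, C.gate u = Gate.add i j := by
  classical
  unfold U₂ at h
  rw [mem_filter] at h
  obtain ⟨a, b, h1, h2⟩ := (A.desc u).two
  rcases h2 with h2 | h2
  · exfalso
    have h3 : (univ.filter fun v => A.M u v ≠ 0).card ≤ 1 := by
      refine (card_le_card (t := {a}) ?_).trans (card_singleton a).le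
      intro v hv
      rw [mem_filter] at hv
      rw [mem_singleton]
      rcases h1 v hv.2 with h4 | h4
      · exact h4
      · rw [h4, h2]
    have h4 := h.2
    omega
  · exact h2

open Classical in
/-- **The count.** -/
theorem count [Nonempty (Fin m × Fin m)] :
    (LL (prog A.M A.lam A.zeta)).card + Fintype.card A.Used ≤ A.U₂.card + m ^ 2 := by
  have h1 := card_lead (M := A.M) (lam := A.lam) (zeta := A.zeta) A.hM A.hlam A.zeta_or
    A.card_zeta
  have h2 : Fintype.card (Fin m × Fin m) = m ^ 2 := by
    rw [Fintype.card_prod, Fintype.card_fin, sq]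
  rw [h2] at h1
  have h3 : ∑ u ∈ A.U, (univ.filter fun v => A.M u v ≠ 0).card + Fintype.card A.Used ≤
      A.U.card + A.U₂.card := by
    have h4 : Fintype.card A.Used = (A.U.filter fun u => A.P u ≠ 0).card := by
      rw [Fintype.card_subtype]
      unfold U
      rw [filter_filter]
    rw [h4, card_filter]
    unfold U₂
    rw [card_filter, card_eq_sum_ones A.U, ← sum_add_distrib, ← sum_add_distrib]
    refine sum_le_sum fun u _ => ?_
    have h5 := A.rows_le u
    by_cases hP : A.P u ≠ 0
    · rw [if_pos hP]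
      have h6 : (univ.filter fun v => A.M u v ≠ 0).card = 0 := by
        rw [card_eq_zero, filter_eq_empty_iff]
        intro v _
        rw [not_not]
        rcases (A.desc u).prod with h7 | h7
        · exact absurd h7 hP
        · exact h7.2.1 v
      omega
    · rw [if_neg hP]
      split_ifs <;> omega
  have h4 : (univ.filter fun v => A.lam v ≠ 0) = A.U := rfl
  rw [h4] at h1
  omega

end Adj

end Pool.Agent.L0h35.Hg
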