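import Pool.Agent.W946.SzFin

set_option autoImplicit false

/-!
# Circuits in which no node mixes degrees

The quadratic parts of the nodes of such a circuit.
-/

namespace Pool.Agent.L0h35.Hg

open Finset Pool.Agent.H88R3.MM Pool.Agent.H522R2 Pool.Agent.H522R2.Circuit
open Pool.Agent.W946.Kos
open Pool.Agent.W946.Sz (lin qd IsGate poly_var poly_const poly_add poly_mul up_lt)

section derivatives

variable {F V : Type*} [Field F]

/-- at most one homogeneous component of degree at most two is not zero -/
def Pure (P : MvPolynomial V F) : Prop :=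
  ∃ d : ℕ, ∀ e ≤ 2, e ≠ d → MvPolynomial.homogeneousComponent e P = 0

theorem pderiv_hom_zero {P : MvPolynomial V F} (h : P.IsHomogeneous 0) (x : V) :
    MvPolynomial.pderiv x P = 0 := by
  have h1 := (MvPolynomial.totalDegree_zero_iff_isHomogeneous V).2 h
  rw [MvPolynomial.totalDegree_eq_zero_iff_eq_C] at h1
  rw [h1, MvPolynomial.pderiv_C]

theorem const_hom {P : MvPolynomial V F} {d : ℕ} (h : P.IsHomogeneous d) (hd : d ≠ 0) :
    MvPolynomial.constantCoeff P = 0 := by
  rw [MvPolynomial.constantCoeff_eq]
  exact h.coeff_eq_zero (by simpa using hd.symm)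

theorem D1_hom {P : MvPolynomial V F} {d : ℕ} (h : P.IsHomogeneous d) (hd : d ≠ 1) (x : V) :
    D1 x P = 0 := by
  unfold D1
  rcases Nat.lt_or_ge d 1 with h0 | h0
  · obtain rfl : d = 0 := by omega
    rw [pderiv_hom_zero h, map_zero]
  · exact const_hom h.pderiv (by omega)

theorem D2_hom {P : MvPolynomial V F} {d : ℕ} (h : P.IsHomogeneous d) (hd : d ≠ 2) (x y : V) :
    D2 x y P = 0 := by
  unfold D2
  rcases Nat.lt_or_ge d 2 with h0 | h0
  · rcases Nat.lt_or_ge d 1 with h1 | h1
    · obtain rfl : d = 0 := by omega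
      rw [pderiv_hom_zero h, map_zero, map_zero]
    · obtain rfl : d = 1 := by omega
      rw [pderiv_hom_zero (h.pderiv (i := y)), map_zero]
  · exact const_hom h.pderiv.pderiv (by omega)

theorem D1_sum {ι : Type*} (x : V) (s : Finset ι) (P : ι → MvPolynomial V F) :
    D1 x (∑ i ∈ s, P i) = ∑ i ∈ s, D1 x (P i) := by
  unfold D1
  rw [map_sum, map_sum]

theorem D1_comp {P : MvPolynomial V F} (h : MvPolynomial.homogeneousComponent 1 P = 0) (x : V) :
    D1 x P = 0 := by
  rw [← MvPolynomial.sum_homogeneousComponent (φ := P), D1_sum]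
  refine sum_eq_zero fun e _ => ?_
  by_cases he : e = 1
  · rw [he, h]
    unfold D1
    rw [map_zero, map_zero]
  · exact D1_hom (MvPolynomial.homogeneousComponent_isHomogeneous e P) he x

theorem D2_comp {P : MvPolynomial V F} (h : MvPolynomial.homogeneousComponent 2 P = 0) (x y : V) :
    D2 x y P = 0 := by
  rw [← MvPolynomial.sum_homogeneousComponent (φ := P), D2_sum]
  refine sum_eq_zero fun e _ => ?_
  by_cases he : e = 2
  · rw [he, h]
    unfold D2
    rw [map_zero, map_zero, map_zero]
  · exact D2_hom (MvPolynomial.homogeneousComponent_isHomogeneous e P) he x y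

theorem const_comp {P : MvPolynomial V F} (h : MvPolynomial.homogeneousComponent 0 P = 0) :
    MvPolynomial.constantCoeff P = 0 := by
  rw [MvPolynomial.homogeneousComponent_zero] at h
  rw [MvPolynomial.constantCoeff_eq]
  exact MvPolynomial.C_injective V F (h.trans (map_zero _).symm)

theorem Pure.const_or {P : MvPolynomial V F} (h : Pure P) :
    MvPolynomial.constantCoeff P = 0 ∨ ((∀ x, D1 x P = 0) ∧ ∀ x y, D2 x y P = 0) := by
  obtain ⟨d, hd⟩ := h
  by_cases h0 : d = 0
  · exact Or.inr ⟨D1_comp (hd 1 (by omega) (by omega)), D2_comp (hd 2 le_rfl (by omega))⟩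
  · exact Or.inl (const_comp (hd 0 (by omega) (by omega)))

theorem Pure.lin_or {P : MvPolynomial V F} (h : Pure P) :
    (∀ x, D1 x P = 0) ∨ (MvPolynomial.constantCoeff P = 0 ∧ ∀ x y, D2 x y P = 0) := by
  obtain ⟨d, hd⟩ := h
  by_cases h0 : d = 1
  · exact Or.inr ⟨const_comp (hd 0 (by omega) (by omega)), D2_comp (hd 2 le_rfl (by omega))⟩
  · exact Or.inl (D1_comp (hd 1 (by omega) (by omega)))

theorem pure_of_hom {P : MvPolynomial V F} {d : ℕ} (h : P.IsHomogeneous d) : Pure P := by
  refine ⟨d, fun e _ hne => ?_⟩
  rw [MvPolynomial.homogeneousComponent_of_mem h, if_neg hne]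

end derivatives

section nodes

variable {F V : Type*} [Field F] {C : Circuit F V}

omit [Field F] in
theorem inp_mul {v : Fin C.nodes} {i j : Fin (v : ℕ)} (h : C.gate v = Gate.mul i j) :
    inp C v = (C.up v i, C.up v j) := by
  unfold inp
  rw [h]

/-- the quadratic part of a node in terms of earlier quadratic parts -/
structure Desc (C : Circuit F V) (u : Fin C.nodes) (M : Fin C.nodes → F) (P : V → V → F) :
    Prop where
  lt : ∀ v, M v ≠ 0 → v < u
  ne : ∀ v, M v ≠ 0 → qd C v ≠ 0
  eq : qd C u = ∑ v, M v • qd C v + P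
  two : ∃ a b : Fin C.nodes, (∀ v, M v ≠ 0 → v = a ∨ v = b) ∧
    (a = b ∨ ∃ i j, C.gate u = Gate.add i j)
  prod : P = 0 ∨ ((∃ i j, C.gate u = Gate.mul i j) ∧ (∀ v, M v = 0) ∧
    ∀ x y, P x y = lin C (inp C u).1 x * lin C (inp C u).2 y +
      lin C (inp C u).1 y * lin C (inp C u).2 x)

theorem exists_desc (hC : ∀ u, Pure (C.poly u)) (u : Fin C.nodes) :
    ∃ (M : Fin C.nodes → F) (P : V → V → F), Desc C u M P := by
  classical
  by_cases h0 : qd C u = 0
  · exact ⟨0, 0, fun v h => absurd rfl h, fun v h => absurd rfl h, by simp [h0],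
      ⟨u, u, fun v h => absurd rfl h, Or.inl rfl⟩, Or.inl rfl⟩
  cases hg : C.gate u with
  | var z =>
    refine absurd ?_ h0
    funext x y
    simp only [qd, poly_var hg, D2_X, Pi.zero_apply]
  | const c =>
    refine absurd ?_ h0
    funext x y
    simp only [qd, poly_const hg, D2_C, Pi.zero_apply]
  | add i j =>
    have e1 : qd C u = qd C (C.up u i) + qd C (C.up u j) := by
      funext x y
      simp only [qd, poly_add hg, D2_add, Pi.add_apply]
    refine ⟨fun v => (if v = C.up u i ∧ qd C v ≠ 0 then 1 else 0) +
      (if v = C.up u j ∧ qd C v ≠ 0 then 1 else 0), 0, ?_, ?_, ?_, ?_, Or.inl rfl⟩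
    · intro v hv
      by_cases h1 : v = C.up u i ∧ qd C v ≠ 0
      · rw [h1.1]; exact up_lt u i
      · by_cases h2 : v = C.up u j ∧ qd C v ≠ 0
        · rw [h2.1]; exact up_lt u j
        · rw [if_neg h1, if_neg h2, add_zero] at hv
          exact absurd rfl hv
    · intro v hv h
      apply hv
      rw [if_neg (fun h' => h'.2 h), if_neg (fun h' => h'.2 h), add_zero]
    · rw [add_zero]
      simp only [add_smul, sum_add_distrib]
      have h1 : ∀ k : Fin C.nodes, ∑ v, (if v = k ∧ qd C v ≠ 0 then (1 : F) else 0) • qd C v =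
          qd C k := by
        intro k
        rw [Finset.sum_eq_single k]
        · by_cases h : qd C k = 0
          · rw [h, smul_zero]
          · rw [if_pos ⟨rfl, h⟩, one_smul]
        · intro v _ hv
          rw [if_neg (fun h' => hv h'.1), zero_smul]
        · intro h
          exact absurd (mem_univ _) h
      rw [h1, h1, e1]
    · refine ⟨C.up u i, C.up u j, fun v hv => ?_, Or.inr ⟨i, j, hg⟩⟩
      by_contra hcon
      rw [not_or] at hcon
      apply hv
      rw [if_neg (fun h' => hcon.1 h'.1), if_neg (fun h' => hcon.2 h'.1), add_zero]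
  | mul i j =>
    set a := C.up u i with ha
    set b := C.up u j with hb
    have e1 : ∀ x y, qd C u x y = MvPolynomial.constantCoeff (C.poly a) * qd C b x y +
        MvPolynomial.constantCoeff (C.poly b) * qd C a x y +
        (lin C a x * lin C b y + lin C a y * lin C b x) := by
      intro x y
      simp only [qd, lin, poly_mul hg, D2_mul]
      rfl
    -- the case of a multiple
    have key : ∀ (k : Fin C.nodes) (c : F), k < u → (∀ x y, qd C u x y = c * qd C k x y) →
        ∃ (M : Fin C.nodes → F) (P : V → V → F), Desc C u M P := by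
      intro k c hk hq
      have hck : c ≠ 0 ∧ qd C k ≠ 0 := by
        constructor
        · rintro rfl
          apply h0
          funext x y
          rw [hq, zero_mul]
          rfl
        · intro h
          apply h0
          funext x y
          rw [hq, h]
          simp
      refine ⟨fun v => if v = k then c else 0, 0, ?_, ?_, ?_, ?_, Or.inl rfl⟩
      · intro v hv
        by_cases h : v = k
        · rw [h]; exact hk
        · rw [if_neg h] at hv
          exact absurd rfl hv
      · intro v hv
        by_cases h : v = k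
        · rw [h]; exact hck.2
        · rw [if_neg h] at hv
          exact absurd rfl hv
      · rw [add_zero, Finset.sum_eq_single k]
        · funext x y
          rw [if_pos rfl, hq]
          rfl
        · intro v _ hv
          rw [if_neg hv, zero_smul]
        · intro h
          exact absurd (mem_univ _) h
      · refine ⟨k, k, fun v hv => ?_, Or.inl rfl⟩
        by_contra hcon
        rw [or_self] at hcon
        exact hv (if_neg hcon)
    rcases (hC a).const_or with h1 | h1
    · rcases (hC b).const_or with h2 | h2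
      · -- a product of two linear forms
        refine ⟨0, fun x y => lin C a x * lin C b y + lin C a y * lin C b x,
          fun v h => absurd rfl h, fun v h => absurd rfl h, ?_,
          ⟨u, u, fun v h => absurd rfl h, Or.inl rfl⟩, Or.inr ⟨⟨i, j, hg⟩, fun v => rfl,
            fun x y => ?_⟩⟩
        · funext x y
          rw [e1, h1, h2]
          simp
        · rw [inp_mul hg]
      · refine key a (MvPolynomial.constantCoeff (C.poly b)) (up_lt u i) fun x y => ?_
        rw [e1, h1]
        have h3 : ∀ x, lin C b x = 0 := h2.1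
        rw [h3, h3]
        ring
    · refine key b (MvPolynomial.constantCoeff (C.poly a)) (up_lt u j) fun x y => ?_
      rw [e1]
      have h3 : ∀ x, lin C a x = 0 := h1.1
      have h4 : qd C a x y = 0 := h1.2 x y
      rw [h3, h3, h4]
      ring

end nodes

section adj

variable {F I : Type*} [Field F] {n : ℕ}

/-- the coefficients of the outputs at all nodes -/
theorem exists_adj (M : Matrix (Fin n) (Fin n) F) (hM : ∀ u v, M u v ≠ 0 → v < u)
    (Z : Matrix I (Fin n) F) : ∃ Λ : Matrix I (Fin n) F, Λ = Z + Λ * M := by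
  classical
  have hlow : ((1 : Matrix (Fin n) (Fin n) F) - M).IsLowerTriangular := by
    intro i j hij
    have hij' : i < j := hij
    rw [Matrix.sub_apply, Matrix.one_apply_ne hij'.ne, zero_sub, neg_eq_zero]
    by_contra h
    exact absurd (hM i j h) (not_lt.2 hij'.le)
  have hdet : ((1 : Matrix (Fin n) (Fin n) F) - M).det = 1 := by
    rw [Matrix.det_of_isLowerTriangular _ hlow]
    refine prod_eq_one fun i _ => ?_
    rw [Matrix.sub_apply, Matrix.one_apply_eq, sub_eq_self]
    by_contra h
    exact absurd (hM i i h) (lt_irrefl _)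
  have hunit : IsUnit ((1 : Matrix (Fin n) (Fin n) F) - M).det := by
    rw [hdet]
    exact isUnit_one
  refine ⟨Z * ((1 : Matrix (Fin n) (Fin n) F) - M)⁻¹, ?_⟩
  have h1 : Z * ((1 : Matrix (Fin n) (Fin n) F) - M)⁻¹ * (1 - M) = Z := by
    rw [Matrix.mul_assoc, Matrix.nonsing_inv_mul _ hunit, Matrix.mul_one]
  rw [Matrix.mul_sub, Matrix.mul_one] at h1
  exact eq_add_of_sub_eq h1

end adj

end Pool.Agent.L0h35.Hg
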