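import Pool.Agent.L0h35.HgBack

set_option autoImplicit false

/-!
# The number of gates of circuits for matrix multiplication which do not mix degrees
-/

namespace Pool.Agent.L0h35.Hg

open Finset Pool.Agent.H88R3.MM Pool.Agent.H522R2 Pool.Agent.H522R2.Circuit
open Pool.Agent.W946.Kos
open Pool.Agent.W946.Sz (lin qd)

/-- the number of `+` gates -/
noncomputable def addCount {F V : Type*} (C : Circuit F V) : ℕ :=
  Nat.card {v : Fin C.nodes // ∃ i j, C.gate v = Gate.add i j}

section counts

variable {F : Type*} [Field F] {m : ℕ} {C : Circuit F (Vars m)}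

theorem leaders_U₂ (hP : ∀ u, Pure (C.poly u)) (A : Adj C) :
    (LL (lin C)).card + A.U₂.card ≤ addCount C := by
  classical
  have h1 : addCount C = (univ.filter fun v => ∃ i j, C.gate v = Gate.add i j).card := by
    rw [addCount, Nat.card_eq_fintype_card, Fintype.card_subtype]
  rw [h1, ← card_union_of_disjoint]
  · refine card_le_card fun v hv => mem_filter.2 ⟨mem_univ _, ?_⟩
    rcases mem_union.1 hv with h | h
    · exact lead_add hP (mem_LL.1 h)
    · exact A.U₂_add h
  · rw [disjoint_left]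
    intro v hv hv'
    have h2 := (mem_LL.1 hv).1
    have h3 : A.lam v ≠ 0 := by
      unfold Adj.U₂ Adj.U at hv'
      exact (mem_filter.1 (mem_filter.1 hv').1).2
    have h4 := A.qd_ne h3
    rcases (hP v).lin_or with h5 | h5
    · exact h2 (funext h5)
    · exact h4 (funext fun x => funext fun y => h5.2 x y)

theorem add_used (A : Adj C) [Fintype A.Used] : addCount C + Fintype.card A.Used ≤ C.size := by
  classical
  have h1 : addCount C = (univ.filter fun v => ∃ i j, C.gate v = Gate.add i j).card := by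
    rw [addCount, Nat.card_eq_fintype_card, Fintype.card_subtype]
  have h2 : Fintype.card A.Used = (univ.filter fun g => A.lam g ≠ 0 ∧ A.P g ≠ 0).card :=
    Fintype.card_subtype _
  have h3 : C.size = (univ.filter fun v => (∃ i j, C.gate v = Gate.add i j) ∨
      ∃ i j, C.gate v = Gate.mul i j).card := by
    rw [Circuit.size, Nat.card_eq_fintype_card, Fintype.card_subtype]
  rw [h1, h2, h3, ← card_union_of_disjoint]
  · refine card_le_card fun v hv => mem_filter.2 ⟨mem_univ _, ?_⟩
    rcases mem_union.1 hv with h | h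
    · exact Or.inl (mem_filter.1 h).2
    · rcases (A.desc v).prod with h4 | h4
      · exact absurd h4 (mem_filter.1 h).2.2
      · exact Or.inr h4.1
  · rw [disjoint_left]
    intro v hv hv'
    obtain ⟨i, j, h⟩ := (mem_filter.1 hv).2
    rcases (A.desc v).prod with h4 | h4
    · exact absurd h4 (mem_filter.1 hv').2.2
    · obtain ⟨⟨i', j', h5⟩, _⟩ := h4
      rw [h] at h5
      cases h5

end counts

universe u

theorem main (δ : ℝ) (hδ : 0 < δ) : ∃ m₀ : ℕ, ∀ (F : Type u) [Field F] (m : ℕ)
    (C : Circuit F (Vars m)), m₀ ≤ m → (∀ v, Pure (C.poly v)) →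
    (∀ i j, ∃ k : Fin C.nodes, C.poly k = entry F m i j) →
    (11 - δ) * (m : ℝ) ^ 2 ≤ addCount C ∧ (14 - δ) * (m : ℝ) ^ 2 ≤ C.size := by
  classical
  obtain ⟨m₁, hm₁⟩ := lp_asymp.{u, 0, 0, 0} (δ / 5) 24 (by positivity) (by norm_num)
  obtain ⟨m₂, hm₂⟩ := quad_num (δ / 5) (by positivity)
  refine ⟨max (max m₁ m₂) 1, fun F _ m C hm hP hC => ?_⟩
  have hm1 : m₁ ≤ m := (le_max_left _ _).trans ((le_max_left _ _).trans hm)
  have hm2 : m₂ ≤ m := (le_max_right _ _).trans ((le_max_left _ _).trans hm)
  have hm0 : 0 < m := (le_max_right _ _).trans hm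
  have : Nonempty (Fin m × Fin m) := ⟨(⟨0, hm0⟩, ⟨0, hm0⟩)⟩
  have : Nonempty (Vars m) := ⟨Sum.inl (⟨0, hm0⟩, ⟨0, hm0⟩)⟩
  obtain ⟨A⟩ := exists_adjoint hP hC
  have hM0 : (0 : ℝ) < (m : ℝ) ^ 2 := by
    have : (0 : ℝ) < m := by exact_mod_cast hm0
    positivity
  have h1 := leaders_U₂ hP A
  have h2 := add_used A
  have h3 := A.count
  have h4 := hm₂ m (Fintype.card A.Used) hm2 fun q p hqp => A.used_bound q p hqp
  have h1' : ((LL (lin C)).card : ℝ) + A.U₂.card ≤ addCount C := by exact_mod_cast h1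
  have h2' : (addCount C : ℝ) + Fintype.card A.Used ≤ C.size := by exact_mod_cast h2
  have h3' : ((LL (prog A.M A.lam A.zeta)).card : ℝ) + Fintype.card A.Used ≤
      A.U₂.card + (m : ℝ) ^ 2 := by exact_mod_cast h3
  suffices hadd : (11 - 4 / 5 * δ) * (m : ℝ) ^ 2 ≤ addCount C by
    constructor
    · nlinarith
    · nlinarith
  by_contra hcon
  push Not at hcon
  have hadd : (addCount C : ℝ) ≤ 11 * (m : ℝ) ^ 2 := by nlinarith
  have hU₂ : (A.U₂.card : ℝ) ≤ 11 * (m : ℝ) ^ 2 := by
    have : (0 : ℝ) ≤ (LL (lin C)).card := Nat.cast_nonneg _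
    linarith
  have hused : (Fintype.card A.Used : ℝ) ≤ 12 * (m : ℝ) ^ 2 := by
    have : (0 : ℝ) ≤ (LL (prog A.M A.lam A.zeta)).card := Nat.cast_nonneg _
    linarith
  -- the linear forms
  have h5 := hm₁ F (Vars m) (Fin C.nodes) (A.Used × Bool) (lin C)
    (fun g => Sum.inr (if g.2 then (inp C g.1.1).1 else (inp C g.1.1).2)) m m hm1 (by omega)
    (forward_isLP hm0) (fun X hX => A.forward_dist_used X hX) (by
      have h6 : Fintype.card (Vars m) = m * m + m * m := by
        rw [Fintype.card_sum, Fintype.card_prod, Fintype.card_fin]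
      rw [h6]
      push_cast
      nlinarith) (by
      have : (0 : ℝ) ≤ A.U₂.card := Nat.cast_nonneg _
      linarith) (by
      rw [Fintype.card_prod, Fintype.card_bool]
      push_cast
      linarith)
  have hV : (Fintype.card (Vars m) : ℝ) = 2 * (m : ℝ) ^ 2 := by
    have h6 : Fintype.card (Vars m) = m * m + m * m := by
      rw [Fintype.card_sum, Fintype.card_prod, Fintype.card_fin]
    rw [h6]
    push_cast
    ring
  rw [hV] at h5
  -- the coefficients of the outputs
  have h7 := hm₁ F (Fin m × Fin m) (Idx C.nodes) A.Used (prog A.M A.lam A.zeta)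
    (fun g => Sum.inr (ix g.1 g.1)) m ((m + 1) / 2) hm1 (by omega)
    (isLP A.hM A.hlam A.zeta_or) (fun X hX => by
      have h8 := A.dist X hX
      have h9 : (univ.filter fun g : A.Used => dotProduct (sym (prog A.M A.lam A.zeta)
          (Sum.inr (ix g.1 g.1) : (Fin m × Fin m) ⊕ Idx C.nodes)) X ≠ 0) =
          univ.filter fun g : A.Used => dotProduct (A.lam g.1) X ≠ 0 := by
        refine filter_congr fun g _ => ?_
        change dotProduct (prog A.M A.lam A.zeta (ix g.1 g.1)) X ≠ 0 ↔ _
        rw [prog_ix, ps_diag A.hM A.hlam]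
      rw [h9]
      omega) (by
      rw [Fintype.card_prod, Fintype.card_fin]
      push_cast
      nlinarith) (by linarith) (by linarith)
  have hV2 : (Fintype.card (Fin m × Fin m) : ℝ) = (m : ℝ) ^ 2 := by
    rw [Fintype.card_prod, Fintype.card_fin]
    push_cast
    ring
  rw [hV2] at h7
  nlinarith

end Pool.Agent.L0h35.Hg
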