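import Pool.Agent.W946.SzRounds

set_option autoImplicit false

/-!
# Linear straight-line programs

A program is a family of linear forms, indexed by a finite linear order; each form is a linear
combination of two earlier forms or variables. If a point different from zero is always detected
by many tests (forms of the program), then there are about three times as many proper steps as
variables.
-/

namespace Pool.Agent.L0h35.Hg

open Finset Pool.Agent.W946.Sz

section lp

variable {F V ι : Type*} [Field F] [DecidableEq V] [LinearOrder ι]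

/-- the linear form of a symbol: a variable or a form of the program -/
noncomputable def sym (ψ : ι → V → F) : V ⊕ ι → V → F := Sum.elim (fun x => Pi.single x 1) ψ

/-- the symbol is a variable or comes before `k` -/
def Before (k : ι) (s : V ⊕ ι) : Prop := ∀ i, s = Sum.inr i → i < k

/-- every form is a linear combination of two earlier ones -/
def IsLP (ψ : ι → V → F) : Prop :=
  ∀ k, ∃ (s t : V ⊕ ι) (α β : F), Before k s ∧ Before k t ∧ ψ k = α • sym ψ s + β • sym ψ t

/-- a proper step: the form is not zero and not proportional to a variable or an earlier form -/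
def Lead (ψ : ι → V → F) (k : ι) : Prop :=
  ψ k ≠ 0 ∧ (∀ (x : V) (a : F), ψ k ≠ a • (Pi.single x 1 : V → F)) ∧
    ∀ j < k, ∀ a : F, ψ k ≠ a • ψ j

/-- the symbols without repetitions -/
def Valid (ψ : ι → V → F) : V ⊕ ι → Prop := Sum.elim (fun _ => True) (Lead ψ)

theorem sym_ne_zero {ψ : ι → V → F} {s : V ⊕ ι} (hs : Valid ψ s) : sym ψ s ≠ 0 := by
  rcases s with x | v
  · intro h
    have := congrFun h x
    simp [sym] at this
  · exact hs.1

theorem valid_unique {ψ : ι → V → F} {s t : V ⊕ ι} (hs : Valid ψ s)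
    (ht : Valid ψ t) {a : F} (h : sym ψ s = a • sym ψ t) : s = t := by
  have ha : a ≠ 0 := by
    rintro rfl
    rw [zero_smul] at h
    exact sym_ne_zero hs h
  have h' : sym ψ t = a⁻¹ • sym ψ s := by rw [h, smul_smul, inv_mul_cancel₀ ha, one_smul]
  rcases s with x | v <;> rcases t with y | w
  · have := congrFun h x
    simp only [sym, Sum.elim_inl, Pi.single_eq_same, Pi.smul_apply, smul_eq_mul] at this
    congr 1
    by_contra hne
    rw [Pi.single_eq_of_ne hne, mul_zero] at this
    exact one_ne_zero this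
  · exact absurd h' (ht.2.1 x _)
  · exact absurd h (hs.2.1 y _)
  · rcases lt_trichotomy v w with h1 | h1 | h1
    · exact absurd h' (ht.2.2 v h1 _)
    · rw [h1]
    · exact absurd h (hs.2.2 w h1 _)

theorem exists_rep_inr [Nonempty V] [WellFoundedLT ι] (ψ : ι → V → F) (u : ι) :
    ∃ (s : V ⊕ ι) (a : F), Valid ψ s ∧ (∀ v, s = Sum.inr v → v ≤ u) ∧ ψ u = a • sym ψ s := by
  induction u using WellFoundedLT.induction with
  | _ u ih =>
  by_cases h0 : ψ u = 0
  · exact ⟨Sum.inl (Classical.arbitrary V), 0, trivial, fun v h => by simp at h, by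
      rw [h0, zero_smul]⟩
  by_cases hl : Lead ψ u
  · exact ⟨Sum.inr u, 1, hl, fun v h => (Sum.inr_injective h).ge, (one_smul _ _).symm⟩
  unfold Lead at hl
  push Not at hl
  by_cases h1 : ∀ (x : V) (a : F), ψ u ≠ a • (Pi.single x 1 : V → F)
  · obtain ⟨w, hw, a, ha⟩ := hl h0 h1
    obtain ⟨s, b, hs, hle, hb⟩ := ih w hw
    exact ⟨s, a * b, hs, fun v h => (hle v h).trans hw.le, by rw [ha, hb, smul_smul]⟩
  · push Not at h1
    obtain ⟨x, a, ha⟩ := h1
    exact ⟨Sum.inl x, a, trivial, fun v h => by simp at h, ha⟩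

theorem exists_rep [Nonempty V] [WellFoundedLT ι] (ψ : ι → V → F) (s : V ⊕ ι) :
    ∃ (t : V ⊕ ι) (a : F), Valid ψ t ∧ (∀ k, Before k s → Before k t) ∧
      sym ψ s = a • sym ψ t := by
  rcases s with x | u
  · exact ⟨Sum.inl x, 1, trivial, fun k h => h, (one_smul _ _).symm⟩
  · obtain ⟨t, a, h1, h2, h3⟩ := exists_rep_inr ψ u
    exact ⟨t, a, h1, fun k h v hv => (h2 v hv).trans_lt (h u rfl), h3⟩

/-- the data which describe a program -/
structure Data (ψ : ι → V → F) where
  rep : V ⊕ ι → V ⊕ ι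
  coef : V ⊕ ι → F
  valid : ∀ s, Valid ψ (rep s)
  before : ∀ s k, Before k s → Before k (rep s)
  sym_eq : ∀ s, sym ψ s = coef s • sym ψ (rep s)
  i : ι → V ⊕ ι
  j : ι → V ⊕ ι
  al : ι → F
  be : ι → F
  hi : ∀ v, Before v (i v)
  hj : ∀ v, Before v (j v)
  hlin : ∀ v, ψ v = al v • sym ψ (i v) + be v • sym ψ (j v)

theorem exists_data [Nonempty V] [WellFoundedLT ι] {ψ : ι → V → F} (h : IsLP ψ) :
    Nonempty (Data ψ) := by
  choose rep coef h1 h2 h3 using exists_rep ψ
  choose i j α β h4 h5 h6 using h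
  exact ⟨⟨rep, coef, h1, h2, h3, i, j, α, β, h4, h5, h6⟩⟩

variable {ψ : ι → V → F}

/-- the coefficients of the equations -/
noncomputable def Data.H (S : Data ψ) (v : ι) (s : V ⊕ ι) : F :=
  (if s = Sum.inr v then 1 else 0) - (S.al v * S.coef (S.i v)) * (if s = S.rep (S.i v) then 1 else 0)
    - (S.be v * S.coef (S.j v)) * (if s = S.rep (S.j v) then 1 else 0)

variable [Fintype V] [Fintype ι]

open Classical in
/-- all symbols -/
noncomputable def EE (ψ : ι → V → F) : Finset (V ⊕ ι) := univ.filter (Valid ψ)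

open Classical in
/-- all proper steps -/
noncomputable def LL (ψ : ι → V → F) : Finset ι := univ.filter (Lead ψ)

omit [Fintype V] in
theorem mem_LL {v : ι} : v ∈ LL ψ ↔ Lead ψ v := by
  classical
  unfold LL
  simp only [mem_filter, mem_univ, true_and]

theorem card_EE (ψ : ι → V → F) : (EE ψ).card = Fintype.card V + (LL ψ).card := by
  classical
  have h : EE ψ = (univ : Finset V).disjSum (LL ψ) := by
    ext s
    unfold EE LL Valid
    rw [mem_filter]
    rcases s with x | v
    · simp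
    · simp
  rw [h, card_disjSum, card_univ]

theorem Data.sum_H (S : Data ψ) (v : ι) (x : V ⊕ ι → F) :
    ∑ s, S.H v s * x s = x (Sum.inr v) - S.al v * S.coef (S.i v) * x (S.rep (S.i v)) -
      S.be v * S.coef (S.j v) * x (S.rep (S.j v)) := by
  simp only [Data.H, sub_mul, sum_sub_distrib, ite_mul, one_mul, zero_mul, mul_assoc, ← mul_sum,
    sum_ite_eq', mem_univ, if_true]

omit [Fintype V] [Fintype ι] in
theorem Data.row_card (S : Data ψ) (E : Finset (V ⊕ ι)) (v : ι) :
    (row S.H E v).card ≤ 3 := by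
  classical
  refine (card_le_card (t := {Sum.inr v, S.rep (S.i v), S.rep (S.j v)}) ?_).trans card_le_three
  intro s hs
  unfold row at hs
  rw [mem_filter] at hs
  by_contra hcon
  simp only [mem_insert, mem_singleton, not_or] at hcon
  apply hs.2
  rw [Data.H, if_neg hcon.1, if_neg hcon.2.1, if_neg hcon.2.2]
  ring

/-- a solution is given by a point -/
theorem Data.sol_eq (S : Data ψ) {E : Finset (V ⊕ ι)} {x : V ⊕ ι → F}
    (hx : Sol S.H E (LL ψ) x) (s : V ⊕ ι) (hs : Valid ψ s) :
    x s = dotProduct (sym ψ s) (fun z => x (Sum.inl z)) := by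
  set X : V → F := fun z => x (Sum.inl z) with hX
  have key : ∀ w : ι, Lead ψ w → x (Sum.inr w) = dotProduct (ψ w) X := by
    intro w
    induction w using WellFoundedLT.induction with
    | _ w ih =>
    intro hw
    have h1 := hx.2 w (mem_LL.2 hw)
    have h2 : ∑ e ∈ E, S.H w e * x e = ∑ e, S.H w e * x e := by
      refine sum_subset (subset_univ _) fun e _ he => ?_
      rw [hx.1 e he, mul_zero]
    rw [h2, S.sum_H] at h1
    have h3 : ∀ u, Before w u → x (S.rep u) = dotProduct (sym ψ (S.rep u)) X := by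
      intro u hu
      cases hr : S.rep u with
      | inl z => simp [sym, hX]
      | inr w' =>
        have h4 := S.valid u
        rw [hr] at h4
        exact ih w' (S.before u w hu w' hr) h4
    rw [h3 _ (S.hi w), h3 _ (S.hj w)] at h1
    rw [S.hlin w, add_dotProduct, smul_dotProduct, smul_dotProduct, S.sym_eq (S.i w),
      S.sym_eq (S.j w), smul_dotProduct, smul_dotProduct]
    simp only [smul_eq_mul]
    linear_combination h1
  rcases s with z | w
  · simp [sym, hX]
  · exact key w hs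

theorem Data.sym_dot (S : Data ψ) {E : Finset (V ⊕ ι)} {x : V ⊕ ι → F}
    (hx : Sol S.H E (LL ψ) x) (s : V ⊕ ι) :
    dotProduct (sym ψ s) (fun z => x (Sum.inl z)) = S.coef s * x (S.rep s) := by
  rw [S.sol_eq hx _ (S.valid s), S.sym_eq s, smul_dotProduct, smul_eq_mul]

theorem Data.ne_zero (S : Data ψ) {E : Finset (V ⊕ ι)} (hE : E ⊆ EE ψ)
    {x : V ⊕ ι → F} (hx : Sol S.H E (LL ψ) x) (h0 : x ≠ 0) :
    (fun z => x (Sum.inl z)) ≠ 0 := by
  intro h
  apply h0
  funext s
  by_cases hs : Valid ψ s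
  · rw [S.sol_eq hx s hs, h, dotProduct_zero, Pi.zero_apply]
  · exact hx.1 s fun h' => hs (by simpa [EE] using hE h')

variable {G : Type*} [Fintype G]

open Classical in
/-- the tests which use a symbol -/
noncomputable def Data.use (S : Data ψ) (τ : G → V ⊕ ι) (s : V ⊕ ι) : Finset G :=
  univ.filter fun g => S.rep (τ g) = s

open Classical in
/-- the symbols which are not used often -/
noncomputable def Data.light (S : Data ψ) (τ : G → V ⊕ ι) (Δ : ℕ) : Finset (V ⊕ ι) :=
  (EE ψ).filter fun s => (eqs S.H (LL ψ) s).card ≤ Δ ∧ (S.use τ s).card ≤ Δ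

open Classical in
theorem Data.dist (S : Data ψ) (τ : G → V ⊕ ι) {m Δ T : ℕ}
    (hm : ∀ X : V → F, X ≠ 0 →
      m ≤ (univ.filter fun g => dotProduct (sym ψ (τ g)) X ≠ 0).card)
    (hΔ : 0 < Δ) (h : Δ * T ≤ m) : Dist S.H (S.light τ Δ) (LL ψ) T := by
  intro x hx h0
  have hX := S.ne_zero (filter_subset _ _) hx h0
  have h1 := hm _ hX
  have h2 : (univ.filter fun g => dotProduct (sym ψ (τ g)) (fun z => x (Sum.inl z)) ≠ 0) ⊆
      (spt (S.light τ Δ) x).biUnion (S.use τ) := by
    intro g hg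
    rw [mem_filter, S.sym_dot hx] at hg
    rw [mem_biUnion]
    have h4 : x (S.rep (τ g)) ≠ 0 := right_ne_zero_of_mul hg.2
    refine ⟨S.rep (τ g), ?_, ?_⟩
    · unfold spt
      rw [mem_filter]
      refine ⟨?_, h4⟩
      by_contra h5
      exact h4 (hx.1 _ h5)
    · unfold Data.use
      rw [mem_filter]
      exact ⟨mem_univ _, rfl⟩
  have h3 : (univ.filter fun g => dotProduct (sym ψ (τ g)) (fun z => x (Sum.inl z)) ≠ 0).card ≤
      (spt (S.light τ Δ) x).card * Δ := by
    refine (card_le_card h2).trans (card_biUnion_le.trans ?_)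
    refine (sum_le_card_nsmul _ _ Δ fun s hs => ?_).trans (le_of_eq (smul_eq_mul _ _))
    unfold spt Data.light at hs
    rw [mem_filter, mem_filter] at hs
    exact hs.1.2.2
  have h4 : Δ * T ≤ Δ * (spt (S.light τ Δ) x).card := by
    rw [mul_comm Δ (Finset.card _)]
    exact h.trans (h1.trans h3)
  exact Nat.le_of_mul_le_mul_left h4 hΔ

theorem Data.sum_use (S : Data ψ) (τ : G → V ⊕ ι) :
    ∑ s ∈ EE ψ, (S.use τ s).card ≤ Fintype.card G := by
  classical
  have h1 : ∑ s ∈ EE ψ, (S.use τ s).card ≤ ∑ s, (S.use τ s).card :=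
    sum_le_sum_of_subset (subset_univ _)
  refine h1.trans ?_
  unfold Data.use
  simp only [card_filter]
  rw [sum_comm]
  simp

theorem Data.heavy (S : Data ψ) (τ : G → V ⊕ ι) (Δ : ℕ) :
    (Δ + 1) * (EE ψ).card ≤ (Δ + 1) * (S.light τ Δ).card + 3 * (LL ψ).card +
      Fintype.card G := by
  classical
  have h1 : ∑ s ∈ EE ψ, (eqs S.H (LL ψ) s).card ≤ 3 * (LL ψ).card := by
    rw [count_inc]
    refine (sum_le_card_nsmul _ _ 3 fun c _ => S.row_card _ c).trans (le_of_eq ?_)
    rw [smul_eq_mul, mul_comm]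
  have h2 := S.sum_use τ
  have h3 : ∑ s ∈ EE ψ, (Δ + 1) ≤ ∑ s ∈ EE ψ, ((if (eqs S.H (LL ψ) s).card ≤ Δ ∧
      (S.use τ s).card ≤ Δ then (Δ + 1) else 0) +
        ((eqs S.H (LL ψ) s).card + (S.use τ s).card)) := by
    refine sum_le_sum fun s _ => ?_
    by_cases h : (eqs S.H (LL ψ) s).card ≤ Δ ∧ (S.use τ s).card ≤ Δ
    · rw [if_pos h]
      exact Nat.le_add_right _ _
    · rw [if_neg h]
      omega
  rw [sum_const, smul_eq_mul, sum_add_distrib, sum_add_distrib] at h3
  have h4 : ∑ s ∈ EE ψ, (if (eqs S.H (LL ψ) s).card ≤ Δ ∧ (S.use τ s).card ≤ Δ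
      then (Δ + 1) else 0) = (S.light τ Δ).card * (Δ + 1) := by
    rw [← sum_filter, sum_const, smul_eq_mul]
    rfl
  rw [h4] at h3
  nlinarith

open Classical in
/-- **The number of proper steps of a program.** -/
theorem lp_bound [Nonempty V] (hψ : IsLP ψ) (τ : G → V ⊕ ι) {m i Δ r : ℕ} {η : ℝ} (hη : 0 < η)
    (hm : ∀ X : V → F, X ≠ 0 →
      m ≤ (univ.filter fun g => dotProduct (sym ψ (τ g)) X ≠ 0).card)
    (hΔ : 0 < Δ) (hi : 1 ≤ i) (hs : ((LL ψ).card : ℝ) ≤ (1 + η) ^ i)
    (hT : Δ * ((1 + Δ) ^ r * (4 * i + 3)) ≤ m) :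
    (2 : ℝ) ^ r * (3 * (Fintype.card V - (3 * (LL ψ).card + Fintype.card G) / (Δ + 1)) -
      (1 + η) * (LL ψ).card) ≤ 3 * Fintype.card V := by
  obtain ⟨S⟩ := exists_data hψ
  have h2 := S.heavy τ Δ
  have h3 := S.dist τ hm hΔ hT
  have h4 := rounds (H := S.H) (Δ := Δ) hη hi r (S.light τ Δ) (LL ψ)
    (fun c _ => S.row_card _ c) (fun e he => (mem_filter.1 he).2.1) hs h3
  set K' : ℝ := ((S.light τ Δ).card : ℝ) - (LL ψ).card with hK'
  have hΔr : (0 : ℝ) < (Δ : ℝ) + 1 := by positivity
  rw [card_EE] at h2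
  have h5 : (Fintype.card V : ℝ) - (3 * (LL ψ).card + Fintype.card G) / (Δ + 1) ≤ K' := by
    have h7 : ((Δ : ℝ) + 1) * (Fintype.card V + (LL ψ).card) ≤
        ((Δ : ℝ) + 1) * (S.light τ Δ).card + 3 * (LL ψ).card + Fintype.card G := by
      exact_mod_cast h2
    have h8 : (Fintype.card V : ℝ) - K' ≤ (3 * (LL ψ).card + Fintype.card G) / (Δ + 1) := by
      rw [le_div_iff₀ hΔr, hK']
      nlinarith
    linarith
  have h6 : K' ≤ Fintype.card V := by
    have h7 : (S.light τ Δ).card ≤ Fintype.card V + (LL ψ).card := by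
      rw [← card_EE]
      exact card_le_card (filter_subset _ _)
    have h8 : ((S.light τ Δ).card : ℝ) ≤ Fintype.card V + (LL ψ).card := by exact_mod_cast h7
    rw [hK']
    linarith
  have h7 : 3 * (Fintype.card V - (3 * (LL ψ).card + Fintype.card G) / (Δ + 1)) -
    (1 + η) * (LL ψ).card ≤ 3 * K' - (1 + η) * (LL ψ).card := by
    linarith
  have h8 := mul_le_mul_of_nonneg_left h7 (show (0 : ℝ) ≤ 2 ^ r by positivity)
  linarith

end lp

end Pool.Agent.L0h35.Hg
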