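import Pool.Agent.L0h35.HgLP
import Pool.Agent.W946.SzFin

set_option autoImplicit false

/-!
# The asymptotic form of the bound for linear programs
-/

namespace Pool.Agent.L0h35.Hg

open Finset

theorem num (δ K : ℝ) (hδ : 0 < δ) (hK : 0 < K) : ∃ (η : ℝ) (Δ r : ℕ), 0 < η ∧ 0 < Δ ∧
    ∀ D L G : ℝ, 0 ≤ D → 0 ≤ L → L ≤ K * D → G ≤ K * D →
      (2 : ℝ) ^ r * (3 * (D - (3 * L + G) / (Δ + 1)) - (1 + η) * L) ≤ 3 * D →
        (3 - δ) * D ≤ L := by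
  obtain ⟨Δ, hΔ⟩ := exists_nat_gt (96 * K / δ)
  obtain ⟨r, hr⟩ := pow_unbounded_of_one_lt (6 / δ) (show (1 : ℝ) < 2 by norm_num)
  have hη : 0 < δ / (4 * (K + 1)) := by positivity
  have hΔ0 : (0 : ℝ) < Δ := lt_trans (by positivity) hΔ
  refine ⟨δ / (4 * (K + 1)), Δ, r, hη, by exact_mod_cast hΔ0, ?_⟩
  intro D L G hD hL hLK hGK h
  by_contra hcon
  push Not at hcon
  have hD0 : 0 < D := by
    rcases hD.lt_or_eq with h0 | h0
    · exact h0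
    · rw [← h0] at hcon
      linarith
  set η := δ / (4 * (K + 1)) with hηd
  have h1 : (3 * L + G) / (Δ + 1) ≤ δ / 24 * D := by
    rw [div_le_iff₀ (by positivity)]
    have h2 : 96 * K < Δ * δ := by
      rw [div_lt_iff₀ hδ] at hΔ
      exact hΔ
    nlinarith [mul_pos hδ hD0]
  have h2 : η * L ≤ δ / 4 * D := by
    have h3 : η * (K + 1) = δ / 4 := by
      rw [hηd]
      field_simp
    have h4 : η * L ≤ η * (K * D) := mul_le_mul_of_nonneg_left hLK hη.le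
    nlinarith [mul_pos hη hD0]
  set Y : ℝ := 3 * (D - (3 * L + G) / (Δ + 1)) - (1 + η) * L with hY
  have h3 : 5 / 8 * δ * D < Y := by
    rw [hY]
    nlinarith
  have h4 : (6 / δ) * Y ≤ 3 * D := by
    refine le_trans ?_ h
    exact mul_le_mul_of_nonneg_right hr.le (le_trans (by positivity) h3.le)
  have h5 : (6 / δ) * (5 / 8 * δ * D) < 3 * D := lt_of_lt_of_le
    (mul_lt_mul_of_pos_left h3 (by positivity)) h4
  have h6 : (6 / δ) * (5 / 8 * δ * D) = 15 / 4 * D := by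
    field_simp
    ring
  rw [h6] at h5
  linarith

theorem pick2 {K : ℕ} (hK : 0 < K) {η : ℝ} (hη : 0 < η) (B : ℝ) :
    ∃ m₀ : ℕ, ∀ m : ℕ, m₀ ≤ m → ∃ i : ℕ, 1 ≤ i ∧ K * (4 * i + 3) ≤ m ∧
      B * (m : ℝ) ^ 2 ≤ (1 + η) ^ i := by
  obtain ⟨c, hc⟩ := exists_nat_gt (max B 1)
  have hcB : B < c := (le_max_left _ _).trans_lt hc
  have hc1 : (1 : ℝ) < c := (le_max_right _ _).trans_lt hc
  have hc0 : 0 < c := by
    have : (0 : ℝ) < c := by linarith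
    exact_mod_cast this
  obtain ⟨m₀, h⟩ := Pool.Agent.W946.Sz.pick (K := c * K) (Nat.mul_pos hc0 hK) hη
  refine ⟨m₀, fun m hm => ?_⟩
  obtain ⟨i, hi, h1, h2⟩ := h (c * m) (hm.trans (Nat.le_mul_of_pos_left _ hc0))
  refine ⟨i, hi, ?_, ?_⟩
  · rw [mul_assoc] at h1
    exact Nat.le_of_mul_le_mul_left h1 hc0
  · refine le_trans ?_ h2
    push_cast
    have hm0 : (0 : ℝ) ≤ (m : ℝ) ^ 2 := by positivity
    have h3 : B ≤ 8 * (c : ℝ) ^ 2 := by nlinarith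
    calc B * (m : ℝ) ^ 2 ≤ 8 * (c : ℝ) ^ 2 * (m : ℝ) ^ 2 := mul_le_mul_of_nonneg_right h3 hm0
      _ = 8 * ((c : ℝ) * m) ^ 2 := by ring

universe u₁ u₂ u₃ u₄

open Classical in
/-- **Linear programs whose points are detected by many tests have many proper steps.** -/
theorem lp_asymp (δ K : ℝ) (hδ : 0 < δ) (hK : 0 < K) : ∃ m₀ : ℕ,
    ∀ (F : Type u₁) (V : Type u₂) (ι : Type u₃) (G : Type u₄) [Field F] [DecidableEq V]
      [Fintype V] [Nonempty V] [LinearOrder ι] [Fintype ι] [Fintype G] (ψ : ι → V → F) (τ : G → V ⊕ ι) (m m' : ℕ),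
      m₀ ≤ m → m ≤ 2 * m' → IsLP ψ →
      (∀ X : V → F, X ≠ 0 →
        m' ≤ (univ.filter fun g => dotProduct (sym ψ (τ g)) X ≠ 0).card) →
      (m : ℝ) ^ 2 ≤ Fintype.card V → ((LL ψ).card : ℝ) ≤ K * (m : ℝ) ^ 2 →
      (Fintype.card G : ℝ) ≤ K * (m : ℝ) ^ 2 →
      (3 - δ) * Fintype.card V ≤ (LL ψ).card := by
  obtain ⟨η, Δ, r, hη, hΔ, hnum⟩ := num δ K hδ hK
  obtain ⟨m₀, hm₀⟩ := pick2 (K := 2 * (Δ * (1 + Δ) ^ r)) (by positivity) hη K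
  refine ⟨m₀, ?_⟩
  intro F V ι G _ _ _ _ _ _ _ ψ τ m m' hm hmm' hψ hdist hV hL hG
  obtain ⟨i, hi, hT, hp⟩ := hm₀ m hm
  have h1 : Δ * ((1 + Δ) ^ r * (4 * i + 3)) ≤ m' := by
    have h2 : 2 * (Δ * ((1 + Δ) ^ r * (4 * i + 3))) ≤ 2 * m' := by
      refine le_trans (le_of_eq ?_) (hT.trans hmm')
      ring
    omega
  have h2 := lp_bound hψ τ hη hdist hΔ hi (hL.trans hp) (r := r) h1
  have hKV : K * (m : ℝ) ^ 2 ≤ K * Fintype.card V := mul_le_mul_of_nonneg_left hV hK.le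
  exact hnum _ _ _ (Nat.cast_nonneg _) (Nat.cast_nonneg _) (hL.trans hKV) (hG.trans hKV) h2

end Pool.Agent.L0h35.Hg
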