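import Pool.Agent.L0h35.HgRev
import Pool.Agent.L0h35.HgNum
import Pool.Agent.L0h35.HgCirc

set_option autoImplicit false

/-!
# Matrix multiplication by circuits which do not mix degrees
-/

namespace Pool.Agent.L0h35.Hg

open Finset Pool.Agent.H88R3.MM Pool.Agent.H522R2 Pool.Agent.H522R2.Circuit
open Pool.Agent.W946.Kos
open Pool.Agent.W946.Sz (lin qd IsGate poly_var poly_const poly_add poly_mul up_lt lin_gate
  D2_entry_diag D1_entry act act_card card_le_of_diag)

theorem quad_num (ε : ℝ) (hε : 0 < ε) : ∃ m₀ : ℕ, ∀ m N : ℕ, m₀ ≤ m →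
    (∀ q p : ℕ, q * (p + 1) ≤ m →
      m ^ 2 + (2 * p + 1) * m * q ≤ N + q * (p + 1) * (2 * p + 1).choose p) →
    (3 - ε) * (m : ℝ) ^ 2 ≤ N := by
  obtain ⟨p, hp⟩ := exists_nat_gt (2 / ε)
  obtain ⟨m₀, hm₀⟩ := exists_nat_gt ((2 * (p : ℝ) + 4 ^ p) * (2 / ε))
  refine ⟨m₀, fun m N hm hN => ?_⟩
  have hdm := Nat.div_add_mod m (p + 1)
  have hmod := Nat.mod_lt m (show 0 < p + 1 by omega)
  set q := m / (p + 1) with hq
  have hqp : q * (p + 1) ≤ m := Nat.div_mul_le_self m (p + 1)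
  have h1 := hN q p hqp
  have h2 : q * (p + 1) * (2 * p + 1).choose p ≤ m * 4 ^ p :=
    Nat.mul_le_mul hqp (Nat.choose_middle_le_pow p)
  have h3 : m ^ 2 + (2 * p + 1) * m * q ≤ N + m * 4 ^ p := by omega
  have h4 : m ≤ q * (p + 1) + p := by
    have : (p + 1) * q = q * (p + 1) := mul_comm _ _
    omega
  have h5 : (m : ℝ) ^ 2 + (2 * p + 1) * m * q ≤ N + m * 4 ^ p := by
    exact_mod_cast h3
  have h6 : (m : ℝ) ≤ q * (p + 1) + p := by exact_mod_cast h4
  have hp' : (0 : ℝ) < (p : ℝ) + 1 := by positivity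
  have hm0 : (0 : ℝ) ≤ m := by positivity
  have h7 : (2 - 1 / ((p : ℝ) + 1)) * (m : ℝ) ^ 2 ≤ (2 * p + 1) * m * q + 2 * p * m := by
    have e1 : (2 - 1 / ((p : ℝ) + 1)) * (m : ℝ) ^ 2 = ((2 * p + 1) * m ^ 2) / (p + 1) := by
      field_simp
      ring
    rw [e1, div_le_iff₀ hp']
    have h8 : (2 * (p : ℝ) + 1) * m * m ≤ (2 * p + 1) * m * (q * (p + 1) + p) :=
      mul_le_mul_of_nonneg_left h6 (by positivity)
    have hp0 : (0 : ℝ) ≤ p := by positivity
    nlinarith [mul_nonneg hp0 hm0]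
  have hm1 : (m₀ : ℝ) ≤ m := by exact_mod_cast hm
  have h8 : 1 / ((p : ℝ) + 1) ≤ ε / 2 := by
    rw [div_le_div_iff₀ (by positivity) (by norm_num)]
    rw [div_lt_iff₀ hε] at hp
    nlinarith
  have h9 : (2 * (p : ℝ) + 4 ^ p) ≤ (ε / 2) * m := by
    have h10 : (2 * (p : ℝ) + 4 ^ p) * (2 / ε) ≤ m := (hm₀.le).trans hm1
    have h11 : (ε / 2) * ((2 * (p : ℝ) + 4 ^ p) * (2 / ε)) = (2 * (p : ℝ) + 4 ^ p) := by
      field_simp
    rw [← h11]
    exact mul_le_mul_of_nonneg_left h10 (by positivity)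
  have h12 := mul_le_mul_of_nonneg_right h8 (sq_nonneg (m : ℝ))
  have h13 := mul_le_mul_of_nonneg_right h9 hm0
  nlinarith

section forward

variable {F : Type*} [Field F] {m : ℕ} {C : Circuit F (Vars m)}

theorem lin_var {v : Fin C.nodes} {z : Vars m} (h : C.gate v = Gate.var z) :
    lin C v = Pi.single z 1 := by
  classical
  funext x
  simp only [lin, poly_var h]
  unfold D1
  rw [MvPolynomial.pderiv_X, Pi.single_apply, Pi.single_apply]
  by_cases hz : z = x
  · rw [if_pos hz, if_pos hz.symm, map_one]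
  · rw [if_neg hz, if_neg (fun h' => hz h'.symm), map_zero]

theorem lin_const {v : Fin C.nodes} {c : F} (h : C.gate v = Gate.const c) : lin C v = 0 := by
  funext x
  simp only [lin, poly_const h, D1_C, Pi.zero_apply]

theorem forward_isLP (hm : 0 < m) : IsLP (lin C) := by
  intro v
  have hb : ∀ (k : Fin C.nodes) (x : Vars m), Before k (Sum.inl x : Vars m ⊕ Fin C.nodes) :=
    fun k x i h => by simp at h
  have hb' : ∀ k l : Fin C.nodes, l < k → Before k (Sum.inr l : Vars m ⊕ Fin C.nodes) :=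
    fun k l h i hi => by rw [← Sum.inr_injective hi]; exact h
  have x₀ : Vars m := Sum.inl (⟨0, hm⟩, ⟨0, hm⟩)
  cases hg : C.gate v with
  | var z =>
    refine ⟨Sum.inl z, Sum.inl z, 1, 0, hb _ _, hb _ _, ?_⟩
    rw [one_smul, zero_smul, add_zero, lin_var hg]
    rfl
  | const c =>
    refine ⟨Sum.inl x₀, Sum.inl x₀, 0, 0, hb _ _, hb _ _, ?_⟩
    rw [zero_smul, add_zero, lin_const hg]
  | add i j =>
    obtain ⟨a, b, ha, hb, α, β, h⟩ := lin_gate (C := C) (v := v) (Or.inl ⟨i, j, hg⟩)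
    exact ⟨Sum.inr a, Sum.inr b, α, β, hb' _ _ ha, hb' _ _ hb, h⟩
  | mul i j =>
    obtain ⟨a, b, ha, hb, α, β, h⟩ := lin_gate (C := C) (v := v) (Or.inr ⟨i, j, hg⟩)
    exact ⟨Sum.inr a, Sum.inr b, α, β, hb' _ _ ha, hb' _ _ hb, h⟩

theorem lead_add (hP : ∀ u, Pure (C.poly u)) {v : Fin C.nodes} (h : Lead (lin C) v) :
    ∃ i j, C.gate v = Gate.add i j := by
  cases hg : C.gate v with
  | var z =>
    refine absurd ?_ (h.2.1 z 1)
    rw [one_smul, lin_var hg]
  | const c => exact absurd (lin_const hg) h.1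
  | add i j => exact ⟨i, j, rfl⟩
  | mul i j =>
    exfalso
    have e1 : ∀ x, lin C v x = MvPolynomial.constantCoeff (C.poly (C.up v i)) *
        lin C (C.up v j) x + MvPolynomial.constantCoeff (C.poly (C.up v j)) *
          lin C (C.up v i) x := by
      intro x
      simp only [lin, poly_mul hg, D1_mul]
    rcases (hP (C.up v i)).const_or with h1 | h1
    · refine h.2.2 (C.up v i) (up_lt v i)
        (MvPolynomial.constantCoeff (C.poly (C.up v j))) ?_
      funext x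
      rw [e1, h1, zero_mul, zero_add]
      rfl
    · refine h.2.2 (C.up v j) (up_lt v j)
        (MvPolynomial.constantCoeff (C.poly (C.up v i))) ?_
      funext x
      have h3 : lin C (C.up v i) x = 0 := h1.1 x
      rw [e1, h3, mul_zero, add_zero]
      rfl

open Classical in
theorem forward_dist (hC : ∀ i j, ∃ k : Fin C.nodes, C.poly k = entry F m i j)
    (X : Vars m → F) (hX : X ≠ 0) :
    m ≤ (univ.filter fun g : {g : Fin C.nodes // C.IsNonscalar g} × Bool =>
      dotProduct (sym (lin C) (Sum.inr (if g.2 then (inp C g.1.1).1 else (inp C g.1.1).2) :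
        Vars m ⊕ Fin C.nodes)) X ≠ 0).card := by
  refine (act_card C hC hX).trans ?_
  let f : {g : Fin C.nodes // C.IsNonscalar g} × Bool → Fin C.nodes := fun g => g.1.1
  refine (card_le_card (t := (univ.filter fun g : {g : Fin C.nodes // C.IsNonscalar g} × Bool =>
      dotProduct (sym (lin C) (Sum.inr (if g.2 then (inp C g.1.1).1 else (inp C g.1.1).2) :
        Vars m ⊕ Fin C.nodes)) X ≠ 0).image f) ?_).trans card_image_le
  intro g hg
  unfold act at hg
  rw [mem_filter] at hg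
  rw [mem_image]
  rcases hg.2.2 with h | h
  · refine ⟨(⟨g, hg.2.1⟩, true), mem_filter.2 ⟨mem_univ _, ?_⟩, rfl⟩
    rw [if_pos rfl]
    exact h
  · refine ⟨(⟨g, hg.2.1⟩, false), mem_filter.2 ⟨mem_univ _, ?_⟩, rfl⟩
    rw [if_neg (by simp)]
    exact h

end forward

end Pool.Agent.L0h35.Hg
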