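import Pool.Agent.L0h35.HgLP

set_option autoImplicit false

/-!
# The transposed program

Forms `lam v` on `F ^ I`, indexed by `Fin n`, with `lam v = zeta v + ∑ u, M u v • lam u` for a
strictly lower triangular matrix `M`. The partial sums form a linear program; the number of its
proper steps is bounded in terms of the number of nonzero entries of the rows of `M`.
-/

namespace Pool.Agent.L0h35.Hg

open Finset

variable {F I : Type*} [Field F] [DecidableEq I] {n : ℕ}

/-- pairs of nodes, in decreasing lexicographic order -/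
abbrev Idx (n : ℕ) : Type := (Fin n)ᵒᵈ ×ₗ (Fin n)ᵒᵈ

/-- the index of a pair -/
def ix (v u : Fin n) : Idx n := toLex (OrderDual.toDual v, OrderDual.toDual u)

theorem ix_lt_of_lt {u v : Fin n} (h : v < u) (u' w : Fin n) : ix u u' < ix v w := by
  unfold ix
  rw [Prod.Lex.toLex_lt_toLex]
  exact Or.inl h

theorem ix_lt_right (v : Fin n) {u u' : Fin n} (h : u < u') : ix v u' < ix v u := by
  unfold ix
  rw [Prod.Lex.toLex_lt_toLex]
  exact Or.inr ⟨rfl, h⟩

theorem exists_ix (k : Idx n) : ∃ v u : Fin n, k = ix v u :=
  ⟨OrderDual.ofDual (ofLex k).1, OrderDual.ofDual (ofLex k).2, rfl⟩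

variable (M : Fin n → Fin n → F) (lam zeta : Fin n → I → F)

open Classical in
/-- the partial sums at the node `v` -/
noncomputable def ps (v u : Fin n) : I → F :=
  if lam v = 0 then 0 else
    ∑ w ∈ univ.filter (fun w => u ≤ w), M w v • lam w + (if u ≤ v then zeta v else 0)

/-- all partial sums -/
noncomputable def prog (k : Idx n) : I → F :=
  ps M lam zeta (OrderDual.ofDual (ofLex k).1) (OrderDual.ofDual (ofLex k).2)

omit [DecidableEq I] in
theorem prog_ix (v u : Fin n) : prog M lam zeta (ix v u) = ps M lam zeta v u := rfl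

open Classical in
/-- the sum before the step `u` -/
noncomputable def nxt (v u : Fin n) : I → F :=
  ∑ w ∈ univ.filter (fun w => u < w), M w v • lam w + (if u < v then zeta v else 0)

variable {M lam zeta}

omit [DecidableEq I] in
theorem ps_step {v : Fin n} (hv : lam v ≠ 0) (u : Fin n) :
    ps M lam zeta v u = nxt M lam zeta v u + M u v • lam u + (if u = v then zeta v else 0) := by
  classical
  unfold ps nxt
  rw [if_neg hv]
  have h1 : (univ.filter fun w => u ≤ w) = insert u (univ.filter fun w => u < w) := by
    ext w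
    simp only [mem_filter, mem_univ, true_and, mem_insert]
    rw [le_iff_eq_or_lt, eq_comm]
  rw [h1, sum_insert (by simp)]
  have h2 : (if u ≤ v then zeta v else 0) =
      (if u < v then zeta v else 0) + (if u = v then zeta v else (0 : I → F)) := by
    rcases lt_trichotomy u v with h | h | h
    · rw [if_pos h.le, if_pos h, if_neg h.ne, add_zero]
    · rw [if_pos h.le, if_neg (by rw [h]; exact lt_irrefl _), if_pos h, zero_add]
    · rw [if_neg (not_le.2 h), if_neg (not_lt.2 h.le), if_neg h.ne', zero_add]
  rw [h2]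
  abel

omit [DecidableEq I] in
theorem nxt_eq {v : Fin n} (hv : lam v ≠ 0) (u : Fin n) :
    nxt M lam zeta v u = 0 ∨ ∃ u', u < u' ∧ nxt M lam zeta v u = ps M lam zeta v u' := by
  classical
  by_cases hu : (u : ℕ) + 1 < n
  · right
    refine ⟨⟨u + 1, hu⟩, Nat.lt_succ_self _, ?_⟩
    unfold ps nxt
    rw [if_neg hv]
    have h1 : ∀ w : Fin n, u < w ↔ (⟨u + 1, hu⟩ : Fin n) ≤ w := by
      intro w
      rw [Fin.lt_def, Fin.le_def]
      exact Nat.lt_iff_add_one_le
    simp only [h1]
  · left
    unfold nxt
    have h1 : ∀ w : Fin n, ¬ u < w := by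
      intro w hw
      have := w.2
      rw [Fin.lt_def] at hw
      omega
    rw [if_neg (h1 v), add_zero]
    refine sum_eq_zero fun w hw => ?_
    exact absurd (mem_filter.1 hw).2 (h1 w)

variable (hM : ∀ u v, M u v ≠ 0 → v < u) (hlam : ∀ v, lam v = zeta v + ∑ u, M u v • lam u)
  (hzeta : ∀ v, zeta v = 0 ∨ ∃ p : I, zeta v = Pi.single p 1)

include hM hlam in
omit [DecidableEq I] in
theorem ps_diag (v : Fin n) : ps M lam zeta v v = lam v := by
  classical
  unfold ps
  by_cases hv : lam v = 0
  · rw [if_pos hv, hv]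
  · rw [if_neg hv, if_pos le_rfl]
    conv_rhs => rw [hlam v]
    rw [add_comm]
    congr 1
    refine sum_subset (subset_univ _) fun w _ hw => ?_
    have h1 : M w v = 0 := by
      by_contra h
      exact hw (mem_filter.2 ⟨mem_univ _, (hM w v h).le⟩)
    rw [h1, zero_smul]

include hM hlam hzeta in
theorem isLP [Nonempty I] : IsLP (prog M lam zeta) := by
  classical
  intro k
  obtain ⟨v, u, rfl⟩ := exists_ix k
  set x₀ : I := Classical.arbitrary I
  have hb : ∀ (k : Idx n) (x : I), Before k (Sum.inl x : I ⊕ Idx n) :=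
    fun k x i h => by simp at h
  by_cases hv : lam v = 0
  · refine ⟨Sum.inl x₀, Sum.inl x₀, 0, 0, hb _ _, hb _ _, ?_⟩
    rw [prog_ix, ps, if_pos hv, zero_smul, add_zero]
  -- the previous partial sum
  obtain ⟨s, α, hs, hsα⟩ : ∃ (s : I ⊕ Idx n) (α : F), Before (ix v u) s ∧
      nxt M lam zeta v u = α • sym (prog M lam zeta) s := by
    rcases nxt_eq (M := M) (zeta := zeta) hv u with h | ⟨u', hu', h⟩
    · exact ⟨Sum.inl x₀, 0, hb _ _, by rw [h, zero_smul]⟩
    · refine ⟨Sum.inr (ix v u'), 1, fun i hi => ?_, ?_⟩
      · rw [← Sum.inr_injective hi]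
        exact ix_lt_right v hu'
      · rw [h, one_smul]
        rfl
  -- the new term
  obtain ⟨t, β, ht, htβ⟩ : ∃ (t : I ⊕ Idx n) (β : F), Before (ix v u) t ∧
      M u v • lam u + (if u = v then zeta v else 0) = β • sym (prog M lam zeta) t := by
    by_cases huv : u = v
    · have h0 : M u v = 0 := by
        by_contra h
        exact absurd (hM u v h) (by rw [huv]; exact lt_irrefl _)
      rw [h0, zero_smul, zero_add, if_pos huv]
      rcases hzeta v with h | ⟨p, h⟩
      · exact ⟨Sum.inl x₀, 0, hb _ _, by rw [h, zero_smul]⟩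
      · exact ⟨Sum.inl p, 1, hb _ _, by rw [h, one_smul]; rfl⟩
    · rw [if_neg huv, add_zero]
      by_cases h0 : M u v = 0
      · exact ⟨Sum.inl x₀, 0, hb _ _, by rw [h0, zero_smul, zero_smul]⟩
      · refine ⟨Sum.inr (ix u u), M u v, fun i hi => ?_, ?_⟩
        · rw [← Sum.inr_injective hi]
          exact ix_lt_of_lt (hM u v h0) _ _
        · change _ = M u v • prog M lam zeta (ix u u)
          rw [prog_ix, ps_diag hM hlam]
  refine ⟨s, t, α, β, hs, ht, ?_⟩
  rw [prog_ix, ps_step hv, hsα, add_assoc, htβ]

open Classical in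
/-- the nonzero terms at a node -/
noncomputable def Inc (M : Fin n → Fin n → F) (lam zeta : Fin n → I → F) (v : Fin n) :
    Finset (Fin n) :=
  univ.filter fun u => (M u v ≠ 0 ∧ lam u ≠ 0) ∨ (u = v ∧ zeta v ≠ 0)

omit [DecidableEq I] in
theorem mem_Inc {u v : Fin n} :
    u ∈ Inc M lam zeta v ↔ (M u v ≠ 0 ∧ lam u ≠ 0) ∨ (u = v ∧ zeta v ≠ 0) := by
  classical
  unfold Inc
  simp only [mem_filter, mem_univ, true_and]

include hM hlam hzeta in
theorem lead_imp {v u : Fin n} (h : Lead (prog M lam zeta) (ix v u)) :
    lam v ≠ 0 ∧ u ∈ Inc M lam zeta v ∧ ∃ w, u < w ∧ w ∈ Inc M lam zeta v := by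
  classical
  have hv : lam v ≠ 0 := by
    intro h0
    apply h.1
    rw [prog_ix, ps, if_pos h0]
  refine ⟨hv, ?_, ?_⟩
  · by_contra hu
    rw [mem_Inc, not_or, not_and_or, not_and_or, not_not, not_not, not_not] at hu
    have h1 : M u v • lam u = 0 := by
      rcases hu.1 with h1 | h1
      · rw [h1, zero_smul]
      · rw [h1, smul_zero]
    have h2 : (if u = v then zeta v else (0 : I → F)) = 0 := by
      rcases hu.2 with h2 | h2
      · rw [if_neg h2]
      · rw [h2, ite_self]
    have h3 : prog M lam zeta (ix v u) = nxt M lam zeta v u := by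
      rw [prog_ix, ps_step hv, h1, h2, add_zero, add_zero]
    rcases nxt_eq (M := M) (zeta := zeta) hv u with h4 | ⟨u', hu', h4⟩
    · exact h.1 (h3.trans h4)
    · refine h.2.2 (ix v u') (ix_lt_right v hu') 1 ?_
      rw [one_smul, h3, h4, prog_ix]
  · by_contra hcon
    push Not at hcon
    have h0 : nxt M lam zeta v u = 0 := by
      unfold nxt
      have h1 : ∑ w ∈ univ.filter (fun w => u < w), M w v • lam w = 0 := by
        refine sum_eq_zero fun w hw => ?_
        have h2 := hcon w (mem_filter.1 hw).2
        rw [mem_Inc, not_or, not_and_or, not_not, not_not] at h2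
        rcases h2.1 with h3 | h3
        · rw [h3, zero_smul]
        · rw [h3, smul_zero]
      rw [h1, zero_add]
      by_cases huv : u < v
      · rw [if_pos huv]
        have h2 := hcon v huv
        rw [mem_Inc, not_or, not_and_or, not_and_or, not_not, not_not, not_not] at h2
        exact h2.2.resolve_left (fun h => h rfl)
      · rw [if_neg huv]
    have h3 : prog M lam zeta (ix v u) = M u v • lam u + (if u = v then zeta v else 0) := by
      rw [prog_ix, ps_step hv, h0, zero_add]
    by_cases huv : u = v
    · have h1 : M u v = 0 := by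
        by_contra h'
        exact absurd (hM u v h') (by rw [huv]; exact lt_irrefl _)
      rw [h1, zero_smul, zero_add, if_pos huv] at h3
      rcases hzeta v with h4 | ⟨p, h4⟩
      · exact h.1 (h3.trans h4)
      · refine h.2.1 p 1 ?_
        rw [h3, h4, one_smul]
    · rw [if_neg huv, add_zero] at h3
      by_cases h1 : M u v = 0
      · rw [h1, zero_smul] at h3
        exact h.1 h3
      · refine h.2.2 (ix u u) (ix_lt_of_lt (hM u v h1) _ _) (M u v) ?_
        rw [h3, prog_ix, ps_diag hM hlam]

open Classical in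
include hM hlam hzeta in
/-- **The number of proper steps of the transposed program.** -/
theorem card_lead [Fintype I] (hz : (univ.filter fun v => zeta v ≠ 0).card ≤ Fintype.card I) :
    (LL (prog M lam zeta)).card + (univ.filter fun v => lam v ≠ 0).card ≤
      ∑ u ∈ univ.filter (fun v => lam v ≠ 0), (univ.filter fun v => M u v ≠ 0).card +
        Fintype.card I := by
  set U : Finset (Fin n) := univ.filter fun v => lam v ≠ 0 with hU
  -- leaders at a node
  let A : Fin n → Finset (Fin n) := fun v => univ.filter fun u => Lead (prog M lam zeta) (ix v u)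
  have h1 : (LL (prog M lam zeta)).card ≤ ∑ v ∈ U, (A v).card := by
    have h2 : LL (prog M lam zeta) ⊆ U.biUnion fun v => (A v).image (ix v) := by
      intro k hk
      obtain ⟨v, u, rfl⟩ := exists_ix k
      have h3 : Lead (prog M lam zeta) (ix v u) := (mem_filter.1 hk).2
      refine mem_biUnion.2 ⟨v, mem_filter.2 ⟨mem_univ _, (lead_imp hM hlam hzeta h3).1⟩, ?_⟩
      exact mem_image_of_mem _ (mem_filter.2 ⟨mem_univ _, h3⟩)
    refine (card_le_card h2).trans (card_biUnion_le.trans ?_)
    exact sum_le_sum fun v _ => card_image_le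
  have h2 : ∀ v ∈ U, (A v).card + 1 ≤ (Inc M lam zeta v).card := by
    intro v hv
    have hv0 : lam v ≠ 0 := (mem_filter.1 hv).2
    have hne : (Inc M lam zeta v).Nonempty := by
      rw [nonempty_iff_ne_empty]
      intro h0
      apply hv0
      have h3 : ∀ u, u ∉ Inc M lam zeta v := fun u => by rw [h0]; exact notMem_empty u
      rw [hlam v]
      have h4 : zeta v = 0 := by
        have := h3 v
        rw [mem_Inc, not_or, not_and_or, not_and_or, not_not, not_not, not_not] at this
        exact this.2.resolve_left (fun h => h rfl)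
      rw [h4, zero_add]
      refine sum_eq_zero fun u _ => ?_
      have := h3 u
      rw [mem_Inc, not_or, not_and_or, not_not, not_not] at this
      rcases this.1 with h5 | h5
      · rw [h5, zero_smul]
      · rw [h5, smul_zero]
    have h3 : A v ⊆ (Inc M lam zeta v).erase ((Inc M lam zeta v).max' hne) := by
      intro u hu
      obtain ⟨_, h4, w, hw, h5⟩ := lead_imp hM hlam hzeta (mem_filter.1 hu).2
      rw [mem_erase]
      refine ⟨fun h6 => ?_, h4⟩
      have h7 := le_max' _ w h5
      rw [← h6] at h7
      exact absurd hw (not_lt.2 h7)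
    have h4 := card_le_card h3
    have h5 := card_erase_add_one (max'_mem _ hne)
    omega
  have h3 : ∑ v ∈ U, (Inc M lam zeta v).card ≤
      ∑ u ∈ U, (univ.filter fun v => M u v ≠ 0).card + Fintype.card I := by
    have h4 : ∀ v, (Inc M lam zeta v).card ≤ (U.filter fun u => M u v ≠ 0).card +
        (if zeta v ≠ 0 then 1 else 0) := by
      intro v
      have h5 : Inc M lam zeta v ⊆ (U.filter fun u => M u v ≠ 0) ∪
          (if zeta v ≠ 0 then {v} else ∅) := by
        intro u hu
        rw [mem_Inc] at hu
        rw [mem_union]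
        rcases hu with h6 | h6
        · exact Or.inl (mem_filter.2 ⟨mem_filter.2 ⟨mem_univ _, h6.2⟩, h6.1⟩)
        · right
          rw [if_pos h6.2, mem_singleton]
          exact h6.1
      refine (card_le_card h5).trans ((card_union_le _ _).trans ?_)
      refine Nat.add_le_add_left ?_ _
      split_ifs <;> simp
    have h5 : ∑ v ∈ U, (Inc M lam zeta v).card ≤
        ∑ v, ((U.filter fun u => M u v ≠ 0).card + (if zeta v ≠ 0 then 1 else 0)) :=
      (sum_le_sum fun v _ => h4 v).trans (sum_le_sum_of_subset (subset_univ _))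
    refine h5.trans ?_
    rw [sum_add_distrib]
    refine Nat.add_le_add (le_of_eq ?_) ?_
    · simp only [card_filter]
      rw [sum_comm]
    · rw [← card_filter]
      exact hz
  have h4 : ∑ v ∈ U, (A v).card + U.card ≤ ∑ v ∈ U, (Inc M lam zeta v).card := by
    rw [card_eq_sum_ones, ← sum_add_distrib]
    exact sum_le_sum h2
  omega

end Pool.Agent.L0h35.Hg
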