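import Mathlib

set_option autoImplicit false

/-!
# The identity matrix as a sum of rank one matrices, in a field with an absolute value
-/

namespace Pool.Agent.L0h35.Mass

open Finset Matrix

variable {F : Type*} [Field F] (v : AbsoluteValue F ℝ)

theorem exists_minor {n r : ℕ} (E : Matrix (Fin n) (Fin r) F)
    (hE : LinearIndependent F E.col) : ∃ P : Fin r → Fin n, (E.submatrix P id).det ≠ 0 := by
  classical
  have h1 : E.rank = r := by
    rw [Matrix.rank_eq_finrank_span_cols]
    rw [finrank_span_eq_card hE, Fintype.card_fin]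
  have h3 : Module.finrank F (Submodule.span F (Set.range E.row)) = r := by
    rw [← Matrix.rank_eq_finrank_span_row, h1]
  have key : ∀ s : ℕ, Module.finrank F (Submodule.span F (Set.range E.row)) = s →
      ∃ f : Fin s → (Fin r → F), (∀ i, f i ∈ Set.range E.row) ∧ LinearIndependent F f := by
    rintro s rfl
    obtain ⟨f, hf1, _, hf3⟩ := Submodule.exists_fun_fin_finrank_span_eq F (Set.range E.row)
    exact ⟨f, hf1, hf3⟩
  obtain ⟨f, hf1, hf3⟩ := key r h3
  choose P hP using hf1
  refine ⟨P, ?_⟩
  have h4 : (E.submatrix P id).row = f := by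
    funext i
    rw [← hP i]
    rfl
  rw [← h4] at hf3
  have h5 : IsUnit (E.submatrix P id) := Matrix.linearIndependent_rows_iff_isUnit.1 hf3
  exact ((Matrix.isUnit_iff_isUnit_det _).1 h5).ne_zero

/-- A matrix of full column rank can be normalized: some rows form the identity matrix, and all
entries have absolute value at most one. -/
theorem exists_normal {n r : ℕ} (E : Matrix (Fin n) (Fin r) F)
    (hE : LinearIndependent F E.col) :
    ∃ (P : Fin r → Fin n) (G : Matrix (Fin r) (Fin r) F), Function.Injective P ∧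
      (∀ q' q, (E * G) (P q') q = if q' = q then 1 else 0) ∧ ∀ i q, v ((E * G) i q) ≤ 1 := by
  classical
  obtain ⟨P0, hP0⟩ := exists_minor E hE
  obtain ⟨P, -, hP⟩ := Finset.exists_max_image (univ : Finset (Fin r → Fin n))
    (fun P => v (E.submatrix P id).det) ⟨P0, mem_univ _⟩
  set D := E.submatrix P id with hD
  have hdet : D.det ≠ 0 := by
    intro h
    have h1 := hP P0 (mem_univ _)
    rw [h, map_zero] at h1
    exact absurd (v.pos hP0) (not_lt.2 h1)
  have hu : IsUnit D.det := isUnit_iff_ne_zero.2 hdet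
  have hentry : ∀ i q, (E * D⁻¹) i q = (D.det)⁻¹ * (D.updateRow q (E i)).det := by
    intro i q
    rw [Matrix.mul_apply]
    have h1 : ∀ s, D⁻¹ s q = (D.det)⁻¹ * D.adjugate s q := by
      intro s
      rw [Matrix.inv_def, Ring.inverse_eq_inv', Matrix.smul_apply, smul_eq_mul]
    simp_rw [h1]
    have h2 : (D.updateRow q (E i)).det = Matrix.cramer Dᵀ (E i) q := by
      rw [Matrix.cramer_transpose_apply]
    rw [h2, Matrix.cramer_eq_adjugate_mulVec, Matrix.mulVec, dotProduct, Finset.mul_sum]
    refine sum_congr rfl fun s _ => ?_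
    rw [← Matrix.adjugate_transpose, Matrix.transpose_apply]
    ring
  have hone : ∀ q' q, (E * D⁻¹) (P q') q = if q' = q then 1 else 0 := by
    intro q' q
    have h1 : (E * D⁻¹) (P q') q = (D * D⁻¹) q' q := by
      rw [Matrix.mul_apply, Matrix.mul_apply]
      rfl
    rw [h1, Matrix.mul_nonsing_inv _ hu, Matrix.one_apply]
  refine ⟨P, D⁻¹, ?_, hone, ?_⟩
  · intro q q' hqq
    have h1 := hone q q
    rw [hqq, hone q' q, if_pos rfl] at h1
    by_contra hne
    rw [if_neg (Ne.symm hne)] at h1
    exact zero_ne_one h1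
  · intro i q
    rw [hentry, map_mul, map_inv₀]
    have h1 : (D.updateRow q (E i)) = E.submatrix (Function.update P q i) id := by
      ext a b
      by_cases h : a = q
      · subst h
        simp
      · simp [h, hD]
    rw [h1, inv_mul_le_iff₀ (v.pos hdet), mul_one]
    exact hP _ (mem_univ _)

/-- If the identity matrix is a sum of matrices `x l ⊗ y l` then the sum over all `l` outside a set
`H` of the products of the `ℓ¹` norms of `x l` and `y l` is at least `n - |H|`. -/
theorem identity_bound {n : ℕ} {L : Type*} [Fintype L] [DecidableEq L] (x y : L → Fin n → F)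
    (hI : ∀ k k' : Fin n, ∑ l, x l k * y l k' = if k = k' then 1 else 0) (H : Finset L) :
    (n : ℝ) - H.card ≤ ∑ l ∈ Hᶜ, (∑ k, v (x l k)) * ∑ k, v (y l k) := by
  classical
  have hpos : 0 ≤ ∑ l ∈ Hᶜ, (∑ k, v (x l k)) * ∑ k, v (y l k) :=
    sum_nonneg fun l _ => mul_nonneg (sum_nonneg fun k _ => v.nonneg _)
      (sum_nonneg fun k _ => v.nonneg _)
  rcases le_total n H.card with hn | hn
  · have : (n : ℝ) ≤ H.card := by exact_mod_cast hn
    linarith
  -- the common kernel
  let φ : (Fin n → F) →ₗ[F] (H → F) :=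
    LinearMap.pi fun l => ∑ k, y l.1 k • LinearMap.proj k
  have hφ : ∀ s l, φ s l = ∑ k, y l.1 k * s k := by
    intro s l
    simp [φ]
  have hker : n - H.card ≤ Module.finrank F (LinearMap.ker φ) := by
    have h1 := LinearMap.finrank_range_add_finrank_ker φ
    have h2 : Module.finrank F (LinearMap.range φ) ≤ H.card := by
      refine (Submodule.finrank_le _).trans ?_
      simp
    rw [Module.finrank_fintype_fun_eq_card, Fintype.card_fin] at h1
    omega
  obtain ⟨r, hr⟩ : ∃ r, r = n - H.card := ⟨_, rfl⟩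
  rw [← hr] at hker
  obtain ⟨f, hf⟩ : ∃ f : Fin r → LinearMap.ker φ, LinearIndependent F f :=
    exists_linearIndependent_of_le_finrank hker
  set E : Matrix (Fin n) (Fin r) F := Matrix.of fun i q => (f q).1 i with hEdef
  have hE : LinearIndependent F E.col := by
    have h1 : E.col = fun q => ((f q).1) := by
      funext q i
      rfl
    rw [h1]
    exact LinearIndependent.map' hf (Submodule.subtype _) (Submodule.ker_subtype _)
  obtain ⟨P, G, hPinj, hG1, hG2⟩ := exists_normal v E hE
  set e := E * G with he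
  have hker' : ∀ l ∈ H, ∀ q, ∑ i, y l i * e i q = 0 := by
    intro l hl q
    have h1 : ∀ s, ∑ i, y l i * E i s = 0 := by
      intro s
      have h2 := (f s).2
      rw [LinearMap.mem_ker] at h2
      have h3 := congrFun h2 ⟨l, hl⟩
      rw [hφ] at h3
      exact h3
    simp_rw [he, Matrix.mul_apply, Finset.mul_sum]
    rw [Finset.sum_comm]
    refine sum_eq_zero fun s _ => ?_
    simp_rw [← mul_assoc]
    rw [← Finset.sum_mul, h1, zero_mul]
  have hdiag : ∀ q, (1 : F) = ∑ l ∈ Hᶜ, x l (P q) * ∑ i, y l i * e i q := by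
    intro q
    have h1 : ∑ l, x l (P q) * ∑ i, y l i * e i q = 1 := by
      simp_rw [Finset.mul_sum]
      rw [Finset.sum_comm]
      simp_rw [← mul_assoc]
      simp_rw [← Finset.sum_mul, hI]
      simp only [ite_mul, one_mul, zero_mul, Finset.sum_ite_eq, mem_univ, if_true]
      rw [hG1, if_pos rfl]
    rw [← h1, ← Finset.sum_add_sum_compl H]
    rw [Finset.sum_eq_zero (fun l hl => by rw [hker' l hl, mul_zero]), zero_add]
  have hbound : ∀ q, (1 : ℝ) ≤ ∑ l ∈ Hᶜ, v (x l (P q)) * ∑ i, v (y l i) := by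
    intro q
    have h1 : v 1 = (1 : ℝ) := map_one v
    rw [← h1]
    conv_lhs => rw [hdiag q]
    refine (v.sum_le _ _).trans ?_
    refine sum_le_sum fun l _ => ?_
    rw [map_mul]
    refine mul_le_mul_of_nonneg_left ?_ (v.nonneg _)
    refine (v.sum_le _ _).trans ?_
    refine sum_le_sum fun i _ => ?_
    rw [map_mul]
    exact mul_le_of_le_one_right (v.nonneg _) (hG2 i q)
  have h1 : (r : ℝ) ≤ ∑ q : Fin r, ∑ l ∈ Hᶜ, v (x l (P q)) * ∑ i, v (y l i) := by
    have h2 : (r : ℝ) = ∑ q : Fin r, (1 : ℝ) := by simp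
    rw [h2]
    exact sum_le_sum fun q _ => hbound q
  have h2 : ∑ q : Fin r, ∑ l ∈ Hᶜ, v (x l (P q)) * ∑ i, v (y l i) ≤
      ∑ l ∈ Hᶜ, (∑ k, v (x l k)) * ∑ k, v (y l k) := by
    rw [Finset.sum_comm]
    refine sum_le_sum fun l _ => ?_
    rw [← Finset.sum_mul]
    refine mul_le_mul_of_nonneg_right ?_ (sum_nonneg fun k _ => v.nonneg _)
    rw [← Finset.sum_image (f := fun k => v (x l k)) (s := univ) (g := P)
      (fun a _ b _ h => hPinj h)]
    exact Finset.sum_le_sum_of_subset_of_nonneg (subset_univ _) fun k _ _ => v.nonneg _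
  have h3 : ((r : ℕ) : ℝ) = (n : ℝ) - H.card := by
    rw [hr, Nat.cast_sub hn]
  rw [← h3]
  exact h1.trans h2

end Pool.Agent.L0h35.Mass
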