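import Mathlib

set_option autoImplicit false

/-!
# Light and heavy outputs of the products
-/

namespace Pool.Agent.L0h35.Mass

open Finset

theorem optimize {T M N : ℝ} (hT : 0 ≤ T) (hM : 0 ≤ M) (hN : 0 ≤ N)
    (h : ∀ s : ℝ, 0 < s → T * s ^ 2 ≤ N + s ^ 3 * M) : 4 * T ^ 3 ≤ 27 * N * M ^ 2 := by
  rcases hT.eq_or_lt with h0 | hT
  · rw [← h0]
    have : 0 ≤ 27 * N * M ^ 2 := by positivity
    simpa using this
  rcases hM.eq_or_lt with h0 | hM
  · exfalso
    have h1 := h (N / T + 1) (by positivity)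
    rw [← h0, mul_zero, add_zero] at h1
    have h2 : T * (N / T + 1) ^ 2 = N ^ 2 / T + 2 * N + T := by
      field_simp
      ring
    have h3 : 0 ≤ N ^ 2 / T := by positivity
    linarith
  · have h1 := h (2 * T / (3 * M)) (by positivity)
    have h2 : T * (2 * T / (3 * M)) ^ 2 = 4 * T ^ 3 / (9 * M ^ 2) := by
      field_simp
      ring
    have h3 : (2 * T / (3 * M)) ^ 3 * M = 8 * T ^ 3 / (27 * M ^ 2) := by
      field_simp
      ring
    rw [h2, h3] at h1
    have h4 : 4 * T ^ 3 / (27 * M ^ 2) ≤ N := by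
      have : 4 * T ^ 3 / (9 * M ^ 2) = 12 * T ^ 3 / (27 * M ^ 2) := by
        field_simp
        ring
      rw [this] at h1
      have h5 : 12 * T ^ 3 / (27 * M ^ 2) - 8 * T ^ 3 / (27 * M ^ 2) =
          4 * T ^ 3 / (27 * M ^ 2) := by ring
      linarith
    rw [div_le_iff₀ (by positivity)] at h4
    linarith

/-- The counting argument. `w l z` is the weight of the product `l` at the output `z = (i, j)`,
`a l i` and `b l j` are the norms of the parts of its factors in row `i` and in column `j`. -/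
theorem core {ι κ L : Type*} [Fintype ι] [Fintype κ] [Fintype L] [DecidableEq L]
    (Ω : Finset (ι × κ)) (n : ℕ) (w : L → ι × κ → ℝ) (a : L → ι → ℝ) (b : L → κ → ℝ)
    (U V : L → ℝ) (M : ℝ) (hw : ∀ l z, 0 ≤ w l z) (hU : ∀ l, 0 ≤ U l) (hV : ∀ l, 0 ≤ V l)
    (haU : ∀ l, ∑ i, a l i ^ 2 ≤ U l ^ 2) (hbV : ∀ l, ∑ j, b l j ^ 2 ≤ V l ^ 2)
    (hM : ∑ l, (∑ z ∈ Ω, w l z) * (U l * V l) ≤ M)
    (H : ∀ z ∈ Ω, ∀ S : Finset L, (n : ℝ) - S.card ≤ ∑ l ∈ Sᶜ, w l z * (a l z.1 * b l z.2)) :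
    4 * ((n : ℝ) * Ω.card) ^ 3 ≤ 27 * Fintype.card L * M ^ 2 := by
  classical
  have hM0 : 0 ≤ M := le_trans (sum_nonneg fun l _ =>
    mul_nonneg (sum_nonneg fun z _ => hw l z) (mul_nonneg (hU l) (hV l))) hM
  refine optimize (by positivity) hM0 (by positivity) fun s hs => ?_
  set W : L → ℝ := fun l => ∑ z ∈ Ω, w l z with hW
  have hW0 : ∀ l, 0 ≤ W l := fun l => sum_nonneg fun z _ => hw l z
  set S : ι × κ → Finset L := fun z => univ.filter fun l => s ^ 2 * W l < w l z with hS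
  have h1 : (n : ℝ) * Ω.card - ∑ z ∈ Ω, ((S z).card : ℝ) ≤
      ∑ z ∈ Ω, ∑ l ∈ (S z)ᶜ, w l z * (a l z.1 * b l z.2) := by
    have : (n : ℝ) * Ω.card - ∑ z ∈ Ω, ((S z).card : ℝ) = ∑ z ∈ Ω, ((n : ℝ) - (S z).card) := by
      rw [sum_sub_distrib, sum_const, nsmul_eq_mul]
      ring
    rw [this]
    exact sum_le_sum fun z hz => H z hz (S z)
  -- the number of heavy pairs
  have h2 : s ^ 2 * ∑ z ∈ Ω, ((S z).card : ℝ) ≤ Fintype.card L := by
    have h3 : ∑ z ∈ Ω, ((S z).card : ℝ) =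
        ∑ l, ((Ω.filter fun z => s ^ 2 * W l < w l z).card : ℝ) := by
      simp_rw [hS, card_filter, Nat.cast_sum]
      rw [sum_comm]
    rw [h3, mul_sum]
    have h4 : (Fintype.card L : ℝ) = ∑ l : L, (1 : ℝ) := by simp
    rw [h4]
    refine sum_le_sum fun l _ => ?_
    rcases (hW0 l).eq_or_lt with h0 | h0
    · have h5 : (Ω.filter fun z => s ^ 2 * W l < w l z) = ∅ := by
        refine filter_false_of_mem fun z hz => ?_
        rw [← h0, mul_zero, not_lt]
        have h6 : w l z ≤ W l := single_le_sum (f := fun z => w l z) (fun z _ => hw l z) hz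
        rw [h0]
        exact h6
      rw [h5]
      simp
    · have h5 : ((Ω.filter fun z => s ^ 2 * W l < w l z).card : ℝ) * (s ^ 2 * W l) ≤ W l := by
        calc ((Ω.filter fun z => s ^ 2 * W l < w l z).card : ℝ) * (s ^ 2 * W l)
            = ∑ z ∈ Ω.filter fun z => s ^ 2 * W l < w l z, s ^ 2 * W l := by
              rw [sum_const, nsmul_eq_mul]
          _ ≤ ∑ z ∈ Ω.filter fun z => s ^ 2 * W l < w l z, w l z :=
              sum_le_sum fun z hz => (mem_filter.1 hz).2.le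
          _ ≤ W l := sum_le_sum_of_subset_of_nonneg (filter_subset _ _) fun z _ _ => hw l z
      have h6 : (s ^ 2 * ((Ω.filter fun z => s ^ 2 * W l < w l z).card : ℝ)) * W l ≤ 1 * W l := by
        linarith
      exact le_of_mul_le_mul_right h6 h0
  -- the light part
  have h3 : ∑ z ∈ Ω, ∑ l ∈ (S z)ᶜ, w l z * (a l z.1 * b l z.2) ≤ s * M := by
    have h4 : ∑ z ∈ Ω, ∑ l ∈ (S z)ᶜ, w l z * (a l z.1 * b l z.2) =
        ∑ l, ∑ z ∈ Ω, (if s ^ 2 * W l < w l z then 0 else w l z) * (a l z.1 * b l z.2) := by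
      rw [sum_comm' (t' := univ) (s' := fun l => Ω.filter fun z => ¬ s ^ 2 * W l < w l z)
        (by intro z l; simp [hS, and_comm])]
      refine sum_congr rfl fun l _ => ?_
      rw [sum_filter]
      refine sum_congr rfl fun z _ => ?_
      split_ifs <;> simp_all
    rw [h4]
    refine le_trans ?_ (mul_le_mul_of_nonneg_left hM hs.le)
    rw [mul_sum]
    refine sum_le_sum fun l _ => ?_
    set wl : ι × κ → ℝ := fun z => if s ^ 2 * W l < w l z then 0 else w l z with hwl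
    have hwl0 : ∀ z, 0 ≤ wl z := by
      intro z
      simp only [hwl]
      split_ifs
      · exact le_rfl
      · exact hw l z
    have hcs := Finset.sum_mul_sq_le_sq_mul_sq Ω wl (fun z => a l z.1 * b l z.2)
    have h5 : ∑ z ∈ Ω, wl z ^ 2 ≤ (s * W l) ^ 2 := by
      calc ∑ z ∈ Ω, wl z ^ 2 ≤ ∑ z ∈ Ω, (s ^ 2 * W l) * w l z := by
            refine sum_le_sum fun z _ => ?_
            simp only [hwl]
            split_ifs with h
            · rw [zero_pow two_ne_zero]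
              exact mul_nonneg (mul_nonneg (sq_nonneg _) (hW0 l)) (hw l z)
            · rw [sq]
              exact mul_le_mul_of_nonneg_right (not_lt.1 h) (hw l z)
        _ = (s * W l) ^ 2 := by
            rw [← mul_sum]
            show s ^ 2 * W l * W l = _
            ring
    have h6 : ∑ z ∈ Ω, (a l z.1 * b l z.2) ^ 2 ≤ (U l * V l) ^ 2 := by
      calc ∑ z ∈ Ω, (a l z.1 * b l z.2) ^ 2 ≤ ∑ z : ι × κ, (a l z.1 * b l z.2) ^ 2 :=
            sum_le_sum_of_subset_of_nonneg (subset_univ _) fun z _ _ => sq_nonneg _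
        _ = (∑ i, a l i ^ 2) * ∑ j, b l j ^ 2 := by
            rw [Fintype.sum_prod_type, sum_mul_sum]
            refine sum_congr rfl fun i _ => sum_congr rfl fun j _ => ?_
            ring
        _ ≤ U l ^ 2 * V l ^ 2 := mul_le_mul (haU l) (hbV l)
            (sum_nonneg fun j _ => sq_nonneg _) (sq_nonneg _)
        _ = (U l * V l) ^ 2 := by ring
    have h7 : (∑ z ∈ Ω, wl z * (a l z.1 * b l z.2)) ^ 2 ≤ (s * (W l * (U l * V l))) ^ 2 := by
      refine hcs.trans ?_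
      calc (∑ z ∈ Ω, wl z ^ 2) * ∑ z ∈ Ω, (a l z.1 * b l z.2) ^ 2
          ≤ (s * W l) ^ 2 * (U l * V l) ^ 2 :=
            mul_le_mul h5 h6 (sum_nonneg fun z _ => sq_nonneg _) (sq_nonneg _)
        _ = _ := by ring
    have h8 : 0 ≤ s * (W l * (U l * V l)) :=
      mul_nonneg hs.le (mul_nonneg (hW0 l) (mul_nonneg (hU l) (hV l)))
    exact abs_le_of_sq_le_sq' h7 h8 |>.2
  have h4 : s ^ 2 * ((n : ℝ) * Ω.card - ∑ z ∈ Ω, ((S z).card : ℝ)) ≤ s ^ 2 * (s * M) :=
    mul_le_mul_of_nonneg_left (h1.trans h3) (by positivity)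
  calc (n : ℝ) * Ω.card * s ^ 2 = s ^ 2 * ((n : ℝ) * Ω.card - ∑ z ∈ Ω, ((S z).card : ℝ)) +
        s ^ 2 * ∑ z ∈ Ω, ((S z).card : ℝ) := by ring
    _ ≤ s ^ 2 * (s * M) + Fintype.card L := add_le_add h4 h2
    _ = Fintype.card L + s ^ 3 * M := by ring

end Pool.Agent.L0h35.Mass
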