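import Pool.Agent.H522R2.Circuit
import Pool.Agent.L0h35.MassCore
import Pool.Agent.L0h35.MassCount

set_option autoImplicit false

/-!
# The mass of a circuit for matrix multiplication
-/

namespace Pool.Agent.L0h35.Mass

open Finset Pool.Agent.H522R2 Pool.Agent.H522R2.Circuit

/-- The mass of a node: the value at `(1, …, 1)` of the polynomial that one gets at this node if
every constant is replaced by its absolute value. -/
noncomputable def mass {F V : Type*} [Field F] (v : AbsoluteValue F ℝ) (C : Circuit F V)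
    (k : Fin C.nodes) : ℝ :=
  match C.gate k with
  | .var _ => 1
  | .const c => v c
  | .add i j => mass v C (C.up k i) + mass v C (C.up k j)
  | .mul i j => mass v C (C.up k i) * mass v C (C.up k j)
termination_by (k : ℕ)
decreasing_by all_goals simp [up]

section Hats

variable {F X Y : Type*} [Field F] (v : AbsoluteValue F ℝ) (C : Circuit F (X ⊕ Y))

noncomputable def hc (k : Fin C.nodes) : ℝ :=
  match C.gate k with
  | .var _ => 0
  | .const c => v c
  | .add i j => hc (C.up k i) + hc (C.up k j)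
  | .mul i j => hc (C.up k i) * hc (C.up k j)
termination_by (k : ℕ)
decreasing_by all_goals simp [up]

open Classical in
noncomputable def hA (k : Fin C.nodes) (x : X) : ℝ :=
  match C.gate k with
  | .var (.inl z) => if z = x then 1 else 0
  | .var (.inr _) => 0
  | .const _ => 0
  | .add i j => hA (C.up k i) x + hA (C.up k j) x
  | .mul i j => hc v C (C.up k i) * hA (C.up k j) x + hc v C (C.up k j) * hA (C.up k i) x
termination_by (k : ℕ)
decreasing_by all_goals simp [up]

open Classical in
noncomputable def hB (k : Fin C.nodes) (y : Y) : ℝ :=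
  match C.gate k with
  | .var (.inr z) => if z = y then 1 else 0
  | .var (.inl _) => 0
  | .const _ => 0
  | .add i j => hB (C.up k i) y + hB (C.up k j) y
  | .mul i j => hc v C (C.up k i) * hB (C.up k j) y + hc v C (C.up k j) * hB (C.up k i) y
termination_by (k : ℕ)
decreasing_by all_goals simp [up]

/-- the weight with which the product at the gate `g` enters the bilinear part of node `k` -/
noncomputable def wt (g k : Fin C.nodes) : F :=
  match C.gate k with
  | .var _ => 0
  | .const _ => 0
  | .add i j => wt g (C.up k i) + wt g (C.up k j)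
  | .mul i j => jc C (C.up k i) * wt g (C.up k j) + jc C (C.up k j) * wt g (C.up k i) +
      if k = g then 1 else 0
termination_by (k : ℕ)
decreasing_by all_goals simp [up]

noncomputable def hw (g k : Fin C.nodes) : ℝ :=
  match C.gate k with
  | .var _ => 0
  | .const _ => 0
  | .add i j => hw g (C.up k i) + hw g (C.up k j)
  | .mul i j => hc v C (C.up k i) * hw g (C.up k j) + hc v C (C.up k j) * hw g (C.up k i) +
      if k = g then 1 else 0
termination_by (k : ℕ)
decreasing_by all_goals simp [up]

/-- the left input of a product gate -/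
def lf (g : Fin C.nodes) : Fin C.nodes :=
  match C.gate g with
  | .mul i _ => C.up g i
  | _ => g

/-- the right input of a product gate -/
def rg (g : Fin C.nodes) : Fin C.nodes :=
  match C.gate g with
  | .mul _ j => C.up g j
  | _ => g

theorem hc_nonneg (k : Fin C.nodes) : 0 ≤ hc v C k := by
  obtain ⟨k, hk⟩ := k
  induction k using Nat.strong_induction_on with
  | _ k ih =>
    rw [hc]
    cases h : C.gate ⟨k, hk⟩ with
    | var x => exact le_rfl
    | const c => exact v.nonneg _
    | add i j => exact add_nonneg (ih i i.2 (i.2.trans hk)) (ih j j.2 (j.2.trans hk))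
    | mul i j => exact mul_nonneg (ih i i.2 (i.2.trans hk)) (ih j j.2 (j.2.trans hk))

theorem hA_nonneg (k : Fin C.nodes) (x : X) : 0 ≤ hA v C k x := by
  obtain ⟨k, hk⟩ := k
  induction k using Nat.strong_induction_on with
  | _ k ih =>
    rw [hA]
    cases h : C.gate ⟨k, hk⟩ with
    | var z =>
      cases z with
      | inl z =>
        simp only
        split_ifs
        · exact zero_le_one
        · exact le_rfl
      | inr z => exact le_rfl
    | const c => exact le_rfl
    | add i j => exact add_nonneg (ih i i.2 (i.2.trans hk)) (ih j j.2 (j.2.trans hk))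
    | mul i j =>
      exact add_nonneg (mul_nonneg (hc_nonneg v C _) (ih j j.2 (j.2.trans hk)))
        (mul_nonneg (hc_nonneg v C _) (ih i i.2 (i.2.trans hk)))

theorem hB_nonneg (k : Fin C.nodes) (x : Y) : 0 ≤ hB v C k x := by
  obtain ⟨k, hk⟩ := k
  induction k using Nat.strong_induction_on with
  | _ k ih =>
    rw [hB]
    cases h : C.gate ⟨k, hk⟩ with
    | var z =>
      cases z with
      | inr z =>
        simp only
        split_ifs
        · exact zero_le_one
        · exact le_rfl
      | inl z => exact le_rfl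
    | const c => exact le_rfl
    | add i j => exact add_nonneg (ih i i.2 (i.2.trans hk)) (ih j j.2 (j.2.trans hk))
    | mul i j =>
      exact add_nonneg (mul_nonneg (hc_nonneg v C _) (ih j j.2 (j.2.trans hk)))
        (mul_nonneg (hc_nonneg v C _) (ih i i.2 (i.2.trans hk)))

theorem hw_nonneg (g k : Fin C.nodes) : 0 ≤ hw v C g k := by
  obtain ⟨k, hk⟩ := k
  induction k using Nat.strong_induction_on with
  | _ k ih =>
    rw [hw]
    cases h : C.gate ⟨k, hk⟩ with
    | var z => exact le_rfl
    | const c => exact le_rfl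
    | add i j => exact add_nonneg (ih i i.2 (i.2.trans hk)) (ih j j.2 (j.2.trans hk))
    | mul i j =>
      have h1 := mul_nonneg (hc_nonneg v C (C.up ⟨k, hk⟩ i)) (ih j j.2 (j.2.trans hk))
      have h2 := mul_nonneg (hc_nonneg v C (C.up ⟨k, hk⟩ j)) (ih i i.2 (i.2.trans hk))
      simp only [up] at *
      split_ifs <;> linarith

theorem jc_le (k : Fin C.nodes) : v (jc C k) ≤ hc v C k := by
  obtain ⟨k, hk⟩ := k
  induction k using Nat.strong_induction_on with
  | _ k ih =>
    rw [hc, jc]
    cases h : C.gate ⟨k, hk⟩ with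
    | var x => simp
    | const c => exact le_rfl
    | add i j =>
      exact (v.add_le _ _).trans (add_le_add (ih i i.2 (i.2.trans hk)) (ih j j.2 (j.2.trans hk)))
    | mul i j =>
      simp only
      rw [map_mul]
      exact mul_le_mul (ih i i.2 (i.2.trans hk)) (ih j j.2 (j.2.trans hk)) (v.nonneg _)
        (hc_nonneg v C _)

theorem jA_le [DecidableEq X] (k : Fin C.nodes) (x : X) :
    v (jA C k (Pi.single x 1)) ≤ hA v C k x := by
  obtain ⟨k, hk⟩ := k
  induction k using Nat.strong_induction_on with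
  | _ k ih =>
    rw [hA, jA]
    cases h : C.gate ⟨k, hk⟩ with
    | var z =>
      cases z with
      | inl z =>
        simp only [LinearMap.proj_apply, Pi.single_apply]
        split_ifs <;> simp
      | inr z => simp
    | const c => simp
    | add i j =>
      simp only [LinearMap.add_apply]
      exact (v.add_le _ _).trans (add_le_add (ih i i.2 (i.2.trans hk)) (ih j j.2 (j.2.trans hk)))
    | mul i j =>
      simp only [LinearMap.add_apply, LinearMap.smul_apply, smul_eq_mul]
      refine (v.add_le _ _).trans (add_le_add ?_ ?_)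
      · rw [map_mul]
        exact mul_le_mul (jc_le v C _) (ih j j.2 (j.2.trans hk)) (v.nonneg _) (hc_nonneg v C _)
      · rw [map_mul]
        exact mul_le_mul (jc_le v C _) (ih i i.2 (i.2.trans hk)) (v.nonneg _) (hc_nonneg v C _)

theorem jB_le [DecidableEq Y] (k : Fin C.nodes) (x : Y) :
    v (jB C k (Pi.single x 1)) ≤ hB v C k x := by
  obtain ⟨k, hk⟩ := k
  induction k using Nat.strong_induction_on with
  | _ k ih =>
    rw [hB, jB]
    cases h : C.gate ⟨k, hk⟩ with
    | var z =>
      cases z with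
      | inr z =>
        simp only [LinearMap.proj_apply, Pi.single_apply]
        split_ifs <;> simp
      | inl z => simp
    | const c => simp
    | add i j =>
      simp only [LinearMap.add_apply]
      exact (v.add_le _ _).trans (add_le_add (ih i i.2 (i.2.trans hk)) (ih j j.2 (j.2.trans hk)))
    | mul i j =>
      simp only [LinearMap.add_apply, LinearMap.smul_apply, smul_eq_mul]
      refine (v.add_le _ _).trans (add_le_add ?_ ?_)
      · rw [map_mul]
        exact mul_le_mul (jc_le v C _) (ih j j.2 (j.2.trans hk)) (v.nonneg _) (hc_nonneg v C _)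
      · rw [map_mul]
        exact mul_le_mul (jc_le v C _) (ih i i.2 (i.2.trans hk)) (v.nonneg _) (hc_nonneg v C _)

theorem wt_le (g k : Fin C.nodes) : v (wt C g k) ≤ hw v C g k := by
  obtain ⟨k, hk⟩ := k
  induction k using Nat.strong_induction_on with
  | _ k ih =>
    rw [hw, wt]
    cases h : C.gate ⟨k, hk⟩ with
    | var z => simp
    | const c => simp
    | add i j =>
      exact (v.add_le _ _).trans (add_le_add (ih i i.2 (i.2.trans hk)) (ih j j.2 (j.2.trans hk)))
    | mul i j =>
      simp only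
      refine (v.add_le _ _).trans (add_le_add ((v.add_le _ _).trans (add_le_add ?_ ?_)) ?_)
      · rw [map_mul]
        exact mul_le_mul (jc_le v C _) (ih j j.2 (j.2.trans hk)) (v.nonneg _) (hc_nonneg v C _)
      · rw [map_mul]
        exact mul_le_mul (jc_le v C _) (ih i i.2 (i.2.trans hk)) (v.nonneg _) (hc_nonneg v C _)
      · split_ifs <;> simp

theorem wt_eq_zero (g k : Fin C.nodes) (hg : ∀ i j, C.gate g ≠ Gate.mul i j) : wt C g k = 0 := by
  obtain ⟨k, hk⟩ := k
  induction k using Nat.strong_induction_on with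
  | _ k ih =>
    rw [wt]
    cases h : C.gate ⟨k, hk⟩ with
    | var z => rfl
    | const c => rfl
    | add i j =>
      simp only [up]
      rw [ih i i.2 (i.2.trans hk), ih j j.2 (j.2.trans hk), add_zero]
    | mul i j =>
      simp only [up]
      rw [ih i i.2 (i.2.trans hk), ih j j.2 (j.2.trans hk), if_neg]
      · ring
      · rintro rfl
        exact hg _ _ h

/-- the bilinear part of a node is the weighted sum of the products at the product gates -/
theorem jQ_eq (a : X → F) (b : Y → F) (k : Fin C.nodes) :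
    jQ C a b k = ∑ g, wt C g k *
      (jA C (lf C g) a * jB C (rg C g) b + jA C (rg C g) a * jB C (lf C g) b) := by
  obtain ⟨k, hk⟩ := k
  induction k using Nat.strong_induction_on with
  | _ k ih =>
    rw [jQ]
    simp_rw [wt.eq_1 (k := ⟨k, hk⟩)]
    cases h : C.gate ⟨k, hk⟩ with
    | var z => simp
    | const c => simp
    | add i j =>
      simp only
      rw [show jQ C a b (C.up ⟨k, hk⟩ i) = _ from ih i i.2 (i.2.trans hk),
        show jQ C a b (C.up ⟨k, hk⟩ j) = _ from ih j j.2 (j.2.trans hk), ← sum_add_distrib]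
      refine sum_congr rfl fun g _ => ?_
      simp only [up]
      ring
    | mul i j =>
      simp only
      rw [show jQ C a b (C.up ⟨k, hk⟩ i) = _ from ih i i.2 (i.2.trans hk),
        show jQ C a b (C.up ⟨k, hk⟩ j) = _ from ih j j.2 (j.2.trans hk)]
      have h1 : jA C (C.up ⟨k, hk⟩ i) a * jB C (C.up ⟨k, hk⟩ j) b +
          jA C (C.up ⟨k, hk⟩ j) a * jB C (C.up ⟨k, hk⟩ i) b =
          ∑ g, (if (⟨k, hk⟩ : Fin C.nodes) = g then 1 else 0) *
            (jA C (lf C g) a * jB C (rg C g) b + jA C (rg C g) a * jB C (lf C g) b) := by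
        simp only [ite_mul, one_mul, zero_mul, Finset.sum_ite_eq, mem_univ, if_true]
        rw [lf, rg, h]
      rw [h1, mul_sum, mul_sum, ← sum_add_distrib, ← sum_add_distrib]
      refine sum_congr rfl fun g _ => ?_
      simp only [up]
      ring

theorem mass_ge [Fintype X] [Fintype Y] (k : Fin C.nodes) :
    hc v C k + ∑ x, hA v C k x + ∑ y, hB v C k y +
      ∑ g, hw v C g k * ((∑ x, hA v C (lf C g) x) * (∑ y, hB v C (rg C g) y) +
        (∑ x, hA v C (rg C g) x) * ∑ y, hB v C (lf C g) y) ≤ mass v C k := by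
  obtain ⟨k, hk⟩ := k
  induction k using Nat.strong_induction_on with
  | _ k ih =>
    rw [mass, hc]
    simp_rw [hA.eq_1 (k := ⟨k, hk⟩), hB.eq_1 (k := ⟨k, hk⟩), hw.eq_1 (k := ⟨k, hk⟩)]
    cases h : C.gate ⟨k, hk⟩ with
    | var z =>
      classical
      cases z with
      | inl z => simp [Finset.filter_eq]
      | inr z => simp [Finset.filter_eq]
    | const c => simp
    | add i j =>
      simp only
      have h1 := ih i i.2 (i.2.trans hk)
      have h2 := ih j j.2 (j.2.trans hk)
      refine le_trans (le_of_eq ?_) (add_le_add h1 h2)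
      simp only [up, add_mul, sum_add_distrib]
      ring
    | mul i j =>
      simp only
      have h1 := ih i i.2 (i.2.trans hk)
      have h2 := ih j j.2 (j.2.trans hk)
      set T : Fin C.nodes → ℝ := fun g =>
        ((∑ x, hA v C (lf C g) x) * (∑ y, hB v C (rg C g) y) +
        (∑ x, hA v C (rg C g) x) * ∑ y, hB v C (lf C g) y) with hT
      have hT0 : ∀ g, 0 ≤ T g := fun g => add_nonneg
        (mul_nonneg (sum_nonneg fun x _ => hA_nonneg v C _ x)
          (sum_nonneg fun x _ => hB_nonneg v C _ x))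
        (mul_nonneg (sum_nonneg fun x _ => hA_nonneg v C _ x)
          (sum_nonneg fun x _ => hB_nonneg v C _ x))
      have hTk : T ⟨k, hk⟩ = (∑ x, hA v C (C.up ⟨k, hk⟩ i) x) *
          (∑ y, hB v C (C.up ⟨k, hk⟩ j) y) +
          (∑ x, hA v C (C.up ⟨k, hk⟩ j) x) * ∑ y, hB v C (C.up ⟨k, hk⟩ i) y := by
        simp only [hT]
        rw [lf, rg, h]
      have h3 : ∑ g, (hc v C (C.up ⟨k, hk⟩ i) * hw v C g (C.up ⟨k, hk⟩ j) +
          hc v C (C.up ⟨k, hk⟩ j) * hw v C g (C.up ⟨k, hk⟩ i) +
          if (⟨k, hk⟩ : Fin C.nodes) = g then 1 else 0) * T g =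
          hc v C (C.up ⟨k, hk⟩ i) * ∑ g, hw v C g (C.up ⟨k, hk⟩ j) * T g +
          hc v C (C.up ⟨k, hk⟩ j) * ∑ g, hw v C g (C.up ⟨k, hk⟩ i) * T g + T ⟨k, hk⟩ := by
        simp only [add_mul, sum_add_distrib, ite_mul, one_mul, zero_mul, Finset.sum_ite_eq,
          mem_univ, if_true, mul_sum, mul_assoc]
      rw [h3, hTk]
      change hc v C (C.up ⟨k, hk⟩ i) + ∑ x, hA v C (C.up ⟨k, hk⟩ i) x +
        ∑ y, hB v C (C.up ⟨k, hk⟩ i) y + ∑ g, hw v C g (C.up ⟨k, hk⟩ i) * T g ≤ _ at h1
      change hc v C (C.up ⟨k, hk⟩ j) + ∑ x, hA v C (C.up ⟨k, hk⟩ j) x +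
        ∑ y, hB v C (C.up ⟨k, hk⟩ j) y + ∑ g, hw v C g (C.up ⟨k, hk⟩ j) * T g ≤ _ at h2
      simp only [sum_add_distrib, ← mul_sum]
      have p1 := hc_nonneg v C (C.up ⟨k, hk⟩ i)
      have p2 := hc_nonneg v C (C.up ⟨k, hk⟩ j)
      have p3 : 0 ≤ ∑ x, hA v C (C.up ⟨k, hk⟩ i) x := sum_nonneg fun x _ => hA_nonneg v C _ x
      have p4 : 0 ≤ ∑ x, hA v C (C.up ⟨k, hk⟩ j) x := sum_nonneg fun x _ => hA_nonneg v C _ x
      have p5 : 0 ≤ ∑ x, hB v C (C.up ⟨k, hk⟩ i) x := sum_nonneg fun x _ => hB_nonneg v C _ x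
      have p6 : 0 ≤ ∑ x, hB v C (C.up ⟨k, hk⟩ j) x := sum_nonneg fun x _ => hB_nonneg v C _ x
      have p7 : 0 ≤ ∑ g, hw v C g (C.up ⟨k, hk⟩ i) * T g :=
        sum_nonneg fun g _ => mul_nonneg (hw_nonneg v C _ _) (hT0 g)
      have p8 : 0 ≤ ∑ g, hw v C g (C.up ⟨k, hk⟩ j) * T g :=
        sum_nonneg fun g _ => mul_nonneg (hw_nonneg v C _ _) (hT0 g)
      set c1 := hc v C (C.up ⟨k, hk⟩ i)
      set c2 := hc v C (C.up ⟨k, hk⟩ j)
      set a1 := ∑ x, hA v C (C.up ⟨k, hk⟩ i) x
      set a2 := ∑ x, hA v C (C.up ⟨k, hk⟩ j) x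
      set b1 := ∑ x, hB v C (C.up ⟨k, hk⟩ i) x
      set b2 := ∑ x, hB v C (C.up ⟨k, hk⟩ j) x
      set q1 := ∑ g, hw v C g (C.up ⟨k, hk⟩ i) * T g
      set q2 := ∑ g, hw v C g (C.up ⟨k, hk⟩ j) * T g
      have h4 := mul_le_mul h1 h2 (by positivity) (le_trans (by positivity) h1)
      refine le_trans ?_ h4
      have e : (c1 + a1 + b1 + q1) * (c2 + a2 + b2 + q2) = (c1 * c2 + (c1 * a2 + c2 * a1) +
        (c1 * b2 + c2 * b1) + (c1 * q2 + c2 * q1 + (a1 * b2 + a2 * b1))) +
        (a1 * a2 + b1 * b2 + a1 * q2 + b1 * q2 + q1 * a2 + q1 * b2 + q1 * q2) := by ring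
      rw [e]
      have : 0 ≤ a1 * a2 + b1 * b2 + a1 * q2 + b1 * q2 + q1 * a2 + q1 * b2 + q1 * q2 := by
        positivity
      linarith

end Hats

end Pool.Agent.L0h35.Mass
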