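import Pool.Agent.L0h35.MassCount

set_option autoImplicit false

/-!
# Bilinear algorithms: Frobenius norms of the factors
-/

namespace Pool.Agent.L0h35.Mass

open Finset

variable {𝕜 : Type*} [RCLike 𝕜]

/-- If the identity matrix is a sum of matrices `x l ⊗ y l` then the sum over all `l` outside a set
`H` of the products of the Euclidean norms of `x l` and `y l` is at least `n - |H|`. -/
theorem identity_bound_l2 {n : ℕ} {L : Type*} [Fintype L] [DecidableEq L] (x y : L → Fin n → 𝕜)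
    (hI : ∀ k k' : Fin n, ∑ l, x l k * y l k' = if k = k' then 1 else 0) (H : Finset L) :
    (n : ℝ) - H.card ≤ ∑ l ∈ Hᶜ, √(∑ k, ‖x l k‖ ^ 2) * √(∑ k, ‖y l k‖ ^ 2) := by
  classical
  let φ : EuclideanSpace 𝕜 (Fin n) →ₗ[𝕜] (H → 𝕜) :=
    LinearMap.pi fun l => ∑ k, y l.1 k • (EuclideanSpace.projₗ k)
  have hφ : ∀ s l, φ s l = ∑ k, y l.1 k * s k := by
    intro s l
    simp [φ]
  obtain ⟨E, hE⟩ : ∃ E, E = LinearMap.ker φ := ⟨_, rfl⟩
  have hker : (n : ℝ) - H.card ≤ Module.finrank 𝕜 E := by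
    have h1 := LinearMap.finrank_range_add_finrank_ker φ
    have h2 : Module.finrank 𝕜 (LinearMap.range φ) ≤ H.card := by
      refine (Submodule.finrank_le _).trans ?_
      simp
    rw [finrank_euclideanSpace, Fintype.card_fin, ← hE] at h1
    have h3 : (n : ℝ) ≤ H.card + Module.finrank 𝕜 E := by
      have : n ≤ H.card + Module.finrank 𝕜 E := by omega
      exact_mod_cast this
    linarith
  let e := stdOrthonormalBasis 𝕜 E
  let e' : Fin (Module.finrank 𝕜 E) → EuclideanSpace 𝕜 (Fin n) := fun q => (e q : _)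
  have he' : Orthonormal 𝕜 e' := e.orthonormal.comp_linearIsometry E.subtypeₗᵢ
  let X : L → EuclideanSpace 𝕜 (Fin n) := fun l => WithLp.toLp 2 (x l)
  let Y : L → EuclideanSpace 𝕜 (Fin n) := fun l => WithLp.toLp 2 (fun k => star (y l k))
  have hY : ∀ l q, inner 𝕜 (Y l) (e' q) = ∑ k, y l k * e' q k := by
    intro l q
    rw [PiLp.inner_apply]
    refine sum_congr rfl fun k _ => ?_
    simp [Y, mul_comm]
  have hX : ∀ l q, inner 𝕜 (e' q) (X l) = ∑ k, star (e' q k) * x l k := by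
    intro l q
    rw [PiLp.inner_apply]
    refine sum_congr rfl fun k _ => ?_
    simp [X, mul_comm]
  have hker' : ∀ l ∈ H, ∀ q, inner 𝕜 (Y l) (e' q) = 0 := by
    intro l hl q
    rw [hY]
    have h2 : e' q ∈ LinearMap.ker φ := by
      rw [← hE]
      exact (e q).2
    rw [LinearMap.mem_ker] at h2
    have h3 := congrFun h2 ⟨l, hl⟩
    rw [hφ] at h3
    exact h3
  have hdiag : ∀ q, (1 : 𝕜) = ∑ l ∈ Hᶜ, inner 𝕜 (Y l) (e' q) * inner 𝕜 (e' q) (X l) := by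
    intro q
    have h1 : ∑ l, inner 𝕜 (Y l) (e' q) * inner 𝕜 (e' q) (X l) = 1 := by
      have h2 : inner 𝕜 (e' q) (e' q) = (1 : 𝕜) := by
        rw [inner_self_eq_norm_sq_to_K, he'.1 q]
        simp
      rw [← h2, PiLp.inner_apply]
      simp_rw [hX, hY]
      have h3 : ∀ l, (∑ k, y l k * e' q k) * ∑ k, star (e' q k) * x l k =
          ∑ k, ∑ k', star (e' q k) * ((x l k * y l k') * e' q k') := by
        intro l
        rw [mul_comm, sum_mul_sum]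
        refine sum_congr rfl fun k _ => sum_congr rfl fun k' _ => ?_
        ring
      simp_rw [h3]
      rw [sum_comm]
      refine sum_congr rfl fun k _ => ?_
      rw [sum_comm]
      simp_rw [← mul_sum, ← sum_mul, hI]
      simp [RCLike.conj_mul]
    rw [← h1, ← Finset.sum_add_sum_compl H]
    rw [Finset.sum_eq_zero (fun l hl => by rw [hker' l hl, zero_mul]), zero_add]
  have hnX : ∀ l, ‖X l‖ = √(∑ k, ‖x l k‖ ^ 2) := by
    intro l
    rw [EuclideanSpace.norm_eq]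
  have hnY : ∀ l, ‖Y l‖ = √(∑ k, ‖y l k‖ ^ 2) := by
    intro l
    rw [EuclideanSpace.norm_eq]
    simp [Y]
  have h1 : ((Module.finrank 𝕜 E : ℕ) : ℝ) ≤
      ∑ q, ∑ l ∈ Hᶜ, ‖(inner 𝕜 (Y l) (e' q) : 𝕜)‖ * ‖(inner 𝕜 (e' q) (X l) : 𝕜)‖ := by
    have h2 : ((Module.finrank 𝕜 E : ℕ) : ℝ) = ∑ q : Fin (Module.finrank 𝕜 E), (1 : ℝ) := by
      simp
    rw [h2]
    refine sum_le_sum fun q _ => ?_
    have h3 : ‖(1 : 𝕜)‖ = 1 := norm_one
    rw [← h3]
    conv_lhs => rw [hdiag q]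
    refine (norm_sum_le _ _).trans (sum_le_sum fun l _ => ?_)
    rw [norm_mul]
  refine (hker.trans h1).trans ?_
  rw [sum_comm]
  refine sum_le_sum fun l _ => ?_
  rw [← hnX, ← hnY]
  have h2 := Finset.sum_mul_sq_le_sq_mul_sq (univ : Finset (Fin (Module.finrank 𝕜 E)))
    (fun q => ‖(inner 𝕜 (Y l) (e' q) : 𝕜)‖) (fun q => ‖(inner 𝕜 (e' q) (X l) : 𝕜)‖)
  have h3 : ∑ q, ‖(inner 𝕜 (e' q) (X l) : 𝕜)‖ ^ 2 ≤ ‖X l‖ ^ 2 :=
    he'.sum_inner_products_le (X l)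
  have h4 : ∑ q, ‖(inner 𝕜 (Y l) (e' q) : 𝕜)‖ ^ 2 ≤ ‖Y l‖ ^ 2 := by
    refine le_trans (le_of_eq ?_) (he'.sum_inner_products_le (Y l) (s := univ))
    refine sum_congr rfl fun q _ => ?_
    rw [norm_inner_symm]
  have h5 : (∑ q, ‖(inner 𝕜 (Y l) (e' q) : 𝕜)‖ * ‖(inner 𝕜 (e' q) (X l) : 𝕜)‖) ^ 2 ≤
      (‖X l‖ * ‖Y l‖) ^ 2 := by
    refine h2.trans ((mul_le_mul h4 h3 (by positivity) (by positivity)).trans (le_of_eq ?_))
    ring
  exact (abs_le_of_sq_le_sq' h5 (by positivity)).2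

/-- Bilinear algorithms. -/
theorem bilinear_bound {m n p : ℕ} {L : Type*} [Fintype L] (U : L → Fin m → Fin n → 𝕜)
    (V : L → Fin n → Fin p → 𝕜) (W : L → Fin m → Fin p → 𝕜) (Ω : Finset (Fin m × Fin p))
    (hA : ∀ z ∈ Ω, ∀ k k' : Fin n,
      ∑ l, W l z.1 z.2 * U l z.1 k * V l k' z.2 = if k = k' then 1 else 0) :
    4 * ((n : ℝ) * Ω.card) ^ 3 ≤ 27 * Fintype.card L *
      (∑ l, (∑ z ∈ Ω, ‖W l z.1 z.2‖) *
        (√(∑ i, ∑ k, ‖U l i k‖ ^ 2) * √(∑ k, ∑ j, ‖V l k j‖ ^ 2))) ^ 2 := by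
  classical
  refine core Ω n (fun l z => ‖W l z.1 z.2‖) (fun l i => √(∑ k, ‖U l i k‖ ^ 2))
    (fun l j => √(∑ k, ‖V l k j‖ ^ 2)) _ _ _ (fun l z => norm_nonneg _)
    (fun l => Real.sqrt_nonneg _) (fun l => Real.sqrt_nonneg _) ?_ ?_ le_rfl ?_
  · intro l
    rw [Real.sq_sqrt (by positivity)]
    refine sum_le_sum fun i _ => ?_
    rw [Real.sq_sqrt (by positivity)]
  · intro l
    rw [Real.sq_sqrt (by positivity), sum_comm]
    refine sum_le_sum fun i _ => ?_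
    rw [Real.sq_sqrt (by positivity)]
  · intro z hz S
    refine (identity_bound_l2 (fun l k => W l z.1 z.2 * U l z.1 k) (fun l k => V l k z.2)
      (hA z hz) S).trans (sum_le_sum fun l _ => ?_)
    rw [← mul_assoc]
    refine mul_le_mul_of_nonneg_right (le_of_eq ?_) (Real.sqrt_nonneg _)
    have h1 : ∑ k, ‖W l z.1 z.2 * U l z.1 k‖ ^ 2 = ‖W l z.1 z.2‖ ^ 2 * ∑ k, ‖U l z.1 k‖ ^ 2 := by
      rw [mul_sum]
      refine sum_congr rfl fun k _ => ?_
      rw [norm_mul, mul_pow]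
    rw [h1, Real.sqrt_mul (by positivity), Real.sqrt_sq (norm_nonneg _)]

end Pool.Agent.L0h35.Mass
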