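import Pool.Agent.L0h35.MassCircuit

set_option autoImplicit false

/-!
# The mass of a circuit for matrix multiplication: the lower bound
-/

namespace Pool.Agent.L0h35.Mass

open Finset Pool.Agent.H522R2 Pool.Agent.H522R2.Circuit

variable {F : Type*} [Field F] (v : AbsoluteValue F ℝ)

/-- a linear functional is given by its values at the unit vectors -/
theorem sum_le_mass {X : Type*} [Fintype X] (f : X → ℝ) (hf : ∀ x, 0 ≤ f x) :
    ∑ x, f x ^ 2 ≤ (∑ x, f x) ^ 2 := Finset.sum_sq_le_sq_sum_of_nonneg fun x _ => hf x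

theorem ev_product {m n p : ℕ} (a : Fin m × Fin n → F) (b : Fin n × Fin p → F) (i : Fin m)
    (j : Fin p) :
    (ev a b (∑ k : Fin n, MvPolynomial.X (Sum.inl (i, k)) * MvPolynomial.X (Sum.inr (k, j)))).snd.snd
      = ∑ k : Fin n, a (i, k) * b (k, j) := by
  rw [map_sum, TrivSqZeroExt.snd_sum, TrivSqZeroExt.snd_sum]
  refine sum_congr rfl fun k _ => ?_
  simp [ev]

open Classical in
theorem sub_gates {V M : Type*} [AddCommMonoid M] (C : Circuit F V) (f : Fin C.nodes → M) :
    ∑ g ∈ univ.filter (fun g => C.IsNonscalar g), f g =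
      ∑ g : {g : Fin C.nodes // C.IsNonscalar g}, f g.1 :=
  Finset.sum_subtype _ (fun g => by simp) _

theorem circuit_bound {m n p : ℕ} (C : Circuit F ((Fin m × Fin n) ⊕ (Fin n × Fin p)))
    (Ω : Finset (Fin m × Fin p)) (out : Fin m × Fin p → Fin C.nodes)
    (hC : ∀ z ∈ Ω, C.poly (out z) =
      ∑ k : Fin n, MvPolynomial.X (Sum.inl (z.1, k)) * MvPolynomial.X (Sum.inr (k, z.2))) :
    2 * ((n : ℝ) * Ω.card) ^ 3 ≤
      27 * C.nonscalarCount * (∑ z ∈ Ω, mass v C (out z)) ^ 2 := by
  classical
  set G := {g : Fin C.nodes // C.IsNonscalar g} with hG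
  -- the two products at a gate
  let c1 : G × Bool → Fin C.nodes := fun l => if l.2 then lf C l.1.1 else rg C l.1.1
  let c2 : G × Bool → Fin C.nodes := fun l => if l.2 then rg C l.1.1 else lf C l.1.1
  have key := core (L := G × Bool) Ω n (fun l z => hw v C l.1.1 (out z))
    (fun l i => ∑ k, hA v C (c1 l) (i, k)) (fun l j => ∑ k, hB v C (c2 l) (k, j))
    (fun l => ∑ x, hA v C (c1 l) x) (fun l => ∑ y, hB v C (c2 l) y)
    (∑ z ∈ Ω, mass v C (out z)) (fun l z => hw_nonneg v C _ _)
    (fun l => sum_nonneg fun x _ => hA_nonneg v C _ x)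
    (fun l => sum_nonneg fun x _ => hB_nonneg v C _ x) ?_ ?_ ?_ ?_
  · have h1 : (Fintype.card (G × Bool) : ℝ) = 2 * C.nonscalarCount := by
      rw [Fintype.card_prod, Fintype.card_bool, Circuit.nonscalarCount, Nat.card_eq_fintype_card]
      push_cast
      ring
    rw [h1] at key
    linarith
  · intro l
    refine (sum_le_mass _ fun i => sum_nonneg fun k _ => hA_nonneg v C _ _).trans (le_of_eq ?_)
    rw [Fintype.sum_prod_type]
  · intro l
    refine (sum_le_mass _ fun i => sum_nonneg fun k _ => hB_nonneg v C _ _).trans (le_of_eq ?_)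
    rw [Fintype.sum_prod_type_right]
  · -- the mass
    have h1 : ∀ z, ∑ l : G × Bool, hw v C l.1.1 (out z) *
        ((∑ x, hA v C (c1 l) x) * ∑ y, hB v C (c2 l) y) ≤ mass v C (out z) := by
      intro z
      refine le_trans ?_ (mass_ge v C (out z))
      rw [Fintype.sum_prod_type]
      have h2 : ∀ g : G, ∑ β : Bool, hw v C g.1 (out z) *
          ((∑ x, hA v C (c1 (g, β)) x) * ∑ y, hB v C (c2 (g, β)) y) =
          hw v C g.1 (out z) * ((∑ x, hA v C (lf C g.1) x) * (∑ y, hB v C (rg C g.1) y) +
            (∑ x, hA v C (rg C g.1) x) * ∑ y, hB v C (lf C g.1) y) := by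
        intro g
        rw [Fintype.sum_bool]
        simp only [c1, c2, if_true, Bool.false_eq_true, if_false]
        ring
      simp_rw [h2]
      have h3 : ∑ g : G, hw v C g.1 (out z) *
          ((∑ x, hA v C (lf C g.1) x) * (∑ y, hB v C (rg C g.1) y) +
            (∑ x, hA v C (rg C g.1) x) * ∑ y, hB v C (lf C g.1) y) ≤
          ∑ g : Fin C.nodes, hw v C g (out z) *
          ((∑ x, hA v C (lf C g) x) * (∑ y, hB v C (rg C g) y) +
            (∑ x, hA v C (rg C g) x) * ∑ y, hB v C (lf C g) y) := by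
        rw [← sub_gates C fun g => hw v C g (out z) *
          ((∑ x, hA v C (lf C g) x) * (∑ y, hB v C (rg C g) y) +
            (∑ x, hA v C (rg C g) x) * ∑ y, hB v C (lf C g) y)]
        refine sum_le_sum_of_subset_of_nonneg (filter_subset _ _) fun g _ _ => ?_
        refine mul_nonneg (hw_nonneg v C _ _) (add_nonneg (mul_nonneg ?_ ?_) (mul_nonneg ?_ ?_))
        · exact sum_nonneg fun x _ => hA_nonneg v C _ x
        · exact sum_nonneg fun x _ => hB_nonneg v C _ x
        · exact sum_nonneg fun x _ => hA_nonneg v C _ x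
        · exact sum_nonneg fun x _ => hB_nonneg v C _ x
      have h4 := hc_nonneg v C (out z)
      have h5 : 0 ≤ ∑ x, hA v C (out z) x := sum_nonneg fun x _ => hA_nonneg v C _ x
      have h6 : 0 ≤ ∑ x, hB v C (out z) x := sum_nonneg fun x _ => hB_nonneg v C _ x
      linarith
    have h2 : ∑ l : G × Bool, (∑ z ∈ Ω, hw v C l.1.1 (out z)) *
        ((∑ x, hA v C (c1 l) x) * ∑ y, hB v C (c2 l) y) =
        ∑ z ∈ Ω, ∑ l : G × Bool, hw v C l.1.1 (out z) *
        ((∑ x, hA v C (c1 l) x) * ∑ y, hB v C (c2 l) y) := by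
      rw [sum_comm]
      exact sum_congr rfl fun l _ => sum_mul _ _ _
    rw [h2]
    exact sum_le_sum fun z _ => h1 z
  · -- the identity matrices
    intro z hz S
    have hI : ∀ k k' : Fin n, ∑ l : G × Bool,
        (wt C l.1.1 (out z) * jA C (c1 l) (Pi.single (z.1, k) 1)) *
          jB C (c2 l) (Pi.single (k', z.2) 1) = if k = k' then 1 else 0 := by
      intro k k'
      have h1 := (ev_poly C (Pi.single (z.1, k) (1 : F)) (Pi.single (k', z.2) (1 : F))
        (out z)).2.2.2
      rw [hC z hz, ev_product, jQ_eq] at h1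
      have h2 : ∑ x : Fin n, (Pi.single (z.1, k) (1 : F) : Fin m × Fin n → F) (z.1, x) *
          (Pi.single (k', z.2) (1 : F) : Fin n × Fin p → F) (x, z.2) =
          if k = k' then 1 else 0 := by
        simp only [Pi.single_apply, Prod.mk.injEq, true_and, and_true]
        simp only [mul_ite, mul_one, mul_zero, Finset.sum_ite_eq', mem_univ, if_true]
        simp only [eq_comm]
      rw [h2] at h1
      rw [h1, Fintype.sum_prod_type]
      have h3 : ∀ g : G, ∑ β : Bool, wt C g.1 (out z) *
          jA C (c1 (g, β)) (Pi.single (z.1, k) 1) * jB C (c2 (g, β)) (Pi.single (k', z.2) 1) =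
          wt C g.1 (out z) * (jA C (lf C g.1) (Pi.single (z.1, k) 1) *
            jB C (rg C g.1) (Pi.single (k', z.2) 1) + jA C (rg C g.1) (Pi.single (z.1, k) 1) *
            jB C (lf C g.1) (Pi.single (k', z.2) 1)) := by
        intro g
        rw [Fintype.sum_bool]
        simp only [c1, c2, if_true, Bool.false_eq_true, if_false]
        ring
      simp_rw [h3]
      rw [← sub_gates C fun g =>
          wt C g (out z) * (jA C (lf C g) (Pi.single (z.1, k) 1) *
            jB C (rg C g) (Pi.single (k', z.2) 1) + jA C (rg C g) (Pi.single (z.1, k) 1) *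
            jB C (lf C g) (Pi.single (k', z.2) 1))]
      refine Finset.sum_subset (subset_univ _) fun g _ hg => ?_
      have hg' : ¬ C.IsNonscalar g := fun h => hg (by simp [h])
      by_cases hmul : ∀ i j, C.gate g ≠ Gate.mul i j
      · rw [wt_eq_zero C g _ hmul, zero_mul]
      · push Not at hmul
        obtain ⟨i, j, hij⟩ := hmul
        have hl : lf C g = C.up g i := by rw [lf, hij]
        have hr : rg C g = C.up g j := by rw [rg, hij]
        have h4 : (∃ c : F, C.poly (C.up g i) = MvPolynomial.C c) ∨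
            ∃ c : F, C.poly (C.up g j) = MvPolynomial.C c := by
          by_contra hcon
          push Not at hcon
          exact hg' ⟨i, j, hij, hcon.1, hcon.2⟩
        rw [hl, hr]
        rcases h4 with ⟨c, hc⟩ | ⟨c, hc⟩
        · rw [jA_eq_zero_of_const C _ c hc, jB_eq_zero_of_const C _ c hc]
          ring
        · rw [jA_eq_zero_of_const C _ c hc, jB_eq_zero_of_const C _ c hc]
          ring
    refine (identity_bound v _ _ hI S).trans (sum_le_sum fun l _ => ?_)
    have h1 : ∑ k, v (wt C l.1.1 (out z) * jA C (c1 l) (Pi.single (z.1, k) 1)) ≤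
        hw v C l.1.1 (out z) * ∑ k, hA v C (c1 l) (z.1, k) := by
      rw [mul_sum]
      refine sum_le_sum fun k _ => ?_
      rw [map_mul]
      exact mul_le_mul (wt_le v C _ _) (jA_le v C _ _) (v.nonneg _) (hw_nonneg v C _ _)
    have h2 : ∑ k, v (jB C (c2 l) (Pi.single (k, z.2) 1)) ≤ ∑ k, hB v C (c2 l) (k, z.2) :=
      sum_le_sum fun k _ => jB_le v C _ _
    refine (mul_le_mul h1 h2 (sum_nonneg fun k _ => v.nonneg _) (mul_nonneg (hw_nonneg v C _ _)
      (sum_nonneg fun k _ => hA_nonneg v C _ _))).trans (le_of_eq ?_)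
    ring

end Pool.Agent.L0h35.Mass
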