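import Mathlib

set_option autoImplicit false

/-!
# Bilinear algorithms: products of algorithms, and their masses
-/

namespace Pool.Agent.L0h35.Mass

open Finset

variable {𝕜 : Type*} [RCLike 𝕜]

/-- A bilinear algorithm: the entry `(i', j')` of `A B` is the sum over `l` of `W l i' j'` times the
product of the linear forms with the coefficients `U l` (in the entries of `A`) and `V l` (in the
entries of `B`). -/
def IsAlg {I J K L : Type*} [DecidableEq I] [DecidableEq J] [DecidableEq K] [Fintype L]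
    (U : L → I → K → 𝕜) (V : L → K → J → 𝕜) (W : L → I → J → 𝕜) : Prop :=
  ∀ i' j' i k k' j, ∑ l, W l i' j' * U l i k * V l k' j =
    if i = i' ∧ k = k' ∧ j = j' then 1 else 0

/-- The sum over all products of the product of the `ℓ¹` norms of `U l`, `V l`, `W l`. -/
noncomputable def mass₁ {I J K L : Type*} [Fintype I] [Fintype J] [Fintype K] [Fintype L]
    (U : L → I → K → 𝕜) (V : L → K → J → 𝕜) (W : L → I → J → 𝕜) : ℝ :=
  ∑ l, (∑ i, ∑ j, ‖W l i j‖) * ((∑ i, ∑ k, ‖U l i k‖) * ∑ k, ∑ j, ‖V l k j‖)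

theorem IsAlg.prod {I J K L I' J' K' L' : Type*} [DecidableEq I] [DecidableEq J] [DecidableEq K]
    [Fintype L] [DecidableEq I'] [DecidableEq J'] [DecidableEq K'] [Fintype L']
    {U : L → I → K → 𝕜} {V : L → K → J → 𝕜} {W : L → I → J → 𝕜} (h : IsAlg U V W)
    {U' : L' → I' → K' → 𝕜} {V' : L' → K' → J' → 𝕜} {W' : L' → I' → J' → 𝕜} (h' : IsAlg U' V' W') :
    IsAlg (I := I × I') (J := J × J') (K := K × K') (L := L × L')
      (fun l i k => U l.1 i.1 k.1 * U' l.2 i.2 k.2) (fun l k j => V l.1 k.1 j.1 * V' l.2 k.2 j.2)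
      (fun l i j => W l.1 i.1 j.1 * W' l.2 i.2 j.2) := by
  rintro ⟨i1, i2⟩ ⟨j1, j2⟩ ⟨a1, a2⟩ ⟨k1, k2⟩ ⟨l1, l2⟩ ⟨b1, b2⟩
  have h1 := h i1 j1 a1 k1 l1 b1
  have h2 := h' i2 j2 a2 k2 l2 b2
  have h3 : ∑ l : L × L', W l.1 i1 j1 * W' l.2 i2 j2 * (U l.1 a1 k1 * U' l.2 a2 k2) *
      (V l.1 l1 b1 * V' l.2 l2 b2) = (∑ l, W l i1 j1 * U l a1 k1 * V l l1 b1) *
      ∑ l, W' l i2 j2 * U' l a2 k2 * V' l l2 b2 := by
    rw [sum_mul_sum, Fintype.sum_prod_type]
    refine sum_congr rfl fun x _ => sum_congr rfl fun y _ => ?_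
    ring
  simp only
  rw [h3, h1, h2]
  by_cases c1 : a1 = i1 ∧ k1 = l1 ∧ b1 = j1
  · by_cases c2 : a2 = i2 ∧ k2 = l2 ∧ b2 = j2
    · rw [if_pos c1, if_pos c2, if_pos, one_mul]
      simp only [Prod.mk.injEq]
      tauto
    · rw [if_neg c2, mul_zero, if_neg]
      simp only [Prod.mk.injEq]
      tauto
  · rw [if_neg c1, zero_mul, if_neg]
    simp only [Prod.mk.injEq]
    tauto

theorem sum_prod_norm {A B A' B' : Type*} [Fintype A] [Fintype B] [Fintype A'] [Fintype B']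
    (f : A → B → 𝕜) (g : A' → B' → 𝕜) :
    ∑ i : A × A', ∑ j : B × B', ‖f i.1 j.1 * g i.2 j.2‖ =
      (∑ i, ∑ j, ‖f i j‖) * ∑ i, ∑ j, ‖g i j‖ := by
  rw [sum_mul_sum, Fintype.sum_prod_type]
  refine sum_congr rfl fun x _ => sum_congr rfl fun y _ => ?_
  rw [sum_mul_sum, Fintype.sum_prod_type]
  refine sum_congr rfl fun z _ => sum_congr rfl fun w _ => ?_
  rw [norm_mul]

theorem mass₁_prod {I J K L I' J' K' L' : Type*} [Fintype I] [Fintype J] [Fintype K]
    [Fintype L] [Fintype I'] [Fintype J'] [Fintype K'] [Fintype L']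
    (U : L → I → K → 𝕜) (V : L → K → J → 𝕜) (W : L → I → J → 𝕜)
    (U' : L' → I' → K' → 𝕜) (V' : L' → K' → J' → 𝕜) (W' : L' → I' → J' → 𝕜) :
    mass₁ (I := I × I') (J := J × J') (K := K × K') (L := L × L')
      (fun l i k => U l.1 i.1 k.1 * U' l.2 i.2 k.2) (fun l k j => V l.1 k.1 j.1 * V' l.2 k.2 j.2)
      (fun l i j => W l.1 i.1 j.1 * W' l.2 i.2 j.2) = mass₁ U V W * mass₁ U' V' W' := by
  unfold mass₁
  rw [sum_mul_sum, Fintype.sum_prod_type]
  refine sum_congr rfl fun x _ => sum_congr rfl fun y _ => ?_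
  rw [sum_prod_norm (fun i j => W x i j) (fun i j => W' y i j),
    sum_prod_norm (fun i j => U x i j) (fun i j => U' y i j),
    sum_prod_norm (fun i j => V x i j) (fun i j => V' y i j)]
  ring

/-- The same algorithm for other index sets of the same size. -/
theorem IsAlg.transport {I J K L I' J' K' : Type*} [DecidableEq I] [DecidableEq J]
    [DecidableEq K] [Fintype L] [DecidableEq I'] [DecidableEq J'] [DecidableEq K']
    {U : L → I → K → 𝕜} {V : L → K → J → 𝕜} {W : L → I → J → 𝕜} (h : IsAlg U V W)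
    (e : I' ≃ I) (f : J' ≃ J) (g : K' ≃ K) :
    IsAlg (fun l i k => U l (e i) (g k)) (fun l k j => V l (g k) (f j))
      (fun l i j => W l (e i) (f j)) := by
  intro i' j' i k k' j
  have := h (e i') (f j') (e i) (g k) (g k') (f j)
  simp only [e.injective.eq_iff, f.injective.eq_iff, g.injective.eq_iff] at this
  exact this

theorem mass₁_transport {I J K L I' J' K' : Type*} [Fintype I] [Fintype J] [Fintype K]
    [Fintype L] [Fintype I'] [Fintype J'] [Fintype K']
    (U : L → I → K → 𝕜) (V : L → K → J → 𝕜) (W : L → I → J → 𝕜)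
    (e : I' ≃ I) (f : J' ≃ J) (g : K' ≃ K) :
    mass₁ (fun l i k => U l (e i) (g k)) (fun l k j => V l (g k) (f j))
      (fun l i j => W l (e i) (f j)) = mass₁ U V W := by
  unfold mass₁
  refine sum_congr rfl fun l _ => ?_
  congr 1
  · rw [← e.sum_comp]
    exact sum_congr rfl fun i _ => f.sum_comp fun j => ‖W l (e i) j‖
  · congr 1
    · rw [← e.sum_comp]
      exact sum_congr rfl fun i _ => g.sum_comp fun j => ‖U l (e i) j‖
    · rw [← g.sum_comp]
      exact sum_congr rfl fun i _ => f.sum_comp fun j => ‖V l (g i) j‖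

/-- the school method -/
theorem school (s : ℕ) : ∃ (U V W : Fin s × Fin s × Fin s → Fin s → Fin s → 𝕜),
    IsAlg U V W ∧ mass₁ U V W = (s : ℝ) ^ 3 := by
  classical
  refine ⟨fun l i k => if l.1 = i ∧ l.2.1 = k then 1 else 0,
    fun l k j => if l.2.1 = k ∧ l.2.2 = j then 1 else 0,
    fun l i j => if l.1 = i ∧ l.2.2 = j then 1 else 0, ?_, ?_⟩
  · intro i' j' i k k' j
    by_cases h : i = i' ∧ k = k' ∧ j = j'
    · rw [if_pos h]
      obtain ⟨rfl, rfl, rfl⟩ := h
      rw [Finset.sum_eq_single (i, k, j)]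
      · simp
      · rintro ⟨a, b, c⟩ - hne
        by_cases h1 : a = i ∧ c = j
        · by_cases h2 : a = i ∧ b = k
          · exact absurd (by rw [h1.1, h2.2, h1.2]) hne
          · simp [h2]
        · simp [h1]
      · intro h
        exact absurd (mem_univ _) h
    · rw [if_neg h]
      refine sum_eq_zero ?_
      rintro ⟨a, b, c⟩ -
      by_cases h1 : a = i' ∧ c = j'
      · by_cases h2 : a = i ∧ b = k
        · by_cases h3 : b = k' ∧ c = j
          · exfalso
            apply h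
            refine ⟨h2.1.symm.trans h1.1, h2.2.symm.trans h3.1, h3.2.symm.trans h1.2⟩
          · simp [h3]
        · simp [h2]
      · simp [h1]
  · unfold mass₁
    have h1 : ∀ a b : Fin s, ∑ i : Fin s, ∑ j : Fin s, ‖(if a = i ∧ b = j then 1 else 0 : 𝕜)‖ =
        1 := by
      intro a b
      rw [Finset.sum_eq_single a, Finset.sum_eq_single b]
      · simp
      · intro c _ hc
        rw [if_neg (fun h => hc h.2.symm), norm_zero]
      · intro h
        exact absurd (mem_univ _) h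
      · intro c _ hc
        refine sum_eq_zero fun d _ => ?_
        rw [if_neg (fun h => hc h.1.symm), norm_zero]
      · intro h
        exact absurd (mem_univ _) h
    simp only [h1]
    simp
    ring

def sU : Fin 7 → Fin 2 → Fin 2 → ℤ :=
  ![![![1, 0], ![0, 1]], ![![0, 0], ![1, 1]], ![![1, 0], ![0, 0]], ![![0, 0], ![0, 1]],
    ![![1, 1], ![0, 0]], ![![-1, 0], ![1, 0]], ![![0, 1], ![0, -1]]]

def sV : Fin 7 → Fin 2 → Fin 2 → ℤ :=
  ![![![1, 0], ![0, 1]], ![![1, 0], ![0, 0]], ![![0, 1], ![0, -1]], ![![-1, 0], ![1, 0]],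
    ![![0, 0], ![0, 1]], ![![1, 1], ![0, 0]], ![![0, 0], ![1, 1]]]

def sW : Fin 7 → Fin 2 → Fin 2 → ℤ :=
  ![![![1, 0], ![0, 1]], ![![0, 0], ![1, -1]], ![![0, 1], ![0, 1]], ![![1, 0], ![1, 0]],
    ![![-1, 1], ![0, 0]], ![![0, 0], ![0, 1]], ![![1, 0], ![0, 0]]]

theorem strassen_int : ∀ i' j' i k k' j : Fin 2, ∑ l, sW l i' j' * sU l i k * sV l k' j =
    if i = i' ∧ k = k' ∧ j = j' then 1 else 0 := by
  decide

theorem strassen_mass_int : ∑ l, (∑ i, ∑ j, |sW l i j|) * ((∑ i, ∑ k, |sU l i k|) *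
    ∑ k, ∑ j, |sV l k j|) = 32 := by
  decide

theorem strassen : ∃ (U V W : Fin 7 → Fin 2 → Fin 2 → 𝕜),
    IsAlg U V W ∧ mass₁ U V W = 32 := by
  refine ⟨fun l i k => (sU l i k : 𝕜), fun l i k => (sV l i k : 𝕜), fun l i k => (sW l i k : 𝕜),
    ?_, ?_⟩
  · intro i' j' i k k' j
    have h := congrArg (fun z : ℤ => (z : 𝕜)) (strassen_int i' j' i k k' j)
    push_cast at h
    rw [h]
  · unfold mass₁
    have h1 : ∀ z : ℤ, ‖((z : ℤ) : 𝕜)‖ = ((|z| : ℤ) : ℝ) := by
      intro z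
      rw [← RCLike.ofReal_intCast, RCLike.norm_ofReal, Int.cast_abs]
    simp only [h1]
    exact_mod_cast strassen_mass_int

/-- `t` levels of Strassen's recursion on top of the school method. -/
theorem levels (t s : ℕ) : ∃ (L : Type) (_ : Fintype L)
    (U V W : L → Fin (2 ^ t * s) → Fin (2 ^ t * s) → 𝕜),
    IsAlg U V W ∧ Fintype.card L = 7 ^ t * s ^ 3 ∧
      mass₁ U V W = 4 ^ t * ((2 ^ t * s : ℕ) : ℝ) ^ 3 := by
  classical
  induction t with
  | zero =>
    obtain ⟨U, V, W, h1, h2⟩ := school (𝕜 := 𝕜) s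
    have e : Fin (2 ^ 0 * s) ≃ Fin s := finCongr (by simp)
    refine ⟨_, inferInstance, _, _, _, h1.transport e e e, ?_, ?_⟩
    · simp [Fintype.card_prod]
      ring
    · rw [mass₁_transport, h2]
      simp
  | succ t ih =>
    obtain ⟨L, _, U, V, W, h1, h2, h3⟩ := ih
    obtain ⟨U', V', W', h1', h3'⟩ := strassen (𝕜 := 𝕜)
    have e : Fin (2 ^ (t + 1) * s) ≃ Fin 2 × Fin (2 ^ t * s) :=
      (finCongr (by ring)).trans finProdFinEquiv.symm
    refine ⟨Fin 7 × L, inferInstance, _, _, _, (h1'.prod h1).transport e e e, ?_, ?_⟩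
    · rw [Fintype.card_prod, h2, Fintype.card_fin]
      ring
    · have h4 := mass₁_transport
        (fun (l : Fin 7 × L) (i k : Fin 2 × Fin (2 ^ t * s)) => U' l.1 i.1 k.1 * U l.2 i.2 k.2)
        (fun (l : Fin 7 × L) (k j : Fin 2 × Fin (2 ^ t * s)) => V' l.1 k.1 j.1 * V l.2 k.2 j.2)
        (fun (l : Fin 7 × L) (i j : Fin 2 × Fin (2 ^ t * s)) => W' l.1 i.1 j.1 * W l.2 i.2 j.2)
        e e e
      have h5 := mass₁_prod U' V' W' U V W
      refine h4.trans (h5.trans ?_)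
      rw [h3, h3']
      push_cast
      ring

end Pool.Agent.L0h35.Mass
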