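import Mathlib

set_option autoImplicit false

/-!
# Chains of blocks

`b` blocks are filled one after the other. Before the step `t` the blocks `l < t` are filled with
independent negative samples and the blocks `l ≥ t` are empty; in the step `t` the block `t` is
filled with a positive sample, or with a negative sample. A monotone function which cannot tell
the positive samples from the negative ones jumps in a positive step for at most about one value
of `t` (in the average), since it jumps at most once if all blocks are filled with negative samples.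
-/

open scoped Classical
open Finset

namespace Pool.Agent.L0h35.Ng

section chain

variable {X Y S : Type} [Fintype X] [Fintype Y] {b : ℕ}

/-- the blocks `l < t` are filled -/
def lowA (negC : Y → S) (z : S) (t : ℕ) (w : Fin b → Y) : Fin b → S :=
  fun l => if l.1 < t then negC (w l) else z

/-- the blocks `l < t` are filled, and the block `t` with `c` -/
def stepA (negC : Y → S) (z : S) (t : ℕ) (w : Fin b → Y) (c : S) : Fin b → S :=
  fun l => if l.1 < t then negC (w l) else if l.1 = t then c else z

omit [Fintype Y] in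
theorem step_update (negC : Y → S) (z : S) {t : ℕ} (ht : t < b) (w : Fin b → Y) (y : Y) :
    stepA negC z t w (negC y) = lowA negC z (t + 1) (Function.update w ⟨t, ht⟩ y) := by
  funext l
  unfold stepA lowA
  by_cases h1 : l.1 < t
  · have hne : l ≠ ⟨t, ht⟩ := fun h => by
      rw [h] at h1
      exact lt_irrefl _ h1
    rw [if_pos h1, if_pos (by omega), Function.update_of_ne hne]
  · rw [if_neg h1]
    by_cases h2 : l.1 = t
    · have he : l = ⟨t, ht⟩ := Fin.ext h2
      rw [if_pos h2, if_pos (by omega), he, Function.update_self]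
    · rw [if_neg h2, if_neg (by omega)]

/-- replacing one coordinate by a new sample -/
theorem sum_update {t : ℕ} (ht : t < b) (h : (Fin b → Y) → ℝ) :
    ∑ w : Fin b → Y, ∑ y : Y, h (Function.update w ⟨t, ht⟩ y) = Fintype.card Y * ∑ w, h w := by
  let e : (Fin b → Y) × Y ≃ (Fin b → Y) × Y :=
    { toFun := fun p => (Function.update p.1 ⟨t, ht⟩ p.2, p.1 ⟨t, ht⟩)
      invFun := fun p => (Function.update p.1 ⟨t, ht⟩ p.2, p.1 ⟨t, ht⟩)
      left_inv := by
        rintro ⟨w, y⟩
        simp
      right_inv := by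
        rintro ⟨w, y⟩
        simp }
  have h1 : ∑ p : (Fin b → Y) × Y, h (e p).1 = ∑ p : (Fin b → Y) × Y, h p.1 :=
    Equiv.sum_comp e (fun p => h p.1)
  have h2 : ∑ p : (Fin b → Y) × Y, h (e p).1 =
      ∑ w : Fin b → Y, ∑ y : Y, h (Function.update w ⟨t, ht⟩ y) := by
    rw [Fintype.sum_prod_type]
    rfl
  have h3 : ∑ p : (Fin b → Y) × Y, h p.1 = Fintype.card Y * ∑ w, h w := by
    rw [Fintype.sum_prod_type]
    simp only [sum_const, card_univ, nsmul_eq_mul]
    rw [mul_sum]
  rw [← h2, h1, h3]

variable [Nonempty X] [Nonempty Y]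

/-- the number of jumps in positive steps -/
theorem chain_one (posC : X → S) (negC : Y → S) (z : S) (g : (Fin b → S) → Prop) (δ : ℝ)
    (hmono : ∀ t < b, ∀ w x, g (lowA negC z t w) → g (stepA negC z t w (posC x)))
    (hblock : ∀ t < b, ∀ w, ((univ.filter fun x => g (stepA negC z t w (posC x))).card : ℝ) /
      Fintype.card X ≤ ((univ.filter fun y => g (stepA negC z t w (negC y))).card : ℝ) /
        Fintype.card Y + δ) :
    ∑ t ∈ range b, ∑ w : Fin b → Y, ((univ.filter fun x => g (stepA negC z t w (posC x)) ∧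
      ¬ g (lowA negC z t w)).card : ℝ) ≤
        (1 + b * δ) * (Fintype.card X * (Fintype.card Y : ℝ) ^ b) := by
  have hX0 : (0 : ℝ) < Fintype.card X := by exact_mod_cast Fintype.card_pos
  have hY0 : (0 : ℝ) < Fintype.card Y := by exact_mod_cast Fintype.card_pos
  let ind : Prop → ℝ := fun p => if p then 1 else 0
  let Low : ℕ → ℝ := fun t => ∑ w : Fin b → Y, ind (g (lowA negC z t w))
  have hW : (Fintype.card (Fin b → Y) : ℝ) = (Fintype.card Y : ℝ) ^ b := by
    rw [Fintype.card_fun, Fintype.card_fin]
    push_cast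
    rfl
  have hLow0 : ∀ t, 0 ≤ Low t := fun t => sum_nonneg fun w _ => by
    simp only [ind]
    split_ifs <;> norm_num
  have hLow1 : ∀ t, Low t ≤ (Fintype.card Y : ℝ) ^ b := by
    intro t
    rw [← hW]
    calc Low t ≤ ∑ _w : Fin b → Y, (1 : ℝ) := sum_le_sum fun w _ => by
          simp only [ind]
          split_ifs <;> norm_num
      _ = _ := by simp
  have hstep : ∀ t < b, ∑ w : Fin b → Y, ((univ.filter fun x =>
      g (stepA negC z t w (posC x)) ∧ ¬ g (lowA negC z t w)).card : ℝ) ≤
        Fintype.card X * (Low (t + 1) - Low t + δ * (Fintype.card Y : ℝ) ^ b) := by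
    intro t ht
    have h1 : ∀ w : Fin b → Y, ((univ.filter fun x =>
        g (stepA negC z t w (posC x)) ∧ ¬ g (lowA negC z t w)).card : ℝ) ≤
        Fintype.card X * (((univ.filter fun y => g (stepA negC z t w (negC y))).card : ℝ) /
          Fintype.card Y + δ - ind (g (lowA negC z t w))) := by
      intro w
      by_cases hg : g (lowA negC z t w)
      · have h2 : (univ.filter fun x =>
            g (stepA negC z t w (posC x)) ∧ ¬ g (lowA negC z t w)) = ∅ :=
          filter_eq_empty_iff.2 fun x _ h => h.2 hg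
        have h3 : (univ.filter fun x => g (stepA negC z t w (posC x))) = univ :=
          filter_true_of_mem fun x _ => hmono t ht w x hg
        have h4 := hblock t ht w
        rw [h3, card_univ, div_self hX0.ne'] at h4
        rw [h2, card_empty, Nat.cast_zero]
        have h5 : ind (g (lowA negC z t w)) = 1 := if_pos hg
        rw [h5]
        exact mul_nonneg hX0.le (by linarith)
      · have h2 : ((univ.filter fun x =>
            g (stepA negC z t w (posC x)) ∧ ¬ g (lowA negC z t w)).card : ℝ) ≤
            ((univ.filter fun x => g (stepA negC z t w (posC x))).card : ℝ) := by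
          refine Nat.cast_le.2 (card_le_card ?_)
          intro x hx
          exact mem_filter.2 ⟨mem_univ _, (mem_filter.1 hx).2.1⟩
        have h4 := hblock t ht w
        rw [div_le_iff₀ hX0] at h4
        have h5 : ind (g (lowA negC z t w)) = 0 := if_neg hg
        rw [h5, sub_zero, mul_comm]
        exact h2.trans h4
    refine (sum_le_sum fun w _ => h1 w).trans ?_
    rw [← mul_sum]
    refine mul_le_mul_of_nonneg_left ?_ hX0.le
    rw [sum_sub_distrib, sum_add_distrib, sum_const, card_univ, nsmul_eq_mul, hW]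
    have h6 : ∑ w : Fin b → Y, ((univ.filter fun y => g (stepA negC z t w (negC y))).card : ℝ) /
        Fintype.card Y = Low (t + 1) := by
      rw [← sum_div, div_eq_iff hY0.ne', mul_comm, ← sum_update ht]
      refine sum_congr rfl fun w _ => ?_
      rw [← Finset.sum_boole]
      refine sum_congr rfl fun y _ => ?_
      simp only [ind]
      rw [step_update negC z ht w y]
    rw [h6]
    have h7 : ∑ w : Fin b → Y, ind (g (lowA negC z t w)) = Low t := rfl
    rw [h7]
    linarith
  calc ∑ t ∈ range b, ∑ w : Fin b → Y, ((univ.filter fun x => g (stepA negC z t w (posC x)) ∧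
      ¬ g (lowA negC z t w)).card : ℝ)
      ≤ ∑ t ∈ range b, Fintype.card X * (Low (t + 1) - Low t + δ * (Fintype.card Y : ℝ) ^ b) :=
        sum_le_sum fun t ht => hstep t (mem_range.1 ht)
    _ = Fintype.card X * (Low b - Low 0 + b * (δ * (Fintype.card Y : ℝ) ^ b)) := by
        rw [← mul_sum, sum_add_distrib, Finset.sum_range_sub, sum_const, card_range, nsmul_eq_mul]
    _ ≤ Fintype.card X * ((Fintype.card Y : ℝ) ^ b + b * (δ * (Fintype.card Y : ℝ) ^ b)) := by
        refine mul_le_mul_of_nonneg_left ?_ hX0.le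
        have h1 := hLow1 b
        have h2 := hLow0 0
        linarith
    _ = _ := by ring

/-- **Chains.** If in each step a constant fraction of the members of a family of circuits jumps,
where the circuits are described by `N` monotone functions each, then `b ≤ 4 N`. -/
theorem chain_main {Ω : Type} [Fintype Ω] [Nonempty Ω] (posC : X → S) (negC : Y → S) (z : S)
    (δ : ℝ) (hbδ : b * δ ≤ 1) {Γ : Ω → Type} [∀ o, Fintype (Γ o)] (N : ℕ)
    (hΓ : ∀ o, Fintype.card (Γ o) ≤ N) (g : ∀ o, Γ o → (Fin b → S) → Prop)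
    (hmono : ∀ o γ, ∀ t < b, ∀ w x, g o γ (lowA negC z t w) → g o γ (stepA negC z t w (posC x)))
    (hblock : ∀ o γ, ∀ t < b, ∀ w,
      ((univ.filter fun x => g o γ (stepA negC z t w (posC x))).card : ℝ) /
      Fintype.card X ≤ ((univ.filter fun y => g o γ (stepA negC z t w (negC y))).card : ℝ) /
        Fintype.card Y + δ)
    (hsep : ∀ t < b, ∀ (w : Fin b → Y) (x : X), Fintype.card Ω ≤ 2 * (univ.filter fun o => ∃ γ,
      g o γ (stepA negC z t w (posC x)) ∧ ¬ g o γ (lowA negC z t w)).card) :
    b ≤ 4 * N := by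
  have hX0 : (0 : ℝ) < Fintype.card X := by exact_mod_cast Fintype.card_pos
  have hY0 : (0 : ℝ) < Fintype.card Y := by exact_mod_cast Fintype.card_pos
  have hO0 : (0 : ℝ) < Fintype.card Ω := by exact_mod_cast Fintype.card_pos
  have hW : (Fintype.card (Fin b → Y) : ℝ) = (Fintype.card Y : ℝ) ^ b := by
    rw [Fintype.card_fun, Fintype.card_fin]
    push_cast
    rfl
  -- upper bound
  have h1 : ∑ o, ∑ γ : Γ o, ∑ t ∈ range b, ∑ w : Fin b → Y, ((univ.filter fun x =>
      g o γ (stepA negC z t w (posC x)) ∧ ¬ g o γ (lowA negC z t w)).card : ℝ) ≤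
      Fintype.card Ω * (N * (2 * (Fintype.card X * (Fintype.card Y : ℝ) ^ b))) := by
    have h2 : ∀ o (γ : Γ o), ∑ t ∈ range b, ∑ w : Fin b → Y, ((univ.filter fun x =>
        g o γ (stepA negC z t w (posC x)) ∧ ¬ g o γ (lowA negC z t w)).card : ℝ) ≤
        2 * (Fintype.card X * (Fintype.card Y : ℝ) ^ b) := by
      intro o γ
      refine (chain_one posC negC z (g o γ) δ (hmono o γ) (hblock o γ)).trans ?_
      refine mul_le_mul_of_nonneg_right (by linarith) (by positivity)
    calc _ ≤ ∑ o, ∑ _γ : Γ o, 2 * (Fintype.card X * (Fintype.card Y : ℝ) ^ b) :=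
          sum_le_sum fun o _ => sum_le_sum fun γ _ => h2 o γ
      _ ≤ ∑ _o : Ω, N * (2 * (Fintype.card X * (Fintype.card Y : ℝ) ^ b)) := by
          refine sum_le_sum fun o _ => ?_
          rw [sum_const, card_univ, nsmul_eq_mul]
          refine mul_le_mul_of_nonneg_right ?_ (by positivity)
          exact_mod_cast hΓ o
      _ = _ := by rw [sum_const, card_univ, nsmul_eq_mul]
  -- lower bound
  have h3 : (b : ℝ) * (Fintype.card X * (Fintype.card Y : ℝ) ^ b) * Fintype.card Ω ≤
      2 * ∑ o, ∑ γ : Γ o, ∑ t ∈ range b, ∑ w : Fin b → Y, ((univ.filter fun x =>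
      g o γ (stepA negC z t w (posC x)) ∧ ¬ g o γ (lowA negC z t w)).card : ℝ) := by
    have h4 : ∀ o, ∑ t ∈ range b, ∑ w : Fin b → Y, ((univ.filter fun x => ∃ γ,
        g o γ (stepA negC z t w (posC x)) ∧ ¬ g o γ (lowA negC z t w)).card : ℝ) ≤
        ∑ γ : Γ o, ∑ t ∈ range b, ∑ w : Fin b → Y, ((univ.filter fun x =>
          g o γ (stepA negC z t w (posC x)) ∧ ¬ g o γ (lowA negC z t w)).card : ℝ) := by
      intro o
      have hcomm : ∑ γ : Γ o, ∑ t ∈ range b, ∑ w : Fin b → Y, ((univ.filter fun x =>
          g o γ (stepA negC z t w (posC x)) ∧ ¬ g o γ (lowA negC z t w)).card : ℝ) =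
          ∑ t ∈ range b, ∑ w : Fin b → Y, ∑ γ : Γ o, ((univ.filter fun x =>
          g o γ (stepA negC z t w (posC x)) ∧ ¬ g o γ (lowA negC z t w)).card : ℝ) := by
        rw [sum_comm]
        refine sum_congr rfl fun t _ => ?_
        rw [sum_comm]
      rw [hcomm]
      refine sum_le_sum fun t _ => ?_
      refine sum_le_sum fun w _ => ?_
      have h5 : (univ.filter fun x => ∃ γ, g o γ (stepA negC z t w (posC x)) ∧
          ¬ g o γ (lowA negC z t w)) ⊆ (univ : Finset (Γ o)).biUnion fun γ =>
            univ.filter fun x => g o γ (stepA negC z t w (posC x)) ∧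
              ¬ g o γ (lowA negC z t w) := by
        intro x hx
        obtain ⟨γ, hγ⟩ := (mem_filter.1 hx).2
        exact mem_biUnion.2 ⟨γ, mem_univ _, mem_filter.2 ⟨mem_univ _, hγ⟩⟩
      exact_mod_cast (card_le_card h5).trans card_biUnion_le
    have h6 : ∑ o, ∑ t ∈ range b, ∑ w : Fin b → Y, ((univ.filter fun x => ∃ γ,
        g o γ (stepA negC z t w (posC x)) ∧ ¬ g o γ (lowA negC z t w)).card : ℝ) =
        ∑ t ∈ range b, ∑ w : Fin b → Y, ∑ x : X, ((univ.filter fun o => ∃ γ,
        g o γ (stepA negC z t w (posC x)) ∧ ¬ g o γ (lowA negC z t w)).card : ℝ) := by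
      rw [sum_comm]
      refine sum_congr rfl fun t _ => ?_
      rw [sum_comm]
      refine sum_congr rfl fun w _ => ?_
      simp only [← Finset.sum_boole]
      rw [sum_comm]
    have h7 : (b : ℝ) * (Fintype.card X * (Fintype.card Y : ℝ) ^ b) * Fintype.card Ω ≤
        2 * ∑ t ∈ range b, ∑ w : Fin b → Y, ∑ x : X, ((univ.filter fun o => ∃ γ,
        g o γ (stepA negC z t w (posC x)) ∧ ¬ g o γ (lowA negC z t w)).card : ℝ) := by
      have h8 : ∑ _t ∈ range b, ∑ _w : Fin b → Y, ∑ _x : X, (Fintype.card Ω : ℝ) =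
          (b : ℝ) * (Fintype.card X * (Fintype.card Y : ℝ) ^ b) * Fintype.card Ω := by
        rw [sum_const, card_range, sum_const, card_univ, sum_const, card_univ]
        simp only [nsmul_eq_mul]
        rw [hW]
        ring
      rw [← h8, mul_sum]
      refine sum_le_sum fun t ht => ?_
      rw [mul_sum]
      refine sum_le_sum fun w _ => ?_
      rw [mul_sum]
      refine sum_le_sum fun x _ => ?_
      exact_mod_cast hsep t (mem_range.1 ht) w x
    calc _ ≤ _ := h7
      _ = 2 * ∑ o, ∑ t ∈ range b, ∑ w : Fin b → Y, ((univ.filter fun x => ∃ γ,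
        g o γ (stepA negC z t w (posC x)) ∧ ¬ g o γ (lowA negC z t w)).card : ℝ) := by rw [h6]
      _ ≤ _ := mul_le_mul_of_nonneg_left (sum_le_sum fun o _ => h4 o) (by norm_num)
  have hpos : (0 : ℝ) < (Fintype.card X * (Fintype.card Y : ℝ) ^ b) * Fintype.card Ω := by
    positivity
  have h9 : (b : ℝ) * ((Fintype.card X * (Fintype.card Y : ℝ) ^ b) * Fintype.card Ω) ≤
      (4 * N) * ((Fintype.card X * (Fintype.card Y : ℝ) ^ b) * Fintype.card Ω) := by
    nlinarith [h1, h3]
  have h10 : (b : ℝ) ≤ 4 * N := le_of_mul_le_mul_right h9 hpos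
  exact_mod_cast h10

end chain

end Pool.Agent.L0h35.Ng
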