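import Pool.Agent.L0h35.NgCircDefs
import Pool.Agent.H630VC.Model

set_option autoImplicit false

/-!
# Replacing the NOT gates by constants
-/

open scoped Classical
open Finset

namespace Pool.Agent.L0h35.Ng

open H630VC (Prog Mono2)

namespace Circuit

variable {n : ℕ}

/-- the values if the outputs of the NOT gates are replaced by constants -/
def evalc (C : Circuit n) (c : Fin C.nodes → Bool) (x : Fin n → Bool) (k : Fin C.nodes) : Bool :=
  match C.gate k with
  | .var i => x i
  | .const b => b
  | .not _ => c k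
  | .and i j => C.evalc c x (C.up k i) && C.evalc c x (C.up k j)
  | .or i j => C.evalc c x (C.up k i) || C.evalc c x (C.up k j)
termination_by (k : ℕ)
decreasing_by all_goals simp [up]

/-- the node `v` is an input of the gate `k` -/
def Inp (C : Circuit n) (k v : Fin C.nodes) : Prop :=
  (∃ i, C.gate k = .not i ∧ v = C.up k i) ∨
    ∃ i j, (C.gate k = .and i j ∨ C.gate k = .or i j) ∧ (v = C.up k i ∨ v = C.up k j)

/-- the nodes with a path to the output -/
inductive Reach (C : Circuit n) : Fin C.nodes → Prop
  | out : Reach C C.out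
  | step (k v : Fin C.nodes) : Reach C k → Inp C k v → Reach C v

variable (C : Circuit n)

theorem eval_var {x : Fin n → Bool} {k : Fin C.nodes} {i : Fin n} (h : C.gate k = .var i) :
    C.eval x k = x i := by
  rw [eval]
  split <;> simp_all

theorem eval_const {x : Fin n → Bool} {k : Fin C.nodes} {b : Bool} (h : C.gate k = .const b) :
    C.eval x k = b := by
  rw [eval]
  split <;> simp_all

theorem eval_not {x : Fin n → Bool} {k : Fin C.nodes} {i : Fin (k : ℕ)} (h : C.gate k = .not i) :
    C.eval x k = !C.eval x (C.up k i) := by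
  rw [eval]
  split <;> simp_all

theorem eval_and {x : Fin n → Bool} {k : Fin C.nodes} {i j : Fin (k : ℕ)}
    (h : C.gate k = .and i j) :
    C.eval x k = (C.eval x (C.up k i) && C.eval x (C.up k j)) := by
  rw [eval]
  split <;> simp_all

theorem eval_or {x : Fin n → Bool} {k : Fin C.nodes} {i j : Fin (k : ℕ)}
    (h : C.gate k = .or i j) :
    C.eval x k = (C.eval x (C.up k i) || C.eval x (C.up k j)) := by
  rw [eval]
  split <;> simp_all

variable {c : Fin C.nodes → Bool}

theorem evalc_var {x : Fin n → Bool} {k : Fin C.nodes} {i : Fin n} (h : C.gate k = .var i) :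
    C.evalc c x k = x i := by
  rw [evalc]
  split <;> simp_all

theorem evalc_const {x : Fin n → Bool} {k : Fin C.nodes} {b : Bool} (h : C.gate k = .const b) :
    C.evalc c x k = b := by
  rw [evalc]
  split <;> simp_all

theorem evalc_not {x : Fin n → Bool} {k : Fin C.nodes} {i : Fin (k : ℕ)} (h : C.gate k = .not i) :
    C.evalc c x k = c k := by
  rw [evalc]
  split <;> simp_all

theorem evalc_and {x : Fin n → Bool} {k : Fin C.nodes} {i j : Fin (k : ℕ)}
    (h : C.gate k = .and i j) :
    C.evalc c x k = (C.evalc c x (C.up k i) && C.evalc c x (C.up k j)) := by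
  rw [evalc]
  split <;> simp_all

theorem evalc_or {x : Fin n → Bool} {k : Fin C.nodes} {i j : Fin (k : ℕ)}
    (h : C.gate k = .or i j) :
    C.evalc c x k = (C.evalc c x (C.up k i) || C.evalc c x (C.up k j)) := by
  rw [evalc]
  split <;> simp_all

theorem up_lt (k : Fin C.nodes) (i : Fin (k : ℕ)) : C.up k i < k := i.2

/-- the right guesses give the right values -/
theorem evalc_eq {x : Fin n → Bool} (k : Fin C.nodes) (hk : Reach C k)
    (h : ∀ j ≤ k, Reach C j → (∃ i, C.gate j = .not i) → c j = C.eval x j) :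
    C.evalc c x k = C.eval x k := by
  induction k using WellFoundedLT.induction with
  | _ k ih =>
  cases hg : C.gate k with
  | var i => rw [C.evalc_var hg, C.eval_var hg]
  | const b => rw [C.evalc_const hg, C.eval_const hg]
  | not i => rw [C.evalc_not hg, h k le_rfl hk ⟨i, hg⟩]
  | and i j =>
    rw [C.evalc_and hg, C.eval_and hg,
      ih _ (C.up_lt k i) (.step k _ hk (Or.inr ⟨i, j, Or.inl hg, Or.inl rfl⟩))
        fun l hl => h l (hl.trans (C.up_lt k i).le),
      ih _ (C.up_lt k j) (.step k _ hk (Or.inr ⟨i, j, Or.inl hg, Or.inr rfl⟩))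
        fun l hl => h l (hl.trans (C.up_lt k j).le)]
  | or i j =>
    rw [C.evalc_or hg, C.eval_or hg,
      ih _ (C.up_lt k i) (.step k _ hk (Or.inr ⟨i, j, Or.inr hg, Or.inl rfl⟩))
        fun l hl => h l (hl.trans (C.up_lt k i).le),
      ih _ (C.up_lt k j) (.step k _ hk (Or.inr ⟨i, j, Or.inr hg, Or.inr rfl⟩))
        fun l hl => h l (hl.trans (C.up_lt k j).le)]

/-- the functions are nondecreasing -/
theorem evalc_mono {x y : Fin n → Bool} (hxy : ∀ i, x i = true → y i = true)
    (k : Fin C.nodes) : C.evalc c x k = true → C.evalc c y k = true := by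
  induction k using WellFoundedLT.induction with
  | _ k ih =>
  cases hg : C.gate k with
  | var i => rw [C.evalc_var hg, C.evalc_var hg]; exact hxy i
  | const b => rw [C.evalc_const hg, C.evalc_const hg]; exact id
  | not i => rw [C.evalc_not hg, C.evalc_not hg]; exact id
  | and i j =>
    rw [C.evalc_and hg, C.evalc_and hg, Bool.and_eq_true, Bool.and_eq_true]
    exact fun h => ⟨ih _ (C.up_lt k i) h.1, ih _ (C.up_lt k j) h.2⟩
  | or i j =>
    rw [C.evalc_or hg, C.evalc_or hg, Bool.or_eq_true, Bool.or_eq_true]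
    exact fun h => h.imp (ih _ (C.up_lt k i)) (ih _ (C.up_lt k j))

/-- the NOT gates -/
abbrev NotGate : Type := {k : Fin C.nodes // ∃ i, C.gate k = .not i}

/-- the functions: a target and guesses for the outputs of the NOT gates -/
abbrev Guess : Type := Option C.NotGate × (C.NotGate → Bool)

/-- the target: the output or the input of a NOT gate -/
noncomputable def target : Option C.NotGate → Fin C.nodes
  | none => C.out
  | some k => C.up k.1 k.2.choose

/-- the guesses, for all nodes -/
noncomputable def ext (c : C.NotGate → Bool) (k : Fin C.nodes) : Bool :=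
  if h : ∃ i, C.gate k = .not i then c ⟨k, h⟩ else false

/-- the monotone function which belongs to a guess -/
def Acc (γ : C.Guess) (x : Fin n → Bool) : Prop :=
  Reach C (C.target γ.1) ∧ C.evalc (C.ext γ.2) x (C.target γ.1) = true

theorem acc_mono (γ : C.Guess) {x y : Fin n → Bool} (hxy : ∀ i, x i = true → y i = true)
    (h : C.Acc γ x) : C.Acc γ y := ⟨h.1, C.evalc_mono hxy _ h.2⟩

theorem card_guess : Fintype.card C.Guess = (C.nots + 1) * 2 ^ C.nots := by
  rw [Fintype.card_prod, Fintype.card_option, Fintype.card_fun, Fintype.card_bool, nots,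
    Nat.card_eq_fintype_card]

/-- **One of the monotone functions separates.** -/
theorem exists_guess {x y : Fin n → Bool} (hxy : ∀ i, x i = true → y i = true)
    (hx : C.value x = false) (hy : C.value y = true) :
    ∃ γ : C.Guess, C.Acc γ y ∧ ¬ C.Acc γ x := by
  let c : C.NotGate → Bool := fun k => C.eval x k.1
  have hc : ∀ j, (∃ i, C.gate j = .not i) → C.ext c j = C.eval x j := fun j hj => by
    unfold ext
    rw [dif_pos hj]
  set D : Finset (Fin C.nodes) := univ.filter fun k => (Reach C k ∧ ∃ i, C.gate k = .not i) ∧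
    C.eval x k ≠ C.eval y k with hD
  rcases D.eq_empty_or_nonempty with h0 | hne
  · have h1 : ∀ j, Reach C j → (∃ i, C.gate j = .not i) → C.eval x j = C.eval y j := by
      intro j hjr hj
      by_contra h
      have : j ∈ D := mem_filter.2 ⟨mem_univ _, ⟨hjr, hj⟩, h⟩
      rw [h0] at this
      exact absurd this (notMem_empty _)
    refine ⟨(none, c), ⟨Reach.out, ?_⟩, ?_⟩
    · unfold target
      dsimp only
      rw [C.evalc_eq (x := y) C.out Reach.out fun j _ hjr hj => by rw [hc j hj, h1 j hjr hj]]
      exact hy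
    · rintro ⟨-, h2⟩
      unfold target at h2
      dsimp only at h2
      rw [C.evalc_eq (x := x) C.out Reach.out fun j _ _ hj => hc j hj] at h2
      change C.value x = true at h2
      rw [hx] at h2
      exact Bool.false_ne_true h2
  · set k := D.min' hne with hk
    obtain ⟨_, ⟨hkr, hk1⟩, hk2⟩ := mem_filter.1 (D.min'_mem hne)
    have h1 : ∀ j < k, Reach C j → (∃ i, C.gate j = .not i) → C.eval x j = C.eval y j := by
      intro j hjk hjr hj
      by_contra h
      have : j ∈ D := mem_filter.2 ⟨mem_univ _, ⟨hjr, hj⟩, h⟩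
      exact absurd (D.min'_le j this) (not_le.2 hjk)
    set v := C.up k hk1.choose with hv
    have hvr : Reach C v := .step k v hkr (Or.inl ⟨_, hk1.choose_spec, rfl⟩)
    have hvk : v < k := C.up_lt k _
    have e1 : C.evalc (C.ext c) x v = C.eval x v := C.evalc_eq v hvr fun j _ _ hj => hc j hj
    have e2 : C.evalc (C.ext c) y v = C.eval y v := C.evalc_eq v hvr fun j hj hjr hj' => by
      rw [hc j hj', h1 j (lt_of_le_of_lt hj hvk) hjr hj']
    have e3 : C.eval x v ≠ C.eval y v := by
      intro h
      apply hk2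
      rw [C.eval_not hk1.choose_spec, C.eval_not hk1.choose_spec]
      exact congrArg _ h
    have e4 := C.evalc_mono (c := C.ext c) hxy v
    rw [e1, e2] at e4
    refine ⟨(some ⟨k, hk1⟩, c), ⟨hvr, ?_⟩, ?_⟩
    · change C.evalc (C.ext c) y v = true
      rw [e2]
      by_contra h
      rw [Bool.not_eq_true] at h
      rw [h] at e3 e4
      have h2 : C.eval x v = true := by
        cases hxv : C.eval x v
        · exact absurd hxv e3
        · rfl
      exact Bool.false_ne_true (e4 h2)
    · rintro ⟨-, h⟩
      change C.evalc (C.ext c) x v = true at h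
      rw [e1] at h
      exact e3 (h.trans (e4 h).symm)

/-! ### Circuits as lists of functions -/

/-- the inputs of the programs: the variables and the constants -/
def inpB (n : ℕ) : Set ((Fin n → Bool) → ℝ) :=
  {f | (∃ i, f = fun x => if x i = true then 1 else 0) ∨ ∃ a : ℝ, f = fun _ => a}

theorem prog_append {I : Type} {inp : Set (I → ℝ)} {l l' : List (I → ℝ)} (h : Prog inp l)
    (h' : Prog inp l') : Prog inp (l' ++ l) := by
  induction h' with
  | nil => exact h
  | input _ hf ih => exact Prog.input ih hf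
  | gate _ hφ hf hg ih =>
    exact Prog.gate ih hφ (List.mem_append_left _ hf) (List.mem_append_left _ hg)

theorem mono2_min : Mono2 (fun a b => min a b) := fun _ _ _ _ h1 h2 => min_le_min h1 h2

theorem mono2_max : Mono2 (fun a b => max a b) := fun _ _ _ _ h1 h2 => max_le_max h1 h2

/-- the function of a node -/
noncomputable def fn (c : Fin C.nodes → Bool) (k : Fin C.nodes) : (Fin n → Bool) → ℝ :=
  fun x => if C.evalc c x k = true then 1 else 0

theorem fn_and {k : Fin C.nodes} {i j : Fin (k : ℕ)} (h : C.gate k = .and i j) :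
    C.fn c k = fun x => min (C.fn c (C.up k i) x) (C.fn c (C.up k j) x) := by
  funext x
  unfold fn
  rw [C.evalc_and h]
  cases C.evalc c x (C.up k i) <;> cases C.evalc c x (C.up k j) <;> simp

theorem fn_or {k : Fin C.nodes} {i j : Fin (k : ℕ)} (h : C.gate k = .or i j) :
    C.fn c k = fun x => max (C.fn c (C.up k i) x) (C.fn c (C.up k j) x) := by
  funext x
  unfold fn
  rw [C.evalc_or h]
  cases C.evalc c x (C.up k i) <;> cases C.evalc c x (C.up k j) <;> simp

theorem fn_inp {k : Fin C.nodes} (h1 : ∀ i j, C.gate k ≠ .and i j)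
    (h2 : ∀ i j, C.gate k ≠ .or i j) : (∃ i, C.fn c k = fun x => if x i = true then 1 else 0) ∨
      ∃ b : Bool, C.fn c k = fun _ => if b = true then 1 else 0 := by
  cases hg : C.gate k with
  | var i =>
    left
    refine ⟨i, funext fun x => ?_⟩
    unfold fn
    rw [C.evalc_var hg]
  | const b =>
    right
    refine ⟨b, funext fun x => ?_⟩
    unfold fn
    rw [C.evalc_const hg]
  | not i =>
    right
    refine ⟨c k, funext fun x => ?_⟩
    unfold fn
    rw [C.evalc_not hg]
  | and i j => exact absurd hg (h1 i j)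
  | or i j => exact absurd hg (h2 i j)

theorem fn_mem_inp {k : Fin C.nodes} (h1 : ∀ i j, C.gate k ≠ .and i j)
    (h2 : ∀ i j, C.gate k ≠ .or i j) : C.fn c k ∈ inpB n := by
  rcases C.fn_inp (c := c) h1 h2 with h | ⟨b, h⟩
  · exact Or.inl h
  · exact Or.inr ⟨_, h⟩

theorem depthAt_and {k : Fin C.nodes} {i j : Fin (k : ℕ)} (h : C.gate k = .and i j) :
    C.depthAt k = max (C.depthAt (C.up k i)) (C.depthAt (C.up k j)) + 1 := by
  rw [depthAt]
  split <;> simp_all

theorem depthAt_or {k : Fin C.nodes} {i j : Fin (k : ℕ)} (h : C.gate k = .or i j) :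
    C.depthAt k = max (C.depthAt (C.up k i)) (C.depthAt (C.up k j)) + 1 := by
  rw [depthAt]
  split <;> simp_all

theorem pow_aux {a b l1 l2 : ℕ} (h1 : l1 + 1 ≤ 2 ^ (a + 1)) (h2 : l2 + 1 ≤ 2 ^ (b + 1)) :
    (l1 + l2 + 1) + 1 ≤ 2 ^ (max a b + 1 + 1) := by
  have h3 : 2 ^ (a + 1) ≤ 2 ^ (max a b + 1) := Nat.pow_le_pow_right (by norm_num) (by omega)
  have h4 : 2 ^ (b + 1) ≤ 2 ^ (max a b + 1) := Nat.pow_le_pow_right (by norm_num) (by omega)
  have h5 : 2 ^ (max a b + 1 + 1) = 2 * 2 ^ (max a b + 1) := by ring
  omega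

/-- a short list for a node of small depth -/
theorem prog_depth (c : Fin C.nodes → Bool) (k : Fin C.nodes) :
    ∃ l : List ((Fin n → Bool) → ℝ), Prog (inpB n) l ∧ l.length + 1 ≤ 2 ^ (C.depthAt k + 1) ∧
      C.fn c k ∈ l := by
  induction k using WellFoundedLT.induction with
  | _ k ih =>
  by_cases ha : ∃ i j, C.gate k = .and i j
  · obtain ⟨i, j, hg⟩ := ha
    obtain ⟨l1, p1, q1, r1⟩ := ih _ (C.up_lt k i)
    obtain ⟨l2, p2, q2, r2⟩ := ih _ (C.up_lt k j)
    refine ⟨_ :: (l1 ++ l2), Prog.gate (prog_append p2 p1) mono2_min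
      (List.mem_append_left _ r1) (List.mem_append_right _ r2), ?_, ?_⟩
    · rw [List.length_cons, List.length_append, C.depthAt_and hg]
      exact pow_aux q1 q2
    · rw [C.fn_and hg]
      exact List.mem_cons_self
  by_cases ho : ∃ i j, C.gate k = .or i j
  · obtain ⟨i, j, hg⟩ := ho
    obtain ⟨l1, p1, q1, r1⟩ := ih _ (C.up_lt k i)
    obtain ⟨l2, p2, q2, r2⟩ := ih _ (C.up_lt k j)
    refine ⟨_ :: (l1 ++ l2), Prog.gate (prog_append p2 p1) mono2_max
      (List.mem_append_left _ r1) (List.mem_append_right _ r2), ?_, ?_⟩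
    · rw [List.length_cons, List.length_append, C.depthAt_or hg]
      exact pow_aux q1 q2
    · rw [C.fn_or hg]
      exact List.mem_cons_self
  · refine ⟨[C.fn c k], Prog.input Prog.nil (C.fn_mem_inp (fun i j h => ha ⟨i, j, h⟩)
      fun i j h => ho ⟨i, j, h⟩), ?_, List.mem_cons_self⟩
    simp only [List.length_cons, List.length_nil]
    have : 2 ^ (0 + 1) ≤ 2 ^ (C.depthAt k + 1) := Nat.pow_le_pow_right (by norm_num) (by omega)
    omega

/-- all functions of the circuit -/
theorem prog_size (c : Fin C.nodes → Bool) :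
    ∃ l : List ((Fin n → Bool) → ℝ), Prog (inpB n) l ∧ l.length ≤ C.size + n + 2 ∧
      ∀ k, C.fn c k ∈ l := by
  let AO : Fin C.nodes → Prop := fun k =>
    (∃ i j, C.gate k = .and i j) ∨ ∃ i j, C.gate k = .or i j
  have key : ∀ m : ℕ, m ≤ C.nodes → ∃ l : List ((Fin n → Bool) → ℝ), Prog (inpB n) l ∧
      l.length ≤ (univ.filter fun k : Fin C.nodes => k.1 < m ∧ AO k).card + n + 2 ∧
      (∀ i, (fun x : Fin n → Bool => if x i = true then (1 : ℝ) else 0) ∈ l) ∧
      (∀ b : Bool, (fun _ : Fin n → Bool => if b = true then (1 : ℝ) else 0) ∈ l) ∧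
      ∀ k : Fin C.nodes, k.1 < m → C.fn c k ∈ l := by
    intro m
    induction m with
    | zero =>
      intro _
      have hvars : ∀ L : List (Fin n), ∃ l : List ((Fin n → Bool) → ℝ), Prog (inpB n) l ∧
          l.length = L.length ∧
          ∀ i ∈ L, (fun x : Fin n → Bool => if x i = true then (1 : ℝ) else 0) ∈ l := by
        intro L
        induction L with
        | nil => exact ⟨[], Prog.nil, rfl, fun i hi => absurd hi (by simp)⟩
        | cons i L ih =>
          obtain ⟨l, p, q, r⟩ := ih
          refine ⟨_ :: l, Prog.input p (Or.inl ⟨i, rfl⟩), by simp [q], ?_⟩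
          intro i' hi'
          rcases List.mem_cons.1 hi' with rfl | h
          · exact List.mem_cons_self
          · exact List.mem_cons_of_mem _ (r i' h)
      obtain ⟨l, p, q, r⟩ := hvars (List.finRange n)
      refine ⟨_ :: _ :: l, Prog.input (Prog.input p (Or.inr ⟨0, rfl⟩)) (Or.inr ⟨1, rfl⟩), ?_,
        fun i => List.mem_cons_of_mem _ (List.mem_cons_of_mem _ (r i (List.mem_finRange i))), ?_,
        fun k hk => absurd hk (by omega)⟩
      · rw [List.length_cons, List.length_cons, q, List.length_finRange]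
        omega
      · intro b
        cases b
        · simp
        · simp
    | succ m ih =>
      intro hm
      obtain ⟨l, p, q, r1, r2, r3⟩ := ih (by omega)
      set k : Fin C.nodes := ⟨m, by omega⟩ with hk
      have hlast : ∀ k' : Fin C.nodes, k'.1 < m + 1 → k'.1 < m ∨ k' = k := by
        intro k' hk'
        rcases Nat.lt_succ_iff_lt_or_eq.1 hk' with h | h
        · exact Or.inl h
        · exact Or.inr (Fin.ext h)
      by_cases hAO : AO k
      · have hcard : (univ.filter fun k : Fin C.nodes => k.1 < m ∧ AO k).card + 1 ≤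
            (univ.filter fun k : Fin C.nodes => k.1 < m + 1 ∧ AO k).card := by
          have h1 : k ∉ (univ.filter fun k : Fin C.nodes => k.1 < m ∧ AO k) := by
            intro h
            exact absurd (mem_filter.1 h).2.1 (by simp [hk])
          rw [← card_insert_of_notMem h1]
          refine card_le_card ?_
          intro k' hk'
          rcases mem_insert.1 hk' with rfl | h
          · exact mem_filter.2 ⟨mem_univ _, by simp [hk], hAO⟩
          · have := (mem_filter.1 h).2
            exact mem_filter.2 ⟨mem_univ _, by omega, this.2⟩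
        have hnew : ∃ f, f = C.fn c k ∧ Prog (inpB n) (f :: l) := by
          rcases hAO with ⟨i, j, hg⟩ | ⟨i, j, hg⟩
          · exact ⟨_, (C.fn_and hg).symm, Prog.gate p mono2_min (r3 _ i.2) (r3 _ j.2)⟩
          · exact ⟨_, (C.fn_or hg).symm, Prog.gate p mono2_max (r3 _ i.2) (r3 _ j.2)⟩
        obtain ⟨f, rfl, hf⟩ := hnew
        refine ⟨_, hf, ?_, fun i => List.mem_cons_of_mem _ (r1 i),
          fun b => List.mem_cons_of_mem _ (r2 b), ?_⟩
        · rw [List.length_cons]
          omega
        · intro k' hk'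
          rcases hlast k' hk' with h | rfl
          · exact List.mem_cons_of_mem _ (r3 k' h)
          · exact List.mem_cons_self
      · refine ⟨l, p, ?_, r1, r2, ?_⟩
        · refine q.trans ?_
          have : (univ.filter fun k : Fin C.nodes => k.1 < m ∧ AO k).card ≤
              (univ.filter fun k : Fin C.nodes => k.1 < m + 1 ∧ AO k).card := by
            refine card_le_card ?_
            intro k' hk'
            have := (mem_filter.1 hk').2
            exact mem_filter.2 ⟨mem_univ _, by omega, this.2⟩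
          omega
        · intro k' hk'
          rcases hlast k' hk' with h | rfl
          · exact r3 k' h
          · rcases C.fn_inp (c := c) (k := k) (fun i j h => hAO (Or.inl ⟨i, j, h⟩))
              (fun i j h => hAO (Or.inr ⟨i, j, h⟩)) with ⟨i, h⟩ | ⟨b, h⟩
            · rw [h]
              exact r1 i
            · rw [h]
              exact r2 b
  obtain ⟨l, p, q, -, -, r3⟩ := key C.nodes le_rfl
  refine ⟨l, p, q.trans ?_, fun k => r3 k k.2⟩
  have : (univ.filter fun k : Fin C.nodes => k.1 < C.nodes ∧ AO k).card ≤ C.size := by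
    rw [size, Nat.card_eq_fintype_card, Fintype.card_subtype]
    refine card_le_card ?_
    intro k' hk'
    exact mem_filter.2 ⟨mem_univ _, (mem_filter.1 hk').2.2⟩
  omega

theorem depthAt_not {k : Fin C.nodes} {i : Fin (k : ℕ)} (h : C.gate k = .not i) :
    C.depthAt k = C.depthAt (C.up k i) := by
  rw [depthAt]
  split <;> simp_all

theorem depthAt_inp {k v : Fin C.nodes} (h : Inp C k v) : C.depthAt v ≤ C.depthAt k := by
  rcases h with ⟨i, h, rfl⟩ | ⟨i, j, h | h, rfl | rfl⟩
  · rw [C.depthAt_not h]
  · rw [C.depthAt_and h]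
    omega
  · rw [C.depthAt_and h]
    omega
  · rw [C.depthAt_or h]
    omega
  · rw [C.depthAt_or h]
    omega

theorem depthAt_reach {v : Fin C.nodes} (h : Reach C v) : C.depthAt v ≤ C.depth := by
  induction h with
  | out => exact le_rfl
  | step k v _ hv ih => exact (C.depthAt_inp hv).trans ih

/-- the functions of the guesses are computed by programs -/
theorem prog_guess (γ : C.Guess) (s : ℕ)
    (hs : C.size + n + 2 ≤ s ∨ 2 ^ (C.depth + 1) ≤ s) :
    ∃ l : List ((Fin n → Bool) → ℝ), Prog (inpB n) l ∧ l.length ≤ s ∧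
      ∃ f ∈ l, ∀ x, 1 ≤ f x ↔ C.Acc γ x := by
  by_cases hr : Reach C (C.target γ.1)
  · have hval : ∀ x, 1 ≤ C.fn (C.ext γ.2) (C.target γ.1) x ↔ C.Acc γ x := by
      intro x
      unfold fn Acc
      split_ifs with h
      · exact ⟨fun _ => ⟨hr, h⟩, fun _ => le_rfl⟩
      · exact ⟨fun h' => absurd h' (by norm_num), fun h' => absurd h'.2 h⟩
    rcases hs with hs | hs
    · obtain ⟨l, p, q, r⟩ := C.prog_size (C.ext γ.2)
      exact ⟨l, p, by omega, _, r _, hval⟩
    · obtain ⟨l, p, q, r⟩ := C.prog_depth (C.ext γ.2) (C.target γ.1)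
      refine ⟨l, p, ?_, _, r, hval⟩
      have h1 := C.depthAt_reach hr
      have h2 : 2 ^ (C.depthAt (C.target γ.1) + 1) ≤ 2 ^ (C.depth + 1) :=
        Nat.pow_le_pow_right (by norm_num) (by omega)
      omega
  · refine ⟨[fun _ => 0], Prog.input Prog.nil (Or.inr ⟨0, rfl⟩), ?_, _, List.mem_cons_self, ?_⟩
    · have h1 : 1 ≤ 2 ^ (C.depth + 1) := Nat.one_le_two_pow
      rw [List.length_singleton]
      omega
    · intro x
      exact ⟨fun h => absurd h (by norm_num), fun h => absurd h.1 hr⟩

end Circuit

end Pool.Agent.L0h35.Ng
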