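import Pool.Agent.L0h35.NgHost
import Pool.Agent.L0h35.NgChain
import Pool.Agent.L0h35.NgCirc

/-!
# Circuits with few NOT gates for functions made of blocks
-/

set_option autoImplicit false

open scoped Classical
open Finset

namespace Pool.Agent.L0h35.Ng

open H630VC (Prog marked)
open H589DT

theorem frac_conv {X : Type} (i j : Fintype X) (p : X → Prop) (d d' : DecidablePred p) (R : ℝ)
    (h : ((@Finset.filter X p d (@univ X i)).card : ℝ) / @Fintype.card X i ≤ R) :
    ((@Finset.filter X p d' (@univ X j)).card : ℝ) / @Fintype.card X j ≤ R := by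
  have h1 := Subsingleton.elim i j
  subst h1
  have h2 := Subsingleton.elim d d'
  subst h2
  exact h

theorem card_sub {α : Type} (N : Finset α) (p : α → Prop) :
    (univ.filter fun y : {y // y ∈ N} => p y.1).card = (N.filter p).card := by
  rw [← card_map (Function.Embedding.subtype _)]
  congr 1
  ext y
  simp only [mem_map, mem_filter, mem_univ, true_and, Function.Embedding.subtype_apply]
  constructor
  · rintro ⟨⟨z, hz⟩, h1, rfl⟩
    exact ⟨hz, h1⟩
  · rintro ⟨h1, h2⟩
    exact ⟨⟨y, h1⟩, h2, rfl⟩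

theorem nc_nonempty {P Λ : Type} [Fintype P] [Fintype Λ] {M Q : ℕ} (hQ : 1 ≤ Q)
    (h1 : 8 * (Fintype.card P * Fintype.card Λ ^ 2 * M ^ 2) ≤ Q ^ 2) :
    (NCset P Λ M Q).Nonempty := by
  have hnc := nc_card hQ h1
  rw [← card_pos]
  have : Nonempty (Smp P Λ M Q) := ⟨fun _ _ => ⟨0, hQ⟩⟩
  have h3 : (0 : ℝ) < (Fintype.card (Smp P Λ M Q) : ℝ) := by
    exact_mod_cast Fintype.card_pos
  have h4 : (0 : ℝ) < ((NCset P Λ M Q).card : ℝ) := by linarith
  exact_mod_cast h4

section

variable {U E Λ A : Type} [Fintype U] [Fintype E] [Fintype Λ] [Fintype A] {n b : ℕ}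

/-- **Blocks and few NOT gates.** -/
theorem gen_main [Nonempty A] (G : CGraph U E Λ) {L M Q r S : ℕ} (F : Local U Λ (2 * L))
    (hF : ∀ T ρ, F.C T ρ → G.SatOn T ρ) (hL : 1 ≤ L) (hM : 1 ≤ M) (hQ : 1 ≤ Q)
    (hA : 8 * ((8 * L + 1) * Q) ≤ Fintype.card A)
    (h1 : 8 * (Fintype.card U * Fintype.card A * Fintype.card Λ ^ 2 * M ^ 2) ≤ Q ^ 2)
    (h2 : 8 * (2 * L * Fintype.card Λ * M) ≤ Q)
    (enc : (Fin b → Finset (E × A × A)) → Fin n → Bool)
    (hmono : ∀ c c', (∀ t, c t ⊆ c' t) → ∀ i, enc c i = true → enc c' i = true)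
    (hhost : ∀ (Y : Type) (negC : Y → Finset (E × A × A)), ∀ t < b, ∀ w : Fin b → Y,
      HostInputs (fun H => enc (stepA negC ∅ t w H)) (Circuit.inpB n))
    (D : (Fin n → Bool) → Prop)
    (hin : ∀ (c : Fin b → Finset (E × A × A)) (t : Fin b) (x : U → A), hx G x ⊆ c t → D (enc c))
    (hout : ∀ (c : Fin b → Finset (E × A × A)) (T : Fin b → Finset ((U × A) × Λ)),
      (∀ t, NoConflict (T t)) → (∀ t, c t ⊆ hT G (T t)) → ¬ D (enc c))
    (hδ : (b : ℝ) * (S * (1 / 8 ^ L +
      2 * ((Fintype.card U * Fintype.card A * Fintype.card Λ + 1 : ℕ) : ℝ) ^ (2 * L) / 2 ^ M)) ≤ 1)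
    {Ω : Type} [Fintype Ω] [Nonempty Ω] (C : Ω → Circuit n) (hr : ∀ o, (C o).nots ≤ r)
    (hC : ∀ o, (C o).size + n + 2 ≤ S ∨ 2 ^ ((C o).depth + 1) ≤ S)
    (hright : ∀ x : Fin n → Bool, 3 * Fintype.card Ω ≤
      4 * (univ.filter fun o => (C o).value x = true ↔ D x).card) :
    b ≤ 4 * ((r + 1) * 2 ^ r) := by
  have hne : (NCset (U × A) Λ M Q).Nonempty := nc_nonempty hQ (by
    rw [Fintype.card_prod]
    exact h1)
  let Y : Type := {y // y ∈ NCset (U × A) Λ M Q}
  have : Nonempty Y := hne.to_subtype
  let negC : Y → Finset (E × A × A) := fun y => hT G (marked y.1)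
  let posC : (U → A) → Finset (E × A × A) := fun x => hx G x
  have hmn : ∀ (t : ℕ) (w : Fin b → Y) (c : Finset (E × A × A)) (l : Fin b),
      lowA negC ∅ t w l ⊆ stepA negC ∅ t w c l := by
    intro t w c l
    unfold lowA stepA
    split_ifs
    · exact Subset.rfl
    · exact empty_subset _
    · exact empty_subset _
  refine chain_main (X := U → A) (Y := Y)
    (S := Finset (E × A × A)) (b := b) (Ω := Ω) posC negC ∅
    (S * (1 / 8 ^ L + 2 * ((Fintype.card U * Fintype.card A * Fintype.card Λ + 1 : ℕ) : ℝ) ^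
      (2 * L) / 2 ^ M)) hδ
    (Γ := fun o => (C o).Guess) ((r + 1) * 2 ^ r) ?_
    (fun o γ c => (C o).Acc γ (enc c)) ?_ ?_ ?_
  · intro o
    rw [(C o).card_guess]
    exact Nat.mul_le_mul (Nat.succ_le_succ (hr o)) (Nat.pow_le_pow_right (by norm_num) (hr o))
  · intro o γ t ht w x h
    exact (C o).acc_mono γ (hmono _ _ (hmn t w _)) h
  · intro o γ t ht w
    obtain ⟨l, hl, hlen, f, hf, hacc⟩ := (C o).prog_guess γ S (hC o)
    have key := host G L M Q F hF hL hM hQ hA h1 h2 (Fin n → Bool)
      (fun H => enc (stepA negC ∅ t w H)) (Circuit.inpB n) (hhost Y negC t ht w) l hl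
      f hf 1
    simp only [hacc] at key
    have e1 : ((univ.filter fun y : Y => (C o).Acc γ (enc
        (stepA negC ∅ t w (negC y)))).card : ℝ) / Fintype.card Y =
        (((NCset (U × A) Λ M Q).filter fun ω =>
          (C o).Acc γ (enc (stepA negC ∅ t w (hT G (marked ω))))).card : ℝ) /
        (NCset (U × A) Λ M Q).card := by
      rw [← card_sub (NCset (U × A) Λ M Q)
        (fun ω => (C o).Acc γ (enc (stepA negC ∅ t w (hT G (marked ω)))))]
      congr 2
      exact Fintype.card_coe _
    rw [e1]
    refine frac_conv _ _ _ _ _ _ (key.trans (add_le_add le_rfl ?_))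
    refine mul_le_mul_of_nonneg_right (by exact_mod_cast hlen) (by positivity)
  · intro t ht w x
    set yp := enc (stepA negC ∅ t w (posC x)) with hyp
    set yl := enc (lowA negC ∅ t w) with hyl
    have hin' : D yp := by
      refine hin _ ⟨t, ht⟩ x ?_
      unfold stepA
      rw [if_neg (lt_irrefl _), if_pos rfl]
    have hout' : ¬ D yl := by
      refine hout _ (fun l => if l.1 < t then marked (w l).1 else ∅) ?_ ?_
      · intro l
        split_ifs
        · have := (w l).2
          unfold NCset at this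
          exact (mem_filter.1 this).2
        · intro p σ τ h
          simp at h
      · intro l
        unfold lowA
        split_ifs
        · exact Subset.rfl
        · exact empty_subset _
    have r1 := hright yp
    have r2 := hright yl
    have c1 : (univ.filter fun o => (C o).value yp = true ↔ D yp) =
        univ.filter fun o => (C o).value yp = true :=
      filter_congr fun o _ => ⟨fun h => h.2 hin', fun h => ⟨fun _ => hin', fun _ => h⟩⟩
    have c2 : (univ.filter fun o => (C o).value yl = true ↔ D yl) =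
        univ.filter fun o => (C o).value yl = false :=
      filter_congr fun o _ => ⟨fun h => by
        rw [← Bool.not_eq_true]
        exact fun h' => hout' (h.1 h'), fun h => ⟨fun h' => by
          rw [h] at h'
          exact absurd h' (by simp), fun h' => absurd h' hout'⟩⟩
    rw [c1] at r1
    rw [c2] at r2
    have hsub : (univ.filter fun o => (C o).value yp = true) ∩
        (univ.filter fun o => (C o).value yl = false) ⊆ univ.filter fun o => ∃ γ : (C o).Guess,
          (C o).Acc γ yp ∧ ¬ (C o).Acc γ yl := by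
      intro o ho
      obtain ⟨h3, h4⟩ := mem_inter.1 ho
      exact mem_filter.2 ⟨mem_univ _, (C o).exists_guess (fun i hi => hmono _ _ (hmn t w _) i hi)
        (mem_filter.1 h4).2 (mem_filter.1 h3).2⟩
    have h5 := card_le_card hsub
    have h6 := card_union_add_card_inter (univ.filter fun o => (C o).value yp = true)
      (univ.filter fun o => (C o).value yl = false)
    have h7 := card_le_univ ((univ.filter fun o => (C o).value yp = true) ∪
      (univ.filter fun o => (C o).value yl = false))
    omega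

end

end Pool.Agent.L0h35.Ng
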