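import Pool.Agent.L0h35.NgEmb
import Pool.Agent.L0h35.NgGen

/-!
# Circuits with few NOT gates for blocks of systems of equations
-/

set_option autoImplicit false

open scoped Classical
open Finset

namespace Pool.Agent.NPC.L0h35Ng

open H630VC (Prog marked)
open H589DT
open Pool.Agent.L0h35.Ng

section blk

variable {nn a b n j : ℕ} {φ : Fin nn → Fin 17 → Fin nn} {B : Finset (Fin nn)}
  {s : Fin nn → Fin 17 → ZMod 17}

theorem enc_mono {c c' : Fin b → Finset (EE 17 B × Fin a × Fin a)} (h : ∀ t, c t ⊆ c' t)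
    (i : Fin n) (hi : enc a b n j φ B s c i = true) : enc a b n j φ B s c' i = true := by
  unfold enc at hi ⊢
  rw [decide_eq_true_iff] at hi ⊢
  obtain ⟨t, q, hq, hp⟩ := hi
  exact ⟨t, q, h t hq, hp⟩

/-- the bits of the instance as functions of one block -/
theorem enc_host {Y : Type} (hj : j < n.size + 1) (hm : nn * a ≤ 2 ^ j)
    (negC : Y → Finset (EE 17 B × Fin a × Fin a)) {t : ℕ} (ht : t < b) (w : Fin b → Y) :
    HostInputs (fun H => enc a b n j φ B s (stepA negC ∅ t w H)) (Circuit.inpB n) := by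
  rintro g (⟨i, rfl⟩ | ⟨v, rfl⟩)
  · by_cases hq : ∃ q : EE 17 B × Fin a × Fin a, posn φ B s n j t q = i.1
    · obtain ⟨q, hq⟩ := hq
      right
      refine ⟨q, fun H => ?_⟩
      have h1 : enc a b n j φ B s (stepA negC ∅ t w H) i = true ↔ q ∈ H := by
        unfold enc
        rw [decide_eq_true_iff]
        constructor
        · rintro ⟨t', q', h1, h2⟩
          obtain ⟨h3, rfl⟩ := posn_inj hj hm (h2.trans hq.symm)
          unfold stepA at h1
          rw [if_neg (by omega), if_pos h3] at h1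
          exact h1
        · intro h
          refine ⟨⟨t, ht⟩, q, ?_, hq⟩
          unfold stepA
          rw [if_neg (lt_irrefl _), if_pos rfl]
          exact h
      dsimp only
      by_cases h : q ∈ H
      · rw [if_pos (h1.2 h), if_pos h]
      · rw [if_neg (fun h' => h (h1.1 h')), if_neg h]
    · left
      refine ⟨if enc a b n j φ B s (stepA negC ∅ t w ∅) i = true then 1 else 0, fun H => ?_⟩
      dsimp only
      have h1 : enc a b n j φ B s (stepA negC ∅ t w H) i = enc a b n j φ B s (stepA negC ∅ t w ∅) i := by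
        unfold enc
        rw [decide_eq_decide]
        refine exists_congr fun t' => exists_congr fun q => ?_
        constructor
        · rintro ⟨h1, h2⟩
          have hne : t'.1 ≠ t := fun h => hq ⟨q, by rw [← h]; exact h2⟩
          refine ⟨?_, h2⟩
          unfold stepA at h1 ⊢
          rw [if_neg hne] at h1 ⊢
          exact h1
        · rintro ⟨h1, h2⟩
          have hne : t'.1 ≠ t := fun h => hq ⟨q, by rw [← h]; exact h2⟩
          refine ⟨?_, h2⟩
          unfold stepA at h1 ⊢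
          rw [if_neg hne] at h1 ⊢
          exact h1
      rw [h1]
  · exact Or.inl ⟨v, fun _ => rfl⟩

/-- **Blocks and few NOT gates.** -/
theorem block_main (ha : 1 ≤ a) {L M Q r S : ℕ}
    (F : Local (Fin nn ⊕ Fin nn) (ZMod 17 × Fin 17) (2 * L))
    (hF : ∀ T ρ, F.C T ρ → (gameGraph (d := 17) φ B s).SatOn T ρ)
    (hj : j < n.size + 1) (hm : nn * a ≤ 2 ^ j)
    (hn : b * (2 ^ j) ^ 2 * 289 * (n.size + 1) ≤ n) (hL : 1 ≤ L) (hM : 1 ≤ M) (hQ : 1 ≤ Q)
    (hA : 8 * ((8 * L + 1) * Q) ≤ a) (h1 : 8 * (2 * nn * a * 289 ^ 2 * M ^ 2) ≤ Q ^ 2)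
    (h2 : 8 * (2 * L * 289 * M) ≤ Q)
    (hs : ∀ (x : Fin nn → ZMod 17 × Fin 17) (y : Fin nn → ZMod 17), ∃ e : Fin nn × Fin 17,
      e.1 ∉ B ∧ (x e.1).1 - ((e.2 : ℕ) : ZMod 17) * (((x e.1).2 : ℕ) : ZMod 17) + s e.1 e.2
        ≠ y (φ e.1 e.2))
    (hδ : (b : ℝ) * (S * (1 / 8 ^ L +
      2 * ((2 * nn * a * 289 + 1 : ℕ) : ℝ) ^ (2 * L) / 2 ^ M)) ≤ 1)
    {Ω : Type} [Fintype Ω] [Nonempty Ω] (C : Ω → Circuit n) (hr : ∀ o, (C o).nots ≤ r)
    (hC : ∀ o, (C o).size + n + 2 ≤ S ∨ 2 ^ ((C o).depth + 1) ≤ S)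
    (hright : ∀ x : Fin n → Bool, 3 * Fintype.card Ω ≤
      4 * (univ.filter fun o => (C o).value x = true ↔ List.ofFn x ∈ UnsolvL).card) :
    b ≤ 4 * ((r + 1) * 2 ^ r) := by
  have hcU : Fintype.card (Fin nn ⊕ Fin nn) = 2 * nn := by
    rw [Fintype.card_sum, Fintype.card_fin]
    ring
  have hcL : Fintype.card (ZMod 17 × Fin 17) = 289 := by
    rw [Fintype.card_prod, ZMod.card, Fintype.card_fin]
  have hcA : Fintype.card (Fin a) = a := Fintype.card_fin a
  have hAne : Nonempty (Fin a) := ⟨⟨0, ha⟩⟩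
  refine gen_main (U := Fin nn ⊕ Fin nn) (Λ := ZMod 17 × Fin 17) (A := Fin a)
    (gameGraph (d := 17) φ B s) F hF hL hM hQ (by rw [hcA]; exact hA)
    (by rw [hcU, hcL, hcA]; exact h1) (by rw [hcL]; exact h2) (enc a b n j φ B s)
    (fun c c' h i hi => enc_mono h i hi) (fun Y negC t ht w => enc_host hj hm negC ht w)
    (fun x => List.ofFn x ∈ UnsolvL) (fun c t x h => enc_unsolv hj hm hn hs c t x h)
    (fun c T h0 h => enc_solv hj hm c T h0 h) (by rw [hcU, hcL, hcA]; exact hδ) C hr hC hright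

end blk

end Pool.Agent.NPC.L0h35Ng
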