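import Mathlib

set_option autoImplicit false

/-!
# Boolean circuits with AND, OR and NOT gates
-/

namespace Pool.Agent.L0h35.Ng

/-- The label of node number `k` of a circuit with `n` inputs: an input variable, a constant, or a
NOT, AND or OR gate whose inputs are nodes with smaller numbers. -/
inductive Gate (n k : ℕ) : Type
  | var (i : Fin n) : Gate n k
  | const (b : Bool) : Gate n k
  | not (i : Fin k) : Gate n k
  | and (i j : Fin k) : Gate n k
  | or (i j : Fin k) : Gate n k

/-- A circuit with `n` inputs: finitely many nodes, listed in a topological order of the
underlying directed acyclic graph, and an output node. -/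
structure Circuit (n : ℕ) : Type where
  /-- number of nodes -/
  nodes : ℕ
  /-- the labels of the nodes -/
  gate : (k : Fin nodes) → Gate n k
  /-- the output node -/
  out : Fin nodes

namespace Circuit

variable {n : ℕ}

/-- an earlier node, seen as a node of the circuit -/
def up (C : Circuit n) (k : Fin C.nodes) (i : Fin (k : ℕ)) : Fin C.nodes := ⟨i, i.2.trans k.2⟩

/-- The value at a node for the input `x`. -/
def eval (C : Circuit n) (x : Fin n → Bool) (k : Fin C.nodes) : Bool :=
  match C.gate k with
  | .var i => x i
  | .const b => b
  | .not i => !C.eval x (C.up k i)
  | .and i j => C.eval x (C.up k i) && C.eval x (C.up k j)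
  | .or i j => C.eval x (C.up k i) || C.eval x (C.up k j)
termination_by (k : ℕ)
decreasing_by all_goals simp [up]

/-- The value of the circuit for the input `x`. -/
def value (C : Circuit n) (x : Fin n → Bool) : Bool := C.eval x C.out

/-- The largest number of AND and OR gates on a path to the node `k`. -/
def depthAt (C : Circuit n) (k : Fin C.nodes) : ℕ :=
  match C.gate k with
  | .var _ => 0
  | .const _ => 0
  | .not i => C.depthAt (C.up k i)
  | .and i j => max (C.depthAt (C.up k i)) (C.depthAt (C.up k j)) + 1
  | .or i j => max (C.depthAt (C.up k i)) (C.depthAt (C.up k j)) + 1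
termination_by (k : ℕ)
decreasing_by all_goals simp [up]

/-- The depth of a circuit: the largest number of AND and OR gates on a path to the output. (NOT
gates are not counted, so this is at most the length of a longest path.) -/
def depth (C : Circuit n) : ℕ := C.depthAt C.out

/-- the number of NOT gates -/
noncomputable def nots (C : Circuit n) : ℕ := Nat.card {k : Fin C.nodes // ∃ i, C.gate k = .not i}

/-- the number of AND and OR gates -/
noncomputable def size (C : Circuit n) : ℕ :=
  Nat.card {k : Fin C.nodes // (∃ i j, C.gate k = .and i j) ∨ ∃ i j, C.gate k = .or i j}

end Circuit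

end Pool.Agent.L0h35.Ng
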