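import Pool.Agent.L0h35.NgBlock
import Pool.Agent.H589R3.DT.Main

/-!
# The choice of the parameters
-/

set_option autoImplicit false

open scoped Classical
open Finset

namespace Pool.Agent.NPC.L0h35Ng

open H630VC (Prog marked)
open H589DT
open Pool.Agent.L0h35.Ng

/-- the number of edges is large enough for the union bound -/
theorem union_num {nn EC : ℕ} (hn : 1 ≤ nn) (hE : nn * 17 ≤ 2 * EC) :
    (17 * 17 ^ 2) ^ nn * 2 ^ (17 * nn) < 17 ^ EC := by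
  have h1 : ((17 * 17 ^ 2) ^ nn * 2 ^ (17 * nn)) ^ 2 < (17 ^ EC) ^ 2 := by
    calc ((17 * 17 ^ 2) ^ nn * 2 ^ (17 * nn)) ^ 2 = ((17 * 17 ^ 2 * 2 ^ 17) ^ 2) ^ nn := by
          rw [mul_comm 17 nn, mul_comm nn 17, pow_mul, ← mul_pow, ← pow_mul, ← pow_mul, mul_comm nn 2]
      _ < (17 ^ 17) ^ nn := Nat.pow_lt_pow_left (by norm_num) (by omega)
      _ = 17 ^ (17 * nn) := by rw [← pow_mul]
      _ ≤ 17 ^ (EC * 2) := Nat.pow_le_pow_right (by norm_num) (by omega)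
      _ = (17 ^ EC) ^ 2 := by rw [← pow_mul]
  exact lt_of_pow_lt_pow_left₀ 2 (by positivity) h1

/-- the fourth numerical condition -/
theorem num4 {L b nn a M : ℕ} (hL : 1 ≤ L) (hL1 : 73985 ≤ L) (hnn : nn = L ^ 3)
    (ha : a = 128 * L ^ 10) (hM : M = L ^ 2) (hL0 : 16 * L ^ 28 ≤ 2 ^ L) (hb : b ≤ 2 ^ L) :
    (b : ℝ) * ((2 ^ L : ℕ) * (1 / 8 ^ L +
      2 * ((2 * nn * a * 289 + 1 : ℕ) : ℝ) ^ (2 * L) / 2 ^ M)) ≤ 1 := by
  have h2 : 2 * nn * a * 289 + 1 ≤ L ^ 14 := by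
    have e1 : 2 * nn * a * 289 = 73984 * L ^ 13 := by rw [hnn, ha]; ring
    have e2 : 1 ≤ L ^ 13 := Nat.one_le_pow _ _ hL
    calc 2 * nn * a * 289 + 1 = 73984 * L ^ 13 + 1 := by rw [e1]
      _ ≤ 73985 * L ^ 13 := by omega
      _ ≤ L * L ^ 13 := Nat.mul_le_mul_right _ hL1
      _ = L ^ 14 := by ring
  -- natural number inequality
  have h3 : 4 ^ L * (2 * (2 * nn * a * 289 + 1) ^ (2 * L)) * 2 ≤ 2 ^ M := by
    have e8 : (4 : ℕ) ≤ 4 ^ L := Nat.le_self_pow (by omega) 4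
    calc 4 ^ L * (2 * (2 * nn * a * 289 + 1) ^ (2 * L)) * 2
        = 4 ^ L * (2 * nn * a * 289 + 1) ^ (2 * L) * 4 := by ring
      _ ≤ 4 ^ L * (L ^ 14) ^ (2 * L) * 4 ^ L :=
          Nat.mul_le_mul (Nat.mul_le_mul_left _ (Nat.pow_le_pow_left h2 _)) e8
      _ = (16 * L ^ 28) ^ L := by
          have a1 : (16 : ℕ) ^ L = 4 ^ L * 4 ^ L := by rw [← mul_pow]; norm_num
          have a2 : (L ^ 14) ^ (2 * L) = (L ^ 28) ^ L := by rw [← pow_mul, ← pow_mul]; ring_nf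
          rw [mul_pow, a1, a2]
          ring
      _ ≤ (2 ^ L) ^ L := Nat.pow_le_pow_left hL0 L
      _ = 2 ^ M := by rw [hM, ← pow_mul, pow_two]
  set W : ℝ := ((2 * nn * a * 289 + 1 : ℕ) : ℝ) ^ (2 * L) with hW
  have h3' : (4 : ℝ) ^ L * (2 * W) * 2 ≤ 2 ^ M := by
    rw [hW]
    exact_mod_cast h3
  have hW0 : 0 ≤ W := by positivity
  have hb' : (b : ℝ) ≤ 2 ^ L := by exact_mod_cast hb
  have h4 : (b : ℝ) * ((2 ^ L : ℕ) * (1 / 8 ^ L + 2 * W / 2 ^ M)) ≤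
      2 ^ L * (2 ^ L * (1 / 8 ^ L + 2 * W / 2 ^ M)) := by
    push_cast
    exact mul_le_mul_of_nonneg_right hb' (by positivity)
  refine h4.trans ?_
  have h5 : (2 : ℝ) ^ L * (2 ^ L * (1 / 8 ^ L + 2 * W / 2 ^ M)) =
      4 ^ L / 8 ^ L + 4 ^ L * (2 * W) / 2 ^ M := by
    have : (4 : ℝ) ^ L = 2 ^ L * 2 ^ L := by rw [← mul_pow]; norm_num
    rw [this]
    ring
  rw [h5]
  have h6 : (4 : ℝ) ^ L / 8 ^ L ≤ 1 / 2 := by
    rw [← div_pow]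
    have e1 : (4 / 8 : ℝ) = 1 / 2 := by norm_num
    rw [e1]
    calc (1 / 2 : ℝ) ^ L ≤ (1 / 2) ^ 1 := pow_le_pow_of_le_one (by norm_num) (by norm_num) hL
      _ = 1 / 2 := pow_one _
  have h7 : (4 : ℝ) ^ L * (2 * W) / 2 ^ M ≤ 1 / 2 := by
    rw [div_le_iff₀ (by positivity)]
    linarith
  linarith

/-- **The core.** -/
theorem core : ∃ L1 : ℕ, ∀ L : ℕ, L1 ≤ L → ∀ n j b r : ℕ, 128 * L ^ 13 ≤ 2 ^ j →
    j < n.size + 1 → b * (2 ^ j) ^ 2 * 289 * (n.size + 1) ≤ n → b ≤ 2 ^ L →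
    ∀ (Ω : Type) [Fintype Ω] [Nonempty Ω] (C : Ω → Circuit n), (∀ o, (C o).nots ≤ r) →
    (∀ o, (C o).size + n + 2 ≤ 2 ^ L ∨ 2 ^ ((C o).depth + 1) ≤ 2 ^ L) →
    (∀ x : Fin n → Bool, 3 * Fintype.card Ω ≤
      4 * (univ.filter fun o => (C o).value x = true ↔ List.ofFn x ∈ UnsolvL).card) →
    b ≤ 4 * ((r + 1) * 2 ^ r) := by
  obtain ⟨n0, hn0⟩ := t_EX 17 (2 * (3 * 582)) 582 (by norm_num)
  obtain ⟨L0, hL0⟩ := pow_le_two_pow
  refine ⟨n0 + L0 + 64 * (3 * 582 + 1) ^ 2 + 2048 * 289 ^ 2 + 2, ?_⟩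
  intro L hL n j b r hj1 hj2 hbn hbL Ω _ _ C hr hC hright
  have hL2 : 2 ≤ L := by omega
  obtain ⟨nn, hnn⟩ : ∃ nn, nn = L ^ 3 := ⟨_, rfl⟩
  obtain ⟨M, hM⟩ : ∃ M, M = L ^ 2 := ⟨_, rfl⟩
  obtain ⟨Q, hQ⟩ : ∃ Q, Q = L ^ 9 := ⟨_, rfl⟩
  obtain ⟨a, ha⟩ : ∃ a, a = 128 * L ^ 10 := ⟨_, rfl⟩
  have hLn : L ≤ nn := by
    rw [hnn]
    calc L = L ^ 1 := (pow_one L).symm
      _ ≤ L ^ 3 := Nat.pow_le_pow_right (by omega) (by norm_num)
  obtain ⟨φ, B, hB, hsp, hgi⟩ := hn0 nn (by omega)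
  have hE2 : nn * 17 ≤ 2 * Fintype.card (EE 17 B) := by
    rw [card_EE (D := 17) B]
    calc nn * 17 ≤ (2 * (nn - B.card)) * 17 := Nat.mul_le_mul_right _ (by omega)
      _ = _ := by ring
  obtain ⟨s, hs⟩ := t_SH nn 17 17 17 (Fintype.card (EE 17 B)) (by norm_num) φ B
    (union_num (by omega) hE2)
  have hs' : ∀ (x : Fin nn → ZMod 17 × Fin 17) (y : Fin nn → ZMod 17), ∃ e : Fin nn × Fin 17,
      e.1 ∉ B ∧ (x e.1).1 - ((e.2 : ℕ) : ZMod 17) * (((x e.1).2 : ℕ) : ZMod 17) + s e.1 e.2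
        ≠ y (φ e.1 e.2) := by
    intro x y
    by_contra hcon
    push Not at hcon
    have h1 := hs x y
    have h2 : (univ.filter fun e : Fin nn × Fin 17 => e.1 ∉ B ∧
        (x e.1).1 - ((e.2 : ℕ) : ZMod 17) * (((x e.1).2 : ℕ) : ZMod 17) + s e.1 e.2
          = y (φ e.1 e.2)) = univ.filter fun e : Fin nn × Fin 17 => e.1 ∉ B :=
      filter_congr fun e _ => ⟨fun h => h.1, fun h => ⟨h, hcon e h⟩⟩
    rw [h2, Fintype.card_subtype] at h1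
    exact lt_irrefl _ h1
  -- local consistency
  set G := gameGraph (d := 17) φ B s with hG
  have hGgirth : G.Girth 582 := fun S hS hSr => lt_of_le_of_lt (ein_le φ B s S) (hgi S hS hSr)
  have hGsparse : G.Sparse (2 * (3 * 582)) (8 * (3 * 582 + 1) * L) := by
    intro S hS
    refine (ein_le φ B s S).trans (hsp S ?_)
    calc S.card ^ 2 ≤ (8 * (3 * 582 + 1) * L) ^ 2 := Nat.pow_le_pow_left hS 2
      _ = (64 * (3 * 582 + 1) ^ 2) * L ^ 2 := by ring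
      _ ≤ L * L ^ 2 := Nat.mul_le_mul_right _ (by omega)
      _ = nn := by rw [hnn]; ring
  obtain ⟨F, hF⟩ := lo_all _ _ _ G 582 (3 * 582) (8 * (3 * 582 + 1) * L) (2 * L) (by norm_num)
    le_rfl (gameGraph_surj (by norm_num) φ B s)
    (t_MX nn 17 17 17 (by norm_num) le_rfl (by norm_num) φ B s) hGgirth hGsparse
    (by ring_nf; exact le_rfl)
  have hLpos : 0 < L := by omega
  refine block_main (nn := nn) (a := a) (j := j) (L := L) (M := M) (Q := Q) (S := 2 ^ L)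
    (by rw [ha]; exact Nat.mul_pos (by norm_num) (by positivity)) F hF hj2 ?_ hbn (by omega)
    (by rw [hM]; exact Nat.one_le_pow _ _ hLpos) (by rw [hQ]; exact Nat.one_le_pow _ _ hLpos)
    ?_ ?_ ?_ hs' ?_ C hr hC hright
  · calc nn * a = 128 * L ^ 13 := by rw [hnn, ha]; ring
      _ ≤ 2 ^ j := hj1
  · calc 8 * ((8 * L + 1) * Q) ≤ 8 * ((16 * L) * Q) :=
          Nat.mul_le_mul_left _ (Nat.mul_le_mul_right _ (by omega))
      _ = a := by rw [hQ, ha]; ring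
  · calc 8 * (2 * nn * a * 289 ^ 2 * M ^ 2) = (2048 * 289 ^ 2) * L ^ 17 := by
          rw [hnn, ha, hM]; ring
      _ ≤ L * L ^ 17 := Nat.mul_le_mul_right _ (by omega)
      _ = Q ^ 2 := by rw [hQ]; ring
  · calc 8 * (2 * L * 289 * M) = 4624 * L ^ 3 := by rw [hM]; ring
      _ ≤ L ^ 6 * L ^ 3 := Nat.mul_le_mul_right _ ((by omega : 4624 ≤ L).trans
          (Nat.le_self_pow (by norm_num) L))
      _ = Q := by rw [hQ]; ring
  · exact num4 (by omega) (by omega) hnn ha hM (hL0 L (by omega)) hbL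

end Pool.Agent.NPC.L0h35Ng
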