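import Pool.Agent.L0h35.NgLang
import Pool.Agent.H589R3.DT.Game

/-!
# Blocks of the language: host games as systems of equations
-/

set_option autoImplicit false

open scoped Classical
open Finset

namespace Pool.Agent.NPC.L0h35Ng

open H630VC (Prog marked)
open H589DT

theorem dm_mod (x k y : ℕ) (h : y < k) : (x * k + y) % k = y := by
  rw [Nat.add_comm, Nat.add_mul_mod_self_right, Nat.mod_eq_of_lt h]

theorem dm_div (x k y : ℕ) (h : y < k) : (x * k + y) / k = x := by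
  rw [Nat.add_comm, Nat.add_mul_div_right _ _ (by omega), Nat.div_eq_of_lt h, zero_add]

theorem dm_lt {x k y K : ℕ} (hx : x < K) (hy : y < k) : x * k + y < K * k := by
  calc x * k + y < x * k + k := by omega
    _ = (x + 1) * k := by ring
    _ ≤ K * k := Nat.mul_le_mul_right _ hx

/-- the position of an equation -/
def code (n j t W U i s : ℕ) : ℕ :=
  ((((t * 2 ^ j + W) * 2 ^ j + U) * 17 + i) * 17 + s) * (n.size + 1) + j

section

variable {n j t W U i s : ℕ} (hj : j < n.size + 1) (hW : W < 2 ^ j) (hU : U < 2 ^ j)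
  (hi : i < 17) (hs : s < 17)

include hj in
theorem scl_code : scl n (code n j t W U i s) = 2 ^ j := by
  unfold scl code
  rw [dm_mod _ _ _ hj]

include hj in
theorem rnk_code : rnk n (code n j t W U i s) =
    (((t * 2 ^ j + W) * 2 ^ j + U) * 17 + i) * 17 + s := by
  unfold rnk code
  rw [dm_div _ _ _ hj]

include hj hW hU hi hs in
theorem satEq_code (σ : Lab → ZMod 17) : SatEq σ n (code n j t W U i s) ↔
    σ (0, (2 ^ j, (t, W))) - (i : ZMod 17) * σ (1, (2 ^ j, (t, W))) + (s : ZMod 17) =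
      σ (2, (2 ^ j, (t, U))) := by
  unfold SatEq
  rw [scl_code hj, rnk_code hj, dm_mod _ _ _ hs, dm_div _ _ _ hs, dm_mod _ _ _ hi,
    dm_div _ _ _ hi, dm_mod _ _ _ hU, dm_div _ _ _ hU, dm_mod _ _ _ hW, dm_div _ _ _ hW]

include hj hW hU hi hs in
theorem code_lt {b : ℕ} (ht : t < b) (hn : b * (2 ^ j) ^ 2 * 289 * (n.size + 1) ≤ n) :
    code n j t W U i s < n := by
  unfold code
  have h1 := dm_lt ht hW
  have h2 := dm_lt h1 hU
  have h3 := dm_lt h2 hi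
  have h4 := dm_lt h3 hs
  have h5 := dm_lt h4 hj
  refine lt_of_lt_of_le h5 (le_trans (le_of_eq ?_) hn)
  ring

end

section

variable {n j t W U i s t' W' U' i' s' : ℕ}

theorem code_inj (hj : j < n.size + 1) (hW : W < 2 ^ j) (hU : U < 2 ^ j)
    (hi : i < 17) (hs : s < 17) (hW' : W' < 2 ^ j) (hU' : U' < 2 ^ j)
    (hi' : i' < 17) (hs' : s' < 17)
    (h : code n j t W U i s = code n j t' W' U' i' s') : t = t' ∧ W = W' ∧ U = U' ∧ i = i' := by
  have h0 : rnk n (code n j t W U i s) = rnk n (code n j t' W' U' i' s') := by rw [h]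
  rw [rnk_code hj, rnk_code hj] at h0
  have h1 := congrArg (· / 17) h0
  rw [dm_div _ _ _ hs, dm_div _ _ _ hs'] at h1
  have h2 := congrArg (· / 17) h1
  have h2' := congrArg (· % 17) h1
  rw [dm_div _ _ _ hi, dm_div _ _ _ hi'] at h2
  rw [dm_mod _ _ _ hi, dm_mod _ _ _ hi'] at h2'
  have h3 := congrArg (· / 2 ^ j) h2
  have h3' := congrArg (· % 2 ^ j) h2
  rw [dm_div _ _ _ hU, dm_div _ _ _ hU'] at h3
  rw [dm_mod _ _ _ hU, dm_mod _ _ _ hU'] at h3'
  have h4 := congrArg (· / 2 ^ j) h3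
  have h4' := congrArg (· % 2 ^ j) h3
  rw [dm_div _ _ _ hW, dm_div _ _ _ hW'] at h4
  rw [dm_mod _ _ _ hW, dm_mod _ _ _ hW'] at h4'
  exact ⟨h4, h4', h3', h2'⟩

end

/-- the language at length `n` -/
theorem ofFn_mem {n : ℕ} (x : Fin n → Bool) : List.ofFn x ∈ UnsolvL ↔
    ¬ ∃ σ : Lab → ZMod 17, ∀ i : Fin n, x i = true → SatEq σ n i := by
  unfold UnsolvL
  rw [Set.mem_ofPred_eq, List.length_ofFn]
  refine not_congr (exists_congr fun σ => ?_)
  constructor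
  · intro h i hi
    refine h i.1 i.2 ?_
    rw [List.getD_eq_getElem?_getD, List.getElem?_ofFn]
    simp [hi]
  · intro h i hi hx
    refine h ⟨i, hi⟩ ?_
    rw [List.getD_eq_getElem?_getD, List.getElem?_ofFn] at hx
    simpa [hi] using hx

section emb

variable {nn a b n j : ℕ} (φ : Fin nn → Fin 17 → Fin nn) (B : Finset (Fin nn))
  (s : Fin nn → Fin 17 → ZMod 17)

/-- the position of the constraint `c` in the block `t` -/
def posn (n j t : ℕ) (c : EE 17 B × Fin a × Fin a) : ℕ :=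
  code n j t (c.1.1.1.1 * a + c.2.2.1) ((φ c.1.1.1 c.1.1.2).1 * a + c.2.1.1) c.1.1.2.1
    (s c.1.1.1 c.1.1.2).val

variable (a b n j) in
/-- the instance with the given blocks -/
noncomputable def enc (c : Fin b → Finset (EE 17 B × Fin a × Fin a)) : Fin n → Bool :=
  fun i => decide (∃ t : Fin b, ∃ q ∈ c t, posn φ B s n j t.1 q = i.1)

variable {φ B s}

theorem idx_lt (hm : nn * a ≤ 2 ^ j) (w : Fin nn) (x : Fin a) : w.1 * a + x.1 < 2 ^ j :=
  lt_of_lt_of_le (dm_lt w.2 x.2) hm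

theorem idx_inj {w w' : Fin nn} {x x' : Fin a} (h : w.1 * a + x.1 = w'.1 * a + x'.1) :
    w = w' ∧ x = x' := by
  have h1 := congrArg (· / a) h
  have h2 := congrArg (· % a) h
  rw [dm_div _ _ _ x.2, dm_div _ _ _ x'.2] at h1
  rw [dm_mod _ _ _ x.2, dm_mod _ _ _ x'.2] at h2
  exact ⟨Fin.ext h1, Fin.ext h2⟩

theorem posn_inj (hj : j < n.size + 1) (hm : nn * a ≤ 2 ^ j) {t t' : ℕ}
    {c c' : EE 17 B × Fin a × Fin a} (h : posn φ B s n j t c = posn φ B s n j t' c') :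
    t = t' ∧ c = c' := by
  unfold posn at h
  obtain ⟨h1, h2, h3, h4⟩ := code_inj hj (idx_lt hm _ _) (idx_lt hm _ _) c.1.1.2.2
    (ZMod.val_lt _) (idx_lt hm _ _) (idx_lt hm _ _) c'.1.1.2.2 (ZMod.val_lt _) h
  obtain ⟨h5, h6⟩ := idx_inj h2
  obtain ⟨h7, h8⟩ := idx_inj h3
  refine ⟨h1, ?_⟩
  obtain ⟨⟨⟨w, i⟩, hw⟩, a1, a2⟩ := c
  obtain ⟨⟨⟨w', i'⟩, hw'⟩, a1', a2'⟩ := c'
  simp only at h4 h5 h6 h8
  have h9 : i = i' := Fin.ext h4
  subst h5 h6 h8 h9
  rfl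

theorem posn_lt (hj : j < n.size + 1) (hm : nn * a ≤ 2 ^ j)
    (hn : b * (2 ^ j) ^ 2 * 289 * (n.size + 1) ≤ n) {t : ℕ} (ht : t < b)
    (c : EE 17 B × Fin a × Fin a) : posn φ B s n j t c < n :=
  code_lt hj (idx_lt hm _ _) (idx_lt hm _ _) c.1.1.2.2 (ZMod.val_lt _) ht hn

theorem enc_posn (hj : j < n.size + 1) (hm : nn * a ≤ 2 ^ j)
    (hn : b * (2 ^ j) ^ 2 * 289 * (n.size + 1) ≤ n)
    (c : Fin b → Finset (EE 17 B × Fin a × Fin a)) (t : Fin b) (q : EE 17 B × Fin a × Fin a) :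
    enc a b n j φ B s c ⟨posn φ B s n j t.1 q, posn_lt hj hm hn t.2 q⟩ = true ↔ q ∈ c t := by
  unfold enc
  rw [decide_eq_true_iff]
  constructor
  · rintro ⟨t', q', h1, h2⟩
    obtain ⟨h3, rfl⟩ := posn_inj hj hm h2
    have h4 : t' = t := Fin.ext h3
    rw [← h4]
    exact h1
  · intro h
    exact ⟨t, q, h, rfl⟩

/-- an instance with an unsatisfiable block is in the language -/
theorem enc_unsolv (hj : j < n.size + 1) (hm : nn * a ≤ 2 ^ j)
    (hn : b * (2 ^ j) ^ 2 * 289 * (n.size + 1) ≤ n)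
    (hs : ∀ (x : Fin nn → ZMod 17 × Fin 17) (y : Fin nn → ZMod 17), ∃ e : Fin nn × Fin 17,
      e.1 ∉ B ∧ (x e.1).1 - ((e.2 : ℕ) : ZMod 17) * (((x e.1).2 : ℕ) : ZMod 17) + s e.1 e.2
        ≠ y (φ e.1 e.2))
    (c : Fin b → Finset (EE 17 B × Fin a × Fin a)) (t : Fin b) (x : Fin nn ⊕ Fin nn → Fin a)
    (hc : hx (gameGraph (d := 17) φ B s) x ⊆ c t) :
    List.ofFn (enc a b n j φ B s c) ∈ UnsolvL := by
  rw [ofFn_mem]
  rintro ⟨σ, hσ⟩
  obtain ⟨⟨w, i⟩, hw, hne⟩ := hs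
    (fun w => (σ (0, (2 ^ j, (t.1, w.1 * a + (x (Sum.inr w)).1))),
      ⟨(σ (1, (2 ^ j, (t.1, w.1 * a + (x (Sum.inr w)).1)))).val, ZMod.val_lt _⟩))
    (fun v => σ (2, (2 ^ j, (t.1, v.1 * a + (x (Sum.inl v)).1))))
  apply hne
  let q : EE 17 B × Fin a × Fin a := (⟨(w, i), hw⟩, x (Sum.inl (φ w i)), x (Sum.inr w))
  have hq : q ∈ c t := hc (mem_hx.2 ⟨rfl, rfl⟩)
  have h1 := hσ ⟨posn φ B s n j t.1 q, posn_lt hj hm hn t.2 q⟩ ((enc_posn hj hm hn c t q).2 hq)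
  have h2 := (satEq_code hj (idx_lt hm _ _) (idx_lt hm _ _) q.1.1.2.2 (ZMod.val_lt _) σ).1 h1
  simp only [q] at h2
  rw [ZMod.natCast_zmod_val] at h2
  dsimp only
  rw [ZMod.natCast_zmod_val]
  exact h2

/-- an instance all whose blocks are satisfied by systems without conflicts is not in the
language -/
theorem enc_solv (hj : j < n.size + 1) (hm : nn * a ≤ 2 ^ j)
    (c : Fin b → Finset (EE 17 B × Fin a × Fin a))
    (T : Fin b → Finset (((Fin nn ⊕ Fin nn) × Fin a) × (ZMod 17 × Fin 17)))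
    (hT0 : ∀ t, NoConflict (T t)) (hc : ∀ t, c t ⊆ hT (gameGraph (d := 17) φ B s) (T t)) :
    List.ofFn (enc a b n j φ B s c) ∉ UnsolvL := by
  rw [ofFn_mem, not_not]
  let key : Fin b × Fin nn × Fin a → ℕ × ℕ := fun p => (p.1.1, p.2.1.1 * a + p.2.2.1)
  have hkey : Function.Injective key := by
    rintro ⟨t, w, x⟩ ⟨t', w', x'⟩ h
    simp only [key, Prod.mk.injEq] at h
    obtain ⟨h1, h2⟩ := idx_inj h.2
    rw [Fin.ext h.1, h1, h2]
  let gW : Fin b × Fin nn × Fin a → ZMod 17 × Fin 17 := fun p =>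
    labOf (T p.1) 0 (Sum.inr p.2.1, p.2.2)
  let gV : Fin b × Fin nn × Fin a → ZMod 17 × Fin 17 := fun p =>
    labOf (T p.1) 0 (Sum.inl p.2.1, p.2.2)
  let σ : Lab → ZMod 17 := fun u =>
    if u.1 = 0 then (Function.extend key gW (fun _ => 0) u.2.2).1
    else if u.1 = 1 then (((Function.extend key gW (fun _ => 0) u.2.2).2 : ℕ) : ZMod 17)
    else (Function.extend key gV (fun _ => 0) u.2.2).1
  refine ⟨σ, fun i hi => ?_⟩
  unfold enc at hi
  rw [decide_eq_true_iff] at hi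
  obtain ⟨t, q, hq, hpos⟩ := hi
  rw [← hpos]
  obtain ⟨σ1, τ1, h1, h2, h3⟩ := mem_hT.1 (hc t hq)
  have e1 : labOf (T t) 0 (Sum.inl (φ q.1.1.1 q.1.1.2), q.2.1) = σ1 := labOf_eq (hT0 t) h1
  have e2 : labOf (T t) 0 (Sum.inr q.1.1.1, q.2.2) = τ1 := labOf_eq (hT0 t) h2
  refine (satEq_code hj (idx_lt hm _ _) (idx_lt hm _ _) q.1.1.2.2 (ZMod.val_lt _) σ).2 ?_
  have k1 : Function.extend key gW (fun _ => 0) (t.1, q.1.1.1.1 * a + q.2.2.1) = τ1 := by
    have := hkey.extend_apply gW (fun _ => 0) (t, q.1.1.1, q.2.2)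
    rw [← e2]
    exact this
  have k2 : Function.extend key gV (fun _ => 0) (t.1, (φ q.1.1.1 q.1.1.2).1 * a + q.2.1.1) = σ1 := by
    have := hkey.extend_apply gV (fun _ => 0) (t, φ q.1.1.1 q.1.1.2, q.2.1)
    rw [← e1]
    exact this
  simp only [σ, if_true, one_ne_zero, if_false, show (2 : ℕ) ≠ 0 from by norm_num,
    show (2 : ℕ) ≠ 1 from by norm_num]
  rw [k1, k2, ZMod.natCast_zmod_val]
  exact h3

end emb

end Pool.Agent.NPC.L0h35Ng
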