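import Pool.Agent.L0h35.NgSecond

set_option autoImplicit false

/-! # An approximated function does not accept more positive tests than negative tests -/

open scoped Classical
open Finset

namespace Pool.Agent.L0h35.Ng

open H630VC (Prog marked)
open H589DT

section conflicts

variable {P Λ : Type} [Fintype P] [Fintype Λ] {M Q : ℕ}

/-- the samples without conflicts -/
noncomputable def NCset (P Λ : Type) [Fintype P] [Fintype Λ] (M Q : ℕ) : Finset (Smp P Λ M Q) :=
  univ.filter fun ω => NoConflict (marked ω)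

theorem cntS (hQ : 1 ≤ Q) (C : Finset (Fin M × (P × Λ))) :
    ((univ.filter fun ω : Smp P Λ M Q => ∀ p ∈ C, (ω p.1 p.2 : ℕ) = 0).card : ℝ) =
      (Fintype.card (Smp P Λ M Q) : ℝ) / (Q : ℝ) ^ C.card := by
  have h := cnt (V := P × Λ) (M := M) hQ C
  rw [cardFU _ _ _ _ _ _ fun _ => Iff.rfl, cardFt _ _]
  exact h

theorem cntS_round (hQ : 1 ≤ Q) (i0 : Fin M) (A : Finset (P × Λ)) :
    ((univ.filter fun ω : Smp P Λ M Q => ∀ v ∈ A, (ω i0 v : ℕ) = 0).card : ℝ) =
      (Fintype.card (Smp P Λ M Q) : ℝ) / (Q : ℝ) ^ A.card := by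
  have h := cnt_round (V := P × Λ) (M := M) hQ i0 A
  rw [cardFU _ _ _ _ _ _ fun _ => Iff.rfl, cardFt _ _]
  exact h

theorem second_momentS {ι : Type} (𝓖 : Finset ι) (S : ι → Finset (P × Λ)) (k l : ℕ)
    (hl : 1 ≤ l) (hQ : 1 ≤ Q) (i0 : Fin M) (hcard : ∀ i ∈ 𝓖, (S i).card = k)
    (hrel : ∀ Y : Finset (P × Λ),
      (𝓖.filter fun i => Y ⊆ S i).card * (4 * l * Q) ^ Y.card ≤ (4 * l * Q) ^ k)
    (N : Finset (Smp P Λ M Q))
    (hN : ∀ i ∈ 𝓖, (Fintype.card (Smp P Λ M Q) : ℝ) / (Q : ℝ) ^ k ≤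
      2 * (N.filter fun ω => ZeroAt i0 (S i) ω).card) :
    (𝓖.card : ℝ) * Fintype.card (Smp P Λ M Q) ≤ 4 * ((4 * l + 1) * Q) ^ k *
      (N.filter fun ω => ∃ i ∈ 𝓖, ZeroAt i0 (S i) ω).card := by
  rw [← Nat.card_eq_fintype_card] at hN ⊢
  refine second_moment' (V := P × Λ) 𝓖 S k l hl hQ i0 hcard (fun Y => ?_) N hN
  exact le_of_eq_of_le (congrArg (· * (4 * l * Q) ^ Y.card)
    (cardF _ _ _ _ _ fun _ => Iff.rfl)) (hrel Y)

/-- conflicts are rare also if a consistent set is marked in some round -/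
theorem nc_cond (hQ : 1 ≤ Q) (i0 : Fin M) (β : Finset (P × Λ))
    (hβ : Set.InjOn Prod.fst (β : Set (P × Λ)))
    (h1 : 8 * (Fintype.card P * Fintype.card Λ ^ 2 * M ^ 2) ≤ Q ^ 2)
    (h2 : 8 * (β.card * Fintype.card Λ * M) ≤ Q) :
    (Fintype.card (Smp P Λ M Q) : ℝ) / (Q : ℝ) ^ β.card ≤
      2 * ((NCset P Λ M Q).filter fun ω => ZeroAt i0 β ω).card := by
  have hQ0 : (0 : ℝ) < Q := by exact_mod_cast hQ
  set s : ℝ := (Fintype.card (Smp P Λ M Q) : ℝ) with hs
  have hs0 : 0 ≤ s := by positivity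
  set k := β.card with hk
  set B : Finset (Smp P Λ M Q) := univ.filter fun ω => ∀ v ∈ β, (ω i0 v : ℕ) = 0 with hB
  have hBc : (B.card : ℝ) = s / (Q : ℝ) ^ k := cntS_round hQ i0 β
  set C0 : Finset (Fin M × (P × Λ)) := β.image fun v => (i0, v) with hC0
  have hC0c : C0.card = k := card_image_of_injective _ fun a b h => (Prod.mk.inj h).2
  have hC0m : ∀ i v, (i, v) ∈ C0 ↔ i = i0 ∧ v ∈ β := by
    intro i v
    rw [hC0, mem_image]
    constructor
    · rintro ⟨v', hv', h⟩
      have h3 := Prod.mk.inj h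
      exact ⟨h3.1.symm, h3.2 ▸ hv'⟩
    · rintro ⟨rfl, hv⟩
      exact ⟨v, hv, rfl⟩
  let T : Type := (P × Λ × Λ) × Fin M × Fin M
  let Ct : T → Finset (Fin M × (P × Λ)) := fun t =>
    C0 ∪ {(t.2.1, (t.1.1, t.1.2.1)), (t.2.2, (t.1.1, t.1.2.2))}
  let F : T → Finset (Smp P Λ M Q) := fun t =>
    if t.1.2.1 = t.1.2.2 then ∅ else
      univ.filter fun ω : Smp P Λ M Q => ∀ p ∈ Ct t, (ω p.1 p.2 : ℕ) = 0
  let w1 : T → ℝ := fun t => if t.2.1 = i0 ∧ (t.1.1, t.1.2.1) ∈ β then 1 else 0
  let w2 : T → ℝ := fun t => if t.2.2 = i0 ∧ (t.1.1, t.1.2.2) ∈ β then 1 else 0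
  have hF : ∀ t, ((F t).card : ℝ) ≤ s / (Q : ℝ) ^ (k + 2) + (w1 t + w2 t) * (s / (Q : ℝ) ^ (k + 1)) := by
    rintro ⟨⟨p, σ, τ⟩, i, j⟩
    have hw1 : 0 ≤ w1 ((p, σ, τ), i, j) := by
      simp only [w1]
      split_ifs <;> norm_num
    have hw2 : 0 ≤ w2 ((p, σ, τ), i, j) := by
      simp only [w2]
      split_ifs <;> norm_num
    by_cases hστ : σ = τ
    · have : F ((p, σ, τ), i, j) = ∅ := if_pos hστ
      rw [this, card_empty, Nat.cast_zero]
      positivity
    · have e1 : F ((p, σ, τ), i, j) = univ.filter fun ω : Smp P Λ M Q =>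
          ∀ q ∈ Ct ((p, σ, τ), i, j), (ω q.1 q.2 : ℕ) = 0 := if_neg hστ
      rw [e1, cntS hQ]
      have hab : ((i, (p, σ)) : Fin M × (P × Λ)) ≠ (j, (p, τ)) := by
        intro h
        exact hστ (Prod.mk.inj (Prod.mk.inj h).2).2
      by_cases ha : (i, (p, σ)) ∈ C0
      · have hb : (j, (p, τ)) ∉ C0 := by
          intro hb
          have h3 := (hC0m _ _).1 ha
          have h4 := (hC0m _ _).1 hb
          have h5 : (p, σ) = (p, τ) := hβ (mem_coe.2 h3.2) (mem_coe.2 h4.2) rfl
          exact hστ (Prod.mk.inj h5).2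
        have hcard : k + 1 ≤ (Ct ((p, σ, τ), i, j)).card := by
          have h3 : insert (j, (p, τ)) C0 ⊆ Ct ((p, σ, τ), i, j) := by
            intro q hq
            rw [mem_insert] at hq
            simp only [Ct, mem_union, mem_insert, mem_singleton]
            rcases hq with rfl | hq
            · exact Or.inr (Or.inr rfl)
            · exact Or.inl hq
          have h4 := card_le_card h3
          rw [card_insert_of_notMem hb, hC0c] at h4
          exact h4
        have hw : w1 ((p, σ, τ), i, j) = 1 := if_pos ((hC0m _ _).1 ha)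
        have h6 : s / (Q : ℝ) ^ (Ct ((p, σ, τ), i, j)).card ≤ s / (Q : ℝ) ^ (k + 1) := by
          apply div_le_div_of_nonneg_left hs0 (by positivity)
          exact pow_le_pow_right₀ (by exact_mod_cast hQ) hcard
        have h7 : 0 ≤ s / (Q : ℝ) ^ (k + 2) := by positivity
        have h8 : 0 ≤ s / (Q : ℝ) ^ (k + 1) := by positivity
        rw [hw]
        nlinarith [mul_nonneg hw2 h8]
      · by_cases hb : (j, (p, τ)) ∈ C0
        · have hcard : k + 1 ≤ (Ct ((p, σ, τ), i, j)).card := by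
            have h3 : insert (i, (p, σ)) C0 ⊆ Ct ((p, σ, τ), i, j) := by
              intro q hq
              rw [mem_insert] at hq
              simp only [Ct, mem_union, mem_insert, mem_singleton]
              rcases hq with rfl | hq
              · exact Or.inr (Or.inl rfl)
              · exact Or.inl hq
            have h4 := card_le_card h3
            rw [card_insert_of_notMem ha, hC0c] at h4
            exact h4
          have hw : w2 ((p, σ, τ), i, j) = 1 := if_pos ((hC0m _ _).1 hb)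
          have h6 : s / (Q : ℝ) ^ (Ct ((p, σ, τ), i, j)).card ≤ s / (Q : ℝ) ^ (k + 1) := by
            apply div_le_div_of_nonneg_left hs0 (by positivity)
            exact pow_le_pow_right₀ (by exact_mod_cast hQ) hcard
          have h7 : 0 ≤ s / (Q : ℝ) ^ (k + 2) := by positivity
          have h8 : 0 ≤ s / (Q : ℝ) ^ (k + 1) := by positivity
          rw [hw]
          nlinarith [mul_nonneg hw1 h8]
        · have hcard : (Ct ((p, σ, τ), i, j)).card = k + 2 := by
            simp only [Ct]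
            rw [card_union_of_disjoint, card_pair hab, hC0c]
            rw [disjoint_right]
            intro q hq
            rw [mem_insert, mem_singleton] at hq
            rcases hq with rfl | rfl
            · exact ha
            · exact hb
          rw [hcard]
          have h8 : 0 ≤ s / (Q : ℝ) ^ (k + 1) := by positivity
          nlinarith [mul_nonneg hw1 h8, mul_nonneg hw2 h8]
  have hcov : B ⊆ ((NCset P Λ M Q).filter fun ω => ZeroAt i0 β ω) ∪
      univ.biUnion F := by
    intro ω hω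
    have hω' := (mem_filter.1 hω).2
    rw [mem_union]
    by_cases hnc : NoConflict (marked ω)
    · exact Or.inl (mem_filter.2 ⟨mem_filter.2 ⟨mem_univ _, hnc⟩, hω'⟩)
    · right
      unfold NoConflict at hnc
      push Not at hnc
      obtain ⟨p, σ, τ, h3, h4, h5⟩ := hnc
      obtain ⟨i, hi⟩ := (mem_filter.1 h3).2
      obtain ⟨j, hj⟩ := (mem_filter.1 h4).2
      rw [mem_biUnion]
      refine ⟨((p, σ, τ), i, j), mem_univ _, ?_⟩
      have e1 : F ((p, σ, τ), i, j) = univ.filter fun ω : Smp P Λ M Q =>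
          ∀ q ∈ Ct ((p, σ, τ), i, j), (ω q.1 q.2 : ℕ) = 0 := if_neg h5
      rw [e1]
      refine mem_filter.2 ⟨mem_univ _, fun q hq => ?_⟩
      simp only [Ct, mem_union, mem_insert, mem_singleton] at hq
      rcases hq with hq | rfl | rfl
      · obtain ⟨q1, q2⟩ := q
        have h6 := (hC0m _ _).1 hq
        rw [h6.1]
        exact hω' _ h6.2
      · exact hi
      · exact hj
  have hT : (Fintype.card T : ℝ) = Fintype.card P * (Fintype.card Λ : ℝ) ^ 2 * (M : ℝ) ^ 2 := by
    have : Fintype.card T = Fintype.card P * Fintype.card Λ ^ 2 * M ^ 2 := by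
      simp only [T, Fintype.card_prod, Fintype.card_fin]
      ring
    rw [this]
    push_cast
    ring
  have hsum1 : ∑ t, w1 t ≤ (k : ℝ) * Fintype.card Λ * M := by
    simp only [w1]
    rw [Finset.sum_boole]
    have h3 : (univ.filter fun t : T => t.2.1 = i0 ∧ (t.1.1, t.1.2.1) ∈ β).card ≤
        (β ×ˢ ((univ : Finset Λ) ×ˢ (univ : Finset (Fin M)))).card := by
      refine card_le_card_of_injOn (fun t => ((t.1.1, t.1.2.1), t.1.2.2, t.2.2)) ?_ ?_
      · intro t ht
        have h4 := (mem_filter.1 (mem_coe.1 ht)).2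
        exact mem_coe.2 (mem_product.2 ⟨h4.2, mem_product.2 ⟨mem_univ _, mem_univ _⟩⟩)
      · rintro ⟨⟨p, σ, τ⟩, i, j⟩ ht ⟨⟨p', σ', τ'⟩, i', j'⟩ ht' h
        have h4 := (mem_filter.1 (mem_coe.1 ht)).2.1
        have h5 := (mem_filter.1 (mem_coe.1 ht')).2.1
        simp only [Prod.mk.injEq] at h h4 h5
        obtain ⟨⟨rfl, rfl⟩, rfl, rfl⟩ := h
        rw [h4, h5]
    rw [card_product, card_product, card_univ, card_univ, Fintype.card_fin] at h3
    have h4 : ((univ.filter fun t : T => t.2.1 = i0 ∧ (t.1.1, t.1.2.1) ∈ β).card : ℝ) ≤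
        ((k * (Fintype.card Λ * M) : ℕ) : ℝ) := by exact_mod_cast h3
    push_cast at h4
    linarith
  have hsum2 : ∑ t, w2 t ≤ (k : ℝ) * Fintype.card Λ * M := by
    simp only [w2]
    rw [Finset.sum_boole]
    have h3 : (univ.filter fun t : T => t.2.2 = i0 ∧ (t.1.1, t.1.2.2) ∈ β).card ≤
        (β ×ˢ ((univ : Finset Λ) ×ˢ (univ : Finset (Fin M)))).card := by
      refine card_le_card_of_injOn (fun t => ((t.1.1, t.1.2.2), t.1.2.1, t.2.1)) ?_ ?_
      · intro t ht
        have h4 := (mem_filter.1 (mem_coe.1 ht)).2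
        exact mem_coe.2 (mem_product.2 ⟨h4.2, mem_product.2 ⟨mem_univ _, mem_univ _⟩⟩)
      · rintro ⟨⟨p, σ, τ⟩, i, j⟩ ht ⟨⟨p', σ', τ'⟩, i', j'⟩ ht' h
        have h4 := (mem_filter.1 (mem_coe.1 ht)).2.1
        have h5 := (mem_filter.1 (mem_coe.1 ht')).2.1
        simp only [Prod.mk.injEq] at h h4 h5
        obtain ⟨⟨rfl, rfl⟩, rfl, rfl⟩ := h
        rw [h4, h5]
    rw [card_product, card_product, card_univ, card_univ, Fintype.card_fin] at h3
    have h4 : ((univ.filter fun t : T => t.2.2 = i0 ∧ (t.1.1, t.1.2.2) ∈ β).card : ℝ) ≤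
        ((k * (Fintype.card Λ * M) : ℕ) : ℝ) := by exact_mod_cast h3
    push_cast at h4
    linarith
  have hbU : ((univ.biUnion F).card : ℝ) ≤ ∑ t, ((F t).card : ℝ) := by
    exact_mod_cast (card_biUnion_le (s := (univ : Finset T)) (t := F))
  have hsumF : ∑ t, ((F t).card : ℝ) ≤ (Fintype.card P * (Fintype.card Λ : ℝ) ^ 2 * (M : ℝ) ^ 2) *
      (s / (Q : ℝ) ^ (k + 2)) + (2 * ((k : ℝ) * Fintype.card Λ * M)) * (s / (Q : ℝ) ^ (k + 1)) := by
    refine (sum_le_sum fun t _ => hF t).trans ?_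
    rw [sum_add_distrib, sum_const, card_univ, nsmul_eq_mul, hT, ← sum_mul, sum_add_distrib]
    have h8 : 0 ≤ s / (Q : ℝ) ^ (k + 1) := by positivity
    have := mul_le_mul_of_nonneg_right (add_le_add hsum1 hsum2) h8
    linarith
  have h1' : 8 * (Fintype.card P * (Fintype.card Λ : ℝ) ^ 2 * (M : ℝ) ^ 2) ≤ (Q : ℝ) ^ 2 := by
    exact_mod_cast h1
  have h2' : 8 * ((k : ℝ) * Fintype.card Λ * M) ≤ Q := by exact_mod_cast h2
  have hA : (Fintype.card P * (Fintype.card Λ : ℝ) ^ 2 * (M : ℝ) ^ 2) * (s / (Q : ℝ) ^ (k + 2)) ≤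
      1 / 8 * (s / (Q : ℝ) ^ k) := by
    have e1 : s / (Q : ℝ) ^ k = (Q : ℝ) ^ 2 * (s / (Q : ℝ) ^ (k + 2)) := by
      rw [pow_add]
      field_simp
    rw [e1]
    have h8 : 0 ≤ s / (Q : ℝ) ^ (k + 2) := by positivity
    have := mul_le_mul_of_nonneg_right h1' h8
    linarith
  have hA2 : (2 * ((k : ℝ) * Fintype.card Λ * M)) * (s / (Q : ℝ) ^ (k + 1)) ≤
      1 / 4 * (s / (Q : ℝ) ^ k) := by
    have e1 : s / (Q : ℝ) ^ k = (Q : ℝ) * (s / (Q : ℝ) ^ (k + 1)) := by
      rw [pow_add]
      field_simp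
    rw [e1]
    have h8 : 0 ≤ s / (Q : ℝ) ^ (k + 1) := by positivity
    have := mul_le_mul_of_nonneg_right h2' h8
    linarith
  have hcard : (B.card : ℝ) ≤
      (((NCset P Λ M Q).filter fun ω => ZeroAt i0 β ω).card : ℝ) +
        (univ.biUnion F).card := by
    exact_mod_cast (card_le_card hcov).trans (card_union_le _ _)
  have h9 : 0 ≤ s / (Q : ℝ) ^ k := by positivity
  rw [hBc] at hcard
  linarith

end conflicts

section main

variable {P Λ X : Type} [Fintype P] [Fintype Λ] [Fintype X]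

/-- the critical sets of one level -/
noncomputable def critθ {l : ℕ} (C : ConsSystem P Λ l) (lam : C.T → ℝ) (θ : ℝ) (j : ℕ) :
    Finset (Finset P) :=
  univ.filter fun α => (Lev C lam α θ ∧ ∀ α', α' ⊂ α → ¬ Lev C lam α' θ) ∧ α.card = j

/-- the samples without conflicts which contain a consistent set of level `θ` -/
noncomputable def hitθ {l M Q : ℕ} (C : ConsSystem P Λ l) (lam : C.T → ℝ) (θ : ℝ) :
    Finset (Smp P Λ M Q) :=
  (NCset P Λ M Q).filter fun ω => ∃ β : C.T, β.1 ⊆ marked ω ∧ θ ≤ lam β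

theorem crit_hit {L M Q : ℕ} (C : ConsSystem P Λ (2 * L)) (hL : 1 ≤ L) (hM : 1 ≤ M)
    (hQ : 1 ≤ Q) (h1 : 8 * (Fintype.card P * Fintype.card Λ ^ 2 * M ^ 2) ≤ Q ^ 2)
    (h2 : 8 * (2 * L * Fintype.card Λ * M) ≤ Q) (lam : C.T → ℝ) (hc : ClosedLev C M Q lam)
    (θ : ℝ) (j : ℕ) (hj : j ≤ L) :
    ((critθ C lam θ j).card : ℝ) * Fintype.card (Smp P Λ M Q) ≤
      4 * ((8 * L + 1) * Q) ^ j * (hitθ (M := M) (Q := Q) C lam θ).card := by
  have hmem : ∀ α ∈ critθ C lam θ j, Lev C lam α θ ∧ CritSet C lam α ∧ α.card = j := by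
    intro α hα
    have h3 := (mem_filter.1 hα).2
    exact ⟨h3.1.1, ⟨θ, h3.1⟩, h3.2⟩
  have hext : ∀ α ∈ critθ C lam θ j, ∃ β, C.Cons β ∧ pos β = α := by
    intro α hα
    obtain ⟨β, -, h3, h4⟩ := C.ext ∅ α C.empty (by simp [pos]) (by rw [(hmem α hα).2.2]; omega)
    exact ⟨β, h3, h4⟩
  choose! βf hb1 hb2 using hext
  have hcardβ : ∀ α ∈ critθ C lam θ j, (βf α).card = j := by
    intro α hα
    rw [C.card_pos _ (hb1 α hα), hb2 α hα, (hmem α hα).2.2]
  have hinj : ∀ β, C.Cons β → Set.InjOn Prod.fst (β : Set (P × Λ)) := by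
    intro β hβ
    exact Finset.card_image_iff.1 (C.card_pos β hβ).symm
  have i0 : Fin M := ⟨0, hM⟩
  have key := second_momentS (P := P) (Λ := Λ) (M := M) (Q := Q) (critθ C lam θ j) βf j (2 * L)
    (by omega) hQ i0 hcardβ (fun Y => ?_) (NCset P Λ M Q) (fun α hα => ?_)
  · push_cast at key
    have e2 : ((4 : ℝ) * (2 * L) + 1) * Q = (8 * L + 1) * Q := by ring
    rw [e2] at key
    refine key.trans (mul_le_mul_of_nonneg_left ?_ (by positivity))
    refine Nat.cast_le.2 (card_le_card ?_)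
    intro ω hω
    obtain ⟨h3, α, hα, h4⟩ := mem_filter.1 hω
    refine mem_filter.2 ⟨h3, ⟨βf α, hb1 α hα⟩, ?_, (hmem α hα).1 _ (hb2 α hα)⟩
    intro v hv
    exact mem_filter.2 ⟨mem_univ _, i0, h4 v hv⟩
  · -- relative count
    rcases ((critθ C lam θ j).filter fun α => Y ⊆ βf α).eq_empty_or_nonempty with h0 | ⟨α2, hα2⟩
    · rw [h0, card_empty, zero_mul]
      exact Nat.zero_le _
    · obtain ⟨h3, h4⟩ := mem_filter.1 hα2
      have hY := C.mono Y _ h4 (hb1 α2 h3)
      have h5 := rel_count C M Q (by omega) hQ lam hc j (by omega) (pos Y)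
      rw [← C.card_pos Y hY] at h5
      refine le_trans (Nat.mul_le_mul_right _ (card_le_card ?_)) h5
      intro α hα
      obtain ⟨h6, h7⟩ := mem_filter.1 hα
      refine mem_filter.2 ⟨mem_filter.2 ⟨mem_univ _, (hmem α h6).2⟩, ?_⟩
      rw [← hb2 α h6]
      exact image_subset_image h7
  · have h3 := nc_cond (P := P) (Λ := Λ) (M := M) hQ i0 (βf α) (hinj _ (hb1 α hα)) h1 (by
      rw [hcardβ α hα]
      refine le_trans (Nat.mul_le_mul_left _ (Nat.mul_le_mul_right _ (Nat.mul_le_mul_right _ ?_))) h2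
      omega)
    rw [hcardβ α hα] at h3
    exact h3

/-- An approximated function exceeds the level `θ` on the positive tests not more often than on
the negative tests, up to the exceptional tests. -/
theorem fi2 {L : ℕ} (C : ConsSystem P Λ (2 * L)) (M Q A : ℕ) (tr : X → Finset P) (hL : 1 ≤ L)
    (hM : 1 ≤ M) (hQ : 1 ≤ Q) (hA : 8 * ((8 * L + 1) * Q) ≤ A)
    (htr : ∀ α : Finset P, (univ.filter fun x => α ⊆ tr x).card * A ^ α.card ≤ Fintype.card X)
    (h1 : 8 * (Fintype.card P * Fintype.card Λ ^ 2 * M ^ 2) ≤ Q ^ 2)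
    (h2 : 8 * (2 * L * Fintype.card Λ * M) ≤ Q)
    (badP : Finset X) (badN : Finset (Smp P Λ M Q)) (fp : X → ℝ) (fn : Smp P Λ M Q → ℝ)
    (happ : Approx C M Q L tr badP badN fp fn) (θ : ℝ) :
    ((univ.filter fun x => θ ≤ fp x).card : ℝ) * (NCset P Λ M Q).card ≤
      badP.card * (NCset P Λ M Q).card + Fintype.card X *
        (((NCset P Λ M Q).filter fun ω => θ ≤ fn ω).card + badN.card) := by
  have hQ0 : (0 : ℝ) < Q := by exact_mod_cast hQ
  obtain ⟨lam, hc, hraw⟩ := happ
  set s : ℝ := (Fintype.card (Smp P Λ M Q) : ℝ) with hs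
  have hs0 : 0 < s := by
    have : Nonempty (Smp P Λ M Q) := ⟨fun _ _ => ⟨0, hQ⟩⟩
    rw [hs]
    exact_mod_cast Fintype.card_pos
  have hNs : ((NCset P Λ M Q).card : ℝ) ≤ s := by
    rw [hs]
    exact_mod_cast card_le_univ _
  by_cases h : Lev C lam ∅ θ
  · -- the constant is accepted
    have h3 : (NCset P Λ M Q) ⊆ ((NCset P Λ M Q).filter fun ω => θ ≤ fn ω) ∪ badN := by
      intro ω hω
      rw [mem_union]
      by_cases hb : ω ∈ badN
      · exact Or.inr hb
      · left
        have h4 := h ⟨∅, C.empty⟩ (by simp [pos])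
        exact mem_filter.2 ⟨hω, h4.trans (hraw.2 ω hb ⟨∅, C.empty⟩ (empty_subset _))⟩
    have h4 : ((NCset P Λ M Q).card : ℝ) ≤
        ((NCset P Λ M Q).filter fun ω => θ ≤ fn ω).card + badN.card := by
      exact_mod_cast (card_le_card h3).trans (card_union_le _ _)
    have h5 : ((univ.filter fun x => θ ≤ fp x).card : ℝ) ≤ Fintype.card X := by
      exact_mod_cast card_le_univ _
    have h6 : ((univ.filter fun x => θ ≤ fp x).card : ℝ) * (NCset P Λ M Q).card ≤
        Fintype.card X * (((NCset P Λ M Q).filter fun ω => θ ≤ fn ω).card + badN.card) :=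
      mul_le_mul h5 h4 (by positivity) (by positivity)
    have h7 : (0 : ℝ) ≤ badP.card * (NCset P Λ M Q).card := by positivity
    linarith
  · set G : ℝ := ((hitθ (M := M) (Q := Q) C lam θ).card : ℝ) with hG
    have hG1 : G ≤ ((NCset P Λ M Q).filter fun ω => θ ≤ fn ω).card + badN.card := by
      have h3 : (hitθ (M := M) (Q := Q) C lam θ) ⊆
          ((NCset P Λ M Q).filter fun ω => θ ≤ fn ω) ∪ badN := by
        intro ω hω
        obtain ⟨h4, β, h5, h6⟩ := mem_filter.1 hω
        rw [mem_union]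
        by_cases hb : ω ∈ badN
        · exact Or.inr hb
        · exact Or.inl (mem_filter.2 ⟨h4, h6.trans (hraw.2 ω hb β h5)⟩)
      rw [hG]
      exact_mod_cast (card_le_card h3).trans (card_union_le _ _)
    let c : ℕ → ℝ := fun j =>
      ((univ.filter fun x => ∃ α, α ⊆ tr x ∧ α ∈ critθ C lam θ j).card : ℝ)
    have hcj : ∀ j ∈ Finset.Ico 1 (L + 1), c j * s ≤ Fintype.card X * G * (1 / 2) ^ j := by
      intro j hj
      rw [mem_Ico] at hj
      have h3 := crit_hit C hL hM hQ h1 h2 lam hc θ j (by omega)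
      have h4 : c j * (A : ℝ) ^ j ≤ (critθ C lam θ j).card * Fintype.card X := by
        have h5 : (univ.filter fun x => ∃ α, α ⊆ tr x ∧ α ∈ critθ C lam θ j) ⊆
            (critθ C lam θ j).biUnion fun α => univ.filter fun x => α ⊆ tr x := by
          intro x hx
          obtain ⟨α, h6, h7⟩ := (mem_filter.1 hx).2
          exact mem_biUnion.2 ⟨α, h7, mem_filter.2 ⟨mem_univ _, h6⟩⟩
        have h6 : (univ.filter fun x => ∃ α, α ⊆ tr x ∧ α ∈ critθ C lam θ j).card * A ^ j ≤
            (critθ C lam θ j).card * Fintype.card X := by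
          calc _ ≤ (∑ α ∈ critθ C lam θ j, (univ.filter fun x => α ⊆ tr x).card) * A ^ j :=
                Nat.mul_le_mul_right _ ((card_le_card h5).trans card_biUnion_le)
            _ = ∑ α ∈ critθ C lam θ j, (univ.filter fun x => α ⊆ tr x).card * A ^ j := by
                rw [Finset.sum_mul]
            _ ≤ ∑ α ∈ critθ C lam θ j, Fintype.card X := by
                refine Finset.sum_le_sum fun α hα => ?_
                have := htr α
                rwa [(mem_filter.1 hα).2.2] at this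
            _ = _ := by simp
        simp only [c]
        exact_mod_cast h6
      have hA' : ((8 : ℝ) * ((8 * L + 1) * Q)) ^ j ≤ (A : ℝ) ^ j := by
        refine pow_le_pow_left₀ (by positivity) ?_ j
        exact_mod_cast hA
      have hc0 : 0 ≤ c j := Nat.cast_nonneg _
      have h6 : c j * ((8 : ℝ) ^ j * ((8 * L + 1) * Q) ^ j) * s ≤
          Fintype.card X * (4 * ((8 * L + 1) * Q) ^ j * G) := by
        rw [← mul_pow]
        calc c j * ((8 : ℝ) * ((8 * L + 1) * Q)) ^ j * s ≤ c j * (A : ℝ) ^ j * s := by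
              refine mul_le_mul_of_nonneg_right (mul_le_mul_of_nonneg_left hA' hc0) hs0.le
          _ ≤ (critθ C lam θ j).card * Fintype.card X * s :=
              mul_le_mul_of_nonneg_right h4 hs0.le
          _ = Fintype.card X * ((critθ C lam θ j).card * s) := by ring
          _ ≤ _ := mul_le_mul_of_nonneg_left h3 (Nat.cast_nonneg _)
      have h7 : (0 : ℝ) < ((8 * L + 1) * Q) ^ j := by positivity
      have h8 : c j * 8 ^ j * s ≤ Fintype.card X * (4 * G) := by
        refine le_of_mul_le_mul_right ?_ h7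
        calc c j * 8 ^ j * s * ((8 * L + 1) * Q) ^ j =
            c j * ((8 : ℝ) ^ j * ((8 * L + 1) * Q) ^ j) * s := by ring
          _ ≤ _ := h6
          _ = _ := by ring
      have h9 : (4 : ℝ) ≤ 4 ^ j := by
        calc (4 : ℝ) = 4 ^ 1 := by norm_num
          _ ≤ 4 ^ j := pow_le_pow_right₀ (by norm_num) hj.1
      have h10 : (0 : ℝ) < 2 ^ j := by positivity
      have h11 : (8 : ℝ) ^ j = 4 ^ j * 2 ^ j := by rw [← mul_pow]; norm_num
      have h12 : c j * s * 2 ^ j ≤ Fintype.card X * G := by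
        have h13 : 4 * (c j * s * 2 ^ j) ≤ 4 * (Fintype.card X * G) := by
          calc 4 * (c j * s * 2 ^ j) ≤ 4 ^ j * (c j * s * 2 ^ j) :=
                mul_le_mul_of_nonneg_right h9 (by positivity)
            _ = c j * 8 ^ j * s := by rw [h11]; ring
            _ ≤ _ := h8
            _ = _ := by ring
        linarith
      have h14 : ((1 : ℝ) / 2) ^ j = 1 / 2 ^ j := by rw [one_div_pow]
      rw [h14, mul_one_div, le_div_iff₀ h10]
      exact h12
    have hsum : (∑ j ∈ Finset.Ico 1 (L + 1), c j) * s ≤ Fintype.card X * G := by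
      rw [Finset.sum_mul]
      refine (sum_le_sum hcj).trans ?_
      rw [← mul_sum]
      have hgeo : ∑ j ∈ Finset.Ico 1 (L + 1), ((1 : ℝ) / 2) ^ j ≤ 1 := by
        have h3 : ∀ n : ℕ, ∑ j ∈ Finset.Ico 1 (n + 1), ((1 : ℝ) / 2) ^ j = 1 - (1 / 2) ^ n := by
          intro n
          induction n with
          | zero => simp
          | succ n ih =>
            rw [Finset.sum_Ico_succ_top (by omega), ih]
            ring
        rw [h3]
        have : (0 : ℝ) ≤ (1 / 2) ^ L := by positivity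
        linarith
      have h3 : (0 : ℝ) ≤ Fintype.card X * G := by positivity
      nlinarith
    have hsub : (univ.filter fun x => θ ≤ fp x) ⊆ badP ∪ (Finset.Ico 1 (L + 1)).biUnion fun j =>
        univ.filter fun x => ∃ α, α ⊆ tr x ∧ α ∈ critθ C lam θ j := by
      intro x hx
      have hx' := (mem_filter.1 hx).2
      rw [mem_union]
      by_cases hb : x ∈ badP
      · exact Or.inl hb
      · right
        obtain ⟨α, g1, g2, g3⟩ := hraw.1 x hb
        have g4 : Lev C lam α θ := fun β hβ => hx'.trans (g3 β hβ)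
        have hne : (α.powerset.filter fun α' => Lev C lam α' θ).Nonempty :=
          ⟨α, mem_filter.2 ⟨mem_powerset_self α, g4⟩⟩
        obtain ⟨α', k1, k2⟩ := Finset.exists_min_image _ Finset.card hne
        obtain ⟨k3, k4⟩ := mem_filter.1 k1
        have k5 : ∀ α'', α'' ⊂ α' → ¬ Lev C lam α'' θ := by
          intro α'' h5 h6
          have h7 := k2 α'' (mem_filter.2 ⟨mem_powerset.2 (h5.1.trans (mem_powerset.1 k3)), h6⟩)
          have h8 := card_lt_card h5
          omega
        have g8 : α'.card ≠ 0 := by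
          intro h0
          rw [card_eq_zero] at h0
          rw [h0] at k4
          exact h k4
        have g9 := card_le_card (mem_powerset.1 k3)
        exact mem_biUnion.2 ⟨α'.card, mem_Ico.2 ⟨by omega, by omega⟩,
          mem_filter.2 ⟨mem_univ _, α', (mem_powerset.1 k3).trans g1,
            mem_filter.2 ⟨mem_univ _, ⟨k4, k5⟩, rfl⟩⟩⟩
    have hcard : ((univ.filter fun x => θ ≤ fp x).card : ℝ) ≤ badP.card +
        ∑ j ∈ Finset.Ico 1 (L + 1), c j := by
      have h3 := (card_le_card hsub).trans (card_union_le _ _)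
      have h4 := h3.trans (Nat.add_le_add_left card_biUnion_le _)
      simp only [c]
      exact_mod_cast h4
    have hc0 : 0 ≤ ∑ j ∈ Finset.Ico 1 (L + 1), c j := sum_nonneg fun j _ => Nat.cast_nonneg _
    have hN0 : (0 : ℝ) ≤ (NCset P Λ M Q).card := Nat.cast_nonneg _
    calc ((univ.filter fun x => θ ≤ fp x).card : ℝ) * (NCset P Λ M Q).card
        ≤ (badP.card + ∑ j ∈ Finset.Ico 1 (L + 1), c j) * (NCset P Λ M Q).card :=
          mul_le_mul_of_nonneg_right hcard hN0
      _ = badP.card * (NCset P Λ M Q).card +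
          (∑ j ∈ Finset.Ico 1 (L + 1), c j) * (NCset P Λ M Q).card := by ring
      _ ≤ badP.card * (NCset P Λ M Q).card + (∑ j ∈ Finset.Ico 1 (L + 1), c j) * s := by
          have := mul_le_mul_of_nonneg_left hNs hc0
          linarith
      _ ≤ badP.card * (NCset P Λ M Q).card + Fintype.card X * G := by linarith
      _ ≤ _ := by
          have := mul_le_mul_of_nonneg_left hG1 (Nat.cast_nonneg (α := ℝ) (Fintype.card X))
          linarith

end main

end Pool.Agent.L0h35.Ng
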