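import Pool.Agent.L0h35.NgCore

/-!
# Circuits with few NOT gates: the asymptotic form
-/

set_option autoImplicit false

open scoped Classical
open Finset

namespace Pool.Agent.NPC.L0h35Ng

open Pool.Agent.L0h35.Ng

/-- the lower bound, for depth or size -/
theorem final_aux : ∃ n0 : ℕ, ∀ n r : ℕ, n0 ≤ n → (2 : ℝ) ^ r * Real.logb 2 n ^ 30 ≤ n →
    ∀ (Ω : Type) [Fintype Ω] [Nonempty Ω] (C : Ω → Circuit n), (∀ ω, (C ω).nots ≤ r) →
    (∀ x : Fin n → Bool, 3 * Fintype.card Ω ≤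
      4 * (univ.filter fun ω => (C ω).value x = true ↔ List.ofFn x ∈ UnsolvL).card) →
    ¬ ∀ ω, ((C ω).size : ℝ) < (2 : ℝ) ^ (((n : ℝ) / 2 ^ r) ^ (1 / 30 : ℝ)) ∨
      ((C ω).depth : ℝ) < ((n : ℝ) / 2 ^ r) ^ (1 / 30 : ℝ) := by
  obtain ⟨L1, hcore⟩ := core
  have ht : Filter.Tendsto (fun n : ℕ => Real.logb 2 (n : ℝ)) Filter.atTop Filter.atTop :=
    (Real.tendsto_logb_atTop (by norm_num)).comp tendsto_natCast_atTop_atTop
  obtain ⟨n1, hn1⟩ := Filter.eventually_atTop.1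
    (ht.eventually (Filter.eventually_ge_atTop (max (L1 : ℝ) 300000000)))
  refine ⟨max n1 1, fun n r hn hr Ω _ _ C hnots hright hall => ?_⟩
  have hn1' := hn1 n ((le_max_left _ _).trans hn)
  have hnpos : 1 ≤ n := (le_max_right _ _).trans hn
  have hnr : (0 : ℝ) < n := by exact_mod_cast hnpos
  set l : ℝ := Real.logb 2 n with hl
  have hlL1 : (L1 : ℝ) ≤ l := (le_max_left _ _).trans hn1'
  have hlbig : (300000000 : ℝ) ≤ l := (le_max_right _ _).trans hn1'
  have hl2 : (2 : ℝ) ^ l = n := Real.rpow_logb (by norm_num) (by norm_num) hnr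
  set y : ℝ := ((n : ℝ) / 2 ^ r) ^ (1 / 30 : ℝ) with hy
  have hy0 : 0 ≤ y := by rw [hy]; positivity
  have hy30 : y ^ 30 = (n : ℝ) / 2 ^ r := by
    rw [hy, ← Real.rpow_natCast, ← Real.rpow_mul (by positivity)]
    norm_num
  have hn30 : (n : ℝ) = 2 ^ r * y ^ 30 := by
    rw [hy30]
    field_simp
  have hly : l ≤ y := by
    have h1 : l ^ 30 ≤ y ^ 30 := by
      rw [hy30, le_div_iff₀ (by positivity)]
      linarith
    exact le_of_pow_le_pow_left₀ (by norm_num) hy0 h1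
  -- the parameter `L`
  obtain ⟨L, hL⟩ : ∃ L, L = ⌈y⌉₊ + 2 := ⟨_, rfl⟩
  have hLy : y + 2 ≤ L := by
    rw [hL]
    push_cast
    linarith [Nat.le_ceil y]
  have hLy' : (L : ℝ) ≤ y + 3 := by
    rw [hL]
    push_cast
    linarith [Nat.ceil_lt_add_one hy0]
  have hL1 : L1 ≤ L := by
    have : (L1 : ℝ) ≤ L := by linarith
    exact_mod_cast this
  have hr1 : (r : ℝ) ≤ l := by
    have h1 : (1 : ℝ) ≤ l ^ 30 := one_le_pow₀ (by linarith)
    have h2 : (2 : ℝ) ^ r ≤ n := le_trans (le_mul_of_one_le_right (by positivity) h1) hr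
    rw [← hl2, ← Real.rpow_natCast] at h2
    exact (Real.rpow_le_rpow_left_iff (by norm_num)).1 h2
  have hsz : ((n.size : ℕ) : ℝ) ≤ l + 1 := by
    have h1 : n.size - 1 < n.size := by
      have : 0 < n.size := Nat.size_pos.2 hnpos
      omega
    have h2 : 2 ^ (n.size - 1) ≤ n := Nat.lt_size.1 h1
    have h3 : (2 : ℝ) ^ (n.size - 1 : ℕ) ≤ n := by exact_mod_cast h2
    rw [← hl2, ← Real.rpow_natCast] at h3
    have h4 := (Real.rpow_le_rpow_left_iff (by norm_num)).1 h3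
    have h5 : 1 ≤ n.size := by omega
    rw [Nat.cast_sub h5] at h4
    push_cast at h4
    linarith
  -- the number of blocks and their size
  obtain ⟨b, hb⟩ : ∃ b, b = 4 * ((r + 1) * 2 ^ r) + 1 := ⟨_, rfl⟩
  obtain ⟨j, hj⟩ : ∃ j, j = Nat.clog 2 (128 * L ^ 13) := ⟨_, rfl⟩
  have hLpos : 0 < L := by omega
  have hL13 : 0 < L ^ 13 := by positivity
  have hj1 : 128 * L ^ 13 ≤ 2 ^ j := by
    rw [hj]
    exact Nat.le_pow_clog (by norm_num) _
  have hj0 : 1 ≤ j := by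
    by_contra h
    have h0 : j = 0 := by omega
    rw [h0] at hj1
    omega
  have hj2 : 2 ^ j ≤ 256 * L ^ 13 := by
    have h1 : 2 ^ (Nat.clog 2 (128 * L ^ 13)).pred < 128 * L ^ 13 :=
      Nat.pow_pred_clog_lt_self (by norm_num) (by omega)
    rw [← hj] at h1
    have h2 : 2 ^ j = 2 ^ j.pred * 2 := by
      rw [← pow_succ]
      congr 1
      simp only [Nat.pred_eq_sub_one]
      omega
    omega
  have hbn : b * (2 ^ j) ^ 2 * 289 * (n.size + 1) ≤ n := by
    have e1 : (b : ℝ) ≤ 8 * (L * 2 ^ r) := by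
      rw [hb]
      push_cast
      have h1 : (1 : ℝ) ≤ 2 ^ r := one_le_pow₀ (by norm_num)
      have h2 : (r : ℝ) + 1 ≤ L := by linarith
      have h3 : ((r : ℝ) + 1) * 2 ^ r ≤ L * 2 ^ r :=
        mul_le_mul_of_nonneg_right h2 (by positivity)
      have h4 : (1 : ℝ) ≤ L * 2 ^ r := by
        have h5 : (1 : ℝ) ≤ L := by linarith
        nlinarith
      linarith
    have e2 : (((2 : ℝ) ^ j) ^ 2) ≤ (256 * L ^ 13) ^ 2 := by
      have h1 : (2 : ℝ) ^ j ≤ 256 * L ^ 13 := by exact_mod_cast hj2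
      exact pow_le_pow_left₀ (by positivity) h1 2
    have e3 : ((n.size : ℕ) : ℝ) + 1 ≤ L := by linarith
    have e4 : (b : ℝ) * ((2 : ℝ) ^ j) ^ 2 * 289 * ((n.size : ℝ) + 1) ≤
        (8 * (L * 2 ^ r)) * (256 * L ^ 13) ^ 2 * 289 * L := by
      refine mul_le_mul (mul_le_mul_of_nonneg_right (mul_le_mul e1 e2 (by positivity)
        (by positivity)) (by norm_num)) e3 (by positivity) (by positivity)
    have e5 : (8 * ((L : ℝ) * 2 ^ r)) * (256 * L ^ 13) ^ 2 * 289 * L =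
        2 ^ r * (151519232 * L ^ 28) := by ring
    have e6 : (L : ℝ) ≤ 2 * y := by linarith
    have e7 : (L : ℝ) ^ 28 ≤ (2 * y) ^ 28 := pow_le_pow_left₀ (by positivity) e6 28
    have e8 : (151519232 : ℝ) * L ^ 28 ≤ y ^ 30 := by
      have h1 : (300000000 : ℝ) ≤ y := hlbig.trans hly
      have h2 : (300000000 : ℝ) ^ 2 ≤ y ^ 2 := pow_le_pow_left₀ (by norm_num) h1 2
      have h3 : (151519232 : ℝ) * (2 * y) ^ 28 = (151519232 * 268435456) * y ^ 28 := by ring
      have h4 : (151519232 * 268435456 : ℝ) ≤ y ^ 2 := le_trans (by norm_num) h2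
      calc (151519232 : ℝ) * L ^ 28 ≤ 151519232 * (2 * y) ^ 28 :=
            mul_le_mul_of_nonneg_left e7 (by norm_num)
        _ = (151519232 * 268435456) * y ^ 28 := h3
        _ ≤ y ^ 2 * y ^ 28 := mul_le_mul_of_nonneg_right h4 (by positivity)
        _ = y ^ 30 := by ring
    have e9 : ((b * (2 ^ j) ^ 2 * 289 * (n.size + 1) : ℕ) : ℝ) ≤ n := by
      push_cast
      calc (b : ℝ) * ((2 : ℝ) ^ j) ^ 2 * 289 * ((n.size : ℝ) + 1) ≤ _ := e4
        _ = 2 ^ r * (151519232 * L ^ 28) := e5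
        _ ≤ 2 ^ r * y ^ 30 := mul_le_mul_of_nonneg_left e8 (by positivity)
        _ = n := hn30.symm
    exact_mod_cast e9
  have hb1 : 1 ≤ b := by omega
  have hnsz : 1 ≤ n.size + 1 := by omega
  have hP : 1 ≤ 2 ^ j := Nat.one_le_two_pow
  have hbn1 : b ≤ n := by
    refine le_trans ?_ hbn
    calc b = b * 1 * 1 * 1 := by ring
      _ ≤ b * (2 ^ j) ^ 2 * 289 * (n.size + 1) :=
        Nat.mul_le_mul (Nat.mul_le_mul (Nat.mul_le_mul_left _ (Nat.one_le_pow _ _ hP))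
          (by norm_num)) hnsz
  have hjn : 2 ^ j ≤ n := by
    refine le_trans ?_ hbn
    calc 2 ^ j = 1 * (2 ^ j * 1) * 1 * 1 := by ring
      _ ≤ b * (2 ^ j) ^ 2 * 289 * (n.size + 1) := by
        refine Nat.mul_le_mul (Nat.mul_le_mul (Nat.mul_le_mul hb1 ?_) (by norm_num)) hnsz
        rw [pow_two]
        exact Nat.mul_le_mul_left _ hP
  have hnL : (n : ℝ) ≤ 2 ^ L := by
    rw [← hl2, ← Real.rpow_natCast]
    exact Real.rpow_le_rpow_of_exponent_le (by norm_num) (by linarith)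
  have hbL : b ≤ 2 ^ L := by
    have h1 : (b : ℝ) ≤ 2 ^ L := le_trans (by exact_mod_cast hbn1) hnL
    exact_mod_cast h1
  have hjs : j < n.size + 1 := Nat.lt_succ_of_lt (Nat.lt_size.2 hjn)
  have key := hcore L hL1 n j b r hj1 hjs hbn hbL Ω C hnots ?_ hright
  · omega
  · intro ω
    rcases hall ω with h | h
    · left
      have h1 : (n : ℝ) ≤ 2 ^ y := by
        rw [← hl2]
        exact Real.rpow_le_rpow_of_exponent_le (by norm_num) hly
      have h2 : (2 : ℝ) ≤ 2 ^ y := by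
        calc (2 : ℝ) = 2 ^ (1 : ℝ) := (Real.rpow_one 2).symm
          _ ≤ 2 ^ y := Real.rpow_le_rpow_of_exponent_le (by norm_num) (by linarith)
      have h3 : (2 : ℝ) ^ (y + 2) ≤ 2 ^ L := by
        rw [← Real.rpow_natCast]
        exact Real.rpow_le_rpow_of_exponent_le (by norm_num) hLy
      have h4 : (2 : ℝ) ^ (y + 2) = 4 * 2 ^ y := by
        rw [Real.rpow_add (by norm_num)]
        norm_num
        ring
      have h5 : (((C ω).size + n + 2 : ℕ) : ℝ) ≤ ((2 ^ L : ℕ) : ℝ) := by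
        push_cast
        linarith
      exact_mod_cast h5
    · right
      have h1 : (C ω).depth < ⌈y⌉₊ := Nat.lt_ceil.2 h
      exact Nat.pow_le_pow_right (by norm_num) (by omega)

end Pool.Agent.NPC.L0h35Ng
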