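import Pool.Agent.L0h35.NgFI

set_option autoImplicit false

/-! # Host level: unsatisfiable copies look like satisfiable systems -/

open scoped Classical
open Finset

namespace Pool.Agent.L0h35.Ng

open H630VC (Prog marked)
open H589DT

section nccard

variable {P Λ : Type} [Fintype P] [Fintype Λ] {M Q : ℕ}

theorem nc_card (hQ : 1 ≤ Q) (h1 : 8 * (Fintype.card P * Fintype.card Λ ^ 2 * M ^ 2) ≤ Q ^ 2) :
    (Fintype.card (Smp P Λ M Q) : ℝ) ≤ 2 * (NCset P Λ M Q).card := by
  have hQ0 : (0 : ℝ) < Q := by exact_mod_cast hQ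
  have h2 := t_NC P Λ M Q hQ
  have h3 := Finset.card_filter_add_card_filter_not (s := (univ : Finset (Smp P Λ M Q)))
    (fun ω => NoConflict (marked ω))
  rw [card_univ] at h3
  have h4 : ((univ.filter fun ω : Smp P Λ M Q => ¬ NoConflict (marked ω)).card : ℝ) * (Q : ℝ) ^ 2 ≤
      Fintype.card P * (Fintype.card Λ : ℝ) ^ 2 * (M : ℝ) ^ 2 * Fintype.card (Smp P Λ M Q) := by
    exact_mod_cast h2
  have h5 : 8 * (Fintype.card P * (Fintype.card Λ : ℝ) ^ 2 * (M : ℝ) ^ 2) ≤ (Q : ℝ) ^ 2 := by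
    exact_mod_cast h1
  set s : ℝ := (Fintype.card (Smp P Λ M Q) : ℝ) with hs
  have hs0 : 0 ≤ s := by positivity
  have h6 : 8 * ((univ.filter fun ω : Smp P Λ M Q => ¬ NoConflict (marked ω)).card : ℝ) ≤ s := by
    have h7 := mul_le_mul_of_nonneg_right h5 hs0
    have h8 : (8 * ((univ.filter fun ω : Smp P Λ M Q => ¬ NoConflict (marked ω)).card : ℝ)) *
        (Q : ℝ) ^ 2 ≤ s * (Q : ℝ) ^ 2 := by linarith
    exact le_of_mul_le_mul_right h8 (by positivity)
  have h9 : ((NCset P Λ M Q).card : ℝ) +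
      ((univ.filter fun ω : Smp P Λ M Q => ¬ NoConflict (marked ω)).card : ℝ) = s := by
    rw [hs, ← h3]
    push_cast
    rfl
  linarith

end nccard

section comb

variable {P Λ X : Type} [Fintype P] [Fintype Λ] [Fintype X]

/-- all functions computed by a circuit, abstract form -/
theorem comb2 [Nonempty X] {L : ℕ} (C : ConsSystem P Λ (2 * L)) (M Q A : ℕ)
    (tr : X → Finset P) (hL : 1 ≤ L) (hM : 1 ≤ M) (hQ : 1 ≤ Q) (hA : 8 * ((8 * L + 1) * Q) ≤ A)
    (htr : ∀ α : Finset P, (univ.filter fun x => α ⊆ tr x).card * A ^ α.card ≤ Fintype.card X)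
    (h1 : 8 * (Fintype.card P * Fintype.card Λ ^ 2 * M ^ 2) ≤ Q ^ 2)
    (h2 : 8 * (2 * L * Fintype.card Λ * M) ≤ Q)
    (I : Type) (posI : X → I) (negI : Smp P Λ M Q → I) (inp : Set (I → ℝ))
    (hraw : ∀ g ∈ inp, ∃ lam : C.T → ℝ,
      Raw C M Q (2 * L) tr ∅ ∅ lam (fun x => g (posI x)) (fun ω => g (negI ω)))
    (l : List (I → ℝ)) (hl : Prog inp l) (f : I → ℝ) (hf : f ∈ l) (θ : ℝ) :
    ((univ.filter fun x : X => θ ≤ f (posI x)).card : ℝ) / Fintype.card X ≤
      (((NCset P Λ M Q).filter fun ω => θ ≤ f (negI ω)).card : ℝ) / (NCset P Λ M Q).card +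
      l.length * (1 / 8 ^ L +
        2 * ((Fintype.card P * Fintype.card Λ + 1 : ℕ) : ℝ) ^ (2 * L) / 2 ^ M) := by
  have hA' : 8 * (4 * (2 * L) * Q) ≤ A := by
    refine le_trans ?_ hA
    refine Nat.mul_le_mul_left _ (Nat.mul_le_mul_right _ (by omega))
  obtain ⟨badP, badN, b1, b2, b3⟩ := t_PR (t_ST t_CC) P Λ X L C M Q A tr hL hM hQ hA' htr I
    posI negI inp hraw l hl
  have key := fi2 C M Q A tr hL hM hQ hA htr h1 h2 badP badN _ _ (b3 f hf) θ
  have hNC := nc_card (P := P) (Λ := Λ) (M := M) hQ h1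
  have hct := t_CT P Λ (2 * L) C
  set s : ℝ := (Fintype.card (Smp P Λ M Q) : ℝ) with hs
  have hs0 : 0 < s := by
    have : Nonempty (Smp P Λ M Q) := ⟨fun _ _ => ⟨0, hQ⟩⟩
    rw [hs]
    exact_mod_cast Fintype.card_pos
  set nc : ℝ := ((NCset P Λ M Q).card : ℝ) with hnc
  have hnc0 : 0 < nc := by linarith
  have hX0 : (0 : ℝ) < Fintype.card X := by exact_mod_cast Fintype.card_pos
  set xc : ℝ := (Fintype.card X : ℝ) with hxc
  set W : ℝ := ((Fintype.card P * Fintype.card Λ + 1 : ℕ) : ℝ) ^ (2 * L) with hW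
  have hb1 : (badP.card : ℝ) ≤ l.length * (xc / 8 ^ L) := by
    have h3 : (badP.card : ℝ) * 8 ^ L ≤ l.length * xc := by
      rw [hxc]
      exact_mod_cast b1
    rw [← mul_div_assoc, le_div_iff₀ (by positivity)]
    exact h3
  have hb2 : (badN.card : ℝ) ≤ l.length * (2 * W / 2 ^ M) * nc := by
    have h3 : (badN.card : ℝ) * 2 ^ M ≤ l.length * (Fintype.card C.T * s) := by
      rw [hs]
      exact_mod_cast b2
    have h4 : (Fintype.card C.T : ℝ) ≤ W := by
      rw [hW]
      exact_mod_cast hct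
    have h5 : (Fintype.card C.T : ℝ) * s ≤ W * (2 * nc) :=
      mul_le_mul h4 hNC hs0.le (by positivity)
    have h6 : (badN.card : ℝ) * 2 ^ M ≤ l.length * (W * (2 * nc)) :=
      h3.trans (mul_le_mul_of_nonneg_left h5 (Nat.cast_nonneg _))
    have h7 : l.length * (2 * W / 2 ^ M) * nc = l.length * (W * (2 * nc)) / 2 ^ M := by ring
    rw [h7, le_div_iff₀ (by positivity)]
    exact h6
  set N1 : ℝ := ((univ.filter fun x : X => θ ≤ f (posI x)).card : ℝ) with hN1
  set N2 : ℝ := (((NCset P Λ M Q).filter fun ω => θ ≤ f (negI ω)).card : ℝ) with hN2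
  have hfin : N1 * nc ≤ (N2 / nc + l.length * (1 / 8 ^ L + 2 * W / 2 ^ M)) * xc * nc := by
    calc N1 * nc ≤ badP.card * nc + xc * (N2 + badN.card) := key
      _ ≤ (l.length * (xc / 8 ^ L)) * nc + xc * (N2 + l.length * (2 * W / 2 ^ M) * nc) := by
          have g1 := mul_le_mul_of_nonneg_right hb1 hnc0.le
          have g2 := mul_le_mul_of_nonneg_left (add_le_add_right hb2 N2) hX0.le
          linarith
      _ = _ := by
          field_simp
          ring
  rw [div_le_iff₀ hX0]
  exact le_of_mul_le_mul_right hfin hnc0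

end comb

section

variable {U E Λ A : Type} [Fintype U] [Fintype E] [Fintype Λ] [Fintype A]

/-- **One block.** A function computed by a circuit of nondecreasing gates with `s` gates exceeds
`θ` on the copies of the constraint graph with at most the probability with which it exceeds `θ`
on the satisfiable systems without conflicts, plus `s` times a small number. -/
theorem host [Nonempty A] (G : CGraph U E Λ) (L M Q : ℕ) (F : Local U Λ (2 * L))
    (hF : ∀ S ρ, F.C S ρ → G.SatOn S ρ) (hL : 1 ≤ L) (hM : 1 ≤ M) (hQ : 1 ≤ Q)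
    (hA : 8 * ((8 * L + 1) * Q) ≤ Fintype.card A)
    (h1 : 8 * (Fintype.card U * Fintype.card A * Fintype.card Λ ^ 2 * M ^ 2) ≤ Q ^ 2)
    (h2 : 8 * (2 * L * Fintype.card Λ * M) ≤ Q)
    (I : Type) (inst : Finset (E × A × A) → I) (inp : Set (I → ℝ)) (hinp : HostInputs inst inp)
    (l : List (I → ℝ)) (hl : Prog inp l) (f : I → ℝ) (hf : f ∈ l) (θ : ℝ) :
    ((univ.filter fun x : U → A => θ ≤ f (inst (hx G x))).card : ℝ) / Fintype.card (U → A) ≤
      (((NCset (U × A) Λ M Q).filter fun ω => θ ≤ f (inst (hT G (marked ω)))).card : ℝ) /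
        (NCset (U × A) Λ M Q).card +
      l.length * (1 / 8 ^ L +
        2 * ((Fintype.card U * Fintype.card A * Fintype.card Λ + 1 : ℕ) : ℝ) ^ (2 * L) / 2 ^ M) := by
  obtain ⟨C, hC⟩ := t_CO U Λ A (2 * L) F
  have htr := t_TR U A
  have hraw : ∀ g ∈ inp, ∃ lam : C.T → ℝ,
      Raw C M Q (2 * L) (fun x : U → A => univ.image fun u => (u, x u)) ∅ ∅ lam
        (fun x => g (inst (hx G x))) (fun ω => g (inst (hT G (marked ω)))) := by
    intro g hg
    rcases hinp g hg with ⟨c, hc⟩ | ⟨c, hc⟩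
    · refine ⟨fun _ => c, ?_⟩
      have e1 : (fun x : U → A => g (inst (hx G x))) = fun _ => c := funext fun x => hc _
      have e2 : (fun ω : Smp (U × A) Λ M Q => g (inst (hT G (marked ω)))) = fun _ => c :=
        funext fun x => hc _
      rw [e1, e2]
      exact raw_const C M Q (2 * L) (fun x : U → A => univ.image fun u => (u, x u)) c
    · obtain ⟨lam, h⟩ := raw_bit G L M Q F hF hL C hC c
      refine ⟨lam, ?_⟩
      have e1 : (fun x : U → A => g (inst (hx G x))) = fun x => if c ∈ hx G x then 1 else 0 :=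
        funext fun x => by rw [hc]
      have e2 : (fun ω : Smp (U × A) Λ M Q => g (inst (hT G (marked ω)))) =
          fun ω => if c ∈ hT G (marked ω) then 1 else 0 :=
        funext fun x => by rw [hc]
      rw [e1, e2]
      exact h
  have h1' : 8 * (Fintype.card (U × A) * Fintype.card Λ ^ 2 * M ^ 2) ≤ Q ^ 2 := by
    rw [Fintype.card_prod]
    exact h1
  have key := comb2 C M Q (Fintype.card A) (fun x : U → A => univ.image fun u => (u, x u)) hL hM hQ
    hA (fun α => by
      have h := htr α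
      rwa [card_filter_inst] at h) h1' h2 I (fun x => inst (hx G x))
    (fun ω => inst (hT G (marked ω))) inp hraw l hl f hf θ
  rw [Fintype.card_prod] at key
  exact key

end

end Pool.Agent.L0h35.Ng
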