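import Pool.Agent.H334R5.Lin.Conv
import Pool.Agent.H671R2.PolyAuto
import Pool.Agent.NPC.Classes

/-!
# A monotone language in P: unsolvable systems of linear equations modulo 17

The bits of a string of length `n` tell which equations of a list of `n` equations are present;
the equations are divided into scales `m = 2 ^ j` and, for each scale, into blocks with `m ^ 2 * 289`
equations each, which share no variables.
-/

set_option autoImplicit false

namespace Pool.Agent.NPC.L0h35Ng

open Pool.Agent.H334R5.Lin

/-- labels of variables -/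
abbrev Lab : Type := ℕ × (ℕ × (ℕ × ℕ))

/-- the block size of the equation `i` -/
def scl (n i : ℕ) : ℕ := 2 ^ (i % (n.size + 1))

/-- the number of the equation in its scale -/
def rnk (n i : ℕ) : ℕ := i / (n.size + 1)

/-- the equation `i` in strings of length `n` -/
def row (n i : ℕ) : List (Lab × ℕ) :=
  [((0, (scl n i, (rnk n i / 17 / 17 / scl n i / scl n i, rnk n i / 17 / 17 / scl n i % scl n i))), 1),
    ((1, (scl n i, (rnk n i / 17 / 17 / scl n i / scl n i, rnk n i / 17 / 17 / scl n i % scl n i))),
      16 * (rnk n i / 17 % 17)),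
    ((2, (scl n i, (rnk n i / 17 / 17 / scl n i / scl n i, rnk n i / 17 / 17 % scl n i))), 16),
    ((3, (0, (0, 0))), rnk n i % 17)]

/-- the assignment `σ` satisfies the equation `i` in strings of length `n` -/
def SatEq (σ : Lab → ZMod 17) (n i : ℕ) : Prop :=
  σ (0, (scl n i, (rnk n i / 17 / 17 / scl n i / scl n i, rnk n i / 17 / 17 / scl n i % scl n i))) -
    ((rnk n i / 17 % 17 : ℕ) : ZMod 17) *
    σ (1, (scl n i, (rnk n i / 17 / 17 / scl n i / scl n i, rnk n i / 17 / 17 / scl n i % scl n i))) +
    ((rnk n i % 17 : ℕ) : ZMod 17) =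
    σ (2, (scl n i, (rnk n i / 17 / 17 / scl n i / scl n i, rnk n i / 17 / 17 % scl n i)))

/-- the language: the system of the equations that are present has no solution -/
def UnsolvL : Set (List Bool) :=
  {x | ¬ ∃ σ : Lab → ZMod 17, ∀ i < x.length, x.getD i false = true → SatEq σ x.length i}

/-- the rows of the system -/
def rows (x : List Bool) : List (List (Lab × ℕ)) :=
  ((List.range x.length).filter (fun i => x.getD i false)).map (fun i => row x.length i)

/-- Decoding of rows. -/
def feat (s : List Bool) : List (Lab × ℕ) := (unbits (List (Lab × ℕ)) s).getD []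

/-- The row of the constant. -/
def one : List (Lab × ℕ) := [((3, (0, (0, 0))), 1)]

/-- The algorithm. -/
def alg (x : List Bool) : Bool := ruleB 17 feat ((rows x).map (fun r => bits r)) (bits one)

section

variable {α : Type} [TEnc α]

theorem poly_scl {n i : α → ℕ} (hn : Poly n) (hi : Poly i) : Poly (fun a => scl (n a) (i a)) := by
  have h1 : UPoly (fun a => (n a).bits.length + 1) := (UPoly.length (Poly.natBits hn)).add (UPoly.const 1)
  have h2 : UPoly (fun a => i a % ((n a).bits.length + 1)) :=
    UPoly.of_le (Poly.mod hi (UPoly.toPoly h1)) h1 (fun a => (Nat.mod_lt _ (Nat.succ_pos _)).le)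
  have h3 : Poly (fun a => (List.range (i a % ((n a).bits.length + 1))).map (fun _ => false) ++ [true]) := by
    have := h2.range
    fun_prop
  refine (Poly.valBits h3).congr fun a => ?_
  have h4 : (List.range (i a % ((n a).bits.length + 1))).map (fun _ => false) =
      List.replicate (i a % ((n a).bits.length + 1)) false := by
    simp
  rw [h4, valB_replicate_false]
  unfold scl
  rw [← Nat.size_eq_bits_len]
  simp

theorem poly_rnk {n i : α → ℕ} (hn : Poly n) (hi : Poly i) : Poly (fun a => rnk (n a) (i a)) := by
  have h1 : Poly (fun a => i a / ((n a).bits.length + 1)) := by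
    have := Poly.natBits hn
    fun_prop
  refine h1.congr fun a => ?_
  unfold rnk
  rw [← Nat.size_eq_bits_len]

theorem poly_row {n i : α → ℕ} (hn : Poly n) (hi : Poly i) : Poly (fun a => row (n a) (i a)) := by
  have h1 := poly_scl hn hi
  have h2 := poly_rnk hn hi
  unfold row
  fun_prop

end

theorem poly_rows : Poly rows := by
  unfold rows
  have h1 : Poly (fun x : List Bool => List.range x.length) := Poly.range_length Poly.id
  have h2 : Poly (fun x : List Bool => (List.range x.length).filter (fun i => x.getD i false)) := by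
    fun_prop
  refine Poly.map (α := List Bool) (β := ℕ) (γ := List (Lab × ℕ))
    (F := fun x i => row x.length i) h2 ?_
  exact poly_row (Poly.length (Poly.fst Poly.id)) (Poly.snd Poly.id)

theorem poly_feat : Poly feat := by
  unfold feat
  exact Poly.optGetD poly_unbits (Poly.const [])

theorem feat_bits (v : List (Lab × ℕ)) : feat (bits v) = v := by
  unfold feat
  rw [unbits_bits]
  rfl

theorem poly_alg : Poly alg := by
  unfold alg
  have h1 : Poly (fun x : List Bool => (rows x).map (fun r => bits r)) :=
    Poly.map (α := List Bool) (β := List (Lab × ℕ)) (γ := List Bool)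
      (F := fun _ r => bits r) poly_rows (poly_bitsOf.comp (Poly.snd Poly.id))
  have h2 := poly_ruleB (p := 17) (by norm_num) poly_feat
  exact Poly.comp (g := fun t : List (List Bool) × List Bool => ruleB 17 feat t.1 t.2)
    (f := fun x : List Bool => ((rows x).map (fun r => bits r), bits one)) h2
    (Poly.pair h1 (Poly.const _))

/-- The linear functional of an assignment. -/
noncomputable def lin (σ : Lab → ZMod 17) : (Lab →₀ ZMod 17) →ₗ[ZMod 17] ZMod 17 :=
  Finsupp.linearCombination (ZMod 17) σ

theorem lin_vec (σ : Lab → ZMod 17) (v : List (Lab × ℕ)) :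
    lin σ (vec 17 v) = (v.map (fun e => (e.2 : ZMod 17) * σ e.1)).sum := by
  induction v with
  | nil => simp [vec]
  | cons e v ih =>
    rw [vec_cons, map_add, ih, List.map_cons, List.sum_cons]
    unfold lin
    rw [Finsupp.linearCombination_single, smul_eq_mul]

theorem z16 : ((16 : ℕ) : ZMod 17) = -1 := by decide

theorem lin_row {σ : Lab → ZMod 17} (h0 : σ (3, (0, (0, 0))) = 1) (n i : ℕ) :
    lin σ (vec 17 (row n i)) = 0 ↔ SatEq σ n i := by
  rw [lin_vec]
  unfold row SatEq
  simp only [List.map_cons, List.map_nil, List.sum_cons, List.sum_nil, Nat.cast_mul, z16, h0]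
  constructor
  · intro h
    linear_combination h
  · intro h
    linear_combination h

theorem mem_rows (x : List Bool) (r : List (Lab × ℕ)) :
    r ∈ rows x ↔ ∃ i < x.length, x.getD i false = true ∧ r = row x.length i := by
  unfold rows
  simp only [List.mem_map, List.mem_filter, List.mem_range]
  constructor
  · rintro ⟨i, ⟨h1, h2⟩, rfl⟩
    exact ⟨i, h1, h2, rfl⟩
  · rintro ⟨i, h1, h2, rfl⟩
    exact ⟨i, ⟨h1, h2⟩, rfl⟩

theorem alg_iff (x : List Bool) : alg x = true ↔ x ∈ UnsolvL := by
  have : Fact (Nat.Prime 17) := ⟨by norm_num⟩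
  have hspan : alg x = true ↔ vec 17 one ∈ Submodule.span (ZMod 17)
      ((fun r => vec 17 r) '' {r | r ∈ rows x}) := by
    unfold alg
    rw [ruleB_iff, feat_bits]
    have : ((fun y => vec 17 (feat y)) '' {y | y ∈ (rows x).map (fun r => bits r)}) =
        ((fun r => vec 17 r) '' {r | r ∈ rows x}) := by
      ext w
      simp only [Set.mem_image, Set.mem_ofPred_eq, List.mem_map]
      constructor
      · rintro ⟨_, ⟨r, hr, rfl⟩, rfl⟩
        exact ⟨r, hr, by rw [feat_bits]⟩
      · rintro ⟨r, hr, rfl⟩
        exact ⟨_, ⟨r, hr, rfl⟩, by rw [feat_bits]⟩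
    rw [this]
  rw [hspan]
  constructor
  · rintro hmem ⟨σ, hσ⟩
    let σ' : Lab → ZMod 17 := Function.update σ (3, (0, (0, 0))) 1
    have h0 : σ' (3, (0, (0, 0))) = 1 := Function.update_self ..
    have hle : Submodule.span (ZMod 17) ((fun r => vec 17 r) '' {r | r ∈ rows x}) ≤
        LinearMap.ker (lin σ') := by
      rw [Submodule.span_le]
      rintro _ ⟨r, hr, rfl⟩
      obtain ⟨i, hi, hi2, rfl⟩ := (mem_rows x r).1 hr
      rw [SetLike.mem_coe, LinearMap.mem_ker]
      dsimp only
      rw [lin_row h0]
      have h1 := hσ i hi hi2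
      unfold SatEq at h1 ⊢
      have e0 : ∀ q, σ' (0, q) = σ (0, q) := fun q => Function.update_of_ne (by simp) _ _
      have e1 : ∀ q, σ' (1, q) = σ (1, q) := fun q => Function.update_of_ne (by simp) _ _
      have e2 : ∀ q, σ' (2, q) = σ (2, q) := fun q => Function.update_of_ne (by simp) _ _
      rw [e0, e1, e2]
      exact h1
    have h1 := hle hmem
    rw [LinearMap.mem_ker, lin_vec] at h1
    unfold one at h1
    simp only [List.map_cons, List.map_nil, List.sum_cons, List.sum_nil, Nat.cast_one, one_mul,
      add_zero, h0] at h1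
    exact one_ne_zero h1
  · intro h
    by_contra hnot
    apply h
    obtain ⟨f, hf, hf'⟩ := Submodule.exists_le_ker_of_notMem hnot
    have hone : vec 17 one = Finsupp.single ((3, (0, (0, 0))) : Lab) (1 : ZMod 17) := by
      simp [vec, one]
    set c : ZMod 17 := f (vec 17 one) with hc
    obtain ⟨σ, hσ⟩ : ∃ σ, c⁻¹ • f = lin σ := by
      refine ⟨fun u => (c⁻¹ • f) (Finsupp.single u 1), ?_⟩
      apply Finsupp.lhom_ext
      intro u d
      unfold lin
      rw [Finsupp.linearCombination_single, smul_eq_mul]
      have : Finsupp.single u d = d • Finsupp.single u (1 : ZMod 17) := by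
        rw [Finsupp.smul_single, smul_eq_mul, mul_one]
      rw [this, map_smul, smul_eq_mul]
    have h0 : σ (3, (0, (0, 0))) = 1 := by
      have h1 : lin σ (vec 17 one) = 1 := by
        rw [← hσ, LinearMap.smul_apply, ← hc, smul_eq_mul, inv_mul_cancel₀ hf]
      rw [lin_vec] at h1
      unfold one at h1
      simpa using h1
    refine ⟨σ, fun i hi hi2 => ?_⟩
    rw [← lin_row h0, ← hσ, LinearMap.smul_apply]
    have hmem : row x.length i ∈ rows x := (mem_rows x _).2 ⟨i, hi, hi2, rfl⟩
    have h2 := hf' (Submodule.subset_span ⟨_, hmem, rfl⟩)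
    rw [LinearMap.mem_ker] at h2
    dsimp only at h2
    rw [h2, smul_zero]

theorem unsolv_inP : InP UnsolvL :=
  ⟨fun x => [alg x], polyTime_of_poly poly_alg, fun x => by
    rw [← alg_iff]
    simp⟩

/-- the language is monotone -/
theorem unsolv_mono {x y : List Bool} (hlen : x.length = y.length)
    (h : ∀ i, x.getD i false = true → y.getD i false = true) (hx : x ∈ UnsolvL) : y ∈ UnsolvL := by
  rintro ⟨σ, hσ⟩
  exact hx ⟨σ, fun i hi hi2 => hlen ▸ hσ i (hlen ▸ hi) (h i hi2)⟩

end Pool.Agent.NPC.L0h35Ng
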