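import Pool.Agent.L0h35.NgCC
import Pool.Agent.H630VC.Neg

set_option autoImplicit false

/-! # The second moment -/

open scoped Classical
open Finset

namespace Pool.Agent.L0h35.Ng

open H630VC (Om marked)

section second

variable {V : Type} [Fintype V] {M Q : ℕ}

/-- the number of samples with given zeros -/
theorem cnt (hQ : 1 ≤ Q) (C : Finset (Fin M × V)) :
    ((univ.filter fun ω : Om V M Q => ∀ p ∈ C, (ω p.1 p.2 : ℕ) = 0).card : ℝ) =
      (Fintype.card (Om V M Q) : ℝ) / (Q : ℝ) ^ C.card := by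
  have hQ0 : (0 : ℝ) < Q := by exact_mod_cast hQ
  rw [eq_div_iff (by positivity)]
  have h1 := H630VC.card_zeros (V := V) M Q hQ C
  have h2 : (univ.filter fun ω : Om V M Q => ∀ p ∈ C, (ω p.1 p.2 : ℕ) = 0).card * Q ^ C.card =
      Fintype.card (Om V M Q) := by
    refine Eq.trans ?_ (h1.trans (H589DT.cardFt _ _))
    exact congrArg (· * Q ^ C.card) (H589DT.cardFU _ _ _ _ _ _ fun _ => Iff.rfl)
  exact_mod_cast h2

/-- the number of samples with given zeros in one round -/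
theorem cnt_round (hQ : 1 ≤ Q) (i0 : Fin M) (A : Finset V) :
    ((univ.filter fun ω : Om V M Q => ∀ v ∈ A, (ω i0 v : ℕ) = 0).card : ℝ) =
      (Fintype.card (Om V M Q) : ℝ) / (Q : ℝ) ^ A.card := by
  have h1 := cnt (M := M) (V := V) hQ (A.image fun v => (i0, v))
  rw [card_image_of_injective _ (fun a b h => (Prod.mk.inj h).2)] at h1
  rw [← h1]
  congr 2
  ext ω
  simp only [mem_filter, mem_univ, true_and, mem_image, forall_exists_index, and_imp]
  constructor
  · rintro h p v hv rfl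
    exact h v hv
  · intro h v hv
    exact h (i0, v) v hv rfl

/-- **Second moment.** A family of sets of `k` elements in which few sets contain a given set. -/
theorem second_moment {ι : Type} (𝓖 : Finset ι) (S : ι → Finset V) (k l : ℕ) (hl : 1 ≤ l)
    (hQ : 1 ≤ Q) (i0 : Fin M) (hcard : ∀ i ∈ 𝓖, (S i).card = k)
    (hrel : ∀ Y : Finset V,
      (𝓖.filter fun i => Y ⊆ S i).card * (4 * l * Q) ^ Y.card ≤ (4 * l * Q) ^ k)
    (N : Finset (Om V M Q))
    (hN : ∀ i ∈ 𝓖, (Fintype.card (Om V M Q) : ℝ) / (Q : ℝ) ^ k ≤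
      2 * (N.filter fun ω => ∀ v ∈ S i, (ω i0 v : ℕ) = 0).card) :
    (𝓖.card : ℝ) * Fintype.card (Om V M Q) ≤ 4 * ((4 * l + 1) * Q) ^ k *
      (N.filter fun ω => ∃ i ∈ 𝓖, ∀ v ∈ S i, (ω i0 v : ℕ) = 0).card := by
  have hQ0 : (0 : ℝ) < Q := by exact_mod_cast hQ
  have hl0 : (0 : ℝ) < l := by exact_mod_cast hl
  rcases 𝓖.eq_empty_or_nonempty with h0 | hne
  · rw [h0, card_empty, Nat.cast_zero, zero_mul]
    positivity
  have hne' : Nonempty (Om V M Q) := ⟨fun _ _ => ⟨0, hQ⟩⟩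
  set s : ℝ := (Fintype.card (Om V M Q) : ℝ) with hs
  have hs0 : 0 < s := by
    rw [hs]
    exact_mod_cast Fintype.card_pos
  set g : ℝ := (𝓖.card : ℝ) with hg
  have hg0 : 0 < g := by
    rw [hg]
    exact_mod_cast hne.card_pos
  let X : Om V M Q → ℝ := fun ω => ∑ i ∈ 𝓖, if (∀ v ∈ S i, (ω i0 v : ℕ) = 0) then (1 : ℝ) else 0
  have hcount : ∀ A : Finset V,
      ∑ ω : Om V M Q, (if (∀ v ∈ A, (ω i0 v : ℕ) = 0) then (1 : ℝ) else 0) =
        s / (Q : ℝ) ^ A.card := by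
    intro A
    rw [hs, ← cnt_round hQ i0 A, Finset.sum_boole]
  have hX1 : g * (s / (2 * (Q : ℝ) ^ k)) ≤ ∑ ω ∈ N, X ω := by
    simp only [X]
    rw [Finset.sum_comm, hg, ← nsmul_eq_mul, ← Finset.sum_const]
    refine sum_le_sum fun i hi => ?_
    have h1 := hN i hi
    rw [Finset.sum_boole]
    have h2 : s / (2 * (Q : ℝ) ^ k) = s / (Q : ℝ) ^ k / 2 := by
      field_simp
    rw [h2]
    linarith
  have hX2 : ∑ ω, X ω ^ 2 ≤ g * (((4 * l + 1) * Q) ^ k * (s / ((Q : ℝ) ^ k * (Q : ℝ) ^ k))) := by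
    have e1 : ∀ ω, X ω ^ 2 = ∑ i ∈ 𝓖, ∑ i' ∈ 𝓖,
        if (∀ v ∈ S i ∪ S i', (ω i0 v : ℕ) = 0) then (1 : ℝ) else 0 := by
      intro ω
      simp only [X]
      rw [pow_two, Finset.sum_mul_sum]
      refine sum_congr rfl fun i _ => sum_congr rfl fun i' _ => ?_
      by_cases h1 : ∀ v ∈ S i, (ω i0 v : ℕ) = 0
      · by_cases h2 : ∀ v ∈ S i', (ω i0 v : ℕ) = 0
        · rw [if_pos h1, if_pos h2, if_pos, one_mul]
          intro v hv
          rcases mem_union.1 hv with hv | hv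
          · exact h1 v hv
          · exact h2 v hv
        · rw [if_neg h2, mul_zero, if_neg]
          exact fun h => h2 fun v hv => h v (mem_union_right _ hv)
      · rw [if_neg h1, zero_mul, if_neg]
        exact fun h => h1 fun v hv => h v (mem_union_left _ hv)
    simp_rw [e1]
    rw [Finset.sum_comm]
    have e2 : ∀ i ∈ 𝓖, ∑ ω : Om V M Q, ∑ i' ∈ 𝓖,
        (if (∀ v ∈ S i ∪ S i', (ω i0 v : ℕ) = 0) then (1 : ℝ) else 0) ≤
        ((4 * l + 1) * Q) ^ k * (s / ((Q : ℝ) ^ k * (Q : ℝ) ^ k)) := by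
      intro i hi
      rw [Finset.sum_comm]
      have e3 : ∀ i' ∈ 𝓖, ∑ ω : Om V M Q,
          (if (∀ v ∈ S i ∪ S i', (ω i0 v : ℕ) = 0) then (1 : ℝ) else 0) =
          (Q : ℝ) ^ (S i ∩ S i').card * (s / ((Q : ℝ) ^ k * (Q : ℝ) ^ k)) := by
        intro i' hi'
        rw [hcount]
        have h5 : (S i ∪ S i').card + (S i ∩ S i').card = k + k := by
          rw [Finset.card_union_add_card_inter, hcard i hi, hcard i' hi']
        have h6 : (Q : ℝ) ^ k * (Q : ℝ) ^ k =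
            (Q : ℝ) ^ (S i ∪ S i').card * (Q : ℝ) ^ (S i ∩ S i').card := by
          rw [← pow_add, ← pow_add, h5]
        rw [h6]
        field_simp
      rw [Finset.sum_congr rfl e3, ← Finset.sum_mul]
      refine mul_le_mul_of_nonneg_right ?_ (by positivity)
      have e4 : ∀ i' ∈ 𝓖, (Q : ℝ) ^ (S i ∩ S i').card ≤
          ∑ Y ∈ (S i).powerset, if Y ⊆ S i' then (Q : ℝ) ^ Y.card else 0 := by
        intro i' _
        have h7 := Finset.sum_pow_mul_eq_add_pow (Q : ℝ) 1 (S i ∩ S i')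
        simp only [one_pow, mul_one] at h7
        have h8 : (Q : ℝ) ^ (S i ∩ S i').card ≤ ((Q : ℝ) + 1) ^ (S i ∩ S i').card :=
          pow_le_pow_left₀ hQ0.le (by linarith) _
        refine h8.trans ?_
        rw [← h7, ← Finset.sum_filter]
        refine le_of_eq (Finset.sum_congr ?_ fun _ _ => rfl)
        ext Y
        simp only [mem_powerset, mem_filter, subset_inter_iff]
      refine (Finset.sum_le_sum e4).trans ?_
      rw [Finset.sum_comm]
      have e5 : ∀ Y ∈ (S i).powerset, ∑ i' ∈ 𝓖, (if Y ⊆ S i' then (Q : ℝ) ^ Y.card else 0) ≤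
          (Q : ℝ) ^ Y.card * (4 * l * Q) ^ ((S i).card - Y.card) := by
        intro Y hY
        rw [← Finset.sum_filter, sum_const, nsmul_eq_mul, mul_comm]
        refine mul_le_mul_of_nonneg_left ?_ (by positivity)
        have h9 := hrel Y
        have h10 : ((𝓖.filter fun i => Y ⊆ S i).card : ℝ) * (4 * l * Q) ^ Y.card ≤
            (4 * l * Q) ^ k := by
          exact_mod_cast h9
        have h11 : Y.card ≤ k := by
          rw [← hcard i hi]
          exact card_le_card (mem_powerset.1 hY)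
        rw [hcard i hi]
        have h12 : (0 : ℝ) < (4 * l * Q) ^ Y.card := by positivity
        have h13 : ((4 : ℝ) * l * Q) ^ k = (4 * l * Q) ^ (k - Y.card) * (4 * l * Q) ^ Y.card := by
          rw [← pow_add]
          congr 1
          omega
        rw [h13] at h10
        exact le_of_mul_le_mul_right h10 h12
      refine (Finset.sum_le_sum e5).trans ?_
      rw [Finset.sum_pow_mul_eq_add_pow, hcard i hi]
      refine le_of_eq ?_
      congr 1
      ring
    refine (Finset.sum_le_sum e2).trans (le_of_eq ?_)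
    rw [sum_const, nsmul_eq_mul]
  -- Cauchy-Schwarz
  set G : Finset (Om V M Q) := N.filter fun ω => ∃ i ∈ 𝓖, ∀ v ∈ S i, (ω i0 v : ℕ) = 0 with hG
  have hX0 : ∀ ω ∈ N, ω ∉ G → X ω = 0 := by
    intro ω hωN hω
    rw [hG, mem_filter, not_and] at hω
    have h := hω hωN
    push Not at h
    refine Finset.sum_eq_zero fun i hi => if_neg fun h' => ?_
    obtain ⟨v, hv, hv'⟩ := h i hi
    exact hv' (h' v hv)
  have hsum : ∑ ω ∈ N, X ω = ∑ ω ∈ G, X ω :=
    (Finset.sum_subset (filter_subset _ _) fun ω hωN hω => hX0 ω hωN hω).symm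
  have hCS : (∑ ω ∈ N, X ω) ^ 2 ≤ (G.card : ℝ) * ∑ ω, X ω ^ 2 := by
    rw [hsum]
    refine (sq_sum_le_card_mul_sum_sq).trans ?_
    refine mul_le_mul_of_nonneg_left ?_ (by positivity)
    exact Finset.sum_le_sum_of_subset_of_nonneg (subset_univ _) fun _ _ _ => sq_nonneg _
  have h1 : (g * (s / (2 * (Q : ℝ) ^ k))) ^ 2 ≤ (G.card : ℝ) *
      (g * (((4 * l + 1) * Q) ^ k * (s / ((Q : ℝ) ^ k * (Q : ℝ) ^ k)))) :=
    (pow_le_pow_left₀ (by positivity) hX1 2).trans
      (hCS.trans (mul_le_mul_of_nonneg_left hX2 (by positivity)))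
  have h2 : (g * (s / (2 * (Q : ℝ) ^ k))) ^ 2 =
      (g * s) * (g * (s / ((Q : ℝ) ^ k * (Q : ℝ) ^ k)) / 4) := by
    field_simp
    norm_num
  have h3 : (G.card : ℝ) * (g * (((4 * l + 1) * Q) ^ k * (s / ((Q : ℝ) ^ k * (Q : ℝ) ^ k)))) =
      (4 * ((4 * l + 1) * Q) ^ k * (G.card : ℝ)) *
        (g * (s / ((Q : ℝ) ^ k * (Q : ℝ) ^ k)) / 4) := by
    ring
  rw [h2, h3] at h1
  exact le_of_mul_le_mul_right h1 (by positivity)

/-- the sample `ω` vanishes on `A` in the round `i0` -/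
def ZeroAt {V : Type} {M Q : ℕ} (i0 : Fin M) (A : Finset V) (ω : Om V M Q) : Prop :=
  ∀ v ∈ A, (ω i0 v : ℕ) = 0

theorem second_moment' {ι : Type} (𝓖 : Finset ι) (S : ι → Finset V) (k l : ℕ) (hl : 1 ≤ l)
    (hQ : 1 ≤ Q) (i0 : Fin M) (hcard : ∀ i ∈ 𝓖, (S i).card = k)
    (hrel : ∀ Y : Finset V,
      (𝓖.filter fun i => Y ⊆ S i).card * (4 * l * Q) ^ Y.card ≤ (4 * l * Q) ^ k)
    (N : Finset (Om V M Q))
    (hN : ∀ i ∈ 𝓖, (Nat.card (Om V M Q) : ℝ) / (Q : ℝ) ^ k ≤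
      2 * (N.filter fun ω => ZeroAt i0 (S i) ω).card) :
    (𝓖.card : ℝ) * Nat.card (Om V M Q) ≤ 4 * ((4 * l + 1) * Q) ^ k *
      (N.filter fun ω => ∃ i ∈ 𝓖, ZeroAt i0 (S i) ω).card := by
  rw [Nat.card_eq_fintype_card] at hN ⊢
  have h := second_moment 𝓖 S k l hl hQ i0 hcard hrel N fun i hi => by
    refine (hN i hi).trans (le_of_eq ?_)
    exact congrArg (fun n : ℕ => 2 * (n : ℝ)) (H589DT.cardF _ _ _ _ _ fun _ => Iff.rfl)
  refine h.trans (le_of_eq ?_)
  exact congrArg (fun n : ℕ => 4 * ((4 * (l : ℝ) + 1) * Q) ^ k * (n : ℝ))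
    (H589DT.cardF _ _ _ _ _ fun _ => Iff.rfl)

end second

end Pool.Agent.L0h35.Ng
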