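import Pool.Agent.L0h35.NgGen

/-!
# Arbitrary functions of circuits with few NOT gates, small advantage, windows of inputs
-/

set_option autoImplicit false

open scoped Classical
open Finset

namespace Pool.Agent.L0h35.Ng

open H630VC (Prog marked)
open H589DT

/-- **One of the monotone functions separates.** -/
theorem Circuit.exists_guess_ne {n : ℕ} (C : Circuit n) {x y : Fin n → Bool}
    (hxy : ∀ i, x i = true → y i = true) (hne : C.value x ≠ C.value y) :
    ∃ γ : C.Guess, C.Acc γ y ∧ ¬ C.Acc γ x := by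
  by_cases hv : C.value x = false ∧ C.value y = true
  · exact C.exists_guess hxy hv.1 hv.2
  · have hx : C.value x = true := by
      cases h1 : C.value x
      · cases h2 : C.value y
        · exact absurd (h1.trans h2.symm) hne
        · exact absurd ⟨h1, h2⟩ hv
      · rfl
    have hy : C.value y = false := by
      cases h2 : C.value y
      · rfl
      · exact absurd (hx.trans h2.symm) hne
    let c : C.NotGate → Bool := fun k => C.eval x k.1
    have hc : ∀ j, (∃ i, C.gate j = .not i) → C.ext c j = C.eval x j := fun j hj => by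
      unfold Circuit.ext
      rw [dif_pos hj]
    set D : Finset (Fin C.nodes) := univ.filter fun k =>
      (Circuit.Reach C k ∧ ∃ i, C.gate k = .not i) ∧ C.eval x k ≠ C.eval y k with hD
    rcases D.eq_empty_or_nonempty with h0 | hne'
    · exfalso
      have h1 : ∀ j, Circuit.Reach C j → (∃ i, C.gate j = .not i) → C.eval x j = C.eval y j := by
        intro j hjr hj
        by_contra h
        have : j ∈ D := mem_filter.2 ⟨mem_univ _, ⟨hjr, hj⟩, h⟩
        rw [h0] at this
        exact absurd this (notMem_empty _)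
      have h2 := C.evalc_eq (c := C.ext c) (x := x) C.out Circuit.Reach.out
        fun j _ _ hj => hc j hj
      have h3 := C.evalc_eq (c := C.ext c) (x := y) C.out Circuit.Reach.out
        fun j _ hjr hj => by rw [hc j hj, h1 j hjr hj]
      have h4 := C.evalc_mono (c := C.ext c) hxy C.out
      rw [h2, h3] at h4
      have h5 := h4 hx
      change C.value y = true at h5
      rw [hy] at h5
      exact Bool.false_ne_true h5
    · set k := D.min' hne' with hk
      obtain ⟨_, ⟨hkr, hk1⟩, hk2⟩ := mem_filter.1 (D.min'_mem hne')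
      have h1 : ∀ j < k, Circuit.Reach C j → (∃ i, C.gate j = .not i) →
          C.eval x j = C.eval y j := by
        intro j hjk hjr hj
        by_contra h
        have : j ∈ D := mem_filter.2 ⟨mem_univ _, ⟨hjr, hj⟩, h⟩
        exact absurd (D.min'_le j this) (not_le.2 hjk)
      set v := C.up k hk1.choose with hv
      have hvr : Circuit.Reach C v := .step k v hkr (Or.inl ⟨_, hk1.choose_spec, rfl⟩)
      have hvk : v < k := C.up_lt k _
      have e1 : C.evalc (C.ext c) x v = C.eval x v := C.evalc_eq v hvr fun j _ _ hj => hc j hj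
      have e2 : C.evalc (C.ext c) y v = C.eval y v := C.evalc_eq v hvr fun j hj hjr hj' => by
        rw [hc j hj', h1 j (lt_of_le_of_lt hj hvk) hjr hj']
      have e3 : C.eval x v ≠ C.eval y v := by
        intro h
        apply hk2
        rw [C.eval_not hk1.choose_spec, C.eval_not hk1.choose_spec]
        exact congrArg _ h
      have e4 := C.evalc_mono (c := C.ext c) hxy v
      rw [e1, e2] at e4
      refine ⟨(some ⟨k, hk1⟩, c), ⟨hvr, ?_⟩, ?_⟩
      · change C.evalc (C.ext c) y v = true
        rw [e2]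
        by_contra h
        rw [Bool.not_eq_true] at h
        rw [h] at e3 e4
        have h2 : C.eval x v = true := by
          cases hxv : C.eval x v
          · exact absurd hxv e3
          · rfl
        exact Bool.false_ne_true (e4 h2)
      · rintro ⟨-, h⟩
        change C.evalc (C.ext c) x v = true at h
        rw [e1] at h
        exact e3 (h.trans (e4 h).symm)

section chain

variable {X Y S : Type} [Fintype X] [Fintype Y] {b : ℕ} [Nonempty X] [Nonempty Y]

/-- **Chains, with a small advantage.** -/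
theorem chain_eps {Ω : Type} [Fintype Ω] [Nonempty Ω] (posC : X → S) (negC : Y → S) (z : S)
    (δ η : ℝ) (hbδ : b * δ ≤ 1) {Γ : Ω → Type} [∀ o, Fintype (Γ o)] (N : ℕ)
    (hΓ : ∀ o, Fintype.card (Γ o) ≤ N) (g : ∀ o, Γ o → (Fin b → S) → Prop)
    (hmono : ∀ o γ, ∀ t < b, ∀ w x, g o γ (lowA negC z t w) → g o γ (stepA negC z t w (posC x)))
    (hblock : ∀ o γ, ∀ t < b, ∀ w,
      ((univ.filter fun x => g o γ (stepA negC z t w (posC x))).card : ℝ) /
      Fintype.card X ≤ ((univ.filter fun y => g o γ (stepA negC z t w (negC y))).card : ℝ) /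
        Fintype.card Y + δ)
    (hsep : ∀ t < b, ∀ (w : Fin b → Y) (x : X), η * Fintype.card Ω ≤ (univ.filter fun o => ∃ γ,
      g o γ (stepA negC z t w (posC x)) ∧ ¬ g o γ (lowA negC z t w)).card) :
    b * η ≤ 2 * N := by
  have hX0 : (0 : ℝ) < Fintype.card X := by exact_mod_cast Fintype.card_pos
  have hY0 : (0 : ℝ) < Fintype.card Y := by exact_mod_cast Fintype.card_pos
  have hO0 : (0 : ℝ) < Fintype.card Ω := by exact_mod_cast Fintype.card_pos
  have hW : (Fintype.card (Fin b → Y) : ℝ) = (Fintype.card Y : ℝ) ^ b := by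
    rw [Fintype.card_fun, Fintype.card_fin]
    push_cast
    rfl
  -- upper bound
  have h1 : ∑ o, ∑ γ : Γ o, ∑ t ∈ range b, ∑ w : Fin b → Y, ((univ.filter fun x =>
      g o γ (stepA negC z t w (posC x)) ∧ ¬ g o γ (lowA negC z t w)).card : ℝ) ≤
      Fintype.card Ω * (N * (2 * (Fintype.card X * (Fintype.card Y : ℝ) ^ b))) := by
    have h2 : ∀ o (γ : Γ o), ∑ t ∈ range b, ∑ w : Fin b → Y, ((univ.filter fun x =>
        g o γ (stepA negC z t w (posC x)) ∧ ¬ g o γ (lowA negC z t w)).card : ℝ) ≤
        2 * (Fintype.card X * (Fintype.card Y : ℝ) ^ b) := by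
      intro o γ
      refine (chain_one posC negC z (g o γ) δ (hmono o γ) (hblock o γ)).trans ?_
      refine mul_le_mul_of_nonneg_right (by linarith) (by positivity)
    calc _ ≤ ∑ o, ∑ _γ : Γ o, 2 * (Fintype.card X * (Fintype.card Y : ℝ) ^ b) :=
          sum_le_sum fun o _ => sum_le_sum fun γ _ => h2 o γ
      _ ≤ ∑ _o : Ω, N * (2 * (Fintype.card X * (Fintype.card Y : ℝ) ^ b)) := by
          refine sum_le_sum fun o _ => ?_
          rw [sum_const, card_univ, nsmul_eq_mul]
          refine mul_le_mul_of_nonneg_right ?_ (by positivity)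
          exact_mod_cast hΓ o
      _ = _ := by rw [sum_const, card_univ, nsmul_eq_mul]
  -- lower bound
  have h3 : (b : ℝ) * (Fintype.card X * (Fintype.card Y : ℝ) ^ b) * (η * Fintype.card Ω) ≤
      ∑ o, ∑ γ : Γ o, ∑ t ∈ range b, ∑ w : Fin b → Y, ((univ.filter fun x =>
      g o γ (stepA negC z t w (posC x)) ∧ ¬ g o γ (lowA negC z t w)).card : ℝ) := by
    have h4 : ∀ o, ∑ t ∈ range b, ∑ w : Fin b → Y, ((univ.filter fun x => ∃ γ,
        g o γ (stepA negC z t w (posC x)) ∧ ¬ g o γ (lowA negC z t w)).card : ℝ) ≤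
        ∑ γ : Γ o, ∑ t ∈ range b, ∑ w : Fin b → Y, ((univ.filter fun x =>
          g o γ (stepA negC z t w (posC x)) ∧ ¬ g o γ (lowA negC z t w)).card : ℝ) := by
      intro o
      have hcomm : ∑ γ : Γ o, ∑ t ∈ range b, ∑ w : Fin b → Y, ((univ.filter fun x =>
          g o γ (stepA negC z t w (posC x)) ∧ ¬ g o γ (lowA negC z t w)).card : ℝ) =
          ∑ t ∈ range b, ∑ w : Fin b → Y, ∑ γ : Γ o, ((univ.filter fun x =>
          g o γ (stepA negC z t w (posC x)) ∧ ¬ g o γ (lowA negC z t w)).card : ℝ) := by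
        rw [sum_comm]
        refine sum_congr rfl fun t _ => ?_
        rw [sum_comm]
      rw [hcomm]
      refine sum_le_sum fun t _ => ?_
      refine sum_le_sum fun w _ => ?_
      have h5 : (univ.filter fun x => ∃ γ, g o γ (stepA negC z t w (posC x)) ∧
          ¬ g o γ (lowA negC z t w)) ⊆ (univ : Finset (Γ o)).biUnion fun γ =>
            univ.filter fun x => g o γ (stepA negC z t w (posC x)) ∧
              ¬ g o γ (lowA negC z t w) := by
        intro x hx
        obtain ⟨γ, hγ⟩ := (mem_filter.1 hx).2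
        exact mem_biUnion.2 ⟨γ, mem_univ _, mem_filter.2 ⟨mem_univ _, hγ⟩⟩
      exact_mod_cast (card_le_card h5).trans card_biUnion_le
    have h6 : ∑ o, ∑ t ∈ range b, ∑ w : Fin b → Y, ((univ.filter fun x => ∃ γ,
        g o γ (stepA negC z t w (posC x)) ∧ ¬ g o γ (lowA negC z t w)).card : ℝ) =
        ∑ t ∈ range b, ∑ w : Fin b → Y, ∑ x : X, ((univ.filter fun o => ∃ γ,
        g o γ (stepA negC z t w (posC x)) ∧ ¬ g o γ (lowA negC z t w)).card : ℝ) := by
      rw [sum_comm]
      refine sum_congr rfl fun t _ => ?_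
      rw [sum_comm]
      refine sum_congr rfl fun w _ => ?_
      simp only [← Finset.sum_boole]
      rw [sum_comm]
    have h7 : (b : ℝ) * (Fintype.card X * (Fintype.card Y : ℝ) ^ b) * (η * Fintype.card Ω) ≤
        ∑ t ∈ range b, ∑ w : Fin b → Y, ∑ x : X, ((univ.filter fun o => ∃ γ,
        g o γ (stepA negC z t w (posC x)) ∧ ¬ g o γ (lowA negC z t w)).card : ℝ) := by
      have h8 : ∑ _t ∈ range b, ∑ _w : Fin b → Y, ∑ _x : X, (η * Fintype.card Ω : ℝ) =
          (b : ℝ) * (Fintype.card X * (Fintype.card Y : ℝ) ^ b) * (η * Fintype.card Ω) := by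
        rw [sum_const, card_range, sum_const, card_univ, sum_const, card_univ]
        simp only [nsmul_eq_mul]
        rw [hW]
        ring
      rw [← h8]
      refine sum_le_sum fun t ht => ?_
      refine sum_le_sum fun w _ => ?_
      refine sum_le_sum fun x _ => ?_
      exact hsep t (mem_range.1 ht) w x
    calc _ ≤ _ := h7
      _ = ∑ o, ∑ t ∈ range b, ∑ w : Fin b → Y, ((univ.filter fun x => ∃ γ,
        g o γ (stepA negC z t w (posC x)) ∧ ¬ g o γ (lowA negC z t w)).card : ℝ) := by rw [h6]
      _ ≤ _ := sum_le_sum fun o _ => h4 o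
  have hpos : (0 : ℝ) < (Fintype.card X * (Fintype.card Y : ℝ) ^ b) * Fintype.card Ω := by
    positivity
  have h9 : (b * η : ℝ) * ((Fintype.card X * (Fintype.card Y : ℝ) ^ b) * Fintype.card Ω) ≤
      (2 * N) * ((Fintype.card X * (Fintype.card Y : ℝ) ^ b) * Fintype.card Ω) := by
    have h11 := h3.trans h1
    calc (b * η : ℝ) * ((Fintype.card X * (Fintype.card Y : ℝ) ^ b) * Fintype.card Ω) =
        (b : ℝ) * (Fintype.card X * (Fintype.card Y : ℝ) ^ b) * (η * Fintype.card Ω) := by ring
      _ ≤ _ := h11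
      _ = _ := by ring
  exact le_of_mul_le_mul_right h9 hpos

end chain

section

variable {U E Λ A : Type} [Fintype U] [Fintype E] [Fintype Λ] [Fintype A] {n b : ℕ}

/-- **Blocks and functions of circuits with few NOT gates.** -/
theorem gen_eps [Nonempty A] (G : CGraph U E Λ) {L M Q r S K : ℕ} (F : Local U Λ (2 * L))
    (hF : ∀ T ρ, F.C T ρ → G.SatOn T ρ) (hL : 1 ≤ L) (hM : 1 ≤ M) (hQ : 1 ≤ Q)
    (hA : 8 * ((8 * L + 1) * Q) ≤ Fintype.card A)
    (h1 : 8 * (Fintype.card U * Fintype.card A * Fintype.card Λ ^ 2 * M ^ 2) ≤ Q ^ 2)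
    (h2 : 8 * (2 * L * Fintype.card Λ * M) ≤ Q)
    (enc : (Fin b → Finset (E × A × A)) → Fin n → Bool)
    (hmono : ∀ c c', (∀ t, c t ⊆ c' t) → ∀ i, enc c i = true → enc c' i = true)
    (hhost : ∀ (Y : Type) (negC : Y → Finset (E × A × A)), ∀ t < b, ∀ w : Fin b → Y,
      HostInputs (fun H => enc (stepA negC ∅ t w H)) (Circuit.inpB n))
    (D : (Fin n → Bool) → Prop)
    (hin : ∀ (c : Fin b → Finset (E × A × A)) (t : Fin b) (x : U → A), hx G x ⊆ c t → D (enc c))
    (hout : ∀ (c : Fin b → Finset (E × A × A)) (T : Fin b → Finset ((U × A) × Λ)),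
      (∀ t, NoConflict (T t)) → (∀ t, c t ⊆ hT G (T t)) → ¬ D (enc c))
    (hδ : (b : ℝ) * (S * (1 / 8 ^ L +
      2 * ((Fintype.card U * Fintype.card A * Fintype.card Λ + 1 : ℕ) : ℝ) ^ (2 * L) / 2 ^ M)) ≤ 1)
    {Ω : Type} [Fintype Ω] [Nonempty Ω] (h : Ω → (Fin K → Bool) → Bool)
    (C : Ω → Fin K → Circuit n) (hr : ∀ o i, (C o i).nots ≤ r)
    (hC : ∀ o i, (C o i).size + n + 2 ≤ S ∨ 2 ^ ((C o i).depth + 1) ≤ S) (ε : ℝ)
    (hright : ∀ c : Fin b → Finset (E × A × A), (1 / 2 + ε) * Fintype.card Ω ≤
      (univ.filter fun o => h o (fun i => (C o i).value (enc c)) = true ↔ D (enc c)).card) :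
    b * ε ≤ K * ((r + 1) * 2 ^ r) := by
  have hne : (NCset (U × A) Λ M Q).Nonempty := nc_nonempty hQ (by
    rw [Fintype.card_prod]
    exact h1)
  let Y : Type := {y // y ∈ NCset (U × A) Λ M Q}
  have : Nonempty Y := hne.to_subtype
  let negC : Y → Finset (E × A × A) := fun y => hT G (marked y.1)
  let posC : (U → A) → Finset (E × A × A) := fun x => hx G x
  have hmn : ∀ (t : ℕ) (w : Fin b → Y) (c : Finset (E × A × A)) (l : Fin b),
      lowA negC ∅ t w l ⊆ stepA negC ∅ t w c l := by
    intro t w c l
    unfold lowA stepA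
    split_ifs
    · exact Subset.rfl
    · exact empty_subset _
    · exact empty_subset _
  have key := chain_eps (X := U → A) (Y := Y)
    (S := Finset (E × A × A)) (b := b) (Ω := Ω) posC negC ∅
    (S * (1 / 8 ^ L + 2 * ((Fintype.card U * Fintype.card A * Fintype.card Λ + 1 : ℕ) : ℝ) ^
      (2 * L) / 2 ^ M)) (2 * ε) hδ
    (Γ := fun o => (i : Fin K) × (C o i).Guess) (K * ((r + 1) * 2 ^ r)) ?_
    (fun o γ c => (C o γ.1).Acc γ.2 (enc c)) ?_ ?_ ?_
  · push_cast at key
    linarith
  · intro o
    rw [Fintype.card_sigma]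
    calc ∑ i : Fin K, Fintype.card (C o i).Guess ≤ ∑ _i : Fin K, (r + 1) * 2 ^ r := by
          refine sum_le_sum fun i _ => ?_
          rw [(C o i).card_guess]
          exact Nat.mul_le_mul (Nat.succ_le_succ (hr o i))
            (Nat.pow_le_pow_right (by norm_num) (hr o i))
      _ = K * ((r + 1) * 2 ^ r) := by rw [sum_const, card_univ, Fintype.card_fin, smul_eq_mul]
  · intro o γ t ht w x h
    exact (C o γ.1).acc_mono γ.2 (hmono _ _ (hmn t w _)) h
  · intro o γ t ht w
    obtain ⟨l, hl, hlen, f, hf, hacc⟩ := (C o γ.1).prog_guess γ.2 S (hC o γ.1)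
    have key := host G L M Q F hF hL hM hQ hA h1 h2 (Fin n → Bool)
      (fun H => enc (stepA negC ∅ t w H)) (Circuit.inpB n) (hhost Y negC t ht w) l hl
      f hf 1
    simp only [hacc] at key
    have e1 : ((univ.filter fun y : Y => (C o γ.1).Acc γ.2 (enc
        (stepA negC ∅ t w (negC y)))).card : ℝ) / Fintype.card Y =
        (((NCset (U × A) Λ M Q).filter fun ω =>
          (C o γ.1).Acc γ.2 (enc (stepA negC ∅ t w (hT G (marked ω))))).card : ℝ) /
        (NCset (U × A) Λ M Q).card := by
      rw [← card_sub (NCset (U × A) Λ M Q)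
        (fun ω => (C o γ.1).Acc γ.2 (enc (stepA negC ∅ t w (hT G (marked ω)))))]
      congr 2
      exact Fintype.card_coe _
    rw [e1]
    refine frac_conv _ _ _ _ _ _ (key.trans (add_le_add le_rfl ?_))
    refine mul_le_mul_of_nonneg_right (by exact_mod_cast hlen) (by positivity)
  · intro t ht w x
    set yp := enc (stepA negC ∅ t w (posC x)) with hyp
    set yl := enc (lowA negC ∅ t w) with hyl
    have hin' : D yp := by
      refine hin _ ⟨t, ht⟩ x ?_
      unfold stepA
      rw [if_neg (lt_irrefl _), if_pos rfl]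
    have hout' : ¬ D yl := by
      refine hout _ (fun l => if l.1 < t then marked (w l).1 else ∅) ?_ ?_
      · intro l
        split_ifs
        · have := (w l).2
          unfold NCset at this
          exact (mem_filter.1 this).2
        · intro p σ τ h
          simp at h
      · intro l
        unfold lowA
        split_ifs
        · exact Subset.rfl
        · exact empty_subset _
    have r1 := hright (stepA negC ∅ t w (posC x))
    have r2 := hright (lowA negC ∅ t w)
    rw [← hyp] at r1
    rw [← hyl] at r2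
    have hsub : (univ.filter fun o => h o (fun i => (C o i).value yp) = true ↔ D yp) ∩
        (univ.filter fun o => h o (fun i => (C o i).value yl) = true ↔ D yl) ⊆
        univ.filter fun o => ∃ γ : (i : Fin K) × (C o i).Guess,
          (C o γ.1).Acc γ.2 yp ∧ ¬ (C o γ.1).Acc γ.2 yl := by
      intro o ho
      obtain ⟨h3, h4⟩ := mem_inter.1 ho
      have h5 : h o (fun i => (C o i).value yp) = true := (mem_filter.1 h3).2.2 hin'
      have h6 : ¬ h o (fun i => (C o i).value yl) = true := fun h' =>
        hout' ((mem_filter.1 h4).2.1 h')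
      have h7 : ∃ i, (C o i).value yl ≠ (C o i).value yp := by
        by_contra hcon
        push Not at hcon
        apply h6
        rw [← h5]
        exact congrArg _ (funext hcon)
      obtain ⟨i, hi⟩ := h7
      obtain ⟨γ, hγ⟩ := (C o i).exists_guess_ne
        (fun i hi => hmono _ _ (hmn t w _) i hi) hi
      exact mem_filter.2 ⟨mem_univ _, ⟨i, γ⟩, hγ⟩
    have h5 := card_le_card hsub
    have h6 := card_union_add_card_inter
      (univ.filter fun o => h o (fun i => (C o i).value yp) = true ↔ D yp)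
      (univ.filter fun o => h o (fun i => (C o i).value yl) = true ↔ D yl)
    have h7 := card_le_univ ((univ.filter fun o =>
      h o (fun i => (C o i).value yp) = true ↔ D yp) ∪
      (univ.filter fun o => h o (fun i => (C o i).value yl) = true ↔ D yl))
    have h8 : ((univ.filter fun o => h o (fun i => (C o i).value yp) = true ↔ D yp).card : ℝ) +
        (univ.filter fun o => h o (fun i => (C o i).value yl) = true ↔ D yl).card ≤
        Fintype.card Ω + ((univ.filter fun o =>
          h o (fun i => (C o i).value yp) = true ↔ D yp) ∩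
        (univ.filter fun o => h o (fun i => (C o i).value yl) = true ↔ D yl)).card := by
      exact_mod_cast (by omega)
    have h9 : ((((univ.filter fun o => h o (fun i => (C o i).value yp) = true ↔ D yp) ∩
        (univ.filter fun o => h o (fun i => (C o i).value yl) = true ↔ D yl)).card : ℕ) : ℝ) ≤
        ((univ.filter fun o => ∃ γ : (i : Fin K) × (C o i).Guess,
          (C o γ.1).Acc γ.2 yp ∧ ¬ (C o γ.1).Acc γ.2 yl).card : ℕ) := by
      exact_mod_cast h5
    linarith

end

end Pool.Agent.L0h35.Ng
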