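import Pool.Agent.L0h35.NgLang

/-!
# The language with padding
-/

set_option autoImplicit false

namespace Pool.Agent.NPC.L0h35Ng

open Pool.Agent.H334R5.Lin

/-- the language: the system of the equations that are present in the first half of the string has
no solution -/
def PadL : Set (List Bool) :=
  {x | ¬ ∃ σ : Lab → ZMod 17, ∀ i, 2 * i < x.length → x.getD i false = true → SatEq σ x.length i}

/-- the rows of the system -/
def rowsP (x : List Bool) : List (List (Lab × ℕ)) :=
  ((List.range x.length).filter
    (fun i => x.getD i false && decide (2 * i < x.length))).map (fun i => row x.length i)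

/-- The algorithm. -/
def algP (x : List Bool) : Bool := ruleB 17 feat ((rowsP x).map (fun r => bits r)) (bits one)

theorem poly_rowsP : Poly rowsP := by
  unfold rowsP
  have h1 : Poly (fun x : List Bool => List.range x.length) := Poly.range_length Poly.id
  have h2 : Poly (fun x : List Bool => (List.range x.length).filter
      (fun i => x.getD i false && decide (2 * i < x.length))) := by
    fun_prop
  refine Poly.map (α := List Bool) (β := ℕ) (γ := List (Lab × ℕ))
    (F := fun x i => row x.length i) h2 ?_
  exact poly_row (Poly.length (Poly.fst Poly.id)) (Poly.snd Poly.id)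

theorem poly_algP : Poly algP := by
  unfold algP
  have h1 : Poly (fun x : List Bool => (rowsP x).map (fun r => bits r)) :=
    Poly.map (α := List Bool) (β := List (Lab × ℕ)) (γ := List Bool)
      (F := fun _ r => bits r) poly_rowsP (poly_bitsOf.comp (Poly.snd Poly.id))
  have h2 := poly_ruleB (p := 17) (by norm_num) poly_feat
  exact Poly.comp (g := fun t : List (List Bool) × List Bool => ruleB 17 feat t.1 t.2)
    (f := fun x : List Bool => ((rowsP x).map (fun r => bits r), bits one)) h2
    (Poly.pair h1 (Poly.const _))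

/-- systems of rows -/
theorem span_iff (R : List (List (Lab × ℕ))) (n : ℕ) (P : ℕ → Prop)
    (hR : ∀ r, r ∈ R ↔ ∃ i, P i ∧ r = row n i) :
    vec 17 one ∈ Submodule.span (ZMod 17) ((fun r => vec 17 r) '' {r | r ∈ R}) ↔
      ¬ ∃ σ : Lab → ZMod 17, ∀ i, P i → SatEq σ n i := by
  have : Fact (Nat.Prime 17) := ⟨by norm_num⟩
  constructor
  · rintro hmem ⟨σ, hσ⟩
    let σ' : Lab → ZMod 17 := Function.update σ (3, (0, (0, 0))) 1
    have h0 : σ' (3, (0, (0, 0))) = 1 := Function.update_self ..
    have hle : Submodule.span (ZMod 17) ((fun r => vec 17 r) '' {r | r ∈ R}) ≤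
        LinearMap.ker (lin σ') := by
      rw [Submodule.span_le]
      rintro _ ⟨r, hr, rfl⟩
      obtain ⟨i, hi, rfl⟩ := (hR r).1 hr
      rw [SetLike.mem_coe, LinearMap.mem_ker]
      dsimp only
      rw [lin_row h0]
      have h1 := hσ i hi
      unfold SatEq at h1 ⊢
      have e0 : ∀ q, σ' (0, q) = σ (0, q) := fun q => Function.update_of_ne (by simp) _ _
      have e1 : ∀ q, σ' (1, q) = σ (1, q) := fun q => Function.update_of_ne (by simp) _ _
      have e2 : ∀ q, σ' (2, q) = σ (2, q) := fun q => Function.update_of_ne (by simp) _ _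
      rw [e0, e1, e2]
      exact h1
    have h1 := hle hmem
    rw [LinearMap.mem_ker, lin_vec] at h1
    unfold one at h1
    simp only [List.map_cons, List.map_nil, List.sum_cons, List.sum_nil, Nat.cast_one, one_mul,
      add_zero, h0] at h1
    exact one_ne_zero h1
  · intro h
    by_contra hnot
    apply h
    obtain ⟨f, hf, hf'⟩ := Submodule.exists_le_ker_of_notMem hnot
    set c : ZMod 17 := f (vec 17 one) with hc
    obtain ⟨σ, hσ⟩ : ∃ σ, c⁻¹ • f = lin σ := by
      refine ⟨fun u => (c⁻¹ • f) (Finsupp.single u 1), ?_⟩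
      apply Finsupp.lhom_ext
      intro u d
      unfold lin
      rw [Finsupp.linearCombination_single, smul_eq_mul]
      have : Finsupp.single u d = d • Finsupp.single u (1 : ZMod 17) := by
        rw [Finsupp.smul_single, smul_eq_mul, mul_one]
      rw [this, map_smul, smul_eq_mul]
    have h0 : σ (3, (0, (0, 0))) = 1 := by
      have h1 : lin σ (vec 17 one) = 1 := by
        rw [← hσ, LinearMap.smul_apply, ← hc, smul_eq_mul, inv_mul_cancel₀ hf]
      rw [lin_vec] at h1
      unfold one at h1
      simpa using h1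
    refine ⟨σ, fun i hi => ?_⟩
    rw [← lin_row h0, ← hσ, LinearMap.smul_apply]
    have hmem : row n i ∈ R := (hR _).2 ⟨i, hi, rfl⟩
    have h2 := hf' (Submodule.subset_span ⟨_, hmem, rfl⟩)
    rw [LinearMap.mem_ker] at h2
    dsimp only at h2
    rw [h2, smul_zero]

theorem algP_iff (x : List Bool) : algP x = true ↔ x ∈ PadL := by
  have : Fact (Nat.Prime 17) := ⟨by norm_num⟩
  have hspan : algP x = true ↔ vec 17 one ∈ Submodule.span (ZMod 17)
      ((fun r => vec 17 r) '' {r | r ∈ rowsP x}) := by
    unfold algP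
    rw [ruleB_iff, feat_bits]
    have : ((fun y => vec 17 (feat y)) '' {y | y ∈ (rowsP x).map (fun r => bits r)}) =
        ((fun r => vec 17 r) '' {r | r ∈ rowsP x}) := by
      ext w
      simp only [Set.mem_image, Set.mem_ofPred_eq, List.mem_map]
      constructor
      · rintro ⟨_, ⟨r, hr, rfl⟩, rfl⟩
        exact ⟨r, hr, by rw [feat_bits]⟩
      · rintro ⟨r, hr, rfl⟩
        exact ⟨_, ⟨r, hr, rfl⟩, by rw [feat_bits]⟩
    rw [this]
  rw [hspan, span_iff (rowsP x) x.length (fun i => 2 * i < x.length ∧ x.getD i false = true)]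
  · unfold PadL
    rw [Set.mem_ofPred_eq]
    refine not_congr (exists_congr fun σ => forall_congr' fun i => ?_)
    constructor
    · exact fun h h1 h2 => h ⟨h1, h2⟩
    · exact fun h h1 => h h1.1 h1.2
  · intro r
    unfold rowsP
    simp only [List.mem_map, List.mem_filter, List.mem_range, Bool.and_eq_true, decide_eq_true_eq]
    constructor
    · rintro ⟨i, ⟨_, h2, h3⟩, rfl⟩
      exact ⟨i, ⟨h3, h2⟩, rfl⟩
    · rintro ⟨i, ⟨h3, h2⟩, rfl⟩
      exact ⟨i, ⟨by omega, h2, h3⟩, rfl⟩

theorem pad_inP : InP PadL :=
  ⟨fun x => [algP x], polyTime_of_poly poly_algP, fun x => by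
    rw [← algP_iff]
    simp⟩

/-- the language is monotone -/
theorem pad_mono {x y : List Bool} (hlen : x.length = y.length)
    (h : ∀ i, x.getD i false = true → y.getD i false = true) (hx : x ∈ PadL) : y ∈ PadL := by
  rintro ⟨σ, hσ⟩
  exact hx ⟨σ, fun i hi hi2 => hlen ▸ hσ i (hlen ▸ hi) (h i hi2)⟩

/-- the language at length `n` -/
theorem ofFn_mem_pad {n : ℕ} (x : Fin n → Bool) : List.ofFn x ∈ PadL ↔
    ¬ ∃ σ : Lab → ZMod 17, ∀ i : Fin n, 2 * i.1 < n → x i = true → SatEq σ n i := by
  unfold PadL
  rw [Set.mem_ofPred_eq, List.length_ofFn]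
  refine not_congr (exists_congr fun σ => ?_)
  constructor
  · intro h i hi hx
    refine h i.1 hi ?_
    rw [List.getD_eq_getElem?_getD, List.getElem?_ofFn]
    simp [hx]
  · intro h i hi hx
    have hin : i < n := by omega
    refine h ⟨i, hin⟩ hi ?_
    rw [List.getD_eq_getElem?_getD, List.getElem?_ofFn] at hx
    simpa [hin] using hx

end Pool.Agent.NPC.L0h35Ng
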