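import Pool.Agent.L0h35.NgBlock
import Pool.Agent.L0h35.NhGen
import Pool.Agent.L0h35.NhLang

/-!
# Blocks and padding
-/

set_option autoImplicit false

open scoped Classical
open Finset

namespace Pool.Agent.NPC.L0h35Ng

open H630VC (Prog marked)
open H589DT
open Pool.Agent.L0h35.Ng

theorem code_lt_P {n j t W U i s b : ℕ} (hj : j < n.size + 1) (hW : W < 2 ^ j) (hU : U < 2 ^ j)
    (hi : i < 17) (hs : s < 17) (ht : t < b) :
    code n j t W U i s < b * (2 ^ j) ^ 2 * 289 * (n.size + 1) := by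
  unfold code
  have h1 := dm_lt ht hW
  have h2 := dm_lt h1 hU
  have h3 := dm_lt h2 hi
  have h4 := dm_lt h3 hs
  have h5 := dm_lt h4 hj
  refine lt_of_lt_of_le h5 (le_of_eq ?_)
  ring

section blk

variable {nn a b n j k : ℕ} {φ : Fin nn → Fin 17 → Fin nn} {B : Finset (Fin nn)}
  {s : Fin nn → Fin 17 → ZMod 17}

theorem posn_lt_P (hj : j < n.size + 1) (hm : nn * a ≤ 2 ^ j) {t : ℕ} (ht : t < b)
    (c : EE 17 B × Fin a × Fin a) :
    posn φ B s n j t c < b * (2 ^ j) ^ 2 * 289 * (n.size + 1) :=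
  code_lt_P hj (idx_lt hm _ _) (idx_lt hm _ _) c.1.1.2.2 (ZMod.val_lt _) ht

variable (a b n j k φ B s) in
/-- the instance with the given blocks and `k` ones in the second half -/
noncomputable def encP (c : Fin b → Finset (EE 17 B × Fin a × Fin a)) : Fin n → Bool :=
  fun i => enc a b n j φ B s c i || decide ((n + 1) / 2 ≤ i.1 ∧ i.1 < (n + 1) / 2 + k)

theorem encP_true {c : Fin b → Finset (EE 17 B × Fin a × Fin a)} {i : Fin n} :
    encP a b n j k φ B s c i = true ↔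
      enc a b n j φ B s c i = true ∨ ((n + 1) / 2 ≤ i.1 ∧ i.1 < (n + 1) / 2 + k) := by
  unfold encP
  rw [Bool.or_eq_true, decide_eq_true_iff]

theorem encP_mono {c c' : Fin b → Finset (EE 17 B × Fin a × Fin a)} (h : ∀ t, c t ⊆ c' t)
    (i : Fin n) (hi : encP a b n j k φ B s c i = true) : encP a b n j k φ B s c' i = true := by
  rw [encP_true] at hi ⊢
  exact hi.imp (enc_mono h i) id

theorem encP_host {Y : Type} (hj : j < n.size + 1) (hm : nn * a ≤ 2 ^ j)
    (negC : Y → Finset (EE 17 B × Fin a × Fin a)) {t : ℕ} (ht : t < b) (w : Fin b → Y) :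
    HostInputs (fun H => encP a b n j k φ B s (stepA negC ∅ t w H)) (Circuit.inpB n) := by
  rintro g (⟨i, rfl⟩ | ⟨v, rfl⟩)
  · by_cases hp : (n + 1) / 2 ≤ i.1 ∧ i.1 < (n + 1) / 2 + k
    · exact Or.inl ⟨1, fun H => if_pos (encP_true.2 (Or.inr hp))⟩
    · have h1 : ∀ H, (encP a b n j k φ B s (stepA negC ∅ t w H) i = true) =
          (enc a b n j φ B s (stepA negC ∅ t w H) i = true) := by
        intro H
        rw [encP_true]
        exact propext ⟨fun h => h.resolve_right hp, Or.inl⟩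
      have h2 := enc_host (φ := φ) (B := B) (s := s) (n := n) hj hm negC ht w
        (fun x => if x i = true then 1 else 0) (Or.inl ⟨i, rfl⟩)
      simp only [h1]
      exact h2
  · exact Or.inl ⟨v, fun _ => rfl⟩

theorem encP_weight (hj : j < n.size + 1) (hm : nn * a ≤ 2 ^ j) (hk : 2 * k ≤ n)
    (c : Fin b → Finset (EE 17 B × Fin a × Fin a)) :
    k ≤ (univ.filter fun i => encP a b n j k φ B s c i = true).card ∧
      (univ.filter fun i => encP a b n j k φ B s c i = true).card ≤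
        k + b * (2 ^ j) ^ 2 * 289 * (n.size + 1) := by
  set P := b * (2 ^ j) ^ 2 * 289 * (n.size + 1) with hP
  have hpad : (univ.filter fun i : Fin n => (n + 1) / 2 ≤ i.1 ∧ i.1 < (n + 1) / 2 + k).card = k := by
    rw [← card_image_of_injective _ Fin.val_injective]
    have : (univ.filter fun i : Fin n => (n + 1) / 2 ≤ i.1 ∧ i.1 < (n + 1) / 2 + k).image Fin.val =
        Ico ((n + 1) / 2) ((n + 1) / 2 + k) := by
      ext i
      simp only [mem_image, mem_filter, mem_univ, true_and, mem_Ico]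
      constructor
      · rintro ⟨i, h, rfl⟩
        exact h
      · intro h
        exact ⟨⟨i, by omega⟩, h, rfl⟩
    rw [this, Nat.card_Ico]
    omega
  have hlow : (univ.filter fun i : Fin n => i.1 < P).card ≤ P := by
    rw [← card_image_of_injective _ Fin.val_injective]
    calc _ ≤ (range P).card := by
          refine card_le_card ?_
          intro i hi
          obtain ⟨i', h1, rfl⟩ := mem_image.1 hi
          exact mem_range.2 (mem_filter.1 h1).2
      _ = P := card_range P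
  constructor
  · refine le_trans hpad.ge (card_le_card fun i hi =>
      mem_filter.2 ⟨mem_univ _, encP_true.2 (Or.inr (mem_filter.1 hi).2)⟩)
  · have hsub : (univ.filter fun i => encP a b n j k φ B s c i = true) ⊆
        (univ.filter fun i : Fin n => (n + 1) / 2 ≤ i.1 ∧ i.1 < (n + 1) / 2 + k) ∪
          (univ.filter fun i : Fin n => i.1 < P) := by
      intro i hi
      rcases encP_true.1 (mem_filter.1 hi).2 with h | h
      · refine mem_union_right _ (mem_filter.2 ⟨mem_univ _, ?_⟩)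
        unfold enc at h
        rw [decide_eq_true_iff] at h
        obtain ⟨t, q, _, hq⟩ := h
        rw [← hq]
        exact posn_lt_P hj hm t.2 q
      · exact mem_union_left _ (mem_filter.2 ⟨mem_univ _, h⟩)
    refine (card_le_card hsub).trans ((card_union_le _ _).trans ?_)
    rw [hpad]
    omega

/-- an instance with an unsatisfiable block is in the language -/
theorem encP_unsolv (hj : j < n.size + 1) (hm : nn * a ≤ 2 ^ j)
    (hn : 2 * (b * (2 ^ j) ^ 2 * 289 * (n.size + 1)) ≤ n)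
    (hs : ∀ (x : Fin nn → ZMod 17 × Fin 17) (y : Fin nn → ZMod 17), ∃ e : Fin nn × Fin 17,
      e.1 ∉ B ∧ (x e.1).1 - ((e.2 : ℕ) : ZMod 17) * (((x e.1).2 : ℕ) : ZMod 17) + s e.1 e.2
        ≠ y (φ e.1 e.2))
    (c : Fin b → Finset (EE 17 B × Fin a × Fin a)) (t : Fin b) (x : Fin nn ⊕ Fin nn → Fin a)
    (hc : hx (gameGraph (d := 17) φ B s) x ⊆ c t) :
    List.ofFn (encP a b n j k φ B s c) ∈ PadL := by
  rw [ofFn_mem_pad]
  rintro ⟨σ, hσ⟩
  obtain ⟨⟨w, i⟩, hw, hne⟩ := hs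
    (fun w => (σ (0, (2 ^ j, (t.1, w.1 * a + (x (Sum.inr w)).1))),
      ⟨(σ (1, (2 ^ j, (t.1, w.1 * a + (x (Sum.inr w)).1)))).val, ZMod.val_lt _⟩))
    (fun v => σ (2, (2 ^ j, (t.1, v.1 * a + (x (Sum.inl v)).1))))
  apply hne
  let q : EE 17 B × Fin a × Fin a := (⟨(w, i), hw⟩, x (Sum.inl (φ w i)), x (Sum.inr w))
  have hq : q ∈ c t := hc (mem_hx.2 ⟨rfl, rfl⟩)
  have hn' : b * (2 ^ j) ^ 2 * 289 * (n.size + 1) ≤ n := by omega
  have hP := posn_lt_P (φ := φ) (s := s) hj hm t.2 q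
  have h1 := hσ ⟨posn φ B s n j t.1 q, posn_lt hj hm hn' t.2 q⟩ (by simp only; omega)
    (encP_true.2 (Or.inl ((enc_posn hj hm hn' c t q).2 hq)))
  have h2 := (satEq_code hj (idx_lt hm _ _) (idx_lt hm _ _) q.1.1.2.2 (ZMod.val_lt _) σ).1 h1
  simp only [q] at h2
  rw [ZMod.natCast_zmod_val] at h2
  dsimp only
  rw [ZMod.natCast_zmod_val]
  exact h2

/-- an instance all whose blocks are satisfied by systems without conflicts is not in the
language -/
theorem encP_solv (hj : j < n.size + 1) (hm : nn * a ≤ 2 ^ j)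
    (c : Fin b → Finset (EE 17 B × Fin a × Fin a))
    (T : Fin b → Finset (((Fin nn ⊕ Fin nn) × Fin a) × (ZMod 17 × Fin 17)))
    (hT0 : ∀ t, NoConflict (T t)) (hc : ∀ t, c t ⊆ hT (gameGraph (d := 17) φ B s) (T t)) :
    List.ofFn (encP a b n j k φ B s c) ∉ PadL := by
  have h := enc_solv (n := n) hj hm c T hT0 hc
  rw [ofFn_mem, not_not] at h
  rw [ofFn_mem_pad, not_not]
  obtain ⟨σ, hσ⟩ := h
  refine ⟨σ, fun i hi hx => hσ i ?_⟩
  rcases encP_true.1 hx with h | h
  · exact h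
  · omega

/-- **Blocks and functions of circuits with few NOT gates.** -/
theorem block_eps (ha : 1 ≤ a) {L M Q r S K : ℕ}
    (F : Local (Fin nn ⊕ Fin nn) (ZMod 17 × Fin 17) (2 * L))
    (hF : ∀ T ρ, F.C T ρ → (gameGraph (d := 17) φ B s).SatOn T ρ)
    (hj : j < n.size + 1) (hm : nn * a ≤ 2 ^ j)
    (hn : 2 * (b * (2 ^ j) ^ 2 * 289 * (n.size + 1)) ≤ n) (hL : 1 ≤ L) (hM : 1 ≤ M) (hQ : 1 ≤ Q)
    (hA : 8 * ((8 * L + 1) * Q) ≤ a) (h1 : 8 * (2 * nn * a * 289 ^ 2 * M ^ 2) ≤ Q ^ 2)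
    (h2 : 8 * (2 * L * 289 * M) ≤ Q)
    (hs : ∀ (x : Fin nn → ZMod 17 × Fin 17) (y : Fin nn → ZMod 17), ∃ e : Fin nn × Fin 17,
      e.1 ∉ B ∧ (x e.1).1 - ((e.2 : ℕ) : ZMod 17) * (((x e.1).2 : ℕ) : ZMod 17) + s e.1 e.2
        ≠ y (φ e.1 e.2))
    (hδ : (b : ℝ) * (S * (1 / 8 ^ L +
      2 * ((2 * nn * a * 289 + 1 : ℕ) : ℝ) ^ (2 * L) / 2 ^ M)) ≤ 1) {W : ℕ} (hk : 2 * k ≤ n)
    (hW : b * (2 ^ j) ^ 2 * 289 * (n.size + 1) ≤ W)
    {Ω : Type} [Fintype Ω] [Nonempty Ω] (h : Ω → (Fin K → Bool) → Bool)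
    (C : Ω → Fin K → Circuit n) (hr : ∀ o i, (C o i).nots ≤ r)
    (hC : ∀ o i, (C o i).size + n + 2 ≤ S ∨ 2 ^ ((C o i).depth + 1) ≤ S) (ε : ℝ)
    (hright : ∀ x : Fin n → Bool, k ≤ (univ.filter fun i => x i = true).card →
      (univ.filter fun i => x i = true).card ≤ k + W → (1 / 2 + ε) * Fintype.card Ω ≤
      (univ.filter fun o => h o (fun i => (C o i).value x) = true ↔ List.ofFn x ∈ PadL).card) :
    b * ε ≤ K * ((r + 1) * 2 ^ r) := by
  have hcU : Fintype.card (Fin nn ⊕ Fin nn) = 2 * nn := by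
    rw [Fintype.card_sum, Fintype.card_fin]
    ring
  have hcL : Fintype.card (ZMod 17 × Fin 17) = 289 := by
    rw [Fintype.card_prod, ZMod.card, Fintype.card_fin]
  have hcA : Fintype.card (Fin a) = a := Fintype.card_fin a
  have hAne : Nonempty (Fin a) := ⟨⟨0, ha⟩⟩
  refine gen_eps (U := Fin nn ⊕ Fin nn) (Λ := ZMod 17 × Fin 17) (A := Fin a)
    (gameGraph (d := 17) φ B s) F hF hL hM hQ (by rw [hcA]; exact hA)
    (by rw [hcU, hcL, hcA]; exact h1) (by rw [hcL]; exact h2) (encP a b n j k φ B s)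
    (fun c c' h i hi => encP_mono h i hi) (fun Y negC t ht w => encP_host hj hm negC ht w)
    (fun x => List.ofFn x ∈ PadL) (fun c t x h => encP_unsolv hj hm hn hs c t x h)
    (fun c T h0 h => encP_solv hj hm c T h0 h) (by rw [hcU, hcL, hcA]; exact hδ) h C hr hC ε
    (fun c => hright _ (encP_weight hj hm hk c).1 ((encP_weight hj hm hk c).2.trans (by omega)))

end blk

end Pool.Agent.NPC.L0h35Ng
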