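import Pool.Agent.L0h35.NhBlock
import Pool.Agent.L0h35.NgCore

/-!
# Functions of few circuits with few NOT gates: the choice of the parameters
-/

set_option autoImplicit false

open scoped Classical
open Finset

namespace Pool.Agent.NPC.L0h35Ng

open H630VC (Prog marked)
open H589DT
open Pool.Agent.L0h35.Ng

/-- **The core.** -/
theorem core_eps : ∃ L1 : ℕ, ∀ L : ℕ, L1 ≤ L → ∀ n j b r K k W : ℕ, 128 * L ^ 13 ≤ 2 ^ j →
    j < n.size + 1 → 2 * (b * (2 ^ j) ^ 2 * 289 * (n.size + 1)) ≤ n → b ≤ 2 ^ L →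
    2 * k ≤ n → b * (2 ^ j) ^ 2 * 289 * (n.size + 1) ≤ W →
    ∀ (Ω : Type) [Fintype Ω] [Nonempty Ω] (h : Ω → (Fin K → Bool) → Bool)
    (C : Ω → Fin K → Circuit n), (∀ o i, (C o i).nots ≤ r) →
    (∀ o i, (C o i).size + n + 2 ≤ 2 ^ L ∨ 2 ^ ((C o i).depth + 1) ≤ 2 ^ L) → ∀ ε : ℝ,
    (∀ x : Fin n → Bool, k ≤ (univ.filter fun i => x i = true).card →
      (univ.filter fun i => x i = true).card ≤ k + W → (1 / 2 + ε) * Fintype.card Ω ≤
      (univ.filter fun o => h o (fun i => (C o i).value x) = true ↔ List.ofFn x ∈ PadL).card) →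
    b * ε ≤ K * ((r + 1) * 2 ^ r) := by
  obtain ⟨n0, hn0⟩ := t_EX 17 (2 * (3 * 582)) 582 (by norm_num)
  obtain ⟨L0, hL0⟩ := pow_le_two_pow
  refine ⟨n0 + L0 + 64 * (3 * 582 + 1) ^ 2 + 2048 * 289 ^ 2 + 2, ?_⟩
  intro L hL n j b r K k W hj1 hj2 hbn hbL hk hW Ω _ _ h C hr hC ε hright
  have hL2 : 2 ≤ L := by omega
  obtain ⟨nn, hnn⟩ : ∃ nn, nn = L ^ 3 := ⟨_, rfl⟩
  obtain ⟨M, hM⟩ : ∃ M, M = L ^ 2 := ⟨_, rfl⟩
  obtain ⟨Q, hQ⟩ : ∃ Q, Q = L ^ 9 := ⟨_, rfl⟩
  obtain ⟨a, ha⟩ : ∃ a, a = 128 * L ^ 10 := ⟨_, rfl⟩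
  have hLn : L ≤ nn := by
    rw [hnn]
    calc L = L ^ 1 := (pow_one L).symm
      _ ≤ L ^ 3 := Nat.pow_le_pow_right (by omega) (by norm_num)
  obtain ⟨φ, B, hB, hsp, hgi⟩ := hn0 nn (by omega)
  have hE2 : nn * 17 ≤ 2 * Fintype.card (EE 17 B) := by
    rw [card_EE (D := 17) B]
    calc nn * 17 ≤ (2 * (nn - B.card)) * 17 := Nat.mul_le_mul_right _ (by omega)
      _ = _ := by ring
  obtain ⟨s, hs⟩ := t_SH nn 17 17 17 (Fintype.card (EE 17 B)) (by norm_num) φ B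
    (union_num (by omega) hE2)
  have hs' : ∀ (x : Fin nn → ZMod 17 × Fin 17) (y : Fin nn → ZMod 17), ∃ e : Fin nn × Fin 17,
      e.1 ∉ B ∧ (x e.1).1 - ((e.2 : ℕ) : ZMod 17) * (((x e.1).2 : ℕ) : ZMod 17) + s e.1 e.2
        ≠ y (φ e.1 e.2) := by
    intro x y
    by_contra hcon
    push Not at hcon
    have h1 := hs x y
    have h2 : (univ.filter fun e : Fin nn × Fin 17 => e.1 ∉ B ∧
        (x e.1).1 - ((e.2 : ℕ) : ZMod 17) * (((x e.1).2 : ℕ) : ZMod 17) + s e.1 e.2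
          = y (φ e.1 e.2)) = univ.filter fun e : Fin nn × Fin 17 => e.1 ∉ B :=
      filter_congr fun e _ => ⟨fun h => h.1, fun h => ⟨h, hcon e h⟩⟩
    rw [h2, Fintype.card_subtype] at h1
    exact lt_irrefl _ h1
  -- local consistency
  set G := gameGraph (d := 17) φ B s with hG
  have hGgirth : G.Girth 582 := fun S hS hSr => lt_of_le_of_lt (ein_le φ B s S) (hgi S hS hSr)
  have hGsparse : G.Sparse (2 * (3 * 582)) (8 * (3 * 582 + 1) * L) := by
    intro S hS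
    refine (ein_le φ B s S).trans (hsp S ?_)
    calc S.card ^ 2 ≤ (8 * (3 * 582 + 1) * L) ^ 2 := Nat.pow_le_pow_left hS 2
      _ = (64 * (3 * 582 + 1) ^ 2) * L ^ 2 := by ring
      _ ≤ L * L ^ 2 := Nat.mul_le_mul_right _ (by omega)
      _ = nn := by rw [hnn]; ring
  obtain ⟨F, hF⟩ := lo_all _ _ _ G 582 (3 * 582) (8 * (3 * 582 + 1) * L) (2 * L) (by norm_num)
    le_rfl (gameGraph_surj (by norm_num) φ B s)
    (t_MX nn 17 17 17 (by norm_num) le_rfl (by norm_num) φ B s) hGgirth hGsparse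
    (by ring_nf; exact le_rfl)
  have hLpos : 0 < L := by omega
  refine block_eps (nn := nn) (a := a) (j := j) (L := L) (M := M) (Q := Q) (S := 2 ^ L)
    (by rw [ha]; exact Nat.mul_pos (by norm_num) (by positivity)) F hF hj2 ?_ hbn (by omega)
    (by rw [hM]; exact Nat.one_le_pow _ _ hLpos) (by rw [hQ]; exact Nat.one_le_pow _ _ hLpos)
    ?_ ?_ ?_ hs' ?_ hk hW h C hr hC ε hright
  · calc nn * a = 128 * L ^ 13 := by rw [hnn, ha]; ring
      _ ≤ 2 ^ j := hj1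
  · calc 8 * ((8 * L + 1) * Q) ≤ 8 * ((16 * L) * Q) :=
          Nat.mul_le_mul_left _ (Nat.mul_le_mul_right _ (by omega))
      _ = a := by rw [hQ, ha]; ring
  · calc 8 * (2 * nn * a * 289 ^ 2 * M ^ 2) = (2048 * 289 ^ 2) * L ^ 17 := by
          rw [hnn, ha, hM]; ring
      _ ≤ L * L ^ 17 := Nat.mul_le_mul_right _ (by omega)
      _ = Q ^ 2 := by rw [hQ]; ring
  · calc 8 * (2 * L * 289 * M) = 4624 * L ^ 3 := by rw [hM]; ring
      _ ≤ L ^ 6 * L ^ 3 := Nat.mul_le_mul_right _ ((by omega : 4624 ≤ L).trans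
          (Nat.le_self_pow (by norm_num) L))
      _ = Q := by rw [hQ]; ring
  · exact num4 (by omega) (by omega) hnn ha hM (hL0 L (by omega)) hbL

/-- the lower bound, for depth or size -/
theorem final_eps : ∃ n0 : ℕ, ∀ n : ℕ, n0 ≤ n → ∀ (k W K r : ℕ) (ε : ℝ), 2 * k ≤ n → W ≤ n →
    1 ≤ K → 0 < ε → ε ≤ 1 / 2 → K * (2 : ℝ) ^ r * Real.logb 2 n ^ 30 ≤ ε * W →
    ∀ (Ω : Type) [Fintype Ω] [Nonempty Ω] (h : Ω → (Fin K → Bool) → Bool)
    (C : Ω → Fin K → Circuit n), (∀ ω i, (C ω i).nots ≤ r) →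
    (∀ x : Fin n → Bool, k ≤ (univ.filter fun i => x i = true).card →
      (univ.filter fun i => x i = true).card ≤ k + W → (1 / 2 + ε) * Fintype.card Ω ≤
      (univ.filter fun o => h o (fun i => (C o i).value x) = true ↔ List.ofFn x ∈ PadL).card) →
    ¬ ∀ ω i, ((C ω i).size : ℝ) < (2 : ℝ) ^ ((ε * W / (K * 2 ^ r)) ^ (1 / 30 : ℝ)) ∨
      ((C ω i).depth : ℝ) < (ε * W / (K * 2 ^ r)) ^ (1 / 30 : ℝ) := by
  obtain ⟨L1, hcore⟩ := core_eps
  have ht : Filter.Tendsto (fun n : ℕ => Real.logb 2 (n : ℝ)) Filter.atTop Filter.atTop :=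
    (Real.tendsto_logb_atTop (by norm_num)).comp tendsto_natCast_atTop_atTop
  obtain ⟨n1, hn1⟩ := Filter.eventually_atTop.1
    (ht.eventually (Filter.eventually_ge_atTop (max (L1 : ℝ) 300000000)))
  refine ⟨max n1 1, fun n hn k W K r ε hk hWn hK hε hε2 hr Ω _ _ h C hnots hright hall => ?_⟩
  have hn1' := hn1 n ((le_max_left _ _).trans hn)
  have hnpos : 1 ≤ n := (le_max_right _ _).trans hn
  have hnr : (0 : ℝ) < n := by exact_mod_cast hnpos
  have hKr : (1 : ℝ) ≤ K := by exact_mod_cast hK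
  have hWnr : (W : ℝ) ≤ n := by exact_mod_cast hWn
  set l : ℝ := Real.logb 2 n with hl
  have hlL1 : (L1 : ℝ) ≤ l := (le_max_left _ _).trans hn1'
  have hlbig : (300000000 : ℝ) ≤ l := (le_max_right _ _).trans hn1'
  have hl2 : (2 : ℝ) ^ l = n := Real.rpow_logb (by norm_num) (by norm_num) hnr
  set y : ℝ := (ε * W / (K * 2 ^ r)) ^ (1 / 30 : ℝ) with hy
  have hy0 : 0 ≤ y := by rw [hy]; positivity
  have hy30 : y ^ 30 = ε * W / (K * 2 ^ r) := by
    rw [hy, ← Real.rpow_natCast, ← Real.rpow_mul (by positivity)]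
    norm_num
  have hn30 : (W : ℝ) = (K * 2 ^ r / ε) * y ^ 30 := by
    rw [hy30]
    field_simp
  have hly : l ≤ y := by
    have h1 : l ^ 30 ≤ y ^ 30 := by
      rw [hy30, le_div_iff₀ (by positivity)]
      linarith
    exact le_of_pow_le_pow_left₀ (by norm_num) hy0 h1
  -- the parameter `L`
  obtain ⟨L, hL⟩ : ∃ L, L = ⌈y⌉₊ + 2 := ⟨_, rfl⟩
  have hLy : y + 2 ≤ L := by
    rw [hL]
    push_cast
    linarith [Nat.le_ceil y]
  have hLy' : (L : ℝ) ≤ y + 3 := by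
    rw [hL]
    push_cast
    linarith [Nat.ceil_lt_add_one hy0]
  have hL1 : L1 ≤ L := by
    have : (L1 : ℝ) ≤ L := by linarith
    exact_mod_cast this
  have hr1 : (r : ℝ) ≤ l := by
    have h1 : (1 : ℝ) ≤ l ^ 30 := one_le_pow₀ (by linarith)
    have h0 : (0 : ℝ) < 2 ^ r := by positivity
    have h2 : (2 : ℝ) ^ r ≤ n := by
      calc (2 : ℝ) ^ r = 1 * 2 ^ r * 1 := by ring
        _ ≤ K * 2 ^ r * l ^ 30 := mul_le_mul (mul_le_mul_of_nonneg_right hKr h0.le) h1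
            (by norm_num) (by positivity)
        _ ≤ ε * W := hr
        _ ≤ 1 * n := mul_le_mul (by linarith) hWnr (by positivity) (by norm_num)
        _ = n := one_mul _
    rw [← hl2, ← Real.rpow_natCast] at h2
    exact (Real.rpow_le_rpow_left_iff (by norm_num)).1 h2
  have hsz : ((n.size : ℕ) : ℝ) ≤ l + 1 := by
    have h1 : n.size - 1 < n.size := by
      have : 0 < n.size := Nat.size_pos.2 hnpos
      omega
    have h2 : 2 ^ (n.size - 1) ≤ n := Nat.lt_size.1 h1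
    have h3 : (2 : ℝ) ^ (n.size - 1 : ℕ) ≤ n := by exact_mod_cast h2
    rw [← hl2, ← Real.rpow_natCast] at h3
    have h4 := (Real.rpow_le_rpow_left_iff (by norm_num)).1 h3
    have h5 : 1 ≤ n.size := by omega
    rw [Nat.cast_sub h5] at h4
    push_cast at h4
    linarith
  -- the number of blocks and their size
  set N : ℝ := K * (((r : ℝ) + 1) * 2 ^ r) with hN
  have hN1 : 1 ≤ N := by
    have h1 : (1 : ℝ) ≤ 2 ^ r := one_le_pow₀ (by norm_num)
    have h2 : (1 : ℝ) ≤ ((r : ℝ) + 1) * 2 ^ r := by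
      have : (0 : ℝ) ≤ r := Nat.cast_nonneg r
      nlinarith
    rw [hN]
    nlinarith
  obtain ⟨b, hb⟩ : ∃ b, b = ⌊N / ε⌋₊ + 1 := ⟨_, rfl⟩
  have hbN : N / ε < b := by
    rw [hb]
    push_cast
    exact Nat.lt_floor_add_one _
  have hbN' : (b : ℝ) ≤ 2 * (N / ε) := by
    have h1 : (1 : ℝ) ≤ N / ε := by
      rw [le_div_iff₀ hε]
      linarith
    have h2 : ((⌊N / ε⌋₊ : ℕ) : ℝ) ≤ N / ε := Nat.floor_le (by positivity)
    rw [hb]
    push_cast
    linarith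
  obtain ⟨j, hj⟩ : ∃ j, j = Nat.clog 2 (128 * L ^ 13) := ⟨_, rfl⟩
  have hLpos : 0 < L := by omega
  have hL13 : 0 < L ^ 13 := by positivity
  have hj1 : 128 * L ^ 13 ≤ 2 ^ j := by
    rw [hj]
    exact Nat.le_pow_clog (by norm_num) _
  have hj0 : 1 ≤ j := by
    by_contra h
    have h0 : j = 0 := by omega
    rw [h0] at hj1
    omega
  have hj2 : 2 ^ j ≤ 256 * L ^ 13 := by
    have h1 : 2 ^ (Nat.clog 2 (128 * L ^ 13)).pred < 128 * L ^ 13 :=
      Nat.pow_pred_clog_lt_self (by norm_num) (by omega)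
    rw [← hj] at h1
    have h2 : 2 ^ j = 2 ^ j.pred * 2 := by
      rw [← pow_succ]
      congr 1
      simp only [Nat.pred_eq_sub_one]
      omega
    omega
  have hbW : 2 * (b * (2 ^ j) ^ 2 * 289 * (n.size + 1)) ≤ W := by
    have e1 : (b : ℝ) ≤ 2 * (K * (L * 2 ^ r) / ε) := by
      refine hbN'.trans (mul_le_mul_of_nonneg_left ?_ (by norm_num))
      refine div_le_div_of_nonneg_right ?_ hε.le
      rw [hN]
      refine mul_le_mul_of_nonneg_left ?_ (by positivity)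
      exact mul_le_mul_of_nonneg_right (by linarith) (by positivity)
    have e2 : (((2 : ℝ) ^ j) ^ 2) ≤ (256 * L ^ 13) ^ 2 := by
      have h1 : (2 : ℝ) ^ j ≤ 256 * L ^ 13 := by exact_mod_cast hj2
      exact pow_le_pow_left₀ (by positivity) h1 2
    have e3 : ((n.size : ℕ) : ℝ) + 1 ≤ L := by linarith
    have e4 : (b : ℝ) * ((2 : ℝ) ^ j) ^ 2 * 289 * ((n.size : ℝ) + 1) ≤
        (2 * (K * (L * 2 ^ r) / ε)) * (256 * L ^ 13) ^ 2 * 289 * L := by
      refine mul_le_mul (mul_le_mul_of_nonneg_right (mul_le_mul e1 e2 (by positivity)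
        (by positivity)) (by norm_num)) e3 (by positivity) (by positivity)
    have e5 : 2 * ((2 * ((K : ℝ) * (L * 2 ^ r) / ε)) * (256 * L ^ 13) ^ 2 * 289 * L) =
        (K * 2 ^ r / ε) * (75759616 * L ^ 28) := by ring
    have e6 : (L : ℝ) ≤ 2 * y := by linarith
    have e7 : (L : ℝ) ^ 28 ≤ (2 * y) ^ 28 := pow_le_pow_left₀ (by positivity) e6 28
    have e8 : (75759616 : ℝ) * L ^ 28 ≤ y ^ 30 := by
      have h1 : (300000000 : ℝ) ≤ y := hlbig.trans hly
      have h2 : (300000000 : ℝ) ^ 2 ≤ y ^ 2 := pow_le_pow_left₀ (by norm_num) h1 2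
      have h3 : (75759616 : ℝ) * (2 * y) ^ 28 = (75759616 * 268435456) * y ^ 28 := by ring
      have h4 : (75759616 * 268435456 : ℝ) ≤ y ^ 2 := le_trans (by norm_num) h2
      calc (75759616 : ℝ) * L ^ 28 ≤ 75759616 * (2 * y) ^ 28 :=
            mul_le_mul_of_nonneg_left e7 (by norm_num)
        _ = (75759616 * 268435456) * y ^ 28 := h3
        _ ≤ y ^ 2 * y ^ 28 := mul_le_mul_of_nonneg_right h4 (by positivity)
        _ = y ^ 30 := by ring
    have e9 : ((2 * (b * (2 ^ j) ^ 2 * 289 * (n.size + 1)) : ℕ) : ℝ) ≤ W := by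
      push_cast
      calc 2 * ((b : ℝ) * ((2 : ℝ) ^ j) ^ 2 * 289 * ((n.size : ℝ) + 1)) ≤
            2 * ((2 * ((K : ℝ) * (L * 2 ^ r) / ε)) * (256 * L ^ 13) ^ 2 * 289 * L) :=
            mul_le_mul_of_nonneg_left e4 (by norm_num)
        _ = (K * 2 ^ r / ε) * (75759616 * L ^ 28) := e5
        _ ≤ (K * 2 ^ r / ε) * y ^ 30 := mul_le_mul_of_nonneg_left e8 (by positivity)
        _ = W := hn30.symm
    exact_mod_cast e9
  have hbn : 2 * (b * (2 ^ j) ^ 2 * 289 * (n.size + 1)) ≤ n := hbW.trans hWn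
  have hb1 : 1 ≤ b := by omega
  have hnsz : 1 ≤ n.size + 1 := by omega
  have hP : 1 ≤ 2 ^ j := Nat.one_le_two_pow
  have hbn' : b * (2 ^ j) ^ 2 * 289 * (n.size + 1) ≤ n := by omega
  have hbn1 : b ≤ n := by
    refine le_trans ?_ hbn'
    calc b = b * 1 * 1 * 1 := by ring
      _ ≤ b * (2 ^ j) ^ 2 * 289 * (n.size + 1) :=
        Nat.mul_le_mul (Nat.mul_le_mul (Nat.mul_le_mul_left _ (Nat.one_le_pow _ _ hP))
          (by norm_num)) hnsz
  have hjn : 2 ^ j ≤ n := by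
    refine le_trans ?_ hbn'
    calc 2 ^ j = 1 * (2 ^ j * 1) * 1 * 1 := by ring
      _ ≤ b * (2 ^ j) ^ 2 * 289 * (n.size + 1) := by
        refine Nat.mul_le_mul (Nat.mul_le_mul (Nat.mul_le_mul hb1 ?_) (by norm_num)) hnsz
        rw [pow_two]
        exact Nat.mul_le_mul_left _ hP
  have hnL : (n : ℝ) ≤ 2 ^ L := by
    rw [← hl2, ← Real.rpow_natCast]
    exact Real.rpow_le_rpow_of_exponent_le (by norm_num) (by linarith)
  have hbL : b ≤ 2 ^ L := by
    have h1 : (b : ℝ) ≤ 2 ^ L := le_trans (by exact_mod_cast hbn1) hnL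
    exact_mod_cast h1
  have hjs : j < n.size + 1 := Nat.lt_succ_of_lt (Nat.lt_size.2 hjn)
  have key := hcore L hL1 n j b r K k W hj1 hjs hbn hbL hk (by omega) Ω h C hnots ?_ ε hright
  · have h1 : N < b * ε := (div_lt_iff₀ hε).1 hbN
    rw [hN] at h1
    exact absurd key (not_le.2 h1)
  · intro ω i
    rcases hall ω i with h | h
    · left
      have h1 : (n : ℝ) ≤ 2 ^ y := by
        rw [← hl2]
        exact Real.rpow_le_rpow_of_exponent_le (by norm_num) hly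
      have h2 : (2 : ℝ) ≤ 2 ^ y := by
        calc (2 : ℝ) = 2 ^ (1 : ℝ) := (Real.rpow_one 2).symm
          _ ≤ 2 ^ y := Real.rpow_le_rpow_of_exponent_le (by norm_num) (by linarith)
      have h3 : (2 : ℝ) ^ (y + 2) ≤ 2 ^ L := by
        rw [← Real.rpow_natCast]
        exact Real.rpow_le_rpow_of_exponent_le (by norm_num) hLy
      have h4 : (2 : ℝ) ^ (y + 2) = 4 * 2 ^ y := by
        rw [Real.rpow_add (by norm_num)]
        norm_num
        ring
      have h5 : (((C ω i).size + n + 2 : ℕ) : ℝ) ≤ ((2 ^ L : ℕ) : ℝ) := by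
        push_cast
        linarith
      exact_mod_cast h5
    · right
      have h1 : (C ω i).depth < ⌈y⌉₊ := Nat.lt_ceil.2 h
      exact Nat.pow_le_pow_right (by norm_num) (by omega)

end Pool.Agent.NPC.L0h35Ng
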