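import Pool.Agent.L0h35.NhFinal

/-!
# The language with pointers: definitions and module statements
-/

set_option autoImplicit false

namespace Pool.Agent.NPC.L0h35Pm

open Pool.Agent.NPC.L0h35Ng

/-- length of the two blocks of a string of length `N` -/
def hlf (N : ℕ) : ℕ := (N - 1) / 2

/-- the bit `i` of the data block: the first block if the first bit is one, otherwise the second -/
def dat (z : List Bool) (i : ℕ) : Bool :=
  if z.getD 0 false = true then (if i < hlf z.length then z.getD (1 + i) false else false)
  else (if i < hlf z.length then z.getD (1 + hlf z.length + i) false else false)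

/-- the bit `i` of the pointer block, which is the other block -/
def ptr (z : List Bool) (i : ℕ) : Bool :=
  if z.getD 0 false = true then (if i < hlf z.length then z.getD (1 + hlf z.length + i) false else false)
  else (if i < hlf z.length then z.getD (1 + i) false else false)

/-- the number `j` in the pointer block -/
def num (z : List Bool) (j : ℕ) : ℕ :=
  valB ((List.range z.length.size).map fun i => ptr z (z.length.size * j + i))

/-- the string which is read -/
def rd (z : List Bool) : List Bool := (List.range (num z 0)).map fun j => dat z (num z (j + 1))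

/-- the language: the string which is read is in the language `PadL` -/
def PtrL : Set (List Bool) := {z | rd z ∈ PadL}

/-- Statement: the language is in P. -/
def StP : Prop := InP PtrL

open Pool.Agent.L0h35.Ng in
/-- Statement: fixing inputs of a circuit. -/
def StFix : Prop := ∀ (n m : ℕ) (C : Circuit n) (ρ : Fin n → Fin m ⊕ Bool), ∃ C' : Circuit m,
  C'.nots = C.nots ∧ C'.depth = C.depth ∧ C'.size = C.size ∧
    ∀ y : Fin m → Bool, C'.value y = C.value fun i => Sum.elim y id (ρ i)

/-- Statement: every large enough set of variables contains data that can be read. `ρ` fixes all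
variables, except that the `m` variables `e j`, which are in `T`, remain free. -/
def StEmb : Prop := ∀ (N : ℕ) (T : Finset (Fin N)) (m : ℕ), 2 * m + 2 ≤ T.card →
  (m + 1) * N.size ≤ hlf N → ∃ (ρ : Fin N → Bool) (e : Fin m ↪ Fin N), (∀ j, e j ∈ T) ∧
    ∀ y : Fin m → Bool, rd (List.ofFn fun i => if h : ∃ j, e j = i then y h.choose else ρ i) =
      List.ofFn y

end Pool.Agent.NPC.L0h35Pm

open Pool.Agent.NPC Pool.Agent.L0h35.Ng in
open scoped Classical in
/-- Statement: the final theorem. -/
def Pool.Agent.L0h35.StPm : Prop := ∃ L : Set (List Bool), InP L ∧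
    ∃ n₀ : ℕ, ∀ N : ℕ, n₀ ≤ N → ∀ (T : Finset (Fin N)) (K r : ℕ) (ε : ℝ), 1 ≤ K → 0 < ε →
      ε ≤ 1 / 2 → K * (2 : ℝ) ^ r * Real.logb 2 N ^ 32 ≤ ε * T.card →
      ∀ (Ω : Type) [Fintype Ω] [Nonempty Ω] (M : ℕ) (G : Ω → Fin M → (Fin N → Bool) → Bool)
        (h : Ω → (Fin M → Bool) → (Fin K → Bool) → Bool) (C : Ω → Fin K → Circuit (N + M)),
        (∀ ω j (x y : Fin N → Bool), (∀ i, i ∉ T → x i = y i) → G ω j x = G ω j y) →
        (∀ ω i, (C ω i).nots ≤ r) →
        (∀ x : Fin N → Bool, (1 / 2 + ε) * Fintype.card Ω ≤
            Fintype.card {ω // h ω (fun j => G ω j x)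
              (fun i => (C ω i).value (Fin.append x fun j => G ω j x)) = true ↔
                List.ofFn x ∈ L}) →
        ∃ ω i, (ε * T.card / (K * 2 ^ r * Real.logb 2 N ^ 2)) ^ (1 / 30 : ℝ) ≤ (C ω i).depth ∧
          (2 : ℝ) ^ ((ε * T.card / (K * 2 ^ r * Real.logb 2 N ^ 2)) ^ (1 / 30 : ℝ)) ≤ (C ω i).size
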