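import Pool.Agent.L0h35.PmDefs

/-!
# The language with pointers
-/

set_option autoImplicit false

open scoped Classical

namespace Pool.Agent.NPC.L0h35Pm

open Pool.Agent.NPC Pool.Agent.NPC.L0h35Ng

section Poly

theorem poly_hlf {α : Type} [TEnc α] {n : α → ℕ} (hn : Poly n) : Poly (fun a => hlf (n a)) := by
  unfold hlf
  fun_prop

theorem poly_dat : Poly (fun p : List Bool × ℕ => dat p.1 p.2) := by
  unfold dat
  have h := poly_hlf (Poly.length (Poly.fst (Poly.id (α := List Bool × ℕ))))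
  fun_prop

theorem poly_ptr : Poly (fun p : List Bool × ℕ => ptr p.1 p.2) := by
  unfold ptr
  have h := poly_hlf (Poly.length (Poly.fst (Poly.id (α := List Bool × ℕ))))
  fun_prop

theorem uPoly_size {α : Type} [TEnc α] {n : α → ℕ} (hn : Poly n) : UPoly (fun a => (n a).size) := by
  have h : UPoly (fun a => (n a).bits.length) := UPoly.length (Poly.natBits hn)
  have e : (fun a => (n a).bits.length) = fun a => (n a).size := by
    funext a
    rw [Nat.size_eq_bits_len]
  rwa [e] at h

theorem poly_num : Poly (fun p : List Bool × ℕ => num p.1 p.2) := by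
  unfold num
  have h1 : UPoly (fun p : List Bool × ℕ => p.1.length.size) :=
    uPoly_size (Poly.length (Poly.fst Poly.id))
  refine Poly.valBits ?_
  refine Poly.map (α := List Bool × ℕ) (β := ℕ) (γ := Bool)
    (F := fun p i => ptr p.1 (p.1.length.size * p.2 + i)) h1.range ?_
  have h2 : Poly (fun q : (List Bool × ℕ) × ℕ => q.1.1.length.size) :=
    (uPoly_size (Poly.length (Poly.fst (Poly.fst Poly.id)))).toPoly
  have h3 : Poly (fun q : (List Bool × ℕ) × ℕ => (q.1.1, q.1.1.length.size * q.1.2 + q.2)) := by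
    fun_prop
  exact Poly.comp (g := fun p : List Bool × ℕ => ptr p.1 p.2)
    (f := fun q : (List Bool × ℕ) × ℕ => (q.1.1, q.1.1.length.size * q.1.2 + q.2)) poly_ptr h3

theorem num_le (z : List Bool) (j : ℕ) : num z j ≤ z.length + z.length := by
  unfold num
  have h1 := valB_lt ((List.range z.length.size).map fun i => ptr z (z.length.size * j + i))
  rw [List.length_map, List.length_range] at h1
  rcases Nat.eq_zero_or_pos z.length with h | h
  · rw [h] at h1 ⊢
    simp
  · have h2 : z.length.size - 1 < z.length.size := by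
      have : 0 < z.length.size := Nat.size_pos.2 h
      omega
    have h3 : 2 ^ (z.length.size - 1) ≤ z.length := Nat.lt_size.1 h2
    have h4 : 2 ^ z.length.size = 2 ^ (z.length.size - 1) * 2 := by
      rw [← pow_succ]
      congr 1
      omega
    omega

theorem poly_rd : Poly rd := by
  unfold rd
  have h1 : Poly (fun z : List Bool => num z 0) :=
    Poly.comp (g := fun p : List Bool × ℕ => num p.1 p.2) (f := fun z : List Bool => (z, 0)) poly_num
      (by fun_prop)
  have h2 : UPoly (fun z : List Bool => num z 0) :=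
    UPoly.of_le h1 ((UPoly.length Poly.id).add (UPoly.length Poly.id)) fun z => num_le z 0
  refine Poly.map (α := List Bool) (β := ℕ) (γ := Bool)
    (F := fun z j => dat z (num z (j + 1))) h2.range ?_
  have h3 : Poly (fun q : List Bool × ℕ => num q.1 (q.2 + 1)) :=
    Poly.comp (g := fun p : List Bool × ℕ => num p.1 p.2)
      (f := fun q : List Bool × ℕ => (q.1, q.2 + 1)) poly_num (by fun_prop)
  exact Poly.comp (g := fun p : List Bool × ℕ => dat p.1 p.2)
    (f := fun q : List Bool × ℕ => (q.1, num q.1 (q.2 + 1))) poly_dat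
    (Poly.pair (Poly.fst Poly.id) h3)

theorem stP : StP :=
  ⟨fun x => [algP (rd x)], polyTime_of_poly (poly_algP.comp poly_rd), fun x => by
    unfold PtrL
    rw [Set.mem_ofPred_eq, ← algP_iff]
    simp⟩

end Poly

section Fix

open Pool.Agent.L0h35.Ng

/-- fixing inputs of a gate -/
def fixGate {n m k : ℕ} (ρ : Fin n → Fin m ⊕ Bool) : Gate n k → Gate m k
  | .var i => match ρ i with
    | .inl j => .var j
    | .inr b => .const b
  | .const b => .const b
  | .not i => .not i
  | .and i j => .and i j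
  | .or i j => .or i j

/-- fixing inputs of a circuit -/
def fixC {n m : ℕ} (C : Circuit n) (ρ : Fin n → Fin m ⊕ Bool) : Circuit m where
  nodes := C.nodes
  gate k := fixGate ρ (C.gate k)
  out := C.out

theorem fix_not {n m k : ℕ} (ρ : Fin n → Fin m ⊕ Bool) (g : Gate n k) (i : Fin k) :
    fixGate ρ g = .not i ↔ g = .not i := by
  cases g with
  | var v =>
    simp only [fixGate]
    cases ρ v <;> simp
  | const b => simp [fixGate]
  | not j => simp [fixGate]
  | and a b => simp [fixGate]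
  | or a b => simp [fixGate]

theorem fix_and {n m k : ℕ} (ρ : Fin n → Fin m ⊕ Bool) (g : Gate n k) (i j : Fin k) :
    fixGate ρ g = .and i j ↔ g = .and i j := by
  cases g with
  | var v =>
    simp only [fixGate]
    cases ρ v <;> simp
  | const b => simp [fixGate]
  | not j => simp [fixGate]
  | and a b => simp [fixGate]
  | or a b => simp [fixGate]

theorem fix_or {n m k : ℕ} (ρ : Fin n → Fin m ⊕ Bool) (g : Gate n k) (i j : Fin k) :
    fixGate ρ g = .or i j ↔ g = .or i j := by
  cases g with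
  | var v =>
    simp only [fixGate]
    cases ρ v <;> simp
  | const b => simp [fixGate]
  | not j => simp [fixGate]
  | and a b => simp [fixGate]
  | or a b => simp [fixGate]

theorem fix_eval {n m : ℕ} (C : Circuit n) (ρ : Fin n → Fin m ⊕ Bool) (y : Fin m → Bool)
    (k : Fin C.nodes) :
    (fixC C ρ).eval y k = C.eval (fun i => Sum.elim y id (ρ i)) k := by
  induction k using WellFoundedLT.induction with
  | _ k ih =>
  cases hg : C.gate k with
  | var i =>
    rw [C.eval_var hg]
    cases hr : ρ i with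
    | inl j =>
      have h : (fixC C ρ).gate k = .var j := by
        change fixGate ρ (C.gate k) = _
        rw [hg]; simp [fixGate, hr]
      rw [(fixC C ρ).eval_var h]
      rfl
    | inr b =>
      have h : (fixC C ρ).gate k = .const b := by
        change fixGate ρ (C.gate k) = _
        rw [hg]; simp [fixGate, hr]
      rw [(fixC C ρ).eval_const h]
      rfl
  | const b =>
    have h : (fixC C ρ).gate k = .const b := by
      change fixGate ρ (C.gate k) = _
      rw [hg]; rfl
    rw [(fixC C ρ).eval_const h, C.eval_const hg]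
  | not i =>
    have h : (fixC C ρ).gate k = .not i := by
      change fixGate ρ (C.gate k) = _
      rw [hg]; rfl
    rw [(fixC C ρ).eval_not h, C.eval_not hg]
    exact congrArg _ (ih _ (C.up_lt k i))
  | and i j =>
    have h : (fixC C ρ).gate k = .and i j := by
      change fixGate ρ (C.gate k) = _
      rw [hg]; rfl
    rw [(fixC C ρ).eval_and h, C.eval_and hg]
    exact congrArg₂ _ (ih _ (C.up_lt k i)) (ih _ (C.up_lt k j))
  | or i j =>
    have h : (fixC C ρ).gate k = .or i j := by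
      change fixGate ρ (C.gate k) = _
      rw [hg]; rfl
    rw [(fixC C ρ).eval_or h, C.eval_or hg]
    exact congrArg₂ _ (ih _ (C.up_lt k i)) (ih _ (C.up_lt k j))

theorem depth_leaf {n : ℕ} (C : Circuit n) {k : Fin C.nodes}
    (h : (∃ i, C.gate k = .var i) ∨ ∃ b, C.gate k = .const b) : C.depthAt k = 0 := by
  rw [Circuit.depthAt]
  rcases h with ⟨i, h⟩ | ⟨i, h⟩ <;> split <;> simp_all

theorem depth_not {n : ℕ} (C : Circuit n) {k : Fin C.nodes} {i : Fin (k : ℕ)}
    (h : C.gate k = .not i) : C.depthAt k = C.depthAt (C.up k i) := by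
  rw [Circuit.depthAt]
  split <;> simp_all

theorem depth_and {n : ℕ} (C : Circuit n) {k : Fin C.nodes} {i j : Fin (k : ℕ)}
    (h : C.gate k = .and i j) :
    C.depthAt k = max (C.depthAt (C.up k i)) (C.depthAt (C.up k j)) + 1 := by
  rw [Circuit.depthAt]
  split <;> simp_all

theorem depth_or {n : ℕ} (C : Circuit n) {k : Fin C.nodes} {i j : Fin (k : ℕ)}
    (h : C.gate k = .or i j) :
    C.depthAt k = max (C.depthAt (C.up k i)) (C.depthAt (C.up k j)) + 1 := by
  rw [Circuit.depthAt]
  split <;> simp_all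

theorem fix_depth {n m : ℕ} (C : Circuit n) (ρ : Fin n → Fin m ⊕ Bool)
    (k : Fin C.nodes) : (fixC C ρ).depthAt k = C.depthAt k := by
  induction k using WellFoundedLT.induction with
  | _ k ih =>
  cases hg : C.gate k with
  | var i =>
    rw [depth_leaf C (Or.inl ⟨i, hg⟩)]
    apply depth_leaf
    cases hr : ρ i with
    | inl j =>
      left
      refine ⟨j, ?_⟩
      change fixGate ρ (C.gate k) = _
      rw [hg]; simp [fixGate, hr]
    | inr b =>
      right
      refine ⟨b, ?_⟩
      change fixGate ρ (C.gate k) = _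
      rw [hg]; simp [fixGate, hr]
  | const b =>
    rw [depth_leaf C (Or.inr ⟨b, hg⟩)]
    apply depth_leaf
    right
    refine ⟨b, ?_⟩
    change fixGate ρ (C.gate k) = _
    rw [hg]; rfl
  | not i =>
    have h : (fixC C ρ).gate k = .not i := by
      change fixGate ρ (C.gate k) = _
      rw [hg]; rfl
    rw [depth_not C hg]
    exact (depth_not (fixC C ρ) h).trans (ih _ (C.up_lt k i))
  | and i j =>
    have h : (fixC C ρ).gate k = .and i j := by
      change fixGate ρ (C.gate k) = _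
      rw [hg]; rfl
    rw [depth_and C hg]
    refine (depth_and (fixC C ρ) h).trans ?_
    exact congrArg₂ (fun a b => max a b + 1) (ih _ (C.up_lt k i)) (ih _ (C.up_lt k j))
  | or i j =>
    have h : (fixC C ρ).gate k = .or i j := by
      change fixGate ρ (C.gate k) = _
      rw [hg]; rfl
    rw [depth_or C hg]
    refine (depth_or (fixC C ρ) h).trans ?_
    exact congrArg₂ (fun a b => max a b + 1) (ih _ (C.up_lt k i)) (ih _ (C.up_lt k j))

theorem stFix : StFix := by
  intro n m C ρ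
  refine ⟨fixC C ρ, ?_, fix_depth C ρ C.out, ?_, fun y => fix_eval C ρ y C.out⟩
  · unfold Circuit.nots
    refine Nat.card_congr (Equiv.subtypeEquivRight fun k => exists_congr fun i => ?_)
    exact fix_not ρ _ i
  · unfold Circuit.size
    refine Nat.card_congr (Equiv.subtypeEquivRight fun k => ?_)
    exact or_congr (exists_congr fun i => exists_congr fun j => fix_and ρ _ i j)
      (exists_congr fun i => exists_congr fun j => fix_or ρ _ i j)

end Fix

section Emb

theorem valB_testBit (s : ℕ) : ∀ v : ℕ, v < 2 ^ s →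
    valB ((List.range s).map fun i => v.testBit i) = v := by
  induction s with
  | zero =>
    intro v hv
    have : v = 0 := by simpa using hv
    subst this
    rfl
  | succ s ih =>
    intro v hv
    rw [List.range_succ_eq_map, List.map_cons, List.map_map, valB_cons]
    have h1 : ((fun i => v.testBit i) ∘ Nat.succ) = fun i => (v / 2).testBit i := by
      funext i
      simp [Nat.testBit_succ]
    rw [h1, ih (v / 2) (by rw [pow_succ] at hv; omega)]
    rw [Nat.testBit_zero]
    by_cases h : v % 2 = 1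
    · simp [h]; omega
    · simp [h]; omega

theorem stEmb : StEmb := by
  intro N T m hT hH
  have hN : 0 < N := by
    have h1 := T.card_le_univ
    rw [Fintype.card_fin] at h1
    omega
  obtain ⟨H, hHdef⟩ : ∃ H, H = hlf N := ⟨_, rfl⟩
  rw [← hHdef] at hH
  have hH2 : 2 * H + 1 ≤ N ∧ N ≤ 2 * H + 2 := by unfold hlf at hHdef; omega
  obtain ⟨s, hs⟩ : ∃ s, s = N.size := ⟨_, rfl⟩
  rw [← hs] at hH
  have hs0 : 0 < s := by rw [hs]; exact Nat.size_pos.2 hN
  have hNs : N < 2 ^ s := by rw [hs]; exact Nat.lt_size_self N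
  have hH0 : 0 < H := lt_of_lt_of_le (Nat.mul_pos (Nat.succ_pos m) hs0) hH
  have hmH : m + 1 ≤ H := le_trans (Nat.le_mul_of_pos_right _ hs0) hH
  -- the block
  obtain ⟨o, o', ho, hcard⟩ : ∃ o o' : ℕ, (o = 0 ∧ o' = H ∨ o = H ∧ o' = 0) ∧
      m ≤ (T.filter fun i : Fin N => 1 + o ≤ (i : ℕ) ∧ (i : ℕ) < 1 + o + H).card := by
    by_contra hcon
    push Not at hcon
    have h1 := hcon 0 H (Or.inl ⟨rfl, rfl⟩)
    have h2 := hcon H 0 (Or.inr ⟨rfl, rfl⟩)
    obtain ⟨Q, hQ⟩ : ∃ Q : Finset (Fin N), Q = {(⟨0, hN⟩ : Fin N), (⟨N - 1, by omega⟩ : Fin N)} :=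
      ⟨_, rfl⟩
    have h3 : T ⊆ (T.filter fun i : Fin N => 1 + 0 ≤ (i : ℕ) ∧ (i : ℕ) < 1 + 0 + H) ∪
        (T.filter fun i : Fin N => 1 + H ≤ (i : ℕ) ∧ (i : ℕ) < 1 + H + H) ∪ Q := by
      intro i hi
      simp only [hQ, Finset.mem_union, Finset.mem_filter, Finset.mem_insert, Finset.mem_singleton,
        Fin.ext_iff, hi, true_and]
      have := i.2
      omega
    have h4 := Finset.card_le_card h3
    have h5 := Finset.card_union_le ((T.filter fun i : Fin N => 1 + 0 ≤ (i : ℕ) ∧ (i : ℕ) < 1 + 0 + H) ∪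
        (T.filter fun i : Fin N => 1 + H ≤ (i : ℕ) ∧ (i : ℕ) < 1 + H + H)) Q
    have h6 := Finset.card_union_le (T.filter fun i : Fin N => 1 + 0 ≤ (i : ℕ) ∧ (i : ℕ) < 1 + 0 + H)
        (T.filter fun i : Fin N => 1 + H ≤ (i : ℕ) ∧ (i : ℕ) < 1 + H + H)
    have h7 : Q.card ≤ 2 := by rw [hQ]; exact Finset.card_le_two
    omega
  obtain ⟨f⟩ : Nonempty (Fin m ↪ {i // i ∈ T.filter fun i : Fin N => 1 + o ≤ (i : ℕ) ∧ (i : ℕ) < 1 + o + H}) :=
    Function.Embedding.nonempty_of_card_le (by
      rw [Fintype.card_fin, Fintype.card_coe]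
      exact hcard)
  obtain ⟨e, he⟩ : ∃ e : Fin m ↪ Fin N, ∀ j, e j = (f j).1 :=
    ⟨⟨fun j => (f j).1, fun a b h => f.injective (Subtype.ext h)⟩, fun j => rfl⟩
  have heT : ∀ j, e j ∈ T := fun j => by
    rw [he]; exact (Finset.mem_filter.1 (f j).2).1
  have heb : ∀ j, 1 + o ≤ (e j : ℕ) ∧ (e j : ℕ) < 1 + o + H := fun j => by
    rw [he]; exact (Finset.mem_filter.1 (f j).2).2
  obtain ⟨vals, hv0, hv1⟩ : ∃ vals : ℕ → ℕ, vals 0 = m ∧
      ∀ j (h : j < m), vals (j + 1) = (e ⟨j, h⟩ : ℕ) - (1 + o) := by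
    refine ⟨fun j => if h : 1 ≤ j ∧ j - 1 < m then (e ⟨j - 1, h.2⟩ : ℕ) - (1 + o) else m, by simp, ?_⟩
    intro j h
    have : 1 ≤ j + 1 ∧ j + 1 - 1 < m := ⟨by omega, by simpa using h⟩
    beta_reduce
    rw [dif_pos this]
    rfl
  have hvN : ∀ j ≤ m, vals j < 2 ^ s := by
    intro j hj
    refine lt_of_le_of_lt ?_ hNs
    rcases j with _ | j
    · rw [hv0]; omega
    · rw [hv1 j hj]
      have := (e ⟨j, hj⟩).2
      omega
  refine ⟨fun i => if (i : ℕ) = 0 then decide (o = 0) else
    (vals (((i : ℕ) - (1 + o')) / s)).testBit (((i : ℕ) - (1 + o')) % s), e, heT, fun y => ?_⟩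
  obtain ⟨z, hz⟩ : ∃ z, z = List.ofFn fun i : Fin N => if h : ∃ j, e j = i then y h.choose else
    (if (i : ℕ) = 0 then decide (o = 0) else
    (vals (((i : ℕ) - (1 + o')) / s)).testBit (((i : ℕ) - (1 + o')) % s)) := ⟨_, rfl⟩
  rw [← hz]
  have hlen : z.length = N := by rw [hz, List.length_ofFn]
  have hget : ∀ k (hk : k < N), z.getD k false = if h : ∃ j, e j = ⟨k, hk⟩ then y h.choose else
    (if k = 0 then decide (o = 0) else
    (vals ((k - (1 + o')) / s)).testBit ((k - (1 + o')) % s)) := by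
    intro k hk
    rw [hz, List.getD_eq_getElem?_getD, List.getElem?_ofFn]
    simp only [hk, dif_pos, Option.getD_some]
  have hz0 : z.getD 0 false = decide (o = 0) := by
    rw [hget 0 hN, dif_neg, if_pos rfl]
    rintro ⟨j, hj⟩
    have h1 := (heb j).1
    rw [hj] at h1
    simp at h1
  have hdat : ∀ i < H, dat z i = z.getD (1 + o + i) false := by
    intro i hi
    unfold dat
    rw [hlen, ← hHdef, hz0, if_pos hi, if_pos hi]
    rcases ho with ⟨h1, h2⟩ | ⟨h1, h2⟩
    · rw [h1]; simp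
    · rw [h1, if_neg (by simp; omega)]
  have hptr : ∀ i < H, ptr z i = z.getD (1 + o' + i) false := by
    intro i hi
    unfold ptr
    rw [hlen, ← hHdef, hz0, if_pos hi, if_pos hi]
    rcases ho with ⟨h1, h2⟩ | ⟨h1, h2⟩
    · rw [h1, h2]; simp
    · rw [h1, h2, if_neg (by simp; omega)]
  have hnum : ∀ j ≤ m, num z j = vals j := by
    intro j hj
    unfold num
    rw [hlen, ← hs]
    have h1 : ((List.range s).map fun i => ptr z (s * j + i)) =
        (List.range s).map fun i => (vals j).testBit i := by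
      refine List.map_congr_left fun i hi => ?_
      rw [List.mem_range] at hi
      have h2 : s * j + i < H := by
        refine lt_of_lt_of_le ?_ hH
        calc s * j + i < s * j + s := by omega
          _ = (j + 1) * s := by ring
          _ ≤ (m + 1) * s := Nat.mul_le_mul_right _ (by omega)
      rw [hptr _ h2, hget _ (by omega), dif_neg, if_neg (by omega)]
      · have h3 : 1 + o' + (s * j + i) - (1 + o') = s * j + i := by omega
        rw [h3, Nat.mul_add_div hs0, Nat.div_eq_of_lt hi, Nat.mul_add_mod, Nat.mod_eq_of_lt hi,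
          add_zero]
      · rintro ⟨j', hj'⟩
        have h3 := heb j'
        rw [hj'] at h3
        simp only at h3
        omega
    rw [h1]
    exact valB_testBit s _ (hvN j hj)
  unfold rd
  rw [hnum 0 (Nat.zero_le _), hv0]
  refine List.ext_getElem (by simp) fun i h1 h2 => ?_
  rw [List.getElem_map, List.getElem_range, List.getElem_ofFn]
  have him : i < m := by simpa using h2
  have h3 := heb ⟨i, him⟩
  rw [hnum (i + 1) him, hv1 i him, hdat _ (by omega), hget _ (by omega)]
  have h4 : 1 + o + ((e ⟨i, him⟩ : ℕ) - (1 + o)) = e ⟨i, him⟩ := by omega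
  have h5 : ∃ j, e j = ⟨1 + o + ((e ⟨i, him⟩ : ℕ) - (1 + o)), by omega⟩ := ⟨⟨i, him⟩, by
    rw [Fin.ext_iff]; exact h4.symm⟩
  rw [dif_pos h5]
  congr 1
  have h6 := h5.choose_spec
  apply e.injective
  rw [h6, Fin.ext_iff]
  exact h4

end Emb

end Pool.Agent.NPC.L0h35Pm

namespace Pool.Agent.L0h35

open Pool.Agent.NPC Pool.Agent.NPC.L0h35Pm Pool.Agent.L0h35.Ng Finset

/-- the number of data bits is large -/
theorem pm_num {N tc m : ℕ} {l : ℝ} (hl : l = Real.logb 2 N) (hl64 : 64 ≤ l) (htN : tc ≤ N)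
    (htl : 2 * l ^ 32 ≤ tc) (hm : m = min ((tc - 2) / 2) (hlf N / N.size - 1)) :
    (tc : ℝ) / l ^ 2 ≤ m ∧ 2 * m + 2 ≤ tc ∧ (m + 1) * N.size ≤ hlf N ∧ m ≤ N := by
  have hl0 : 0 < l := by linarith
  have hl32 : l ≤ l ^ 32 := le_self_pow₀ (by linarith) (by norm_num)
  have htc128 : (128 : ℝ) ≤ tc := by linarith
  have htc' : 128 ≤ tc := by exact_mod_cast htc128
  have hNpos : 0 < N := by omega
  have hNr : (0 : ℝ) < N := by exact_mod_cast hNpos
  have htNr : (tc : ℝ) ≤ N := by exact_mod_cast htN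
  have hl2N : (2 : ℝ) ^ l = N := by
    rw [hl]; exact Real.rpow_logb (by norm_num) (by norm_num) hNr
  have hs0 : 0 < N.size := Nat.size_pos.2 hNpos
  have hsz : ((N.size : ℕ) : ℝ) ≤ l + 1 := by
    have h2 : 2 ^ (N.size - 1) ≤ N := Nat.lt_size.1 (by omega)
    have h3 : (2 : ℝ) ^ (N.size - 1 : ℕ) ≤ N := by exact_mod_cast h2
    rw [← hl2N, ← Real.rpow_natCast] at h3
    have h4 := (Real.rpow_le_rpow_left_iff (by norm_num)).1 h3
    rw [Nat.cast_sub (by omega)] at h4
    push_cast at h4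
    linarith
  have hszr : (0 : ℝ) < N.size := by exact_mod_cast hs0
  -- the second term
  have hb : (tc : ℝ) / l ^ 2 ≤ ((hlf N / N.size - 1 : ℕ) : ℝ) ∧ 1 ≤ hlf N / N.size := by
    have h1 : ((N : ℝ) - 2) / 2 ≤ hlf N := by
      have : N ≤ 2 * hlf N + 2 := by unfold hlf; omega
      have h2 : (N : ℝ) ≤ 2 * hlf N + 2 := by exact_mod_cast this
      linarith
    have h2 : (hlf N : ℝ) / N.size - 1 ≤ ((hlf N / N.size : ℕ) : ℝ) := by
      have h3 : hlf N < (hlf N / N.size + 1) * N.size := Nat.lt_mul_of_div_lt (Nat.lt_succ_self _) hs0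
      have h4 : (hlf N : ℝ) < ((hlf N / N.size : ℕ) + 1) * N.size := by exact_mod_cast h3
      rw [sub_le_iff_le_add, div_le_iff₀ hszr]
      exact h4.le
    have h3 : ((N : ℝ) - 2) / (4 * l) ≤ (hlf N : ℝ) / N.size := by
      rw [div_le_div_iff₀ (by positivity) hszr]
      have h5 : ((N : ℝ) - 2) * N.size ≤ (N - 2) * (2 * l) :=
        mul_le_mul_of_nonneg_left (by linarith) (by linarith)
      nlinarith
    have h4 : (tc : ℝ) / l ^ 2 ≤ ((N : ℝ) - 2) / (4 * l) - 2 := by
      have h5 : (tc : ℝ) / l ^ 2 ≤ N / l ^ 2 := by gcongr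
      refine h5.trans ?_
      have h6 : (2 * l ^ 32 : ℝ) ≤ N := htl.trans htNr
      have h7 : (l : ℝ) ^ 2 ≤ l ^ 32 := pow_le_pow_right₀ (by linarith) (by norm_num)
      have h8 : 128 * l ≤ N := by nlinarith
      rw [div_le_iff₀ (by positivity), sub_mul]
      have h9 : ((N : ℝ) - 2) / (4 * l) * l ^ 2 = (N - 2) * l / 4 := by
        field_simp
      rw [h9]
      nlinarith [mul_le_mul_of_nonneg_right hl64 hNr.le]
    have h5 : (0 : ℝ) ≤ (tc : ℝ) / l ^ 2 := by positivity
    have h6 : (1 : ℝ) ≤ ((hlf N / N.size : ℕ) : ℝ) := by linarith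
    have h7 : 1 ≤ hlf N / N.size := by exact_mod_cast h6
    refine ⟨?_, h7⟩
    rw [Nat.cast_sub h7]
    push_cast
    linarith
  have ha : (tc : ℝ) / l ^ 2 ≤ (((tc - 2) / 2 : ℕ) : ℝ) := by
    have h1 : tc ≤ 2 * ((tc - 2) / 2) + 3 := by omega
    have h2 : (tc : ℝ) ≤ 2 * (((tc - 2) / 2 : ℕ) : ℝ) + 3 := by exact_mod_cast h1
    have h3 : (tc : ℝ) / l ^ 2 ≤ tc / 4 := by
      gcongr
      nlinarith
    linarith
  refine ⟨?_, ?_, ?_, ?_⟩
  · rw [hm, Nat.cast_min]
    exact le_min ha hb.1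
  · have : m ≤ (tc - 2) / 2 := by rw [hm]; exact min_le_left _ _
    omega
  · have h1 : m ≤ hlf N / N.size - 1 := by rw [hm]; exact min_le_right _ _
    have h2 : m + 1 ≤ hlf N / N.size := by have := hb.2; omega
    exact (Nat.mul_le_mul_right _ h2).trans (Nat.div_mul_le_self _ _)
  · have : m ≤ (tc - 2) / 2 := by rw [hm]; exact min_le_left _ _
    omega

/-- **The final theorem.** -/
theorem stPm : StPm := by
  classical
  obtain ⟨n0, hmain⟩ := L0h35Ng.final_eps
  have ht : Filter.Tendsto (fun n : ℕ => Real.logb 2 (n : ℝ)) Filter.atTop Filter.atTop :=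
    (Real.tendsto_logb_atTop (by norm_num)).comp tendsto_natCast_atTop_atTop
  obtain ⟨n1, hn1⟩ := Filter.eventually_atTop.1
    (ht.eventually (Filter.eventually_ge_atTop (max (n0 : ℝ) 64)))
  refine ⟨PtrL, stP, n1, ?_⟩
  intro N hN T K r ε hK hε hε2 hr Ω _ _ M G h C hG hC hright
  have hn1' := hn1 N hN
  set l : ℝ := Real.logb 2 N with hl
  have hln0 : (n0 : ℝ) ≤ l := (le_max_left _ _).trans hn1'
  have hl64 : (64 : ℝ) ≤ l := (le_max_right _ _).trans hn1'
  have hl0 : 0 < l := by linarith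
  have hKr : (1 : ℝ) ≤ K := by exact_mod_cast hK
  have h2r : (1 : ℝ) ≤ 2 ^ r := one_le_pow₀ (by norm_num)
  have hKr2 : (1 : ℝ) ≤ K * 2 ^ r := by nlinarith
  have htl : 2 * l ^ 32 ≤ (T.card : ℝ) := by
    have h1 : l ^ 32 ≤ K * 2 ^ r * l ^ 32 := le_mul_of_one_le_left (by positivity) hKr2
    have h2 : ε * (T.card : ℝ) ≤ 1 / 2 * T.card := mul_le_mul_of_nonneg_right hε2 (Nat.cast_nonneg _)
    linarith
  have htN : T.card ≤ N := by
    have := T.card_le_univ
    rwa [Fintype.card_fin] at this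
  obtain ⟨m, hm⟩ : ∃ m, m = min ((T.card - 2) / 2) (hlf N / N.size - 1) := ⟨_, rfl⟩
  obtain ⟨hm1, hm2, hm3, hm4⟩ := pm_num hl hl64 htN htl hm
  obtain ⟨ρ, e, heT, hrd⟩ := stEmb N T m hm2 hm3
  -- the inputs
  obtain ⟨X, hX⟩ : ∃ X : (Fin m → Bool) → Fin N → Bool, ∀ y i,
      X y i = if h : ∃ j, e j = i then y h.choose else ρ i := ⟨_, fun y i => rfl⟩
  have hXrd : ∀ y, (List.ofFn (X y) ∈ PtrL ↔ List.ofFn y ∈ L0h35Ng.PadL) := by
    intro y
    unfold PtrL
    rw [Set.mem_ofPred_eq]
    have h1 : X y = fun i => if h : ∃ j, e j = i then y h.choose else ρ i := funext (hX y)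
    rw [h1, hrd y]
  have hXG : ∀ ω j y, G ω j (X y) = G ω j (X fun _ => false) := by
    intro ω j y
    refine hG ω j _ _ fun i hi => ?_
    rw [hX, hX, dif_neg, dif_neg]
    · rintro ⟨j', hj'⟩
      exact hi (hj' ▸ heT j')
    · rintro ⟨j', hj'⟩
      exact hi (hj' ▸ heT j')
  -- the circuits
  have hfix : ∀ ω i, ∃ C' : Circuit m, C'.nots = (C ω i).nots ∧ C'.depth = (C ω i).depth ∧
      C'.size = (C ω i).size ∧ ∀ y : Fin m → Bool, C'.value y =
        (C ω i).value (Fin.append (X y) fun j => G ω j (X y)) := by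
    intro ω i
    obtain ⟨C', h1, h2, h3, h4⟩ := stFix (N + M) m (C ω i)
      (Fin.append (fun i => if h : ∃ j, e j = i then Sum.inl h.choose else Sum.inr (ρ i))
        (fun j => Sum.inr (G ω j (X fun _ => false))))
    refine ⟨C', h1, h2, h3, fun y => ?_⟩
    rw [h4 y]
    congr 1
    funext k
    refine Fin.addCases (fun a => ?_) (fun b => ?_) k
    · rw [Fin.append_left, Fin.append_left, hX]
      split_ifs <;> rfl
    · rw [Fin.append_right, Fin.append_right, hXG ω b y]
      rfl
  choose C' hC1 hC2 hC3 hC4 using hfix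
  -- the parameters
  have hmn0 : n0 ≤ m := by
    have h1 : (2 * l ^ 32) / l ^ 2 ≤ (T.card : ℝ) / l ^ 2 := by gcongr
    have h2 : (2 * l ^ 32) / l ^ 2 = 2 * l ^ 30 := by field_simp
    have h3 : l ≤ l ^ 30 := le_self_pow₀ (by linarith) (by norm_num)
    have h4 : (n0 : ℝ) ≤ m := by linarith
    exact_mod_cast h4
  have htc0 : (0 : ℝ) < T.card := lt_of_lt_of_le (by positivity) htl
  have hmpos : (0 : ℝ) < m := lt_of_lt_of_le (by positivity) hm1
  have hm1' : (1 : ℝ) ≤ m := by
    have : 0 < m := by exact_mod_cast hmpos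
    exact_mod_cast this
  have hlogm : Real.logb 2 m ≤ l := by
    rw [hl]
    exact Real.logb_le_logb_of_le (by norm_num) hmpos (by exact_mod_cast hm4)
  have hlogm0 : 0 ≤ Real.logb 2 m := Real.logb_nonneg (by norm_num) hm1'
  have hr' : K * (2 : ℝ) ^ r * Real.logb 2 m ^ 30 ≤ ε * m := by
    have h1 : Real.logb 2 m ^ 30 ≤ l ^ 30 := pow_le_pow_left₀ hlogm0 hlogm 30
    have h2 : K * (2 : ℝ) ^ r * l ^ 30 ≤ ε * (T.card / l ^ 2) := by
      rw [← mul_div_assoc, le_div_iff₀ (by positivity)]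
      calc K * (2 : ℝ) ^ r * l ^ 30 * l ^ 2 = K * (2 : ℝ) ^ r * l ^ 32 := by ring
        _ ≤ _ := hr
    calc K * (2 : ℝ) ^ r * Real.logb 2 m ^ 30 ≤ K * (2 : ℝ) ^ r * l ^ 30 :=
          mul_le_mul_of_nonneg_left h1 (by positivity)
      _ ≤ ε * (T.card / l ^ 2) := h2
      _ ≤ ε * m := mul_le_mul_of_nonneg_left hm1 hε.le
  have key := hmain m hmn0 0 m K r ε (by omega) le_rfl hK hε hε2 hr' Ω
    (fun ω => h ω fun j => G ω j (X fun _ => false)) C' (fun ω i => by rw [hC1]; exact hC ω i)
    (fun y _ _ => by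
      have h1 := hright (X y)
      rw [Fintype.card_subtype] at h1
      refine h1.trans (le_of_eq ?_)
      congr 2
      refine Finset.filter_congr fun ω _ => ?_
      rw [hXrd y]
      have e1 : (fun j => G ω j (X y)) = fun j => G ω j (X fun _ => false) :=
        funext fun j => hXG ω j y
      have e2 : (fun i => (C' ω i).value y) =
          fun i => (C ω i).value (Fin.append (X y) fun j => G ω j (X y)) :=
        funext fun i => hC4 ω i y
      rw [e2, e1])
  push Not at key
  obtain ⟨ω, i, h1, h2⟩ := key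
  have hmono : (ε * T.card / (K * 2 ^ r * l ^ 2)) ^ (1 / 30 : ℝ) ≤
      (ε * m / (K * 2 ^ r)) ^ (1 / 30 : ℝ) := by
    refine Real.rpow_le_rpow (by positivity) ?_ (by norm_num)
    have e1 : ε * T.card / (K * 2 ^ r * l ^ 2) = ε * (T.card / l ^ 2) / (K * 2 ^ r) := by
      field_simp
    rw [e1]
    gcongr
  refine ⟨ω, i, ?_, ?_⟩
  · rw [← hC2 ω i]
    exact hmono.trans h2
  · rw [← hC3 ω i]
    refine le_trans ?_ h1
    exact Real.rpow_le_rpow_of_exponent_le (by norm_num) hmono

end Pool.Agent.L0h35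

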