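import Pool.Agent.L0h35.HgMain

set_option autoImplicit false

/-!
# General circuits: linear parts in one of the matrices, and quadratic parts
-/

namespace Pool.Agent.L0h35.Hg

open Finset Pool.Agent.H88R3.MM Pool.Agent.H522R2 Pool.Agent.H522R2.Circuit
open Pool.Agent.W946.Kos
open Pool.Agent.W946.Sz (lin qd IsGate poly_var poly_const poly_add poly_mul up_lt lin_gate
  D2_entry_diag D1_entry act act_card card_le_of_diag)

section restrict

variable {F : Type*} [Field F] {m : ℕ} {C : Circuit F (Vars m)}

/-- the linear part in some of the variables -/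
noncomputable def rlin {W : Type*} (C : Circuit F (Vars m)) (e : W → Vars m) (v : Fin C.nodes) :
    W → F := fun w => lin C v (e w)

theorem rlin_isLP {W : Type*} [DecidableEq W] [Nonempty W] {e : W → Vars m}
    (he : Function.Injective e) : IsLP (rlin C e) := by
  intro v
  have hb : ∀ (k : Fin C.nodes) (x : W), Before k (Sum.inl x : W ⊕ Fin C.nodes) :=
    fun k x i h => by simp at h
  have hb' : ∀ k l : Fin C.nodes, l < k → Before k (Sum.inr l : W ⊕ Fin C.nodes) :=
    fun k l h i hi => by rw [← Sum.inr_injective hi]; exact h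
  set x₀ : W := Classical.arbitrary W
  have hgate : IsGate C v → ∃ (s t : W ⊕ Fin C.nodes) (α β : F), Before v s ∧ Before v t ∧
      rlin C e v = α • sym (rlin C e) s + β • sym (rlin C e) t := by
    intro hg
    obtain ⟨a, b, ha, hb, α, β, h⟩ := lin_gate hg
    refine ⟨Sum.inr a, Sum.inr b, α, β, hb' _ _ ha, hb' _ _ hb, ?_⟩
    funext w
    exact congrFun h (e w)
  cases hg : C.gate v with
  | var z =>
    by_cases hz : ∃ w, e w = z
    · obtain ⟨w, hw⟩ := hz
      refine ⟨Sum.inl w, Sum.inl w, 1, 0, hb _ _, hb _ _, ?_⟩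
      rw [one_smul, zero_smul, add_zero]
      funext w'
      change lin C v (e w') = (Pi.single w 1 : W → F) w'
      rw [lin_var hg, ← hw, Pi.single_apply, Pi.single_apply]
      by_cases h : w' = w
      · rw [if_pos h, if_pos (by rw [h])]
      · rw [if_neg h, if_neg (fun h' => h (he h'))]
    · refine ⟨Sum.inl x₀, Sum.inl x₀, 0, 0, hb _ _, hb _ _, ?_⟩
      rw [zero_smul, add_zero]
      funext w'
      change lin C v (e w') = 0
      rw [lin_var hg, Pi.single_apply, if_neg (fun h => hz ⟨w', h⟩)]
  | const c =>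
    refine ⟨Sum.inl x₀, Sum.inl x₀, 0, 0, hb _ _, hb _ _, ?_⟩
    rw [zero_smul, add_zero]
    funext w'
    change lin C v (e w') = 0
    rw [lin_const hg]
    rfl
  | add i j => exact hgate (Or.inl ⟨i, j, hg⟩)
  | mul i j => exact hgate (Or.inr ⟨i, j, hg⟩)

open Classical in
theorem rlin_dist {W : Type*} [Fintype W] {e : W → Vars m} (he : Function.Injective e)
    (hC : ∀ i j, ∃ k : Fin C.nodes, C.poly k = entry F m i j)
    (X : W → F) (hX : X ≠ 0) :
    m ≤ (univ.filter fun g : {g : Fin C.nodes // C.IsNonscalar g} × Bool =>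
      dotProduct (sym (rlin C e) (Sum.inr (if g.2 then (inp C g.1.1).1 else (inp C g.1.1).2) :
        W ⊕ Fin C.nodes)) X ≠ 0).card := by
  have hX' : Function.extend e X 0 ≠ 0 := by
    obtain ⟨w, hw⟩ := Function.ne_iff.1 hX
    intro h
    apply hw
    have := congrFun h (e w)
    rw [he.extend_apply] at this
    exact this
  have hdot : ∀ u : Fin C.nodes, dotProduct (lin C u) (Function.extend e X 0) =
      dotProduct (rlin C e u) X := by
    intro u
    unfold dotProduct
    symm
    refine Fintype.sum_of_injective e he _ _ (fun z hz => ?_) fun w => ?_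
    · rw [Function.extend_apply' _ _ _ (fun h => hz h), Pi.zero_apply, mul_zero]
    · rw [he.extend_apply]
      rfl
  refine (act_card C hC hX').trans ?_
  let f : {g : Fin C.nodes // C.IsNonscalar g} × Bool → Fin C.nodes := fun g => g.1.1
  refine (card_le_card (t := (univ.filter fun g : {g : Fin C.nodes // C.IsNonscalar g} × Bool =>
      dotProduct (sym (rlin C e) (Sum.inr (if g.2 then (inp C g.1.1).1 else (inp C g.1.1).2) :
        W ⊕ Fin C.nodes)) X ≠ 0).image f) ?_).trans card_image_le
  intro g hg
  unfold act at hg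
  rw [mem_filter] at hg
  rw [mem_image]
  rcases hg.2.2 with h | h
  · refine ⟨(⟨g, hg.2.1⟩, true), mem_filter.2 ⟨mem_univ _, ?_⟩, rfl⟩
    rw [if_pos rfl]
    rw [hdot] at h
    exact h
  · refine ⟨(⟨g, hg.2.1⟩, false), mem_filter.2 ⟨mem_univ _, ?_⟩, rfl⟩
    rw [if_neg (by simp)]
    rw [hdot] at h
    exact h

end restrict

section nodes

variable {F V : Type*} [Field F] {C : Circuit F V}

/-- the node `v` is an input of the gate `u` -/
def IsInput (C : Circuit F V) (u v : Fin C.nodes) : Prop :=
  ∃ i j : Fin (u : ℕ), (C.gate u = Gate.add i j ∨ C.gate u = Gate.mul i j) ∧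
    (v = C.up u i ∨ v = C.up u j)

/-- the quadratic part of a node in terms of earlier quadratic parts -/
structure GDesc (C : Circuit F V) (u : Fin C.nodes) (M : Fin C.nodes → F) (P : V → V → F) :
    Prop where
  lt : ∀ v, M v ≠ 0 → v < u
  ne : ∀ v, M v ≠ 0 → qd C v ≠ 0
  eq : qd C u = ∑ v, M v • qd C v + P
  input : ∀ v, M v ≠ 0 → IsInput C u v
  prod : P = 0 ∨ (C.IsNonscalar u ∧
    ∀ x y, P x y = lin C (inp C u).1 x * lin C (inp C u).2 y +
      lin C (inp C u).1 y * lin C (inp C u).2 x)

theorem exists_gdesc (u : Fin C.nodes) :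
    ∃ (M : Fin C.nodes → F) (P : V → V → F), GDesc C u M P := by
  classical
  have hsum : ∀ (a b : Fin C.nodes) (α β : F),
      ∑ v, ((if v = a ∧ qd C v ≠ 0 then α else 0) + (if v = b ∧ qd C v ≠ 0 then β else 0)) •
        qd C v = α • qd C a + β • qd C b := by
    intro a b α β
    simp only [add_smul, sum_add_distrib]
    have h1 : ∀ (k : Fin C.nodes) (γ : F), ∑ v, (if v = k ∧ qd C v ≠ 0 then γ else 0) • qd C v =
        γ • qd C k := by
      intro k γ
      rw [Finset.sum_eq_single k]
      · by_cases h : qd C k = 0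
        · rw [h, smul_zero, smul_zero]
        · rw [if_pos ⟨rfl, h⟩]
      · intro v _ hv
        rw [if_neg (fun h' => hv h'.1), zero_smul]
      · intro h
        exact absurd (mem_univ _) h
    rw [h1, h1]
  have hne : ∀ (a b v : Fin C.nodes) (α β : F),
      (if v = a ∧ qd C v ≠ 0 then α else 0) + (if v = b ∧ qd C v ≠ 0 then β else 0) ≠ 0 →
        (v = a ∨ v = b) ∧ qd C v ≠ 0 := by
    intro a b v α β h
    by_cases h1 : v = a ∧ qd C v ≠ 0
    · exact ⟨Or.inl h1.1, h1.2⟩
    · by_cases h2 : v = b ∧ qd C v ≠ 0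
      · exact ⟨Or.inr h2.1, h2.2⟩
      · rw [if_neg h1, if_neg h2, add_zero] at h
        exact absurd rfl h
  cases hg : C.gate u with
  | var z =>
    refine ⟨0, 0, fun v h => absurd rfl h, fun v h => absurd rfl h, ?_,
      fun v h => absurd rfl h, Or.inl rfl⟩
    funext x y
    simp [qd, poly_var hg, D2_X]
  | const c =>
    refine ⟨0, 0, fun v h => absurd rfl h, fun v h => absurd rfl h, ?_,
      fun v h => absurd rfl h, Or.inl rfl⟩
    funext x y
    simp [qd, poly_const hg, D2_C]
  | add i j =>
    refine ⟨fun v => (if v = C.up u i ∧ qd C v ≠ 0 then 1 else 0) +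
      (if v = C.up u j ∧ qd C v ≠ 0 then 1 else 0), 0, ?_, ?_, ?_, ?_, Or.inl rfl⟩
    · intro v hv
      rcases (hne _ _ _ _ _ hv).1 with h | h
      · rw [h]; exact up_lt u i
      · rw [h]; exact up_lt u j
    · exact fun v hv => (hne _ _ _ _ _ hv).2
    · rw [add_zero, hsum, one_smul, one_smul]
      funext x y
      simp only [qd, poly_add hg, D2_add, Pi.add_apply]
    · exact fun v hv => ⟨i, j, Or.inl hg, (hne _ _ _ _ _ hv).1⟩
  | mul i j =>
    set a := C.up u i with ha
    set b := C.up u j with hb
    refine ⟨fun v => (if v = a ∧ qd C v ≠ 0 then MvPolynomial.constantCoeff (C.poly b) else 0) +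
      (if v = b ∧ qd C v ≠ 0 then MvPolynomial.constantCoeff (C.poly a) else 0),
      fun x y => lin C a x * lin C b y + lin C a y * lin C b x, ?_, ?_, ?_, ?_, ?_⟩
    · intro v hv
      rcases (hne _ _ _ _ _ hv).1 with h | h
      · rw [h]; exact up_lt u i
      · rw [h]; exact up_lt u j
    · exact fun v hv => (hne _ _ _ _ _ hv).2
    · rw [hsum]
      funext x y
      simp only [qd, lin, poly_mul hg, D2_mul, Pi.add_apply, Pi.smul_apply, smul_eq_mul]
      ring
    · exact fun v hv => ⟨i, j, Or.inr hg, (hne _ _ _ _ _ hv).1⟩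
    · by_cases hns : C.IsNonscalar u
      · right
        refine ⟨hns, fun x y => ?_⟩
        rw [inp_mul hg]
      · left
        have h3 : (∃ c : F, C.poly a = MvPolynomial.C c) ∨
            ∃ c : F, C.poly b = MvPolynomial.C c := by
          by_contra hcon
          push Not at hcon
          exact hns ⟨i, j, hg, hcon.1, hcon.2⟩
        funext x y
        rcases h3 with ⟨c, hc⟩ | ⟨c, hc⟩
        · have h4 : ∀ x, lin C a x = 0 := fun x => by simp only [lin, hc, D1_C]
          rw [h4, h4]
          simp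
        · have h4 : ∀ x, lin C b x = 0 := fun x => by simp only [lin, hc, D1_C]
          rw [h4, h4]
          simp

end nodes

end Pool.Agent.L0h35.Hg
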