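import Pool.Agent.L0h35.RuLP

set_option autoImplicit false

/-!
# The asymptotic form of the bound for programs with many tests
-/

namespace Pool.Agent.L0h35.Hg

open Finset

theorem num2 (δ : ℝ) (hδ : 0 < δ) : ∃ (η : ℝ) (Δ r : ℕ), 0 < η ∧
    ∀ D L G : ℝ, 0 < D → 0 ≤ L → L ≤ 3 * D → G ≤ δ / 48 * D →
      (2 : ℝ) ^ r * (3 * (D - (3 * L / (Δ + 1) + G)) - (1 + η) * L) ≤ 3 * D →
        (3 - δ) * D ≤ L := by
  obtain ⟨Δ, hΔ⟩ := exists_nat_gt (432 / δ)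
  obtain ⟨r, hr⟩ := pow_unbounded_of_one_lt (6 / δ) (show (1 : ℝ) < 2 by norm_num)
  have hΔ0 : (0 : ℝ) < Δ := lt_trans (by positivity) hΔ
  refine ⟨δ / 12, Δ, r, by positivity, ?_⟩
  intro D L G hD hL hL3 hG h
  by_contra hcon
  push Not at hcon
  have h1 : 3 * L / (Δ + 1) ≤ δ / 48 * D := by
    rw [div_le_iff₀ (by positivity)]
    have h2 : 432 < Δ * δ := by
      rw [div_lt_iff₀ hδ] at hΔ
      exact hΔ
    nlinarith [mul_pos hδ hD]
  have h2 : δ / 12 * L ≤ δ / 4 * D := by nlinarith [mul_pos hδ hD]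
  set Y : ℝ := 3 * (D - (3 * L / (Δ + 1) + G)) - (1 + δ / 12) * L with hY
  have h3 : 5 / 8 * δ * D < Y := by
    rw [hY]
    nlinarith
  have h4 : (6 / δ) * Y ≤ 3 * D := by
    refine le_trans ?_ h
    exact mul_le_mul_of_nonneg_right hr.le (le_trans (by positivity) h3.le)
  have h5 : (6 / δ) * (5 / 8 * δ * D) < 3 * D := lt_of_lt_of_le
    (mul_lt_mul_of_pos_left h3 (by positivity)) h4
  have h6 : (6 / δ) * (5 / 8 * δ * D) = 15 / 4 * D := by
    field_simp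
    ring
  rw [h6] at h5
  linarith

theorem pick3 {η : ℝ} (hη : 0 < η) (K : ℕ) (hK : 0 < K) : ∃ (C : ℝ) (m₀ : ℕ), 0 < C ∧
    ∀ m : ℕ, m₀ ≤ m → 1 ≤ Real.log m ∧ ∃ i Γ : ℕ, 1 ≤ i ∧ 0 < Γ ∧
      3 * (m : ℝ) ^ 2 ≤ (1 + η) ^ i ∧ 2 * (Γ * (K * (4 * i + 3))) ≤ m ∧
      (m : ℝ) ≤ C * Real.log m * (Γ + 1) := by
  set l := Real.log (1 + η) with hl
  have hl0 : 0 < l := Real.log_pos (by linarith)
  set C₂ : ℝ := K * (12 / l + 7) with hC₂
  have hKr : (0 : ℝ) < K := by exact_mod_cast hK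
  have hC0 : 0 < C₂ := by positivity
  -- `log m / m` is small
  have h1 : ∀ᶠ m : ℕ in Filter.atTop, 2 * C₂ * Real.log m ≤ m := by
    have h2 := (Real.isLittleO_log_id_atTop.comp_tendsto tendsto_natCast_atTop_atTop)
    have h3 := h2.bound (show (0 : ℝ) < 1 / (2 * C₂) by positivity)
    filter_upwards [h3, Filter.eventually_ge_atTop 1] with m hm hm1
    simp only [Function.comp_apply, id_eq, Real.norm_natCast] at hm
    have h4 : Real.log m ≤ ‖Real.log m‖ := le_abs_self _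
    have h5 : Real.log m ≤ 1 / (2 * C₂) * m := h4.trans hm
    calc 2 * C₂ * Real.log m ≤ 2 * C₂ * (1 / (2 * C₂) * m) :=
          mul_le_mul_of_nonneg_left h5 (by positivity)
      _ = m := by field_simp
  obtain ⟨m₁, hm₁⟩ := Filter.eventually_atTop.1 h1
  refine ⟨2 * C₂, max m₁ 3, by positivity, fun m hm => ?_⟩
  have hm3 : (3 : ℝ) ≤ m := by exact_mod_cast (le_max_right m₁ 3).trans hm
  have hm0 : (0 : ℝ) < m := by linarith
  have hlog : 1 ≤ Real.log m := by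
    rw [Real.le_log_iff_exp_le hm0]
    have := Real.exp_one_lt_d9
    linarith
  refine ⟨hlog, ⌈Real.log (3 * (m : ℝ) ^ 2) / l⌉₊, ⌊(m : ℝ) / (2 * C₂ * Real.log m)⌋₊, ?_, ?_, ?_,
    ?_, ?_⟩
  · rw [Nat.one_le_ceil_iff]
    refine div_pos (Real.log_pos ?_) hl0
    nlinarith
  · rw [Nat.floor_pos, le_div_iff₀ (by positivity), one_mul]
    exact hm₁ m ((le_max_left _ _).trans hm)
  · have h2 := Nat.le_ceil (Real.log (3 * (m : ℝ) ^ 2) / l)
    rw [div_le_iff₀ hl0, hl, ← Real.log_pow] at h2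
    exact (Real.log_le_log_iff (by positivity) (by positivity)).1 h2
  · set i := ⌈Real.log (3 * (m : ℝ) ^ 2) / l⌉₊ with hi
    have h2 : (i : ℝ) < Real.log (3 * (m : ℝ) ^ 2) / l + 1 :=
      Nat.ceil_lt_add_one (div_nonneg (Real.log_nonneg (by nlinarith)) hl0.le)
    have h3 : Real.log (3 * (m : ℝ) ^ 2) ≤ 3 * Real.log m := by
      have h4 : Real.log (3 * (m : ℝ) ^ 2) ≤ Real.log ((m : ℝ) ^ 3) := by
        refine Real.log_le_log (by positivity) ?_
        nlinarith [sq_nonneg (m : ℝ)]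
      rw [Real.log_pow] at h4
      exact_mod_cast h4
    have h5 : (i : ℝ) ≤ (3 / l + 1) * Real.log m := by
      have h6 : Real.log (3 * (m : ℝ) ^ 2) / l ≤ 3 * Real.log m / l :=
        div_le_div_of_nonneg_right h3 hl0.le
      have h7 : 3 * Real.log m / l = 3 / l * Real.log m := by ring
      nlinarith
    have h6 : (K : ℝ) * (4 * i + 3) ≤ C₂ * Real.log m := by
      rw [hC₂, mul_assoc]
      refine mul_le_mul_of_nonneg_left ?_ hKr.le
      have h8 : 12 / l = 4 * (3 / l) := by ring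
      rw [h8]
      nlinarith
    have h7 : ((⌊(m : ℝ) / (2 * C₂ * Real.log m)⌋₊ : ℕ) : ℝ) ≤ (m : ℝ) / (2 * C₂ * Real.log m) :=
      Nat.floor_le (by positivity)
    have h8 : (2 : ℝ) * ((⌊(m : ℝ) / (2 * C₂ * Real.log m)⌋₊ : ℕ) * (K * (4 * i + 3))) ≤ m := by
      calc (2 : ℝ) * ((⌊(m : ℝ) / (2 * C₂ * Real.log m)⌋₊ : ℕ) * (K * (4 * i + 3)))
          ≤ 2 * ((m : ℝ) / (2 * C₂ * Real.log m) * (C₂ * Real.log m)) := by
            refine mul_le_mul_of_nonneg_left ?_ (by norm_num)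
            exact mul_le_mul h7 h6 (by positivity) (by positivity)
        _ = m := by
            have hlog0 : Real.log m ≠ 0 := by linarith
            field_simp
    exact_mod_cast h8
  · have h2 := Nat.lt_floor_add_one ((m : ℝ) / (2 * C₂ * Real.log m))
    rw [div_lt_iff₀ (by positivity)] at h2
    refine h2.le.trans (le_of_eq ?_)
    ring

universe u₁ u₂ u₃ u₄

open Classical in
/-- **A program with few proper steps needs very many tests.** -/
theorem asymp2 (δ : ℝ) (hδ : 0 < δ) : ∃ (c : ℝ) (m₀ : ℕ), 0 < c ∧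
    ∀ (F : Type u₁) (V : Type u₂) (ι : Type u₃) (G : Type u₄) [Field F] [DecidableEq V]
      [Fintype V] [Nonempty V] [LinearOrder ι] [Fintype ι] [Fintype G] (ψ : ι → V → F)
      (τ : G → V ⊕ ι) (m m' : ℕ),
      m₀ ≤ m → m ≤ 2 * m' → IsLP ψ →
      (∀ X : V → F, X ≠ 0 →
        m' ≤ (univ.filter fun g => dotProduct (sym ψ (τ g)) X ≠ 0).card) →
      Fintype.card V = m ^ 2 → (Fintype.card G : ℝ) ≤ c * (m : ℝ) ^ 3 / Real.log m →
      (3 - δ) * (m : ℝ) ^ 2 ≤ (LL ψ).card := by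
  obtain ⟨η, Δ, r, hη, hnum⟩ := num2 δ hδ
  obtain ⟨C, m₁, hC, hpick⟩ := pick3 hη ((1 + Δ) ^ r) (by positivity)
  refine ⟨δ / (48 * C), max m₁ 1, by positivity, ?_⟩
  intro F V ι G _ _ _ _ _ _ _ ψ τ m m' hm hmm' hψ hdist hV hG
  obtain ⟨hlog, i, Γ, hi, hΓ, hp, hT, hC'⟩ := hpick m ((le_max_left _ _).trans hm)
  have hm0 : (0 : ℝ) < m := by exact_mod_cast (le_max_right m₁ 1).trans hm
  have hM0 : (0 : ℝ) < (m : ℝ) ^ 2 := by positivity
  by_contra hcon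
  push Not at hcon
  have hL3 : ((LL ψ).card : ℝ) ≤ 3 * (m : ℝ) ^ 2 := by nlinarith
  have h1 : Γ * ((1 + Δ) ^ r * (4 * i + 3)) ≤ m' := by omega
  have h2 := lp_bound2 (Δ := Δ) hψ τ hη hdist hΓ hi (hL3.trans hp) (r := r) h1
  have hVr : (Fintype.card V : ℝ) = (m : ℝ) ^ 2 := by
    rw [hV]
    push_cast
    ring
  rw [hVr] at h2
  have h3 : (Fintype.card G : ℝ) / (Γ + 1) ≤ δ / 48 * (m : ℝ) ^ 2 := by
    rw [div_le_iff₀ (by positivity)]
    refine hG.trans ?_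
    rw [div_le_iff₀ (by linarith)]
    have h4 : δ / (48 * C) * (m : ℝ) ^ 3 = δ / (48 * C) * (m : ℝ) ^ 2 * m := by ring
    rw [h4]
    calc δ / (48 * C) * (m : ℝ) ^ 2 * m ≤ δ / (48 * C) * (m : ℝ) ^ 2 *
          (C * Real.log m * (Γ + 1)) := mul_le_mul_of_nonneg_left hC' (by positivity)
      _ = δ / 48 * (m : ℝ) ^ 2 * (Γ + 1) * Real.log m := by
          field_simp
  have h4 := hnum _ _ _ hM0 (Nat.cast_nonneg _) hL3 h3 h2
  exact absurd h4 (not_le.2 hcon)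

end Pool.Agent.L0h35.Hg
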