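import Pool.Agent.L0h35.HgRev
import Pool.Agent.L0h35.RuCirc
import Pool.Agent.L0h35.RuNum

set_option autoImplicit false

/-!
# The transposed computation of an arbitrary circuit for matrix multiplication
-/

namespace Pool.Agent.L0h35.Hg

open Finset Pool.Agent.H88R3.MM Pool.Agent.H522R2 Pool.Agent.H522R2.Circuit
open Pool.Agent.W946.Kos
open Pool.Agent.W946.Sz (lin qd D2_entry_diag card_le_of_diag)

section columns

variable {F I : Type*} [Field F] [DecidableEq I] [Fintype I] {n : ℕ}
variable {M : Fin n → Fin n → F} {lam zeta : Fin n → I → F}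

open Classical in
/-- The number of proper steps of the transposed program, in terms of the columns. -/
theorem card_lead_col (hM : ∀ u v, M u v ≠ 0 → v < u)
    (hlam : ∀ v, lam v = zeta v + ∑ u, M u v • lam u)
    (hzeta : ∀ v, zeta v = 0 ∨ ∃ p : I, zeta v = Pi.single p 1)
    (hz : (univ.filter fun v => zeta v ≠ 0).card ≤ Fintype.card I) :
    (LL (prog M lam zeta)).card + (univ.filter fun v => lam v ≠ 0).card ≤
      ∑ v ∈ univ.filter (fun v => lam v ≠ 0), (univ.filter fun u => M u v ≠ 0).card +
        Fintype.card I := by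
  set U : Finset (Fin n) := univ.filter fun v => lam v ≠ 0 with hU
  -- leaders at a node
  let A : Fin n → Finset (Fin n) := fun v => univ.filter fun u => Lead (prog M lam zeta) (ix v u)
  have h1 : (LL (prog M lam zeta)).card ≤ ∑ v ∈ U, (A v).card := by
    have h2 : LL (prog M lam zeta) ⊆ U.biUnion fun v => (A v).image (ix v) := by
      intro k hk
      obtain ⟨v, u, rfl⟩ := exists_ix k
      have h3 : Lead (prog M lam zeta) (ix v u) := (mem_filter.1 hk).2
      refine mem_biUnion.2 ⟨v, mem_filter.2 ⟨mem_univ _, (lead_imp hM hlam hzeta h3).1⟩, ?_⟩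
      exact mem_image_of_mem _ (mem_filter.2 ⟨mem_univ _, h3⟩)
    refine (card_le_card h2).trans (card_biUnion_le.trans ?_)
    exact sum_le_sum fun v _ => card_image_le
  have h2 : ∀ v ∈ U, (A v).card + 1 ≤ (Inc M lam zeta v).card := by
    intro v hv
    have hv0 : lam v ≠ 0 := (mem_filter.1 hv).2
    have hne : (Inc M lam zeta v).Nonempty := by
      rw [nonempty_iff_ne_empty]
      intro h0
      apply hv0
      have h3 : ∀ u, u ∉ Inc M lam zeta v := fun u => by rw [h0]; exact notMem_empty u
      rw [hlam v]
      have h4 : zeta v = 0 := by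
        have := h3 v
        rw [mem_Inc, not_or, not_and_or, not_and_or, not_not, not_not, not_not] at this
        exact this.2.resolve_left (fun h => h rfl)
      rw [h4, zero_add]
      refine sum_eq_zero fun u _ => ?_
      have := h3 u
      rw [mem_Inc, not_or, not_and_or, not_not, not_not] at this
      rcases this.1 with h5 | h5
      · rw [h5, zero_smul]
      · rw [h5, smul_zero]
    have h3 : A v ⊆ (Inc M lam zeta v).erase ((Inc M lam zeta v).max' hne) := by
      intro u hu
      obtain ⟨_, h4, w, hw, h5⟩ := lead_imp hM hlam hzeta (mem_filter.1 hu).2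
      rw [mem_erase]
      refine ⟨fun h6 => ?_, h4⟩
      have h7 := le_max' _ w h5
      rw [← h6] at h7
      exact absurd hw (not_lt.2 h7)
    have h4 := card_le_card h3
    have h5 := card_erase_add_one (max'_mem _ hne)
    omega
  have h3 : ∑ v ∈ U, (Inc M lam zeta v).card ≤
      ∑ v ∈ U, (univ.filter fun u => M u v ≠ 0).card + Fintype.card I := by
    have h4 : ∀ v, (Inc M lam zeta v).card ≤ (univ.filter fun u => M u v ≠ 0).card +
        (if zeta v ≠ 0 then 1 else 0) := by
      intro v
      have h5 : Inc M lam zeta v ⊆ (univ.filter fun u => M u v ≠ 0) ∪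
          (if zeta v ≠ 0 then {v} else ∅) := by
        intro u hu
        rw [mem_Inc] at hu
        rw [mem_union]
        rcases hu with h6 | h6
        · exact Or.inl (mem_filter.2 ⟨mem_univ _, h6.1⟩)
        · right
          rw [if_pos h6.2, mem_singleton]
          exact h6.1
      refine (card_le_card h5).trans ((card_union_le _ _).trans ?_)
      refine Nat.add_le_add_left ?_ _
      split_ifs <;> simp
    refine (sum_le_sum fun v _ => h4 v).trans ?_
    rw [sum_add_distrib]
    refine Nat.add_le_add_left ?_ _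
    refine (sum_le_sum_of_subset (subset_univ _)).trans ?_
    rw [← card_filter]
    exact hz
  have h4 : ∑ v ∈ U, (A v).card + U.card ≤ ∑ v ∈ U, (Inc M lam zeta v).card := by
    rw [card_eq_sum_ones, ← sum_add_distrib]
    exact sum_le_sum h2
  omega

end columns

variable {F : Type*} [Field F] {m : ℕ}

/-- the data of the transposed computation -/
structure GAdj (C : Circuit F (Vars m)) where
  M : Fin C.nodes → Fin C.nodes → F
  P : Fin C.nodes → Vars m → Vars m → F
  desc : ∀ u, GDesc C u (M u) (P u)
  o : Fin m × Fin m → Fin C.nodes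
  ho : ∀ p, C.poly (o p) = entry F m p.1 p.2
  lam : Fin C.nodes → Fin m × Fin m → F
  zeta : Fin C.nodes → Fin m × Fin m → F
  hzeta : ∀ v p, zeta v p = if o p = v then 1 else 0
  hlam : ∀ v, lam v = zeta v + ∑ u, M u v • lam u

theorem exists_gadj {C : Circuit F (Vars m)}
    (hC : ∀ i j, ∃ k : Fin C.nodes, C.poly k = entry F m i j) : Nonempty (GAdj C) := by
  classical
  choose M P hd using exists_gdesc (C := C)
  choose out hout using hC
  obtain ⟨Λ, hΛ⟩ := exists_adj (F := F) (I := Fin m × Fin m) (Matrix.of M)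
    (fun u v h => (hd u).lt v h) (Matrix.of fun p v => if out p.1 p.2 = v then 1 else 0)
  refine ⟨⟨M, P, hd, fun p => out p.1 p.2, fun p => hout p.1 p.2, fun v p => Λ p v,
    fun v p => if out p.1 p.2 = v then 1 else 0, fun v p => rfl, fun v => ?_⟩⟩
  funext p
  have h1 := congrFun (congrFun hΛ p) v
  rw [Matrix.add_apply, Matrix.mul_apply] at h1
  rw [h1, Pi.add_apply, Finset.sum_apply]
  congr 1
  refine sum_congr rfl fun u _ => ?_
  rw [Pi.smul_apply, smul_eq_mul, mul_comm]
  rfl

namespace GAdj

variable {C : Circuit F (Vars m)} (A : GAdj C)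

theorem o_inj : Function.Injective A.o := by
  intro p p' h
  have h3 : entry F m p.1 p.2 = entry F m p'.1 p'.2 := by rw [← A.ho, ← A.ho, h]
  have h4 := D2_entry_diag (F := F) p.1 p.2 p.1 p.2 p.1
  rw [h3, D2_entry_diag, if_pos rfl] at h4
  by_contra hne
  rw [if_neg hne] at h4
  exact zero_ne_one h4

theorem qd_out (p : Fin m × Fin m) : qd C (A.o p) ≠ 0 := by
  intro h
  have h4 := D2_entry_diag (F := F) p.1 p.2 p.1 p.2 p.1
  rw [if_pos rfl, ← A.ho p] at h4
  have h5 := congrFun (congrFun h (Sum.inl (p.1, p.1))) (Sum.inr (p.1, p.2))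
  rw [qd, h4] at h5
  exact one_ne_zero h5

theorem zeta_or (v : Fin C.nodes) : A.zeta v = 0 ∨ ∃ p, A.zeta v = Pi.single p 1 := by
  by_cases h : ∃ p, A.o p = v
  · obtain ⟨p, hp⟩ := h
    refine Or.inr ⟨p, ?_⟩
    funext p'
    rw [A.hzeta, Pi.single_apply, ← hp]
    by_cases h : p' = p
    · rw [if_pos h, if_pos (by rw [h])]
    · rw [if_neg h, if_neg (fun h' => h (A.o_inj h'))]
  · left
    push Not at h
    funext p
    rw [A.hzeta, if_neg (h p)]
    rfl

open Classical in
theorem card_zeta : (univ.filter fun v => A.zeta v ≠ 0).card ≤ Fintype.card (Fin m × Fin m) := by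
  refine (card_le_card (t := univ.image A.o) ?_).trans card_image_le
  intro v hv
  rw [mem_filter] at hv
  rw [mem_image]
  by_contra hcon
  push Not at hcon
  apply hv.2
  funext p
  rw [A.hzeta, if_neg (hcon p (mem_univ _))]
  rfl

theorem qd_ne {v : Fin C.nodes} (h : A.lam v ≠ 0) : qd C v ≠ 0 := by
  intro h0
  apply h
  rw [A.hlam v]
  have h1 : A.zeta v = 0 := by
    funext p
    rw [A.hzeta, if_neg]
    · rfl
    · intro h2
      exact A.qd_out p (by rw [h2]; exact h0)
  rw [h1, zero_add]
  refine sum_eq_zero fun u _ => ?_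
  have h2 : A.M u v = 0 := by
    by_contra h3
    exact (A.desc u).ne v h3 h0
  rw [h2, zero_smul]

/-- the outputs in terms of the products -/
theorem entry_eq (p : Fin m × Fin m) (x y : Vars m) :
    D2 x y (entry F m p.1 p.2) = ∑ g, A.lam g p * A.P g x y := by
  have h1 : ∀ g, A.P g x y = qd C g x y - ∑ v, A.M g v * qd C v x y := by
    intro g
    have h2 := congrFun (congrFun (A.desc g).eq x) y
    rw [Pi.add_apply, Pi.add_apply, Finset.sum_apply, Finset.sum_apply] at h2
    rw [h2]
    simp only [Pi.smul_apply, smul_eq_mul]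
    ring
  have h2 : ∀ v, A.lam v p - ∑ g, A.M g v * A.lam g p = A.zeta v p := by
    intro v
    have h3 := congrFun (A.hlam v) p
    rw [Pi.add_apply, Finset.sum_apply] at h3
    rw [h3]
    simp only [Pi.smul_apply, smul_eq_mul]
    ring
  have h3 : ∑ g, A.lam g p * A.P g x y =
      ∑ v, (A.lam v p - ∑ g, A.M g v * A.lam g p) * qd C v x y := by
    simp only [h1, mul_sub, sub_mul, sum_sub_distrib, mul_sum, sum_mul]
    congr 1
    rw [sum_comm]
    exact sum_congr rfl fun v _ => sum_congr rfl fun g _ => by ring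
  rw [h3]
  simp only [h2, A.hzeta, ite_mul, one_mul, zero_mul, sum_ite_eq, mem_univ, if_true]
  rw [← A.ho p]
  rfl

/-- the products which are used -/
abbrev Used : Type := {g : Fin C.nodes // A.lam g ≠ 0 ∧ A.P g ≠ 0}

theorem prod_eq (g : A.Used) (x y : Vars m) :
    A.P g.1 x y = lin C (inp C g.1).1 x * lin C (inp C g.1).2 y +
      lin C (inp C g.1).1 y * lin C (inp C g.1).2 x := by
  rcases (A.desc g.1).prod with h | h
  · exact absurd h g.2.2
  · exact h.2 x y

open Classical in
theorem card_used : Fintype.card A.Used ≤ C.nonscalarCount := by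
  rw [Circuit.nonscalarCount, Nat.card_eq_fintype_card]
  refine Fintype.card_le_of_injective (fun g : A.Used =>
    (⟨g.1, ((A.desc g.1).prod.resolve_left g.2.2).1⟩ : {k : Fin C.nodes // C.IsNonscalar k})) ?_
  intro g g' h
  have h' := Subtype.ext_iff.1 h
  exact Subtype.ext h'

open Classical in
theorem entry_used (p : Fin m × Fin m) (x y : Vars m) :
    D2 x y (entry F m p.1 p.2) = ∑ g : A.Used, A.lam g.1 p * A.P g.1 x y := by
  rw [A.entry_eq, ← Finset.sum_filter_of_ne (p := fun g => A.lam g ≠ 0 ∧ A.P g ≠ 0)]
  · exact Finset.sum_subtype _ (fun g => by simp) _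
  · intro g _ hg
    refine ⟨fun h => hg ?_, fun h => hg ?_⟩
    · rw [h, Pi.zero_apply, zero_mul]
    · rw [h, Pi.zero_apply, Pi.zero_apply, mul_zero]

open Classical in
/-- a combination of the outputs contains many products -/
theorem dist (X : Fin m × Fin m → F) (hX : X ≠ 0) :
    m ≤ 2 * (univ.filter fun g : A.Used => dotProduct (A.lam g.1) X ≠ 0).card := by
  obtain ⟨p₀, hp₀⟩ := Function.ne_iff.1 hX
  rw [Pi.zero_apply] at hp₀
  set S : Finset A.Used := univ.filter fun g : A.Used => dotProduct (A.lam g.1) X ≠ 0 with hS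
  set G : Finset (Vars m → F) := (S.image fun g => lin C (inp C g.1).1) ∪
    (S.image fun g => lin C (inp C g.1).2) with hG
  have hGcard : G.card ≤ 2 * S.card := by
    refine (card_union_le _ _).trans ?_
    have h1 : (S.image fun g => lin C (inp C g.1).1).card ≤ S.card := card_image_le
    have h2 : (S.image fun g => lin C (inp C g.1).2).card ≤ S.card := card_image_le
    omega
  refine le_trans ?_ hGcard
  refine (Fintype.card_fin m).symm.le.trans (card_le_of_diag (F := F)
    (fun k : Fin m => (fun y => ∑ p, X p * D2 (Sum.inl (p₀.1, k)) y (entry F m p.1 p.2) :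
      Vars m → F))
    (fun l => LinearMap.proj (Sum.inr (l, p₀.2))) hp₀ (fun k l => ?_) G fun k => ?_)
  · rw [LinearMap.proj_apply]
    simp only [D2_entry]
    rw [Finset.sum_eq_single p₀]
    · simp only [symM, Matrix.of_apply]
      by_cases h : k = l
      · rw [if_pos h, if_pos h.symm, Matrix.single_apply, if_pos ⟨rfl, rfl⟩, mul_one]
      · rw [if_neg h, if_neg (fun h' => h h'.symm), mul_zero]
    · intro p _ hne
      simp only [symM, Matrix.of_apply]
      by_cases h : k = l
      · rw [if_pos h, Matrix.single_apply, if_neg, mul_zero]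
        rintro ⟨h1, h2⟩
        exact hne (Prod.ext h1 h2)
      · rw [if_neg h, mul_zero]
    · intro h
      exact absurd (mem_univ _) h
  · have h1 : (fun y => ∑ p, X p * D2 (Sum.inl (p₀.1, k)) y (entry F m p.1 p.2) : Vars m → F) =
        ∑ g : A.Used, dotProduct (A.lam g.1) X •
          ((lin C (inp C g.1).1 (Sum.inl (p₀.1, k))) • lin C (inp C g.1).2 +
            (lin C (inp C g.1).2 (Sum.inl (p₀.1, k))) • lin C (inp C g.1).1) := by
      funext y
      simp only [A.entry_used, mul_sum, Finset.sum_apply, Pi.smul_apply, Pi.add_apply,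
        smul_eq_mul]
      rw [sum_comm]
      refine sum_congr rfl fun g _ => ?_
      rw [A.prod_eq g, dotProduct, sum_mul]
      exact sum_congr rfl fun p _ => by ring
    rw [h1]
    refine Submodule.sum_mem _ fun g _ => ?_
    by_cases hg : dotProduct (A.lam g.1) X = 0
    · rw [hg, zero_smul]
      exact Submodule.zero_mem _
    · have hgS : g ∈ S := mem_filter.2 ⟨mem_univ _, hg⟩
      refine Submodule.smul_mem _ _ (Submodule.add_mem _ (Submodule.smul_mem _ _ ?_)
        (Submodule.smul_mem _ _ ?_))
      · refine Submodule.subset_span ?_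
        rw [hG, coe_union]
        exact Or.inr (mem_coe.2 (mem_image_of_mem (fun g : A.Used => lin C (inp C g.1).2) hgS))
      · refine Submodule.subset_span ?_
        rw [hG, coe_union]
        exact Or.inl (mem_coe.2 (mem_image_of_mem (fun g : A.Used => lin C (inp C g.1).1) hgS))

theorem hM (u v : Fin C.nodes) (h : A.M u v ≠ 0) : v < u := (A.desc u).lt v h

open Classical in
/-- the number of proper steps and the reuse of the nodes with a quadratic part -/
theorem steps_le :
    (LL (prog A.M A.lam A.zeta)).card ≤ ∑ v ∈ univ.filter (fun v => qd C v ≠ 0),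
      ((univ.filter fun u => IsInput C u v).card - 1) + m ^ 2 := by
  have h1 := card_lead_col (M := A.M) (lam := A.lam) (zeta := A.zeta) A.hM A.hlam A.zeta_or
    A.card_zeta
  have h2 : Fintype.card (Fin m × Fin m) = m ^ 2 := by
    rw [Fintype.card_prod, Fintype.card_fin, sq]
  rw [h2] at h1
  set U : Finset (Fin C.nodes) := univ.filter fun v => A.lam v ≠ 0 with hU
  have h3 : ∑ v ∈ U, (univ.filter fun u => A.M u v ≠ 0).card ≤
      ∑ v ∈ U, ((univ.filter fun u => IsInput C u v).card - 1) + U.card := by
    rw [card_eq_sum_ones U, ← sum_add_distrib]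
    refine sum_le_sum fun v _ => ?_
    have h4 : (univ.filter fun u => A.M u v ≠ 0).card ≤
        (univ.filter fun u => IsInput C u v).card := by
      refine card_le_card fun u hu => ?_
      rw [mem_filter] at hu ⊢
      exact ⟨mem_univ _, (A.desc u).input v hu.2⟩
    omega
  have h4 : ∑ v ∈ U, ((univ.filter fun u => IsInput C u v).card - 1) ≤
      ∑ v ∈ univ.filter (fun v => qd C v ≠ 0),
        ((univ.filter fun u => IsInput C u v).card - 1) := by
    refine sum_le_sum_of_subset fun v hv => ?_
    rw [hU, mem_filter] at hv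
    rw [mem_filter]
    exact ⟨mem_univ _, A.qd_ne hv.2⟩
  omega

end GAdj

end Pool.Agent.L0h35.Hg
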