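import Pool.Agent.L0h35.RuBack

set_option autoImplicit false

/-!
# Circuits with few products need many linear forms and much reuse
-/

namespace Pool.Agent.L0h35.Hg

open Finset Pool.Agent.H88R3.MM Pool.Agent.H522R2 Pool.Agent.H522R2.Circuit
open Pool.Agent.W946.Kos
open Pool.Agent.W946.Sz (lin qd)

theorem D1_eq_coeff {F V : Type*} [Field F] (x : V) (P : MvPolynomial V F) :
    D1 x P = P.coeff (Finsupp.single x 1) := by
  unfold D1
  rw [MvPolynomial.constantCoeff_eq, MvPolynomial.coeff_pderiv]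
  simp

universe u

open Classical in
theorem main2 (ε : ℝ) (hε : 0 < ε) : ∃ (c : ℝ) (m₀ : ℕ), 0 < c ∧ 0 < m₀ ∧
    ∀ (F : Type u) [Field F] (m : ℕ) (C : Circuit F (Vars m)), m₀ ≤ m →
      (∀ i j, ∃ k : Fin C.nodes, C.poly k = entry F m i j) →
      (C.nonscalarCount : ℝ) ≤ c * (m : ℝ) ^ 3 / Real.log m →
      (3 - ε) * (m : ℝ) ^ 2 ≤ (LL (rlin C Sum.inl)).card ∧
      (3 - ε) * (m : ℝ) ^ 2 ≤ (LL (rlin C Sum.inr)).card ∧
      (2 - ε) * (m : ℝ) ^ 2 ≤ ((∑ v ∈ univ.filter (fun v => qd C v ≠ 0),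
        ((univ.filter fun u => IsInput C u v).card - 1) : ℕ) : ℝ) := by
  obtain ⟨c, m₀, hc, h⟩ := asymp2.{u, 0, 0, 0} ε hε
  refine ⟨c / 2, max m₀ 3, by positivity, lt_of_lt_of_le (by norm_num) (le_max_right _ _), ?_⟩
  intro F _ m C hm hC hN
  have hm0 : m₀ ≤ m := (le_max_left _ _).trans hm
  have hm3 : 3 ≤ m := (le_max_right _ _).trans hm
  have hmpos : 0 < m := by omega
  have : Nonempty (Fin m × Fin m) := ⟨(⟨0, hmpos⟩, ⟨0, hmpos⟩)⟩
  have hmr : (3 : ℝ) ≤ m := by exact_mod_cast hm3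
  have hlog : 0 < Real.log m := Real.log_pos (by linarith)
  have hbound : (0 : ℝ) ≤ c * (m : ℝ) ^ 3 / Real.log m := by positivity
  have hG : (Fintype.card ({g : Fin C.nodes // C.IsNonscalar g} × Bool) : ℝ) ≤
      c * (m : ℝ) ^ 3 / Real.log m := by
    rw [Fintype.card_prod, Fintype.card_bool, ← Nat.card_eq_fintype_card]
    change ((C.nonscalarCount * 2 : ℕ) : ℝ) ≤ _
    push_cast
    have h1 : c / 2 * (m : ℝ) ^ 3 / Real.log m = c * (m : ℝ) ^ 3 / Real.log m / 2 := by ring
    rw [h1] at hN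
    linarith
  have hV : Fintype.card (Fin m × Fin m) = m ^ 2 := by
    rw [Fintype.card_prod, Fintype.card_fin, sq]
  refine ⟨?_, ?_, ?_⟩
  · exact h F (Fin m × Fin m) (Fin C.nodes) ({g : Fin C.nodes // C.IsNonscalar g} × Bool)
      (rlin C Sum.inl) (fun g => Sum.inr (if g.2 then (inp C g.1.1).1 else (inp C g.1.1).2)) m m
      hm0 (by omega) (rlin_isLP Sum.inl_injective)
      (fun X hX => rlin_dist Sum.inl_injective hC X hX) hV hG
  · exact h F (Fin m × Fin m) (Fin C.nodes) ({g : Fin C.nodes // C.IsNonscalar g} × Bool)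
      (rlin C Sum.inr) (fun g => Sum.inr (if g.2 then (inp C g.1.1).1 else (inp C g.1.1).2)) m m
      hm0 (by omega) (rlin_isLP Sum.inr_injective)
      (fun X hX => rlin_dist Sum.inr_injective hC X hX) hV hG
  · obtain ⟨A⟩ := exists_gadj hC
    have h1 := A.steps_le
    have h2 := h F (Fin m × Fin m) (Idx C.nodes) A.Used (prog A.M A.lam A.zeta)
      (fun g => Sum.inr (ix g.1 g.1)) m ((m + 1) / 2) hm0 (by omega)
      (isLP A.hM A.hlam A.zeta_or) (fun X hX => by
        have h8 := A.dist X hX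
        have h9 : (univ.filter fun g : A.Used => dotProduct (sym (prog A.M A.lam A.zeta)
            (Sum.inr (ix g.1 g.1) : (Fin m × Fin m) ⊕ Idx C.nodes)) X ≠ 0) =
            univ.filter fun g : A.Used => dotProduct (A.lam g.1) X ≠ 0 := by
          refine filter_congr fun g _ => ?_
          change dotProduct (prog A.M A.lam A.zeta (ix g.1 g.1)) X ≠ 0 ↔ _
          rw [prog_ix, ps_diag A.hM A.hlam]
        rw [h9]
        omega) hV (by
        have h3 : (Fintype.card A.Used : ℝ) ≤ C.nonscalarCount := by exact_mod_cast A.card_used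
        have h4 : c / 2 * (m : ℝ) ^ 3 / Real.log m = c * (m : ℝ) ^ 3 / Real.log m / 2 := by ring
        rw [h4] at hN
        linarith)
    have h3 : ((LL (prog A.M A.lam A.zeta)).card : ℝ) ≤
        ((∑ v ∈ univ.filter (fun v => qd C v ≠ 0),
        ((univ.filter fun u => IsInput C u v).card - 1) : ℕ) : ℝ) + (m : ℝ) ^ 2 := by
      exact_mod_cast h1
    linarith

end Pool.Agent.L0h35.Hg
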