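import Pool.Agent.L0h35.HgLP
import Pool.Agent.L0h35.HgNum

set_option autoImplicit false

/-!
# Linear programs with many tests

The same bound as in `HgLP`, with separate thresholds for the number of equations which contain a
symbol and for the number of tests which use it.
-/

namespace Pool.Agent.L0h35.Hg

open Finset Pool.Agent.W946.Sz

section lp

variable {F V ι : Type*} [Field F] [DecidableEq V] [LinearOrder ι] [Fintype V] [Fintype ι]
variable {ψ : ι → V → F} {G : Type*} [Fintype G]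

open Classical in
/-- the symbols which are not used often -/
noncomputable def Data.light2 (S : Data ψ) (τ : G → V ⊕ ι) (Δ Γ : ℕ) : Finset (V ⊕ ι) :=
  (EE ψ).filter fun s => (eqs S.H (LL ψ) s).card ≤ Δ ∧ (S.use τ s).card ≤ Γ

open Classical in
theorem Data.dist2 (S : Data ψ) (τ : G → V ⊕ ι) {m Δ Γ T : ℕ}
    (hm : ∀ X : V → F, X ≠ 0 →
      m ≤ (univ.filter fun g => dotProduct (sym ψ (τ g)) X ≠ 0).card)
    (hΓ : 0 < Γ) (h : Γ * T ≤ m) : Dist S.H (S.light2 τ Δ Γ) (LL ψ) T := by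
  intro x hx h0
  have hX := S.ne_zero (filter_subset _ _) hx h0
  have h1 := hm _ hX
  have h2 : (univ.filter fun g => dotProduct (sym ψ (τ g)) (fun z => x (Sum.inl z)) ≠ 0) ⊆
      (spt (S.light2 τ Δ Γ) x).biUnion (S.use τ) := by
    intro g hg
    rw [mem_filter, S.sym_dot hx] at hg
    rw [mem_biUnion]
    have h4 : x (S.rep (τ g)) ≠ 0 := right_ne_zero_of_mul hg.2
    refine ⟨S.rep (τ g), ?_, ?_⟩
    · unfold spt
      rw [mem_filter]
      refine ⟨?_, h4⟩
      by_contra h5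
      exact h4 (hx.1 _ h5)
    · unfold Data.use
      rw [mem_filter]
      exact ⟨mem_univ _, rfl⟩
  have h3 : (univ.filter fun g => dotProduct (sym ψ (τ g)) (fun z => x (Sum.inl z)) ≠ 0).card ≤
      (spt (S.light2 τ Δ Γ) x).card * Γ := by
    refine (card_le_card h2).trans (card_biUnion_le.trans ?_)
    refine (sum_le_card_nsmul _ _ Γ fun s hs => ?_).trans (le_of_eq (smul_eq_mul _ _))
    unfold spt Data.light2 at hs
    rw [mem_filter, mem_filter] at hs
    exact hs.1.2.2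
  have h4 : Γ * T ≤ Γ * (spt (S.light2 τ Δ Γ) x).card := by
    rw [mul_comm Γ (Finset.card _)]
    exact h.trans (h1.trans h3)
  exact Nat.le_of_mul_le_mul_left h4 hΓ

theorem Data.heavy2 (S : Data ψ) (τ : G → V ⊕ ι) (Δ Γ : ℕ) :
    ((EE ψ).card : ℝ) ≤ (S.light2 τ Δ Γ).card + 3 * (LL ψ).card / (Δ + 1) +
      Fintype.card G / (Γ + 1) := by
  classical
  have h1 : ∑ s ∈ EE ψ, (eqs S.H (LL ψ) s).card ≤ 3 * (LL ψ).card := by
    rw [count_inc]
    refine (sum_le_card_nsmul _ _ 3 fun c _ => S.row_card _ c).trans (le_of_eq ?_)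
    rw [smul_eq_mul, mul_comm]
  have h2 := S.sum_use τ
  -- symbols in many equations
  have h3 : (((EE ψ).filter fun s => ¬ (eqs S.H (LL ψ) s).card ≤ Δ).card : ℝ) ≤
      3 * (LL ψ).card / (Δ + 1) := by
    rw [le_div_iff₀ (by positivity)]
    have h4 : ((EE ψ).filter fun s => ¬ (eqs S.H (LL ψ) s).card ≤ Δ).card * (Δ + 1) ≤
        3 * (LL ψ).card := by
      refine le_trans ?_ h1
      rw [← smul_eq_mul]
      refine (card_nsmul_le_sum _ _ (Δ + 1) fun s hs => ?_).trans
        (sum_le_sum_of_subset (filter_subset _ _))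
      have := (mem_filter.1 hs).2
      omega
    exact_mod_cast h4
  have h5 : (((EE ψ).filter fun s => ¬ (S.use τ s).card ≤ Γ).card : ℝ) ≤
      Fintype.card G / (Γ + 1) := by
    rw [le_div_iff₀ (by positivity)]
    have h4 : ((EE ψ).filter fun s => ¬ (S.use τ s).card ≤ Γ).card * (Γ + 1) ≤
        Fintype.card G := by
      refine le_trans ?_ h2
      rw [← smul_eq_mul]
      refine (card_nsmul_le_sum _ _ (Γ + 1) fun s hs => ?_).trans
        (sum_le_sum_of_subset (filter_subset _ _))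
      have := (mem_filter.1 hs).2
      omega
    exact_mod_cast h4
  have h6 : (EE ψ).card ≤ (S.light2 τ Δ Γ).card +
      ((EE ψ).filter fun s => ¬ (eqs S.H (LL ψ) s).card ≤ Δ).card +
      ((EE ψ).filter fun s => ¬ (S.use τ s).card ≤ Γ).card := by
    have h7 : EE ψ ⊆ (S.light2 τ Δ Γ) ∪ ((EE ψ).filter fun s =>
        ¬ (eqs S.H (LL ψ) s).card ≤ Δ) ∪ ((EE ψ).filter fun s => ¬ (S.use τ s).card ≤ Γ) := by
      intro s hs
      by_cases h8 : (eqs S.H (LL ψ) s).card ≤ Δ
      · by_cases h9 : (S.use τ s).card ≤ Γ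
        · exact mem_union_left _ (mem_union_left _ (mem_filter.2 ⟨hs, h8, h9⟩))
        · exact mem_union_right _ (mem_filter.2 ⟨hs, h9⟩)
      · exact mem_union_left _ (mem_union_right _ (mem_filter.2 ⟨hs, h8⟩))
    exact (card_le_card h7).trans ((card_union_le _ _).trans
      (Nat.add_le_add_right (card_union_le _ _) _))
  have h7 : ((EE ψ).card : ℝ) ≤ (S.light2 τ Δ Γ).card +
      ((EE ψ).filter fun s => ¬ (eqs S.H (LL ψ) s).card ≤ Δ).card +
      ((EE ψ).filter fun s => ¬ (S.use τ s).card ≤ Γ).card := by exact_mod_cast h6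
  linarith

open Classical in
/-- **The number of proper steps of a program with many tests.** -/
theorem lp_bound2 [Nonempty V] (hψ : IsLP ψ) (τ : G → V ⊕ ι) {m i Δ Γ r : ℕ} {η : ℝ}
    (hη : 0 < η)
    (hm : ∀ X : V → F, X ≠ 0 →
      m ≤ (univ.filter fun g => dotProduct (sym ψ (τ g)) X ≠ 0).card)
    (hΓ : 0 < Γ) (hi : 1 ≤ i) (hs : ((LL ψ).card : ℝ) ≤ (1 + η) ^ i)
    (hT : Γ * ((1 + Δ) ^ r * (4 * i + 3)) ≤ m) :
    (2 : ℝ) ^ r * (3 * (Fintype.card V - (3 * (LL ψ).card / (Δ + 1) +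
      Fintype.card G / (Γ + 1))) - (1 + η) * (LL ψ).card) ≤ 3 * Fintype.card V := by
  obtain ⟨S⟩ := exists_data hψ
  have h2 := S.heavy2 τ Δ Γ
  have h3 := S.dist2 (Δ := Δ) τ hm hΓ hT
  have h4 := rounds (H := S.H) (Δ := Δ) hη hi r (S.light2 τ Δ Γ) (LL ψ)
    (fun c _ => S.row_card _ c) (fun e he => (mem_filter.1 he).2.1) hs h3
  set K' : ℝ := ((S.light2 τ Δ Γ).card : ℝ) - (LL ψ).card with hK'
  rw [card_EE] at h2
  push_cast at h2
  have h5 : (Fintype.card V : ℝ) - (3 * (LL ψ).card / (Δ + 1) + Fintype.card G / (Γ + 1)) ≤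
      K' := by
    linarith
  have h6 : K' ≤ Fintype.card V := by
    have h7 : (S.light2 τ Δ Γ).card ≤ Fintype.card V + (LL ψ).card := by
      rw [← card_EE]
      exact card_le_card (filter_subset _ _)
    have h8 : ((S.light2 τ Δ Γ).card : ℝ) ≤ Fintype.card V + (LL ψ).card := by exact_mod_cast h7
    rw [hK']
    linarith
  have h7 : 3 * (Fintype.card V - (3 * (LL ψ).card / (Δ + 1) + Fintype.card G / (Γ + 1))) -
    (1 + η) * (LL ψ).card ≤ 3 * K' - (1 + η) * (LL ψ).card := by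
    linarith
  have h8 := mul_le_mul_of_nonneg_left h7 (show (0 : ℝ) ≤ 2 ^ r by positivity)
  linarith

end lp

end Pool.Agent.L0h35.Hg
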