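import Pool.Agent.L0h35.SeDefs2

set_option autoImplicit false

namespace Pool.Agent.L0h35.Se

open Pool.Agent.L0h35.Sv

open Finset Module

namespace C3Part

variable (p : ℕ) {G : Type} [Group G]

/-- `[x] - 1` -/
noncomputable def uu (x : G) : MonoidAlgebra (ZMod p) G := MonoidAlgebra.of (ZMod p) G x - 1

lemma uu_one : uu p (1 : G) = 0 := by
  rw [uu, map_one, sub_self]

/-- weight of a list -/
def WW (l : List (ℕ × G)) : ℕ := (l.map fun a => 3 ^ a.1).sum

/-- product of a list -/
noncomputable def PP (l : List (ℕ × G)) : MonoidAlgebra (ZMod p) G :=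
  (l.map fun a => uu p a.2).prod

/-- the filtration -/
noncomputable def EE (C : ℕ → Subgroup G) (j : ℕ) : Submodule (ZMod p) (MonoidAlgebra (ZMod p) G) :=
  Submodule.span (ZMod p) {r | ∃ l : List (ℕ × G), (∀ a ∈ l, a.2 ∈ C a.1) ∧ j ≤ WW l ∧ r = PP p l}

lemma WW_cons (a : ℕ × G) (l : List (ℕ × G)) : WW (a :: l) = 3 ^ a.1 + WW l := by
  simp [WW]

lemma PP_cons (a : ℕ × G) (l : List (ℕ × G)) : PP p (a :: l) = uu p a.2 * PP p l := by
  simp [PP]

lemma WW_append (l m : List (ℕ × G)) : WW (l ++ m) = WW l + WW m := by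
  simp [WW]

lemma PP_append (l m : List (ℕ × G)) : PP p (l ++ m) = PP p l * PP p m := by
  simp [PP]

lemma PP_mem (C : ℕ → Subgroup G) {j : ℕ} (l : List (ℕ × G)) (hl : ∀ a ∈ l, a.2 ∈ C a.1)
    (hj : j ≤ WW l) : PP p l ∈ EE p C j :=
  Submodule.subset_span ⟨l, hl, hj, rfl⟩

lemma EE_anti (C : ℕ → Subgroup G) {j k : ℕ} (h : j ≤ k) : EE p C k ≤ EE p C j := by
  apply Submodule.span_mono
  rintro r ⟨l, hl, hk, rfl⟩
  exact ⟨l, hl, h.trans hk, rfl⟩

lemma EE_mul (C : ℕ → Subgroup G) (j k : ℕ) : EE p C j * EE p C k ≤ EE p C (j + k) := by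
  unfold EE
  rw [Submodule.span_mul_span]
  apply Submodule.span_mono
  rintro r ⟨a, ⟨l, hl, hj, rfl⟩, b, ⟨m, hm, hk, rfl⟩, rfl⟩
  refine ⟨l ++ m, ?_, ?_, ?_⟩
  · intro a ha
    rcases List.mem_append.1 ha with h | h
    · exact hl a h
    · exact hm a h
  · rw [WW_append]; omega
  · simp only [PP_append]

lemma mul_mem_EE (C : ℕ → Subgroup G) {j k n : ℕ} {a b : MonoidAlgebra (ZMod p) G}
    (ha : a ∈ EE p C j) (hb : b ∈ EE p C k) (hn : n ≤ j + k) : a * b ∈ EE p C n :=
  EE_anti p C hn (EE_mul p C j k (Submodule.mul_mem_mul ha hb))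

lemma uu_mem (C : ℕ → Subgroup G) {i : ℕ} {x : G} (hx : x ∈ C i) :
    uu p x ∈ EE p C (3 ^ i) := by
  have := PP_mem p C (j := 3 ^ i) [(i, x)] (by simpa using hx) (by simp [WW])
  simpa [PP] using this

lemma one_mem_EE (C : ℕ → Subgroup G) : (1 : MonoidAlgebra (ZMod p) G) ∈ EE p C 0 := by
  have := PP_mem p C (j := 0) [] (by simp) (by simp)
  simpa [PP] using this

lemma of_mem (C : ℕ → Subgroup G) {x : G} (hx : x ∈ C 0) :
    MonoidAlgebra.of (ZMod p) G x ∈ EE p C 0 := by
  have h1 : uu p x ∈ EE p C 0 := EE_anti p C (Nat.zero_le _) (uu_mem p C hx)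
  have h2 := Submodule.add_mem _ h1 (one_mem_EE p C)
  simpa [uu] using h2

variable {p}

lemma C_le {H : Subgroup G} {L : ℕ} {C : ℕ → Subgroup G} (hC : Chain p H L C) {i k : ℕ}
    (h : i ≤ k) : C k ≤ C i := by
  induction k, h using Nat.le_induction with
  | base => exact le_rfl
  | succ k _ ih => exact (hC.2.2.2.1 k).trans ih

lemma C_top {H : Subgroup G} {L : ℕ} {C : ℕ → Subgroup G} (hC : Chain p H L C) {i : ℕ}
    (h : L ≤ i) {x : G} (hx : x ∈ C i) : x = 1 := by
  have := C_le hC h hx
  rw [hC.2.1] at this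
  exact Subgroup.mem_bot.1 this

lemma comm_aux {H : Subgroup G} {L : ℕ} {C : ℕ → Subgroup G} (hp : 2 ≤ p) (hC : Chain p H L C)
    {i k : ℕ} (hik : i ≤ k) {x y : G} (hx : x ∈ C i) (hy : y ∈ C k) :
    uu p x * uu p y - uu p y * uu p x ∈ EE p C (3 ^ i + 3 ^ k + 1) := by
  have hxH : x ∈ H := by
    have := C_le hC (Nat.zero_le i) hx
    rwa [hC.1] at this
  have hyH : y ∈ C 0 := C_le hC (Nat.zero_le k) hy
  have hx0 : x ∈ C 0 := C_le hC (Nat.zero_le i) hx
  have hc : x * y * x⁻¹ * y⁻¹ ∈ C (k + 1) := by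
    apply hC.2.2.2.2.2 k
    rw [Subgroup.commutator_comm]
    exact Subgroup.commutator_mem_commutator hxH hy
  have hkey : uu p x * uu p y - uu p y * uu p x =
      uu p (x * y * x⁻¹ * y⁻¹) * MonoidAlgebra.of (ZMod p) G (y * x) := by
    have h1 : uu p (x * y * x⁻¹ * y⁻¹) * MonoidAlgebra.of (ZMod p) G (y * x) =
        MonoidAlgebra.of (ZMod p) G (x * y) - MonoidAlgebra.of (ZMod p) G (y * x) := by
      rw [uu, sub_mul, one_mul, ← map_mul]
      congr 2
      group
    rw [h1, uu, uu, map_mul, map_mul]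
    noncomm_ring
  rw [hkey]
  have h1 : 3 ^ i ≤ 3 ^ k := Nat.pow_le_pow_right (by omega) hik
  have h2 : 1 ≤ 3 ^ k := Nat.one_le_pow _ _ (by omega)
  have h3 : 3 ^ (k + 1) = 3 * 3 ^ k := by ring
  refine mul_mem_EE p C (uu_mem p C hc) (of_mem p C (Subgroup.mul_mem _ hyH hx0)) ?_
  omega

lemma comm_mem {H : Subgroup G} {L : ℕ} {C : ℕ → Subgroup G} (hp : 2 ≤ p) (hC : Chain p H L C)
    {i k : ℕ} {x y : G} (hx : x ∈ C i) (hy : y ∈ C k) :
    uu p x * uu p y - uu p y * uu p x ∈ EE p C (3 ^ i + 3 ^ k + 1) := by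
  rcases le_total i k with h | h
  · exact comm_aux hp hC h hx hy
  · have := comm_aux hp hC h hy hx
    have h2 := Submodule.neg_mem _ this
    rw [neg_sub] at h2
    rwa [add_comm (3 ^ i)]

lemma pow_mem_EE [Fact p.Prime] {C : ℕ → Subgroup G} {x : G} (hx : x ^ p = 1) (j : ℕ) :
    uu p x ^ p ∈ EE p C j := by
  haveI : CharP (MonoidAlgebra (ZMod p) G) p :=
    charP_of_injective_algebraMap (algebraMap (ZMod p) (MonoidAlgebra (ZMod p) G)).injective p
  have h1 : uu p x ^ p = uu p (x ^ p) := by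
    rw [uu, uu, sub_pow_char_of_commute p (Commute.one_right _), one_pow,
      map_pow]
  rw [h1, hx, uu_one]
  exact Submodule.zero_mem _

lemma WW_perm {l m : List (ℕ × G)} (h : l.Perm m) : WW l = WW m := by
  unfold WW
  exact (h.map _).sum_eq

lemma perm_mem {H : Subgroup G} {L : ℕ} {C : ℕ → Subgroup G} (hp : 2 ≤ p) (hC : Chain p H L C)
    {l m : List (ℕ × G)} (h : l.Perm m) :
    (∀ a ∈ l, a.2 ∈ C a.1) → PP p l - PP p m ∈ EE p C (WW l + 1) := by
  induction h with
  | nil => intro _; simp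
  | cons a hlm ih =>
    intro hl
    have h1 := ih fun b hb => hl b (List.mem_cons_of_mem _ hb)
    rw [PP_cons, PP_cons, ← mul_sub, WW_cons]
    exact mul_mem_EE p C (uu_mem p C (hl a List.mem_cons_self)) h1 (by omega)
  | swap a b l =>
    intro hl
    have ha : a.2 ∈ C a.1 := hl a (by simp)
    have hb : b.2 ∈ C b.1 := hl b (by simp)
    have hl' : ∀ c ∈ l, c.2 ∈ C c.1 := fun c hc => hl c (by simp [hc])
    rw [PP_cons, PP_cons, PP_cons, PP_cons, ← mul_assoc, ← mul_assoc, ← sub_mul, WW_cons, WW_cons]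
    exact mul_mem_EE p C (comm_mem hp hC hb ha) (PP_mem p C l hl' le_rfl) (by omega)
  | trans h1 h2 ih1 ih2 =>
    intro hl
    have hl2 := fun b hb => hl b (h1.mem_iff.2 hb)
    have e1 := ih1 hl
    have e2 := ih2 hl2
    rw [← WW_perm h1] at e2
    have := Submodule.add_mem _ e1 e2
    simpa using this

/-- generators of a section -/
lemma exists_gens [hpp : Fact p.Prime] [Finite G] (B : Subgroup G) : ∀ (d : ℕ) (K : Subgroup G),
    K ≤ B → Nat.card B = p ^ d * Nat.card K →
    ∃ s : Finset G, s.card ≤ d ∧ (∀ g ∈ s, g ∈ B) ∧ B ≤ Subgroup.closure (↑s ∪ (K : Set G)) := by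
  classical
  intro d
  induction d using Nat.strong_induction_on with
  | _ d ih =>
    intro K hK hcard
    by_cases hKB : K = B
    · subst hKB
      refine ⟨∅, by simp, by simp, ?_⟩
      intro x hx
      exact Subgroup.subset_closure (Or.inr hx)
    · obtain ⟨x, hxB, hxK⟩ : ∃ x ∈ B, x ∉ K := by
        by_contra hcon
        push Not at hcon
        exact hKB (le_antisymm hK hcon)
      let K' : Subgroup G := Subgroup.closure (insert x (K : Set G))
      have hKK' : K ≤ K' := fun y hy => Subgroup.subset_closure (Set.mem_insert_of_mem _ hy)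
      have hxK' : x ∈ K' := Subgroup.subset_closure (Set.mem_insert _ _)
      have hK'B : K' ≤ B := by
        apply (Subgroup.closure_le _).2
        intro y hy
        rcases Set.mem_insert_iff.1 hy with h | h
        · exact h ▸ hxB
        · exact hK h
      obtain ⟨r, hr⟩ := Subgroup.card_dvd_of_le hKK'
      obtain ⟨t, ht⟩ := Subgroup.card_dvd_of_le hK'B
      have hKpos : 0 < Nat.card K := Nat.card_pos
      have hrt : r * t = p ^ d := by
        have : Nat.card K * (r * t) = Nat.card K * p ^ d := by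
          rw [← mul_assoc, ← hr, ← ht, hcard, mul_comm]
        exact Nat.eq_of_mul_eq_mul_left hKpos this
      obtain ⟨b, hbd, hb⟩ := (Nat.dvd_prime_pow hpp.out).1 (Dvd.intro_left r hrt)
      have hb' : b < d := by
        rcases lt_or_eq_of_le hbd with h | h
        · exact h
        · exfalso
          subst h
          have hr1 : r = 1 := by
            have h1 : r * p ^ b = 1 * p ^ b := by rw [one_mul, ← hb, hrt, hb]
            exact Nat.eq_of_mul_eq_mul_right (Nat.pow_pos hpp.out.pos) h1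
          have : K = K' := by
            apply Subgroup.eq_of_le_of_card_ge hKK'
            rw [hr, hr1, mul_one]
          exact hxK (this ▸ hxK')
      obtain ⟨s, hs1, hs2, hs3⟩ := ih b hb' K' hK'B (by rw [ht, hb, mul_comm])
      refine ⟨insert x s, ?_, ?_, ?_⟩
      · exact (Finset.card_insert_le _ _).trans (by omega)
      · intro g hg
        rcases Finset.mem_insert.1 hg with h | h
        · exact h ▸ hxB
        · exact hs2 g h
      · refine hs3.trans ?_
        apply (Subgroup.closure_le _).2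
        rintro y (hy | hy)
        · exact Subgroup.subset_closure (Or.inl (by simp [Finset.mem_coe.1 hy]))
        · have : K' ≤ Subgroup.closure (↑(insert x s) ∪ (K : Set G)) := by
            apply (Subgroup.closure_le _).2
            intro z hz
            rcases Set.mem_insert_iff.1 hz with h | h
            · exact Subgroup.subset_closure (Or.inl (by simp [h]))
            · exact Subgroup.subset_closure (Or.inr h)
          exact this hy

lemma lin_mem {H : Subgroup G} {L : ℕ} {C : ℕ → Subgroup G} (hp : 2 ≤ p) (hC : Chain p H L C)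
    {i : ℕ} (s : Finset G) (hs : ∀ g ∈ s, g ∈ C i)
    (hgen : C i ≤ Subgroup.closure (↑s ∪ (C (i + 1) : Set G))) {x : G} (hx : x ∈ C i) :
    uu p x ∈ Submodule.span (ZMod p) ((uu p) '' (s : Set G)) ⊔ EE p C (3 ^ i + 1) := by
  set S : Submodule (ZMod p) (MonoidAlgebra (ZMod p) G) :=
    Submodule.span (ZMod p) ((uu p) '' (s : Set G)) ⊔ EE p C (3 ^ i + 1) with hS
  have hW : 1 ≤ 3 ^ i := Nat.one_le_pow _ _ (by omega)
  have key : ∀ y ∈ Subgroup.closure (↑s ∪ (C (i + 1) : Set G)), y ∈ C i ∧ uu p y ∈ S := by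
    intro y hy
    induction hy using Subgroup.closure_induction with
    | mem y hy =>
      rcases hy with hy | hy
      · exact ⟨hs y hy, Submodule.mem_sup_left (Submodule.subset_span ⟨y, hy, rfl⟩)⟩
      · refine ⟨hC.2.2.2.1 i hy, Submodule.mem_sup_right ?_⟩
        refine EE_anti p C ?_ (uu_mem p C hy)
        have h3 : 3 ^ (i + 1) = 3 * 3 ^ i := by ring
        omega
    | one => exact ⟨Subgroup.one_mem _, by rw [uu_one]; exact Submodule.zero_mem _⟩
    | mul y z _ _ ihy ihz =>
      refine ⟨Subgroup.mul_mem _ ihy.1 ihz.1, ?_⟩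
      have h1 : uu p (y * z) = uu p y + uu p z + uu p y * uu p z := by
        rw [uu, uu, uu, map_mul]; noncomm_ring
      rw [h1]
      refine Submodule.add_mem _ (Submodule.add_mem _ ihy.2 ihz.2) (Submodule.mem_sup_right ?_)
      exact mul_mem_EE p C (uu_mem p C ihy.1) (uu_mem p C ihz.1) (by omega)
    | inv y _ ihy =>
      refine ⟨Subgroup.inv_mem _ ihy.1, ?_⟩
      have h1 : uu p y⁻¹ = -uu p y - uu p y * uu p y⁻¹ := by
        have h2 : MonoidAlgebra.of (ZMod p) G y * MonoidAlgebra.of (ZMod p) G y⁻¹ = 1 := by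
          rw [← map_mul, mul_inv_cancel, map_one]
        rw [uu, uu, sub_mul, mul_sub, h2, mul_one, one_mul]
        abel
      rw [h1]
      refine Submodule.sub_mem _ (Submodule.neg_mem _ ihy.2) (Submodule.mem_sup_right ?_)
      exact mul_mem_EE p C (uu_mem p C ihy.1) (uu_mem p C (Subgroup.inv_mem _ ihy.1)) (by omega)
  exact (key x (hgen hx)).2

/-- products of generators of exact weight `n` -/
noncomputable def MM (p : ℕ) (L : ℕ) (s : ℕ → Finset G) (n : ℕ) :
    Submodule (ZMod p) (MonoidAlgebra (ZMod p) G) :=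
  Submodule.span (ZMod p) {r | ∃ l : List (ℕ × G), (∀ a ∈ l, a.1 < L ∧ a.2 ∈ s a.1) ∧
    WW l = n ∧ r = PP p l}

lemma expand_mem {H : Subgroup G} {L : ℕ} {C : ℕ → Subgroup G} (hp : 2 ≤ p) (hC : Chain p H L C)
    (s : ℕ → Finset G) (hs : ∀ i < L, ∀ g ∈ s i, g ∈ C i)
    (hgen : ∀ i < L, C i ≤ Subgroup.closure (↑(s i) ∪ (C (i + 1) : Set G)))
    (l : List (ℕ × G)) (hl : ∀ a ∈ l, a.2 ∈ C a.1) :
    PP p l ∈ MM p L s (WW l) ⊔ EE p C (WW l + 1) := by
  induction l with
  | nil =>
    apply Submodule.mem_sup_left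
    exact Submodule.subset_span ⟨[], by simp, rfl, rfl⟩
  | cons a l ih =>
    have ih' := ih fun b hb => hl b (List.mem_cons_of_mem _ hb)
    have ha := hl a List.mem_cons_self
    rw [PP_cons, WW_cons]
    by_cases hL : a.1 < L
    · have h1 := lin_mem hp hC (s a.1) (hs _ hL) (hgen _ hL) ha
      obtain ⟨u₁, hu₁, u₂, hu₂, hu⟩ := Submodule.mem_sup.1 h1
      obtain ⟨v₁, hv₁, v₂, hv₂, hv⟩ := Submodule.mem_sup.1 ih'
      have hu₁E : u₁ ∈ EE p C (3 ^ a.1) := by
        refine (Submodule.span_le.2 ?_) hu₁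
        rintro _ ⟨g, hg, rfl⟩
        exact uu_mem p C (hs _ hL g hg)
      have hsplit : uu p a.2 * PP p l = u₁ * v₁ + (u₁ * v₂ + u₂ * PP p l) := by
        rw [← hu, ← hv]; noncomm_ring
      rw [hsplit]
      refine Submodule.add_mem _ (Submodule.mem_sup_left ?_)
        (Submodule.mem_sup_right (Submodule.add_mem _ ?_ ?_))
      · have h2 : u₁ * v₁ ∈ Submodule.span (ZMod p) ((uu p) '' (s a.1 : Set G)) *
            MM p L s (WW l) := Submodule.mul_mem_mul hu₁ hv₁
        refine (?_ : Submodule.span (ZMod p) ((uu p) '' (s a.1 : Set G)) *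
            MM p L s (WW l) ≤ _) h2
        unfold MM
        rw [Submodule.span_mul_span]
        apply Submodule.span_mono
        rintro r ⟨_, ⟨g, hg, rfl⟩, _, ⟨m, hm, hmW, rfl⟩, rfl⟩
        refine ⟨(a.1, g) :: m, ?_, ?_, ?_⟩
        · intro b hb
          rcases List.mem_cons.1 hb with h | h
          · subst h; exact ⟨hL, hg⟩
          · exact hm b h
        · rw [WW_cons, hmW]
        · simp only [PP_cons]
      · exact mul_mem_EE p C hu₁E hv₂ (by omega)
      · exact mul_mem_EE p C hu₂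
          (PP_mem p C l (fun b hb => hl b (List.mem_cons_of_mem _ hb)) le_rfl) (by omega)
    · have : a.2 = 1 := C_top hC (not_lt.1 hL) ha
      have h0 : uu p a.2 = 0 := by rw [this, uu_one]
      rw [h0, zero_mul]
      exact Submodule.zero_mem _

lemma step_le [Fact p.Prime] {H : Subgroup G} {L : ℕ} {C : ℕ → Subgroup G}
    (hC : Chain p H L C) (hexp : ∀ x ∈ H, x ^ p = 1) (d : ℕ → ℕ)
    (s : ℕ → Finset G) (hs : ∀ i < L, ∀ g ∈ s i, g ∈ C i) (hcard : ∀ i < L, (s i).card ≤ d i)
    (hgen : ∀ i < L, C i ≤ Subgroup.closure (↑(s i) ∪ (C (i + 1) : Set G)))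
    {j : ℕ} (hj : (p - 1) * ∑ i ∈ range L, 3 ^ i * d i < j) :
    EE p C j ≤ EE p C (j + 1) := by
  classical
  have hp : 2 ≤ p := (Fact.out : p.Prime).two_le
  have hM : MM p L s j ≤ EE p C (j + 1) := by
    apply Submodule.span_le.2
    rintro r ⟨l, hl, hW, rfl⟩
    have hlC : ∀ a ∈ l, a.2 ∈ C a.1 := fun a ha => hs _ (hl a ha).1 _ (hl a ha).2
    -- pigeonhole
    obtain ⟨a, hal, hcount⟩ : ∃ a ∈ l, p ≤ l.count a := by
      by_contra hcon
      push Not at hcon
      have h1 : WW l = ∑ a ∈ l.toFinset, l.count a * 3 ^ a.1 := by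
        have := Finset.sum_list_map_count l (fun a : ℕ × G => 3 ^ a.1)
        unfold WW
        rw [this]
        apply Finset.sum_congr rfl
        intro a _
        rw [smul_eq_mul]
        congr 2
        exact lawful_beq_subsingleton _ _
      have h2 : ∑ a ∈ l.toFinset, l.count a * 3 ^ a.1 ≤
          ∑ a ∈ l.toFinset, (p - 1) * 3 ^ a.1 := by
        apply Finset.sum_le_sum
        intro a ha
        have := hcon a (List.mem_toFinset.1 ha)
        exact Nat.mul_le_mul_right _ (by omega)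
      let T : Finset (Σ _ : ℕ, G) := (range L).sigma s
      have h3 : ∑ a ∈ l.toFinset, (p - 1) * 3 ^ a.1 ≤
          ∑ a ∈ T, (p - 1) * 3 ^ a.1 := by
        have hinj : Set.InjOn (fun a : ℕ × G => (⟨a.1, a.2⟩ : Σ _ : ℕ, G)) (l.toFinset : Set (ℕ × G)) := by
          rintro ⟨a1, a2⟩ _ ⟨b1, b2⟩ _ hab
          simp only [Sigma.mk.injEq, heq_eq_eq] at hab
          exact Prod.ext hab.1 hab.2
        rw [← Finset.sum_image (f := fun a : (Σ _ : ℕ, G) => (p - 1) * 3 ^ a.1) hinj]
        apply Finset.sum_le_sum_of_subset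
        intro b hb
        obtain ⟨a, ha, rfl⟩ := Finset.mem_image.1 hb
        have := hl a (List.mem_toFinset.1 ha)
        exact Finset.mem_sigma.2 ⟨Finset.mem_range.2 this.1, this.2⟩
      have h4 : ∑ a ∈ T, (p - 1) * 3 ^ a.1 ≤
          (p - 1) * ∑ i ∈ range L, 3 ^ i * d i := by
        rw [Finset.sum_sigma, Finset.mul_sum]
        apply Finset.sum_le_sum
        intro i hi
        change ∑ _g ∈ s i, (p - 1) * 3 ^ i ≤ _
        rw [Finset.sum_const, smul_eq_mul]
        calc (s i).card * ((p - 1) * 3 ^ i) ≤ d i * ((p - 1) * 3 ^ i) :=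
              Nat.mul_le_mul_right _ (hcard i (Finset.mem_range.1 hi))
          _ = (p - 1) * (3 ^ i * d i) := by ring
      omega
    obtain ⟨m, hm⟩ := (List.replicate_sublist_iff.2 hcount).exists_perm_append
    have h1 := perm_mem hp hC hm hlC
    have h2 : PP p (List.replicate p a ++ m) ∈ EE p C (j + 1) := by
      have haC := hlC a hal
      have hmC : ∀ b ∈ m, b.2 ∈ C b.1 := fun b hb =>
        hlC b (hm.mem_iff.2 (List.mem_append_right _ hb))
      rw [PP_append]
      have e1 : PP p (List.replicate p a) = uu p a.2 ^ p := by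
        simp [PP]
      have e2 : WW l = p * 3 ^ a.1 + WW m := by
        rw [WW_perm hm, WW_append]
        simp [WW]
      rw [e1]
      have haH : a.2 ∈ H := by
        have := C_le hC (Nat.zero_le _) haC
        rwa [hC.1] at this
      exact mul_mem_EE p C (pow_mem_EE (hexp _ haH) (p * 3 ^ a.1 + 1))
        (PP_mem p C m hmC le_rfl) (by omega)
    rw [hW] at h1
    have := Submodule.add_mem _ h1 h2
    simpa using this
  apply Submodule.span_le.2
  rintro r ⟨l, hl, hW, rfl⟩
  rcases Nat.lt_or_ge j (WW l) with h | h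
  · exact PP_mem p C l hl h
  · have he : WW l = j := le_antisymm h hW
    have h1 := expand_mem hp hC s hs hgen l hl
    rw [he] at h1
    exact (sup_le hM le_rfl) h1

/-- Nakayama for a finite `p`-group. -/
lemma eq_bot_of_le [hpp : Fact p.Prime] [Finite G] {H : Subgroup G} (hH : IsPGroup p H)
    (Z : Submodule (ZMod p) (MonoidAlgebra (ZMod p) G))
    (hstab : ∀ h ∈ H, ∀ z ∈ Z, MonoidAlgebra.of (ZMod p) G h * z ∈ Z)
    (hZ : Z ≤ Submodule.span (ZMod p) {r | ∃ h ∈ H, ∃ z ∈ Z, r = uu p h * z}) : Z = ⊥ := by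
  classical
  by_contra hne
  haveI : Finite (MonoidAlgebra (ZMod p) G) := by
    haveI : Fintype G := Fintype.ofFinite G
    exact Module.finite_of_finite (ZMod p)
  haveI : Finite Z := Subtype.finite
  haveI : Module.Finite (ZMod p) Z := inferInstance
  haveI : Finite (Module.Dual (ZMod p) Z) := Module.finite_of_finite (ZMod p)
  haveI : Nontrivial Z := (Submodule.nontrivial_iff_ne_bot).2 hne
  -- the action
  let act : H → (Z →ₗ[ZMod p] Z) := fun h =>
    ((LinearMap.mulLeft (ZMod p) (MonoidAlgebra.of (ZMod p) G (h : G))).restrict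
      (fun z hz => hstab h h.2 z hz))
  have act_one : act 1 = LinearMap.id := by
    apply LinearMap.ext
    intro z
    apply Subtype.ext
    change MonoidAlgebra.of (ZMod p) G ((1 : H) : G) * (z : MonoidAlgebra (ZMod p) G) = z
    rw [OneMemClass.coe_one, map_one, one_mul]
  have act_mul : ∀ g h : H, act (g * h) = (act g).comp (act h) := by
    intro g h
    apply LinearMap.ext
    intro z
    apply Subtype.ext
    change MonoidAlgebra.of (ZMod p) G ((g * h : H) : G) * (z : MonoidAlgebra (ZMod p) G) =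
      MonoidAlgebra.of (ZMod p) G (g : G) * (MonoidAlgebra.of (ZMod p) G (h : G) *
        (z : MonoidAlgebra (ZMod p) G))
    rw [Subgroup.coe_mul, map_mul, mul_assoc]
  letI : MulAction H (Module.Dual (ZMod p) Z) :=
    { smul := fun h f => f.comp (act h⁻¹)
      one_smul := by
        intro f
        change f.comp (act (1 : H)⁻¹) = f
        rw [inv_one, act_one, LinearMap.comp_id]
      mul_smul := by
        intro g h f
        change f.comp (act (g * h)⁻¹) = (f.comp (act h⁻¹)).comp (act g⁻¹)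
        rw [mul_inv_rev, act_mul, LinearMap.comp_assoc] }
  have hsmul : ∀ (h : H) (f : Module.Dual (ZMod p) Z), h • f = f.comp (act h⁻¹) := fun _ _ => rfl
  have hdvd : p ∣ Nat.card (Module.Dual (ZMod p) Z) := by
    haveI : Nontrivial (Module.Dual (ZMod p) Z) := inferInstance
    have h1 : Nat.card (Module.Dual (ZMod p) Z) =
        Nat.card (ZMod p) ^ finrank (ZMod p) (Module.Dual (ZMod p) Z) :=
      Module.natCard_eq_pow_finrank
    rw [h1, Nat.card_zmod]
    apply dvd_pow_self
    exact (Module.finrank_pos).ne'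
  have h0 : (0 : Module.Dual (ZMod p) Z) ∈ MulAction.fixedPoints H (Module.Dual (ZMod p) Z) := by
    intro h
    rw [hsmul, LinearMap.zero_comp]
  obtain ⟨f, hf, hf0⟩ := hH.exists_fixed_point_of_prime_dvd_card_of_fixed_point _ hdvd h0
  apply hf0
  symm
  have hker : ∀ (h : H) (z : Z), f (act h z) = f z := by
    intro h z
    have := hf h⁻¹
    rw [hsmul, inv_inv] at this
    exact LinearMap.congr_fun this z
  have hle : Z ≤ (LinearMap.ker f).map Z.subtype := by
    refine hZ.trans (Submodule.span_le.2 ?_)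
    rintro r ⟨h, hh, z, hz, rfl⟩
    refine ⟨act ⟨h, hh⟩ ⟨z, hz⟩ - ⟨z, hz⟩, ?_, ?_⟩
    · rw [SetLike.mem_coe, LinearMap.mem_ker, map_sub, hker, sub_self]
    · rw [map_sub]
      change MonoidAlgebra.of (ZMod p) G h * z - z = uu p h * z
      rw [uu, sub_mul, one_mul]
  ext z
  obtain ⟨y, hy, hyz⟩ := hle z.2
  have : y = z := Subtype.ext hyz
  rw [LinearMap.zero_apply, ← this]
  exact hy

end C3Part

open C3Part in
theorem stC3 (p : ℕ) [hpp : Fact p.Prime] (G : Type) [Group G] [Finite G] (H : Subgroup G)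
    (L : ℕ) (C : ℕ → Subgroup G) (hC : Chain p H L C) (hexp : ∀ x ∈ H, x ^ p = 1) (d : ℕ → ℕ)
    (hd : ∀ i < L, Nat.card (C i) = p ^ d i * Nat.card (C (i + 1)))
    (l : List G) (hl : ∀ h ∈ l, h ∈ H)
    (hlen : (p - 1) * ∑ i ∈ range L, 3 ^ i * d i < l.length) :
    (l.map fun h => MonoidAlgebra.of (ZMod p) G h - 1).prod = 0 := by
  classical
  have hp : 2 ≤ p := hpp.out.two_le
  -- generators
  have hgens : ∀ i, ∃ s : Finset G, i < L → s.card ≤ d i ∧ (∀ g ∈ s, g ∈ C i) ∧
      C i ≤ Subgroup.closure (↑s ∪ (C (i + 1) : Set G)) := by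
    intro i
    by_cases hi : i < L
    · obtain ⟨s, h⟩ := exists_gens (p := p) (C i) (d i) (C (i + 1)) (hC.2.2.2.1 i) (hd i hi)
      exact ⟨s, fun _ => h⟩
    · exact ⟨∅, fun h => absurd h hi⟩
  choose s hs using hgens
  set D := (p - 1) * ∑ i ∈ range L, 3 ^ i * d i with hD
  have hstep : ∀ j, D < j → EE p C j ≤ EE p C (j + 1) := fun j hj =>
    step_le hC hexp d s (fun i hi => (hs i hi).2.1) (fun i hi => (hs i hi).1)
      (fun i hi => (hs i hi).2.2) hj
  have hstab : ∀ n, EE p C (D + 1) ≤ EE p C (D + 1 + n) := by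
    intro n
    induction n with
    | zero => exact le_rfl
    | succ n ih => exact ih.trans (hstep (D + 1 + n) (by omega))
  -- H is a p-group
  have hcardC : ∀ k, k ≤ L → ∃ e, Nat.card (C (L - k)) = p ^ e := by
    intro k
    induction k with
    | zero =>
      intro _
      refine ⟨0, ?_⟩
      rw [Nat.sub_zero, hC.2.1]; simp
    | succ k ih =>
      intro hk
      obtain ⟨e, he⟩ := ih (by omega)
      have h1 := hd (L - (k + 1)) (by omega)
      have h2 : L - (k + 1) + 1 = L - k := by omega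
      rw [h2, he] at h1
      exact ⟨d (L - (k + 1)) + e, by rw [h1, pow_add]⟩
  have hHp : IsPGroup p H := by
    obtain ⟨e, he⟩ := hcardC L le_rfl
    rw [Nat.sub_self, hC.1] at he
    exact IsPGroup.of_card he
  have hbot : EE p C (D + 1) = ⊥ := by
    apply eq_bot_of_le hHp
    · intro h hh z hz
      exact mul_mem_EE p C (of_mem p C (by rw [hC.1]; exact hh)) hz (by omega)
    · refine (hstab (3 ^ L)).trans ?_
      apply Submodule.span_le.2
      rintro r ⟨m, hm, hW, rfl⟩
      cases m with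
      | nil => simp [WW] at hW
      | cons a m =>
        have ha := hm a List.mem_cons_self
        by_cases hL : a.1 < L
        · rw [PP_cons]
          apply Submodule.subset_span
          refine ⟨a.2, ?_, PP p m, ?_, rfl⟩
          · have := C_le hC (Nat.zero_le _) ha
            rwa [hC.1] at this
          · apply PP_mem p C m (fun b hb => hm b (List.mem_cons_of_mem _ hb))
            rw [WW_cons] at hW
            have : 3 ^ a.1 ≤ 3 ^ L := Nat.pow_le_pow_right (by omega) hL.le
            omega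
        · have h1 : a.2 = 1 := C_top hC (not_lt.1 hL) ha
          have h0 : uu p a.2 = 0 := by rw [h1, uu_one]
          rw [PP_cons, h0, zero_mul]
          exact Submodule.zero_mem _
  have hmem : PP p (l.map fun h => ((0 : ℕ), h)) ∈ EE p C (D + 1) := by
    apply PP_mem
    · intro a ha
      obtain ⟨h, hh, rfl⟩ := List.mem_map.1 ha
      change h ∈ C 0
      rw [hC.1]; exact hl h hh
    · have : WW (l.map fun h => ((0 : ℕ), h)) = l.length := by
        simp [WW, List.map_map, Function.comp_def]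
      rw [this]; omega
  rw [hbot, Submodule.mem_bot] at hmem
  have : PP p (l.map fun h => ((0 : ℕ), h)) =
      (l.map fun h => MonoidAlgebra.of (ZMod p) G h - 1).prod := by
    simp only [PP, List.map_map]
    rfl
  rw [← this]
  exact hmem

end Pool.Agent.L0h35.Se
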