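import Pool.Agent.L0h35.SvDefs3

set_option autoImplicit false

/-!
# Elementary abelian sections and the exponent of matrix multiplication: module statements
-/

namespace Pool.Agent.L0h35.Se

open Finset Module Pool.Agent.L0h35.GT Pool.Agent.L0h35.Sv

/-- PAIR: the pairing `V × Q → W` given by commutators -/
def StPair : Prop := ∀ (p m : ℕ) [Fact p.Prime], p ∣ m.choose 2 →
  ∀ (Q : Type) [Group Q] [Finite Q] (V W : Subgroup Q), V.Normal →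
  ⁅V, (⊤ : Subgroup Q)⁆ ≤ W → W ≤ Subgroup.center Q → Nat.card W = p →
  ⁅(⊤ : Subgroup Q), ⊤⁆ ≤ V → (∀ x : Q, x ^ m ∈ V) →
  Nat.card Q * Nat.card ↥(V ⊓ Subgroup.center Q) ≤
      Nat.card ↥(Subgroup.centralizer (V : Set Q)) * Nat.card V ∧
    ⁅Subgroup.centralizer (V : Set Q), Subgroup.centralizer (V : Set Q)⁆ ≤ Subgroup.center Q ∧
    ∀ x ∈ Subgroup.centralizer (V : Set Q), x ^ m ∈ Subgroup.center Q

/-- REC: subgroups of class two -/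
def StRec : Prop := ∀ (p m : ℕ) [Fact p.Prime], p ∣ m.choose 2 →
  ∀ (S : Type) [Group S] [Finite S], IsPGroup p S → ∀ V : Subgroup S, V.Normal →
  ⁅(⊤ : Subgroup S), ⊤⁆ ≤ V → (∀ x : S, x ^ m ∈ V) →
  ∃ K Z : Subgroup S, Z ≤ K ∧ ⁅K, K⁆ ≤ Z ∧ ⁅Z, K⁆ = ⊥ ∧ (∀ x ∈ K, x ^ m ∈ Z) ∧
    Nat.card S * Nat.card Z ≤ Nat.card K * Nat.card V

/-- POW: subgroups of class two and exponent `p ^ 3` -/
def StPow : Prop := ∀ (p : ℕ) [Fact p.Prime] (S : Type) [Group S] [Finite S], IsPGroup p S →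
  ∀ V : Subgroup S, V.Normal → ⁅(⊤ : Subgroup S), ⊤⁆ ≤ V → (∀ x : S, x ^ p ^ 2 ∈ V) →
  ∃ D : Subgroup S, ⁅⁅D, D⁆, D⁆ = ⊥ ∧ (∀ x ∈ D, x ^ p ^ 3 = 1) ∧
    Nat.card S ≤ Nat.card D * Nat.card V

/-- TWO: the bound for groups with a large subgroup of class two and exponent `p ^ 3` -/
def StTwo : Prop := ∀ (p r : ℕ) [Fact p.Prime] (G : Type) [Group G] [Finite G] (D : Subgroup G),
  ⁅⁅D, D⁆, D⁆ = ⊥ → (∀ x ∈ D, x ^ p ^ 3 = 1) → p ^ r ≤ Nat.card D →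
  ∀ (I : Type) [Fintype I] (A B C : I → Finset G), STPP A B C → ∀ τ : ℝ, 2 ≤ τ →
    ∑ i, ((A i).card * (B i).card * (C i).card : ℝ) ^ (τ / 3) ≤
      (Nat.card G : ℝ) ^ (τ / 2) * Real.exp (-(r : ℝ) / (40000 * (p : ℝ) ^ 3))

/-- ELS: elementary abelian sections -/
def StEls : Prop := ∀ (p r : ℕ) [Fact p.Prime] (G : Type) [Group G] [Finite G]
  (X Y : Subgroup G), Y ≤ X → ⁅X, X⁆ ≤ Y → (∀ x ∈ X, x ^ p ∈ Y) →
  Nat.card X = p ^ r * Nat.card Y →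
  ∀ (I : Type) [Fintype I] (A B C : I → Finset G), STPP A B C → ∀ τ : ℝ, 2 ≤ τ →
    ∑ i, ((A i).card * (B i).card * (C i).card : ℝ) ^ (τ / 3) ≤
      (Nat.card G : ℝ) ^ (τ / 2) * Real.exp (-(r : ℝ) / (40000 * (p : ℝ) ^ 3))

/-- SOL: elementary abelian sections of solvable groups of bounded exponent -/
def StSol : Prop := ∀ (Q : Type) [Group Q] [Finite Q] (e ℓ : ℕ), 0 < e → 0 < ℓ →
  (∀ x : Q, x ^ e = 1) → ds (⊤ : Subgroup Q) ℓ = ⊥ →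
  ∃ (p r : ℕ) (A B : Subgroup Q), p.Prime ∧ B ≤ A ∧ ⁅A, A⁆ ≤ B ∧
    (∀ x ∈ A, x ^ p ∈ B) ∧ Nat.card A = p ^ r * Nat.card B ∧ (1 < Nat.card Q → p ∣ e) ∧
    Nat.card Q ≤ (p ^ r) ^ (ℓ * e)

/-- DLP: the derived length of a `p`-group -/
def StDlp : Prop := ∀ (p n ℓ : ℕ) [Fact p.Prime] (P : Type) [Group P] [Finite P],
  Nat.card P = p ^ n → n < 2 ^ ℓ → ds (⊤ : Subgroup P) ℓ = ⊥

end Pool.Agent.L0h35.Se
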