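import Pool.Agent.L0h35.SeDefs

set_option autoImplicit false

/-!
# Elementary abelian sections: module statements for odd primes
-/

namespace Pool.Agent.L0h35.Se

open Finset Module Pool.Agent.L0h35.GT Pool.Agent.L0h35.Sv

/-- GD3: groups of class two and exponent `p` -/
def StGd3 : Prop := ∀ (p : ℕ) [Fact p.Prime] (G : Type) [Group G] [Fintype G] (Z : Subgroup G)
  (d₀ d₁ : ℕ), Z ≤ Subgroup.center G → ⁅(⊤ : Subgroup G), ⊤⁆ ≤ Z → (∀ x : G, x ^ p = 1) →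
  Nat.card G = p ^ d₀ * Nat.card Z → Nat.card Z = p ^ d₁ → 60 * d₁ ≤ d₀ →
  ∀ N : ℕ, N726.BG.Good (Fin 3 × Fin N → G) (Real.exp (-(d₀ : ℝ) / 25) ^ (3 * N))

/-- POW3: subgroups of class two and exponent `p`, for odd `p` -/
def StPow3 : Prop := ∀ (p : ℕ) [Fact p.Prime], p ≠ 2 → ∀ (S : Type) [Group S] [Finite S],
  IsPGroup p S → ∀ V : Subgroup S, V.Normal → ⁅(⊤ : Subgroup S), ⊤⁆ ≤ V →
  (∀ x : S, x ^ p ∈ V) →
  ∃ D : Subgroup S, ⁅⁅D, D⁆, D⁆ = ⊥ ∧ (∀ x ∈ D, x ^ p = 1) ∧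
    Nat.card S ≤ Nat.card D * Nat.card V

/-- TWO3: the bound for groups with a large subgroup of class two and exponent `p` -/
def StTwo3 : Prop := ∀ (p r : ℕ) [Fact p.Prime] (G : Type) [Group G] [Finite G] (D : Subgroup G),
  ⁅⁅D, D⁆, D⁆ = ⊥ → (∀ x ∈ D, x ^ p = 1) → p ^ r ≤ Nat.card D →
  ∀ (I : Type) [Fintype I] (A B C : I → Finset G), STPP A B C → ∀ τ : ℝ, 2 ≤ τ →
    ∑ i, ((A i).card * (B i).card * (C i).card : ℝ) ^ (τ / 3) ≤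
      (Nat.card G : ℝ) ^ (τ / 2) * Real.exp (-(r : ℝ) / 1600)

/-- ELS3: elementary abelian sections -/
def StEls3 : Prop := ∀ (p r : ℕ) [Fact p.Prime] (G : Type) [Group G] [Finite G]
  (X Y : Subgroup G), Y ≤ X → ⁅X, X⁆ ≤ Y → (∀ x ∈ X, x ^ p ∈ Y) →
  Nat.card X = p ^ r * Nat.card Y →
  ∀ (I : Type) [Fintype I] (A B C : I → Finset G), STPP A B C → ∀ τ : ℝ, 2 ≤ τ →
    ∑ i, ((A i).card * (B i).card * (C i).card : ℝ) ^ (τ / 3) ≤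
      (Nat.card G : ℝ) ^ (τ / 2) * Real.exp (-(r : ℝ) / 320000)

end Pool.Agent.L0h35.Se
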