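import Pool.Agent.L0h35.SeDefs

set_option autoImplicit false

/-!
# Module DLP: the derived length of a `p`-group
-/

namespace Pool.Agent.L0h35.Se

open Pool.Agent.L0h35.GT Pool.Agent.L0h35.Sv

namespace DLP

variable {G : Type} [Group G]

/-- the three subgroups lemma modulo a normal subgroup -/
theorem tsl (N H1 H2 H3 : Subgroup G) [N.Normal] (h1 : ⁅⁅H2, H3⁆, H1⁆ ≤ N)
    (h2 : ⁅⁅H3, H1⁆, H2⁆ ≤ N) : ⁅⁅H1, H2⁆, H3⁆ ≤ N := by
  have key : ∀ A B C : Subgroup G, ⁅⁅A, B⁆, C⁆ ≤ N ↔
      ⁅⁅A.map (QuotientGroup.mk' N), B.map (QuotientGroup.mk' N)⁆,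
        C.map (QuotientGroup.mk' N)⁆ = ⊥ := by
    intro A B C
    rw [← Subgroup.map_commutator, ← Subgroup.map_commutator, Subgroup.map_eq_bot_iff,
      QuotientGroup.ker_mk']
  rw [key] at h1 h2 ⊢
  exact Subgroup.commutator_commutator_eq_bot_of_rotate h1 h2

theorem lcs_eq (n : ℕ) : lcs (⊤ : Subgroup G) n = (⊤ : Subgroup G).lowerCentralSeries n := by
  induction n with
  | zero => rfl
  | succ n ih => rw [lcs, ih]; rfl

theorem lcs_top_normal (n : ℕ) : (lcs (⊤ : Subgroup G) n).Normal := by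
  induction n with
  | zero => exact inferInstanceAs (⊤ : Subgroup G).Normal
  | succ n ih => rw [lcs]; exact Subgroup.commutator_normal _ _

theorem lcs_anti {m n : ℕ} (h : m ≤ n) : lcs (⊤ : Subgroup G) n ≤ lcs ⊤ m := by
  rw [lcs_eq, lcs_eq]
  exact Subgroup.lowerCentralSeries_antitone _ h

theorem lcs_comm_le (j : ℕ) : ∀ i : ℕ, ⁅lcs (⊤ : Subgroup G) i, lcs (⊤ : Subgroup G) j⁆ ≤
    lcs ⊤ (i + j + 1) := by
  induction j with
  | zero => intro i; exact le_rfl
  | succ j ih =>
    intro i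
    haveI := lcs_top_normal (G := G) (i + (j + 1) + 1)
    rw [Subgroup.commutator_comm]
    show ⁅⁅lcs (⊤ : Subgroup G) j, ⊤⁆, lcs (⊤ : Subgroup G) i⁆ ≤ _
    apply tsl
    · rw [Subgroup.commutator_comm ⊤ (lcs (⊤ : Subgroup G) i)]
      refine (ih (i + 1)).trans (lcs_anti (by omega))
    · refine (Subgroup.commutator_mono (ih i) le_rfl).trans ?_
      exact lcs_anti (m := i + (j + 1) + 1) (n := i + j + 1 + 1) (by omega)

theorem ds_le (l : ℕ) : ds (⊤ : Subgroup G) l ≤ lcs ⊤ (2 ^ l - 1) := by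
  induction l with
  | zero => exact le_rfl
  | succ l ih =>
    refine (Subgroup.commutator_mono ih ih).trans ((lcs_comm_le _ _).trans (lcs_anti ?_))
    have : 1 ≤ 2 ^ l := Nat.one_le_two_pow
    rw [pow_succ]; omega

theorem lcs_card (p n : ℕ) [hp : Fact p.Prime] [Finite G] (hG : Nat.card G = p ^ n) (i : ℕ) :
    lcs (⊤ : Subgroup G) i = ⊥ ∨ ∃ k, Nat.card (lcs (⊤ : Subgroup G) i) = p ^ k ∧ k + i ≤ n := by
  have hnil : ∃ N, lcs (⊤ : Subgroup G) N = ⊥ := by
    haveI : Group.IsNilpotent G := (IsPGroup.of_card hG).isNilpotent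
    obtain ⟨N, hN⟩ := Subgroup.nilpotent_iff_lowerCentralSeries.1 ‹Group.IsNilpotent G›
    exact ⟨N, by rw [lcs_eq, hN]⟩
  induction i with
  | zero => exact Or.inr ⟨n, by
      rw [lcs, ← hG]; exact Subgroup.card_top, le_rfl⟩
  | succ i ih =>
    by_cases hb : lcs (⊤ : Subgroup G) (i + 1) = ⊥
    · exact Or.inl hb
    · right
      rcases ih with h | ⟨k, hk, hki⟩
      · exfalso
        apply hb
        rw [lcs, h, Subgroup.commutator_bot_left]
      · have hle : lcs (⊤ : Subgroup G) (i + 1) ≤ lcs ⊤ i := lcs_anti (by omega)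
        have hne : lcs (⊤ : Subgroup G) (i + 1) ≠ lcs ⊤ i := by
          intro he
          apply hb
          obtain ⟨N, hN⟩ := hnil
          have h1 : ∀ m, lcs (⊤ : Subgroup G) (i + 1 + m) = lcs ⊤ (i + 1) := by
            intro m
            induction m with
            | zero => rfl
            | succ m ihm =>
              show ⁅lcs (⊤ : Subgroup G) (i + 1 + m), ⊤⁆ = _
              rw [ihm, he]
              exact he
          have h2 := h1 N
          have h3 : lcs (⊤ : Subgroup G) (i + 1 + N) ≤ lcs ⊤ N := lcs_anti (by omega)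
          rw [hN, le_bot_iff] at h3
          rw [← h2, h3]
        have hdvd : Nat.card (lcs (⊤ : Subgroup G) (i + 1)) ∣ p ^ k := by
          rw [← hk]; exact Subgroup.card_dvd_of_le hle
        obtain ⟨k', hk', hc⟩ := (Nat.dvd_prime_pow hp.out).1 hdvd
        refine ⟨k', hc, ?_⟩
        have : k' ≠ k := by
          intro he
          apply hne
          apply Subgroup.eq_of_le_of_card_ge hle
          rw [hk, hc, he]
        omega

end DLP

theorem stDlp : StDlp := by
  intro p n ℓ _ P _ _ hP hn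
  have h1 : lcs (⊤ : Subgroup P) n = ⊥ := by
    rcases DLP.lcs_card p n hP n with h | ⟨k, hk, hkn⟩
    · exact h
    · have : k = 0 := by omega
      rw [this, pow_zero] at hk
      exact (Subgroup.card_eq_one).1 hk
  rw [eq_bot_iff, ← h1]
  refine (DLP.ds_le ℓ).trans (DLP.lcs_anti ?_)
  omega

end Pool.Agent.L0h35.Se
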