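import Pool.Agent.L0h35.SeDefs

set_option autoImplicit false

/-!
# Module ELS: elementary abelian sections
-/

namespace Pool.Agent.L0h35.Se

open Pool.Agent.L0h35.GT Pool.Agent.L0h35.Sv
open scoped commutatorElement

theorem stEls_of (h1 : StPow) (h2 : StTwo) : StEls := by
  intro p r hp G _ _ X Y hYX hXX hXp hcard I _ A B C hst τ hτ
  have hY0 : 0 < Nat.card Y := Nat.card_pos
  obtain ⟨S, hSp, hP⟩ : ∃ S : Subgroup X, IsPGroup p S ∧
      Nat.card S = p ^ (r + (Nat.card Y).factorization p) := by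
    let P : Sylow p X := default
    refine ⟨P, P.isPGroup', ?_⟩
    rw [P.card_eq_multiplicity, hcard, Nat.factorization_mul (pow_pos hp.out.pos r).ne' hY0.ne',
      Finsupp.add_apply, hp.out.factorization_pow, Finsupp.single_eq_same]
  let φ : S →* G := X.subtype.comp S.subtype
  have hφ : Function.Injective φ := X.subtype_injective.comp S.subtype_injective
  let V : Subgroup S := Y.comap φ
  have hφX : ∀ x, φ x ∈ X := fun x => (x.1).2
  have hVc : ⁅(⊤ : Subgroup S), ⊤⁆ ≤ V := by
    rw [Subgroup.commutator_le]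
    intro x _ y _
    show φ ⁅x, y⁆ ∈ Y
    rw [map_commutatorElement]
    exact hXX (Subgroup.commutator_mem_commutator (hφX x) (hφX y))
  have hVn : V.Normal := by
    constructor
    intro x hx g
    have h3 : g * x * g⁻¹ = ⁅g, x⁆ * x := by rw [commutatorElement_def]; group
    rw [h3]
    exact mul_mem (hVc (Subgroup.commutator_mem_commutator (Subgroup.mem_top _)
      (Subgroup.mem_top _))) hx
  have hV2 : ∀ x : S, x ^ p ^ 2 ∈ V := by
    intro x
    show φ (x ^ p ^ 2) ∈ Y
    rw [map_pow, pow_two, pow_mul]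
    exact pow_mem (hXp _ (hφX x)) _
  obtain ⟨D, hD, hDp, hDc⟩ := h1 p S hSp V hVn hVc hV2
  -- orders
  have hVY : Nat.card V ∣ Nat.card Y := by
    have h3 : (V.map φ) ≤ Y := by
      rintro _ ⟨x, hx, rfl⟩
      exact hx
    rw [← Subgroup.card_map_of_injective (K := V) hφ]
    exact Subgroup.card_dvd_of_le h3
  obtain ⟨k, hk⟩ := IsPGroup.iff_card.1 (hSp.to_subgroup V)
  have hkY : k ≤ (Nat.card Y).factorization p := by
    rw [hk] at hVY
    exact (hp.out.pow_dvd_iff_le_factorization hY0.ne').1 hVY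
  have hr : p ^ r ≤ Nat.card D := by
    have h3 : p ^ r * Nat.card V ≤ Nat.card D * Nat.card V := by
      refine le_trans ?_ hDc
      rw [hP, pow_add, hk]
      exact Nat.mul_le_mul_left _ (Nat.pow_le_pow_right hp.out.pos hkY)
    exact Nat.le_of_mul_le_mul_right h3 Nat.card_pos
  refine h2 p r G (D.map φ) ?_ ?_ ?_ I A B C hst τ hτ
  · rw [← Subgroup.map_commutator, ← Subgroup.map_commutator, hD, Subgroup.map_bot]
  · rintro _ ⟨x, hx, rfl⟩
    rw [← map_pow, hDp x hx, map_one]
  · rw [Subgroup.card_map_of_injective hφ]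
    exact hr

end Pool.Agent.L0h35.Se
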