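import Pool.Agent.L0h35.SvDefs3

set_option autoImplicit false

/-!
# Arbitrary groups with a large `p`-subgroup: final steps
-/

namespace Pool.Agent.L0h35.Sv

open Finset Module Pool.Agent.L0h35.GT

theorem GoodIn.comp {S G : Type} [Group S] [Group G] {ρ : ℝ} (φ : S →* G)
    (hφ : Function.Injective φ) (h : GoodIn S ρ) : GoodIn G ρ := by
  obtain ⟨H, _, _, ψ, hψ, hg⟩ := h
  exact ⟨H, _, _, φ.comp ψ, hφ.comp hψ, hg⟩

theorem lcs_top_map {G : Type} [Group G] (S : Subgroup G) (n : ℕ) :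
    (lcs (⊤ : Subgroup S) n).map S.subtype = lcs S n := by
  induction n with
  | zero =>
    change (⊤ : Subgroup S).map S.subtype = S
    rw [← MonoidHom.range_eq_map, Subgroup.range_subtype]
  | succ n ih =>
    change (⁅lcs (⊤ : Subgroup S) n, (⊤ : Subgroup S)⁆).map S.subtype = ⁅lcs S n, S⁆
    rw [Subgroup.map_commutator, ih, ← MonoidHom.range_eq_map, Subgroup.range_subtype]

theorem lcs_lcs_map {G : Type} [Group G] (S : Subgroup G) (W : Subgroup S) (V : Subgroup G)
    (hW : W.map S.subtype = V) (n : ℕ) : (lcs W n).map S.subtype = lcs V n := by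
  induction n with
  | zero => exact hW
  | succ n ih =>
    change (⁅lcs W n, W⁆).map S.subtype = ⁅lcs V n, V⁆
    rw [Subgroup.map_commutator, ih, hW]

/-- the bound for one `p`-subgroup -/
theorem fin1_of (hPiv : StPiv) (hSel : StSel) {q C r : ℕ} (hKL : KLs q C r) (e c : ℕ) (δ : ℝ)
    (he : 0 < e) (hδ : 0 < δ) : ∃ κ : ℝ, 0 < κ ∧
    ∀ (G : Type) [Group G] [Finite G] (p : ℕ) (S : Subgroup G), p.Prime → IsPGroup p S →
      (∀ x ∈ S, x ^ e = 1) → lcs (lcs S q) c = ⊥ → (Nat.card G : ℝ) ^ δ ≤ Nat.card S →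
      ∀ (I : Type) [Fintype I] (A B C : I → Finset G), STPP A B C → ∀ τ : ℝ, 2 ≤ τ →
        ∑ i, ((A i).card * (B i).card * (C i).card : ℝ) ^ (τ / 3) ≤
          (Nat.card G : ℝ) ^ (τ / 2 - κ) := by
  obtain ⟨ε, hε, h⟩ := hSel q C r hKL e c he
  refine ⟨δ * ε, by positivity, fun G _ _ p S hp hS hexp hcl hcard I _ A B C hst τ hτ => ?_⟩
  have : Fact p.Prime := ⟨hp⟩
  have h0 : lcs (lcs (⊤ : Subgroup S) q) c = ⊥ := by
    have h1 := lcs_lcs_map S _ _ (lcs_top_map S q) c
    rw [hcl] at h1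
    exact (Subgroup.map_eq_bot_iff_of_injective _ S.subtype_injective).1 h1
  have h1 := h p S hS (fun x => Subtype.ext (by
    rw [Subgroup.coe_pow, Subgroup.coe_one]
    exact hexp x x.2)) h0
  have h2 := h1.comp S.subtype S.subtype_injective
  have hS0 : (0 : ℝ) < Nat.card S := by exact_mod_cast (Nat.card_pos (α := S))
  have hG0 : (0 : ℝ) < Nat.card G := by exact_mod_cast (Nat.card_pos (α := G))
  refine (hPiv G _ (Real.rpow_pos_of_pos hS0 _) h2 I A B C hst τ hτ).trans ?_
  have h3 : (Nat.card S : ℝ) ^ (-ε) ≤ (Nat.card G : ℝ) ^ (-(δ * ε)) := by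
    rw [Real.rpow_neg hS0.le, Real.rpow_neg hG0.le, Real.rpow_mul hG0.le]
    exact inv_anti₀ (by positivity) (Real.rpow_le_rpow (by positivity) hcard hε.le)
  calc (Nat.card G : ℝ) ^ (τ / 2) * (Nat.card S : ℝ) ^ (-ε) ≤
      (Nat.card G : ℝ) ^ (τ / 2) * (Nat.card G : ℝ) ^ (-(δ * ε)) :=
        mul_le_mul_of_nonneg_left h3 (by positivity)
    _ = _ := by
        rw [← Real.rpow_add hG0]
        congr 1

/-- a large Sylow subgroup -/
theorem exists_sylow (G : Type) [Group G] [Finite G] (e : ℕ) (he : 0 < e)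
    (hexp : ∀ x : G, x ^ e = 1) :
    ∃ (p : ℕ) (_ : Fact p.Prime) (P : Sylow p G),
      (Nat.card G : ℝ) ^ ((1 : ℝ) / e) ≤ Nat.card (P : Subgroup G) := by
  have hG0 : (0 : ℝ) < Nat.card G := by exact_mod_cast (Nat.card_pos (α := G))
  by_contra hcon
  push Not at hcon
  by_cases hG : Nat.card G = 1
  · have : Fact (Nat.Prime 2) := ⟨Nat.prime_two⟩
    have h1 := hcon 2 this (default : Sylow 2 G)
    rw [hG, Nat.cast_one, Real.one_rpow] at h1
    have h2 : (1 : ℝ) ≤ Nat.card ((default : Sylow 2 G) : Subgroup G) := by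
      exact_mod_cast Nat.card_pos
    linarith
  -- the primes of the order divide `e`
  have hpe : (Nat.card G).primeFactors ⊆ Finset.Icc 2 e := by
    intro p hp
    have hpp := Nat.prime_of_mem_primeFactors hp
    have : Fact p.Prime := ⟨hpp⟩
    obtain ⟨x, hx⟩ := exists_prime_orderOf_dvd_card' p (Nat.dvd_of_mem_primeFactors hp)
    have h1 : p ∣ e := by
      rw [← hx]
      exact orderOf_dvd_of_pow_eq_one (hexp x)
    exact Finset.mem_Icc.2 ⟨hpp.two_le, Nat.le_of_dvd he h1⟩
  have hcard : (Nat.card G).primeFactors.card ≤ e - 1 := by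
    refine (Finset.card_le_card hpe).trans ?_
    rw [Nat.card_Icc]
    omega
  have hprod : (Nat.card G : ℝ) = ∏ p ∈ (Nat.card G).primeFactors,
      ((p : ℝ) ^ (Nat.card G).factorization p) := by
    conv_lhs => rw [← Nat.factorization_prod_pow_eq_self (Nat.card_pos (α := G)).ne']
    rw [Finsupp.prod]
    push_cast
    rfl
  have hG1 : (1 : ℝ) ≤ Nat.card G := by exact_mod_cast Nat.card_pos
  have hne : (Nat.card G).primeFactors.Nonempty := by
    have := Nat.card_pos (α := G)
    exact Nat.nonempty_primeFactors.2 (by omega)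
  have hlt : (Nat.card G : ℝ) < ((Nat.card G : ℝ) ^ ((1 : ℝ) / e)) ^
      (Nat.card G).primeFactors.card := by
    conv_lhs => rw [hprod]
    rw [← Finset.prod_const]
    refine Finset.prod_lt_prod_of_nonempty (fun p hp => ?_) (fun p hp => ?_) hne
    · have hpp := Nat.prime_of_mem_primeFactors hp
      have := hpp.pos
      positivity
    · have hpp := Nat.prime_of_mem_primeFactors hp
      have : Fact p.Prime := ⟨hpp⟩
      have h1 := hcon p this (default : Sylow p G)
      rw [Sylow.card_eq_multiplicity] at h1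
      push_cast at h1
      exact h1
  rw [← Real.rpow_natCast, ← Real.rpow_mul hG0.le] at hlt
  have h3 : (1 : ℝ) / e * ((Nat.card G).primeFactors.card : ℝ) ≤ 1 := by
    rw [div_mul_eq_mul_div, one_mul, div_le_one (by exact_mod_cast he)]
    have : (Nat.card G).primeFactors.card ≤ e := by omega
    exact_mod_cast this
  have h4 : (Nat.card G : ℝ) ^ ((1 : ℝ) / e * ((Nat.card G).primeFactors.card : ℝ)) ≤
      (Nat.card G : ℝ) ^ (1 : ℝ) := Real.rpow_le_rpow_of_exponent_le hG1 h3
  rw [Real.rpow_one] at h4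
  exact absurd (hlt.trans_le h4) (lt_irrefl _)

end Pool.Agent.L0h35.Sv
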