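import Pool.Agent.L0h35.SeDefs2
import Pool.Agent.L0h35.Sv3Fin

set_option autoImplicit false

/-!
# Elementary abelian sections: final steps
-/

namespace Pool.Agent.L0h35.Se

open Finset Module Pool.Agent.L0h35.GT Pool.Agent.L0h35.Sv

/-- The sums of all families of triples of subsets of `G` with the simultaneous triple product
property are smaller by the factor `exp (-η)` than the trivial bound `|G| ^ (τ / 2)`. -/
def Saves (G : Type) [Group G] [Finite G] (η : ℝ) : Prop :=
  ∀ (I : Type) [Fintype I] (A B C : I → Finset G), STPP A B C → ∀ τ : ℝ, 2 ≤ τ →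
    ∑ i, ((A i).card * (B i).card * (C i).card : ℝ) ^ (τ / 3) ≤
      (Nat.card G : ℝ) ^ (τ / 2) * Real.exp (-η)

theorem Saves.mono {G : Type} [Group G] [Finite G] {η η' : ℝ} (h : Saves G η) (h' : η' ≤ η) :
    Saves G η' := fun I _ A B C hS τ hτ =>
  (h I A B C hS τ hτ).trans (mul_le_mul_of_nonneg_left
    (Real.exp_le_exp.2 (by linarith)) (Real.rpow_nonneg (Nat.cast_nonneg _) _))

/-- an elementary abelian section of a quotient of a subgroup -/
theorem saves_of_quotient (hE : StEls3) (G : Type) [Group G] [Finite G] (X Y : Subgroup G)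
    [(Y.subgroupOf X).Normal] (p r : ℕ) (hp : p.Prime)
    (A B : Subgroup (X ⧸ Y.subgroupOf X)) (hBA : B ≤ A) (hAA : ⁅A, A⁆ ≤ B)
    (hpow : ∀ x ∈ A, x ^ p ∈ B) (hcard : Nat.card A = p ^ r * Nat.card B) :
    Saves G ((r : ℝ) / 320000) := by
  have : Fact p.Prime := ⟨hp⟩
  set f := QuotientGroup.mk' (Y.subgroupOf X) with hf
  set A' := (A.comap f).map X.subtype with hA'
  set B' := (B.comap f).map X.subtype with hB'
  have hc : ∀ H : Subgroup (X ⧸ Y.subgroupOf X), Nat.card ((H.comap f).map X.subtype) =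
      Nat.card H * Nat.card (Y.subgroupOf X) := by
    intro H
    rw [Subgroup.card_map_of_injective X.subtype_injective]
    have h1 := Subgroup.index_comap_of_surjective H (QuotientGroup.mk'_surjective
      (Y.subgroupOf X))
    have h2 := (H.comap f).card_mul_index
    have h3 := H.card_mul_index
    have h4 := Subgroup.card_eq_card_quotient_mul_card_subgroup (Y.subgroupOf X)
    rw [h1, h4, ← h3] at h2
    have h5 : 0 < H.index := Nat.pos_of_ne_zero Subgroup.index_ne_zero_of_finite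
    apply Nat.eq_of_mul_eq_mul_right h5
    rw [h2]; ring
  intro I _ P Q R hS τ hτ
  have h := hE p r G A' B' (Subgroup.map_mono (Subgroup.comap_mono hBA)) (by
      rw [hA', ← Subgroup.map_commutator]
      refine Subgroup.map_mono ?_
      rw [← Subgroup.map_le_iff_le_comap, Subgroup.map_commutator]
      exact (Subgroup.commutator_mono (Subgroup.map_comap_le f A)
        (Subgroup.map_comap_le f A)).trans hAA)
    (by
      rintro _ ⟨x, hx, rfl⟩
      refine ⟨x ^ p, ?_, map_pow _ _ _⟩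
      change f (x ^ p) ∈ B
      rw [map_pow]
      exact hpow _ hx)
    (by rw [hA', hB', hc, hc, hcard]; ring) I P Q R hS τ hτ
  rwa [neg_div] at h

theorem card_quot {G : Type} [Group G] [Finite G] (X Y : Subgroup G) (hYX : Y ≤ X)
    [(Y.subgroupOf X).Normal] :
    (Nat.card (X ⧸ Y.subgroupOf X) : ℝ) = (Nat.card X : ℝ) / Nat.card Y := by
  have h4 := Subgroup.card_eq_card_quotient_mul_card_subgroup (Y.subgroupOf X)
  have h5 : Nat.card (Y.subgroupOf X) = Nat.card Y :=
    Nat.card_congr (Subgroup.subgroupOfEquivOfLe hYX).toEquiv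
  rw [h5] at h4
  have h6 : (0 : ℝ) < Nat.card Y := by exact_mod_cast (Nat.card_pos (α := Y))
  rw [h4]
  push_cast
  field_simp

/-- the numerical part -/
theorem num_bound {p r e t N : ℕ} (hp : p.Prime) (hpe : 1 < N → p ∣ e) (he : 0 < e) (ht : 0 < t)
    (hN : 0 < N) (h : N ≤ (p ^ r) ^ (t * e)) :
    Real.log N / (320000 * (e : ℝ) ^ 2 * t) ≤ (r : ℝ) / 320000 := by
  have he0 : (1 : ℝ) ≤ e := by exact_mod_cast he
  have ht0 : (1 : ℝ) ≤ t := by exact_mod_cast ht
  have hp0 : (2 : ℝ) ≤ p := by exact_mod_cast hp.two_le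
  rcases Nat.lt_or_ge 1 N with h1 | h1
  · have hpe' : (p : ℝ) ≤ e := by exact_mod_cast Nat.le_of_dvd he (hpe h1)
    have hlog : Real.log N ≤ (t * e : ℝ) * (r * Real.log p) := by
      have h2 : (N : ℝ) ≤ ((p : ℝ) ^ r) ^ (t * e) := by exact_mod_cast h
      have h3 := Real.log_le_log (by exact_mod_cast hN) h2
      rw [Real.log_pow, Real.log_pow] at h3
      push_cast at h3
      linarith
    have hlp : Real.log p ≤ e := (Real.log_le_sub_one_of_pos (by linarith)).trans (by linarith)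
    have hr0 : (0 : ℝ) ≤ r := Nat.cast_nonneg r
    have h4 : Real.log N ≤ t * e ^ 2 * r := by
      refine hlog.trans ?_
      have : (r : ℝ) * Real.log p ≤ r * e := mul_le_mul_of_nonneg_left hlp hr0
      calc (t * e : ℝ) * (r * Real.log p) ≤ (t * e : ℝ) * (r * e) :=
            mul_le_mul_of_nonneg_left this (by positivity)
        _ = _ := by ring
    rw [div_le_div_iff₀ (by positivity) (by positivity)]
    calc Real.log N * 320000 ≤ (t * e ^ 2 * r) * 320000 :=
          mul_le_mul_of_nonneg_right h4 (by positivity)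
      _ = _ := by ring
  · have : N = 1 := by omega
    rw [this, Nat.cast_one, Real.log_one, zero_div]
    positivity

/-- solvable sections of bounded exponent -/
theorem saves_solvable (hE : StEls3) (hSo : StSol) (G : Type) [Group G] [Finite G]
    (X Y : Subgroup G) (hYX : Y ≤ X) (hn : (Y.subgroupOf X).Normal) (e ℓ : ℕ) (he : 0 < e)
    (hℓ : 0 < ℓ) (hexp : ∀ x ∈ X, x ^ e ∈ Y) (hds : ds X ℓ ≤ Y) :
    Saves G (Real.log ((Nat.card X : ℝ) / Nat.card Y) / (320000 * (e : ℝ) ^ 2 * ℓ)) := by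
  have hmap : ∀ n, (ds (⊤ : Subgroup X) n).map X.subtype = ds X n := by
    intro n
    induction n with
    | zero =>
      change (⊤ : Subgroup X).map X.subtype = X
      rw [← MonoidHom.range_eq_map, Subgroup.range_subtype]
    | succ n ih =>
      change (⁅ds (⊤ : Subgroup X) n, ds (⊤ : Subgroup X) n⁆ : Subgroup X).map X.subtype =
        ⁅ds X n, ds X n⁆
      rw [Subgroup.map_commutator, ih]
  have hmap2 : ∀ n, (ds (⊤ : Subgroup X) n).map (QuotientGroup.mk' (Y.subgroupOf X)) =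
      ds (⊤ : Subgroup (X ⧸ Y.subgroupOf X)) n := by
    intro n
    induction n with
    | zero => exact Subgroup.map_top_of_surjective _ (QuotientGroup.mk'_surjective _)
    | succ n ih =>
      change (⁅ds (⊤ : Subgroup X) n, ds (⊤ : Subgroup X) n⁆ : Subgroup X).map _ =
        ⁅ds (⊤ : Subgroup (X ⧸ Y.subgroupOf X)) n, ds (⊤ : Subgroup (X ⧸ Y.subgroupOf X)) n⁆
      rw [Subgroup.map_commutator, ih]
  have hbot : ds (⊤ : Subgroup (X ⧸ Y.subgroupOf X)) ℓ = ⊥ := by
    rw [← hmap2, Subgroup.map_eq_bot_iff, QuotientGroup.ker_mk']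
    intro x hx
    rw [Subgroup.mem_subgroupOf]
    apply hds
    rw [← hmap]
    exact ⟨x, hx, rfl⟩
  obtain ⟨p, r, A, B, hp, hBA, hAA, hpow, hcard, hpe, hle⟩ := hSo (X ⧸ Y.subgroupOf X) e ℓ he hℓ
    (fun x => by
      obtain ⟨y, rfl⟩ := QuotientGroup.mk'_surjective _ x
      rw [← map_pow]
      rw [QuotientGroup.mk'_apply, QuotientGroup.eq_one_iff, Subgroup.mem_subgroupOf,
        Subgroup.coe_pow]
      exact hexp y y.2) hbot
  rw [← card_quot X Y hYX]
  exact (saves_of_quotient hE G X Y p r hp A B hBA hAA hpow hcard).mono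
    (num_bound hp hpe he hℓ Nat.card_pos hle)

/-- sections of bounded exponent -/
theorem saves_exponent (hE : StEls3) (hSo : StSol) (hD : StDlp) (G : Type) [Group G] [Finite G]
    (X Y : Subgroup G) (hYX : Y ≤ X) (hn : (Y.subgroupOf X).Normal) (e ℓ : ℕ) (he : 0 < e)
    (hℓ : 0 < ℓ) (hexp : ∀ x ∈ X, x ^ e ∈ Y) (hcl : Nat.card X < 2 ^ 2 ^ ℓ * Nat.card Y) :
    Saves G (Real.log ((Nat.card X : ℝ) / Nat.card Y) / (320000 * (e : ℝ) ^ 3 * ℓ)) := by
  have hQexp : ∀ x : X ⧸ Y.subgroupOf X, x ^ e = 1 := fun x => by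
    obtain ⟨y, rfl⟩ := QuotientGroup.mk'_surjective _ x
    rw [← map_pow]
    rw [QuotientGroup.mk'_apply, QuotientGroup.eq_one_iff, Subgroup.mem_subgroupOf,
      Subgroup.coe_pow]
    exact hexp y y.2
  have hQcard : Nat.card (X ⧸ Y.subgroupOf X) < 2 ^ 2 ^ ℓ := by
    have h4 := Subgroup.card_eq_card_quotient_mul_card_subgroup (Y.subgroupOf X)
    have h5 : Nat.card (Y.subgroupOf X) = Nat.card Y :=
      Nat.card_congr (Subgroup.subgroupOfEquivOfLe hYX).toEquiv
    rw [h5] at h4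
    rw [h4] at hcl
    exact Nat.lt_of_mul_lt_mul_right hcl
  obtain ⟨q, hq, P, hP⟩ := exists_sylow (X ⧸ Y.subgroupOf X) e he hQexp
  obtain ⟨n, hPn⟩ := P.isPGroup'.exists_card_eq
  have hn2 : n < 2 ^ ℓ := by
    have h1 : 2 ^ n ≤ q ^ n := Nat.pow_le_pow_left hq.out.two_le n
    have h2 : Nat.card P ≤ Nat.card (X ⧸ Y.subgroupOf X) :=
      Subgroup.card_le_card_group (P : Subgroup (X ⧸ Y.subgroupOf X))
    rw [hPn] at h2
    exact (Nat.pow_lt_pow_iff_right (by norm_num)).1 ((h1.trans h2).trans_lt hQcard)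
  have hds := hD q n ℓ P hPn hn2
  obtain ⟨p, r, A, B, hp, hBA, hAA, hpow, hcard, hpe, hle⟩ := hSo P e ℓ he hℓ
    (fun x => Subtype.ext (by rw [Subgroup.coe_pow, Subgroup.coe_one]; exact hQexp _)) hds
  have hcc : ∀ H : Subgroup P, Nat.card (H.map (P : Subgroup (X ⧸ Y.subgroupOf X)).subtype) =
      Nat.card H := fun H => Subgroup.card_map_of_injective
        (P : Subgroup (X ⧸ Y.subgroupOf X)).subtype_injective
  have h1 := saves_of_quotient hE G X Y p r hp
    (A.map (P : Subgroup (X ⧸ Y.subgroupOf X)).subtype)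
    (B.map (P : Subgroup (X ⧸ Y.subgroupOf X)).subtype) (Subgroup.map_mono hBA)
    (by rw [← Subgroup.map_commutator]; exact Subgroup.map_mono hAA)
    (by
      rintro _ ⟨x, hx, rfl⟩
      exact ⟨x ^ p, hpow x hx, map_pow _ _ _⟩)
    (by rw [hcc, hcc]; exact hcard)
  refine h1.mono (le_trans ?_ (num_bound hp hpe he hℓ Nat.card_pos hle))
  rw [← card_quot X Y hYX]
  have hQ0 : (0 : ℝ) < Nat.card (X ⧸ Y.subgroupOf X) := by exact_mod_cast Nat.card_pos
  have h2 : (1 / e : ℝ) * Real.log (Nat.card (X ⧸ Y.subgroupOf X)) ≤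
      Real.log (Nat.card P) := by
    rw [← Real.log_rpow hQ0]
    exact Real.log_le_log (Real.rpow_pos_of_pos hQ0 _) hP
  have he0 : (0 : ℝ) < e := by exact_mod_cast he
  have hl0 : (0 : ℝ) < ℓ := by exact_mod_cast hℓ
  rw [div_le_div_iff₀ (by positivity) (by positivity)]
  have h3 : Real.log (Nat.card (X ⧸ Y.subgroupOf X)) ≤ e * Real.log (Nat.card P) := by
    have := mul_le_mul_of_nonneg_left h2 he0.le
    rw [← mul_assoc, mul_one_div_cancel he0.ne', one_mul] at this
    exact this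
  calc Real.log (Nat.card (X ⧸ Y.subgroupOf X)) * (320000 * (e : ℝ) ^ 2 * ℓ) ≤
      (e * Real.log (Nat.card P)) * (320000 * (e : ℝ) ^ 2 * ℓ) :=
        mul_le_mul_of_nonneg_right h3 (by positivity)
    _ = _ := by ring

/-- comparison with the degrees of the irreducible representations -/
theorem card_le_sum_degrees {G : Type} [Group G] [Finite G] {K : Type} [Fintype K] (d : K → ℕ)
    (Φ : MonoidAlgebra ℂ G ≃ₐ[ℂ] ((k : K) → Matrix (Fin (d k)) (Fin (d k)) ℂ)) {τ : ℝ}
    (hτ : 2 ≤ τ) : (Nat.card G : ℝ) ≤ ∑ k, (d k : ℝ) ^ τ := by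
  have : Fintype G := Fintype.ofFinite G
  have h1 := Φ.toLinearEquiv.finrank_eq
  have h2 : finrank ℂ (MonoidAlgebra ℂ G) = Nat.card G := by
    rw [Nat.card_eq_fintype_card]
    rw [(MonoidAlgebra.coeffLinearEquiv (M := G) (S := ℂ) ℂ).finrank_eq]
    exact Module.finrank_finsupp_self (R := ℂ) (ι := G)
  have h3 : finrank ℂ ((k : K) → Matrix (Fin (d k)) (Fin (d k)) ℂ) = ∑ k, d k * d k := by
    rw [Module.finrank_pi_fintype]
    refine sum_congr rfl fun k _ => ?_
    rw [Module.finrank_matrix, Fintype.card_fin, Module.finrank_self, mul_one]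
  rw [h2, h3] at h1
  rw [h1]
  push_cast
  refine sum_le_sum fun k _ => ?_
  rcases Nat.eq_zero_or_pos (d k) with h0 | h0
  · rw [h0, Nat.cast_zero, Real.zero_rpow (by linarith), mul_zero]
  · have h4 : (1 : ℝ) ≤ d k := by exact_mod_cast h0
    calc (d k : ℝ) * d k = (d k : ℝ) ^ (2 : ℝ) := by
          rw [← sq, ← Real.rpow_natCast]
          norm_num
      _ ≤ (d k : ℝ) ^ τ := Real.rpow_le_rpow_of_exponent_le h4 hτ

/-- The group `G` cannot show `ω < 2 + 2 η / log |G|`. -/
theorem Saves.le_card {G : Type} [Group G] [Finite G] {η : ℝ} (h : Saves G η) {I : Type}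
    [Fintype I] {A B C : I → Finset G} (hS : STPP A B C) {τ : ℝ} (hτ : 2 ≤ τ)
    (hτ' : (τ - 2) * Real.log (Nat.card G) ≤ 2 * η) :
    ∑ i, ((A i).card * (B i).card * (C i).card : ℝ) ^ (τ / 3) ≤ Nat.card G := by
  have hG0 : (0 : ℝ) < Nat.card G := by exact_mod_cast (Nat.card_pos (α := G))
  refine (h I A B C hS τ hτ).trans ?_
  calc (Nat.card G : ℝ) ^ (τ / 2) * Real.exp (-η) =
      Real.exp (Real.log (Nat.card G) * (τ / 2) + -η) := by
        rw [Real.rpow_def_of_pos hG0, Real.exp_add]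
    _ ≤ Real.exp (Real.log (Nat.card G)) := Real.exp_le_exp.2 (by linarith)
    _ = Nat.card G := Real.exp_log hG0

end Pool.Agent.L0h35.Se
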