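import Pool.Agent.L0h35.SvDefs

/-!
# Module D: codimension of the powers of the augmentation ideal (helper71)
-/

set_option autoImplicit false

namespace Pool.Agent.L0h35.Sv

open Finset Module

namespace D

section gens

open scoped commutatorElement

variable {G : Type} [Group G] [Finite G]

omit [Group G] [Finite G] in
/-- a basis -/
lemma gens_mod (p : ℕ) [Fact p.Prime] (A : Type) [AddCommGroup A] [Module (ZMod p) A] [Finite A]
    (d : ℕ) (hc : Nat.card A = p ^ d) :
    ∃ b : Fin d → A, ∀ q, ∃ a : Fin d → ℕ, (∀ k, a k < p) ∧ ∑ k, a k • b k = q := by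
  have hMf : Module.Finite (ZMod p) A := Module.Finite.of_finite
  have hfin : finrank (ZMod p) A = d := by
    have h1 : Nat.card A = Nat.card (ZMod p) ^ finrank (ZMod p) A :=
      Module.natCard_eq_pow_finrank
    rw [hc, Nat.card_zmod] at h1
    exact (Nat.pow_right_injective (Fact.out : p.Prime).two_le h1).symm
  let b : Basis (Fin d) (ZMod p) A := finBasisOfFinrankEq _ _ hfin
  refine ⟨fun k => b k, fun q => ⟨fun k => (b.repr q k).val, fun k => ZMod.val_lt _, ?_⟩⟩
  conv_rhs => rw [← b.sum_repr q]
  refine Finset.sum_congr rfl fun k _ => ?_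
  rw [← Nat.cast_smul_eq_nsmul (ZMod p), ZMod.natCast_zmod_val]

omit [Group G] [Finite G] in
/-- generators of an elementary abelian group -/
lemma gens_abs (p : ℕ) [Fact p.Prime] (Q : Type) [CommGroup Q] [Finite Q]
    (hexp : ∀ x : Q, x ^ p = 1) (d : ℕ) (hc : Nat.card Q = p ^ d) :
    ∃ b : Fin d → Q, ∀ q, ∃ a : Fin d → ℕ, (∀ k, a k < p) ∧ ∏ k, b k ^ a k = q := by
  have hexp' : ∀ x : Additive Q, p • x = 0 := fun x => hexp (Additive.toMul x)
  have hfQ : Finite (Additive Q) := inferInstanceAs (Finite Q)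
  have hcQ : Nat.card (Additive Q) = p ^ d := hc
  obtain ⟨b, hb⟩ := @gens_mod p _ (Additive Q) _ (AddCommGroup.zmodModule hexp') hfQ d hcQ
  refine ⟨fun k => Additive.toMul (b k), fun q => ?_⟩
  obtain ⟨a, ha, h1⟩ := hb (Additive.ofMul q)
  refine ⟨a, ha, ?_⟩
  have h4 := congrArg Additive.toMul h1
  rw [toMul_sum] at h4
  simp only [toMul_nsmul] at h4
  exact h4

/-- generators of an elementary abelian section -/
lemma gens (p : ℕ) [Fact p.Prime] (H V : Subgroup G) (hV : V.Normal) (hVH : V ≤ H)
    (hcomm : ⁅H, H⁆ ≤ V) (hpow : ∀ h ∈ H, h ^ p ∈ V) (d : ℕ)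
    (hcard : Nat.card H = p ^ d * Nat.card V) :
    ∃ h : Fin d → G, (∀ k, h k ∈ H) ∧ ∀ x ∈ H, ∃ a : Fin d → ℕ, (∀ k, a k < p) ∧
      x * ((List.ofFn fun k => h k ^ a k).prod)⁻¹ ∈ V := by
  classical
  set V' : Subgroup H := V.subgroupOf H with hV'
  have hV'n : V'.Normal := by rw [hV']; infer_instance
  let iQ : CommGroup (H ⧸ V') :=
    { (inferInstance : Group (H ⧸ V')) with
      mul_comm := by
        intro a b
        obtain ⟨x, rfl⟩ := QuotientGroup.mk_surjective a
        obtain ⟨y, rfl⟩ := QuotientGroup.mk_surjective b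
        rw [← QuotientGroup.mk_mul, ← QuotientGroup.mk_mul, QuotientGroup.eq, hV',
          Subgroup.mem_subgroupOf]
        have h1 : (((x * y)⁻¹ * (y * x) : H) : G) =
            ⁅((y : G))⁻¹, ((x : G))⁻¹⁆ := by
          rw [commutatorElement_def]
          push_cast
          group
        rw [h1]
        exact hcomm (Subgroup.commutator_mem_commutator (H.inv_mem y.2) (H.inv_mem x.2)) }
  have hexp : ∀ x : H ⧸ V', x ^ p = 1 := by
    intro x
    obtain ⟨y, rfl⟩ := QuotientGroup.mk_surjective x
    rw [← QuotientGroup.mk_pow, QuotientGroup.eq_one_iff, hV', Subgroup.mem_subgroupOf]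
    push_cast
    exact hpow y y.2
  have hcQ : Nat.card (H ⧸ V') = p ^ d := by
    have h1 : Nat.card H = Nat.card (H ⧸ V') * Nat.card V' :=
      Subgroup.card_eq_card_quotient_mul_card_subgroup V'
    have h2 : Nat.card V' = Nat.card V := Nat.card_congr (Subgroup.subgroupOfEquivOfLe hVH).toEquiv
    have h3 : 0 < Nat.card V := Nat.card_pos
    rw [h2, hcard] at h1
    exact (Nat.eq_of_mul_eq_mul_right h3 h1).symm
  obtain ⟨b, hb⟩ := gens_abs p (H ⧸ V') hexp d hcQ
  choose h' hh' using fun k : Fin d => QuotientGroup.mk_surjective (b k)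
  refine ⟨fun k => (h' k : G), fun k => (h' k).2, fun x hx => ?_⟩
  obtain ⟨a, ha, hab⟩ := hb ((⟨x, hx⟩ : H) : H ⧸ V')
  refine ⟨a, ha, ?_⟩
  have h2 : ((List.ofFn fun k => h' k ^ a k).prod : H ⧸ V') =
      ((⟨x, hx⟩ : H) : H ⧸ V') := by
    have h3 : ((List.ofFn fun k => h' k ^ a k).prod : H ⧸ V') = ∏ k, b k ^ a k := by
      rw [← List.prod_ofFn]
      have := map_list_prod (QuotientGroup.mk' V') (List.ofFn fun k => h' k ^ a k)
      rw [QuotientGroup.mk'_apply] at this
      rw [this, List.map_ofFn]
      congr 2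
      funext k
      show ((h' k ^ a k : H) : H ⧸ V') = _
      rw [QuotientGroup.mk_pow, hh']
    rw [h3, hab]
  have h3 : (⟨x, hx⟩ : H) * ((List.ofFn fun k => h' k ^ a k).prod)⁻¹ ∈ V' := by
    rw [← QuotientGroup.eq_one_iff, QuotientGroup.mk_mul, QuotientGroup.mk_inv, h2,
      mul_inv_cancel]
  rw [hV', Subgroup.mem_subgroupOf] at h3
  have h4 := map_list_prod H.subtype (List.ofFn fun k => h' k ^ a k)
  rw [List.map_ofFn] at h4
  have h5 : ((List.ofFn fun k => h' k ^ a k).prod : G) =
      (List.ofFn fun k => (h' k : G) ^ a k).prod := by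
    refine h4.trans ?_
    congr 2
  rw [Subgroup.coe_mul, Subgroup.coe_inv, h5] at h3
  exact h3

end gens

section alg

variable {F A : Type} [Field F] [Ring A] [Algebra F A]

lemma span_pow (x : A) {n p : ℕ} (hn : n < p) :
    (x + 1) ^ n ∈ Submodule.span F {r | ∃ b : Fin p, r = x ^ (b : ℕ)} := by
  rw [(Commute.one_right x).add_pow]
  refine Submodule.sum_mem _ fun m hm => ?_
  rw [Finset.mem_range] at hm
  have h1 : x ^ m * 1 ^ (n - m) * ((n.choose m : ℕ) : A) = (n.choose m) • x ^ m := by
    rw [one_pow, mul_one, nsmul_eq_mul, Nat.cast_comm]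
  rw [h1]
  exact Submodule.smul_of_tower_mem _ _ (Submodule.subset_span ⟨⟨m, by omega⟩, rfl⟩)

lemma span_prod {d p : ℕ} (x : Fin d → A) (a : Fin d → ℕ) (ha : ∀ k, a k < p) :
    (List.ofFn fun k => (x k + 1) ^ a k).prod ∈ Submodule.span F
      {r | ∃ b : Fin d → Fin p, r = (List.ofFn fun k => x k ^ (b k : ℕ)).prod} := by
  induction d with
  | zero =>
    refine Submodule.subset_span ⟨fun k => k.elim0, ?_⟩
    simp
  | succ d ih =>
    rw [List.ofFn_succ, List.prod_cons]
    have h1 := span_pow (F := F) (x 0) (ha 0)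
    have h2 := ih (fun k => x k.succ) (fun k => a k.succ) (fun k => ha k.succ)
    have h3 := Submodule.mul_mem_mul h1 h2
    rw [Submodule.span_mul_span] at h3
    refine Submodule.span_mono ?_ h3
    rintro r ⟨r1, ⟨b0, rfl⟩, r2, ⟨b, rfl⟩, rfl⟩
    refine ⟨Fin.cons b0 b, ?_⟩
    rw [List.ofFn_succ, List.prod_cons]
    simp

end alg

section aug

variable {F G : Type} [Field F] [Group G] {H : Subgroup G}

lemma aug_succ (m : ℕ) : Aug F G H (m + 1) ≤ Aug F G H m := by
  unfold Aug
  rw [Submodule.span_le]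
  rintro r ⟨g, l, hl, hh, rfl⟩
  cases l with
  | nil => simp at hl
  | cons h l =>
    rw [List.length_cons] at hl
    have h1 : MonoidAlgebra.of F G g * ((h :: l).map fun h => MonoidAlgebra.of F G h - 1).prod =
        MonoidAlgebra.of F G (g * h) * (l.map fun h => MonoidAlgebra.of F G h - 1).prod -
        MonoidAlgebra.of F G g * (l.map fun h => MonoidAlgebra.of F G h - 1).prod := by
      rw [List.map_cons, List.prod_cons, map_mul]
      noncomm_ring
    rw [h1]
    have hl' : ∀ x ∈ l, x ∈ H := fun x hx => hh x (List.mem_cons_of_mem _ hx)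
    exact Submodule.sub_mem _ (Submodule.subset_span ⟨g * h, l, by omega, hl', rfl⟩)
      (Submodule.subset_span ⟨g, l, by omega, hl', rfl⟩)

lemma aug_anti {m n : ℕ} (h : m ≤ n) : Aug F G H n ≤ Aug F G H m :=
  antitone_nat_of_succ_le aug_succ h

lemma mem_aug {d p : ℕ} (h : Fin d → G) (hh : ∀ k, h k ∈ H) (b : Fin d → Fin p) (g : G) :
    MonoidAlgebra.of F G g *
      (List.ofFn fun k => (MonoidAlgebra.of F G (h k) - 1) ^ (b k : ℕ)).prod ∈
      Aug F G H (∑ k, (b k : ℕ)) := by
  refine Submodule.subset_span ⟨g, (List.ofFn fun k => List.replicate (b k : ℕ) (h k)).flatten,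
    ?_, ?_, ?_⟩
  · rw [List.length_flatten, List.map_ofFn, List.sum_ofFn]
    simp
  · intro x hx
    rw [List.mem_flatten] at hx
    obtain ⟨l, hl, hx⟩ := hx
    rw [List.mem_ofFn] at hl
    obtain ⟨k, rfl⟩ := hl
    rw [List.mem_replicate] at hx
    rw [hx.2]
    exact hh k
  · rw [List.map_flatten, List.prod_flatten, List.map_ofFn, List.map_ofFn]
    congr 3
    funext k
    simp

end aug

end D

open D in
/-- **D** -/
theorem stD : StD := by
  classical
  intro p _ G _ _ H V hH hV hVH hcomm hpow d hcard m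
  obtain ⟨h, hh, hgen⟩ := gens p H V hV hVH hcomm hpow d hcard
  have := Fintype.ofFinite G
  set F := ZMod p with hF
  set R := MonoidAlgebra F G with hR
  have hfR : Module.Finite F R := Module.Finite.of_basis (MonoidAlgebra.basis G F)
  have hrank : finrank F R = Nat.card G := by
    rw [finrank_eq_card_basis (MonoidAlgebra.basis G F), Nat.card_eq_fintype_card]
  -- the spanning family
  set Ix := (G ⧸ H) × V × {b : Fin d → Fin p // ∑ k, (b k : ℕ) < m} with hIx
  have hIxf : Fintype Ix := by
    have : Fintype (G ⧸ H) := Fintype.ofFinite _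
    have : Fintype V := Fintype.ofFinite _
    infer_instance
  set f : Ix → R := fun i => MonoidAlgebra.of F G ((Quotient.out i.1 : G) * i.2.1) *
    (List.ofFn fun k => (MonoidAlgebra.of F G (h k) - 1) ^ (i.2.2.1 k : ℕ)).prod with hf
  have htop : (⊤ : Submodule F R) ≤ Aug F G H m ⊔ Submodule.span F (Set.range f) := by
    intro r _
    induction r using MonoidAlgebra.induction_on with
    | of g =>
      -- g = s * x with x ∈ H
      set s : G := Quotient.out (g : G ⧸ H) with hs
      have hx : s⁻¹ * g ∈ H := by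
        rw [← QuotientGroup.eq, hs]
        exact Quotient.out_eq' _
      obtain ⟨a, ha, hac⟩ := hgen _ hx
      set P : G := (List.ofFn fun k => h k ^ a k).prod with hP
      set c : G := s⁻¹ * g * P⁻¹ with hc
      have hg : g = s * c * P := by rw [hc]; group
      rw [hg, map_mul]
      have hPa : MonoidAlgebra.of F G P =
          (List.ofFn fun k => ((MonoidAlgebra.of F G (h k) - 1) + 1) ^ a k).prod := by
        rw [hP, map_list_prod, List.map_ofFn]
        congr 2
        funext k
        simp
      have hPm := span_prod (F := F) (p := p) (fun k => MonoidAlgebra.of F G (h k) - 1) a ha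
      rw [← hPa] at hPm
      have key : ∀ q ∈ Submodule.span F {r | ∃ b : Fin d → Fin p,
          r = (List.ofFn fun k => (MonoidAlgebra.of F G (h k) - 1) ^ (b k : ℕ)).prod},
          MonoidAlgebra.of F G (s * c) * q ∈ Aug F G H m ⊔ Submodule.span F (Set.range f) := by
        intro q hq
        induction hq using Submodule.span_induction with
        | mem q hq =>
          obtain ⟨b, rfl⟩ := hq
          by_cases hb : ∑ k, (b k : ℕ) < m
          · refine Submodule.mem_sup_right (Submodule.subset_span ⟨(((g : G) : G ⧸ H), ⟨c, hac⟩, ⟨b, hb⟩), ?_⟩)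
            rfl
          · push Not at hb
            exact Submodule.mem_sup_left (aug_anti hb (mem_aug h hh b (s * c)))
        | zero => rw [mul_zero]; exact Submodule.zero_mem _
        | add x y _ _ hx hy => rw [mul_add]; exact Submodule.add_mem _ hx hy
        | smul t x _ hx => rw [mul_smul_comm]; exact Submodule.smul_mem _ _ hx
      exact key _ hPm
    | add x y hx hy => exact Submodule.add_mem _ (hx trivial) (hy trivial)
    | smul t x hx => exact Submodule.smul_mem _ _ (hx trivial)
  have h1 : finrank F R ≤ finrank F (Aug F G H m) + Fintype.card Ix := by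
    have h2 : finrank F (⊤ : Submodule F R) ≤
        finrank F (Aug F G H m ⊔ Submodule.span F (Set.range f) : Submodule F R) :=
      Submodule.finrank_mono htop
    rw [finrank_top] at h2
    refine h2.trans ((Submodule.finrank_add_le_finrank_add_finrank _ _).trans ?_)
    gcongr
    exact finrank_range_le_card f
  have h2 : p ^ d * Fintype.card Ix =
      Nat.card G * (univ.filter fun a : Fin d → Fin p => ∑ k, (a k : ℕ) < m).card := by
    have e1 : Fintype.card Ix = Nat.card (G ⧸ H) * (Nat.card V *
        (univ.filter fun a : Fin d → Fin p => ∑ k, (a k : ℕ) < m).card) := by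
      rw [← Nat.card_eq_fintype_card, hIx, Nat.card_prod, Nat.card_prod,
        Nat.card_eq_fintype_card (α := {b : Fin d → Fin p // ∑ k, (b k : ℕ) < m}),
        Fintype.card_subtype]
    have e2 : Nat.card G = Nat.card (G ⧸ H) * Nat.card H :=
      Subgroup.card_eq_card_quotient_mul_card_subgroup H
    rw [e1, e2, hcard]
    ring
  calc p ^ d * Nat.card G = p ^ d * finrank F R := by rw [hrank]
    _ ≤ p ^ d * (finrank F (Aug F G H m) + Fintype.card Ix) := Nat.mul_le_mul_left _ h1
    _ = _ := by rw [mul_add, h2]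

end Pool.Agent.L0h35.Sv
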