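import Pool.Agent.L0h35.SvDefs
import Mathlib

set_option autoImplicit false

namespace Pool.Agent.L0h35.Sv

open Finset Module

private lemma one_sum_le (p : ℕ) (hp : 2 ≤ p) (lam : ℝ) :
    ∑ j : Fin p, Real.exp (-(lam * ((j : ℕ) : ℝ) / ((p : ℝ) - 1))) ≤
      (p : ℝ) * Real.exp (-(lam / 2) + lam ^ 2 / 8) := by
  have hp1 : (1 : ℝ) ≤ (p : ℝ) - 1 := by
    have : (2 : ℝ) ≤ (p : ℝ) := by exact_mod_cast hp
    linarith
  set q : ℝ := (p : ℝ) - 1 with hq
  have hq0 : 0 < q := by linarith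
  let c : Fin p → ℝ := fun j => lam * (((j : ℕ) : ℝ) / q - 1 / 2)
  have hrev : ∀ j : Fin p, c (Fin.rev j) = -c j := by
    intro j
    have h : ((Fin.rev j : Fin p) : ℕ) = p - (j + 1) := Fin.val_rev j
    have h2 : (((Fin.rev j : Fin p) : ℕ) : ℝ) = q - (j : ℕ) := by
      rw [h, Nat.cast_sub (by omega)]
      push_cast
      rw [hq]; ring
    simp only [c, h2]
    field_simp
    ring
  have hsum : ∑ j : Fin p, Real.exp (-(c j)) = ∑ j : Fin p, Real.exp (c j) := by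
    rw [← Equiv.sum_comp Fin.revPerm]
    refine Finset.sum_congr rfl fun j _ => ?_
    rw [Fin.revPerm_apply, hrev j, neg_neg]
  have habs : ∀ j : Fin p, c j ^ 2 ≤ lam ^ 2 / 4 := by
    intro j
    have hj : ((j : ℕ) : ℝ) ≤ q := by
      have : (j : ℕ) + 1 ≤ p := j.2
      have : (((j : ℕ) : ℝ) + 1) ≤ (p : ℝ) := by exact_mod_cast this
      linarith
    have hj0 : (0 : ℝ) ≤ ((j : ℕ) : ℝ) := Nat.cast_nonneg _
    have h1 : 0 ≤ ((j : ℕ) : ℝ) / q := div_nonneg hj0 hq0.le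
    have h2 : ((j : ℕ) : ℝ) / q ≤ 1 := (div_le_one hq0).2 hj
    have h3 : (((j : ℕ) : ℝ) / q - 1 / 2) ^ 2 ≤ 1 / 4 := by nlinarith
    calc c j ^ 2 = lam ^ 2 * (((j : ℕ) : ℝ) / q - 1 / 2) ^ 2 := by simp only [c]; ring
      _ ≤ lam ^ 2 * (1 / 4) := by gcongr
      _ = lam ^ 2 / 4 := by ring
  have hc : ∑ j : Fin p, Real.exp (-(c j)) ≤ (p : ℝ) * Real.exp (lam ^ 2 / 8) := by
    have h2 : ∑ j : Fin p, Real.exp (-(c j)) = ∑ j : Fin p, Real.cosh (c j) := by
      have : ∑ j : Fin p, Real.cosh (c j) =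
          ((∑ j : Fin p, Real.exp (c j)) + ∑ j : Fin p, Real.exp (-(c j))) / 2 := by
        rw [← Finset.sum_add_distrib, Finset.sum_div]
        refine Finset.sum_congr rfl fun j _ => ?_
        rw [Real.cosh_eq]
      rw [this, ← hsum]; ring
    rw [h2]
    calc ∑ j : Fin p, Real.cosh (c j) ≤ ∑ _j : Fin p, Real.exp (lam ^ 2 / 8) := by
          refine Finset.sum_le_sum fun j _ => (Real.cosh_le_exp_half_sq _).trans ?_
          apply Real.exp_le_exp.2
          have := habs j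
          linarith
      _ = (p : ℝ) * Real.exp (lam ^ 2 / 8) := by simp
  have hfac : ∀ j : Fin p, Real.exp (-(lam * ((j : ℕ) : ℝ) / q)) =
      Real.exp (-(lam / 2)) * Real.exp (-(c j)) := by
    intro j
    rw [← Real.exp_add]
    congr 1
    simp only [c]
    ring
  calc ∑ j : Fin p, Real.exp (-(lam * ((j : ℕ) : ℝ) / q))
      = Real.exp (-(lam / 2)) * ∑ j : Fin p, Real.exp (-(c j)) := by
        rw [Finset.mul_sum]
        exact Finset.sum_congr rfl fun j _ => hfac j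
    _ ≤ Real.exp (-(lam / 2)) * ((p : ℝ) * Real.exp (lam ^ 2 / 8)) := by gcongr
    _ = (p : ℝ) * Real.exp (-(lam / 2) + lam ^ 2 / 8) := by rw [Real.exp_add]; ring

theorem stN : StN := by
  intro p hpp d m hm
  have hp : 2 ≤ p := hpp.out.two_le
  have hp1 : (1 : ℝ) ≤ (p : ℝ) - 1 := by
    have : (2 : ℝ) ≤ (p : ℝ) := by exact_mod_cast hp
    linarith
  set q : ℝ := (p : ℝ) - 1 with hq
  have hq0 : 0 < q := by linarith
  set S := univ.filter fun a : Fin d → Fin p => ∑ k, (a k : ℕ) < m with hS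
  have hle : ∀ a ∈ S, (∑ k, ((a k : ℕ) : ℝ)) ≤ (7 / 20) * q * d := by
    intro a ha
    have h1 : ∑ k, (a k : ℕ) < m := by simpa [hS] using ha
    have h2 : 20 * (∑ k, (a k : ℕ)) ≤ 7 * (p - 1) * d := by omega
    have h3 : (20 : ℝ) * (∑ k, ((a k : ℕ) : ℝ)) ≤ 7 * q * d := by
      have : ((20 * (∑ k, (a k : ℕ)) : ℕ) : ℝ) ≤ ((7 * (p - 1) * d : ℕ) : ℝ) := by
        exact_mod_cast h2
      push_cast [Nat.cast_sub (show 1 ≤ p by omega)] at this
      rw [hq]; exact this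
    linarith
  let lam : ℝ := 3 / 5
  have hlow : ∀ a ∈ S, Real.exp (-(7 / 20) * lam * d) ≤
      ∏ k, Real.exp (-(lam * ((a k : ℕ) : ℝ) / q)) := by
    intro a ha
    rw [← Real.exp_sum]
    apply Real.exp_le_exp.2
    have h1 := hle a ha
    have h2 : ∑ k, -(lam * ((a k : ℕ) : ℝ) / q) = -(lam / q) * ∑ k, ((a k : ℕ) : ℝ) := by
      rw [Finset.mul_sum]
      exact Finset.sum_congr rfl fun k _ => by ring
    rw [h2]
    have h3 : (lam / q) * ∑ k, ((a k : ℕ) : ℝ) ≤ (lam / q) * ((7 / 20) * q * d) := by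
      gcongr
    have h4 : (lam / q) * ((7 / 20) * q * d) = (7 / 20) * lam * d := by
      field_simp
    linarith
  have hsum : (S.card : ℝ) * Real.exp (-(7 / 20) * lam * d) ≤
      ((p : ℝ) * Real.exp (-(lam / 2) + lam ^ 2 / 8)) ^ d := by
    calc (S.card : ℝ) * Real.exp (-(7 / 20) * lam * d)
        = ∑ _a ∈ S, Real.exp (-(7 / 20) * lam * d) := by
          rw [Finset.sum_const, nsmul_eq_mul]
      _ ≤ ∑ a ∈ S, ∏ k, Real.exp (-(lam * ((a k : ℕ) : ℝ) / q)) := Finset.sum_le_sum hlow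
      _ ≤ ∑ a : Fin d → Fin p, ∏ k, Real.exp (-(lam * ((a k : ℕ) : ℝ) / q)) := by
          apply Finset.sum_le_sum_of_subset_of_nonneg (Finset.subset_univ _)
          intro a _ _
          exact Finset.prod_nonneg fun k _ => (Real.exp_pos _).le
      _ = (∑ j : Fin p, Real.exp (-(lam * ((j : ℕ) : ℝ) / q))) ^ d := by
          rw [Fintype.sum_pow]
      _ ≤ ((p : ℝ) * Real.exp (-(lam / 2) + lam ^ 2 / 8)) ^ d := by
          apply pow_le_pow_left₀
          · exact Finset.sum_nonneg fun j _ => (Real.exp_pos _).le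
          · exact one_sum_le p hp lam
  have hpos : 0 < Real.exp (-(7 / 20) * lam * d) := Real.exp_pos _
  have h5 : (S.card : ℝ) ≤ ((p : ℝ) * Real.exp (-(lam / 2) + lam ^ 2 / 8)) ^ d *
      Real.exp ((7 / 20) * lam * d) := by
    have h6 : Real.exp (-(7 / 20) * lam * d) * Real.exp ((7 / 20) * lam * d) = 1 := by
      rw [← Real.exp_add]; norm_num
    calc (S.card : ℝ) = (S.card : ℝ) * (Real.exp (-(7 / 20) * lam * d) *
          Real.exp ((7 / 20) * lam * d)) := by rw [h6, mul_one]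
      _ = ((S.card : ℝ) * Real.exp (-(7 / 20) * lam * d)) * Real.exp ((7 / 20) * lam * d) := by
          ring
      _ ≤ _ := by gcongr
  refine h5.trans ?_
  rw [mul_pow, ← Real.exp_nat_mul, mul_assoc, ← Real.exp_add]
  gcongr
  simp only [lam]
  have : (0 : ℝ) ≤ d := Nat.cast_nonneg _
  nlinarith

end Pool.Agent.L0h35.Sv
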