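import Pool.Agent.L0h35.SeC3
import Pool.Agent.L0h64.Sv.GJ

set_option autoImplicit false

/-!
# Isotropic ideals for groups of class two and exponent `p`
-/

namespace Pool.Agent.L0h35.Se

open Finset Module Pool.Agent.L0h35.GT Pool.Agent.L0h35.Sv Pool.Agent.L0h64.Sv

theorem good_power3 (hD : StD) (hN : StN) (p : ℕ) [Fact p.Prime] (G : Type) [Group G]
    [Fintype G] (L : ℕ) (C : ℕ → Subgroup G) (H : Subgroup G) (hch : Chain p H (L + 1) C)
    (hexp : ∀ x ∈ H, x ^ p = 1)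
    (d : ℕ → ℕ) (hd : ∀ i < L + 1, Nat.card (C i) = p ^ d i * Nat.card (C (i + 1)))
    (hsum : 20 * ∑ i ∈ range L, 3 ^ (i + 1) * d (i + 1) ≤ d 0) (κ : Type) [Fintype κ]
    [DecidableEq κ] :
    Pool.Agent.N726.BG.Good (κ → G) (Real.exp (-(d 0 : ℝ) / 25) ^ Fintype.card κ) := by
  obtain ⟨n, hn⟩ : ∃ n, n = Fintype.card κ := ⟨_, rfl⟩
  rw [← hn]
  have hch' := chain_pk (κ := κ) hch
  have hcard' : ∀ i < L + 1, Nat.card (pk κ (C i)) =
      p ^ (n * d i) * Nat.card (pk κ (C (i + 1))) := by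
    intro i hi
    rw [card_pk, card_pk, hd i hi, mul_pow, ← pow_mul, mul_comm n, hn]
  obtain ⟨S, hS⟩ : ∃ S, S = ∑ i ∈ range L, 3 ^ (i + 1) * d (i + 1) := ⟨_, rfl⟩
  rw [← hS] at hsum
  obtain ⟨D, hDd⟩ : ∃ D, D = (p - 1) * (n * (d 0 + S)) := ⟨_, rfl⟩
  have hD0 : (p - 1) * ∑ i ∈ range (L + 1), 3 ^ i * (n * d i) = D := by
    rw [hDd, sum_range_succ', pow_zero, one_mul, hS]
    congr 1
    rw [mul_add, mul_sum, add_comm]
    congr 1
    refine sum_congr rfl fun i _ => ?_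
    ring
  obtain ⟨m, hmd⟩ : ∃ m, m = D / 3 + 1 := ⟨_, rfl⟩
  have hDm : D < m + m + m := by omega
  have h20 : 20 * m ≤ 7 * (p - 1) * (n * d 0) + 20 := by
    have h1 : 20 * D ≤ 21 * ((p - 1) * (n * d 0)) := by
      calc 20 * D = (p - 1) * (n * (20 * d 0 + 20 * S)) := by rw [hDd]; ring
        _ ≤ (p - 1) * (n * (20 * d 0 + d 0)) := by gcongr
        _ = _ := by ring
    have h3 : 7 * (p - 1) * (n * d 0) = 7 * ((p - 1) * (n * d 0)) := by ring
    rw [h3]
    omega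
  have hHn : (pk κ H).Normal := by
    rw [← hch.1]
    exact pk_normal (hch.2.2.1 0)
  have hiso : Pool.Agent.N726.BG.Iso (JJ (ZMod p) (pk κ H) m) := by
    refine iso_JJ hHn fun l hl hlH => ?_
    exact stC3 p (κ → G) (pk κ H) (L + 1) _ hch' (fun x hx => by
      funext t
      exact hexp _ (mem_pk.1 hx t)) (fun i => n * d i) hcard' l hlH (by
      rw [hD0, hl]
      exact hDm)
  -- the codimension
  have hDr := hD p (κ → G) (pk κ H) (pk κ (C 1)) hHn (pk_normal (hch.2.2.1 1))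
    (pk_mono (by
      have := hch.2.2.2.1 0
      rwa [hch.1] at this))
    (pk_comm (by
      have := hch.2.2.2.2.2 0
      rwa [hch.1] at this))
    (fun h hh => mem_pk.2 fun t => by
      have := hch.2.2.2.2.1 0 (h t) (by
        rw [hch.1]
        exact mem_pk.1 hh t)
      exact this)
    (n * d 0) (by
      have := hcard' 0 (by omega)
      simpa only [hch.1] using this) m
  have hNr := hN p (n * d 0) m h20
  obtain ⟨f, hf⟩ : ∃ f, f = finrank (ZMod p) (Aug (ZMod p) (κ → G) (pk κ H) m) := ⟨_, rfl⟩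
  obtain ⟨c, hc⟩ : ∃ c, c = (univ.filter fun a : Fin (n * d 0) → Fin p =>
    ∑ k, (a k : ℕ) < m).card := ⟨_, rfl⟩
  refine ⟨ZMod p, inferInstance, JJ (ZMod p) (pk κ H) m, hiso, ?_⟩
  rw [finrank_JJ, ← hf]
  rw [← hf] at hDr
  rw [← hc] at hDr hNr
  obtain ⟨g, hg⟩ : ∃ g, g = Nat.card (κ → G) := ⟨_, rfl⟩
  rw [← Nat.card_eq_fintype_card, ← hg]
  rw [← hg] at hDr
  have hD' : (p : ℝ) ^ (n * d 0) * (g : ℝ) ≤
      (p : ℝ) ^ (n * d 0) * f + (g : ℝ) * c := by exact_mod_cast hDr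
  have hp0 : (0 : ℝ) < (p : ℝ) ^ (n * d 0) := by
    have : 0 < p := (Fact.out : p.Prime).pos
    positivity
  have h1 : (g : ℝ) * c ≤ (g : ℝ) *
      ((p : ℝ) ^ (n * d 0) * Real.exp (-((n * d 0 : ℕ) : ℝ) / 25)) :=
    mul_le_mul_of_nonneg_left hNr (by positivity)
  have h2 : (p : ℝ) ^ (n * d 0) * ((g : ℝ) - f) ≤
      (p : ℝ) ^ (n * d 0) * ((g : ℝ) * Real.exp (-((n * d 0 : ℕ) : ℝ) / 25)) := by
    nlinarith [h1, hD']
  have h3 := le_of_mul_le_mul_left h2 hp0
  have h4 : Real.exp (-(d 0 : ℝ) / 25) ^ n = Real.exp (-((n * d 0 : ℕ) : ℝ) / 25) := by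
    rw [← Real.exp_nat_mul]
    congr 1
    push_cast
    ring
  rw [h4]
  linarith

theorem stGd3 : StGd3 := by
  intro p _ G _ _ Z d₀ d₁ hZ hcomm hexp h0 h1 h60 N
  have hZn : Z.Normal := ⟨fun n hn g => by
    have := (Subgroup.mem_center_iff.1 (hZ hn)) g
    rw [this, mul_inv_cancel_right]
    exact hn⟩
  let C : ℕ → Subgroup G := fun i => if i = 0 then ⊤ else if i = 1 then Z else ⊥
  have hC0 : C 0 = ⊤ := rfl
  have hC1 : C 1 = Z := rfl
  have hC2 : ∀ i, C (i + 2) = ⊥ := fun i => rfl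
  have hch : Chain p (⊤ : Subgroup G) (1 + 1) C := by
    refine ⟨hC0, hC2 0, ?_, ?_, ?_, ?_⟩
    · intro i
      rcases i with _ | _ | i
      · rw [hC0]; infer_instance
      · change Z.Normal; exact hZn
      · change (⊥ : Subgroup G).Normal; infer_instance
    · intro i
      rcases i with _ | _ | i
      · rw [hC0]; exact le_top
      · change ⊥ ≤ Z; exact bot_le
      · change (⊥ : Subgroup G) ≤ ⊥; exact le_rfl
    · intro i c _
      rw [hexp c]
      exact one_mem _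
    · intro i
      rcases i with _ | _ | i
      · exact hcomm
      · change ⁅Z, (⊤ : Subgroup G)⁆ ≤ ⊥
        rw [le_bot_iff, Subgroup.commutator_eq_bot_iff_le_centralizer, Subgroup.coe_top,
          Subgroup.centralizer_univ]
        exact hZ
      · change ⁅(⊥ : Subgroup G), (⊤ : Subgroup G)⁆ ≤ ⊥
        rw [Subgroup.commutator_bot_left]
  have h := good_power3 stD stN p G 1 C ⊤ hch (fun x _ => hexp x)
    (fun i => if i = 0 then d₀ else d₁) (by
      intro i hi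
      rcases i with _ | _ | i
      · change Nat.card (⊤ : Subgroup G) = p ^ d₀ * Nat.card Z
        rw [Subgroup.card_top]
        exact h0
      · change Nat.card Z = p ^ d₁ * Nat.card (⊥ : Subgroup G)
        rw [h1, Subgroup.card_bot, mul_one]
      · omega) (by
      rw [sum_range_one]
      change 20 * (3 ^ 1 * d₁) ≤ d₀
      omega) (Fin 3 × Fin N)
  have e : Fintype.card (Fin 3 × Fin N) = 3 * N := by
    rw [Fintype.card_prod, Fintype.card_fin, Fintype.card_fin]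
  rw [e] at h
  exact h

end Pool.Agent.L0h35.Se
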