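import Pool.Agent.L0h35.SeDefs

set_option autoImplicit false

/-!
# Elementary abelian sections: module PAIR (helper57)
-/

namespace Pool.Agent.L0h35.Se

open Finset Module

/-- powers of a product in class two -/
theorem pow_class2 {Q : Type} [Group Q] {c z k : Q} (h : z * c = k * c * z) (hc : Commute k c)
    (hz : Commute k z) (n : ℕ) :
    z ^ n * c = k ^ n * c * z ^ n ∧ (c * z) ^ n = k ^ (n.choose 2) * c ^ n * z ^ n := by
  induction n with
  | zero => simp
  | succ n ih =>
    obtain ⟨h1, h2⟩ := ih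
    constructor
    · calc z ^ (n + 1) * c = z ^ n * (z * c) := by rw [pow_succ, mul_assoc]
        _ = z ^ n * (k * c * z) := by rw [h]
        _ = (z ^ n * k) * c * z := by group
        _ = (k * z ^ n) * c * z := by rw [(hz.pow_right n).eq]
        _ = k * (z ^ n * c) * z := by group
        _ = k * (k ^ n * c * z ^ n) * z := by rw [h1]
        _ = k ^ (n + 1) * c * z ^ (n + 1) := by
          rw [pow_succ' k, pow_succ z]; group
    · have e : (n + 1).choose 2 = n.choose 2 + n := by
        rw [Nat.choose_succ_succ' n 1, Nat.choose_one_right, add_comm]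
      have hcn : Commute (c ^ n) (k ^ n) := (hc.symm.pow_pow n n)
      calc (c * z) ^ (n + 1) = (c * z) ^ n * (c * z) := pow_succ _ _
        _ = k ^ (n.choose 2) * c ^ n * z ^ n * (c * z) := by rw [h2]
        _ = k ^ (n.choose 2) * c ^ n * (z ^ n * c) * z := by group
        _ = k ^ (n.choose 2) * c ^ n * (k ^ n * c * z ^ n) * z := by rw [h1]
        _ = k ^ (n.choose 2) * (c ^ n * k ^ n) * c * z ^ n * z := by group
        _ = k ^ (n.choose 2) * (k ^ n * c ^ n) * c * z ^ n * z := by rw [hcn.eq]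
        _ = k ^ ((n + 1).choose 2) * c ^ (n + 1) * z ^ (n + 1) := by
          rw [e, pow_add, pow_succ c, pow_succ z]
          group

section pair

variable {p : ℕ} [Fact p.Prime] {Q : Type} [Group Q] [Finite Q] (V W : Subgroup Q)

/-- the count of the pairing -/
theorem pair_card (hVW : ⁅V, (⊤ : Subgroup Q)⁆ ≤ W) (hWZ : W ≤ Subgroup.center Q)
    (hW : Nat.card W = p) :
    Nat.card Q * Nat.card ↥(V ⊓ Subgroup.center Q) ≤
      Nat.card ↥(Subgroup.centralizer (V : Set Q)) * Nat.card V := by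
  classical
  have hcw : ∀ u ∈ V, ∀ z : Q, u * z * u⁻¹ * z⁻¹ ∈ W := fun u hu z =>
    hVW (Subgroup.commutator_mem_commutator hu (Subgroup.mem_top z))
  have hcen : ∀ w ∈ W, ∀ g : Q, g * w = w * g := fun w hw g =>
    Subgroup.mem_center_iff.1 (hWZ hw) g
  let iW : CommGroup W :=
    { (inferInstance : Group W) with
      mul_comm := fun a b => Subtype.ext (hcen b.1 b.2 a.1) }
  let f0 : V → (Q →* W) := fun u =>
    { toFun := fun z => ⟨(u : Q) * z * (u : Q)⁻¹ * z⁻¹, hcw u u.2 z⟩
      map_one' := by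
        apply Subtype.ext
        show (u : Q) * 1 * (u : Q)⁻¹ * 1⁻¹ = 1
        group
      map_mul' := by
        intro z z'
        apply Subtype.ext
        show (u : Q) * (z * z') * (u : Q)⁻¹ * (z * z')⁻¹ =
          ((u : Q) * z * (u : Q)⁻¹ * z⁻¹) * ((u : Q) * z' * (u : Q)⁻¹ * z'⁻¹)
        have h1 := hcen _ (hcw u u.2 z') z
        calc (u : Q) * (z * z') * (u : Q)⁻¹ * (z * z')⁻¹ =
            ((u : Q) * z * (u : Q)⁻¹ * z⁻¹) * (z * ((u : Q) * z' * (u : Q)⁻¹ * z'⁻¹)) * z⁻¹ := by
              group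
          _ = ((u : Q) * z * (u : Q)⁻¹ * z⁻¹) * (((u : Q) * z' * (u : Q)⁻¹ * z'⁻¹) * z) * z⁻¹ := by
              rw [h1]
          _ = _ := by group }
  let f : V →* (Q →* W) :=
    { toFun := f0
      map_one' := by
        ext z
        show ((1 : V) : Q) * z * ((1 : V) : Q)⁻¹ * z⁻¹ = 1
        rw [Subgroup.coe_one]
        group
      map_mul' := by
        intro u u'
        ext z
        show ((u * u' : V) : Q) * z * ((u * u' : V) : Q)⁻¹ * z⁻¹ =
          ((u : Q) * z * (u : Q)⁻¹ * z⁻¹) * ((u' : Q) * z * (u' : Q)⁻¹ * z⁻¹)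
        rw [Subgroup.coe_mul]
        have h1 := hcen _ (hcw u' u'.2 z) ((u : Q) * z * (u : Q)⁻¹ * z⁻¹)
        have h2 := hcen _ (hcw u' u'.2 z) (u : Q)
        rw [h1]
        calc (u : Q) * (u' : Q) * z * ((u : Q) * (u' : Q))⁻¹ * z⁻¹ =
            ((u : Q) * ((u' : Q) * z * (u' : Q)⁻¹ * z⁻¹)) * (z * (u : Q)⁻¹ * z⁻¹) := by group
          _ = (((u' : Q) * z * (u' : Q)⁻¹ * z⁻¹) * (u : Q)) * (z * (u : Q)⁻¹ * z⁻¹) := by rw [h2]
          _ = _ := by group }
  have hfa : ∀ (u : V) (z : Q), ((f u z : W) : Q) = (u : Q) * z * (u : Q)⁻¹ * z⁻¹ :=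
    fun u z => rfl
  have : Finite (Q →* W) := DFunLike.finite _
  -- a faithful character
  have hp : p.Prime := Fact.out
  have : Fact (Nat.card W).Prime := ⟨by rw [hW]; exact hp⟩
  have hnt : Nontrivial W := by
    rw [← Finite.one_lt_card_iff_nontrivial, hW]
    exact hp.one_lt
  obtain ⟨a, ha⟩ := exists_ne (1 : W)
  obtain ⟨χ, hχ⟩ := CommGroup.exists_apply_ne_one_of_hasEnoughRootsOfUnity W ℂ ha
  have hker : χ.ker = ⊥ := by
    rcases Subgroup.eq_bot_or_eq_top_of_prime_card χ.ker with h | h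
    · exact h
    · exfalso
      apply hχ
      have : a ∈ χ.ker := by rw [h]; trivial
      exact this
  have hinj : ∀ w : W, χ w = 1 → w = 1 := by
    intro w hw
    have : w ∈ χ.ker := hw
    rw [hker] at this
    exact Subgroup.mem_bot.1 this
  let g : Q →* (f.range →* ℂˣ) :=
    { toFun := fun z =>
        { toFun := fun a => χ ((a : Q →* W) z)
          map_one' := by
            show χ ((1 : Q →* W) z) = 1
            rw [MonoidHom.one_apply, map_one]
          map_mul' := by
            intro a b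
            show χ (((a : Q →* W) * (b : Q →* W)) z) = _
            rw [MonoidHom.mul_apply, map_mul] }
      map_one' := by
        ext a
        show ((χ ((a : Q →* W) 1) : ℂˣ) : ℂ) = 1
        rw [map_one, map_one]
        rfl
      map_mul' := by
        intro z z'
        ext a
        show ((χ ((a : Q →* W) (z * z')) : ℂˣ) : ℂ) = ((χ ((a : Q →* W) z) *
          χ ((a : Q →* W) z') : ℂˣ) : ℂ)
        rw [map_mul, map_mul] }
  have hga : ∀ (z : Q) (a : f.range), g z a = χ ((a : Q →* W) z) := fun z a => rfl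
  have hkg : g.ker ≤ Subgroup.centralizer (V : Set Q) := by
    intro z hz
    rw [Subgroup.mem_centralizer_iff]
    intro u hu
    have h1 : g z = 1 := hz
    have h2 : g z ⟨f ⟨u, hu⟩, ⟨_, rfl⟩⟩ = 1 := by rw [h1]; rfl
    rw [hga] at h2
    have h3 := hinj _ h2
    have h4 := congrArg (fun w : W => (w : Q)) h3
    have h5 : u * z * u⁻¹ * z⁻¹ = 1 := h4
    calc u * z = (u * z * u⁻¹ * z⁻¹) * (z * u) := by group
      _ = z * u := by rw [h5, one_mul]
  have e1 : Nat.card Q = Nat.card g.ker * Nat.card g.range := by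
    rw [← Subgroup.index_ker, Subgroup.card_mul_index]
  have e2 : Nat.card V = Nat.card f.ker * Nat.card f.range := by
    rw [← Subgroup.index_ker, Subgroup.card_mul_index]
  obtain ⟨eq⟩ := CommGroup.monoidHom_mulEquiv_of_hasEnoughRootsOfUnity f.range ℂ
  have : Finite (f.range →* ℂˣ) := Finite.of_equiv _ eq.symm.toEquiv
  have e3 : Nat.card g.range ≤ Nat.card f.range := by
    refine (Nat.card_le_card_of_injective (Subtype.val : g.range → (f.range →* ℂˣ))
      Subtype.val_injective).trans (le_of_eq (Nat.card_congr eq.toEquiv))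
  have e4 : Nat.card g.ker ≤ Nat.card ↥(Subgroup.centralizer (V : Set Q)) :=
    Nat.card_le_card_of_injective (Subgroup.inclusion hkg) (Subgroup.inclusion_injective hkg)
  have e5 : Nat.card ↥(V ⊓ Subgroup.center Q) ≤ Nat.card f.ker := by
    refine Nat.card_le_card_of_injective
      (fun x : ↥(V ⊓ Subgroup.center Q) => (⟨⟨x.1, x.2.1⟩, ?_⟩ : f.ker)) ?_
    · show f ⟨x.1, x.2.1⟩ = 1
      ext z
      show x.1 * z * x.1⁻¹ * z⁻¹ = 1
      have h1 := Subgroup.mem_center_iff.1 x.2.2 z
      rw [← h1]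
      group
    · intro x y hxy
      apply Subtype.ext
      have h1 := congrArg (fun t : f.ker => ((t : V) : Q)) hxy
      exact h1
  calc Nat.card Q * Nat.card ↥(V ⊓ Subgroup.center Q)
      = (Nat.card g.ker * Nat.card g.range) * Nat.card ↥(V ⊓ Subgroup.center Q) := by rw [e1]
    _ ≤ (Nat.card ↥(Subgroup.centralizer (V : Set Q)) * Nat.card f.range) * Nat.card f.ker :=
      Nat.mul_le_mul (Nat.mul_le_mul e4 e3) e5
    _ = _ := by rw [e2]; ring

end pair

/-- PAIR -/
theorem stPair : StPair := by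
  intro p m hp hpm Q _ _ V W hV hVW hWZ hW hQQ hm
  refine ⟨pair_card V W hVW hWZ hW, ?_, ?_⟩
  · have h1 : ⁅⁅Subgroup.centralizer (V : Set Q), (⊤ : Subgroup Q)⁆,
        Subgroup.centralizer (V : Set Q)⁆ = ⊥ := by
      rw [Subgroup.commutator_comm, Subgroup.commutator_eq_bot_iff_le_centralizer]
      apply Subgroup.centralizer_le
      intro x hx
      exact hQQ (Subgroup.commutator_mono le_top le_rfl hx)
    have h2 : ⁅⁅(⊤ : Subgroup Q), Subgroup.centralizer (V : Set Q)⁆,
        Subgroup.centralizer (V : Set Q)⁆ = ⊥ := by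
      rw [Subgroup.commutator_comm (⊤ : Subgroup Q)]
      exact h1
    have h3 := Subgroup.commutator_commutator_eq_bot_of_rotate h1 h2
    rw [Subgroup.commutator_eq_bot_iff_le_centralizer] at h3
    rw [← Subgroup.centralizer_univ]
    exact h3
  · intro x hx
    rw [Subgroup.mem_center_iff]
    intro z
    have hxV : ∀ v ∈ V, v * x = x * v := fun v hv => Subgroup.mem_centralizer_iff.1 hx v hv
    set c : Q := x * z * x⁻¹ * z⁻¹ with hc
    have hcV : c ∈ V := hQQ (Subgroup.commutator_mem_commutator (Subgroup.mem_top x)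
      (Subgroup.mem_top z))
    set k : Q := (c * z * c⁻¹ * z⁻¹)⁻¹ with hk
    have hkW : k ∈ W := inv_mem (hVW (Subgroup.commutator_mem_commutator hcV
      (Subgroup.mem_top z)))
    have hkc : ∀ y : Q, Commute k y := fun y =>
      (Subgroup.mem_center_iff.1 (hWZ hkW) y).symm
    have h1 : z * c = k * c * z := by
      rw [hk]
      group
    have h2 := (pow_class2 h1 (hkc c) (hkc z) m).2
    have hkp : k ^ (m.choose 2) = 1 := by
      have h3 : (⟨k, hkW⟩ : W) ^ Nat.card W = 1 := pow_card_eq_one'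
      have h4 : k ^ p = 1 := by
        rw [hW] at h3
        exact congrArg (fun w : W => (w : Q)) h3
      obtain ⟨t, ht⟩ := hpm
      rw [ht, pow_mul, h4, one_pow]
    rw [hkp, one_mul] at h2
    have h5 : (c * z) ^ m = z ^ m := by
      have e : c * z = x * z * x⁻¹ := by rw [hc]; group
      rw [e, conj_pow, ← hxV _ (hm z)]
      group
    have hcm : c ^ m = 1 := by
      rw [h5] at h2
      exact (mul_eq_right.1 h2.symm)
    have h6 : z * x * z⁻¹ = c⁻¹ * x := by rw [hc]; group
    have h7 : (z * x * z⁻¹) ^ m = x ^ m := by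
      have hcx : Commute c⁻¹ x := (show Commute c x from hxV c hcV).inv_left
      rw [h6, hcx.mul_pow, inv_pow, hcm, inv_one, one_mul]
    rw [conj_pow] at h7
    calc z * x ^ m = z * x ^ m * z⁻¹ * z := by group
      _ = x ^ m * z := by rw [h7]

end Pool.Agent.L0h35.Se
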