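import Pool.Agent.L0h35.SePair

set_option autoImplicit false

/-!
# Elementary abelian sections: module POW (helper57)
-/

namespace Pool.Agent.L0h35.Se

open Finset Module

theorem choose_two_mul (n : ℕ) : 2 * n.choose 2 = n * (n - 1) := by
  rw [Nat.choose_two_right]
  exact Nat.mul_div_cancel' (Nat.even_mul_pred_self n).two_dvd

theorem dvd_choose {p : ℕ} (hp : p.Prime) : p ∣ (p ^ 2).choose 2 ∧ p ^ 2 ∣ (p ^ 3).choose 2 := by
  rcases hp.eq_two_or_odd' with rfl | ho
  · decide
  · have hco : ∀ n, Nat.Coprime (p ^ n) 2 := fun n =>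
      Nat.Coprime.pow_left n (Nat.coprime_two_right.2 ho)
    constructor
    · have h1 : p ^ 2 ∣ 2 * (p ^ 2).choose 2 := by
        rw [choose_two_mul]
        exact Dvd.intro _ rfl
      exact (dvd_pow_self p (by norm_num)).trans ((hco 2).dvd_of_dvd_mul_left h1)
    · have h1 : p ^ 3 ∣ 2 * (p ^ 3).choose 2 := by
        rw [choose_two_mul]
        exact Dvd.intro _ rfl
      exact (pow_dvd_pow p (by norm_num)).trans ((hco 3).dvd_of_dvd_mul_left h1)

/-- POW -/
theorem stPow_of (h : StRec) : StPow := by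
  intro p hp S _ _ hS V hV hSS hx
  have hpp : p.Prime := Fact.out
  obtain ⟨K, Z, hZK, hKK, hZKc, hKm, hcard⟩ := h p (p ^ 2) (dvd_choose hpp).1 S hS V hV hSS hx
  have hcen : ∀ z ∈ Z, ∀ x ∈ K, Commute z x := by
    intro z hz x hx
    have h1 := Subgroup.commutator_eq_bot_iff_le_centralizer.1 hZKc hz
    exact (Subgroup.mem_centralizer_iff.1 h1 x hx).symm
  have hmul : ∀ x ∈ K, ∀ y ∈ K, (x * y) ^ p ^ 3 = x ^ p ^ 3 * y ^ p ^ 3 := by
    intro x hx y hy
    set k : S := y * x * y⁻¹ * x⁻¹ with hk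
    have hkZ : k ∈ Z := hKK (Subgroup.commutator_mem_commutator hy hx)
    have h1 : y * x = k * x * y := by rw [hk]; group
    have hkx := hcen k hkZ x hx
    have hky := hcen k hkZ y hy
    have h2 := (pow_class2 h1 hkx hky (p ^ 2)).1
    have h3 := hcen _ (hKm y hy) x hx
    have hk2 : k ^ p ^ 2 = 1 := by
      rw [h3.eq, mul_assoc] at h2
      exact (mul_eq_right.1 h2.symm)
    have h4 := (pow_class2 h1 hkx hky (p ^ 3)).2
    obtain ⟨t, ht⟩ := (dvd_choose hpp).2
    rw [h4, ht, pow_mul, hk2, one_pow, one_mul]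
  have hmem : ∀ x ∈ K, x ^ p ^ 3 ∈ Z := by
    intro x hx
    have : x ^ p ^ 3 = (x ^ p ^ 2) ^ p := by rw [← pow_mul, ← pow_succ]
    rw [this]
    exact pow_mem (hKm x hx) p
  let φ : K →* Z :=
    { toFun := fun x => ⟨(x : S) ^ p ^ 3, hmem x x.2⟩
      map_one' := Subtype.ext (by
        show ((1 : K) : S) ^ p ^ 3 = 1
        rw [Subgroup.coe_one, one_pow])
      map_mul' := fun x y => Subtype.ext (by
        show ((x * y : K) : S) ^ p ^ 3 = (x : S) ^ p ^ 3 * (y : S) ^ p ^ 3
        rw [Subgroup.coe_mul]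
        exact hmul x x.2 y y.2) }
  have hDK : φ.ker.map K.subtype ≤ K := by
    rintro _ ⟨x, -, rfl⟩
    exact x.2
  refine ⟨φ.ker.map K.subtype, ?_, ?_, ?_⟩
  · rw [eq_bot_iff, ← hZKc]
    exact Subgroup.commutator_mono ((Subgroup.commutator_mono hDK hDK).trans hKK) hDK
  · rintro _ ⟨x, hx, rfl⟩
    have h1 : φ x = 1 := hx
    exact congrArg (fun w : Z => (w : S)) h1
  · have e1 : Nat.card K = Nat.card φ.ker * Nat.card φ.range := by
      rw [← Subgroup.index_ker, Subgroup.card_mul_index]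
    have e2 : Nat.card φ.range ≤ Nat.card Z :=
      Nat.card_le_card_of_injective (Subtype.val : φ.range → Z) Subtype.val_injective
    have e3 : Nat.card ↥(φ.ker.map K.subtype) = Nat.card φ.ker :=
      (Nat.card_congr (Subgroup.equivMapOfInjective φ.ker K.subtype
        (Subgroup.subtype_injective K)).toEquiv).symm
    have hZ0 : 0 < Nat.card Z := Nat.card_pos
    have h1 : Nat.card S * Nat.card Z ≤
        (Nat.card ↥(φ.ker.map K.subtype) * Nat.card V) * Nat.card Z := by
      calc Nat.card S * Nat.card Z ≤ Nat.card K * Nat.card V := hcard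
        _ = Nat.card φ.ker * Nat.card φ.range * Nat.card V := by rw [e1]
        _ ≤ Nat.card φ.ker * Nat.card Z * Nat.card V := by gcongr
        _ = _ := by rw [e3]; ring
    exact Nat.le_of_mul_le_mul_right h1 hZ0

end Pool.Agent.L0h35.Se
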