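import Pool.Agent.L0h35.SeDefs

set_option autoImplicit false

/-!
# Subgroups of class two of a `p`-group
-/

namespace Pool.Agent.L0h35.Se

open Finset Module Pool.Agent.L0h35.GT Pool.Agent.L0h35.Sv

theorem card_comap_mk {S : Type} [Group S] [Finite S] (N : Subgroup S) [N.Normal]
    (K : Subgroup (S ⧸ N)) :
    Nat.card (K.comap (QuotientGroup.mk' N)) = Nat.card K * Nat.card N := by
  have h1 := Subgroup.index_comap_of_surjective K (QuotientGroup.mk'_surjective N)
  have h2 := (K.comap (QuotientGroup.mk' N)).card_mul_index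
  have h3 := K.card_mul_index
  have h4 := Subgroup.card_eq_card_quotient_mul_card_subgroup N
  rw [h1, h4, ← h3] at h2
  have h5 : 0 < K.index := Nat.pos_of_ne_zero Subgroup.index_ne_zero_of_finite
  apply Nat.eq_of_mul_eq_mul_right h5
  rw [h2]; ring

theorem exists_central_step {p : ℕ} [Fact p.Prime] {S : Type} [Group S] [Finite S]
    (hS : IsPGroup p S) (W : Subgroup S) [hW : W.Normal] (hne : W ≠ ⊥) :
    ∃ N : Subgroup S, N.Normal ∧ N ≤ W ∧ ⁅W, (⊤ : Subgroup S)⁆ ≤ N ∧
      Nat.card W = p * Nat.card N := by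
  have hp : p.Prime := Fact.out
  have hnil : Group.IsNilpotent S := hS.isNilpotent
  -- the commutator subgroup is proper
  have hlt : ⁅W, (⊤ : Subgroup S)⁆ < W := by
    refine lt_of_le_of_ne (Subgroup.commutator_le_left W ⊤) fun heq => hne ?_
    obtain ⟨n, hn⟩ := (Subgroup.nilpotent_iff_lowerCentralSeries).1 hnil
    have : ∀ k, W ≤ (⊤ : Subgroup S).lowerCentralSeries k := by
      intro k
      induction k with
      | zero => exact le_top
      | succ k ih =>
        rw [Subgroup.lowerCentralSeries_succ]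
        conv_lhs => rw [← heq]
        exact Subgroup.commutator_mono ih le_rfl
    exact le_bot_iff.1 ((this n).trans hn.le)
  obtain ⟨b, hb⟩ := (hS.to_subgroup W).exists_card_eq
  obtain ⟨a, ha⟩ := (hS.to_subgroup ⁅W, (⊤ : Subgroup S)⁆).exists_card_eq
  have hab : a < b := by
    have h1 : Nat.card (⁅W, (⊤ : Subgroup S)⁆ : Subgroup S) < Nat.card W := by
      refine lt_of_le_of_ne (Nat.card_le_card_of_injective _ (Subgroup.inclusion_injective hlt.le))
        fun h => hlt.ne (Subgroup.eq_of_le_of_card_ge hlt.le h.ge)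
    rw [ha, hb] at h1
    exact (Nat.pow_lt_pow_iff_right hp.one_lt).1 h1
  have hcard : Nat.card (⁅W, (⊤ : Subgroup S)⁆.subgroupOf W) = p ^ a := by
    rw [← ha]
    exact Nat.card_congr (Subgroup.subgroupOfEquivOfLe hlt.le).toEquiv
  obtain ⟨N', hN', hle⟩ := Sylow.exists_subgroup_card_pow_prime_le (G := W) (p := p)
    (n := a) (m := b - 1) (by rw [hb]; exact pow_dvd_pow _ (Nat.sub_le _ _))
    (⁅W, (⊤ : Subgroup S)⁆.subgroupOf W) hcard (by omega)
  have hle2 : ⁅W, (⊤ : Subgroup S)⁆ ≤ N'.map W.subtype := by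
    intro x hx
    exact ⟨⟨x, hlt.le hx⟩, hle (by rwa [Subgroup.mem_subgroupOf]), rfl⟩
  refine ⟨N'.map W.subtype, ⟨fun n hn g => ?_⟩, Subgroup.map_subtype_le _, hle2, ?_⟩
  · have hnW : n ∈ W := Subgroup.map_subtype_le _ hn
    have h1 : g * n * g⁻¹ * n⁻¹ ∈ N'.map W.subtype := by
      apply hle2
      rw [Subgroup.commutator_comm]
      exact Subgroup.commutator_mem_commutator (Subgroup.mem_top g) hnW
    have h2 : g * n * g⁻¹ = g * n * g⁻¹ * n⁻¹ * n := by group
    rw [h2]
    exact mul_mem h1 hn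
  · rw [Subgroup.card_map_of_injective W.subtype_injective, hN', hb, ← pow_succ']
    congr 1
    omega

theorem stRec_of (hP : StPair) : StRec := by
  intro p m _ hpm
  have hp : p.Prime := Fact.out
  suffices H : ∀ (n : ℕ) (S : Type) [Group S] [Finite S], IsPGroup p S → ∀ V : Subgroup S,
      V.Normal → ⁅(⊤ : Subgroup S), ⊤⁆ ≤ V → (∀ x : S, x ^ m ∈ V) → Nat.card V < n →
      ∃ K Z : Subgroup S, Z ≤ K ∧ ⁅K, K⁆ ≤ Z ∧ ⁅Z, K⁆ = ⊥ ∧ (∀ x ∈ K, x ^ m ∈ Z) ∧
        Nat.card S * Nat.card Z ≤ Nat.card K * Nat.card V by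
    intro S _ _ hS V hV h1 h2
    exact H _ S hS V hV h1 h2 (Nat.lt_succ_self _)
  intro n
  induction n with
  | zero => intro S _ _ _ V _ _ _ h; omega
  | succ n ih =>
    intro S _ _ hS V hV hcomm hpow hcard
    by_cases hbot : ⁅V, (⊤ : Subgroup S)⁆ = ⊥
    · refine ⟨⊤, V, le_top, hcomm, hbot, fun x _ => hpow x, ?_⟩
      rw [Subgroup.card_top]
    obtain ⟨N, hN, hNW, hWN, hWcard⟩ := exists_central_step hS ⁅V, (⊤ : Subgroup S)⁆ hbot
    have hNV : N ≤ V := hNW.trans (Subgroup.commutator_le_left V ⊤)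
    set f := QuotientGroup.mk' N with hf
    have hfs : Function.Surjective f := QuotientGroup.mk'_surjective N
    have hker : f.ker = N := QuotientGroup.ker_mk' N
    -- the quotient
    have hV' : (V.map f).Normal := hV.map f hfs
    have htop : (⊤ : Subgroup S).map f = ⊤ := Subgroup.map_top_of_surjective f hfs
    have hW' : ⁅V.map f, (⊤ : Subgroup (S ⧸ N))⁆ = (⁅V, (⊤ : Subgroup S)⁆).map f := by
      rw [Subgroup.map_commutator, htop]
    have hcomV : (V.map f).comap f = V := by
      rw [Subgroup.comap_map_eq, hker, sup_eq_left.2 hNV]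
    have hcomW : ((⁅V, (⊤ : Subgroup S)⁆).map f).comap f = ⁅V, (⊤ : Subgroup S)⁆ := by
      rw [Subgroup.comap_map_eq, hker, sup_eq_left.2 hNW]
    have hNpos : 0 < Nat.card N := Nat.card_pos
    have hWp : Nat.card ((⁅V, (⊤ : Subgroup S)⁆).map f) = p := by
      have h1 := card_comap_mk N ((⁅V, (⊤ : Subgroup S)⁆).map f)
      rw [← hf, hcomW, hWcard] at h1
      exact (Nat.eq_of_mul_eq_mul_right hNpos h1).symm
    have hWZ : (⁅V, (⊤ : Subgroup S)⁆).map f ≤ Subgroup.center (S ⧸ N) := by
      have h1 : ⁅(⁅V, (⊤ : Subgroup S)⁆).map f, (⊤ : Subgroup (S ⧸ N))⁆ = ⊥ := by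
        rw [← htop, ← Subgroup.map_commutator, Subgroup.map_eq_bot_iff, hker]
        exact hWN
      rw [Subgroup.commutator_eq_bot_iff_le_centralizer, Subgroup.coe_top,
        Subgroup.centralizer_univ] at h1
      exact h1
    have hcomm' : ⁅(⊤ : Subgroup (S ⧸ N)), ⊤⁆ ≤ V.map f := by
      rw [← htop, ← Subgroup.map_commutator]
      exact Subgroup.map_mono hcomm
    have hpow' : ∀ x : S ⧸ N, x ^ m ∈ V.map f := by
      intro x
      obtain ⟨y, rfl⟩ := hfs x
      exact ⟨y ^ m, hpow y, map_pow f y m⟩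
    obtain ⟨h1, h2, h3⟩ := hP p m hpm (S ⧸ N) (V.map f) _ hV' hW'.le hWZ hWp hcomm' hpow'
    set K' := Subgroup.centralizer ((V.map f : Subgroup (S ⧸ N)) : Set (S ⧸ N)) with hK'
    set Z' := V.map f ⊓ Subgroup.center (S ⧸ N) with hZ'
    have hZK : Z' ≤ K' := inf_le_right.trans (Subgroup.center_le_centralizer _)
    set K1 := K'.comap f with hK1
    set V0 := Z'.comap f with hV0
    have hV0K1 : V0 ≤ K1 := Subgroup.comap_mono hZK
    have hZ'n : Z'.Normal := inferInstance
    have hV0n : V0.Normal := hZ'n.comap f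
    have hVcard : Nat.card V = Nat.card (V.map f) * Nat.card N := by
      have h4 := card_comap_mk N (V.map f)
      rwa [← hf, hcomV] at h4
    have hineq : Nat.card S * Nat.card V0 ≤ Nat.card K1 * Nat.card V := by
      rw [hV0, hK1, card_comap_mk, card_comap_mk, hVcard,
        Subgroup.card_eq_card_quotient_mul_card_subgroup N]
      calc Nat.card (S ⧸ N) * Nat.card N * (Nat.card Z' * Nat.card N) =
          (Nat.card (S ⧸ N) * Nat.card Z') * (Nat.card N * Nat.card N) := by ring
        _ ≤ (Nat.card K' * Nat.card (V.map f)) * (Nat.card N * Nat.card N) :=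
          Nat.mul_le_mul_right _ h1
        _ = _ := by ring
    have hV0V : V0 ≤ V := by
      rw [← hcomV]
      exact Subgroup.comap_mono inf_le_left
    have hV0lt : Nat.card V0 < Nat.card V := by
      refine lt_of_le_of_ne (Nat.card_le_card_of_injective _
        (Subgroup.inclusion_injective hV0V)) fun h => ?_
      have h4 : V0 = V := Subgroup.eq_of_le_of_card_ge hV0V h.ge
      have h5 : V.map f ≤ Subgroup.center (S ⧸ N) := by
        rw [← h4, hV0]
        exact (Subgroup.map_comap_le f Z').trans inf_le_right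
      have h6 : ⁅V.map f, (⊤ : Subgroup (S ⧸ N))⁆ = ⊥ := by
        rw [Subgroup.commutator_eq_bot_iff_le_centralizer, Subgroup.coe_top,
          Subgroup.centralizer_univ]
        exact h5
      rw [hW'] at h6
      rw [h6, Subgroup.card_bot] at hWp
      exact hp.one_lt.ne hWp
    have hKK : ⁅K1, K1⁆ ≤ V0 := by
      rw [hV0, ← Subgroup.map_le_iff_le_comap, Subgroup.map_commutator]
      have h4 : K1.map f ≤ K' := Subgroup.map_comap_le f K'
      refine le_inf ?_ ?_
      · exact (Subgroup.commutator_mono le_top le_top).trans hcomm'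
      · exact (Subgroup.commutator_mono h4 h4).trans h2
    have hKp : ∀ x ∈ K1, x ^ m ∈ V0 := by
      intro x hx
      rw [hV0, Subgroup.mem_comap, map_pow]
      exact Subgroup.mem_inf.2 ⟨hpow' _, h3 _ hx⟩
    -- induction
    have hcc : ∀ H : Subgroup K1, Nat.card (H.map K1.subtype) = Nat.card H := fun H =>
      Subgroup.card_map_of_injective K1.subtype_injective
    have hV0c : Nat.card (V0.subgroupOf K1) = Nat.card V0 :=
      Nat.card_congr (Subgroup.subgroupOfEquivOfLe hV0K1).toEquiv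
    obtain ⟨K2, Z2, g1, g2, g3, g4, g5⟩ := ih K1 (hS.to_subgroup K1) (V0.subgroupOf K1)
      inferInstance (by
        intro x hx
        rw [Subgroup.mem_subgroupOf]
        apply hKK
        have h4 : (⁅(⊤ : Subgroup K1), ⊤⁆ : Subgroup K1).map K1.subtype = ⁅K1, K1⁆ := by
          rw [Subgroup.map_commutator, ← MonoidHom.range_eq_map, Subgroup.range_subtype]
        rw [← h4]
        exact ⟨x, hx, rfl⟩)
      (fun x => by
        rw [Subgroup.mem_subgroupOf, Subgroup.coe_pow]
        exact hKp x x.2)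
      (by rw [hV0c]; omega)
    refine ⟨K2.map K1.subtype, Z2.map K1.subtype, Subgroup.map_mono g1, ?_, ?_, ?_, ?_⟩
    · rw [← Subgroup.map_commutator]
      exact Subgroup.map_mono g2
    · rw [← Subgroup.map_commutator, g3, Subgroup.map_bot]
    · rintro _ ⟨x, hx, rfl⟩
      exact ⟨x ^ m, g4 x hx, map_pow _ _ _⟩
    · rw [hcc, hcc]
      rw [hV0c] at g5
      have hpos : 0 < Nat.card V0 := Nat.card_pos
      refine Nat.le_of_mul_le_mul_right ?_ hpos
      calc Nat.card S * Nat.card Z2 * Nat.card V0 =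
          (Nat.card S * Nat.card V0) * Nat.card Z2 := by ring
        _ ≤ (Nat.card K1 * Nat.card V) * Nat.card Z2 := Nat.mul_le_mul_right _ hineq
        _ = (Nat.card K1 * Nat.card Z2) * Nat.card V := by ring
        _ ≤ (Nat.card K2 * Nat.card V0) * Nat.card V := Nat.mul_le_mul_right _ g5
        _ = _ := by ring

end Pool.Agent.L0h35.Se
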