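import Pool.Agent.L0h35.SeDefs

set_option autoImplicit false

/-!
# Module SOL: elementary abelian sections of solvable groups of bounded exponent
-/

namespace Pool.Agent.L0h35.Se

open Pool.Agent.L0h35.GT Pool.Agent.L0h35.Sv

namespace SOL

theorem card_comap {D U : Type} [Group D] [Group U] [Finite D] [Finite U] (f : D →* U)
    (hf : Function.Surjective f) (K : Subgroup U) :
    Nat.card (K.comap f) = Nat.card K * Nat.card f.ker := by
  have h1 := (K.comap f).card_mul_index
  have h2 := K.card_mul_index
  have h3 := f.ker.card_mul_index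
  rw [K.index_comap_of_surjective hf] at h1
  have h4 : f.ker.index = Nat.card U := by
    rw [Subgroup.index_ker, Nat.card_congr (Equiv.subtypeUnivEquiv (fun x => by
      exact (MonoidHom.range_eq_top.2 hf) ▸ Subgroup.mem_top x))]
  have h5 : 0 < K.index := Nat.pos_of_ne_zero Subgroup.index_ne_zero_of_finite
  apply Nat.eq_of_mul_eq_mul_right h5
  rw [h1, ← h3, h4, ← h2]
  ring

theorem card_le_prod {U : Type} [CommGroup U] [Finite U] (n : ℕ) : ∀ e : ℕ, 0 < e →
    e.primeFactorsList.length = n → ∀ W : Subgroup U, (∀ w ∈ W, w ^ e = 1) →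
    Nat.card W ≤ (e.primeFactorsList.map fun q => Nat.card (powMonoidHom (α := U) q).ker).prod := by
  induction n with
  | zero =>
    intro e he hn W hW
    have h1 : e = 1 := by
      rw [List.length_eq_zero_iff, Nat.primeFactorsList_eq_nil] at hn
      omega
    subst h1
    have : W = ⊥ := by
      rw [eq_bot_iff]
      intro w hw
      have := hW w hw
      rw [pow_one] at this
      exact this
    rw [this]; simp
  | succ n ih =>
    intro e he hn W hW
    obtain ⟨q, l, hl⟩ : ∃ q l, e.primeFactorsList = q :: l := by
      cases h : e.primeFactorsList with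
      | nil => rw [h] at hn; simp at hn
      | cons q l => exact ⟨q, l, rfl⟩
    have hq : q.Prime := Nat.prime_of_mem_primeFactorsList (by rw [hl]; simp : q ∈ e.primeFactorsList)
    have hprod := Nat.prod_primeFactorsList he.ne'
    rw [hl, List.prod_cons] at hprod
    have hlp : ∀ x ∈ l, x.Prime := fun x hx =>
      Nat.prime_of_mem_primeFactorsList (by rw [hl]; simp [hx] : x ∈ e.primeFactorsList)
    have hperm : l.Perm l.prod.primeFactorsList := Nat.primeFactorsList_unique rfl hlp
    have hpos : 0 < l.prod := by
      rcases Nat.eq_zero_or_pos l.prod with h | h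
      · rw [h, mul_zero] at hprod; omega
      · exact h
    have hlen : l.prod.primeFactorsList.length = n := by
      rw [← hperm.length_eq]
      rw [hl, List.length_cons] at hn
      omega
    let f : U →* U := powMonoidHom q
    have h1 := ih l.prod hpos hlen (W.map f) (by
      rintro _ ⟨w, hw, rfl⟩
      show (w ^ q) ^ l.prod = 1
      rw [← pow_mul, hprod]
      exact hW w hw)
    have h2 : (l.prod.primeFactorsList.map fun q => Nat.card (powMonoidHom (α := U) q).ker).prod =
        (l.map fun q => Nat.card (powMonoidHom (α := U) q).ker).prod :=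
      (hperm.map _).prod_eq.symm
    rw [h2] at h1
    rw [hl, List.map_cons, List.prod_cons]
    have h3 : Nat.card W = Nat.card (W.map f) * Nat.card (f.comp W.subtype).ker := by
      have := (f.comp W.subtype).ker.card_mul_index
      rw [Subgroup.index_ker] at this
      rw [← this, mul_comm]
      congr 1
      have h4 : (f.comp W.subtype).range = W.map f := by
        rw [MonoidHom.range_comp, Subgroup.range_subtype]
      rw [h4]
    have h5 : Nat.card (f.comp W.subtype).ker ≤ Nat.card f.ker := by
      apply Nat.card_le_card_of_injective (fun x => (⟨x.1.1, x.2⟩ : f.ker))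
      intro x y hxy
      exact Subtype.ext (Subtype.ext (congrArg (fun z : f.ker => (z : U)) hxy))
    rw [h3, mul_comm]
    exact Nat.mul_le_mul h5 h1

theorem prod_le_pow (l : List ℕ) (f : ℕ → ℕ) (M : ℕ) (h : ∀ q ∈ l, f q ≤ M) :
    (l.map f).prod ≤ M ^ l.length := by
  induction l with
  | nil => simp
  | cons a l ih =>
    rw [List.map_cons, List.prod_cons, List.length_cons, pow_succ, mul_comm]
    exact Nat.mul_le_mul (ih fun q hq => h q (by simp [hq])) (h a (by simp))

theorem len_le (e : ℕ) (he : 0 < e) : e.primeFactorsList.length ≤ e := by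
  have h1 : 2 ^ e.primeFactorsList.length ≤ e := by
    have h2 := Nat.prod_primeFactorsList he.ne'
    conv_rhs => rw [← h2]
    have : ∀ l : List ℕ, (∀ q ∈ l, 2 ≤ q) → 2 ^ l.length ≤ l.prod := by
      intro l
      induction l with
      | nil => intro _; simp
      | cons a l ih =>
        intro h
        rw [List.length_cons, List.prod_cons, pow_succ, mul_comm]
        exact Nat.mul_le_mul (h a (by simp)) (ih fun q hq => h q (by simp [hq]))
    exact this _ fun q hq => (Nat.prime_of_mem_primeFactorsList hq).two_le
  exact (Nat.lt_two_pow_self.le).trans h1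

theorem abel {U : Type} [CommGroup U] [Finite U] (e : ℕ) (he : 1 < e) (h : ∀ u : U, u ^ e = 1) :
    ∃ p : ℕ, p.Prime ∧ p ∣ e ∧ Nat.card U ≤ Nat.card (powMonoidHom (α := U) p).ker ^ e := by
  have hne : e.primeFactors.Nonempty := Nat.nonempty_primeFactors.2 he
  obtain ⟨p, hp, hmax⟩ := Finset.exists_max_image e.primeFactors
    (fun q => Nat.card (powMonoidHom (α := U) q).ker) hne
  rw [Nat.mem_primeFactors] at hp
  refine ⟨p, hp.1, hp.2.1, ?_⟩
  have h1 := card_le_prod (U := U) _ e (by omega) rfl ⊤ (fun w _ => h w)
  have h2 := prod_le_pow e.primeFactorsList (fun q => Nat.card (powMonoidHom (α := U) q).ker)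
    (Nat.card (powMonoidHom (α := U) p).ker) (fun q hq => hmax q (by
      rw [Nat.mem_primeFactors]
      exact ⟨Nat.prime_of_mem_primeFactorsList hq, Nat.dvd_of_mem_primeFactorsList hq, by omega⟩))
  rw [Subgroup.card_top] at h1
  refine h1.trans (h2.trans ?_)
  exact Nat.pow_le_pow_right Nat.card_pos (len_le e (by omega))

end SOL

theorem stSol : StSol := by
  intro Q _ _ e ℓ he hℓ hQ hds
  by_cases hQ1 : Nat.card Q = 1
  · refine ⟨2, 0, ⊥, ⊥, Nat.prime_two, le_rfl, by simp, by simp, by simp, by omega, ?_⟩
    rw [hQ1]; simp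
  have hQ2 : 1 < Nat.card Q := by
    have : 0 < Nat.card Q := Nat.card_pos
    omega
  have he1 : 1 < e := by
    rcases Nat.lt_or_ge 1 e with h | h
    · exact h
    · exfalso
      have : e = 1 := by omega
      subst this
      apply hQ1
      rw [Nat.card_eq_one_iff_unique]
      refine ⟨⟨fun a b => ?_⟩, ⟨1⟩⟩
      rw [← pow_one a, ← pow_one b, hQ a, hQ b]
  -- the factors of the derived series
  let D : ℕ → Subgroup Q := ds ⊤
  have hcard : ∀ i, Nat.card (D i) = Nat.card (Abelianization (D i)) * Nat.card (D (i + 1)) := by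
    intro i
    have h1 := Subgroup.card_eq_card_quotient_mul_card_subgroup (commutator (D i))
    have h2 : Nat.card (commutator (D i)) = Nat.card (D (i + 1)) := by
      have h3 : D (i + 1) = (commutator (D i)).map (D i).subtype := by
        rw [Subgroup.map_subtype_commutator]; rfl
      rw [h3]
      exact (Subgroup.card_map_of_injective (D i).subtype_injective).symm
    rw [h1, h2]; rfl
  have hprod : ∀ n, Nat.card Q = (∏ i ∈ Finset.range n, Nat.card (Abelianization (D i))) *
      Nat.card (D n) := by
    intro n
    induction n with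
    | zero =>
      rw [Finset.prod_range_zero, one_mul]
      exact Subgroup.card_top.symm
    | succ n ih => rw [ih, Finset.prod_range_succ, hcard n]; ring
  have hex : ∃ i, Nat.card Q ≤ Nat.card (Abelianization (D i)) ^ ℓ := by
    by_contra hcon
    push Not at hcon
    have h1 := hprod ℓ
    have h2 : Nat.card (D ℓ) = 1 := by
      show Nat.card (ds (⊤ : Subgroup Q) ℓ) = 1
      rw [hds]; simp
    rw [h2, mul_one] at h1
    have h3 : ∏ i ∈ Finset.range ℓ, Nat.card (Abelianization (D i)) ^ ℓ <
        ∏ i ∈ Finset.range ℓ, Nat.card Q := by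
      apply Finset.prod_lt_prod_of_nonempty
      · intro i _; exact Nat.pos_of_ne_zero (pow_ne_zero _ Nat.card_pos.ne')
      · intro i _; exact hcon i
      · exact ⟨0, by simpa using hℓ⟩
    rw [Finset.prod_pow, ← h1, Finset.prod_const, Finset.card_range] at h3
    exact lt_irrefl _ h3
  obtain ⟨i, hi⟩ := hex
  have hof : Function.Surjective (Abelianization.of (G := D i)) := QuotientGroup.mk_surjective
  have hU : ∀ u : Abelianization (D i), u ^ e = 1 := by
    intro u
    obtain ⟨d, rfl⟩ := hof u
    rw [← map_pow]
    have : d ^ e = 1 := Subtype.ext (hQ d.1)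
    rw [this, map_one]
  obtain ⟨p, hp, hpe, hpU⟩ := SOL.abel e he1 hU
  haveI : Fact p.Prime := ⟨hp⟩
  set K := (powMonoidHom (α := Abelianization (D i)) p).ker with hK
  have hKp : IsPGroup p K := by
    rw [IsPGroup]
    intro x
    refine ⟨1, ?_⟩
    rw [pow_one]
    exact Subtype.ext x.2
  obtain ⟨r, hr⟩ := IsPGroup.iff_card.1 hKp
  have hker : (Abelianization.of (G := D i)).ker = commutator (D i) := QuotientGroup.ker_mk' _
  have hD : D (i + 1) = (commutator (D i)).map (D i).subtype := by
    rw [Subgroup.map_subtype_commutator]; rfl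
  refine ⟨p, r, (K.comap (Abelianization.of (G := D i))).map (D i).subtype, D (i + 1), hp, ?_, ?_,
    ?_, ?_, fun _ => hpe, ?_⟩
  · rw [hD]
    apply Subgroup.map_mono
    rw [← hker]
    intro x hx
    rw [Subgroup.mem_comap, (MonoidHom.mem_ker).1 hx]
    exact one_mem _
  · have h1 : (K.comap (Abelianization.of (G := D i))).map (D i).subtype ≤ D i :=
      Subgroup.map_subtype_le _
    exact Subgroup.commutator_mono h1 h1
  · rintro _ ⟨d, hd, rfl⟩
    rw [hD]
    refine ⟨d ^ p, ?_, by simp⟩
    rw [← hker]
    have h1 : (Abelianization.of (G := D i)) d ∈ K := hd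
    rw [hK, MonoidHom.mem_ker] at h1
    rw [SetLike.mem_coe, MonoidHom.mem_ker, map_pow]
    exact h1
  · rw [Subgroup.card_map_of_injective (D i).subtype_injective, SOL.card_comap _ hof, hker, hr, hD,
      Subgroup.card_map_of_injective (D i).subtype_injective]
  · rw [← hr]
    refine hi.trans ((Nat.pow_le_pow_left hpU ℓ).trans ?_)
    rw [← pow_mul, mul_comm e ℓ]

end Pool.Agent.L0h35.Se
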