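import Pool.Agent.L0h35.SvDefs3
import Pool.Agent.N726.BG.Piv
import Pool.Agent.N726.BG.Blo
import Pool.Agent.N726.BG.Pow

set_option autoImplicit false

/-!
# The pivot theorem and the simultaneous triple product property
-/

namespace Pool.Agent.L0h35.Sv

open Finset Module Pool.Agent.L0h35.GT

theorem stPiv : StPiv := by
  intro G _ _ ρ hρ hgood I _ A B C hST τ hτ
  obtain ⟨H, _, _, φ, hφ, hN⟩ := hgood
  letI hfin : Fintype G := Fintype.ofFinite G
  have hkey := hST.key
  have h1 := N726.BG.pow_bound (N726.BG.blo N726.BG.piv) G H φ hφ ρ hρ (fun N _ => hN N) I A B C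
    hkey
  have hg1 : (1 : ℝ) ≤ Nat.card G := by
    have : 0 < Nat.card G := Nat.card_pos
    exact_mod_cast this
  have hg0 : (0 : ℝ) < Nat.card G := by linarith
  have hterm : ∀ i, ((A i).card * (B i).card * (C i).card : ℝ) ^ (τ / 3) ≤
      (((A i).card * (B i).card * (C i).card : ℕ) : ℝ) ^ ((2 : ℝ) / 3) *
        (Nat.card G : ℝ) ^ ((τ - 2) / 2) := by
    intro i
    rw [show ((A i).card * (B i).card * (C i).card : ℝ) =
      (((A i).card * (B i).card * (C i).card : ℕ) : ℝ) by push_cast; rfl]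
    rcases Nat.eq_zero_or_pos ((A i).card * (B i).card * (C i).card) with h0 | hpos
    · rw [h0, Nat.cast_zero, Real.zero_rpow (by linarith)]
      positivity
    · have hA : 0 < (A i).card := Nat.pos_of_ne_zero fun h => by simp [h] at hpos
      have hB : 0 < (B i).card := Nat.pos_of_ne_zero fun h => by simp [h] at hpos
      have hC : 0 < (C i).card := Nat.pos_of_ne_zero fun h => by simp [h] at hpos
      have c1 : (A i).card * (B i).card ≤ Nat.card G := hkey.card_mul_le i (card_pos.1 hC)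
      have c2 : (B i).card * (C i).card ≤ Nat.card G := hkey.rotate.card_mul_le i (card_pos.1 hA)
      have c3 : (C i).card * (A i).card ≤ Nat.card G :=
        hkey.rotate.rotate.card_mul_le i (card_pos.1 hB)
      set x : ℕ := (A i).card * (B i).card * (C i).card with hx
      have hx2 : x ^ 2 ≤ (Nat.card G) ^ 3 := by
        calc x ^ 2 = ((A i).card * (B i).card) * ((B i).card * (C i).card) *
              ((C i).card * (A i).card) := by rw [hx]; ring
          _ ≤ Nat.card G * Nat.card G * Nat.card G :=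
              Nat.mul_le_mul (Nat.mul_le_mul c1 c2) c3
          _ = (Nat.card G) ^ 3 := by ring
      have hx0 : (0 : ℝ) < x := by exact_mod_cast hpos
      have hx2' : ((x : ℝ)) ^ (2 : ℝ) ≤ (Nat.card G : ℝ) ^ (3 : ℝ) := by
        have : ((x : ℝ)) ^ 2 ≤ (Nat.card G : ℝ) ^ 3 := by exact_mod_cast hx2
        rw [show (2 : ℝ) = ((2 : ℕ) : ℝ) by norm_num, show (3 : ℝ) = ((3 : ℕ) : ℝ) by norm_num,
          Real.rpow_natCast, Real.rpow_natCast]
        exact this
      have h3 : (x : ℝ) ^ ((τ - 2) / 3) ≤ (Nat.card G : ℝ) ^ ((τ - 2) / 2) := by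
        have h4 := Real.rpow_le_rpow (by positivity) hx2' (show 0 ≤ (τ - 2) / 6 by linarith)
        rw [← Real.rpow_mul hx0.le, ← Real.rpow_mul hg0.le] at h4
        rw [show (τ - 2) / 3 = 2 * ((τ - 2) / 6) by ring,
          show (τ - 2) / 2 = 3 * ((τ - 2) / 6) by ring]
        exact h4
      calc (x : ℝ) ^ (τ / 3) = (x : ℝ) ^ ((2 : ℝ) / 3) * (x : ℝ) ^ ((τ - 2) / 3) := by
            rw [← Real.rpow_add hx0]
            congr 1
            ring
        _ ≤ _ := mul_le_mul_of_nonneg_left h3 (by positivity)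
  calc ∑ i, ((A i).card * (B i).card * (C i).card : ℝ) ^ (τ / 3)
      ≤ ∑ i, (((A i).card * (B i).card * (C i).card : ℕ) : ℝ) ^ ((2 : ℝ) / 3) *
        (Nat.card G : ℝ) ^ ((τ - 2) / 2) := sum_le_sum fun i _ => hterm i
    _ = (∑ i, (((A i).card * (B i).card * (C i).card : ℕ) : ℝ) ^ ((2 : ℝ) / 3)) *
        (Nat.card G : ℝ) ^ ((τ - 2) / 2) := by rw [sum_mul]
    _ ≤ (ρ * Fintype.card G) * (Nat.card G : ℝ) ^ ((τ - 2) / 2) :=
        mul_le_mul_of_nonneg_right h1 (by positivity)
    _ = (Nat.card G : ℝ) ^ (τ / 2) * ρ := by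
        rw [← Nat.card_eq_fintype_card, mul_assoc]
        have h5 : (Nat.card G : ℝ) * (Nat.card G : ℝ) ^ ((τ - 2) / 2) =
            (Nat.card G : ℝ) ^ (τ / 2) := by
          conv_lhs => rw [← Real.rpow_one (Nat.card G : ℝ)]
          rw [Real.rpow_one, ← Real.rpow_one_add' hg0.le (by linarith)]
          congr 1
          ring
        rw [h5, mul_comm]

end Pool.Agent.L0h35.Sv
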