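import Pool.Agent.L0h35.SeSol
import Pool.Agent.L0h35.Sv3Fin
import Pool.Agent.L0h35.Sv3Piv
import Pool.Agent.L0h64.Sv.GJ

set_option autoImplicit false

/-!
# Module TWO: groups with a large subgroup of class two and exponent `p ^ 3`
-/

namespace Pool.Agent.L0h35.Se

open Finset Pool.Agent.L0h35.GT Pool.Agent.L0h35.Sv
open scoped commutatorElement IsMulCommutative

namespace TWO

theorem abel3 {U : Type} [CommGroup U] [Finite U] (p : ℕ) [hp : Fact p.Prime]
    (h : ∀ u : U, u ^ p ^ 3 = 1) : Nat.card U ≤ Nat.card (powMonoidHom (α := U) p).ker ^ 3 := by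
  have h1 := SOL.card_le_prod (U := U) _ (p ^ 3) (pow_pos hp.out.pos 3) rfl ⊤ (fun w _ => h w)
  rw [Subgroup.card_top, hp.out.primeFactorsList_pow, List.map_replicate, List.prod_replicate] at h1
  exact h1

theorem ker_card {U : Type} [CommGroup U] [Finite U] (p : ℕ) [hp : Fact p.Prime] :
    ∃ f, Nat.card (powMonoidHom (α := U) p).ker = p ^ f := by
  apply IsPGroup.iff_card.1
  intro x
  refine ⟨1, ?_⟩
  rw [pow_one]
  exact Subtype.ext x.2

variable {P : Type} [Group P] [Finite P] (p : ℕ) [hp : Fact p.Prime]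

/-- first case: the centre is large -/
theorem case1 (hexp : ∀ x : P, x ^ p ^ 3 = 1) (z : ℕ) (hz : Nat.card (Subgroup.center P) = p ^ z) :
    ∃ f : ℕ, GoodIn P (Real.exp (-(f : ℝ) / 25)) ∧ z ≤ 3 * f := by
  obtain ⟨f, hf⟩ := ker_card (U := Subgroup.center P) p
  have h3 := abel3 (U := Subgroup.center P) p (fun u => Subtype.ext (by
    rw [Subgroup.coe_pow]; exact hexp u.1))
  rw [hz, hf, ← pow_mul] at h3
  have h4 := (Nat.pow_le_pow_iff_right hp.out.one_lt).1 h3
  refine ⟨f, ?_, by omega⟩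
  obtain ⟨E, hE⟩ : ∃ E, E = (powMonoidHom (α := Subgroup.center P) p).ker := ⟨_, rfl⟩
  rw [← hE] at hf
  letI iE : Fintype E := Fintype.ofFinite _
  refine ⟨E, inferInstance, iE, (Subgroup.center P).subtype.comp E.subtype,
    (Subgroup.center P).subtype_injective.comp E.subtype_injective, ?_⟩
  intro N
  have key := Pool.Agent.L0h64.Sv.stGd p E 0
    (fun i => match i with
      | 0 => ⊤
      | _ + 1 => ⊥) ?_ (fun i => match i with
      | 0 => f
      | _ + 1 => 0) ?_ ?_ N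
  · exact key
  · refine ⟨rfl, rfl, ?_, ?_, ?_, ?_⟩
    · intro i
      cases i with
      | zero => exact inferInstanceAs (⊤ : Subgroup E).Normal
      | succ j => exact inferInstanceAs (⊥ : Subgroup E).Normal
    · intro i
      exact bot_le
    · intro i c _
      show c ^ p ∈ (⊥ : Subgroup E)
      rw [Subgroup.mem_bot]
      have hc : ∀ x ∈ E, x ^ p = 1 := by
        intro x hx
        rw [hE] at hx
        exact hx
      exact Subtype.ext (hc c.1 c.2)
    · intro i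
      have h5 : ∀ H : Subgroup E, ⁅H, (⊤ : Subgroup E)⁆ ≤ ⊥ := by
        intro H
        rw [le_bot_iff, Subgroup.commutator_eq_bot_iff_le_centralizer]
        intro x _
        rw [Subgroup.mem_centralizer_iff]
        intro y _
        exact mul_comm y x
      exact h5 _
  · intro i hi
    cases i with
    | zero =>
      show Nat.card (⊤ : Subgroup E) = p ^ f * Nat.card (⊥ : Subgroup E)
      rw [Subgroup.card_top, Subgroup.card_bot, mul_one, hf]
    | succ j => omega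
  · simp

/-- second case: the centre is small -/
theorem case2 (hcl : ⁅(⊤ : Subgroup P), ⊤⁆ ≤ Subgroup.center P) (hexp : ∀ x : P, x ^ p ^ 3 = 1)
    (n z : ℕ) (hn : Nat.card P = p ^ n) (hz : Nat.card (Subgroup.center P) = p ^ z)
    (hnz : 481 * p ^ 3 * z < n) :
    ∃ f : ℕ, GoodIn P (Real.exp (-(f : ℝ) / 25)) ∧ n ≤ 3 * f + z := by
  have hP : IsPGroup p P := fun x => ⟨3, hexp x⟩
  have hquo : ∀ a b : P ⧸ Subgroup.center P, a * b = b * a := by
    intro a b
    obtain ⟨x, rfl⟩ := QuotientGroup.mk_surjective a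
    obtain ⟨y, rfl⟩ := QuotientGroup.mk_surjective b
    have h1 : (x * y)⁻¹ * (y * x) ∈ Subgroup.center P := by
      have h2 := hcl (Subgroup.commutator_mem_commutator (Subgroup.mem_top y⁻¹)
        (Subgroup.mem_top x⁻¹))
      rw [commutatorElement_def] at h2
      have h3 : (x * y)⁻¹ * (y * x) = y⁻¹ * x⁻¹ * y⁻¹⁻¹ * x⁻¹⁻¹ := by group
      rw [h3]; exact h2
    exact QuotientGroup.eq.2 h1
  set Z := Subgroup.center P with hZ
  haveI : IsMulCommutative (P ⧸ Z) := ⟨⟨hquo⟩⟩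
  obtain ⟨d0, hd0⟩ := ker_card (U := P ⧸ Z) p
  have h3 := abel3 (U := P ⧸ Z) p (fun u => by
    obtain ⟨x, rfl⟩ := QuotientGroup.mk_surjective u
    rw [← QuotientGroup.mk_pow, hexp x]; rfl)
  have hU : p ^ n = Nat.card (P ⧸ Z) * p ^ z := by
    rw [← hn, ← hz]
    exact Subgroup.card_eq_card_quotient_mul_card_subgroup Z
  have h4 : n ≤ 3 * d0 + z := by
    rw [← Nat.pow_le_pow_iff_right hp.out.one_lt, hU, pow_add, mul_comm 3, pow_mul, ← hd0]
    exact Nat.mul_le_mul_right _ h3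
  refine ⟨d0, ?_, h4⟩
  let D1 : Subgroup P := (powMonoidHom (α := P ⧸ Z) p).ker.comap (QuotientGroup.mk' Z)
  have hZD : Z ≤ D1 := by
    intro x hx
    show (QuotientGroup.mk' Z) x ∈ (powMonoidHom (α := P ⧸ Z) p).ker
    have : (QuotientGroup.mk' Z) x = 1 := (QuotientGroup.eq_one_iff x).2 hx
    rw [this]; exact one_mem _
  have hD1 : ∀ x ∈ D1, x ^ p ∈ Z := by
    intro x hx
    have h5 : ((x : P ⧸ Z)) ^ p = 1 := hx
    rw [← QuotientGroup.mk_pow] at h5
    exact (QuotientGroup.eq_one_iff _).1 h5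
  have hcD1 : Nat.card D1 = p ^ d0 * Nat.card Z := by
    have := SOL.card_comap (QuotientGroup.mk' Z) (QuotientGroup.mk'_surjective Z)
      (powMonoidHom (α := P ⧸ Z) p).ker
    rw [hd0, QuotientGroup.ker_mk'] at this
    exact this
  -- the powers of the centre
  let ZZ : ℕ → Subgroup P := fun j => (powMonoidHom (α := Z) (p ^ j)).range.map Z.subtype
  have mem_ZZ : ∀ j x, x ∈ ZZ j ↔ ∃ y ∈ Z, y ^ p ^ j = x := by
    intro j x
    constructor
    · rintro ⟨_, ⟨y, rfl⟩, rfl⟩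
      exact ⟨y.1, y.2, by simp⟩
    · rintro ⟨y, hy, rfl⟩
      exact ⟨⟨y, hy⟩ ^ p ^ j, ⟨⟨y, hy⟩, rfl⟩, by simp⟩
  have hZZ0 : ZZ 0 = Z := by
    ext x; rw [mem_ZZ]; simp
  have hZZ3 : ZZ 3 = ⊥ := by
    rw [eq_bot_iff]
    intro x hx
    obtain ⟨y, -, rfl⟩ := (mem_ZZ _ _).1 hx
    exact hexp y
  have hZZZ : ∀ j, ZZ j ≤ Z := by
    intro j x hx
    obtain ⟨y, hy, rfl⟩ := (mem_ZZ _ _).1 hx
    exact pow_mem hy _
  have hZZs : ∀ j, ZZ (j + 1) ≤ ZZ j := by
    intro j x hx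
    obtain ⟨y, hy, rfl⟩ := (mem_ZZ _ _).1 hx
    exact (mem_ZZ _ _).2 ⟨y ^ p, pow_mem hy _, by rw [← pow_mul, pow_succ, mul_comm]⟩
  have hZZp : ∀ j, ∀ x ∈ ZZ j, x ^ p ∈ ZZ (j + 1) := by
    intro j x hx
    obtain ⟨y, hy, rfl⟩ := (mem_ZZ _ _).1 hx
    exact (mem_ZZ _ _).2 ⟨y, hy, by rw [← pow_mul, pow_succ]⟩
  have hpow : ∀ H : Subgroup P, ∃ k, Nat.card H = p ^ k := fun H =>
    IsPGroup.iff_card.1 (hP.to_subgroup H)
  choose a ha using fun j => hpow (ZZ j)
  have ha0 : a 0 = z := by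
    have := ha 0
    rw [hZZ0, hz] at this
    exact (Nat.pow_right_injective hp.out.two_le this).symm
  have has : ∀ j, a (j + 1) ≤ a j := by
    intro j
    have h5 := Subgroup.card_dvd_of_le (hZZs j)
    rw [ha, ha] at h5
    exact (Nat.pow_dvd_pow_iff_le_right hp.out.one_lt).1 h5
  letI : Fintype D1 := Fintype.ofFinite _
  refine ⟨D1, inferInstance, inferInstance, D1.subtype, D1.subtype_injective, ?_⟩
  intro N
  have hcard : ∀ j, Nat.card ((ZZ j).subgroupOf D1) = p ^ a j := by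
    intro j
    rw [← ha j]
    exact Nat.card_congr (Subgroup.subgroupOfEquivOfLe ((hZZZ j).trans hZD)).toEquiv
  have hcen : ∀ j, (ZZ j).subgroupOf D1 ≤ Subgroup.center D1 := by
    intro j x hx
    rw [Subgroup.mem_center_iff]
    intro g
    exact Subtype.ext ((Subgroup.mem_center_iff.1 (hZZZ j hx)) g.1)
  have key := Pool.Agent.L0h64.Sv.stGd p D1 3
    (fun i => match i with
      | 0 => ⊤
      | j + 1 => (ZZ j).subgroupOf D1) ?_ (fun i => match i with
      | 0 => d0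
      | j + 1 => a j - a (j + 1)) ?_ ?_ N
  · exact key
  · refine ⟨rfl, ?_, ?_, ?_, ?_, ?_⟩
    · show (ZZ 3).subgroupOf D1 = ⊥
      rw [hZZ3]; simp
    · intro i
      cases i with
      | zero => exact inferInstanceAs (⊤ : Subgroup D1).Normal
      | succ j =>
        constructor
        intro x hx g
        have : g * x * g⁻¹ = x := by
          rw [(Subgroup.mem_center_iff.1 (hcen j hx)) g]; group
        rw [this]; exact hx
    · intro i
      cases i with
      | zero => exact le_top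
      | succ j => exact fun x hx => hZZs j hx
    · intro i
      cases i with
      | zero =>
        intro c _
        show ((c ^ p : D1) : P) ∈ ZZ 0
        rw [hZZ0]
        exact hD1 c.1 c.2
      | succ j => exact fun c hc => hZZp j _ hc
    · intro i
      cases i with
      | zero =>
        show ⁅(⊤ : Subgroup D1), ⊤⁆ ≤ (ZZ 0).subgroupOf D1
        rw [Subgroup.commutator_le]
        intro x _ y _
        show ((⁅x, y⁆ : D1) : P) ∈ ZZ 0
        rw [hZZ0]
        exact hcl (Subgroup.commutator_mem_commutator (Subgroup.mem_top _) (Subgroup.mem_top _))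
      | succ j =>
        show ⁅(ZZ j).subgroupOf D1, (⊤ : Subgroup D1)⁆ ≤ _
        rw [Subgroup.commutator_top_right_eq_bot_iff_le_center.2 (hcen j)]
        exact bot_le
  · intro i hi
    cases i with
    | zero =>
      show Nat.card (⊤ : Subgroup D1) = p ^ d0 * Nat.card ((ZZ 0).subgroupOf D1)
      rw [Subgroup.card_top, hcD1, hcard, ha0, hz]
    | succ j =>
      show Nat.card ((ZZ j).subgroupOf D1) = p ^ (a j - a (j + 1)) *
        Nat.card ((ZZ (j + 1)).subgroupOf D1)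
      rw [hcard, hcard, ← pow_add]
      congr 1
      have := has j
      omega
  · show 20 * ∑ i ∈ range 3, (2 * p) ^ (i + 1) * (a i - a (i + 1)) ≤ d0
    rw [Finset.sum_range_succ, Finset.sum_range_succ, Finset.sum_range_succ, Finset.sum_range_zero]
    have e0 : a 1 ≤ a 0 := has 0
    have e1 : a 2 ≤ a 1 := has 1
    have e2 : a 3 ≤ a 2 := has 2
    have hp1 : 1 ≤ 2 * p := by have := hp.out.pos; omega
    have q1 : (2 * p) ^ (0 + 1) ≤ (2 * p) ^ 3 := Nat.pow_le_pow_right hp1 (by omega)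
    have q2 : (2 * p) ^ (1 + 1) ≤ (2 * p) ^ 3 := Nat.pow_le_pow_right hp1 (by omega)
    have e3 : (2 * p) ^ (0 + 1) * (a 0 - a (0 + 1)) + (2 * p) ^ (1 + 1) * (a 1 - a (1 + 1)) +
        (2 * p) ^ (2 + 1) * (a 2 - a (2 + 1)) ≤ (2 * p) ^ 3 * z := by
      calc _ ≤ (2 * p) ^ 3 * (a 0 - a (0 + 1)) + (2 * p) ^ 3 * (a 1 - a (1 + 1)) +
            (2 * p) ^ 3 * (a 2 - a (2 + 1)) := by gcongr
        _ = (2 * p) ^ 3 * ((a 0 - a (0 + 1)) + (a 1 - a (1 + 1)) + (a 2 - a (2 + 1))) := by ring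
        _ ≤ (2 * p) ^ 3 * z := Nat.mul_le_mul_left _ (by
            rw [← ha0]
            show (a 0 - a 1) + (a 1 - a 2) + (a 2 - a 3) ≤ a 0
            omega)
    have e4 : (2 * p) ^ 3 * z = 8 * (p ^ 3 * z) := by ring
    have e5 : 481 * p ^ 3 * z = 481 * (p ^ 3 * z) := by ring
    have e6 : z ≤ p ^ 3 * z := Nat.le_mul_of_pos_left _ (pow_pos hp.out.pos 3)
    omega

theorem core (hcl : ⁅(⊤ : Subgroup P), ⊤⁆ ≤ Subgroup.center P) (hexp : ∀ x : P, x ^ p ^ 3 = 1)
    (n : ℕ) (hn : Nat.card P = p ^ n) :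
    ∃ f : ℕ, GoodIn P (Real.exp (-(f : ℝ) / 25)) ∧ n ≤ 1600 * p ^ 3 * f := by
  have hP : IsPGroup p P := fun x => ⟨3, hexp x⟩
  obtain ⟨z, hz⟩ := IsPGroup.iff_card.1 (hP.to_subgroup (Subgroup.center P))
  have hp3 : 1 ≤ p ^ 3 := pow_pos hp.out.pos 3
  rcases le_or_gt n (481 * p ^ 3 * z) with h | h
  · obtain ⟨f, hf, hzf⟩ := case1 p hexp z hz
    refine ⟨f, hf, h.trans ?_⟩
    calc 481 * p ^ 3 * z ≤ 481 * p ^ 3 * (3 * f) := Nat.mul_le_mul_left _ hzf
      _ = 1443 * (p ^ 3 * f) := by ring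
      _ ≤ 1600 * (p ^ 3 * f) := Nat.mul_le_mul_right _ (by norm_num)
      _ = 1600 * p ^ 3 * f := by ring
  · obtain ⟨f, hf, hnf⟩ := case2 p hcl hexp n z hn hz h
    refine ⟨f, hf, ?_⟩
    have e1 : 481 * p ^ 3 * z = 481 * (p ^ 3 * z) := by ring
    have e2 : z ≤ p ^ 3 * z := Nat.le_mul_of_pos_left _ (pow_pos hp.out.pos 3)
    have e3 : 1600 * p ^ 3 * f = 1600 * (p ^ 3 * f) := by ring
    have e4 : f ≤ p ^ 3 * f := Nat.le_mul_of_pos_left _ (pow_pos hp.out.pos 3)
    omega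

end TWO

theorem stTwo : StTwo := by
  intro p r hp G _ _ D hD hexp hr I _ A B C hst τ hτ
  have hcl : ⁅(⊤ : Subgroup D), ⊤⁆ ≤ Subgroup.center D := by
    rw [← Subgroup.commutator_top_right_eq_bot_iff_le_center]
    apply (Subgroup.map_eq_bot_iff_of_injective _ D.subtype_injective).1
    rw [Subgroup.map_commutator, Subgroup.map_commutator, ← MonoidHom.range_eq_map,
      Subgroup.range_subtype, hD]
  have hexp' : ∀ x : D, x ^ p ^ 3 = 1 := fun x => Subtype.ext (by
    rw [Subgroup.coe_pow]; exact hexp x.1 x.2)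
  obtain ⟨n, hn⟩ := IsPGroup.iff_card.1 (show IsPGroup p D from fun x => ⟨3, hexp' x⟩)
  have hrn : r ≤ n := by
    rw [hn] at hr
    exact (Nat.pow_le_pow_iff_right hp.out.one_lt).1 hr
  obtain ⟨f, hf, hnf⟩ := TWO.core p hcl hexp' n hn
  have h1 := stPiv G _ (Real.exp_pos _) (hf.comp D.subtype D.subtype_injective) I A B C hst τ hτ
  refine h1.trans (mul_le_mul_of_nonneg_left (Real.exp_le_exp.2 ?_) (by positivity))
  have hp0 : (0 : ℝ) < p := by exact_mod_cast hp.out.pos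
  have h2 : (r : ℝ) ≤ 1600 * (p : ℝ) ^ 3 * f := by exact_mod_cast hrn.trans hnf
  rw [neg_div, neg_div, neg_le_neg_iff, div_le_div_iff₀ (by positivity) (by norm_num)]
  nlinarith

end Pool.Agent.L0h35.Se
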