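import Pool.Agent.L0h35.SeDefs2
import Pool.Agent.L0h35.Sv3Fin
import Pool.Agent.L0h35.Sv3Piv
import Pool.Agent.L0h64.Sv.GJ

set_option autoImplicit false

/-!
# Module TWO3: groups with a large subgroup of class two and exponent `p`
-/

namespace Pool.Agent.L0h35.Se

open Finset Pool.Agent.L0h35.GT Pool.Agent.L0h35.Sv
open scoped commutatorElement

namespace TWO3

variable {P : Type} [Group P] [Finite P] (p : ℕ) [hp : Fact p.Prime]

/-- first case: the centre is large -/
theorem case1 (hexp : ∀ x : P, x ^ p = 1) (z : ℕ) (hz : Nat.card (Subgroup.center P) = p ^ z) :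
    GoodIn P (Real.exp (-(z : ℝ) / 25)) := by
  letI iE : Fintype (Subgroup.center P) := Fintype.ofFinite _
  refine ⟨Subgroup.center P, inferInstance, iE, (Subgroup.center P).subtype,
    (Subgroup.center P).subtype_injective, ?_⟩
  intro N
  have key := Pool.Agent.L0h64.Sv.stGd p (Subgroup.center P) 0
    (fun i => match i with
      | 0 => ⊤
      | _ + 1 => ⊥) ?_ (fun i => match i with
      | 0 => z
      | _ + 1 => 0) ?_ ?_ N
  · exact key
  · refine ⟨rfl, rfl, ?_, ?_, ?_, ?_⟩
    · intro i
      cases i with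
      | zero => exact inferInstanceAs (⊤ : Subgroup (Subgroup.center P)).Normal
      | succ j => exact inferInstanceAs (⊥ : Subgroup (Subgroup.center P)).Normal
    · intro i
      exact bot_le
    · intro i c _
      show c ^ p ∈ (⊥ : Subgroup (Subgroup.center P))
      rw [Subgroup.mem_bot]
      exact Subtype.ext (hexp c.1)
    · intro i
      have h5 : ∀ H : Subgroup (Subgroup.center P), ⁅H, (⊤ : Subgroup (Subgroup.center P))⁆ ≤ ⊥ := by
        intro H
        rw [le_bot_iff, Subgroup.commutator_eq_bot_iff_le_centralizer]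
        intro x _
        rw [Subgroup.mem_centralizer_iff]
        intro y _
        exact Subtype.ext ((Subgroup.mem_center_iff.1 x.2) y.1)
      exact h5 _
  · intro i hi
    cases i with
    | zero =>
      show Nat.card (⊤ : Subgroup (Subgroup.center P)) =
        p ^ z * Nat.card (⊥ : Subgroup (Subgroup.center P))
      rw [Subgroup.card_top, Subgroup.card_bot, mul_one, hz]
    | succ j => omega
  · simp

theorem core (hG : StGd3) (hcl : ⁅(⊤ : Subgroup P), ⊤⁆ ≤ Subgroup.center P)
    (hexp : ∀ x : P, x ^ p = 1) (n : ℕ) (hn : Nat.card P = p ^ n) :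
    ∃ f : ℕ, GoodIn P (Real.exp (-(f : ℝ) / 25)) ∧ n ≤ 64 * f := by
  have hP : IsPGroup p P := fun x => ⟨1, by rw [pow_one]; exact hexp x⟩
  obtain ⟨z, hz⟩ := IsPGroup.iff_card.1 (hP.to_subgroup (Subgroup.center P))
  have h1 : Nat.card (Subgroup.center P) ∣ Nat.card P := Subgroup.card_subgroup_dvd_card _
  rw [hz, hn, Nat.pow_dvd_pow_iff_le_right hp.out.one_lt] at h1
  rcases le_or_gt (60 * z) (n - z) with h | h
  · refine ⟨n - z, ?_, by omega⟩
    letI iE : Fintype P := Fintype.ofFinite _
    refine ⟨P, inferInstance, iE, MonoidHom.id P, Function.injective_id, ?_⟩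
    intro N
    refine hG p P (Subgroup.center P) (n - z) z le_rfl hcl hexp ?_ hz h N
    rw [hn, hz, ← pow_add]
    congr 1
    omega
  · exact ⟨z, case1 p hexp z hz, by omega⟩

end TWO3

theorem stTwo3_of (hG : StGd3) : StTwo3 := by
  intro p r hp G _ _ D hD hexp hr I _ A B C hst τ hτ
  have hcl : ⁅(⊤ : Subgroup D), ⊤⁆ ≤ Subgroup.center D := by
    rw [← Subgroup.commutator_top_right_eq_bot_iff_le_center]
    apply (Subgroup.map_eq_bot_iff_of_injective _ D.subtype_injective).1
    rw [Subgroup.map_commutator, Subgroup.map_commutator, ← MonoidHom.range_eq_map,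
      Subgroup.range_subtype, hD]
  have hexp' : ∀ x : D, x ^ p = 1 := fun x => Subtype.ext (by
    rw [Subgroup.coe_pow]; exact hexp x.1 x.2)
  obtain ⟨n, hn⟩ := IsPGroup.iff_card.1
    (show IsPGroup p D from fun x => ⟨1, by rw [pow_one]; exact hexp' x⟩)
  have hrn : r ≤ n := by
    rw [hn] at hr
    exact (Nat.pow_le_pow_iff_right hp.out.one_lt).1 hr
  obtain ⟨f, hf, hnf⟩ := TWO3.core p hG hcl hexp' n hn
  have h1 := stPiv G _ (Real.exp_pos _) (hf.comp D.subtype D.subtype_injective) I A B C hst τ hτ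
  refine h1.trans (mul_le_mul_of_nonneg_left (Real.exp_le_exp.2 ?_) (by positivity))
  have h2 : (r : ℝ) ≤ 64 * f := by exact_mod_cast hrn.trans hnf
  rw [neg_div, neg_div, neg_le_neg_iff, div_le_div_iff₀ (by norm_num) (by norm_num)]
  linarith

end Pool.Agent.L0h35.Se
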