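import Pool.Agent.L0h35.SvDefs

/-!
# StG: every commutative algebra of operators contains a large ideal of square zero
-/

set_option autoImplicit false

namespace Pool.Agent.L0h35.Sv

open Finset Module

namespace G83

variable {F : Type*} [Field F]

theorem fr_map {Y Y' : Type*} [AddCommGroup Y] [Module F Y] [FiniteDimensional F Y]
    [AddCommGroup Y'] [Module F Y'] (S : Submodule F Y) (f : Y →ₗ[F] Y') :
    finrank F (S.map f) + finrank F (S ⊓ LinearMap.ker f : Submodule F Y) = finrank F S := by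
  have h := (f.domRestrict S).finrank_range_add_finrank_ker
  rw [LinearMap.range_domRestrict, LinearMap.ker_domRestrict] at h
  rw [← Submodule.map_comap_subtype, Submodule.finrank_map_subtype_eq]
  exact h

theorem fr_mkQ {Y : Type*} [AddCommGroup Y] [Module F Y] [FiniteDimensional F Y]
    (S T : Submodule F Y) (h : T ≤ S) :
    finrank F (S.map T.mkQ) + finrank F T = finrank F S := by
  have h1 := fr_map S T.mkQ
  rw [Submodule.ker_mkQ, inf_eq_right.2 h] at h1
  exact h1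

theorem key {N Y : Type*} [AddCommGroup N] [Module F N] [FiniteDimensional F N]
    [AddCommGroup Y] [Module F Y] [FiniteDimensional F Y] (L0 L1 : N →ₗ[F] Y) (ρ : ℕ)
    (h0 : finrank F (LinearMap.range L0) = ρ) (h1 : finrank F (LinearMap.range L1) ≤ ρ)
    (h2 : finrank F (LinearMap.range (L0 + L1)) ≤ ρ) :
    ∃ κ : ℕ, 2 * κ ≤ ρ ∧
      finrank F ((LinearMap.ker L0).map L1 ⊔ LinearMap.range L0 : Submodule F Y) ≤ κ + ρ := by
  set M1 : Submodule F Y := (LinearMap.ker L0).map L1 with hM1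
  set R0 : Submodule F Y := LinearMap.range L0 with hR0
  obtain ⟨C, hC⟩ := Submodule.exists_isCompl (M1 ⊓ R0)
  set Z : Submodule F Y := C ⊓ M1 with hZ
  have hZM : Z ≤ M1 := inf_le_right
  have hZR : Z ⊓ R0 = ⊥ := by
    rw [eq_bot_iff]
    have h3 : Z ⊓ R0 ≤ (M1 ⊓ R0) ⊓ C := by
      intro y hy
      obtain ⟨⟨h4, h5⟩, h6⟩ := hy
      exact ⟨⟨h5, h6⟩, h4⟩
    exact h3.trans hC.inf_eq_bot.le
  have hsup : (M1 ⊓ R0) ⊔ Z = M1 := by
    rw [hZ, ← sup_inf_assoc_of_le C (inf_le_left : M1 ⊓ R0 ≤ M1), hC.sup_eq_top, top_inf_eq]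
  -- the kernel part
  have hZ1 : Z ≤ LinearMap.range L1 := by
    refine hZM.trans ?_
    rw [hM1]
    exact LinearMap.map_le_range
  have hZ2 : Z ≤ LinearMap.range (L0 + L1) := by
    intro y hy
    obtain ⟨n, hn, rfl⟩ := hZM hy
    refine ⟨n, ?_⟩
    have : L0 n = 0 := hn
    rw [LinearMap.add_apply, this, zero_add]
  have e1 := fr_mkQ (LinearMap.range L1) Z hZ1
  have e2 := fr_mkQ (LinearMap.range (L0 + L1)) Z hZ2
  have e0 := fr_map R0 Z.mkQ
  rw [Submodule.ker_mkQ, inf_comm, hZR, finrank_bot, add_zero, h0] at e0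
  have hsub : R0.map Z.mkQ ≤ (LinearMap.range (L0 + L1)).map Z.mkQ ⊔
      (LinearMap.range L1).map Z.mkQ := by
    rintro _ ⟨_, ⟨n, rfl⟩, rfl⟩
    have : Z.mkQ (L0 n) = Z.mkQ ((L0 + L1) n) + Z.mkQ (L1 (-n)) := by
      rw [← map_add]
      congr 1
      rw [LinearMap.add_apply, map_neg]
      abel
    rw [this]
    refine Submodule.add_mem_sup ?_ ?_
    · exact ⟨_, ⟨n, rfl⟩, rfl⟩
    · exact ⟨_, ⟨-n, rfl⟩, rfl⟩
  have e3 := (Submodule.finrank_mono hsub).trans (Submodule.finrank_add_le_finrank_add_finrank _ _)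
  rw [e0] at e3
  refine ⟨finrank F Z, by omega, ?_⟩
  have h4 : M1 ⊔ R0 ≤ Z ⊔ R0 := by
    refine sup_le ?_ le_sup_right
    rw [← hsup]
    exact sup_le (inf_le_right.trans le_sup_right) le_sup_left
  have h5 := (Submodule.finrank_mono h4).trans
    (Submodule.finrank_add_le_finrank_add_finrank _ _)
  rw [h0] at h5
  exact h5

variable {V : Type*} [AddCommGroup V] [Module F V] [FiniteDimensional F V]

/-- evaluation -/
abbrev ev (v : V) : Module.End F V →ₗ[F] V := LinearMap.applyₗ v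

theorem step (𝒜 : Submodule F (Module.End F V))
    (hcomm : ∀ a ∈ 𝒜, ∀ b ∈ 𝒜, a * b = b * a) (r : ℕ) :
    ∀ (N : Submodule F (Module.End F V)) (T : Submodule F V), N ≤ 𝒜 →
      (∀ a ∈ 𝒜, ∀ n ∈ N, a * n ∈ N) → (∀ a ∈ 𝒜, ∀ t ∈ T, a t ∈ T) →
      (∀ n ∈ N, ∀ t ∈ T, n t = 0) →
      (∀ v : V, finrank F (T ⊔ N.map (ev v) : Submodule F V) ≤ finrank F T + r) →
      ∃ (T' : Submodule F V) (N' : Submodule F (Module.End F V)), N' ≤ N ∧
        (∀ a ∈ N', ∀ v, a v ∈ T') ∧ (∀ a ∈ N', ∀ v ∈ T', a v = 0) ∧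
        finrank F N ≤ finrank F N' + 2 * r := by
  induction r using Nat.strong_induction_on with
  | _ r ih =>
  intro N T hN hid hT hNT hr
  -- the maximal rank
  obtain ⟨v, hv⟩ : ∃ v : V, ∀ w : V, finrank F (T ⊔ N.map (ev w) : Submodule F V) ≤
      finrank F (T ⊔ N.map (ev v) : Submodule F V) := by
    have hne : (Set.range fun w : V => finrank F (T ⊔ N.map (ev w) : Submodule F V)).Nonempty :=
      ⟨_, ⟨0, rfl⟩⟩
    have hbd : BddAbove (Set.range fun w : V =>
        finrank F (T ⊔ N.map (ev w) : Submodule F V)) := by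
      refine ⟨finrank F T + r, ?_⟩
      rintro _ ⟨w, rfl⟩
      exact hr w
    obtain ⟨v, hv⟩ := Nat.sSup_mem hne hbd
    refine ⟨v, fun w => ?_⟩
    have h1 : finrank F (T ⊔ N.map (ev w) : Submodule F V) ≤ _ := le_csSup hbd ⟨w, rfl⟩
    exact h1.trans hv.symm.le
  have hTle : ∀ w : V, finrank F T ≤ finrank F (T ⊔ N.map (ev w) : Submodule F V) := fun w =>
    Submodule.finrank_mono le_sup_left
  obtain ⟨ρ, hρ⟩ : ∃ ρ : ℕ, finrank F (T ⊔ N.map (ev v) : Submodule F V) = finrank F T + ρ :=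
    ⟨_, (Nat.add_sub_cancel' (hTle v)).symm⟩
  have hρr : ρ ≤ r := by
    have := hr v
    omega
  rcases Nat.eq_zero_or_pos ρ with h0 | hpos
  · -- nothing to do
    refine ⟨T, N, le_rfl, ?_, hNT, by omega⟩
    intro a ha w
    have h1 : finrank F (T ⊔ N.map (ev w) : Submodule F V) ≤ finrank F T := by
      have := hv w
      omega
    have h2 : T = T ⊔ N.map (ev w) := Submodule.eq_of_le_of_finrank_le le_sup_left h1
    rw [h2]
    exact le_sup_right (a := T) ⟨a, ha, rfl⟩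
  -- the two maps
  set L : V → (N →ₗ[F] V ⧸ T) := fun w => (T.mkQ.comp (ev w)).comp N.subtype with hL
  have hLr : ∀ w : V, LinearMap.range (L w) = (T ⊔ N.map (ev w)).map T.mkQ := by
    intro w
    rw [Submodule.map_sup, Submodule.mkQ_map_self, bot_sup_eq]
    ext y
    constructor
    · rintro ⟨n, rfl⟩
      exact ⟨_, ⟨n.1, n.2, rfl⟩, rfl⟩
    · rintro ⟨_, ⟨n, hn, rfl⟩, rfl⟩
      exact ⟨⟨n, hn⟩, rfl⟩
  have hLf : ∀ w : V, finrank F (LinearMap.range (L w)) + finrank F T =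
      finrank F (T ⊔ N.map (ev w) : Submodule F V) := by
    intro w
    rw [hLr w]
    exact fr_mkQ _ _ le_sup_left
  have hadd : ∀ w : V, L v + L w = L (v + w) := by
    intro w
    ext n
    simp [hL]
  have hρ0 : finrank F (LinearMap.range (L v)) = ρ := by
    have := hLf v
    omega
  have hρ1 : ∀ w : V, finrank F (LinearMap.range (L w)) ≤ ρ := by
    intro w
    have h1 := hLf w
    have h2 := hv w
    omega
  -- the new data
  set N1 : Submodule F (Module.End F V) := (LinearMap.ker (L v)).map N.subtype with hN1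
  set T1 : Submodule F V := T ⊔ N.map (ev v) with hT1
  have hN1mem : ∀ n, n ∈ N1 ↔ n ∈ N ∧ n v ∈ T := by
    intro n
    rw [hN1]
    constructor
    · rintro ⟨m, hm, rfl⟩
      refine ⟨m.2, ?_⟩
      have h1 : T.mkQ (m.1 v) = 0 := hm
      rwa [Submodule.mkQ_apply, Submodule.Quotient.mk_eq_zero] at h1
    · rintro ⟨h1, h2⟩
      refine ⟨⟨n, h1⟩, ?_, rfl⟩
      show T.mkQ (n v) = 0
      rwa [Submodule.mkQ_apply, Submodule.Quotient.mk_eq_zero]
  have hN1N : N1 ≤ N := fun n hn => ((hN1mem n).1 hn).1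
  have hN1f : finrank F N1 + ρ = finrank F N := by
    have h1 := (L v).finrank_range_add_finrank_ker
    rw [hρ0] at h1
    rw [hN1, Submodule.finrank_map_subtype_eq]
    omega
  obtain ⟨T', N', h1, h2, h3, h4⟩ := ih (ρ / 2) (by omega) N1 T1 (hN1N.trans hN)
    (fun a ha n hn => by
      obtain ⟨h1, h2⟩ := (hN1mem n).1 hn
      exact (hN1mem _).2 ⟨hid a ha n h1, hT a ha _ h2⟩)
    (fun a ha t ht => by
      rw [hT1, Submodule.mem_sup] at ht ⊢
      obtain ⟨t0, ht0, y, ⟨n, hn, rfl⟩, rfl⟩ := ht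
      refine ⟨a t0, hT a ha t0 ht0, (a * n) v, ⟨a * n, hid a ha n hn, rfl⟩, ?_⟩
      rw [map_add]
      rfl)
    (fun n hn t ht => by
      obtain ⟨h1, h2⟩ := (hN1mem n).1 hn
      rw [hT1, Submodule.mem_sup] at ht
      obtain ⟨t0, ht0, y, ⟨n', hn', rfl⟩, rfl⟩ := ht
      rw [map_add, hNT n h1 t0 ht0, zero_add]
      show n (n' v) = 0
      have h3 : n (n' v) = n' (n v) := by
        have := hcomm n (hN h1) n' (hN hn')
        exact congrArg (fun f : Module.End F V => f v) this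
      rw [h3]
      exact hNT n' hn' _ h2)
    (fun w => by
      obtain ⟨κ, hκ, h5⟩ := key (L v) (L w) ρ hρ0 (hρ1 w) (by
        rw [hadd w]
        exact hρ1 _)
      have h6 : (T1 ⊔ N1.map (ev w)).map T.mkQ =
          (LinearMap.ker (L v)).map (L w) ⊔ LinearMap.range (L v) := by
        rw [Submodule.map_sup, hLr v, sup_comm]
        congr 1
        rw [hN1, ← Submodule.map_comp, ← Submodule.map_comp]
      have h7 := fr_mkQ (T1 ⊔ N1.map (ev w)) T (le_sup_left.trans le_sup_left)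
      rw [h6] at h7
      have h8 : finrank F T1 = finrank F T + ρ := hρ
      omega)
  refine ⟨T', N', h1.trans hN1N, h2, h3, ?_⟩
  omega

end G83

theorem stG : StG := by
  intro F _ V _ _ _ 𝒜 hmul hcomm
  obtain ⟨T, N, h1, h2, h3, h4⟩ := G83.step 𝒜 hcomm (finrank F V) 𝒜 ⊥ le_rfl
    (fun a ha n hn => hmul a ha n hn)
    (fun a _ t ht => by
      rw [Submodule.mem_bot] at ht ⊢
      rw [ht, map_zero])
    (fun n _ t ht => by
      rw [Submodule.mem_bot] at ht
      rw [ht, map_zero])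
    (fun v => by
      have := Submodule.finrank_le (⊥ ⊔ 𝒜.map (G83.ev v) : Submodule F V)
      omega)
  exact ⟨T, N, h1, h2, h3, h4⟩

end Pool.Agent.L0h35.Sv
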