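import Pool.Agent.L0h35.SvDefs3
import Pool.Agent.L0h35.SvG

set_option autoImplicit false

/-!
# Groups of class two acting on a vector space
-/

namespace Pool.Agent.L0h35.Sv

open Finset Module
open scoped commutatorElement

namespace K2

lemma card_le_mul {P : Type} [Group P] [Finite P] (Q1 Q : Subgroup P) (hle : Q1 ≤ Q) {X : Type*}
    [Finite X] (F0 : Q → X) (h : ∀ x y : Q, F0 x = F0 y → ((y : P)⁻¹ * x) ∈ Q1) :
    Nat.card Q ≤ Nat.card Q1 * Nat.card X := by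
  have h1 := Subgroup.card_mul_index (Q1.subgroupOf Q)
  rw [Nat.card_congr (Subgroup.subgroupOfEquivOfLe hle).toEquiv] at h1
  rw [← h1]
  refine Nat.mul_le_mul_left _ ?_
  refine Nat.card_le_card_of_injective
    (fun c : Q ⧸ (Q1.subgroupOf Q) => F0 (Quotient.out c)) ?_
  intro c c' hc
  have h2 : (Quotient.out c')⁻¹ * Quotient.out c ∈ Q1.subgroupOf Q := by
    rw [Subgroup.mem_subgroupOf, Subgroup.coe_mul, Subgroup.coe_inv]
    exact h _ _ hc
  have h6 : (QuotientGroup.mk (Quotient.out c') : Q ⧸ (Q1.subgroupOf Q)) =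
      QuotientGroup.mk (Quotient.out c) := QuotientGroup.eq.2 h2
  have h7 : (QuotientGroup.mk (Quotient.out c') : Q ⧸ (Q1.subgroupOf Q)) = c' :=
    Quotient.out_eq c'
  have h8 : (QuotientGroup.mk (Quotient.out c) : Q ⧸ (Q1.subgroupOf Q)) = c := Quotient.out_eq c
  rw [← h7, ← h8, h6]

variable {p : ℕ} [Fact p.Prime] {V : Type} [AddCommGroup V] [Module (ZMod p) V]
  {P : Type} [Group P] (f : P →* Module.End (ZMod p) V)

/-- the span of the `f g - 1` -/
def NN (Q : Subgroup P) : Submodule (ZMod p) (Module.End (ZMod p) V) :=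
  Submodule.span (ZMod p) {a | ∃ g ∈ Q, a = f g - 1}

lemma f_mul (g h : P) (v : V) : f (g * h) v = f g (f h v) := by rw [map_mul]; rfl

lemma f_one (v : V) : f 1 v = v := by rw [map_one]; rfl

lemma f_inv (g : P) (v : V) : f g⁻¹ (f g v) = v := by rw [← f_mul, inv_mul_cancel, f_one]

lemma f_inv' (g : P) (v : V) : f g (f g⁻¹ v) = v := by rw [← f_mul, mul_inv_cancel, f_one]

/-- the elements moving `v` by elements of `T` -/
def stab (Q : Subgroup P) (T : Submodule (ZMod p) V) (hT : ∀ g ∈ Q, ∀ t ∈ T, f g t ∈ T) (v : V) :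
    Subgroup P where
  carrier := {g | g ∈ Q ∧ f g v - v ∈ T}
  one_mem' := ⟨Q.one_mem, by rw [f_one, sub_self]; exact T.zero_mem⟩
  mul_mem' := by
    rintro g h ⟨hg, hg'⟩ ⟨hh, hh'⟩
    refine ⟨Q.mul_mem hg hh, ?_⟩
    have e : f (g * h) v - v = f g (f h v - v) + (f g v - v) := by
      rw [f_mul, map_sub]; abel
    rw [e]
    exact T.add_mem (hT g hg _ hh') hg'
  inv_mem' := by
    rintro g ⟨hg, hg'⟩
    refine ⟨Q.inv_mem hg, ?_⟩
    have e : f g⁻¹ v - v = -(f g⁻¹ (f g v - v)) := by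
      rw [map_sub, f_inv]; abel
    rw [e]
    exact T.neg_mem (hT _ (Q.inv_mem hg) _ hg')

lemma mem_stab {Q : Subgroup P} {T : Submodule (ZMod p) V} {hT : ∀ g ∈ Q, ∀ t ∈ T, f g t ∈ T}
    {v : V} {g : P} : g ∈ stab f Q T hT v ↔ g ∈ Q ∧ f g v - v ∈ T := Iff.rfl

/-- elements of the commutator subgroup act centrally -/
lemma central (hz : ∀ g ∈ lcs (⊤ : Subgroup P) 2, f g = 1) {z : P}
    (hzz : z ∈ ⁅(⊤ : Subgroup P), (⊤ : Subgroup P)⁆) (g : P) (v : V) :
    f z (f g v) = f g (f z v) := by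
  have h1 : f ⁅z, g⁆ = 1 := hz _ (Subgroup.commutator_mem_commutator hzz (Subgroup.mem_top g))
  have h2 : z * g = ⁅z, g⁆ * (g * z) := by
    rw [commutatorElement_def]; group
  rw [← f_mul, h2, f_mul, h1, f_mul]
  rfl

/-- the basic identity -/
lemma basic (g x : P) (v : V) :
    f g (f x v - v) - (f x v - v) =
      (f x (f g v - v) - (f g v - v)) + (f ⁅g, x⁆ (f (x * g) v) - f (x * g) v) := by
  have h2 : f ⁅g, x⁆ (f (x * g) v) = f g (f x v) := by
    rw [← f_mul, ← f_mul]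
    congr 2
    rw [commutatorElement_def]; group
  rw [h2, f_mul, map_sub, map_sub]
  abel

lemma mem_NN {Q : Subgroup P} {g : P} (hg : g ∈ Q) (v : V) :
    f g v - v ∈ (NN f Q).map (G83.ev v) :=
  ⟨f g - 1, Submodule.subset_span ⟨g, hg, rfl⟩, rfl⟩

lemma NN_ind {Q : Subgroup P} {v : V} (S : Submodule (ZMod p) V)
    (h : ∀ g ∈ Q, f g v - v ∈ S) : (NN f Q).map (G83.ev v) ≤ S := by
  rw [Submodule.map_le_iff_le_comap, NN, Submodule.span_le]
  rintro _ ⟨g, hg, rfl⟩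
  exact h g hg

theorem process [Finite V] [Finite P] (hz : ∀ g ∈ lcs (⊤ : Subgroup P) 2, f g = 1) (r : ℕ) :
    ∀ (Q : Subgroup P) (T R : Submodule (ZMod p) V), R ≤ T →
      (∀ g ∈ Q, ∀ t ∈ T, f g t - t ∈ R) → (∀ z ∈ ⁅Q, Q⁆, ∀ t ∈ R, f z t = t) →
      (∀ v : V, finrank (ZMod p) (T ⊔ (NN f Q).map (G83.ev v) : Submodule (ZMod p) V) ≤
        finrank (ZMod p) T + r) →
      ∃ (H : Subgroup P) (T' R' : Submodule (ZMod p) V), H ≤ Q ∧ R' ≤ T' ∧
        (∀ g ∈ H, ∀ t ∈ T', f g t - t ∈ R') ∧ (∀ z ∈ ⁅H, H⁆, ∀ t ∈ R', f z t = t) ∧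
        (∀ g ∈ H, ∀ v, f g v - v ∈ T') ∧ Nat.card Q ≤ Nat.card H * p ^ (2 * r) := by
  haveI : Module.Finite (ZMod p) V := Module.Finite.of_finite
  have hp : 0 < p := (Fact.out : p.Prime).pos
  induction r using Nat.strong_induction_on with
  | _ r ih =>
  intro Q T R hRT ha hb hr
  have hT : ∀ g ∈ Q, ∀ t ∈ T, f g t ∈ T := fun g hg t ht => by
    have := T.add_mem (hRT (ha g hg t ht)) ht
    rwa [sub_add_cancel] at this
  have hR : ∀ g ∈ Q, ∀ t ∈ R, f g t ∈ R := fun g hg t ht => by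
    have := R.add_mem (ha g hg t (hRT ht)) ht
    rwa [sub_add_cancel] at this
  -- the maximal rank
  obtain ⟨v, hv⟩ : ∃ v : V, ∀ w : V,
      finrank (ZMod p) (T ⊔ (NN f Q).map (G83.ev w) : Submodule (ZMod p) V) ≤
      finrank (ZMod p) (T ⊔ (NN f Q).map (G83.ev v) : Submodule (ZMod p) V) := by
    have hne : (Set.range fun w : V =>
        finrank (ZMod p) (T ⊔ (NN f Q).map (G83.ev w) : Submodule (ZMod p) V)).Nonempty :=
      ⟨_, ⟨0, rfl⟩⟩
    have hbd : BddAbove (Set.range fun w : V =>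
        finrank (ZMod p) (T ⊔ (NN f Q).map (G83.ev w) : Submodule (ZMod p) V)) := by
      refine ⟨finrank (ZMod p) T + r, ?_⟩
      rintro _ ⟨w, rfl⟩
      exact hr w
    obtain ⟨v, hv⟩ := Nat.sSup_mem hne hbd
    refine ⟨v, fun w => ?_⟩
    have h1 : finrank (ZMod p) (T ⊔ (NN f Q).map (G83.ev w) : Submodule (ZMod p) V) ≤ _ :=
      le_csSup hbd ⟨w, rfl⟩
    exact h1.trans hv.symm.le
  have hTle : ∀ w : V, finrank (ZMod p) T ≤
      finrank (ZMod p) (T ⊔ (NN f Q).map (G83.ev w) : Submodule (ZMod p) V) := fun w =>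
    Submodule.finrank_mono le_sup_left
  obtain ⟨ρ, hρ⟩ : ∃ ρ : ℕ, finrank (ZMod p) (T ⊔ (NN f Q).map (G83.ev v) :
      Submodule (ZMod p) V) = finrank (ZMod p) T + ρ :=
    ⟨_, (Nat.add_sub_cancel' (hTle v)).symm⟩
  have hρr : ρ ≤ r := by
    have := hr v
    omega
  rcases Nat.eq_zero_or_pos ρ with h0 | hpos
  · -- nothing to do
    refine ⟨Q, T, R, le_rfl, hRT, ha, hb, ?_, ?_⟩
    · intro g hg w
      have h1 : finrank (ZMod p) (T ⊔ (NN f Q).map (G83.ev w) : Submodule (ZMod p) V) ≤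
          finrank (ZMod p) T := by
        have := hv w
        omega
      have h2 : T = T ⊔ (NN f Q).map (G83.ev w) := Submodule.eq_of_le_of_finrank_le le_sup_left h1
      rw [h2]
      exact le_sup_right (a := T) (mem_NN f hg w)
    · exact Nat.le_mul_of_pos_right _ (Nat.pow_pos hp)
  -- the two maps
  set N := NN f Q with hN
  set L : V → (N →ₗ[ZMod p] V ⧸ T) := fun w => (T.mkQ.comp (G83.ev w)).comp N.subtype with hL
  have hLr : ∀ w : V, LinearMap.range (L w) = (T ⊔ N.map (G83.ev w)).map T.mkQ := by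
    intro w
    rw [Submodule.map_sup, Submodule.mkQ_map_self, bot_sup_eq]
    ext y
    constructor
    · rintro ⟨n, rfl⟩
      exact ⟨_, ⟨n.1, n.2, rfl⟩, rfl⟩
    · rintro ⟨_, ⟨n, hn, rfl⟩, rfl⟩
      exact ⟨⟨n, hn⟩, rfl⟩
  have hLf : ∀ w : V, finrank (ZMod p) (LinearMap.range (L w)) + finrank (ZMod p) T =
      finrank (ZMod p) (T ⊔ N.map (G83.ev w) : Submodule (ZMod p) V) := by
    intro w
    rw [hLr w]
    exact G83.fr_mkQ _ _ le_sup_left
  have hadd : ∀ w : V, L v + L w = L (v + w) := by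
    intro w
    ext n
    simp [hL]
  have hρ0 : finrank (ZMod p) (LinearMap.range (L v)) = ρ := by
    have := hLf v
    omega
  have hρ1 : ∀ w : V, finrank (ZMod p) (LinearMap.range (L w)) ≤ ρ := by
    intro w
    have h1 := hLf w
    have h2 := hv w
    omega
  -- the new data
  set Q1 : Subgroup P := stab f Q T hT v with hQ1
  have hQ1Q : Q1 ≤ Q := fun g hg => hg.1
  set T1 : Submodule (ZMod p) V := T ⊔ N.map (G83.ev v) with hT1
  set R1 : Submodule (ZMod p) V := R ⊔ Submodule.span (ZMod p)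
    {u | ∃ y ∈ Q, ∃ z ∈ ⁅Q, Q⁆, u = f y (f z v - v)} with hR1
  have hQQ : ⁅Q, Q⁆ ≤ Q := by
    rw [Subgroup.commutator_le]
    intro x hx y hy
    rw [commutatorElement_def]
    exact Q.mul_mem (Q.mul_mem (Q.mul_mem hx hy) (Q.inv_mem hx)) (Q.inv_mem hy)
  have hQtop : ⁅Q, Q⁆ ≤ ⁅(⊤ : Subgroup P), (⊤ : Subgroup P)⁆ :=
    Subgroup.commutator_mono le_top le_top
  have hR1T1 : R1 ≤ T1 := by
    refine sup_le (hRT.trans le_sup_left) ?_
    rw [Submodule.span_le]
    rintro _ ⟨y, hy, z, hz', rfl⟩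
    have e : f y (f z v - v) = (f (y * z) v - v) - (f y v - v) := by
      rw [map_sub, f_mul]; abel
    rw [e]
    exact T1.sub_mem (le_sup_right (a := T) (mem_NN f (Q.mul_mem hy (hQQ hz')) v))
      (le_sup_right (a := T) (mem_NN f hy v))
  -- (a)
  have ha1 : ∀ g ∈ Q1, ∀ t ∈ T1, f g t - t ∈ R1 := by
    intro g hg t ht
    obtain ⟨hgQ, hgT⟩ := hg
    have h1 : T1 ≤ R1.comap (f g - 1) := by
      refine sup_le ?_ ?_
      · intro t ht
        exact le_sup_left (a := R) (ha g hgQ t ht)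
      · refine NN_ind f _ fun x hx => ?_
        show f g (f x v - v) - (f x v - v) ∈ R1
        rw [basic]
        refine R1.add_mem (le_sup_left (a := R) (ha x hx _ hgT)) ?_
        have hzQ : ⁅g, x⁆ ∈ ⁅Q, Q⁆ := Subgroup.commutator_mem_commutator hgQ hx
        rw [central f hz (hQtop hzQ), ← map_sub]
        exact le_sup_right (a := R)
          (Submodule.subset_span ⟨x * g, Q.mul_mem hx hgQ, ⁅g, x⁆, hzQ, rfl⟩)
    exact h1 ht
  -- the commutators of `Q1` move `v` by elements of `R`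
  have hcR : ∀ z ∈ ⁅Q1, Q1⁆, f z v - v ∈ R := by
    have h1 : ⁅Q1, Q1⁆ ≤ stab f Q R hR v := by
      rw [Subgroup.commutator_le]
      rintro g ⟨hgQ, hgT⟩ x ⟨hxQ, hxT⟩
      have hzQ : ⁅g, x⁆ ∈ ⁅Q, Q⁆ := Subgroup.commutator_mem_commutator hgQ hxQ
      refine ⟨hQQ hzQ, ?_⟩
      have h2 := basic f g x v
      have h3 : f ⁅g, x⁆ (f (x * g) v) - f (x * g) v ∈ R := by
        have h4 : f ⁅g, x⁆ (f (x * g) v) - f (x * g) v =
            (f g (f x v - v) - (f x v - v)) - (f x (f g v - v) - (f g v - v)) := by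
          rw [h2]; abel
        rw [h4]
        exact R.sub_mem (ha g hgQ _ hxT) (ha x hxQ _ hgT)
      rw [central f hz (hQtop hzQ), ← map_sub] at h3
      have h5 := hR (x * g)⁻¹ (Q.inv_mem (Q.mul_mem hxQ hgQ)) _ h3
      rwa [f_inv] at h5
    intro z hz'
    exact (h1 hz').2
  have hb1 : ∀ z ∈ ⁅Q1, Q1⁆, ∀ t ∈ R1, f z t = t := by
    intro z hz' t ht
    have hzQ : z ∈ ⁅Q, Q⁆ := Subgroup.commutator_mono hQ1Q hQ1Q hz'
    have h1 : R1 ≤ LinearMap.ker (f z - 1) := by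
      refine sup_le ?_ ?_
      · intro t ht
        rw [LinearMap.mem_ker]
        show f z t - t = 0
        rw [hb z hzQ t ht, sub_self]
      · rw [Submodule.span_le]
        rintro _ ⟨y, hy, z', hz'', rfl⟩
        show f z (f y (f z' v - v)) - f y (f z' v - v) = 0
        rw [central f hz (hQtop hzQ), ← map_sub]
        have h3 : f z (f z' v - v) - (f z' v - v) = f z' (f z v - v) - (f z v - v) := by
          rw [map_sub, map_sub, central f hz (hQtop hzQ)]
          abel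
        rw [h3, hb z' hz'' _ (hcR z hz'), sub_self, map_zero]
    have h2 := h1 ht
    rw [LinearMap.mem_ker] at h2
    exact sub_eq_zero.1 h2
  -- the index
  have hcard : Nat.card Q ≤ Nat.card Q1 * p ^ ρ := by
    have h1 : Nat.card (T1.map T.mkQ) = p ^ ρ := by
      have h2 : finrank (ZMod p) (T1.map T.mkQ) = ρ := by rw [← hLr v, hρ0]
      have h3 := Module.natCard_eq_pow_finrank (K := ZMod p) (V := T1.map T.mkQ)
      rw [h3, Nat.card_zmod, h2]
    rw [← h1]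
    haveI : Finite (V ⧸ T) := Finite.of_surjective _ (Submodule.mkQ_surjective T)
    haveI : Finite (T1.map T.mkQ) := Subtype.finite
    refine card_le_mul Q1 Q hQ1Q (fun g => (⟨T.mkQ (f (g : P) v - v), _,
      le_sup_right (a := T) (mem_NN f g.2 v), rfl⟩ : T1.map T.mkQ)) ?_
    intro x y hxy
    have h2 : T.mkQ (f (x : P) v - v) = T.mkQ (f (y : P) v - v) := congrArg Subtype.val hxy
    rw [← sub_eq_zero, ← map_sub, Submodule.mkQ_apply, Submodule.Quotient.mk_eq_zero] at h2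
    refine ⟨Q.mul_mem (Q.inv_mem y.2) x.2, ?_⟩
    have h3 := hT (y : P)⁻¹ (Q.inv_mem y.2) _ h2
    have e : f ((y : P)⁻¹ * x) v - v = f (y : P)⁻¹ (f (x : P) v - v - (f (y : P) v - v)) := by
      rw [sub_sub_sub_cancel_right, map_sub, f_inv, f_mul]
    rw [e]
    exact h3
  -- the halving
  have hNN1 : ∀ w : V, (NN f Q1).map (G83.ev w) ≤
      (((LinearMap.ker (L v)).map N.subtype).map (G83.ev w) : Submodule (ZMod p) V) := by
    intro w
    refine NN_ind f _ fun g hg => ?_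
    obtain ⟨hgQ, hgT⟩ := hg
    refine ⟨f g - 1, ⟨⟨f g - 1, Submodule.subset_span ⟨g, hgQ, rfl⟩⟩, ?_, rfl⟩, rfl⟩
    show T.mkQ (f g v - v) = 0
    rwa [Submodule.mkQ_apply, Submodule.Quotient.mk_eq_zero]
  obtain ⟨H, T', R', h1, h2, h3, h4, h5, h6⟩ := ih (ρ / 2) (by omega) Q1 T1 R1 hR1T1 ha1 hb1
    (fun w => by
      obtain ⟨κ, hκ, h5⟩ := G83.key (L v) (L w) ρ hρ0 (hρ1 w) (by
        rw [hadd w]
        exact hρ1 _)
      have h6 : (T1 ⊔ ((LinearMap.ker (L v)).map N.subtype).map (G83.ev w)).map T.mkQ =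
          (LinearMap.ker (L v)).map (L w) ⊔ LinearMap.range (L v) := by
        rw [Submodule.map_sup, hLr v, sup_comm]
        congr 1
        rw [← Submodule.map_comp, ← Submodule.map_comp]
      have h7 := G83.fr_mkQ (T1 ⊔ ((LinearMap.ker (L v)).map N.subtype).map (G83.ev w)) T
        (le_sup_left.trans le_sup_left)
      rw [h6] at h7
      have h8 : finrank (ZMod p) T1 = finrank (ZMod p) T + ρ := hρ
      have h9 := Submodule.finrank_mono (sup_le_sup_left (hNN1 w) T1)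
      omega)
  refine ⟨H, T', R', h1.trans hQ1Q, h2, h3, h4, h5, ?_⟩
  calc Nat.card Q ≤ Nat.card Q1 * p ^ ρ := hcard
    _ ≤ (Nat.card H * p ^ (2 * (ρ / 2))) * p ^ ρ := Nat.mul_le_mul_right _ h6
    _ = Nat.card H * p ^ (2 * (ρ / 2) + ρ) := by rw [mul_assoc, ← pow_add]
    _ ≤ Nat.card H * p ^ (2 * r) :=
        Nat.mul_le_mul_left _ (Nat.pow_le_pow_right hp (by omega))

/-- the elements of `Q` which act trivially on `R / T` and on `T` -/
def fixs (Q : Subgroup P) (R T : Submodule (ZMod p) V) (hR : ∀ g ∈ Q, ∀ t ∈ R, f g t ∈ R) :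
    Subgroup P where
  carrier := {g | g ∈ Q ∧ (∀ t ∈ R, f g t - t ∈ T) ∧ ∀ t ∈ T, f g t = t}
  one_mem' := ⟨Q.one_mem, fun t _ => by rw [f_one, sub_self]; exact T.zero_mem,
    fun t _ => f_one f t⟩
  mul_mem' := by
    rintro g h ⟨hg, hg1, hg2⟩ ⟨hh, hh1, hh2⟩
    refine ⟨Q.mul_mem hg hh, fun t ht => ?_, fun t ht => ?_⟩
    · have e : f (g * h) t - t = f g (f h t - t) + (f g t - t) := by
        rw [f_mul, map_sub]; abel
      rw [e, hg2 _ (hh1 t ht)]
      exact T.add_mem (hh1 t ht) (hg1 t ht)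
    · rw [f_mul, hh2 t ht, hg2 t ht]
  inv_mem' := by
    rintro g ⟨hg, hg1, hg2⟩
    refine ⟨Q.inv_mem hg, fun t ht => ?_, fun t ht => ?_⟩
    · have h1 := hg1 _ (hR _ (Q.inv_mem hg) t ht)
      rw [f_inv'] at h1
      rw [← neg_sub]
      exact T.neg_mem h1
    · conv_lhs => rw [← hg2 t ht]
      exact f_inv f g t

lemma mem_fixs {Q : Subgroup P} {R T : Submodule (ZMod p) V}
    {hR : ∀ g ∈ Q, ∀ t ∈ R, f g t ∈ R} {g : P} :
    g ∈ fixs f Q R T hR ↔ g ∈ Q ∧ (∀ t ∈ R, f g t - t ∈ T) ∧ ∀ t ∈ T, f g t = t := Iff.rfl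

/-- commuting operators -/
theorem second [Finite V] [Finite P] (Q : Subgroup P) (R : Submodule (ZMod p) V)
    (hR : ∀ g ∈ Q, ∀ t ∈ R, f g t ∈ R) (hb : ∀ z ∈ ⁅Q, Q⁆, ∀ t ∈ R, f z t = t) :
    ∃ (H : Subgroup P) (T : Submodule (ZMod p) V), H ≤ Q ∧ T ≤ R ∧
      (∀ g ∈ H, ∀ t ∈ R, f g t - t ∈ T) ∧ (∀ g ∈ H, ∀ t ∈ T, f g t = t) ∧
      Nat.card Q ≤ Nat.card H * p ^ (2 * finrank (ZMod p) R) := by
  classical
  haveI : Module.Finite (ZMod p) V := Module.Finite.of_finite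
  have hp : 0 < p := (Fact.out : p.Prime).pos
  set ψ : Q → Module.End (ZMod p) R := fun g => (f (g : P)).restrict (hR g g.2) with hψ
  have hψa : ∀ (g : Q) (t : R), ((ψ g t : R) : V) = f (g : P) (t : V) := fun g t => rfl
  have hψm : ∀ g h : Q, ψ g * ψ h = ψ (g * h) := by
    intro g h
    refine LinearMap.ext fun t => Subtype.ext ?_
    rw [Module.End.mul_apply, hψa, hψa, hψa, Subgroup.coe_mul, f_mul]
  have hψc : ∀ g h : Q, ψ g * ψ h = ψ h * ψ g := by
    intro g h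
    rw [hψm, hψm]
    refine LinearMap.ext fun t => Subtype.ext ?_
    rw [hψa, hψa]
    have h1 : ((g * h : Q) : P) = ⁅(g : P), (h : P)⁆ * ((h * g : Q) : P) := by
      rw [commutatorElement_def, Subgroup.coe_mul, Subgroup.coe_mul]; group
    rw [h1, f_mul]
    exact hb _ (Subgroup.commutator_mem_commutator g.2 h.2) _ (hR _ (h * g).2 _ t.2)
  set 𝒜 : Submodule (ZMod p) (Module.End (ZMod p) R) :=
    Submodule.span (ZMod p) (Set.range fun g : Q => ψ g - 1) with h𝒜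
  have hmul : ∀ a ∈ 𝒜, ∀ b ∈ 𝒜, a * b ∈ 𝒜 := by
    have h : 𝒜 * 𝒜 ≤ 𝒜 := by
      rw [h𝒜, Submodule.span_mul_span, Submodule.span_le]
      rintro _ ⟨_, ⟨x, rfl⟩, _, ⟨y, rfl⟩, rfl⟩
      have h1 : (ψ x - 1) * (ψ y - 1) = (ψ (x * y) - 1) - (ψ x - 1) - (ψ y - 1) := by
        rw [← hψm]; noncomm_ring
      show (ψ x - 1) * (ψ y - 1) ∈ _
      rw [h1]
      exact Submodule.sub_mem _ (Submodule.sub_mem _ (Submodule.subset_span ⟨_, rfl⟩)
        (Submodule.subset_span ⟨_, rfl⟩)) (Submodule.subset_span ⟨_, rfl⟩)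
    intro a ha b hb
    exact h (Submodule.mul_mem_mul ha hb)
  have hcomm1 : ∀ (g : Q), ∀ b ∈ 𝒜, ψ g * b = b * ψ g := by
    intro g b hb
    induction hb using Submodule.span_induction with
    | mem b hb =>
      obtain ⟨y, rfl⟩ := hb
      show ψ g * (ψ y - 1) = (ψ y - 1) * ψ g
      rw [mul_sub, sub_mul, hψc g y, mul_one, one_mul]
    | zero => rw [mul_zero, zero_mul]
    | add b c _ _ h2 h3 => rw [mul_add, add_mul, h2, h3]
    | smul c b _ h2 => rw [mul_smul_comm, smul_mul_assoc, h2]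
  have hcomm : ∀ a ∈ 𝒜, ∀ b ∈ 𝒜, a * b = b * a := by
    intro a ha b hb
    induction ha using Submodule.span_induction with
    | mem a ha =>
      obtain ⟨x, rfl⟩ := ha
      show (ψ x - 1) * b = b * (ψ x - 1)
      rw [mul_sub, sub_mul, hcomm1 x b hb, mul_one, one_mul]
    | zero => rw [mul_zero, zero_mul]
    | add a c _ _ h2 h3 => rw [mul_add, add_mul, h2, h3]
    | smul c a _ h2 => rw [mul_smul_comm, smul_mul_assoc, h2]
  obtain ⟨T3, N, hN, hN1, hN2, hN3⟩ := stG (ZMod p) R 𝒜 hmul hcomm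
  set T : Submodule (ZMod p) V := T3.map R.subtype with hT
  have hTR : T ≤ R := Submodule.map_subtype_le _ _
  refine ⟨fixs f Q R T hR, T, fun g hg => hg.1, hTR, fun g hg => hg.2.1, fun g hg => hg.2.2, ?_⟩
  -- the index
  haveI : Finite (Module.End (ZMod p) R) :=
    Finite.of_injective (fun f : Module.End (ZMod p) R => (f : R → R)) DFunLike.coe_injective
  set W1 : Submodule (ZMod p) 𝒜 := N.submoduleOf 𝒜 with hW1
  have hfin : finrank (ZMod p) W1 = finrank (ZMod p) N :=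
    (Submodule.submoduleOfEquivOfLe hN).finrank_eq
  have hq : finrank (ZMod p) (𝒜 ⧸ W1) ≤ 2 * finrank (ZMod p) R := by
    have := Submodule.finrank_quotient_add_finrank W1
    omega
  haveI : Finite 𝒜 := Subtype.finite
  haveI : Finite (𝒜 ⧸ W1) := Finite.of_surjective _ (Submodule.mkQ_surjective W1)
  have hcard : Nat.card (𝒜 ⧸ W1) ≤ p ^ (2 * finrank (ZMod p) R) := by
    rw [Module.natCard_eq_pow_finrank (K := ZMod p), Nat.card_zmod]
    exact Nat.pow_le_pow_right hp hq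
  refine (card_le_mul (fixs f Q R T hR) Q (fun g hg => hg.1) (fun g : Q =>
    (Submodule.Quotient.mk ⟨ψ g - 1, Submodule.subset_span ⟨g, rfl⟩⟩ : 𝒜 ⧸ W1)) ?_).trans
    (Nat.mul_le_mul_left _ hcard)
  intro x y hxy
  have h1 := (Submodule.Quotient.eq W1).1 hxy
  have h2 : ψ x - 1 - (ψ y - 1) ∈ N := h1
  rw [sub_sub_sub_cancel_right] at h2
  have h3 : ∀ t : R, f ((y : P)⁻¹ * x) (t : V) - t = (((ψ x - ψ y) (ψ y⁻¹ t) : R) : V) := by
    intro t
    have h4 : (ψ x - ψ y) (ψ y⁻¹ t) = ψ y⁻¹ ((ψ x - ψ y) t) := by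
      have h5 := hcomm1 y⁻¹ _ (hN h2)
      exact (congrArg (fun a : Module.End (ZMod p) R => a t) h5).symm
    rw [h4, hψa, LinearMap.sub_apply, Submodule.coe_sub, hψa, hψa, map_sub, f_mul,
      Subgroup.coe_inv, f_inv]
  refine ⟨Q.mul_mem (Q.inv_mem y.2) x.2, fun t ht => ?_, fun t ht => ?_⟩
  · have h4 := h3 ⟨t, ht⟩
    change f ((y : P)⁻¹ * x) t - t = _ at h4
    rw [h4]
    exact ⟨_, hN1 _ h2 _, rfl⟩
  · obtain ⟨t', ht', rfl⟩ := ht
    have h4 := h3 t'
    have h5 : (ψ x - ψ y) (ψ y⁻¹ t') = 0 := by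
      have h6 := hcomm1 y⁻¹ _ (hN h2)
      have h7 : (ψ x - ψ y) (ψ y⁻¹ t') = ψ y⁻¹ ((ψ x - ψ y) t') :=
        (congrArg (fun a : Module.End (ZMod p) R => a t') h6).symm
      rw [h7, hN2 _ h2 t' ht', map_zero]
    rw [h5] at h4
    exact sub_eq_zero.1 h4

end K2

open K2

theorem stK2 : StK2 := by
  classical
  intro p _ V _ _ _ P _ _ f hz
  haveI : Module.Finite (ZMod p) V := Module.Finite.of_finite
  have hp : 0 < p := (Fact.out : p.Prime).pos
  obtain ⟨H1, T, R, -, hRT, ha, hb, hc, hcard1⟩ := process f hz (finrank (ZMod p) V) ⊤ ⊥ ⊥ le_rfl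
    (fun g _ t ht => by
      rw [(Submodule.mem_bot _).1 ht, map_zero, sub_zero]
      exact Submodule.zero_mem _)
    (fun z _ t ht => by rw [(Submodule.mem_bot _).1 ht, map_zero])
    (fun v => (Submodule.finrank_le _).trans (Nat.le_add_left _ _))
  have hR : ∀ g ∈ H1, ∀ t ∈ R, f g t ∈ R := fun g hg t ht => by
    have := R.add_mem (ha g hg t (hRT ht)) ht
    rwa [sub_add_cancel] at this
  obtain ⟨H, T3, hH, hT3, h1, h2, hcard2⟩ := second f H1 R hR hb
  refine ⟨H, fun i => match i with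
    | 0 => ⊤
    | 1 => T
    | 2 => R
    | 3 => T3
    | _ => ⊥, rfl, rfl, ?_, ?_, ?_⟩
  · intro i
    match i with
    | 0 => exact le_top
    | 1 => exact hRT
    | 2 => exact hT3
    | 3 => exact bot_le
    | (n + 4) => exact bot_le
  · intro i hi h hh v hv
    match i, hi with
    | 0, _ => exact hc h (hH hh) v
    | 1, _ => exact ha h (hH hh) v hv
    | 2, _ => exact h1 h hh v hv
    | 3, _ =>
      show f h v - v ∈ (⊥ : Submodule (ZMod p) V)
      rw [h2 h hh v hv, sub_self]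
      exact Submodule.zero_mem _
  · have h3 : Nat.card H * H.index = Nat.card P := Subgroup.card_mul_index H
    have h4 : Nat.card (⊤ : Subgroup P) = Nat.card P := Nat.card_congr Subgroup.topEquiv.toEquiv
    have h5 : finrank (ZMod p) R ≤ finrank (ZMod p) V := Submodule.finrank_le R
    have h6 : Nat.card H * H.index ≤ Nat.card H * p ^ (4 * finrank (ZMod p) V) := by
      calc Nat.card H * H.index = Nat.card (⊤ : Subgroup P) := by rw [h3, h4]
        _ ≤ Nat.card H1 * p ^ (2 * finrank (ZMod p) V) := hcard1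
        _ ≤ (Nat.card H * p ^ (2 * finrank (ZMod p) R)) * p ^ (2 * finrank (ZMod p) V) :=
            Nat.mul_le_mul_right _ hcard2
        _ = Nat.card H * p ^ (2 * finrank (ZMod p) R + 2 * finrank (ZMod p) V) := by
            rw [mul_assoc, ← pow_add]
        _ ≤ Nat.card H * p ^ (4 * finrank (ZMod p) V) :=
            Nat.mul_le_mul_left _ (Nat.pow_le_pow_right hp (by omega))
    exact Nat.le_of_mul_le_mul_left h6 Nat.card_pos

end Pool.Agent.L0h35.Sv
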