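import Pool.Agent.L0h35.SvDefs
import Mathlib

set_option autoImplicit false

/-!
# One elementary abelian section
-/

namespace Pool.Agent.L0h35.Sv.ModI

open Module
open scoped commutatorElement IsMulCommutative

section rep

variable {p : ℕ} {Q : Type} [Group Q] {M : Subgroup Q} [M.Normal]
  [IsMulCommutative M] [Module (ZMod p) (Additive M)]

/-- the element of the group -/
def el (v : Additive M) : Q := ((Additive.toMul v : M) : Q)

lemma el_inj {v w : Additive M} (h : el v = el w) : v = w :=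
  Additive.toMul.injective (Subtype.ext h)

lemma el_add (v w : Additive M) : el (v + w) = el v * el w := rfl

lemma el_zero : el (0 : Additive M) = 1 := rfl

lemma el_neg (v : Additive M) : el (-v) = (el v)⁻¹ := rfl

lemma el_sub (v w : Additive M) : el (v - w) = el v * (el w)⁻¹ := by
  rw [sub_eq_add_neg, el_add, el_neg]

lemma el_mem (v : Additive M) : el v ∈ M := (Additive.toMul v : M).2

/-- conjugation -/
noncomputable def rho (p : ℕ) [Module (ZMod p) (Additive M)] (g : Q) :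
    Additive M ≃ₗ[ZMod p] Additive M :=
  (MulEquiv.toAdditive (MulAut.conjNormal g : MulAut M)).toLinearEquiv
    (fun c x => ZMod.map_smul (MulEquiv.toAdditive (MulAut.conjNormal g : MulAut M)) c x)

lemma el_rho (g : Q) (v : Additive M) : el (rho p g v) = g * el v * g⁻¹ :=
  MulAut.conjNormal_apply g (Additive.toMul v : M)

lemma rho_mul (g h : Q) (v : Additive M) : rho p (g * h) v = rho p g (rho p h v) := by
  apply el_inj
  rw [el_rho, el_rho, el_rho]
  group

lemma rho_one (v : Additive M) : rho p 1 v = v := by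
  apply el_inj
  rw [el_rho]
  group

lemma rho_inv (g : Q) (v : Additive M) : rho p g⁻¹ (rho p g v) = v := by
  rw [← rho_mul, inv_mul_cancel, rho_one]

lemma rho_inv' (g : Q) (v : Additive M) : rho p g (rho p g⁻¹ v) = v := by
  rw [← rho_mul, mul_inv_cancel, rho_one]

lemma rho_symm (g : Q) (v : Additive M) : (rho p g).symm v = rho p g⁻¹ v := by
  rw [LinearEquiv.symm_apply_eq, rho_inv']

/-- `rho x - 1` -/
noncomputable def dl (p : ℕ) [Module (ZMod p) (Additive M)] (g : Q) :
    Module.End (ZMod p) (Additive M) := (rho p g).toLinearMap - 1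

lemma dl_apply (g : Q) (v : Additive M) : dl p g v = rho p g v - v := rfl

/-- the span of the `rho x - 1` -/
noncomputable def AA (p : ℕ) [Module (ZMod p) (Additive M)] (P : Subgroup Q) :
    Submodule (ZMod p) (Module.End (ZMod p) (Additive M)) :=
  Submodule.span (ZMod p) {f | ∃ x ∈ P, f = dl p x}

lemma dl_mem {P : Subgroup Q} {x : Q} (hx : x ∈ P) : dl p x ∈ AA (M := M) p P :=
  Submodule.subset_span ⟨x, hx, rfl⟩

lemma AA_mul (P : Subgroup Q) : ∀ a ∈ AA (M := M) p P, ∀ b ∈ AA (M := M) p P,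
    a * b ∈ AA (M := M) p P := by
  have h : AA (M := M) p P * AA (M := M) p P ≤ AA (M := M) p P := by
    conv_lhs => unfold AA
    rw [Submodule.span_mul_span, Submodule.span_le]
    rintro _ ⟨_, ⟨x, hx, rfl⟩, _, ⟨y, hy, rfl⟩, rfl⟩
    have h1 : dl p x * dl p y = dl (M := M) p (x * y) - dl p x - dl p y := by
      ext v
      simp only [Module.End.mul_apply, LinearMap.sub_apply, dl_apply, map_sub, rho_mul]
      abel_nf
    show dl p x * dl p y ∈ AA (M := M) p P
    rw [h1]
    exact Submodule.sub_mem _ (Submodule.sub_mem _ (dl_mem (P.mul_mem hx hy)) (dl_mem hx)) (dl_mem hy)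
  intro a ha b hb
  exact h (Submodule.mul_mem_mul ha hb)

lemma AA_comm (P : Subgroup Q)
    (hPM : ∀ x ∈ P, ∀ y ∈ P, ∀ a ∈ M, ⁅x, y⁆ * a = a * ⁅x, y⁆) :
    ∀ a ∈ AA (M := M) p P, ∀ b ∈ AA (M := M) p P, a * b = b * a := by
  have h0 : ∀ x ∈ P, ∀ y ∈ P, dl (M := M) p x * dl p y = dl p y * dl p x := by
    intro x hx y hy
    have h1 : ∀ v : Additive M, rho p x (rho p y v) = rho p y (rho p x v) := by
      intro v
      apply el_inj
      rw [el_rho, el_rho, el_rho, el_rho]
      have h2 := hPM x hx y hy (y * x * el v * (y * x)⁻¹) (by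
        exact Subgroup.Normal.conj_mem inferInstance _ (el_mem v) (y * x))
      have h3 : x * (y * el v * y⁻¹) * x⁻¹ = ⁅x, y⁆ * (y * x * el v * (y * x)⁻¹) * ⁅x, y⁆⁻¹ := by
        rw [commutatorElement_def]; group
      rw [h3, h2]
      group
    ext v
    simp only [Module.End.mul_apply, dl_apply, map_sub, h1]
    abel_nf
  have h1 : ∀ x ∈ P, ∀ b ∈ AA (M := M) p P, dl p x * b = b * dl p x := by
    intro x hx b hb
    induction hb using Submodule.span_induction with
    | mem b hb =>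
      obtain ⟨y, hy, rfl⟩ := hb
      exact h0 x hx y hy
    | zero => rw [mul_zero, zero_mul]
    | add b c _ _ h2 h3 => rw [mul_add, add_mul, h2, h3]
    | smul c b _ h2 => rw [mul_smul_comm, smul_mul_assoc, h2]
  intro a ha b hb
  induction ha using Submodule.span_induction with
  | mem a ha =>
    obtain ⟨x, hx, rfl⟩ := ha
    exact h1 x hx b hb
  | zero => rw [mul_zero, zero_mul]
  | add a c _ _ h2 h3 => rw [mul_add, add_mul, h2, h3]
  | smul c a _ h2 => rw [mul_smul_comm, smul_mul_assoc, h2]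

lemma conj_dl (g x : Q) : (rho (M := M) p g).conj (dl p x) = dl p (g * x * g⁻¹) := by
  ext v
  rw [LinearEquiv.conj_apply_apply, dl_apply, dl_apply, map_sub, rho_symm, rho_inv', ← rho_mul,
    ← rho_mul]

lemma AA_conj {P : Subgroup Q} (hP : P.Normal) (g : Q) :
    ∀ a ∈ AA (M := M) p P, (rho (M := M) p g).conj a ∈ AA (M := M) p P := by
  intro a ha
  induction ha using Submodule.span_induction with
  | mem a ha =>
    obtain ⟨x, hx, rfl⟩ := ha
    rw [conj_dl]
    exact dl_mem (hP.conj_mem x hx g)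
  | zero => rw [map_zero]; exact Submodule.zero_mem _
  | add a b _ _ h2 h3 => rw [map_add]; exact Submodule.add_mem _ h2 h3
  | smul c a _ h2 => rw [map_smul]; exact Submodule.smul_mem _ _ h2

lemma AA_conj_iff {P : Subgroup Q} (hP : P.Normal) (g : Q)
    (a : Module.End (ZMod p) (Additive M)) :
    (rho (M := M) p g).conj a ∈ AA (M := M) p P ↔ a ∈ AA (M := M) p P := by
  refine ⟨fun h => ?_, AA_conj hP g a⟩
  have h1 := AA_conj hP g⁻¹ _ h
  have h2 : (rho (M := M) p g⁻¹).conj ((rho (M := M) p g).conj a) = a := by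
    ext v
    rw [LinearEquiv.conj_apply_apply, LinearEquiv.conj_apply_apply, rho_symm, rho_symm, inv_inv,
      rho_inv, rho_inv]
  rwa [h2] at h1

/-- the subgroup of a submodule -/
def sbg (T : Submodule (ZMod p) (Additive M)) : Subgroup Q where
  carrier := {a | ∃ v ∈ T, el v = a}
  one_mem' := ⟨0, T.zero_mem, rfl⟩
  mul_mem' := by
    rintro _ _ ⟨v, hv, rfl⟩ ⟨w, hw, rfl⟩
    exact ⟨v + w, T.add_mem hv hw, rfl⟩
  inv_mem' := by
    rintro _ ⟨v, hv, rfl⟩
    exact ⟨-v, T.neg_mem hv, rfl⟩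

lemma mem_sbg {T : Submodule (ZMod p) (Additive M)} {a : Q} : a ∈ sbg T ↔ ∃ v ∈ T, el v = a :=
  Iff.rfl

/-- the subgroup of the elements `x` with `rho x - 1` of square zero -/
def HH (P : Subgroup Q) (T : Submodule (ZMod p) (Additive M)) : Subgroup Q where
  carrier := {x | x ∈ P ∧ (∀ v, rho p x v - v ∈ T) ∧ ∀ v ∈ T, rho p x v = v}
  one_mem' := ⟨P.one_mem, fun v => by rw [rho_one, sub_self]; exact T.zero_mem,
    fun v _ => rho_one v⟩
  mul_mem' := by
    rintro x y ⟨hx, hx1, hx2⟩ ⟨hy, hy1, hy2⟩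
    refine ⟨P.mul_mem hx hy, fun v => ?_, fun v hv => ?_⟩
    · have h1 : rho p (x * y) v - v = rho p x (rho p y v - v) + (rho p x v - v) := by
        rw [rho_mul, map_sub]; abel
      rw [h1, hx2 _ (hy1 v)]
      exact T.add_mem (hy1 v) (hx1 v)
    · rw [rho_mul, hy2 v hv, hx2 v hv]
  inv_mem' := by
    rintro x ⟨hx, hx1, hx2⟩
    refine ⟨P.inv_mem hx, fun v => ?_, fun v hv => ?_⟩
    · have h1 := hx1 (rho p x⁻¹ v)
      rw [rho_inv'] at h1
      rw [← neg_sub]
      exact T.neg_mem h1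
    · conv_lhs => rw [← hx2 v hv]
      exact rho_inv x v

lemma mem_HH {P : Subgroup Q} {T : Submodule (ZMod p) (Additive M)} {x : Q} :
    x ∈ HH P T ↔ x ∈ P ∧ (∀ v, rho p x v - v ∈ T) ∧ ∀ v ∈ T, rho p x v = v := Iff.rfl

variable {P : Subgroup Q} {T : Submodule (ZMod p) (Additive M)}

lemma T_inv (hT : ∀ g : Q, T.map (rho p g).toLinearMap = T) (g : Q) {v : Additive M}
    (hv : v ∈ T) : rho p g v ∈ T := by
  rw [← hT g]
  exact ⟨v, hv, rfl⟩

lemma HH_normal (hP : P.Normal) (hT : ∀ g : Q, T.map (rho p g).toLinearMap = T) :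
    (HH P T).Normal := by
  constructor
  rintro x ⟨hx, hx1, hx2⟩ g
  refine ⟨hP.conj_mem x hx g, fun v => ?_, fun v hv => ?_⟩
  · have h1 : rho p (g * x * g⁻¹) v - v = rho p g (rho p x (rho p g⁻¹ v) - rho p g⁻¹ v) := by
      rw [map_sub, rho_inv', ← rho_mul, ← rho_mul]
    rw [h1]
    exact T_inv hT g (hx1 _)
  · rw [rho_mul, rho_mul, hx2 _ (T_inv hT g⁻¹ hv), rho_inv']

lemma sbg_normal (hT : ∀ g : Q, T.map (rho p g).toLinearMap = T) : (sbg T).Normal := by
  constructor
  rintro _ ⟨v, hv, rfl⟩ g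
  exact ⟨rho p g v, T_inv hT g hv, el_rho g v⟩

/-- the index -/
lemma index_le [Fact p.Prime] [Finite Q]
    (hT : ∀ g : Q, T.map (rho p g).toLinearMap = T)
    (W : Submodule (ZMod p) (Module.End (ZMod p) (Additive M))) (hW : W ≤ AA (M := M) p P)
    (hW1 : ∀ a ∈ W, ∀ v, a v ∈ T) (hW2 : ∀ a ∈ W, ∀ v ∈ T, a v = 0) (d : ℕ)
    (hd : finrank (ZMod p) (AA (M := M) p P) ≤ finrank (ZMod p) W + d) :
    (HH P T).relIndex P ≤ p ^ d := by
  classical
  haveI : Finite (Additive M) := inferInstanceAs (Finite M)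
  haveI : Module.Finite (ZMod p) (Additive M) := Module.Finite.of_finite
  haveI : Finite (Module.End (ZMod p) (Additive M)) :=
    Finite.of_injective (fun f : Module.End (ZMod p) (Additive M) => (f : Additive M → Additive M))
      DFunLike.coe_injective
  set W1 : Submodule (ZMod p) (AA (M := M) p P) := W.submoduleOf (AA (M := M) p P) with hW1'
  have hfin : finrank (ZMod p) W1 = finrank (ZMod p) W :=
    (Submodule.submoduleOfEquivOfLe hW).finrank_eq
  have hq : finrank (ZMod p) (AA (M := M) p P ⧸ W1) ≤ d := by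
    have := Submodule.finrank_quotient_add_finrank W1
    omega
  have hcard : Nat.card (AA (M := M) p P ⧸ W1) ≤ p ^ d := by
    rw [Module.natCard_eq_pow_finrank (K := ZMod p), Nat.card_zmod]
    exact Nat.pow_le_pow_right (Nat.Prime.pos Fact.out) hq
  refine le_trans ?_ hcard
  let f : P ⧸ ((HH P T).subgroupOf P) → AA (M := M) p P ⧸ W1 := fun c =>
    Submodule.Quotient.mk ⟨dl p (Quotient.out c : P), dl_mem (Quotient.out c : P).2⟩
  have hf : Function.Injective f := by
    intro c c' h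
    have h1 := (Submodule.Quotient.eq W1).1 h
    set x : P := Quotient.out c with hx
    set y : P := Quotient.out c' with hy
    have h2 : dl (M := M) p (x : Q) - dl (M := M) p (y : Q) ∈ W := h1
    have h3 : y⁻¹ * x ∈ (HH P T).subgroupOf P := by
      rw [Subgroup.mem_subgroupOf, Subgroup.coe_mul, Subgroup.coe_inv]
      have h4 : ∀ v : Additive M, rho p ((y : Q)⁻¹ * x) v - v =
          rho p (y : Q)⁻¹ ((dl (M := M) p (x : Q) - dl (M := M) p (y : Q)) v) := by
        intro v
        rw [LinearMap.sub_apply, dl_apply, dl_apply, sub_sub_sub_cancel_right, map_sub, rho_inv,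
          ← rho_mul]
      refine ⟨P.mul_mem (P.inv_mem y.2) x.2, fun v => ?_, fun v hv => ?_⟩
      · rw [h4]
        exact T_inv hT _ (hW1 _ h2 v)
      · have h5 := h4 v
        rw [hW2 _ h2 v hv, map_zero, sub_eq_zero] at h5
        exact h5
    have h6 : (QuotientGroup.mk y : P ⧸ ((HH P T).subgroupOf P)) = QuotientGroup.mk x :=
      QuotientGroup.eq.2 h3
    have h7 : (QuotientGroup.mk y : P ⧸ ((HH P T).subgroupOf P)) = c' := Quotient.out_eq c'
    have h8 : (QuotientGroup.mk x : P ⧸ ((HH P T).subgroupOf P)) = c := Quotient.out_eq c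
    rw [← h7, ← h8, h6]
  haveI : Finite (AA (M := M) p P ⧸ W1) :=
    Finite.of_surjective _ (Submodule.mkQ_surjective W1)
  exact Nat.card_le_card_of_injective f hf

end rep

/-- the case of a trivial lower group -/
theorem key (hG : StG) (hH : StH2) (p : ℕ) [Fact p.Prime] (Q : Type) [Group Q] [Finite Q]
    (P M : Subgroup Q) (hP : P.Normal) (hM : M.Normal) (hpow : ∀ a ∈ M, a ^ p = 1)
    (hcomm : ∀ a ∈ M, ∀ b ∈ M, a * b = b * a)
    (hPM : ∀ x ∈ P, ∀ y ∈ P, ∀ a ∈ M, ⁅x, y⁆ * a = a * ⁅x, y⁆) :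
    ∃ H T : Subgroup Q, H.Normal ∧ T.Normal ∧ H ≤ P ∧ T ≤ M ∧
      (∀ x ∈ H, ∀ a ∈ M, x * a * x⁻¹ * a⁻¹ ∈ T) ∧ (∀ x ∈ H, ∀ t ∈ T, x * t * x⁻¹ * t⁻¹ = 1) ∧
      H.relIndex P ≤ Nat.card M ^ 10 ∧ ∀ x ∈ P, (∀ a ∈ M, x * a = a * x) → x ∈ H := by
  classical
  haveI : IsMulCommutative M := ⟨⟨fun a b => Subtype.ext (hcomm a a.2 b b.2)⟩⟩
  letI : Module (ZMod p) (Additive M) := AddCommGroup.zmodModule (n := p) (by
    intro v
    apply el_inj
    have h1 : el (p • v) = el v ^ p := rfl
    rw [h1, hpow _ (el_mem v)]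
    rfl)
  haveI : Finite (Additive M) := inferInstanceAs (Finite M)
  haveI : Module.Finite (ZMod p) (Additive M) := Module.Finite.of_finite
  haveI hfd : FiniteDimensional (ZMod p) (Additive M) := Module.Finite.of_finite
  have hG' := @hG (ZMod p) (ZMod.instField p) (Additive M) _ _ hfd (AA (M := M) p P) (AA_mul P)
    (AA_comm P hPM)
  obtain ⟨T₀, N₀, h1, h2, h3, h4⟩ := hG'
  obtain ⟨T, ⟨W, h5, h6, h7, h8⟩, h9⟩ := hH (ZMod p) (Additive M) (AA (M := M) p P)
    (2 * finrank (ZMod p) (Additive M)) T₀ N₀ h1 h2 h3 h4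
  have hT : ∀ g : Q, T.map (rho p g).toLinearMap = T := fun g =>
    h9 (rho p g) fun a => AA_conj_iff hP g a
  refine ⟨HH P T, sbg T, HH_normal hP hT, sbg_normal hT, fun x hx => hx.1, ?_, ?_, ?_, ?_, ?_⟩
  · rintro _ ⟨v, -, rfl⟩
    exact el_mem v
  · rintro x ⟨-, hx1, -⟩ a ha
    refine ⟨rho p x (Additive.ofMul ⟨a, ha⟩) - Additive.ofMul ⟨a, ha⟩, hx1 _, ?_⟩
    rw [el_sub, el_rho]
    rfl
  · rintro x ⟨-, -, hx2⟩ _ ⟨v, hv, rfl⟩
    rw [← el_rho (p := p), hx2 v hv, mul_inv_cancel]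
  · have h10 := index_le (P := P) hT W h5 h6 h7 (10 * finrank (ZMod p) (Additive M)) (by
      refine h8.trans (le_of_eq ?_)
      ring)
    refine h10.trans (le_of_eq ?_)
    have h11 : Nat.card M = p ^ finrank (ZMod p) (Additive M) := by
      have h12 : Nat.card (Additive M) = p ^ finrank (ZMod p) (Additive M) := by
        have h13 := @Module.natCard_eq_pow_finrank (ZMod p) (Additive M) _ _ _ hfd
        rwa [Nat.card_zmod] at h13
      exact h12
    rw [h11, ← pow_mul, mul_comm]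
  · intro x hx hxa
    have h12 : ∀ v : Additive M, rho p x v = v := by
      intro v
      apply el_inj
      rw [el_rho, hxa _ (el_mem v), mul_inv_cancel_right]
    exact ⟨hx, fun v => by rw [h12, sub_self]; exact T.zero_mem, fun v _ => h12 v⟩

end Pool.Agent.L0h35.Sv.ModI

namespace Pool.Agent.L0h35.Sv

open Pool.Agent.L0h35.Sv.ModI
open scoped commutatorElement

theorem stI_of (hG : StG) (hH : StH2) : StI := by
  intro p _ G _ _ P A B hP hA hB hBA hpow hAA hPA
  set q : G →* G ⧸ B := QuotientGroup.mk' B with hq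
  have hqs : Function.Surjective q := QuotientGroup.mk'_surjective B
  have hq1 : ∀ x : G, q x = 1 ↔ x ∈ B := fun x => by
    rw [hq, QuotientGroup.mk'_apply, QuotientGroup.eq_one_iff]
  have hPn : (P.map q).Normal := hP.map q hqs
  have hAn : (A.map q).Normal := hA.map q hqs
  have hcomm : ∀ a ∈ A.map q, ∀ b ∈ A.map q, a * b = b * a := by
    rintro _ ⟨a, ha, rfl⟩ _ ⟨b, hb, rfl⟩
    have h1 : q ⁅a, b⁆ = 1 := (hq1 _).2 (hAA (Subgroup.commutator_mem_commutator ha hb))
    rw [commutatorElement_def, map_mul, map_mul, map_mul, map_inv, map_inv, mul_inv_eq_one,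
      mul_inv_eq_iff_eq_mul] at h1
    exact h1
  have hPM : ∀ x ∈ P.map q, ∀ y ∈ P.map q, ∀ a ∈ A.map q, ⁅x, y⁆ * a = a * ⁅x, y⁆ := by
    rintro _ ⟨x, hx, rfl⟩ _ ⟨y, hy, rfl⟩ _ ⟨a, ha, rfl⟩
    rw [← map_commutatorElement]
    have h1 : q ⁅⁅x, y⁆, a⁆ = 1 := (hq1 _).2 (hPA (Subgroup.commutator_mem_commutator
      (Subgroup.commutator_mem_commutator hx hy) ha))
    rw [commutatorElement_def ⁅x, y⁆ a, map_mul, map_mul, map_mul, map_inv, map_inv,
      mul_inv_eq_one, mul_inv_eq_iff_eq_mul] at h1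
    exact h1
  obtain ⟨H, T, h1, h2, h3, h4, h5, h6, h7, h8⟩ := key hG hH p (G ⧸ B) (P.map q) (A.map q) hPn hAn
    (by
      rintro _ ⟨a, ha, rfl⟩
      rw [← map_pow]
      exact (hq1 _).2 (hpow a ha)) hcomm hPM
  have hTc : (T.comap q) ≤ A := by
    intro t ht
    obtain ⟨a, ha, hat⟩ := h4 (Subgroup.mem_comap.1 ht)
    have h9 : q (a⁻¹ * t) = 1 := by rw [map_mul, map_inv, hat, inv_mul_cancel]
    have h10 := hBA ((hq1 _).1 h9)
    have h11 := A.mul_mem ha h10
    rwa [mul_inv_cancel_left] at h11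
  haveI := h1
  haveI := h2
  haveI := hP
  refine ⟨P ⊓ H.comap q, T.comap q, inferInstance, inferInstance, inf_le_left, ?_, hTc, ?_, ?_, ?_,
    ?_⟩
  · intro b hb
    rw [Subgroup.mem_comap, (hq1 b).2 hb]
    exact T.one_mem
  · rw [Subgroup.commutator_le]
    rintro x ⟨-, hx⟩ a ha
    rw [Subgroup.mem_comap, commutatorElement_def, map_mul, map_mul, map_mul, map_inv, map_inv]
    exact h5 _ (Subgroup.mem_comap.1 hx) _ ⟨a, ha, rfl⟩
  · rw [Subgroup.commutator_le]
    rintro x ⟨-, hx⟩ t ht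
    rw [← hq1, commutatorElement_def, map_mul, map_mul, map_mul, map_inv, map_inv]
    exact h6 _ (Subgroup.mem_comap.1 hx) _ (Subgroup.mem_comap.1 ht)
  · -- the orders
    have h9 : (P ⊓ H.comap q).relIndex P = H.relIndex (P.map q) := by
      rw [Subgroup.inf_relIndex_left, Subgroup.relIndex_comap]
    have h10 : Nat.card (P ⊓ H.comap q : Subgroup G) * (P ⊓ H.comap q).relIndex P = Nat.card P := by
      have := Subgroup.card_mul_index ((P ⊓ H.comap q).subgroupOf P)
      rw [Nat.card_congr (Subgroup.subgroupOfEquivOfLe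
        (inf_le_left : P ⊓ H.comap q ≤ P)).toEquiv] at this
      exact this
    have h11 : Nat.card A = Nat.card (A.map q) * Nat.card B := by
      set f : A →* G ⧸ B := q.comp A.subtype with hf
      have e1 : f.range = A.map q := by
        rw [hf, MonoidHom.range_comp, Subgroup.range_subtype]
      have e2 : f.ker = B.subgroupOf A := by
        ext x
        rw [MonoidHom.mem_ker, Subgroup.mem_subgroupOf, hf, MonoidHom.comp_apply]
        exact hq1 _
      have e3 := Subgroup.card_mul_index f.ker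
      rw [Subgroup.index_ker, e1, e2,
        Nat.card_congr (Subgroup.subgroupOfEquivOfLe hBA).toEquiv] at e3
      rw [← e3, mul_comm]
    rw [h9] at h10
    calc Nat.card P * Nat.card B ^ 10
        = Nat.card (P ⊓ H.comap q : Subgroup G) * H.relIndex (P.map q) * Nat.card B ^ 10 := by
          rw [h10]
      _ ≤ Nat.card (P ⊓ H.comap q : Subgroup G) * Nat.card (A.map q) ^ 10 * Nat.card B ^ 10 := by
          gcongr
      _ = Nat.card (P ⊓ H.comap q : Subgroup G) * Nat.card A ^ 10 := by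
          rw [h11, mul_pow]; ring
  · intro x hx hxa
    refine ⟨hx, ?_⟩
    refine h8 _ ⟨x, hx, rfl⟩ ?_
    rintro _ ⟨a, ha, rfl⟩
    have h12 := (hq1 _).2 (hxa a ha)
    rw [map_mul, map_mul, map_mul, map_inv, map_inv, mul_inv_eq_one, mul_inv_eq_iff_eq_mul] at h12
    exact h12

end Pool.Agent.L0h35.Sv
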