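import Pool.Agent.L0h35.SvDefs3
import Pool.Agent.L0h35.SvI

set_option autoImplicit false

/-!
# From modules to elementary abelian sections
-/

namespace Pool.Agent.L0h35.Sv.ModI

open Module
open scoped commutatorElement IsMulCommutative

section

variable {p : ℕ} {Q : Type} [Group Q] {M : Subgroup Q} [M.Normal]
  [IsMulCommutative M] [Module (ZMod p) (Additive M)]

/-- the action of a group `P` mapping to `Q` -/
noncomputable def act (p : ℕ) [Module (ZMod p) (Additive M)] {P : Type} [Group P] (f : P →* Q) :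
    P →* Module.End (ZMod p) (Additive M) where
  toFun g := (rho p (f g)).toLinearMap
  map_one' := by
    refine LinearMap.ext fun v => ?_
    show rho p (f 1) v = v
    rw [map_one, rho_one]
  map_mul' g h := by
    refine LinearMap.ext fun v => ?_
    show rho p (f (g * h)) v = rho p (f g) (rho p (f h) v)
    rw [map_mul, rho_mul]

lemma act_apply {P : Type} [Group P] (f : P →* Q) (g : P) (v : Additive M) :
    act p f g v = rho p (f g) v := rfl

lemma sbg_mono {T T' : Submodule (ZMod p) (Additive M)} (h : T ≤ T') : sbg T ≤ sbg T' := by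
  rintro _ ⟨v, hv, rfl⟩
  exact ⟨v, h hv, rfl⟩

lemma sbg_top : sbg (⊤ : Submodule (ZMod p) (Additive M)) = M := by
  apply le_antisymm
  · rintro _ ⟨v, -, rfl⟩
    exact el_mem v
  · intro a ha
    exact ⟨Additive.ofMul ⟨a, ha⟩, trivial, rfl⟩

lemma sbg_bot : sbg (⊥ : Submodule (ZMod p) (Additive M)) = ⊥ := by
  rw [eq_bot_iff]
  rintro _ ⟨v, hv, rfl⟩
  rw [(Submodule.mem_bot _).1 hv, el_zero]
  exact Subgroup.mem_bot.2 rfl

end

end Pool.Agent.L0h35.Sv.ModI

namespace Pool.Agent.L0h35.Sv

open Module Pool.Agent.L0h35.Sv.ModI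
open scoped commutatorElement IsMulCommutative

theorem stSec : StSec := by
  classical
  intro q C r hK p _ G _ _ A B hA hB hBA hpow hAA hAq
  set π : G →* G ⧸ B := QuotientGroup.mk' B with hπ
  have hπs : Function.Surjective π := QuotientGroup.mk'_surjective B
  have hπ1 : ∀ x : G, π x = 1 ↔ x ∈ B := fun x => by
    rw [hπ, QuotientGroup.mk'_apply, QuotientGroup.eq_one_iff]
  set M : Subgroup (G ⧸ B) := A.map π with hM
  haveI hMn : M.Normal := hA.map π hπs
  have hcomm : ∀ a ∈ M, ∀ b ∈ M, a * b = b * a := by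
    rintro _ ⟨a, ha, rfl⟩ _ ⟨b, hb, rfl⟩
    have h1 : π ⁅a, b⁆ = 1 := (hπ1 _).2 (hAA (Subgroup.commutator_mem_commutator ha hb))
    rw [commutatorElement_def, map_mul, map_mul, map_mul, map_inv, map_inv, mul_inv_eq_one,
      mul_inv_eq_iff_eq_mul] at h1
    exact h1
  haveI : IsMulCommutative M := ⟨⟨fun a b => Subtype.ext (hcomm a a.2 b b.2)⟩⟩
  letI : Module (ZMod p) (Additive M) := AddCommGroup.zmodModule (n := p) (by
    intro v
    apply el_inj
    have h1 : el (p • v) = el v ^ p := rfl
    rw [h1]
    obtain ⟨a, ha, hav⟩ := el_mem v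
    rw [← hav, ← map_pow]
    exact (hπ1 _).2 (hpow a ha))
  haveI : Finite (Additive M) := inferInstanceAs (Finite M)
  have hfd : Module.Finite (ZMod p) (Additive M) := Module.Finite.of_finite
  obtain ⟨H, T, hT0, hTr, hTd, hTH, hidx⟩ := hK p (Additive M) G (act p π) (by
    intro g hg
    refine LinearMap.ext fun v => ?_
    show rho p (π g) v = v
    apply el_inj
    rw [el_rho]
    obtain ⟨a, ha, hav⟩ := el_mem v
    rw [← hav]
    have h1 : π ⁅a, g⁆ = 1 := (hπ1 _).2 (hAq (Subgroup.commutator_mem_commutator ha hg))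
    rw [commutatorElement_def, map_mul, map_mul, map_mul, map_inv, map_inv, mul_inv_eq_one,
      mul_inv_eq_iff_eq_mul] at h1
    rw [← h1, mul_inv_cancel_right])
  refine ⟨H, fun i => (sbg (T i)).comap π, ?_, ?_, ?_, ?_, ?_⟩
  · show (sbg (T 0)).comap π = A
    rw [hT0, sbg_top, hM, Subgroup.comap_map_eq, hπ, QuotientGroup.ker_mk']
    exact sup_eq_left.2 hBA
  · show (sbg (T r)).comap π = B
    rw [hTr, sbg_bot]
    ext x
    rw [Subgroup.mem_comap, Subgroup.mem_bot, hπ1]
  · intro i
    exact Subgroup.comap_mono (sbg_mono (hTd i))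
  · intro i hi
    rw [Subgroup.commutator_le]
    rintro a ⟨v, hv, hav⟩ h hh
    refine ⟨-(act p π h v - v), (T (i + 1)).neg_mem (hTH i hi h hh v hv), ?_⟩
    have hav' : el v = π a := hav
    rw [el_neg, el_sub, act_apply, el_rho, hav', commutatorElement_def, map_mul, map_mul, map_mul,
      map_inv, map_inv]
    group
  · have h10 : Nat.card H * H.index = Nat.card G := Subgroup.card_mul_index H
    have h11 : Nat.card A = Nat.card M * Nat.card B := by
      set f : A →* G ⧸ B := π.comp A.subtype with hf
      have e1 : f.range = A.map π := by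
        rw [hf, MonoidHom.range_comp, Subgroup.range_subtype]
      have e2 : f.ker = B.subgroupOf A := by
        ext x
        rw [MonoidHom.mem_ker, Subgroup.mem_subgroupOf, hf, MonoidHom.comp_apply]
        exact hπ1 _
      have e3 := Subgroup.card_mul_index f.ker
      rw [Subgroup.index_ker, e1, e2,
        Nat.card_congr (Subgroup.subgroupOfEquivOfLe hBA).toEquiv] at e3
      rw [← e3, mul_comm]
    have h12 : Nat.card M = p ^ finrank (ZMod p) (Additive M) := by
      have h13 := @Module.natCard_eq_pow_finrank (ZMod p) (Additive M) _ _ _ hfd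
      rwa [Nat.card_zmod] at h13
    calc Nat.card G * Nat.card B ^ C
        = Nat.card H * H.index * Nat.card B ^ C := by rw [h10]
      _ ≤ Nat.card H * p ^ (C * finrank (ZMod p) (Additive M)) * Nat.card B ^ C := by
          gcongr
      _ = Nat.card H * Nat.card A ^ C := by
          rw [h11, mul_pow, h12, ← pow_mul, mul_comm C]
          ring

end Pool.Agent.L0h35.Sv
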