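import Pool.Agent.L0h35.SvDefs

/-!
# Module K: a chain in a normal `p`-subgroup of bounded class and exponent (helper71)
-/

set_option autoImplicit false

namespace Pool.Agent.L0h35.Sv

open Finset Module

namespace K

open scoped commutatorElement

variable {G : Type} [Group G]

/-- the elements that are congruent to an `n`-th power of an element of `A` modulo `N` -/
def W (A N : Subgroup G) [N.Normal] (hA : ⁅A, A⁆ ≤ N) (n : ℕ) : Subgroup G where
  carrier := {u | ∃ x ∈ A, (u : G ⧸ N) = (x : G ⧸ N) ^ n}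
  one_mem' := ⟨1, A.one_mem, by simp⟩
  mul_mem' := by
    rintro a b ⟨x, hx, hxa⟩ ⟨y, hy, hyb⟩
    refine ⟨x * y, A.mul_mem hx hy, ?_⟩
    have hc : Commute (x : G ⧸ N) (y : G ⧸ N) := by
      have h1 : ⁅x, y⁆ ∈ N := hA (Subgroup.commutator_mem_commutator hx hy)
      have h2 : ((⁅x, y⁆ : G) : G ⧸ N) = 1 := (QuotientGroup.eq_one_iff _).mpr h1
      rw [← commutatorElement_eq_one_iff_commute]
      exact h2
    rw [QuotientGroup.mk_mul, QuotientGroup.mk_mul, hc.mul_pow, hxa, hyb]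
  inv_mem' := by
    rintro a ⟨x, hx, hxa⟩
    refine ⟨x⁻¹, A.inv_mem hx, ?_⟩
    rw [QuotientGroup.mk_inv, QuotientGroup.mk_inv, hxa, inv_pow]

lemma mem_W {A N : Subgroup G} [N.Normal] {hA : ⁅A, A⁆ ≤ N} {n : ℕ} {u : G} :
    u ∈ W A N hA n ↔ ∃ x ∈ A, (u : G ⧸ N) = (x : G ⧸ N) ^ n := Iff.rfl

lemma W_normal {A N : Subgroup G} [N.Normal] {hA : ⁅A, A⁆ ≤ N} {n : ℕ} (h : A.Normal) :
    (W A N hA n).Normal := by
  constructor
  intro u hu g
  rw [mem_W] at hu ⊢
  obtain ⟨x, hx, hxu⟩ := hu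
  refine ⟨g * x * g⁻¹, h.conj_mem x hx g, ?_⟩
  rw [QuotientGroup.mk_mul, QuotientGroup.mk_mul, hxu, QuotientGroup.mk_mul, QuotientGroup.mk_mul,
    QuotientGroup.mk_inv, conj_pow]

lemma N_le {A N : Subgroup G} [N.Normal] {hA : ⁅A, A⁆ ≤ N} {n : ℕ} : N ≤ W A N hA n := by
  intro u hu
  rw [mem_W]
  exact ⟨1, A.one_mem, by rw [(QuotientGroup.eq_one_iff u).mpr hu]; simp⟩

lemma le_A {A N : Subgroup G} [N.Normal] {hA : ⁅A, A⁆ ≤ N} {n : ℕ} (hNA : N ≤ A) :
    W A N hA n ≤ A := by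
  intro u hu
  rw [mem_W] at hu
  obtain ⟨x, hx, hxu⟩ := hu
  have h1 : u⁻¹ * x ^ n ∈ N := by
    rw [← QuotientGroup.eq, hxu]
    rfl
  have h2 : u = x ^ n * (u⁻¹ * x ^ n)⁻¹ := by group
  rw [h2]
  exact A.mul_mem (A.pow_mem hx n) (A.inv_mem (hNA h1))

lemma W_one {A N : Subgroup G} [N.Normal] {hA : ⁅A, A⁆ ≤ N} (hNA : N ≤ A) :
    W A N hA 1 = A := by
  refine le_antisymm (le_A hNA) fun u hu => ?_
  rw [mem_W]
  exact ⟨u, hu, by rw [pow_one]⟩

lemma W_top {A N : Subgroup G} [N.Normal] {hA : ⁅A, A⁆ ≤ N} {n : ℕ} (h : ∀ x ∈ A, x ^ n = 1) :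
    W A N hA n = N := by
  refine le_antisymm (fun u hu => ?_) N_le
  rw [mem_W] at hu
  obtain ⟨x, hx, hxu⟩ := hu
  rw [← QuotientGroup.mk_pow, h x hx, QuotientGroup.mk_one] at hxu
  exact (QuotientGroup.eq_one_iff u).mp hxu

lemma W_mul {A N : Subgroup G} [N.Normal] {hA : ⁅A, A⁆ ≤ N} {n p : ℕ} :
    W A N hA (n * p) ≤ W A N hA n := by
  intro u hu
  rw [mem_W] at hu ⊢
  obtain ⟨x, hx, hxu⟩ := hu
  refine ⟨x ^ p, A.pow_mem hx p, ?_⟩
  rw [hxu, QuotientGroup.mk_pow, ← pow_mul, mul_comm]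

lemma W_pow {A N : Subgroup G} [N.Normal] {hA : ⁅A, A⁆ ≤ N} {n p : ℕ} {u : G}
    (hu : u ∈ W A N hA n) : u ^ p ∈ W A N hA (n * p) := by
  rw [mem_W] at hu ⊢
  obtain ⟨x, hx, hxu⟩ := hu
  refine ⟨x, hx, ?_⟩
  rw [QuotientGroup.mk_pow, hxu, ← pow_mul]

lemma lcs_normal {V : Subgroup G} (hV : V.Normal) (j : ℕ) : (lcs V j).Normal := by
  induction j with
  | zero => exact hV
  | succ j ih =>
    show (⁅lcs V j, V⁆).Normal
    infer_instance

lemma lcs_le_V {V : Subgroup G} (hV : V.Normal) (j : ℕ) : lcs V j ≤ V := by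
  induction j with
  | zero => exact le_rfl
  | succ j ih =>
    show ⁅lcs V j, V⁆ ≤ V
    exact Subgroup.commutator_le_right _ _

lemma lcs_succ_le {V : Subgroup G} (hV : V.Normal) (j : ℕ) : lcs V (j + 1) ≤ lcs V j := by
  show ⁅lcs V j, V⁆ ≤ lcs V j
  have := lcs_normal hV j
  exact Subgroup.commutator_le_left _ _

lemma lcs_comm {V : Subgroup G} (hV : V.Normal) (j : ℕ) : ⁅lcs V j, lcs V j⁆ ≤ lcs V (j + 1) :=
  Subgroup.commutator_mono le_rfl (lcs_le_V hV j)

end K

open K in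
/-- **K** -/
theorem stK : StK := by
  intro p _ G _ _ V k c hV hpow hc
  rcases Nat.eq_zero_or_pos k with hk | hk
  · subst hk
    have hV0 : V = ⊥ := by
      rw [Subgroup.eq_bot_iff_forall]
      intro v hv
      have := hpow v hv
      simpa using this
    subst hV0
    refine ⟨fun _ => ⊥, rfl, rfl, fun _ => inferInstance, fun _ => le_rfl, fun _ u hu => ?_,
      fun _ => ?_⟩
    · rw [Subgroup.mem_bot] at hu ⊢
      rw [hu, one_pow]
    · simp
  · have hn : ∀ j, (lcs V j).Normal := lcs_normal hV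
    have hp1 : ∀ j, ∀ x ∈ lcs V j, x ^ p ^ k = 1 := fun j x hx => hpow x (lcs_le_V hV j hx)
    set U : ℕ → Subgroup G := fun t =>
      @W G _ (lcs V (t / k)) (lcs V (t / k + 1)) (hn _) (lcs_comm hV _) (p ^ (t % k)) with hU
    have hU0 : ∀ j, U (j * k) = lcs V j := by
      intro j
      have h1 : j * k / k = j := Nat.mul_div_cancel j hk
      have h2 : j * k % k = 0 := Nat.mul_mod_left j k
      rw [hU]
      simp only []
      have h3 : ∀ (a b : ℕ), a = j → b = 0 → @W G _ (lcs V a) (lcs V (a + 1)) (hn _)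
          (lcs_comm hV _) (p ^ b) = lcs V j := by
        rintro a b rfl rfl
        have := hn (a + 1)
        rw [pow_zero]
        exact W_one (lcs_succ_le hV a)
      exact h3 _ _ h1 h2
    have hU1 : ∀ t, U (t + 1) =
        @W G _ (lcs V (t / k)) (lcs V (t / k + 1)) (hn _) (lcs_comm hV _) (p ^ (t % k) * p) := by
      intro t
      rw [← pow_succ]
      have hlt := Nat.mod_lt t hk
      have hdm := Nat.div_add_mod t k
      by_cases h : t % k + 1 < k
      · have h1 : (t + 1) / k = t / k := by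
          rw [← hdm, add_assoc, Nat.mul_add_div hk, Nat.mul_add_div hk, Nat.div_eq_of_lt h,
            Nat.div_eq_of_lt hlt]
        have h2 : (t + 1) % k = t % k + 1 := by
          conv_lhs => rw [← hdm, add_assoc, Nat.mul_add_mod, Nat.mod_eq_of_lt h]
        rw [hU]
        simp only []
        have h3 : ∀ (a b : ℕ), a = t / k → b = t % k + 1 → @W G _ (lcs V a) (lcs V (a + 1)) (hn _)
          (lcs_comm hV _) (p ^ b) = @W G _ (lcs V (t / k)) (lcs V (t / k + 1)) (hn _)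
            (lcs_comm hV _) (p ^ (t % k + 1)) := by
          rintro a b rfl rfl
          rfl
        exact h3 _ _ h1 h2
      · have h1 : t % k + 1 = k := by omega
        have h2 : t + 1 = (t / k + 1) * k := by
          rw [add_mul, one_mul, mul_comm]
          omega
        rw [h2, hU0, h1]
        have := hn (t / k + 1)
        exact (W_top (hp1 (t / k))).symm
    refine ⟨U, ?_, ?_, fun t => ?_, fun t => ?_, fun t u hu => ?_, fun t => ?_⟩
    · have := hU0 0
      rw [zero_mul] at this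
      exact this
    · rw [hU0, hc]
    · have := hn (t / k + 1)
      exact W_normal (hn _)
    · rw [hU1]
      have := hn (t / k + 1)
      exact W_mul
    · rw [hU1]
      have := hn (t / k + 1)
      exact W_pow hu
    · rw [hU1]
      have := hn (t / k + 1)
      have h1 : U t ≤ lcs V (t / k) := le_A (lcs_succ_le hV _)
      exact (Subgroup.commutator_mono h1 le_rfl).trans N_le

end Pool.Agent.L0h35.Sv
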