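import Pool.Agent.L0h35.SvDefs3
import Pool.Agent.L0h35.SvK

/-!
# Module 3SEL: selection of a section (helper71)
-/

set_option autoImplicit false

namespace Pool.Agent.L0h35.Sv

open Finset Module

namespace Sel

open K
open scoped commutatorElement

/-- refinement of a descending series with abelian factors -/
lemma refine {G : Type} [Group G] (p k : ℕ) (hk : 0 < k) (hp : ∀ x : G, x ^ p ^ k = 1)
    (Y : ℕ → Subgroup G) (hn : ∀ j, (Y j).Normal) (hY : ∀ j, ⁅Y j, Y j⁆ ≤ Y (j + 1))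
    (hle : ∀ j, Y (j + 1) ≤ Y j) : ∃ Z : ℕ → Subgroup G, (∀ j, Z (j * k) = Y j) ∧
      (∀ t, (Z t).Normal) ∧ (∀ t, Z (t + 1) ≤ Z t) ∧ (∀ t, ∀ u ∈ Z t, u ^ p ∈ Z (t + 1)) ∧
      (∀ t, Z t ≤ Y (t / k)) ∧ ∀ t, Y (t / k + 1) ≤ Z (t + 1) := by
  set U : ℕ → Subgroup G := fun t => @W G _ (Y (t / k)) (Y (t / k + 1)) (hn _) (hY _) (p ^ (t % k))
    with hU
  have hU0 : ∀ j, U (j * k) = Y j := by
    intro j
    have h1 : j * k / k = j := Nat.mul_div_cancel j hk
    have h2 : j * k % k = 0 := Nat.mul_mod_left j k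
    rw [hU]
    simp only []
    have h3 : ∀ (a b : ℕ), a = j → b = 0 → @W G _ (Y a) (Y (a + 1)) (hn _)
        (hY _) (p ^ b) = Y j := by
      rintro a b rfl rfl
      have := hn (a + 1)
      rw [pow_zero]
      exact W_one (hle a)
    exact h3 _ _ h1 h2
  have hU1 : ∀ t, U (t + 1) =
      @W G _ (Y (t / k)) (Y (t / k + 1)) (hn _) (hY _) (p ^ (t % k) * p) := by
    intro t
    rw [← pow_succ]
    have hlt := Nat.mod_lt t hk
    have hdm := Nat.div_add_mod t k
    by_cases h : t % k + 1 < k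
    · have h1 : (t + 1) / k = t / k := by
        rw [← hdm, add_assoc, Nat.mul_add_div hk, Nat.mul_add_div hk, Nat.div_eq_of_lt h,
          Nat.div_eq_of_lt hlt]
      have h2 : (t + 1) % k = t % k + 1 := by
        conv_lhs => rw [← hdm, add_assoc, Nat.mul_add_mod, Nat.mod_eq_of_lt h]
      rw [hU]
      simp only []
      have h3 : ∀ (a b : ℕ), a = t / k → b = t % k + 1 → @W G _ (Y a) (Y (a + 1)) (hn _)
        (hY _) (p ^ b) = @W G _ (Y (t / k)) (Y (t / k + 1)) (hn _)
          (hY _) (p ^ (t % k + 1)) := by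
        rintro a b rfl rfl
        rfl
      exact h3 _ _ h1 h2
    · have h1 : t % k + 1 = k := by omega
      have h2 : t + 1 = (t / k + 1) * k := by
        rw [add_mul, one_mul, mul_comm]
        omega
      rw [h2, hU0, h1]
      have := hn (t / k + 1)
      exact (W_top fun x _ => hp x).symm
  refine ⟨U, hU0, fun t => ?_, fun t => ?_, fun t u hu => ?_, fun t => ?_, fun t => ?_⟩
  · have := hn (t / k + 1)
    exact W_normal (hn _)
  · rw [hU1]
    have := hn (t / k + 1)
    exact W_mul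
  · rw [hU1]
    have := hn (t / k + 1)
    exact W_pow hu
  · have := hn (t / k + 1)
    exact le_A (hle _)
  · rw [hU1]
    have := hn (t / k + 1)
    exact N_le

lemma lcs_map {H G : Type} [Group H] [Group G] (φ : H →* G) (q : ℕ) :
    (lcs (⊤ : Subgroup H) q).map φ ≤ lcs (⊤ : Subgroup G) q := by
  induction q with
  | zero => exact le_top
  | succ q ih =>
    show (⁅lcs (⊤ : Subgroup H) q, (⊤ : Subgroup H)⁆).map φ ≤ ⁅lcs (⊤ : Subgroup G) q, ⊤⁆
    rw [Subgroup.map_commutator]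
    exact Subgroup.commutator_mono ih le_top

/-- the series through `lcs ⊤ q` and its lower central series -/
noncomputable def YY (G : Type) [Group G] (q j : ℕ) : Subgroup G :=
  if j < q then lcs ⊤ j else lcs (lcs ⊤ q) (j - q)

variable {G : Type} [Group G]

lemma YY_lt {q j : ℕ} (h : j < q) : YY G q j = lcs ⊤ j := if_pos h

lemma YY_ge {q j : ℕ} (h : q ≤ j) : YY G q j = lcs (lcs ⊤ q) (j - q) := if_neg (not_lt.2 h)

lemma YY_le {q j : ℕ} (h : j ≤ q) : YY G q j = lcs ⊤ j := by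
  rcases lt_or_eq_of_le h with h | rfl
  · exact YY_lt h
  · rw [YY_ge le_rfl, Nat.sub_self]
    rfl

lemma V_normal (q : ℕ) : (lcs (⊤ : Subgroup G) q).Normal := lcs_normal inferInstance q

lemma YY_normal (q j : ℕ) : (YY G q j).Normal := by
  unfold YY
  split_ifs
  · exact V_normal j
  · exact lcs_normal (V_normal q) _

lemma YY_comm_V (q j : ℕ) : ⁅YY G q j, lcs (⊤ : Subgroup G) q⁆ ≤ YY G q (j + 1) := by
  rcases lt_or_ge j q with h | h
  · rw [YY_lt h, YY_le h]
    exact Subgroup.commutator_mono le_rfl le_top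
  · rw [YY_ge h, YY_ge (by omega), Nat.sub_add_comm h]
    exact le_rfl

lemma YY_comm (q j : ℕ) : ⁅YY G q j, YY G q j⁆ ≤ YY G q (j + 1) := by
  rcases lt_or_ge j q with h | h
  · rw [YY_lt h, YY_le h]
    exact Subgroup.commutator_mono le_rfl le_top
  · rw [YY_ge h, YY_ge (by omega), Nat.sub_add_comm h]
    exact lcs_comm (V_normal q) _

lemma YY_succ_le (q j : ℕ) : YY G q (j + 1) ≤ YY G q j := by
  rcases lt_or_ge j q with h | h
  · rw [YY_lt h, YY_le h]
    exact lcs_succ_le inferInstance j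
  · rw [YY_ge h, YY_ge (by omega), Nat.sub_add_comm h]
    exact lcs_succ_le (V_normal q) _

lemma YY_zero (q : ℕ) : YY G q 0 = ⊤ := YY_le (Nat.zero_le q)

lemma YY_end {q c : ℕ} (h : lcs (lcs (⊤ : Subgroup G) q) c = ⊥) : YY G q (q + c) = ⊥ := by
  rw [YY_ge (by omega), Nat.add_sub_cancel_left, h]

/-- one series with all the properties -/
lemma series (p k q c : ℕ) (hk : 0 < k) (hp : ∀ x : G, x ^ p ^ k = 1)
    (hc : lcs (lcs (⊤ : Subgroup G) q) c = ⊥) : ∃ X : ℕ → Subgroup G, X 0 = ⊤ ∧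
      X ((q + c) * k) = ⊥ ∧ (∀ t, (X t).Normal) ∧ (∀ t, X (t + 1) ≤ X t) ∧
      (∀ t, ∀ u ∈ X t, u ^ p ∈ X (t + 1)) ∧ (∀ t, ⁅X t, X t⁆ ≤ X (t + 1)) ∧
      ∀ t, ⁅X t, lcs (⊤ : Subgroup G) q⁆ ≤ X (t + 1) := by
  obtain ⟨Z, h1, h2, h3, h4, h5, h6⟩ := refine p k hk hp (YY G q) (YY_normal q) (YY_comm q)
    (YY_succ_le q)
  refine ⟨Z, ?_, ?_, h2, h3, h4, fun t => ?_, fun t => ?_⟩
  · have := h1 0
    rw [zero_mul, YY_zero] at this
    exact this
  · rw [h1, YY_end hc]
  · exact ((Subgroup.commutator_mono (h5 t) (h5 t)).trans (YY_comm q _)).trans (h6 t)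
  · exact ((Subgroup.commutator_mono (h5 t) le_rfl).trans (YY_comm_V q _)).trans (h6 t)

/-- the selection of an index -/
lemma select (B N M : ℕ) (s : ℕ → ℕ) (h0 : s 0 = N) (hM : s M = 0) (hN : 0 < N) :
    ∃ i < M, B * s (i + 1) + s (i + 1) ≤ s i ∧ N ≤ (B + 1) ^ i * s i := by
  by_contra hcon
  push Not at hcon
  have key : ∀ i ≤ M, N ≤ (B + 1) ^ i * s i := by
    intro i
    induction i with
    | zero => intro _; rw [h0]; simp
    | succ i ih =>
      intro hi
      have h1 := ih (by omega)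
      by_contra h2
      have h3 : B * s (i + 1) + s (i + 1) ≤ s i → s i * (B + 1) ^ i < N := by
        intro h
        have := hcon i (by omega) h
        rwa [mul_comm] at this
      have h4 : ¬ (B * s (i + 1) + s (i + 1) ≤ s i) := by
        intro h
        have := h3 h
        rw [mul_comm] at this
        omega
      apply h2
      calc N ≤ (B + 1) ^ i * s i := h1
        _ ≤ (B + 1) ^ i * (B * s (i + 1) + s (i + 1)) := Nat.mul_le_mul_left _ (by omega)
        _ = (B + 1) ^ (i + 1) * s (i + 1) := by ring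
  have := key M le_rfl
  rw [hM, mul_zero] at this
  omega

lemma good_mono {H : Type} [Group H] [Fintype H] {ρ ρ' : ℝ} (h : ρ ≤ ρ')
    (hG : N726.BG.Good H ρ) : N726.BG.Good H ρ' := by
  obtain ⟨F, iF, J, hJ, hd⟩ := hG
  exact ⟨F, iF, J, hJ, hd.trans (mul_le_mul_of_nonneg_right h (Nat.cast_nonneg _))⟩

lemma goodIn_mono {G : Type} [Group G] {ρ ρ' : ℝ} (h0 : 0 ≤ ρ) (h : ρ ≤ ρ')
    (hG : GoodIn G ρ) : GoodIn G ρ' := by
  obtain ⟨H, i1, i2, φ, hφ, hg⟩ := hG
  exact ⟨H, i1, i2, φ, hφ, fun N => good_mono (pow_le_pow_left₀ h0 h _) (hg N)⟩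

lemma goodIn_sub {G : Type} [Group G] {P : Subgroup G} {ρ : ℝ} (hG : GoodIn P ρ) :
    GoodIn G ρ := by
  obtain ⟨H, i1, i2, φ, hφ, hg⟩ := hG
  exact ⟨H, i1, i2, P.subtype.comp φ, (Subtype.val_injective).comp hφ, hg⟩

lemma goodIn_one (G : Type) [Group G] : GoodIn G 1 := by
  refine ⟨Unit, inferInstance, inferInstance, 1, fun _ _ _ => rfl, fun N => ?_⟩
  refine ⟨ℚ, inferInstance, ⊥, ⟨?_, ?_⟩, ?_⟩
  · intro u hu g
    rw [Submodule.mem_bot] at hu ⊢
    subst hu
    rfl
  · intro u hu v hv w hw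
    rw [Submodule.mem_bot] at hu
    subst hu
    simp
  · simp

end Sel

open Sel in
/-- **3SEL** -/
theorem stSel_of (hJ : StJJ) : StSel := by
  intro q C r hK e c he
  set M' : ℕ := (q + c) * e with hM'
  set B : ℕ := 100 * (C + 1) * (2 * e) ^ (r * M' + 1) with hB
  have heR : (0 : ℝ) < e := Nat.cast_pos.2 he
  have hlog : 0 < Real.log (e + 1) := Real.log_pos (by linarith)
  refine ⟨1 / (100 * ((B : ℝ) + 1) ^ M' * Real.log (e + 1)), by positivity, ?_⟩
  intro p hpF S _ _ hS hx hc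
  have hp := hpF.out
  obtain ⟨N, hN⟩ := hS.exists_card_eq
  rcases Nat.eq_zero_or_pos N with hN0 | hN0
  · subst hN0
    rw [hN, pow_zero, Nat.cast_one, Real.one_rpow]
    exact goodIn_one S
  have hpd : p ∣ Nat.card S := by rw [hN]; exact dvd_pow_self p hN0.ne'
  obtain ⟨x, hxo⟩ := exists_prime_orderOf_dvd_card' p hpd
  have hpe : p ∣ e := by rw [← hxo]; exact orderOf_dvd_of_pow_eq_one (hx x)
  have hple : p ≤ e := Nat.le_of_dvd he hpe
  set k := e.factorization p with hk
  have hk0 : 0 < k := hp.factorization_pos_of_dvd he.ne' hpe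
  have hke : k ≤ e :=
    ((Nat.lt_pow_self hp.one_lt).trans_le (Nat.le_of_dvd he (Nat.ordProj_dvd e p))).le
  have hxk : ∀ y : S, y ^ p ^ k = 1 := by
    intro y
    obtain ⟨j, hj⟩ := (IsPGroup.iff_orderOf.1 hS) y
    have h3 : p ^ j ∣ e := hj ▸ orderOf_dvd_of_pow_eq_one (hx y)
    have h4 : j ≤ k := (hp.pow_dvd_iff_le_factorization he.ne').1 h3
    exact orderOf_dvd_iff_pow_eq_one.1 (hj ▸ pow_dvd_pow p h4)
  obtain ⟨X, hX0, hXM, hXn, hXle, hXp, hXc, hXV⟩ := series p k q c hk0 hxk hc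
  set M := (q + c) * k with hM
  have hMM : M ≤ M' := Nat.mul_le_mul_left _ hke
  have hs : ∀ i, ∃ s, Nat.card (X i) = p ^ s := fun i => (hS.to_subgroup (X i)).exists_card_eq
  choose s hs using hs
  have hanti : ∀ i, s (i + 1) ≤ s i := by
    intro i
    have h5 : Nat.card (X (i + 1)) ≤ Nat.card (X i) :=
      Nat.card_le_card_of_injective (Subgroup.inclusion (hXle i)) (Subgroup.inclusion_injective _)
    rw [hs, hs] at h5
    exact (Nat.pow_le_pow_iff_right hp.one_lt).1 h5
  have hs0 : s 0 = N := by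
    have := hs 0
    rw [hX0, Subgroup.card_top, hN] at this
    exact (Nat.pow_right_injective hp.two_le this).symm
  have hsM : s M = 0 := by
    have := hs M
    rw [hXM, Subgroup.card_bot] at this
    by_contra h
    have h1 := Nat.one_lt_pow h hp.one_lt
    omega
  obtain ⟨i, hi, h6, h7⟩ := select B N M s hs0 hsM hN0
  have hmono : ∀ j, X (i + 1 + j) ≤ X i := by
    intro j
    induction j with
    | zero => exact hXle i
    | succ j ih => exact (hXle _).trans ih
  set n := s i - s (i + 1) with hn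
  have hn' : n + s (i + 1) = s i := Nat.sub_add_cancel (hanti i)
  have hgood : GoodIn (X i) (Real.exp (-(n : ℝ) / 50)) := by
    refine hJ q C r hK (M - (i + 1)) p (X i) ((X (i + 1)).subgroupOf (X i))
      (fun j => (X (i + 1 + j)).subgroupOf (X i)) ?_ ?_ rfl ?_ ?_ ?_ ?_ ?_ ?_ n (s (i + 1)) ?_ ?_ ?_
    · rw [Subgroup.commutator_le]
      intro a _ b _
      rw [Subgroup.mem_subgroupOf]
      exact hXc i (Subgroup.commutator_mem_commutator a.2 b.2)
    · intro a
      rw [Subgroup.mem_subgroupOf]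
      exact hXp i a a.2
    · have h8 : i + 1 + (M - (i + 1)) = M := by omega
      show (X (i + 1 + (M - (i + 1)))).subgroupOf (X i) = ⊥
      rw [h8, hXM, Subgroup.bot_subgroupOf]
    · intro j
      have := hXn (i + 1 + j)
      show ((X (i + 1 + j)).subgroupOf (X i)).Normal
      infer_instance
    · intro j a ha
      rw [Subgroup.mem_subgroupOf] at ha ⊢
      exact hXle _ ha
    · intro j a ha
      rw [Subgroup.mem_subgroupOf] at ha ⊢
      exact hXp _ a ha
    · intro j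
      rw [Subgroup.commutator_le]
      intro a ha b hb
      rw [Subgroup.mem_subgroupOf] at ha hb ⊢
      exact hXc _ (Subgroup.commutator_mem_commutator ha hb)
    · intro j
      rw [Subgroup.commutator_le]
      intro a ha b hb
      rw [Subgroup.mem_subgroupOf] at ha ⊢
      have h9 : (b : S) ∈ lcs (⊤ : Subgroup S) q :=
        lcs_map (X i).subtype q (Subgroup.mem_map_of_mem _ hb)
      exact hXV _ (Subgroup.commutator_mem_commutator ha h9)
    · rw [← hs (i + 1)]
      exact Nat.card_congr (Subgroup.subgroupOfEquivOfLe (hXle i)).toEquiv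
    · rw [hn', hs i]
    · have h10 : 100 * (C + 1) * (2 * p) ^ (r * (M - (i + 1)) + 1) ≤ B := by
        rw [hB]
        apply Nat.mul_le_mul_left
        have h11 : r * (M - (i + 1)) + 1 ≤ r * M' + 1 :=
          Nat.add_le_add_right (Nat.mul_le_mul_left _ (by omega)) 1
        calc (2 * p) ^ (r * (M - (i + 1)) + 1) ≤ (2 * e) ^ (r * (M - (i + 1)) + 1) :=
              Nat.pow_le_pow_left (by omega) _
          _ ≤ (2 * e) ^ (r * M' + 1) := Nat.pow_le_pow_right (by omega) h11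
      have h12 := Nat.mul_le_mul_right (s (i + 1)) h10
      omega
  refine goodIn_sub (goodIn_mono (Real.exp_pos _).le ?_ hgood)
  -- the inequality
  have hB1 : 1 ≤ B := by
    rw [hB]
    have : 0 < (2 * e) ^ (r * M' + 1) := pow_pos (by omega) _
    nlinarith
  have h13 : s i ≤ 2 * n := by
    have : s (i + 1) ≤ B * s (i + 1) := Nat.le_mul_of_pos_left _ hB1
    omega
  have h14 : N ≤ (B + 1) ^ M' * (2 * n) := by
    calc N ≤ (B + 1) ^ i * s i := h7
      _ ≤ (B + 1) ^ M' * (2 * n) :=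
        Nat.mul_le_mul (Nat.pow_le_pow_right (by omega) (by omega)) h13
  have h15 : (N : ℝ) ≤ ((B : ℝ) + 1) ^ M' * (2 * n) := by exact_mod_cast h14
  have hpR : (0 : ℝ) < p := Nat.cast_pos.2 hp.pos
  have hlp : Real.log p ≤ Real.log (e + 1) := by
    apply Real.log_le_log hpR
    have : (p : ℝ) ≤ e := by exact_mod_cast hple
    linarith
  have hlp0 : 0 ≤ Real.log p := Real.log_nonneg (by exact_mod_cast hp.one_lt.le)
  rw [hN, Nat.cast_pow, Real.rpow_def_of_pos (pow_pos hpR N), Real.log_pow]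
  apply Real.exp_le_exp.2
  have h16 : (N : ℝ) * Real.log p ≤ ((B : ℝ) + 1) ^ M' * (2 * n) * Real.log (e + 1) :=
    mul_le_mul h15 hlp hlp0 (by positivity)
  have h17 : (N : ℝ) * Real.log p * (1 / (100 * ((B : ℝ) + 1) ^ M' * Real.log (e + 1))) ≤
      (n : ℝ) / 50 := by
    rw [mul_one_div, div_le_iff₀ (by positivity)]
    calc (N : ℝ) * Real.log p ≤ ((B : ℝ) + 1) ^ M' * (2 * n) * Real.log (e + 1) := h16
      _ = (n : ℝ) / 50 * (100 * ((B : ℝ) + 1) ^ M' * Real.log (e + 1)) := by ring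
  linarith

end Pool.Agent.L0h35.Sv
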