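import Pool.Agent.L0h35.SvDefs
import Pool.Agent.TH360.RS.Diag

/-!
# StA: slice rank in an algebra with a subspace of cube zero
-/

set_option autoImplicit false

namespace Pool.Agent.L0h35.Sv

open Finset Module

namespace A83

/-- the functions on `I` obtained from the functionals that vanish on `X` -/
noncomputable def ch {F R I : Type} [Field F] [AddCommGroup R] [Module F R] (X : Submodule F R)
    (x : I → R) : (R ⧸ X →ₗ[F] F) →ₗ[F] (I → F) where
  toFun ν := fun i => ν (X.mkQ (x i))
  map_add' _ _ := rfl
  map_smul' _ _ := rfl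

theorem ch_rank {F R I : Type} [Field F] [AddCommGroup R] [Module F R] [FiniteDimensional F R]
    [Fintype I] (X : Submodule F R) (x : I → R) :
    finrank F (LinearMap.range (ch X x)) + finrank F X ≤ finrank F R := by
  have h1 := LinearMap.finrank_range_le (ch X x)
  have h2 : finrank F (R ⧸ X →ₗ[F] F) = finrank F (R ⧸ X) := Subspace.dual_finrank_eq
  have h3 := Submodule.finrank_quotient_add_finrank X
  omega

end A83

theorem stA : StA := by
  classical
  intro F _ R _ _ _ X hX lam I _ x y z h1 h0
  obtain ⟨s, hs⟩ := X.mkQ.exists_rightInverse_of_surjective (by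
    rw [Submodule.range_mkQ])
  have hs' : ∀ q : R ⧸ X, X.mkQ (s q) = q := fun q => LinearMap.congr_fun hs q
  have hX' : ∀ r : R, r - s (X.mkQ r) ∈ X := by
    intro r
    rw [← Submodule.Quotient.mk_eq_zero, ← Submodule.mkQ_apply, map_sub, hs', sub_self]
  have key := Pool.Agent.TH360.RS.diag_bound (F := F) (I := I)
    (fun i j l => lam (s (X.mkQ (x i)) * y j * z l))
    (fun i j l => lam ((x i - s (X.mkQ (x i))) * s (X.mkQ (y j)) * z l))
    (fun i j l => lam ((x i - s (X.mkQ (x i))) * (y j - s (X.mkQ (y j))) * s (X.mkQ (z l))))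
    (LinearMap.range (A83.ch X x)) (LinearMap.range (A83.ch X y)) (LinearMap.range (A83.ch X z))
    (fun j l => ⟨(lam.comp (LinearMap.mulRight F (y j * z l))).comp s, by
      funext i
      show lam (s (X.mkQ (x i)) * (y j * z l)) = _
      rw [mul_assoc]⟩)
    (fun i l => ⟨(lam.comp ((LinearMap.mulRight F (z l)).comp
      (LinearMap.mulLeft F (x i - s (X.mkQ (x i)))))).comp s, by
      funext j
      rfl⟩)
    (fun i j => ⟨(lam.comp (LinearMap.mulLeft F
      ((x i - s (X.mkQ (x i))) * (y j - s (X.mkQ (y j)))))).comp s, by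
      funext l
      rfl⟩)
    (fun i j l => by
      have h3 : (x i - s (X.mkQ (x i))) * (y j - s (X.mkQ (y j))) * (z l - s (X.mkQ (z l))) = 0 :=
        hX _ (hX' _) _ (hX' _) _ (hX' _)
      have h4 : s (X.mkQ (x i)) * y j * z l +
          (x i - s (X.mkQ (x i))) * s (X.mkQ (y j)) * z l +
          (x i - s (X.mkQ (x i))) * (y j - s (X.mkQ (y j))) * s (X.mkQ (z l)) =
          x i * y j * z l := by
        have h5 : x i * y j * z l = s (X.mkQ (x i)) * y j * z l +
          (x i - s (X.mkQ (x i))) * s (X.mkQ (y j)) * z l +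
          (x i - s (X.mkQ (x i))) * (y j - s (X.mkQ (y j))) * s (X.mkQ (z l)) +
          (x i - s (X.mkQ (x i))) * (y j - s (X.mkQ (y j))) * (z l - s (X.mkQ (z l))) := by
          noncomm_ring
        rw [h5, h3, add_zero]
      rw [← map_add, ← map_add, h4]
      split_ifs with hc
      · exact h1 i j l hc
      · exact h0 i j l hc)
  have r1 := A83.ch_rank X x
  have r2 := A83.ch_rank X y
  have r3 := A83.ch_rank X z
  omega

end Pool.Agent.L0h35.Sv
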