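import Pool.Agent.L0h35.SvDefs2
import Pool.Agent.L0h35.SvA

/-!
# StA3: slice rank in an algebra with three subspaces
-/

set_option autoImplicit false

namespace Pool.Agent.L0h35.Sv

open Finset Module

theorem A83.split {F R : Type} [Field F] [AddCommGroup R] [Module F R] (X : Submodule F R) :
    ∃ s : R ⧸ X →ₗ[F] R, ∀ r : R, r - s (X.mkQ r) ∈ X := by
  obtain ⟨s, hs⟩ := X.mkQ.exists_rightInverse_of_surjective (by
    rw [Submodule.range_mkQ])
  have hs' : ∀ q : R ⧸ X, X.mkQ (s q) = q := fun q => LinearMap.congr_fun hs q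
  refine ⟨s, fun r => ?_⟩
  rw [← Submodule.Quotient.mk_eq_zero, ← Submodule.mkQ_apply, map_sub, hs', sub_self]

theorem stA3 : StA3 := by
  classical
  intro F _ R _ _ _ lam X Y Z hXYZ I _ x y z h1 h0
  obtain ⟨s, hs⟩ := A83.split X
  obtain ⟨t, ht⟩ := A83.split Y
  obtain ⟨u, hu⟩ := A83.split Z
  have key := Pool.Agent.TH360.RS.diag_bound (F := F) (I := I)
    (fun i j l => lam (s (X.mkQ (x i)) * y j * z l))
    (fun i j l => lam ((x i - s (X.mkQ (x i))) * t (Y.mkQ (y j)) * z l))
    (fun i j l => lam ((x i - s (X.mkQ (x i))) * (y j - t (Y.mkQ (y j))) * u (Z.mkQ (z l))))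
    (LinearMap.range (A83.ch X x)) (LinearMap.range (A83.ch Y y)) (LinearMap.range (A83.ch Z z))
    (fun j l => ⟨(lam.comp (LinearMap.mulRight F (y j * z l))).comp s, by
      funext i
      show lam (s (X.mkQ (x i)) * (y j * z l)) = _
      rw [mul_assoc]⟩)
    (fun i l => ⟨(lam.comp ((LinearMap.mulRight F (z l)).comp
      (LinearMap.mulLeft F (x i - s (X.mkQ (x i)))))).comp t, by
      funext j
      rfl⟩)
    (fun i j => ⟨(lam.comp (LinearMap.mulLeft F
      ((x i - s (X.mkQ (x i))) * (y j - t (Y.mkQ (y j)))))).comp u, by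
      funext l
      rfl⟩)
    (fun i j l => by
      have h3 : lam ((x i - s (X.mkQ (x i))) * (y j - t (Y.mkQ (y j))) *
          (z l - u (Z.mkQ (z l)))) = 0 := hXYZ _ (hs _) _ (ht _) _ (hu _)
      have h5 : x i * y j * z l = s (X.mkQ (x i)) * y j * z l +
          (x i - s (X.mkQ (x i))) * t (Y.mkQ (y j)) * z l +
          (x i - s (X.mkQ (x i))) * (y j - t (Y.mkQ (y j))) * u (Z.mkQ (z l)) +
          (x i - s (X.mkQ (x i))) * (y j - t (Y.mkQ (y j))) * (z l - u (Z.mkQ (z l))) := by
        noncomm_ring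
      have h4 : lam (s (X.mkQ (x i)) * y j * z l) +
          lam ((x i - s (X.mkQ (x i))) * t (Y.mkQ (y j)) * z l) +
          lam ((x i - s (X.mkQ (x i))) * (y j - t (Y.mkQ (y j))) * u (Z.mkQ (z l))) =
          lam (x i * y j * z l) := by
        rw [h5, map_add, map_add, map_add, h3, add_zero]
      rw [h4]
      split_ifs with hc
      · exact h1 i j l hc
      · exact h0 i j l hc)
  have r1 := A83.ch_rank X x
  have r2 := A83.ch_rank Y y
  have r3 := A83.ch_rank Z z
  omega

end Pool.Agent.L0h35.Sv
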