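import Pool.Agent.L0h35.SvDefs

set_option autoImplicit false

/-!
# Matchings in a group from matchings in a subgroup
-/

namespace Pool.Agent.L0h35.Sv

open Finset

theorem stB : StB := by
  intro G _ _ K Λ hΛ hR n I _ x y z hm
  classical
  have : Fintype (G ⧸ K) := Fintype.ofFinite _
  set ab : I → (Fin n → G ⧸ K) × (Fin n → G ⧸ K) := fun i =>
    (fun t => (QuotientGroup.mk (x i t) : G ⧸ K),
      fun t => (QuotientGroup.mk (y i t)⁻¹ : G ⧸ K)) with hab
  have hfib : ∀ c : (Fin n → G ⧸ K) × (Fin n → G ⧸ K),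
      ((univ.filter (fun i => ab i = c)).card : ℝ) ≤ 3 * Λ ^ n := by
    intro c
    set r : Fin n → G := fun t => (c.1 t).out with hr
    set u : Fin n → G := fun t => (c.2 t).out with hu
    have hx : ∀ (i : I), ab i = c → ∀ t, (r t)⁻¹ * x i t ∈ K := by
      intro i hi t
      rw [← QuotientGroup.eq]
      have h1 : (QuotientGroup.mk (x i t) : G ⧸ K) = c.1 t := congrFun (congrArg Prod.fst hi) t
      rw [h1]
      exact Quotient.out_eq' (c.1 t)
    have hy : ∀ (i : I), ab i = c → ∀ t, y i t * u t ∈ K := by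
      intro i hi t
      have h1 : (QuotientGroup.mk (y i t)⁻¹ : G ⧸ K) = c.2 t := congrFun (congrArg Prod.snd hi) t
      have h2 : (QuotientGroup.mk (y i t)⁻¹ : G ⧸ K) = QuotientGroup.mk (u t) := by
        rw [h1]
        exact (Quotient.out_eq' (c.2 t)).symm
      have h3 := QuotientGroup.eq.1 h2
      rwa [inv_inv] at h3
    have hxyz : ∀ i, x i * y i * z i = 1 := fun i => (hm i i i).2 ⟨rfl, rfl⟩
    have hz : ∀ (i : I), ab i = c → ∀ t, (u t)⁻¹ * z i t * r t ∈ K := by
      intro i hi t
      have h1 : x i t * y i t * z i t = 1 := congrFun (hxyz i) t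
      have h2 : (u t)⁻¹ * z i t * r t = (y i t * u t)⁻¹ * ((r t)⁻¹ * x i t)⁻¹ := by
        have h3 : z i t = (y i t)⁻¹ * (x i t)⁻¹ := by
          rw [← mul_inv_rev]
          exact eq_inv_of_mul_eq_one_right h1
        rw [h3]
        group
      rw [h2]
      exact K.mul_mem (K.inv_mem (hy i hi t)) (K.inv_mem (hx i hi t))
    have key := hR n {i // ab i = c} (fun i t => ⟨(r t)⁻¹ * x i.1 t, hx i.1 i.2 t⟩)
      (fun i t => ⟨y i.1 t * u t, hy i.1 i.2 t⟩)
      (fun i t => ⟨(u t)⁻¹ * z i.1 t * r t, hz i.1 i.2 t⟩) (by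
        intro i j l
        have h1 := hm i.1 j.1 l.1
        have h2 : (i = j ∧ j = l) ↔ (i.1 = j.1 ∧ j.1 = l.1) := by
          rw [Subtype.ext_iff, Subtype.ext_iff]
        rw [h2, ← h1, funext_iff, funext_iff]
        refine forall_congr' fun t => ?_
        simp only [Pi.mul_apply, Pi.one_apply]
        rw [Subtype.ext_iff]
        simp only [Subgroup.coe_mul, Subgroup.coe_one]
        have h3 : (r t)⁻¹ * x i.1 t * (y j.1 t * u t) * ((u t)⁻¹ * z l.1 t * r t) =
          (r t)⁻¹ * (x i.1 t * y j.1 t * z l.1 t) * r t := by group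
        rw [h3]
        constructor
        · intro h4
          have h5 : x i.1 t * y j.1 t * z l.1 t =
            r t * ((r t)⁻¹ * (x i.1 t * y j.1 t * z l.1 t) * r t) * (r t)⁻¹ := by group
          rw [h5, h4]
          group
        · intro h4
          rw [h4]
          group)
    rw [Fintype.card_subtype] at key
    exact key
  have hcard : (Fintype.card I : ℝ) =
      ∑ c : (Fin n → G ⧸ K) × (Fin n → G ⧸ K), ((univ.filter (fun i => ab i = c)).card : ℝ) := by
    rw [← Nat.cast_sum, ← card_univ,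
      card_eq_sum_card_fiberwise (f := ab) (t := univ) (fun _ _ => by simp)]
  rw [hcard]
  refine (sum_le_sum fun c _ => hfib c).trans (le_of_eq ?_)
  rw [sum_const, card_univ, nsmul_eq_mul, Fintype.card_prod, Fintype.card_fun, Fintype.card_fin,
    Subgroup.index, Nat.card_eq_fintype_card]
  push_cast
  ring

end Pool.Agent.L0h35.Sv
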