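import Pool.Agent.L0h35.GTAbel
import Mathlib

set_option autoImplicit false

/-!
# Solvable groups and the exponent of matrix multiplication: definitions and module statements
-/

namespace Pool.Agent.L0h35.Sv

open Finset Module Pool.Agent.L0h35.GT

/-- The iterated commutator subgroups `M, [M, M], [[M, M], [M, M]], …` of a subgroup `M`
(the derived series of `M`). -/
def ds {G : Type} [Group G] (M : Subgroup G) : ℕ → Subgroup G
  | 0 => M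
  | n + 1 => ⁅ds M n, ds M n⁆

/-- The lower central series `V, [V, V], [[V, V], V], …` of a subgroup `V`. -/
def lcs {G : Type} [Group G] (V : Subgroup G) : ℕ → Subgroup G
  | 0 => V
  | n + 1 => ⁅lcs V n, V⁆

/-- Three families of elements of a group form a matching. -/
def Matching {G I : Type} [Group G] (x y z : I → G) : Prop :=
  ∀ i j l, x i * y j * z l = 1 ↔ i = j ∧ j = l

/-- Matchings in the powers `G ^ n` have at most `3 Λ ^ n` elements. -/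
def Rate (G : Type) [Group G] (Λ : ℝ) : Prop :=
  ∀ (n : ℕ) (I : Type) [Fintype I] (x y z : I → (Fin n → G)), Matching x y z →
    (Fintype.card I : ℝ) ≤ 3 * Λ ^ n

/-- A chain `H = C 0 ≥ C 1 ≥ ⋯ ≥ C L = 1` of normal subgroups of `G`, central in `H`, with
elementary abelian factors. -/
def Chain (p : ℕ) {G : Type} [Group G] (H : Subgroup G) (L : ℕ) (C : ℕ → Subgroup G) : Prop :=
  C 0 = H ∧ C L = ⊥ ∧ (∀ i, (C i).Normal) ∧ (∀ i, C (i + 1) ≤ C i) ∧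
    (∀ i, ∀ c ∈ C i, c ^ p ∈ C (i + 1)) ∧ ∀ i, ⁅C i, H⁆ ≤ C (i + 1)

/-- The span of the products `g (h₁ - 1) ⋯ (h_m - 1)`, `g ∈ G`, `h_i ∈ H`, in the group algebra. -/
noncomputable def Aug (F : Type) [Field F] (G : Type) [Group G] (H : Subgroup G) (m : ℕ) :
    Submodule F (MonoidAlgebra F G) :=
  Submodule.span F {r | ∃ (g : G) (l : List G), l.length = m ∧ (∀ h ∈ l, h ∈ H) ∧
    r = MonoidAlgebra.of F G g * (l.map fun h => MonoidAlgebra.of F G h - 1).prod}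

/-- `w` is a norm (for the trivial absolute value), written additively: large values are small
norms, and `0` has the value `1`. -/
def IsNm (F : Type) {V : Type} [Field F] [AddCommGroup V] [Module F V] (w : V → ℝ) : Prop :=
  (∀ v, w v ≤ 1) ∧ w 0 = 1 ∧ (∀ u v, min (w u) (w v) ≤ w (u + v)) ∧
    ∀ (c : F) (v : V), w v ≤ w (c • v)

/-- The basis `b` is adapted to `w`. -/
def Adapted {F V ι : Type} [Field F] [AddCommGroup V] [Module F V] (w : V → ℝ)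
    (b : Basis ι F V) : Prop :=
  ∀ v k, b.repr v k ≠ 0 → w v ≤ w (b k)

/-! ## Matchings -/

/-- slice rank in an algebra with a subspace of cube zero -/
def StA : Prop := ∀ (F : Type) [Field F] (R : Type) [Ring R] [Algebra F R]
  [FiniteDimensional F R] (X : Submodule F R),
  (∀ x ∈ X, ∀ y ∈ X, ∀ z ∈ X, x * y * z = 0) →
  ∀ (lam : R →ₗ[F] F) (I : Type) [Fintype I] (x y z : I → R),
    (∀ i j l, i = j ∧ j = l → lam (x i * y j * z l) = 1) →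
    (∀ i j l, ¬ (i = j ∧ j = l) → lam (x i * y j * z l) = 0) →
    Fintype.card I + 3 * finrank F X ≤ 3 * finrank F R

/-- subgroups -/
def StB : Prop := ∀ (G : Type) [Group G] [Finite G] (K : Subgroup G) (Λ : ℝ), 0 < Λ →
  Rate K Λ → Rate G ((K.index : ℝ) ^ 2 * Λ)

/-- from matchings to the simultaneous triple product property -/
def StE : Prop := ∀ (G : Type) [Group G] [Finite G] (Λ : ℝ), 0 < Λ → Rate G Λ →
  ∀ (I : Type) [Fintype I] (A B C : I → Finset G), STPP A B C → ∀ τ : ℝ, 2 ≤ τ →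
    ∑ i, ((A i).card * (B i).card * (C i).card : ℝ) ^ (τ / 3) ≤
      (Nat.card G : ℝ) ^ (τ / 2) * (Λ / Nat.card G)

/-! ## Group algebras -/

/-- nilpotency of the augmentation ideal, with weights `(2 p) ^ i` -/
def StC : Prop := ∀ (p : ℕ) [Fact p.Prime] (G : Type) [Group G] [Finite G] (H : Subgroup G)
  (L : ℕ) (C : ℕ → Subgroup G), Chain p H L C → ∀ d : ℕ → ℕ,
  (∀ i < L, Nat.card (C i) = p ^ d i * Nat.card (C (i + 1))) →
  ∀ l : List G, (∀ h ∈ l, h ∈ H) →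
    (p - 1) * ∑ i ∈ range L, (2 * p) ^ i * d i < l.length →
    (l.map fun h => MonoidAlgebra.of (ZMod p) G h - 1).prod = 0

/-- codimension of the powers of the augmentation ideal -/
def StD : Prop := ∀ (p : ℕ) [Fact p.Prime] (G : Type) [Group G] [Finite G] (H V : Subgroup G),
  H.Normal → V.Normal → V ≤ H → ⁅H, H⁆ ≤ V → (∀ h ∈ H, h ^ p ∈ V) → ∀ d : ℕ,
  Nat.card H = p ^ d * Nat.card V → ∀ m : ℕ,
    p ^ d * Nat.card G ≤ p ^ d * finrank (ZMod p) (Aug (ZMod p) G H m) +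
      Nat.card G * (univ.filter fun a : Fin d → Fin p => ∑ k, (a k : ℕ) < m).card

/-- counting -/
def StN : Prop := ∀ (p : ℕ) [Fact p.Prime] (d m : ℕ), 20 * m ≤ 7 * (p - 1) * d + 20 →
  ((univ.filter fun a : Fin d → Fin p => ∑ k, (a k : ℕ) < m).card : ℝ) ≤
    (p : ℝ) ^ d * Real.exp (-(d : ℝ) / 25)

/-- the matching bound from a chain -/
def StF : Prop := ∀ (p : ℕ) [Fact p.Prime] (G : Type) [Group G] [Finite G] (H : Subgroup G)
  (L : ℕ) (C : ℕ → Subgroup G), Chain p H (L + 1) C → ∀ d : ℕ → ℕ,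
  (∀ i < L + 1, Nat.card (C i) = p ^ d i * Nat.card (C (i + 1))) →
  20 * ∑ i ∈ range L, (2 * p) ^ (i + 1) * d (i + 1) ≤ d 0 →
  Rate G ((Nat.card G : ℝ) * Real.exp (-(d 0 : ℝ) / 25))

/-! ## Commutative algebras of operators -/

/-- Every commutative algebra of operators contains a large ideal of square zero. -/
def StG : Prop := ∀ (F : Type) [Field F] (V : Type) [AddCommGroup V] [Module F V]
  [FiniteDimensional F V] (𝒜 : Submodule F (Module.End F V)),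
  (∀ a ∈ 𝒜, ∀ b ∈ 𝒜, a * b ∈ 𝒜) → (∀ a ∈ 𝒜, ∀ b ∈ 𝒜, a * b = b * a) →
  ∃ (T : Submodule F V) (N : Submodule F (Module.End F V)), N ≤ 𝒜 ∧
    (∀ a ∈ N, ∀ v, a v ∈ T) ∧ (∀ a ∈ N, ∀ v ∈ T, a v = 0) ∧
    finrank F 𝒜 ≤ finrank F N + 2 * finrank F V

/-- Two norms have a common adapted basis. -/
def StH1 : Prop := ∀ (F : Type) [Field F] (V : Type) [AddCommGroup V] [Module F V] [Finite V]
  (w₀ w₁ : V → ℝ), IsNm F w₀ → IsNm F w₁ →
  ∃ b : Basis (Fin (finrank F V)) F V, Adapted w₀ b ∧ Adapted w₁ b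

/-- A large part of square zero can be chosen invariant. -/
def StH2 : Prop := ∀ (F : Type) [Field F] (V : Type) [AddCommGroup V] [Module F V] [Finite V]
  (𝒜 : Submodule F (Module.End F V)) (D : ℕ) (T₀ : Submodule F V)
  (N₀ : Submodule F (Module.End F V)), N₀ ≤ 𝒜 → (∀ a ∈ N₀, ∀ v, a v ∈ T₀) →
  (∀ a ∈ N₀, ∀ v ∈ T₀, a v = 0) → finrank F 𝒜 ≤ finrank F N₀ + D →
  ∃ T : Submodule F V, (∃ W : Submodule F (Module.End F V), W ≤ 𝒜 ∧ (∀ a ∈ W, ∀ v, a v ∈ T) ∧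
      (∀ a ∈ W, ∀ v ∈ T, a v = 0) ∧ finrank F 𝒜 ≤ finrank F W + (4 * D + 2 * finrank F V)) ∧
    ∀ g : V ≃ₗ[F] V, (∀ a, g.conj a ∈ 𝒜 ↔ a ∈ 𝒜) → T.map g.toLinearMap = T

/-! ## Groups acting on sections -/

/-- one elementary abelian section -/
def StI : Prop := ∀ (p : ℕ) [Fact p.Prime] (G : Type) [Group G] [Finite G]
  (P A B : Subgroup G), P.Normal → A.Normal → B.Normal → B ≤ A → (∀ a ∈ A, a ^ p ∈ B) →
  ⁅A, A⁆ ≤ B → ⁅⁅P, P⁆, A⁆ ≤ B →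
  ∃ H T : Subgroup G, H.Normal ∧ T.Normal ∧ H ≤ P ∧ B ≤ T ∧ T ≤ A ∧ ⁅H, A⁆ ≤ T ∧ ⁅H, T⁆ ≤ B ∧
    Nat.card P * Nat.card B ^ 10 ≤ Nat.card H * Nat.card A ^ 10 ∧
    ∀ x ∈ P, (∀ a ∈ A, x * a * x⁻¹ * a⁻¹ ∈ B) → x ∈ H

/-- a chain of sections -/
def StJ : Prop := ∀ (p : ℕ) [Fact p.Prime] (G : Type) [Group G] [Finite G] (P V : Subgroup G)
  (m : ℕ) (U : ℕ → Subgroup G), P.Normal → V ≤ P → ⁅P, P⁆ ≤ V → (∀ x ∈ P, x ^ p ∈ V) →
  U 0 = V → U m = ⊥ → (∀ i, (U i).Normal) → (∀ i, U (i + 1) ≤ U i) →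
  (∀ i, ∀ u ∈ U i, u ^ p ∈ U (i + 1)) → (∀ i, ⁅U i, V⁆ ≤ U (i + 1)) →
  ∀ n s : ℕ, Nat.card V = p ^ s → Nat.card P = p ^ (n + s) → 30 * (2 * p) ^ (2 * m) * s ≤ n →
  Rate G ((Nat.card G : ℝ) * Real.exp (-(n : ℝ) / 50))

/-- a chain in a normal `p`-subgroup of bounded class and exponent -/
def StK : Prop := ∀ (p : ℕ) [Fact p.Prime] (G : Type) [Group G] [Finite G] (V : Subgroup G)
  (k c : ℕ), V.Normal → (∀ v ∈ V, v ^ p ^ k = 1) → lcs V c = ⊥ →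
  ∃ U : ℕ → Subgroup G, U 0 = V ∧ U (c * k) = ⊥ ∧ (∀ i, (U i).Normal) ∧
    (∀ i, U (i + 1) ≤ U i) ∧ (∀ i, ∀ u ∈ U i, u ^ p ∈ U (i + 1)) ∧ ∀ i, ⁅U i, V⁆ ≤ U (i + 1)

/-! ## Finite groups -/

/-- a large elementary abelian section in an abelian section of bounded exponent -/
def StL0 : Prop := ∀ (G : Type) [Group G] [Finite G] (N A : Subgroup G) (e : ℕ), N.Normal →
  A.Normal → N ≤ A → ⁅A, A⁆ ≤ N → 2 ≤ e → (∀ x ∈ A, x ^ e ∈ N) →
  ∃ (p : ℕ) (R : Subgroup G) (r : ℕ), p.Prime ∧ p ∣ e ∧ R.Normal ∧ N ≤ R ∧ R ≤ A ∧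
    (∀ x ∈ R, x ^ p ∈ N) ∧ Nat.card R = p ^ r * Nat.card N ∧ Nat.card A ≤ e ^ r * Nat.card N

/-- the Sylow subgroups of an elementary abelian section -/
def StL : Prop := ∀ (p : ℕ) [Fact p.Prime] (G : Type) [Group G] [Finite G] (N R : Subgroup G)
  (r : ℕ), N.Normal → R.Normal → N ≤ R → (∀ x ∈ R, x ^ p ∈ N) → ⁅R, R⁆ ≤ N →
  Nat.card R = p ^ r * Nat.card N →
  ∃ (K S : Subgroup G) (P V : Subgroup K) (n s : ℕ), K.index ≤ Nat.card N ∧ IsPGroup p S ∧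
    S ≤ R ∧ V.map K.subtype = ⁅S, S⁆ ∧ P.Normal ∧ V.Normal ∧ V ≤ P ∧ ⁅P, P⁆ ≤ V ∧
    (∀ x ∈ P, x ^ p ∈ V) ∧ Nat.card V = p ^ s ∧ Nat.card P = p ^ (n + s) ∧ r ≤ n ∧
    p ^ s ≤ Nat.card N

/-- the bound at one level of the derived series -/
def StM1 : Prop := ∀ (G : Type) [Group G] [Finite G] (N A : Subgroup G) (e c : ℕ), N.Normal →
  A.Normal → N ≤ A → ⁅A, A⁆ ≤ N → 2 ≤ e → (∀ x ∈ A, x ^ e = 1) →
  (∀ (p : ℕ) (S : Subgroup G), p.Prime → IsPGroup p S → S ≤ A → lcs ⁅S, S⁆ c = ⊥) →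
  30 * (e : ℝ) ^ (4 * c) * Real.log e * Real.log (Nat.card N) ≤
    Real.log 2 * (Real.log (Nat.card A) - Real.log (Nat.card N)) →
  ∃ Λ : ℝ, 0 < Λ ∧ Rate G Λ ∧ Λ ≤ (Nat.card G : ℝ) * Nat.card N *
    Real.exp (-(Real.log (Nat.card A) - Real.log (Nat.card N)) / (50 * Real.log e))

/-- the main theorem -/
def StM2 : Prop := ∀ (e ℓ c : ℕ) (δ : ℝ), 0 < e → 0 < δ → ∃ κ : ℝ, 0 < κ ∧
  ∀ (G : Type) [Group G] [Finite G] (M : Subgroup G), M.Normal → (∀ x ∈ M, x ^ e = 1) →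
  ds M ℓ = ⊥ → (∀ (p : ℕ) (S : Subgroup G), p.Prime → IsPGroup p S → S ≤ M →
    lcs ⁅S, S⁆ c = ⊥) →
  (Nat.card G : ℝ) ^ δ ≤ Nat.card M →
  ∀ (I : Type) [Fintype I] (A B C : I → Finset G), STPP A B C → ∀ τ : ℝ, 2 ≤ τ →
    ∑ i, ((A i).card * (B i).card * (C i).card : ℝ) ^ (τ / 3) ≤
      (Nat.card G : ℝ) ^ (τ / 2 - κ)

end Pool.Agent.L0h35.Sv
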