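import Pool.Agent.L0h35.SvDefs

set_option autoImplicit false

/-!
# Normal subgroups which are direct products: module statements
-/

namespace Pool.Agent.L0h35.Sv

open Finset Module Pool.Agent.L0h35.GT

/-- slice rank in an algebra, with three subspaces (contains `StA`) -/
def StA3 : Prop := ∀ (F : Type) [Field F] (R : Type) [Ring R] [Algebra F R]
  [FiniteDimensional F R] (lam : R →ₗ[F] F) (X Y Z : Submodule F R),
  (∀ x ∈ X, ∀ y ∈ Y, ∀ z ∈ Z, lam (x * y * z) = 0) →
  ∀ (I : Type) [Fintype I] (x y z : I → R),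
    (∀ i j l, i = j ∧ j = l → lam (x i * y j * z l) = 1) →
    (∀ i j l, ¬ (i = j ∧ j = l) → lam (x i * y j * z l) = 0) →
    Fintype.card I + (finrank F X + finrank F Y + finrank F Z) ≤ 3 * finrank F R

/-- The subgroups `T i` commute elementwise, are independent, and are permuted by conjugation. -/
def DirectFamily {G ι : Type} [Group G] (T : ι → Subgroup G) : Prop :=
  (∀ i j, i ≠ j → ∀ x ∈ T i, ∀ y ∈ T j, x * y = y * x) ∧ iSupIndep T ∧
    ∀ (g : G) (i : ι), ∃ j, ∀ x : G, x ∈ T i ↔ g * x * g⁻¹ ∈ T j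

/-- matchings in groups with a direct family of subgroups, all of order divisible by `p` -/
def StQ : Prop := ∀ (p : ℕ) [Fact p.Prime] (G : Type) [Group G] [Finite G] (ι : Type) [Fintype ι]
  (T : ι → Subgroup G), DirectFamily T → (∀ i, p ∣ Nat.card (T i)) →
  Rate G ((Nat.card G : ℝ) * Real.exp (-(∑ i, (1 : ℝ) / Nat.card (T i)) / 32))

/-- the simultaneous triple product property and direct families -/
def StR : Prop := ∀ (G : Type) [Group G] [Finite G] (ι : Type) [Fintype ι]
  (T : ι → Subgroup G) (b : ℕ), DirectFamily T → (∀ i, 2 ≤ Nat.card (T i)) →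
  (∀ i, Nat.card (T i) ≤ b) →
  ∀ (I : Type) [Fintype I] (A B C : I → Finset G), STPP A B C → ∀ τ : ℝ, 2 ≤ τ →
    ∑ i, ((A i).card * (B i).card * (C i).card : ℝ) ^ (τ / 3) ≤
      (Nat.card G : ℝ) ^ (τ / 2) * Real.exp (-(Fintype.card ι : ℝ) / (32 * b ^ 2))

end Pool.Agent.L0h35.Sv
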