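import Pool.Agent.L0h35.SvDefs
import Pool.Agent.N726.BG.Defs

set_option autoImplicit false

/-!
# Arbitrary groups with a large `p`-subgroup: definitions and module statements
-/

namespace Pool.Agent.L0h35.Sv

open Finset Module Pool.Agent.L0h35.GT

/-- A subgroup of `G` (an embedded group `H`) all of whose powers `H ^ (3 N)` have isotropic right
ideals of codimension at most `ρ ^ (3 N) |H| ^ (3 N)`. -/
def GoodIn (G : Type) [Group G] (ρ : ℝ) : Prop :=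
  ∃ (H : Type) (_ : Group H) (_ : Fintype H) (φ : H →* G), Function.Injective φ ∧
    ∀ N : ℕ, N726.BG.Good (Fin 3 × Fin N → H) (ρ ^ (3 * N))

/-- the pivot theorem of the start library and the simultaneous triple product property -/
def StPiv : Prop := ∀ (G : Type) [Group G] [Finite G] (ρ : ℝ), 0 < ρ → GoodIn G ρ →
  ∀ (I : Type) [Fintype I] (A B C : I → Finset G), STPP A B C → ∀ τ : ℝ, 2 ≤ τ →
    ∑ i, ((A i).card * (B i).card * (C i).card : ℝ) ^ (τ / 3) ≤ (Nat.card G : ℝ) ^ (τ / 2) * ρ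

/-- isotropic ideals from a chain of a group `G` -/
def StGd : Prop := ∀ (p : ℕ) [Fact p.Prime] (G : Type) [Group G] [Fintype G] (L : ℕ)
  (C : ℕ → Subgroup G), Chain p (⊤ : Subgroup G) (L + 1) C → ∀ d : ℕ → ℕ,
  (∀ i < L + 1, Nat.card (C i) = p ^ d i * Nat.card (C (i + 1))) →
  20 * ∑ i ∈ range L, (2 * p) ^ (i + 1) * d (i + 1) ≤ d 0 →
  ∀ N : ℕ, N726.BG.Good (Fin 3 × Fin N → G) (Real.exp (-(d 0 : ℝ) / 25) ^ (3 * N))

/-- `P` acts on the vector space `V` over `ZMod p`, the subgroup `γ_{q+1}(P) = lcs ⊤ q` acts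
trivially.  Then a subgroup `H` of index at most `p ^ (C dim V)` acts trivially on the factors of a
filtration of `V` of length `r`. -/
def KLm (q C r : ℕ) : Prop := ∀ (p : ℕ) [Fact p.Prime] (V : Type) [AddCommGroup V]
  [Module (ZMod p) V] [Finite V] (P : Type) [Group P] [Finite P]
  (f : P →* Module.End (ZMod p) V), (∀ g ∈ lcs (⊤ : Subgroup P) q, f g = 1) →
  ∃ (H : Subgroup P) (T : ℕ → Submodule (ZMod p) V), T 0 = ⊤ ∧ T r = ⊥ ∧
    (∀ i, T (i + 1) ≤ T i) ∧ (∀ i < r, ∀ h ∈ H, ∀ v ∈ T i, f h v - v ∈ T (i + 1)) ∧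
    H.index ≤ p ^ (C * finrank (ZMod p) V)

/-- the same for the action of a group on an elementary abelian section by conjugation -/
def KLs (q C r : ℕ) : Prop := ∀ (p : ℕ) [Fact p.Prime] (G : Type) [Group G] [Finite G]
  (A B : Subgroup G), A.Normal → B.Normal → B ≤ A → (∀ a ∈ A, a ^ p ∈ B) → ⁅A, A⁆ ≤ B →
  ⁅A, lcs (⊤ : Subgroup G) q⁆ ≤ B →
  ∃ (H : Subgroup G) (T : ℕ → Subgroup G), T 0 = A ∧ T r = B ∧ (∀ i, T (i + 1) ≤ T i) ∧
    (∀ i < r, ⁅T i, H⁆ ≤ T (i + 1)) ∧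
    Nat.card G * Nat.card B ^ C ≤ Nat.card H * Nat.card A ^ C

/-- groups of class two -/
def StK2 : Prop := KLm 2 4 4

/-- from modules to sections -/
def StSec : Prop := ∀ q C r : ℕ, KLm q C r → KLs q C r

/-- a group `G` with a small normal subgroup `V`, `G / V` elementary abelian -/
def StJJ : Prop := ∀ q C r : ℕ, KLs q C r → ∀ (m p : ℕ) [Fact p.Prime] (G : Type) [Group G]
  [Finite G] (V : Subgroup G) (U : ℕ → Subgroup G), ⁅(⊤ : Subgroup G), ⊤⁆ ≤ V →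
  (∀ x : G, x ^ p ∈ V) → U 0 = V → U m = ⊥ → (∀ i, (U i).Normal) → (∀ i, U (i + 1) ≤ U i) →
  (∀ i, ∀ u ∈ U i, u ^ p ∈ U (i + 1)) → (∀ i, ⁅U i, U i⁆ ≤ U (i + 1)) →
  (∀ i, ⁅U i, lcs (⊤ : Subgroup G) q⁆ ≤ U (i + 1)) →
  ∀ n s : ℕ, Nat.card V = p ^ s → Nat.card G = p ^ (n + s) →
    100 * (C + 1) * (2 * p) ^ (r * m + 1) * s ≤ n → GoodIn G (Real.exp (-(n : ℝ) / 50))

/-- `p`-groups of bounded exponent whose subgroup `γ_{q+1}` has bounded class -/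
def StSel : Prop := ∀ q C r : ℕ, KLs q C r → ∀ e c : ℕ, 0 < e → ∃ ε : ℝ, 0 < ε ∧
  ∀ (p : ℕ) [Fact p.Prime] (S : Type) [Group S] [Finite S], IsPGroup p S →
    (∀ x : S, x ^ e = 1) → lcs (lcs (⊤ : Subgroup S) q) c = ⊥ →
    GoodIn S ((Nat.card S : ℝ) ^ (-ε))

/-- `p`-groups of bounded exponent and bounded derived length, if `KLs q` is known for all `q` -/
def StDer : Prop := (∀ q, ∃ C r : ℕ, KLs q C r) → ∀ e ℓ : ℕ, 0 < e → ∃ ε : ℝ, 0 < ε ∧
  ∀ (p : ℕ) [Fact p.Prime] (S : Type) [Group S] [Finite S], IsPGroup p S →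
    (∀ x : S, x ^ e = 1) → ds (⊤ : Subgroup S) ℓ = ⊥ → GoodIn S ((Nat.card S : ℝ) ^ (-ε))

end Pool.Agent.L0h35.Sv
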