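import Pool.Agent.L0h35.SvDefs

set_option autoImplicit false

/-!
# From matchings to the simultaneous triple product property
-/

namespace Pool.Agent.L0h35.Sv

open Finset Module Pool.Agent.L0h35.GT

theorem uniform_bound_rate {G : Type} [Group G] [Finite G] {Λ : ℝ} (hR : Rate G Λ) {κ : Type}
    [Fintype κ] {n : ℕ} (e : κ ≃ Fin n) {K : Type} [Fintype K] {A B C : K → Finset (κ → G)}
    (h : Key A B C)
    {q M : ℕ} (hA : ∀ i, (A i).card = q) (hB : ∀ i, (B i).card = q) (hC : ∀ i, (C i).card = q)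
    (hM : 3 * M ≤ q + 2) :
    (Fintype.card K : ℝ) * (M * rothNumberNat M) ≤ 3 * Λ ^ n := by
  classical
  obtain ⟨R, hRs, hRc, hR3⟩ := rothNumberNat_spec M
  have hRlt : ∀ s : {s // s ∈ R}, (s : ℕ) < M := fun s => mem_range.1 (hRs s.2)
  let eA : ∀ i, Fin q ≃ {x // x ∈ A i} := fun i => (finCongr (hA i).symm).trans (A i).equivFin.symm
  let eB : ∀ i, Fin q ≃ {x // x ∈ B i} := fun i => (finCongr (hB i).symm).trans (B i).equivFin.symm
  let eC : ∀ i, Fin q ≃ {x // x ∈ C i} := fun i => (finCongr (hC i).symm).trans (C i).equivFin.symm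
  let J := K × Fin M × {s // s ∈ R}
  have l0 : ∀ w : J, (w.2.1 : ℕ) < q := fun w => by
    have := w.2.1.2
    omega
  have l1 : ∀ w : J, (w.2.1 : ℕ) + w.2.2 < q := fun w => by
    have := w.2.1.2
    have := hRlt w.2.2
    omega
  have l2 : ∀ w : J, (w.2.1 : ℕ) + 2 * w.2.2 < q := fun w => by
    have := w.2.1.2
    have := hRlt w.2.2
    omega
  let fa : J → (κ → G) := fun w => eA w.1 ⟨w.2.1, l0 w⟩
  let fb : J → (κ → G) := fun w => eB w.1 ⟨w.2.1 + w.2.2, l1 w⟩
  let fc : J → (κ → G) := fun w => eC w.1 ⟨w.2.1 + 2 * w.2.2, l2 w⟩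
  have hre : ∀ u v w : κ → G, (fun k : Fin n => u (e.symm k)) * (fun k : Fin n => v (e.symm k)) *
      (fun k : Fin n => w (e.symm k)) = 1 ↔ u * v * w = 1 := by
    intro u v w
    constructor
    · intro hh
      funext x
      have := congr_fun hh (e x)
      simpa using this
    · intro hh
      funext x
      have := congr_fun hh (e.symm x)
      simpa using this
  have key := hR n J (fun w k => ((fa w)⁻¹ * fb w) (e.symm k))
    (fun w k => ((fb w)⁻¹ * fc w) (e.symm k)) (fun w k => ((fc w)⁻¹ * fa w) (e.symm k)) ?_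
  · have hJ : (Fintype.card J : ℝ) = (Fintype.card K : ℝ) * (M * rothNumberNat M) := by
      rw [Fintype.card_prod, Fintype.card_prod, Fintype.card_fin, Fintype.card_coe, hRc]
      push_cast
      rfl
    rwa [hJ] at key
  · intro w1 w2 w3
    rw [hre]
    constructor
    · intro he
      have he' : fa w3 * (fa w1)⁻¹ * (fb w1 * (fb w2)⁻¹) * (fc w2 * (fc w3)⁻¹) = 1 := by
        have h1 : fa w3 * (fa w1)⁻¹ * (fb w1 * (fb w2)⁻¹) * (fc w2 * (fc w3)⁻¹) =
          fa w3 * ((fa w1)⁻¹ * fb w1 * ((fb w2)⁻¹ * fc w2) * ((fc w3)⁻¹ * fa w3)) *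
            (fa w3)⁻¹ := by group
        rw [h1, he]
        group
      obtain ⟨h1, h2, h3, h4, h5⟩ := h w3.1 w1.1 w2.1 _ (eA w3.1 _).2 _ (eA w1.1 _).2 _
        (eB w1.1 _).2 _ (eB w2.1 _).2 _ (eC w2.1 _).2 _ (eC w3.1 _).2 he'
      obtain ⟨i1, u1, s1⟩ := w1
      obtain ⟨i2, u2, s2⟩ := w2
      obtain ⟨i3, u3, s3⟩ := w3
      simp only at h1 h2
      subst h1
      subst h2
      have g1 := (eA i3).injective (Subtype.ext h3)
      have g2 := (eB i3).injective (Subtype.ext h4)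
      have g3 := (eC i3).injective (Subtype.ext h5)
      simp only [Fin.mk.injEq] at g1 g2 g3
      have g4 : (s1 : ℕ) + s2 = s3 + s3 := by omega
      have g5 : (s1 : ℕ) = s3 := hR3 s1.2 s3.2 s2.2 g4
      have g6 : (s2 : ℕ) = s3 := by omega
      have g7 : (u1 : ℕ) = u2 := by omega
      have g8 : (u2 : ℕ) = u3 := by omega
      refine ⟨?_, ?_⟩
      · rw [Prod.mk.injEq, Prod.mk.injEq]
        exact ⟨rfl, Fin.ext g7, Subtype.ext (g5.trans g6.symm)⟩
      · rw [Prod.mk.injEq, Prod.mk.injEq]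
        exact ⟨rfl, Fin.ext g8, Subtype.ext g6⟩
    · rintro ⟨rfl, rfl⟩
      group

theorem power_bound_rate {G : Type} [Group G] [Finite G] {Λ : ℝ} (hΛ : 0 < Λ) (hR : Rate G Λ)
    {I : Type} [Fintype I] {A B C : I → Finset G} (h : Key A B C)
    {τ : ℝ} (hτ : 2 ≤ τ) (hS : 0 < ∑ i, ((A i).card * (B i).card * (C i).card : ℝ) ^ (τ / 3))
    (m : ℕ) :
    (∑ i, ((A i).card * (B i).card * (C i).card : ℝ) ^ (τ / 3)) ^ (3 * m) ≤
      27 * (m + 1 : ℝ) ^ (3 * Fintype.card I) *
        Real.exp (4 * √(3 / 2 * Real.log (Nat.card G)) * √m) *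
        ((Nat.card G : ℝ) ^ (τ / 2) * (Λ / Nat.card G)) ^ (3 * m) := by
  classical
  have hI : Nonempty I := by
    by_contra hI
    rw [not_nonempty_iff] at hI
    simp at hS
  set w : I → ℝ := fun i => ((A i).card * (B i).card * (C i).card : ℝ) ^ (τ / 3) with hw
  obtain ⟨ν, hν⟩ := exists_class w m
  set J := univ.filter (fun s : Fin m → I => cnt s = ν) with hJ
  set α := ∏ i, (A i).card ^ (ν i : ℕ) with hα
  set β := ∏ i, (B i).card ^ (ν i : ℕ) with hβ
  set γ := ∏ i, (C i).card ^ (ν i : ℕ) with hγ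
  have hcl : ∀ s ∈ J, ∀ f : I → ℕ, ∏ k, f (s k) = ∏ i, f i ^ (ν i : ℕ) := by
    intro s hs f
    rw [prod_cnt, (mem_filter.1 hs).2]
  set q := α * β * γ with hq
  have hw0 : ∀ i, 0 ≤ w i := fun i => by positivity
  have hsum : ∑ s ∈ J, ∏ k, w (s k) = J.card * (q : ℝ) ^ (τ / 3) := by
    rw [← nsmul_eq_mul, ← sum_const]
    refine sum_congr rfl fun s hs => ?_
    rw [hw]
    simp only
    rw [Real.finsetProd_rpow _ _ fun i _ => by positivity]
    congr 1
    rw [prod_mul_distrib, prod_mul_distrib]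
    have e1 := hcl s hs (fun i => (A i).card)
    have e2 := hcl s hs (fun i => (B i).card)
    have e3 := hcl s hs (fun i => (C i).card)
    rw [hq, hα, hβ, hγ, ← e1, ← e2, ← e3]
    push_cast
    rfl
  rw [hsum] at hν
  -- the class is not empty and q is positive
  have hpos : 0 < (J.card : ℝ) * (q : ℝ) ^ (τ / 3) := by
    have h1 : 0 < (∑ i, w i) ^ m := pow_pos hS m
    have h2 := h1.trans_le hν
    exact (mul_pos_iff_of_pos_left (by positivity)).1 h2
  have hJ0 : J.Nonempty := by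
    rw [nonempty_iff_ne_empty]
    intro hJe
    rw [hJe] at hpos
    simp at hpos
  have hq0 : 0 < q := by
    rcases Nat.eq_zero_or_pos q with hq0 | hq0
    · rw [hq0, Nat.cast_zero, Real.zero_rpow (by linarith), mul_zero] at hpos
      exact absurd hpos (lt_irrefl _)
    · exact hq0
  -- the family in the power of the group
  let AA : Fin 3 → I → Finset G := ![A, B, C]
  let BB : Fin 3 → I → Finset G := ![B, C, A]
  let CC : Fin 3 → I → Finset G := ![C, A, B]
  have hkey : ∀ x : Fin 3 × Fin m, Key (AA x.1) (BB x.1) (CC x.1) := by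
    rintro ⟨e, k⟩
    fin_cases e
    · exact h
    · exact h.rotate
    · exact h.rotate.rotate
  have hpi := Key.pi hkey
  let emb : (Fin 3 → {s // s ∈ J}) → (Fin 3 × Fin m → I) := fun σ x => (σ x.1).1 x.2
  have hemb : Function.Injective emb := by
    intro σ σ' hs
    funext e
    exact Subtype.ext (funext fun k => congr_fun hs (e, k))
  have hfam := hpi.comp hemb
  have hcard : ∀ (X Y Z : I → Finset G) (σ : Fin 3 → {s // s ∈ J}),
      (Fintype.piFinset fun x : Fin 3 × Fin m =>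
        (![X, Y, Z] : Fin 3 → I → Finset G) x.1 (emb σ x)).card =
        (∏ i, (X i).card ^ (ν i : ℕ)) * (∏ i, (Y i).card ^ (ν i : ℕ)) *
          ∏ i, (Z i).card ^ (ν i : ℕ) := by
    intro X Y Z σ
    rw [Fintype.card_piFinset, Fintype.prod_prod_type, Fin.prod_univ_three]
    have e0 := hcl (σ 0).1 (σ 0).2 (fun i => (X i).card)
    have e1 := hcl (σ 1).1 (σ 1).2 (fun i => (Y i).card)
    have e2 := hcl (σ 2).1 (σ 2).2 (fun i => (Z i).card)
    rw [← e0, ← e1, ← e2]
    rfl
  have hcA : ∀ σ, (Fintype.piFinset fun x : Fin 3 × Fin m => AA x.1 (emb σ x)).card = q :=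
    fun σ => hcard A B C σ
  have hcB : ∀ σ, (Fintype.piFinset fun x : Fin 3 × Fin m => BB x.1 (emb σ x)).card = q :=
    fun σ => by rw [hcard B C A σ, hq]; ring
  have hcC : ∀ σ, (Fintype.piFinset fun x : Fin 3 × Fin m => CC x.1 (emb σ x)).card = q :=
    fun σ => by rw [hcard C A B σ, hq]; ring
  have hHcard : (Nat.card (Fin 3 × Fin m → G) : ℝ) = (Nat.card G : ℝ) ^ (3 * m) := by
    rw [Nat.card_fun, Nat.card_eq_fintype_card (α := Fin 3 × Fin m), Fintype.card_prod,
      Fintype.card_fin, Fintype.card_fin]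
    push_cast
    rfl
  set M := (q + 2) / 3 with hM
  have hM1 : 3 * M ≤ q + 2 := Nat.mul_div_le _ _
  have hMpos : 0 < M := by omega
  have hMq : M ≤ q := by omega
  have hqM : (q : ℝ) ≤ 3 * M := by
    have : q ≤ 3 * M := by omega
    exact_mod_cast this
  have hbound := uniform_bound_rate hR (finProdFinEquiv (m := 3) (n := m)) hfam hcA hcB hcC hM1
  rw [Fintype.card_fun, Fintype.card_fin, Fintype.card_coe] at hbound
  -- packing
  obtain ⟨s0, hs0⟩ := hJ0
  have hpack : q * q ≤ Nat.card (Fin 3 × Fin m → G) := by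
    have h1 := hfam.card_mul_le (fun _ => ⟨s0, hs0⟩)
      (card_pos.1 (lt_of_lt_of_eq hq0 (hcC fun _ => ⟨s0, hs0⟩).symm))
    have h2 := hcA fun _ => ⟨s0, hs0⟩
    have h3 := hcB fun _ => ⟨s0, hs0⟩
    refine le_trans (le_of_eq ?_) h1
    exact (congrArg₂ (· * ·) h2 h3).symm
  have hpack' : (q : ℝ) * q ≤ (Nat.card G : ℝ) ^ (3 * m) := by
    rw [← hHcard]
    exact_mod_cast hpack
  have hg1 : (1 : ℝ) ≤ Nat.card G := by
    have : 0 < Nat.card G := Nat.card_pos
    exact_mod_cast this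
  have hg0 : (0 : ℝ) < Nat.card G := by linarith
  set t : ℝ := -(18 * Real.log (Λ / Nat.card G)) with ht
  have hlam : Real.exp (-t / 18) = Λ / Nat.card G := by
    rw [ht]
    rw [show -(-(18 * Real.log (Λ / Nat.card G))) / 18 = Real.log (Λ / Nat.card G) by ring]
    exact Real.exp_log (by positivity)
  rw [← hlam]
  refine numeric hg1 hq0 hMpos hMq hqM hS hτ hpack' hν ?_
  refine le_trans (le_of_eq ?_) (hbound.trans (le_of_eq ?_))
  · push_cast
    rfl
  · have h7 : Real.exp (-(3 * m * t) / 18) = Real.exp (-t / 18) ^ (3 * m) := by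
      rw [← Real.exp_nat_mul]
      congr 1
      push_cast
      ring
    rw [h7, hlam, ← mul_pow, mul_div_cancel₀ _ hg0.ne']

theorem stE : StE := by
  intro G _ _ Λ hΛ hR I _ A B C hST τ hτ
  have h := hST.key
  set S := ∑ i, ((A i).card * (B i).card * (C i).card : ℝ) ^ (τ / 3) with hS
  set R := (Nat.card G : ℝ) ^ (τ / 2) * (Λ / Nat.card G) with hRdef
  have hg0 : (0 : ℝ) < Nat.card G := by exact_mod_cast (Nat.card_pos (α := G))
  have hR0 : 0 < R := by positivity
  have hS00 : 0 ≤ S := sum_nonneg fun i _ => by positivity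
  rcases hS00.eq_or_lt with hS0 | hS0
  · rw [← hS0]
    exact hR0.le
  · have h1 : S / R ≤ 1 := by
      refine le_one_of_subexp (c := 4 * √(3 / 2 * Real.log (Nat.card G)))
        (k := 3 * Fintype.card I) (div_nonneg hS0.le hR0.le)
        (mul_nonneg (by norm_num) (Real.sqrt_nonneg _)) fun m => ?_
      rw [div_pow, div_le_iff₀ (pow_pos hR0 _)]
      exact power_bound_rate hΛ hR h hτ hS0 m
    rwa [div_le_one hR0] at h1

end Pool.Agent.L0h35.Sv
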