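import Pool.Agent.L0h35.SvDefs

set_option autoImplicit false

/-!
# The matching bound from a chain
-/

namespace Pool.Agent.L0h35.Sv

open Finset Module

namespace SF

variable {G : Type} [Group G] {n : ℕ}

/-- the power of a subgroup -/
def pw (n : ℕ) (K : Subgroup G) : Subgroup (Fin n → G) := Subgroup.pi Set.univ (fun _ => K)

lemma mem_pw {K : Subgroup G} {f : Fin n → G} : f ∈ pw n K ↔ ∀ t, f t ∈ K := by
  unfold pw
  rw [Subgroup.mem_pi]
  simp

lemma card_pw (K : Subgroup G) : Nat.card (pw n K) = Nat.card K ^ n := by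
  have e : pw n K ≃ (Fin n → K) :=
    { toFun := fun f t => ⟨f.1 t, mem_pw.1 f.2 t⟩
      invFun := fun f => ⟨fun t => (f t).1, mem_pw.2 fun t => (f t).2⟩
      left_inv := fun f => rfl
      right_inv := fun f => rfl }
  rw [Nat.card_congr e, Nat.card_fun, Nat.card_eq_fintype_card (α := Fin n), Fintype.card_fin]

lemma pw_normal {K : Subgroup G} (h : K.Normal) : (pw n K).Normal :=
  ⟨fun f hf g => mem_pw.2 fun t => h.conj_mem (f t) (mem_pw.1 hf t) (g t)⟩

lemma pw_mono {K K' : Subgroup G} (h : K ≤ K') : pw n K ≤ pw n K' :=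
  fun _ hf => mem_pw.2 fun t => h (mem_pw.1 hf t)

lemma pw_comm {K K' K'' : Subgroup G} (h : ⁅K, K'⁆ ≤ K'') : ⁅pw n K, pw n K'⁆ ≤ pw n K'' := by
  rw [Subgroup.commutator_le]
  intro f hf g hg
  exact mem_pw.2 fun t =>
    h (Subgroup.commutator_mem_commutator (mem_pw.1 hf t) (mem_pw.1 hg t))

lemma pw_bot : pw n (⊥ : Subgroup G) = ⊥ := by
  ext f
  rw [mem_pw, Subgroup.mem_bot]
  simp [Subgroup.mem_bot, funext_iff]

lemma chain_pw {p : ℕ} {H : Subgroup G} {L : ℕ} {C : ℕ → Subgroup G} (h : Chain p H L C) :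
    Chain p (pw n H) L (fun i => pw n (C i)) := by
  obtain ⟨h1, h2, h3, h4, h5, h6⟩ := h
  refine ⟨?_, ?_, fun i => pw_normal (h3 i), fun i => pw_mono (h4 i),
    fun i c hc => mem_pw.2 fun t => h5 i _ (mem_pw.1 hc t), fun i => pw_comm (h6 i)⟩
  · simp only [h1]
  · simp only [h2, pw_bot]

/-- the product of the `h - 1` -/
noncomputable def PL (F : Type) [Field F] (l : List G) : MonoidAlgebra F G :=
  (l.map fun h => MonoidAlgebra.of F G h - 1).prod

lemma PL_cons (F : Type) [Field F] (h : G) (l : List G) :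
    PL F (h :: l) = (MonoidAlgebra.of F G h - 1) * PL F l := by
  unfold PL
  rw [List.map_cons, List.prod_cons]

lemma PL_append (F : Type) [Field F] (l l' : List G) : PL F (l ++ l') = PL F l * PL F l' := by
  unfold PL
  rw [List.map_append, List.prod_append]

lemma PL_mul_of (F : Type) [Field F] (l : List G) (g : G) :
    PL F l * MonoidAlgebra.of F G g =
      MonoidAlgebra.of F G g * PL F (l.map fun h => g⁻¹ * h * g) := by
  induction l with
  | nil => simp [PL]
  | cons h t ih =>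
    rw [List.map_cons, PL_cons, PL_cons, mul_assoc, ih, ← mul_assoc, ← mul_assoc]
    congr 1
    rw [sub_mul, mul_sub, one_mul, mul_one, ← map_mul, ← map_mul]
    congr 2
    group

lemma aug_mul (F : Type) [Field F] {H : Subgroup G} (hH : H.Normal) {a b : ℕ} :
    Aug F G H a * Aug F G H b ≤ Aug F G H (a + b) := by
  unfold Aug
  rw [Submodule.span_mul_span, Submodule.span_le]
  rintro _ ⟨_, ⟨g, l, h1, h2, rfl⟩, _, ⟨g', l', h1', h2', rfl⟩, rfl⟩
  apply Submodule.subset_span
  refine ⟨g * g', l.map (fun h => g'⁻¹ * h * g') ++ l', ?_, ?_, ?_⟩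
  · rw [List.length_append, List.length_map, h1, h1']
  · intro h hh
    rw [List.mem_append, List.mem_map] at hh
    rcases hh with ⟨h0, hh0, rfl⟩ | hh
    · have := hH.conj_mem h0 (h2 h0 hh0) g'⁻¹
      rwa [inv_inv] at this
    · exact h2' h hh
  · have e1 := PL_mul_of F l g'
    have e2 := PL_append F (l.map (fun h => g'⁻¹ * h * g')) l'
    unfold PL at e1 e2
    rw [e2, map_mul]
    calc MonoidAlgebra.of F G g * (l.map fun h => MonoidAlgebra.of F G h - 1).prod *
          (MonoidAlgebra.of F G g' * (l'.map fun h => MonoidAlgebra.of F G h - 1).prod) =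
        MonoidAlgebra.of F G g * ((l.map fun h => MonoidAlgebra.of F G h - 1).prod *
          MonoidAlgebra.of F G g') * (l'.map fun h => MonoidAlgebra.of F G h - 1).prod := by
          simp only [mul_assoc]
      _ = _ := by
          rw [e1]
          simp only [mul_assoc]

lemma aug_zero (F : Type) [Field F] {H : Subgroup G} {M : ℕ}
    (h : ∀ l : List G, l.length = M → (∀ h ∈ l, h ∈ H) →
      (l.map fun h => MonoidAlgebra.of F G h - 1).prod = 0) {x : MonoidAlgebra F G}
    (hx : x ∈ Aug F G H M) : x = 0 := by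
  have h1 : Aug F G H M ≤ ⊥ := by
    unfold Aug
    rw [Submodule.span_le]
    rintro _ ⟨g, l, h1, h2, rfl⟩
    rw [h l h1 h2, mul_zero]
    exact Submodule.zero_mem _
  exact (Submodule.mem_bot F).1 (h1 hx)

/-- the coefficient of `1` -/
noncomputable def lam1 (F : Type) [Field F] (G : Type) [Group G] : MonoidAlgebra F G →ₗ[F] F :=
  (Finsupp.lapply (1 : G)).comp (MonoidAlgebra.coeffLinearEquiv F).toLinearMap

lemma lam1_of (F : Type) [Field F] (g : G) [Decidable (g = 1)] :
    lam1 F G (MonoidAlgebra.of F G g) = if g = 1 then 1 else 0 := by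
  classical
  have h1 : lam1 F G (MonoidAlgebra.of F G g) = (Finsupp.single g (1 : F)) 1 := rfl
  rw [h1, Finsupp.single_apply]

omit [Group G] in
lemma finrank_MA (F : Type) [Field F] [Finite G] :
    finrank F (MonoidAlgebra F G) = Nat.card G :=
  finrank_eq_nat_card_basis (MonoidAlgebra.basis G F)

end SF

open SF

theorem stF_of (hA : StA) (hC : StC) (hD : StD) (hN : StN) : StF := by
  intro p _ G _ _ H L C hch d hd hsum n I _ x y z hm
  classical
  have hch' := chain_pw (n := n) hch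
  have hcard' : ∀ i < L + 1, Nat.card (pw n (C i)) =
      p ^ (n * d i) * Nat.card (pw n (C (i + 1))) := by
    intro i hi
    rw [card_pw, card_pw, hd i hi, mul_pow, ← pow_mul, mul_comm n]
  obtain ⟨S, hS⟩ : ∃ S, S = ∑ i ∈ range L, (2 * p) ^ (i + 1) * d (i + 1) := ⟨_, rfl⟩
  rw [← hS] at hsum
  obtain ⟨D, hDd⟩ : ∃ D, D = (p - 1) * (n * (d 0 + S)) := ⟨_, rfl⟩
  have hD0 : (p - 1) * ∑ i ∈ range (L + 1), (2 * p) ^ i * (n * d i) = D := by
    rw [hDd, sum_range_succ', pow_zero, one_mul, hS]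
    congr 1
    rw [mul_add, mul_sum, add_comm]
    congr 1
    refine sum_congr rfl fun i _ => ?_
    ring
  obtain ⟨m, hmd⟩ : ∃ m, m = D / 3 + 1 := ⟨_, rfl⟩
  have hDm : D < m + m + m := by omega
  have h20 : 20 * m ≤ 7 * (p - 1) * (n * d 0) + 20 := by
    have h1 : 20 * D ≤ 21 * ((p - 1) * (n * d 0)) := by
      calc 20 * D = (p - 1) * (n * (20 * d 0 + 20 * S)) := by rw [hDd]; ring
        _ ≤ (p - 1) * (n * (20 * d 0 + d 0)) := by gcongr
        _ = _ := by ring
    have h3 : 7 * (p - 1) * (n * d 0) = 7 * ((p - 1) * (n * d 0)) := by ring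
    rw [h3]
    omega
  have hHn : (pw n H).Normal := by
    rw [← hch.1]
    exact pw_normal (hch.2.2.1 0)
  have hfd : FiniteDimensional (ZMod p) (MonoidAlgebra (ZMod p) (Fin n → G)) :=
    (MonoidAlgebra.basis (Fin n → G) (ZMod p)).finiteDimensional_of_finite
  -- the slice rank bound
  have hcube : ∀ a ∈ Aug (ZMod p) (Fin n → G) (pw n H) m,
      ∀ b ∈ Aug (ZMod p) (Fin n → G) (pw n H) m,
      ∀ c ∈ Aug (ZMod p) (Fin n → G) (pw n H) m, a * b * c = 0 := by
    intro a ha b hb c hc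
    have h1 : a * b * c ∈ Aug (ZMod p) (Fin n → G) (pw n H) (m + m + m) :=
      aug_mul (ZMod p) hHn (Submodule.mul_mem_mul
        (aug_mul (ZMod p) hHn (Submodule.mul_mem_mul ha hb)) hc)
    refine aug_zero (ZMod p) (fun l hl hlH => ?_) h1
    exact hC p (Fin n → G) (pw n H) (L + 1) _ hch' (fun i => n * d i) hcard' l hlH (by
      rw [hD0, hl]
      exact hDm)
  have hlam : ∀ g : Fin n → G, lam1 (ZMod p) (Fin n → G) (MonoidAlgebra.of (ZMod p) _ g) =
      if g = 1 then 1 else 0 := fun g => lam1_of (ZMod p) g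
  have hAr := hA (ZMod p) (MonoidAlgebra (ZMod p) (Fin n → G))
    (Aug (ZMod p) (Fin n → G) (pw n H) m) hcube (lam1 (ZMod p) (Fin n → G)) I
    (fun i => MonoidAlgebra.of (ZMod p) _ (x i)) (fun i => MonoidAlgebra.of (ZMod p) _ (y i))
    (fun i => MonoidAlgebra.of (ZMod p) _ (z i))
    (fun i j l h => by
      rw [← map_mul, ← map_mul, hlam, if_pos ((hm i j l).2 h)])
    (fun i j l h => by
      rw [← map_mul, ← map_mul, hlam, if_neg (fun h1 => h ((hm i j l).1 h1))])
  rw [finrank_MA] at hAr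
  -- the codimension
  have hDr := hD p (Fin n → G) (pw n H) (pw n (C 1)) hHn (pw_normal (hch.2.2.1 1))
    (pw_mono (by
      have := hch.2.2.2.1 0
      rwa [hch.1] at this))
    (pw_comm (by
      have := hch.2.2.2.2.2 0
      rwa [hch.1] at this))
    (fun h hh => mem_pw.2 fun t => by
      have := hch.2.2.2.2.1 0 (h t) (by
        rw [hch.1]
        exact mem_pw.1 hh t)
      exact this)
    (n * d 0) (by
      have := hcard' 0 (by omega)
      simpa only [hch.1] using this) m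
  have hNr := hN p (n * d 0) m h20
  -- the conclusion
  obtain ⟨f, hf⟩ : ∃ f, f = finrank (ZMod p) (Aug (ZMod p) (Fin n → G) (pw n H) m) := ⟨_, rfl⟩
  obtain ⟨c, hc⟩ : ∃ c, c = (univ.filter fun a : Fin (n * d 0) → Fin p =>
    ∑ k, (a k : ℕ) < m).card := ⟨_, rfl⟩
  rw [← hf] at hAr hDr
  rw [← hc] at hDr hNr
  have hG : Nat.card (Fin n → G) = Nat.card G ^ n := by
    rw [Nat.card_fun, Nat.card_eq_fintype_card (α := Fin n), Fintype.card_fin]
  rw [hG] at hAr hDr
  have hA' : (Fintype.card I : ℝ) + 3 * f ≤ 3 * (Nat.card G : ℝ) ^ n := by exact_mod_cast hAr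
  have hD' : (p : ℝ) ^ (n * d 0) * (Nat.card G : ℝ) ^ n ≤
      (p : ℝ) ^ (n * d 0) * f + (Nat.card G : ℝ) ^ n * c := by exact_mod_cast hDr
  have hp0 : (0 : ℝ) < (p : ℝ) ^ (n * d 0) := by
    have : 0 < p := (Fact.out : p.Prime).pos
    positivity
  have h1 : (Nat.card G : ℝ) ^ n * c ≤ (Nat.card G : ℝ) ^ n *
      ((p : ℝ) ^ (n * d 0) * Real.exp (-((n * d 0 : ℕ) : ℝ) / 25)) :=
    mul_le_mul_of_nonneg_left hNr (by positivity)
  have h2 : (p : ℝ) ^ (n * d 0) * ((Nat.card G : ℝ) ^ n - f) ≤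
      (p : ℝ) ^ (n * d 0) * ((Nat.card G : ℝ) ^ n * Real.exp (-((n * d 0 : ℕ) : ℝ) / 25)) := by
    nlinarith [h1, hD']
  have h3 := le_of_mul_le_mul_left h2 hp0
  have h4 : ((Nat.card G : ℝ) * Real.exp (-(d 0 : ℝ) / 25)) ^ n =
      (Nat.card G : ℝ) ^ n * Real.exp (-((n * d 0 : ℕ) : ℝ) / 25) := by
    rw [mul_pow, ← Real.exp_nat_mul]
    congr 2
    push_cast
    ring
  rw [h4]
  linarith

end Pool.Agent.L0h35.Sv
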