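import Pool.Agent.L0h35.SvDefs
import Mathlib

set_option autoImplicit false

/-!
# Two norms have a common adapted basis
-/

namespace Pool.Agent.L0h35.Sv

open Finset Module

section

variable {F : Type} [Field F] {V : Type} [AddCommGroup V] [Module F V]

/-- The open ball of radius given by `x`, as a submodule. -/
def ballSub (w : V → ℝ) (hw : IsNm F w) (r : ℝ) : Submodule F V where
  carrier := {v | v = 0 ∨ r < w v}
  add_mem' := by
    rintro a b ha hb
    simp only [Set.mem_setOf_eq] at ha hb ⊢
    rcases ha with ha | ha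
    · rcases hb with hb | hb
      · left; rw [ha, hb, add_zero]
      · right; rw [ha, zero_add]; exact hb
    · rcases hb with hb | hb
      · right; rw [hb, add_zero]; exact ha
      · right; exact lt_of_lt_of_le (lt_min ha hb) (hw.2.2.1 a b)
  zero_mem' := by left; rfl
  smul_mem' := by
    rintro c v hv
    simp only [Set.mem_setOf_eq] at hv ⊢
    rcases hv with hv | hv
    · left; rw [hv, smul_zero]
    · right; exact lt_of_lt_of_le hv (hw.2.2.2 c v)

theorem mem_ballSub (w : V → ℝ) (hw : IsNm F w) (r : ℝ) (v : V) :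
    v ∈ ballSub w hw r ↔ v = 0 ∨ r < w v := Iff.rfl

theorem IsNm.smul_eq {w : V → ℝ} (hw : IsNm F w) {c : F} (hc : c ≠ 0) (v : V) :
    w (c • v) = w v := by
  apply le_antisymm
  · have := hw.2.2.2 c⁻¹ (c • v)
    rwa [smul_smul, inv_mul_cancel₀ hc, one_smul] at this
  · exact hw.2.2.2 c v

theorem IsNm.neg_eq {w : V → ℝ} (hw : IsNm F w) (v : V) : w (-v) = w v := by
  have : -v = (-1 : F) • v := by simp
  rw [this]; exact hw.smul_eq (by simp) v

theorem IsNm.restrict {w : V → ℝ} (hw : IsNm F w) (K : Submodule F V) :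
    IsNm F (fun v : K => w v) := by
  refine ⟨fun v => hw.1 _, ?_, fun u v => ?_, fun c v => ?_⟩
  · simpa using hw.2.1
  · simpa using hw.2.2.1 (u : V) v
  · simpa using hw.2.2.2 c (v : V)

/-- The maximality of `x` gives that it is not in the sum of the two balls. -/
theorem notMem_sup_balls (w₀ w₁ : V → ℝ) (h₀ : IsNm F w₀) (h₁ : IsNm F w₁) (x : V)
    (hx : x ≠ 0) (hmax : ∀ y, y ≠ 0 → w₀ y - w₁ y ≤ w₀ x - w₁ x) :
    x ∉ ballSub w₀ h₀ (w₀ x) ⊔ ballSub w₁ h₁ (w₁ x) := by
  intro hmem
  obtain ⟨u, hu, v, hv, huv⟩ := Submodule.mem_sup.1 hmem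
  rw [mem_ballSub] at hu hv
  rcases hu with hu | hu
  · rw [hu, zero_add] at huv
    rcases hv with hv | hv
    · exact hx (huv ▸ hv)
    · rw [huv] at hv; exact lt_irrefl _ hv
  · rcases hv with hv | hv
    · rw [hv, add_zero] at huv
      rw [huv] at hu; exact lt_irrefl _ hu
    · have hu0 : u ≠ 0 := by
        intro hu0
        rw [hu0, zero_add] at huv
        rw [huv] at hv; exact lt_irrefl _ hv
      have h1 : w₁ u = w₁ x := by
        apply le_antisymm
        · by_contra hlt
          push Not at hlt
          have := h₁.2.2.1 u v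
          rw [huv] at this
          exact absurd (lt_of_lt_of_le (lt_min hlt hv) this) (lt_irrefl _)
        · have h2 : u = x + (-v) := by rw [← huv]; abel
          have := h₁.2.2.1 x (-v)
          rw [← h2, h₁.neg_eq, min_eq_left hv.le] at this
          exact this
      have := hmax u hu0
      linarith

theorem stH1_aux (F : Type) [Field F] (n : ℕ) : ∀ (V : Type) [AddCommGroup V] [Module F V] [Finite V]
    (w₀ w₁ : V → ℝ), IsNm F w₀ → IsNm F w₁ → finrank F V = n →
    ∃ b : Basis (Fin n) F V, Adapted w₀ b ∧ Adapted w₁ b := by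
  induction n with
  | zero =>
    intro V _ _ _ w₀ w₁ _ _ hn
    haveI : FiniteDimensional F V := Module.Finite.of_finite
    haveI : Subsingleton V := finrank_zero_iff.1 hn
    refine ⟨Basis.empty V, fun v k => k.elim0, fun v k => k.elim0⟩
  | succ n ih =>
    intro V _ _ _ w₀ w₁ h₀ h₁ hn
    haveI : FiniteDimensional F V := Module.Finite.of_finite
    haveI : Nontrivial V := nontrivial_of_finrank_pos (R := F) (by omega)
    obtain ⟨x₀, hx₀⟩ := exists_ne (0 : V)
    obtain ⟨x, hx, hmax⟩ := Set.exists_max_image {y : V | y ≠ 0} (fun y => w₀ y - w₁ y)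
      (Set.toFinite _) ⟨x₀, hx₀⟩
    have hx : x ≠ 0 := hx
    have hnot := notMem_sup_balls w₀ w₁ h₀ h₁ x hx (fun y hy => hmax y hy)
    obtain ⟨f, hfx, hf⟩ := Submodule.exists_dual_map_eq_bot_of_notMem hnot inferInstance
    have hf0 : ∀ v, v ≠ 0 → w₀ x < w₀ v → f v = 0 := by
      intro v hv hlt
      have : v ∈ ballSub w₀ h₀ (w₀ x) ⊔ ballSub w₁ h₁ (w₁ x) :=
        Submodule.mem_sup_left ((mem_ballSub w₀ h₀ _ _).2 (Or.inr hlt))
      have := Submodule.mem_map_of_mem (f := f) this
      rw [hf] at this
      simpa using this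
    have hf1 : ∀ v, v ≠ 0 → w₁ x < w₁ v → f v = 0 := by
      intro v hv hlt
      have : v ∈ ballSub w₀ h₀ (w₀ x) ⊔ ballSub w₁ h₁ (w₁ x) :=
        Submodule.mem_sup_right ((mem_ballSub w₁ h₁ _ _).2 (Or.inr hlt))
      have := Submodule.mem_map_of_mem (f := f) this
      rw [hf] at this
      simpa using this
    have hker : finrank F (LinearMap.ker f) = n := by
      have h1 := LinearMap.finrank_range_add_finrank_ker f
      have h2 : LinearMap.range f = ⊤ := by
        apply LinearMap.range_eq_top.2
        intro c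
        refine ⟨(c / f x) • x, ?_⟩
        simp [hfx]
      rw [h2, finrank_top, finrank_self, hn] at h1
      omega
    obtain ⟨b', hb0, hb1⟩ := ih (LinearMap.ker f) (fun v => w₀ v) (fun v => w₁ v)
      (h₀.restrict _) (h₁.restrict _) hker
    have hli : ∀ (c : F), ∀ y ∈ LinearMap.ker f, c • x + y = 0 → c = 0 := by
      intro c y hy h
      have := congrArg f h
      simp only [map_add, map_smul, smul_eq_mul, map_zero] at this
      rw [LinearMap.mem_ker.1 hy, add_zero] at this
      exact (mul_eq_zero.1 this).resolve_right hfx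
    have hsp : ∀ z : V, ∃ c : F, z + c • x ∈ LinearMap.ker f := by
      intro z
      refine ⟨-(f z / f x), ?_⟩
      rw [LinearMap.mem_ker]
      simp [hfx]
    let B : Basis (Fin (n + 1)) F V := Basis.mkFinCons x b' hli hsp
    have hB : ⇑B = Fin.cons x (fun k => (b' k : V)) := Basis.coe_mkFinCons x b' hli hsp
    have hB0 : B 0 = x := by rw [hB]; rfl
    have hBs : ∀ k, B (Fin.succ k) = (b' k : V) := by intro k; rw [hB]; rfl
    have hrepr : ∀ (c : F) (y : LinearMap.ker f), ∀ i,
        B.repr (c • x + (y : V)) i = (Fin.cons c (fun k => b'.repr y k) : Fin (n + 1) → F) i := by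
      intro c y i
      have h1 : c • x + (y : V) =
          ∑ i, (Fin.cons c (fun k => b'.repr y k) : Fin (n + 1) → F) i • B i := by
        rw [Fin.sum_univ_succ]
        simp only [Fin.cons_zero, Fin.cons_succ, hB0, hBs]
        congr 1
        have h2 := congrArg (fun z : LinearMap.ker f => (z : V)) (b'.sum_repr y)
        simp only [Submodule.coe_sum, Submodule.coe_smul] at h2
        exact h2.symm
      rw [h1, Basis.repr_sum_self]
    have key : ∀ w : V → ℝ, IsNm F w → (∀ v, v ≠ 0 → w x < w v → f v = 0) →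
        Adapted (fun v : LinearMap.ker f => w v) b' → Adapted w B := by
      intro w hw hwf hwb v k hk
      obtain ⟨c, hc⟩ := hsp v
      set y : LinearMap.ker f := ⟨v + c • x, hc⟩ with hy
      have hv : v = (-c) • x + (y : V) := by simp [hy]
      have hvx : c ≠ 0 → w v ≤ w x := by
        intro hc0
        by_contra hlt
        push Not at hlt
        have hv0 : v ≠ 0 := by
          intro hv0
          rw [hv0, zero_add] at hc
          have : f (c • x) = 0 := hc
          rw [map_smul, smul_eq_mul] at this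
          exact (mul_ne_zero hc0 hfx) this
        have h1 := hwf v hv0 hlt
        have h2 : f (v + c • x) = 0 := hc
        rw [map_add, h1, zero_add, map_smul, smul_eq_mul] at h2
        exact (mul_ne_zero hc0 hfx) h2
      rw [hv, hrepr] at hk
      refine Fin.cases ?_ ?_ k (motive := fun k => (Fin.cons (-c) (fun k => b'.repr y k) : Fin (n + 1) → F) k ≠ 0 → w v ≤ w (B k)) hk
      · intro h
        simp only [Fin.cons_zero, ne_eq, neg_eq_zero] at h
        rw [hB0]; exact hvx h
      · intro j h
        simp only [Fin.cons_succ] at h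
        rw [hBs]
        refine le_trans ?_ (hwb y j h)
        show w v ≤ w (v + c • x)
        refine le_trans ?_ (hw.2.2.1 v (c • x))
        refine le_min le_rfl ?_
        by_cases hc0 : c = 0
        · rw [hc0, zero_smul, hw.2.1]; exact hw.1 v
        · exact (hvx hc0).trans (hw.2.2.2 c x)
    exact ⟨B, key w₀ h₀ hf0 hb0, key w₁ h₁ hf1 hb1⟩

end

/-- Two norms have a common adapted basis. -/
theorem stH1 : StH1 := by
  intro F _ V _ _ _ w₀ w₁ h₀ h₁
  exact stH1_aux F (finrank F V) V w₀ w₁ h₀ h₁ rfl

end Pool.Agent.L0h35.Sv
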