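import Pool.Agent.L0h35.SvH1
import Mathlib

set_option autoImplicit false

/-!
# A large part of square zero can be chosen invariant
-/

namespace Pool.Agent.L0h35.Sv

open Finset Module

section Norms

variable {F : Type} [Field F] {V : Type} [AddCommGroup V] [Module F V]

theorem IsNm.le_sum {ι : Type} {w : V → ℝ} (hw : IsNm F w) (s : Finset ι) (f : ι → V) (t : ℝ)
    (ht : t ≤ 1) (h : ∀ k ∈ s, t ≤ w (f k)) : t ≤ w (∑ k ∈ s, f k) := by
  classical
  induction s using Finset.induction_on with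
  | empty => rw [Finset.sum_empty, hw.2.1]; exact ht
  | insert a s ha ih =>
    rw [Finset.sum_insert ha]
    exact (le_min (h a (mem_insert_self _ _))
      (ih fun k hk => h k (mem_insert_of_mem hk))).trans (hw.2.2.1 _ _)

theorem IsNm.le_of_repr {ι : Type} [Fintype ι] {w : V → ℝ} (hw : IsNm F w) (b : Basis ι F V)
    (v : V) (t : ℝ) (ht : t ≤ 1) (h : ∀ k, b.repr v k ≠ 0 → t ≤ w (b k)) : t ≤ w v := by
  have h1 : t ≤ w (∑ k, b.repr v k • b k) := by
    apply hw.le_sum _ _ _ ht
    intro k _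
    by_cases hk : b.repr v k = 0
    · rw [hk, zero_smul, hw.2.1]; exact ht
    · exact (h k hk).trans (hw.2.2.2 _ _)
  rwa [b.sum_repr v] at h1

open Classical in
/-- The norm with a given adapted basis and given values at the basis. -/
noncomputable def bnorm {n : ℕ} (b : Basis (Fin n) F V) (m : Fin n → ℝ) (v : V) : ℝ :=
  (univ : Finset (Option (Fin n))).inf' univ_nonempty
    (fun o => o.elim 1 (fun k => if b.repr v k = 0 then 1 else m k))

theorem le_bnorm {n : ℕ} (b : Basis (Fin n) F V) (m : Fin n → ℝ) (v : V) (t : ℝ) :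
    t ≤ bnorm b m v ↔ t ≤ 1 ∧ ∀ k, b.repr v k ≠ 0 → t ≤ m k := by
  unfold bnorm
  rw [Finset.le_inf'_iff]
  constructor
  · intro h
    refine ⟨by simpa using h none (mem_univ _), fun k hk => ?_⟩
    have := h (some k) (mem_univ _)
    simpa [hk] using this
  · rintro ⟨h1, h2⟩ o _
    cases o with
    | none => simpa using h1
    | some k =>
      by_cases hk : b.repr v k = 0
      · simpa [hk] using h1
      · simpa [hk] using h2 k hk

theorem isNm_bnorm {n : ℕ} (b : Basis (Fin n) F V) (m : Fin n → ℝ) : IsNm F (bnorm b m) := by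
  have hself : ∀ v, bnorm b m v ≤ 1 ∧ ∀ k, b.repr v k ≠ 0 → bnorm b m v ≤ m k := fun v =>
    (le_bnorm b m v _).1 le_rfl
  refine ⟨fun v => (hself v).1, le_antisymm (hself 0).1 ?_, fun u v => ?_, fun c v => ?_⟩
  · rw [le_bnorm]
    refine ⟨le_rfl, fun k hk => ?_⟩
    simp at hk
  · rw [le_bnorm]
    refine ⟨(min_le_left _ _).trans (hself u).1, fun k hk => ?_⟩
    by_cases hu : b.repr u k = 0
    · have hv : b.repr v k ≠ 0 := by
        intro hv
        apply hk
        simp [hu, hv]
      exact (min_le_right _ _).trans ((hself v).2 k hv)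
    · exact (min_le_left _ _).trans ((hself u).2 k hu)
  · rw [le_bnorm]
    refine ⟨(hself v).1, fun k hk => (hself v).2 k ?_⟩
    intro h
    apply hk
    simp [h]

theorem bnorm_basis {n : ℕ} (b : Basis (Fin n) F V) (m : Fin n → ℝ) (hm : ∀ k, m k ≤ 1)
    (k : Fin n) : bnorm b m (b k) = m k := by
  apply le_antisymm
  · exact ((le_bnorm b m (b k) _).1 le_rfl).2 k (by simp)
  · rw [le_bnorm]
    refine ⟨hm k, fun l hl => ?_⟩
    rw [b.repr_self, Finsupp.single_apply] at hl
    split_ifs at hl with h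
    · rw [h]
    · exact absurd rfl hl

theorem adapted_bnorm {n : ℕ} (b : Basis (Fin n) F V) (m : Fin n → ℝ) (hm : ∀ k, m k ≤ 1) :
    Adapted (bnorm b m) b := by
  intro v k hk
  rw [bnorm_basis b m hm]
  exact ((le_bnorm b m v _).1 le_rfl).2 k hk

theorem bnorm_nonneg {n : ℕ} (b : Basis (Fin n) F V) (m : Fin n → ℝ) (hm : ∀ k, 0 ≤ m k) (v : V) :
    0 ≤ bnorm b m v := by
  rw [le_bnorm]
  exact ⟨zero_le_one, fun k _ => hm k⟩

theorem eq_of_adapted {n : ℕ} {w w' : V → ℝ} (hw : IsNm F w) (hw' : IsNm F w')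
    (b : Basis (Fin n) F V) (hb : Adapted w b) (hb' : Adapted w' b)
    (h : ∀ k, w (b k) = w' (b k)) : w = w' := by
  funext v
  apply le_antisymm
  · apply hw'.le_of_repr b v _ (hw.1 v)
    intro k hk
    rw [← h k]; exact hb v k hk
  · apply hw.le_of_repr b v _ (hw'.1 v)
    intro k hk
    rw [h k]; exact hb' v k hk

/-- For two bases there is a permutation with nonzero coefficients. -/
theorem exists_perm {n : ℕ} (b b' : Basis (Fin n) F V) :
    ∃ s : Equiv.Perm (Fin n), ∀ k, b.repr (b' k) (s k) ≠ 0 := by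
  have h1 := b.isUnit_det b'
  have h2 : b.det b' ≠ 0 := h1.ne_zero
  rw [Basis.det_apply, Matrix.det_apply'] at h2
  obtain ⟨s, _, hs⟩ := Finset.exists_ne_zero_of_sum_ne_zero h2
  refine ⟨s, fun k hk => hs ?_⟩
  have : ∏ i, b.toMatrix b' (s i) i = 0 := Finset.prod_eq_zero (mem_univ k) hk
  rw [this, mul_zero]

theorem sum_le_of_adapted {n : ℕ} (φ : ℝ → ℝ) (w : V → ℝ)
    (hφ : ∀ u v : V, w u ≤ w v → φ (w u) ≤ φ (w v)) (b b' : Basis (Fin n) F V)
    (hb : Adapted w b) : ∑ k, φ (w (b' k)) ≤ ∑ k, φ (w (b k)) := by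
  obtain ⟨s, hs⟩ := exists_perm b b'
  calc ∑ k, φ (w (b' k)) ≤ ∑ k, φ (w (b (s k))) :=
        Finset.sum_le_sum fun k _ => hφ _ _ (hb _ _ (hs k))
    _ = ∑ k, φ (w (b k)) := Equiv.sum_comp s (fun k => φ (w (b k)))

end Norms

section Degree

variable (F : Type) [Field F] {X : Type} [AddCommGroup X] [Module F X]

local instance finite_basis {n : ℕ} [Finite X] : Finite (Basis (Fin n) F X) :=
  Finite.of_injective (fun b : Basis (Fin n) F X => (b : Fin n → X)) DFunLike.coe_injective

local instance nonempty_basis [Finite X] : Nonempty (Basis (Fin (finrank F X)) F X) :=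
  ⟨finBasis F X⟩

/-- The largest value of a sum over a basis. -/
noncomputable def dg (φ : ℝ → ℝ) (w : X → ℝ) : ℝ :=
  ⨆ b : Basis (Fin (finrank F X)) F X, ∑ k, φ (w (b k))

theorem le_dg [Finite X] (φ : ℝ → ℝ) (w : X → ℝ) (b : Basis (Fin (finrank F X)) F X) :
    ∑ k, φ (w (b k)) ≤ dg F φ w :=
  le_ciSup (f := fun b : Basis (Fin (finrank F X)) F X => ∑ k, φ (w (b k)))
    (Set.finite_range _).bddAbove b

theorem dg_le [Finite X] (φ : ℝ → ℝ) (w : X → ℝ) (c : ℝ)
    (h : ∀ b : Basis (Fin (finrank F X)) F X, ∑ k, φ (w (b k)) ≤ c) : dg F φ w ≤ c :=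
  ciSup_le h

theorem dg_eq [Finite X] (φ : ℝ → ℝ) (w : X → ℝ)
    (hφ : ∀ u v : X, w u ≤ w v → φ (w u) ≤ φ (w v)) (b : Basis (Fin (finrank F X)) F X)
    (hb : Adapted w b) : dg F φ w = ∑ k, φ (w (b k)) :=
  le_antisymm (dg_le F φ w _ fun b' => sum_le_of_adapted φ w hφ b b' hb) (le_dg F φ w b)

theorem continuous_dg [Finite X] {Y : Type} [TopologicalSpace Y] (φ : ℝ → ℝ) (hφ : Continuous φ)
    (w : Y → X → ℝ) (hw : ∀ x, Continuous fun y => w y x) :
    Continuous fun y => dg F φ (w y) := by
  classical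
  letI : Fintype (Basis (Fin (finrank F X)) F X) := Fintype.ofFinite _
  have h1 : (fun y => dg F φ (w y)) = fun y =>
      (univ : Finset (Basis (Fin (finrank F X)) F X)).sup' univ_nonempty
        (fun b => ∑ k, φ (w y (b k))) := by
    funext y
    rw [Finset.sup'_univ_eq_ciSup]
    rfl
  rw [h1]
  apply Continuous.finset_sup'_apply
  intro b _
  exact continuous_finsetSum _ fun k _ => hφ.comp (hw _)

end Degree

section Operators

variable {F : Type} [Field F] {V : Type} [AddCommGroup V] [Module F V] [Fintype V]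

open Classical in
/-- The norm of an operator. -/
noncomputable def al (w : V → ℝ) (a : Module.End F V) : ℝ :=
  (univ : Finset V).inf' univ_nonempty (fun v => if a v = 0 then 1 else w (a v) - w v)

theorem le_al (w : V → ℝ) (a : Module.End F V) (t : ℝ) :
    t ≤ al w a ↔ t ≤ 1 ∧ ∀ v, a v ≠ 0 → w v + t ≤ w (a v) := by
  unfold al
  rw [Finset.le_inf'_iff]
  constructor
  · intro h
    refine ⟨by simpa using h 0 (mem_univ _), fun v hv => ?_⟩
    have := h v (mem_univ _)
    rw [if_neg hv] at this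
    linarith
  · rintro ⟨h1, h2⟩ v _
    split_ifs with hv
    · exact h1
    · have := h2 v hv
      linarith

theorem isNm_al {w : V → ℝ} (hw : IsNm F w) : IsNm F (fun a : Module.End F V => al w a) := by
  have hself : ∀ a : Module.End F V, al w a ≤ 1 ∧ ∀ v, a v ≠ 0 → w v + al w a ≤ w (a v) :=
    fun a => (le_al w a _).1 le_rfl
  refine ⟨fun a => (hself a).1, le_antisymm (hself 0).1 ?_, fun a b => ?_, fun c a => ?_⟩
  · show 1 ≤ al w (0 : Module.End F V)
    rw [le_al]
    refine ⟨le_rfl, fun v hv => ?_⟩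
    simp at hv
  · show min (al w a) (al w b) ≤ al w (a + b)
    rw [le_al]
    refine ⟨(min_le_left _ _).trans (hself a).1, fun v hv => ?_⟩
    rw [LinearMap.add_apply] at hv ⊢
    by_cases ha : a v = 0
    · rw [ha, zero_add] at hv ⊢
      have := (hself b).2 v hv
      have h2 := min_le_right (al w a) (al w b)
      linarith
    · by_cases hb : b v = 0
      · rw [hb, add_zero]
        have := (hself a).2 v ha
        have h2 := min_le_left (al w a) (al w b)
        linarith
      · refine le_trans ?_ (hw.2.2.1 _ _)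
        have h1 := (hself a).2 v ha
        have h2 := (hself b).2 v hb
        have h3 := min_le_left (al w a) (al w b)
        have h4 := min_le_right (al w a) (al w b)
        refine le_min ?_ ?_ <;> linarith
  · show al w a ≤ al w (c • a)
    rw [le_al]
    refine ⟨(hself a).1, fun v hv => ?_⟩
    rw [LinearMap.smul_apply] at hv ⊢
    have ha : a v ≠ 0 := by
      intro ha
      rw [ha, smul_zero] at hv
      exact hv rfl
    exact ((hself a).2 v ha).trans (hw.2.2.2 _ _)

theorem continuous_al (a : Module.End F V) : Continuous fun w : V → ℝ => al w a := by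
  unfold al
  apply Continuous.finset_inf'_apply
  intro v _
  split_ifs
  · exact continuous_const
  · exact (continuous_apply _).sub (continuous_apply _)

/-- midpoint -/
theorem al_mid {n : ℕ} {w₀ w₁ : V → ℝ}
    (b : Basis (Fin n) F V) (hb₀ : Adapted w₀ b) (hb₁ : Adapted w₁ b)
    (h₀ : IsNm F w₀) (h₁ : IsNm F w₁) (a : Module.End F V) :
    (al w₀ a + al w₁ a) / 2 ≤ al (bnorm b fun k => (w₀ (b k) + w₁ (b k)) / 2) a := by
  set m : Fin n → ℝ := fun k => (w₀ (b k) + w₁ (b k)) / 2 with hm
  have hm1 : ∀ k, m k ≤ 1 := by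
    intro k
    have := h₀.1 (b k)
    have := h₁.1 (b k)
    simp only [hm]
    linarith
  have hs₀ := (le_al w₀ a _).1 le_rfl
  have hs₁ := (le_al w₁ a _).1 le_rfl
  have hN := isNm_bnorm b m
  rw [le_al]
  refine ⟨by linarith [hs₀.1, hs₁.1], fun v hv => ?_⟩
  -- value at the basis
  have key : ∀ k, a (b k) ≠ 0 → m k + (al w₀ a + al w₁ a) / 2 ≤ bnorm b m (a (b k)) := by
    intro k hk
    have e0 := hs₀.2 (b k) hk
    have e1 := hs₁.2 (b k) hk
    rw [le_bnorm]
    constructor
    · have := h₀.1 (a (b k))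
      have := h₁.1 (a (b k))
      simp only [hm]
      linarith
    · intro l hl
      have := hb₀ _ _ hl
      have := hb₁ _ _ hl
      simp only [hm]
      linarith
  have hvm : ∀ k, b.repr v k ≠ 0 → bnorm b m v ≤ m k :=
    ((le_bnorm b m v _).1 le_rfl).2
  have hav : a v = ∑ k, b.repr v k • a (b k) := by
    conv_lhs => rw [← b.sum_repr v]
    rw [map_sum]
    exact Finset.sum_congr rfl fun k _ => map_smul _ _ _
  have hle1 : bnorm b m v + (al w₀ a + al w₁ a) / 2 ≤ 1 := by
    have : ∃ k, b.repr v k • a (b k) ≠ 0 := by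
      by_contra hcon
      push Not at hcon
      apply hv
      rw [hav]
      exact Finset.sum_eq_zero fun k _ => hcon k
    obtain ⟨k, hk⟩ := this
    have hk1 : b.repr v k ≠ 0 := fun h => hk (by rw [h, zero_smul])
    have hk2 : a (b k) ≠ 0 := fun h => hk (by rw [h, smul_zero])
    have e1 := key k hk2
    have e2 := hvm k hk1
    have e3 := hN.1 (a (b k))
    linarith
  rw [hav]
  apply hN.le_sum _ _ _ hle1
  intro k _
  by_cases hk1 : b.repr v k = 0
  · rw [hk1, zero_smul, hN.2.1]; exact hle1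
  · by_cases hk2 : a (b k) = 0
    · rw [hk2, smul_zero, hN.2.1]; exact hle1
    · refine le_trans ?_ (hN.2.2.2 _ _)
      have e1 := key k hk2
      have e2 := hvm k hk1
      linarith

/-- The set of norms with values in `[0, 1]`. -/
def NSet (F : Type) [Field F] (V : Type) [AddCommGroup V] [Module F V] : Set (V → ℝ) :=
  {w | IsNm F w ∧ ∀ v, 0 ≤ w v}

omit [Fintype V] in
theorem isCompact_NSet : IsCompact (NSet F V) := by
  have h1 : NSet F V = (Set.univ.pi fun _ : V => Set.Icc (0 : ℝ) 1) ∩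
      ({w | w 0 = 1} ∩ ({w | ∀ u v, min (w u) (w v) ≤ w (u + v)} ∩
        {w | ∀ (c : F) (v : V), w v ≤ w (c • v)})) := by
    ext w
    constructor
    · rintro ⟨⟨h1, h2, h3, h4⟩, h5⟩
      exact ⟨fun v _ => ⟨h5 v, h1 v⟩, h2, h3, h4⟩
    · rintro ⟨h1, h2, h3, h4⟩
      exact ⟨⟨fun v => (h1 v trivial).2, h2, h3, h4⟩, fun v => (h1 v trivial).1⟩
  rw [h1]
  apply (isCompact_univ_pi fun _ => isCompact_Icc).inter_right
  apply IsClosed.inter
  · exact isClosed_eq (continuous_apply _) continuous_const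
  apply IsClosed.inter
  · have : {w : V → ℝ | ∀ u v, min (w u) (w v) ≤ w (u + v)} =
        ⋂ u, ⋂ v, {w : V → ℝ | min (w u) (w v) ≤ w (u + v)} := by
      ext w; simp
    rw [this]
    exact isClosed_iInter fun u => isClosed_iInter fun v =>
      isClosed_le ((continuous_apply u).min (continuous_apply v)) (continuous_apply (u + v))
  · have : {w : V → ℝ | ∀ (c : F) (v : V), w v ≤ w (c • v)} =
        ⋂ c : F, ⋂ v : V, {w : V → ℝ | w v ≤ w (c • v)} := by
      ext w; simp
    rw [this]
    exact isClosed_iInter fun u => isClosed_iInter fun v =>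
      isClosed_le (continuous_apply _) (continuous_apply _)

variable (𝒜 : Submodule F (Module.End F V))

/-- The function to be maximised. -/
noncomputable def Psi (w : V → ℝ) : ℝ :=
  dg F (fun t => t) (fun a : 𝒜 => al w (a : Module.End F V)) - dg F (fun t => t ^ 2) w

local instance finite_end : Finite (Module.End F V) := DFunLike.finite _

theorem continuous_Psi : Continuous fun w : V → ℝ => Psi 𝒜 w := by
  unfold Psi
  apply Continuous.sub
  · exact continuous_dg F (fun t => t) continuous_id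
      (fun (w : V → ℝ) (a : 𝒜) => al w (a : Module.End F V)) (fun a => continuous_al _)
  · exact continuous_dg F (fun t => t ^ 2) (by fun_prop)
      (fun (w : V → ℝ) (v : V) => w v) (fun v => continuous_apply _)

omit [Fintype V] in
/-- The norm given by a subspace. -/
theorem isNm_ind (T : Submodule F V) :
    ∃ w : V → ℝ, w ∈ NSet F V ∧ (∀ v ∈ T, w v = 1) ∧ ∀ v, v ∉ T → w v = 0 := by
  classical
  refine ⟨fun v => if v ∈ T then 1 else 0, ⟨⟨fun v => ?_, ?_, fun u v => ?_, fun c v => ?_⟩,
    fun v => ?_⟩, fun v hv => ?_, fun v hv => ?_⟩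
  · show (if v ∈ T then (1 : ℝ) else 0) ≤ 1
    split_ifs <;> norm_num
  · show (if (0 : V) ∈ T then (1 : ℝ) else 0) = 1
    rw [if_pos T.zero_mem]
  · show min (if u ∈ T then (1 : ℝ) else 0) (if v ∈ T then (1 : ℝ) else 0) ≤
      if u + v ∈ T then (1 : ℝ) else 0
    by_cases hu : u ∈ T
    · by_cases hv : v ∈ T
      · rw [if_pos (T.add_mem hu hv)]
        exact (min_le_left _ _).trans (by split_ifs <;> norm_num)
      · rw [if_neg hv]
        exact (min_le_right _ _).trans (by split_ifs <;> norm_num)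
    · rw [if_neg hu]
      exact (min_le_left _ _).trans (by split_ifs <;> norm_num)
  · show (if v ∈ T then (1 : ℝ) else 0) ≤ if c • v ∈ T then (1 : ℝ) else 0
    by_cases hv : v ∈ T
    · rw [if_pos hv, if_pos (T.smul_mem c hv)]
    · rw [if_neg hv]
      split_ifs <;> norm_num
  · show (0 : ℝ) ≤ if v ∈ T then (1 : ℝ) else 0
    split_ifs <;> norm_num
  · show (if v ∈ T then (1 : ℝ) else 0) = 1
    rw [if_pos hv]
  · show (if v ∈ T then (1 : ℝ) else 0) = 0
    rw [if_neg hv]

theorem dg_sq_eq {w : V → ℝ} (hw : w ∈ NSet F V) (b : Basis (Fin (finrank F V)) F V)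
    (hb : Adapted w b) : dg F (fun t => t ^ 2) w = ∑ k, w (b k) ^ 2 :=
  dg_eq F (fun t => t ^ 2) w (fun u v h => by
    show w u ^ 2 ≤ w v ^ 2
    have := hw.2 u
    nlinarith) b hb

/-- Uniqueness of the maximiser. -/
theorem unique_max (w₀ w₁ : V → ℝ) (h₀ : w₀ ∈ NSet F V) (h₁ : w₁ ∈ NSet F V)
    (hm₀ : ∀ w ∈ NSet F V, Psi 𝒜 w ≤ Psi 𝒜 w₀) (hm₁ : ∀ w ∈ NSet F V, Psi 𝒜 w ≤ Psi 𝒜 w₁) :
    w₀ = w₁ := by
  obtain ⟨b, hb₀, hb₁⟩ := stH1 F V w₀ w₁ h₀.1 h₁.1
  obtain ⟨a, ha₀, ha₁⟩ := stH1 F 𝒜 (fun x => al w₀ (x : Module.End F V))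
    (fun x => al w₁ (x : Module.End F V)) ((isNm_al h₀.1).restrict 𝒜) ((isNm_al h₁.1).restrict 𝒜)
  set m : Fin (finrank F V) → ℝ := fun k => (w₀ (b k) + w₁ (b k)) / 2 with hm
  have hm1 : ∀ k, m k ≤ 1 := by
    intro k
    have := h₀.1.1 (b k)
    have := h₁.1.1 (b k)
    simp only [hm]
    linarith
  have hm0 : ∀ k, 0 ≤ m k := by
    intro k
    have := h₀.2 (b k)
    have := h₁.2 (b k)
    simp only [hm]
    linarith
  have hw : bnorm b m ∈ NSet F V := ⟨isNm_bnorm b m, bnorm_nonneg b m hm0⟩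
  have e1 : dg F (fun t => t) (fun x : 𝒜 => al w₀ (x : Module.End F V)) =
      ∑ j, al w₀ ((a j : 𝒜) : Module.End F V) := dg_eq F (fun t => t) _ (fun u v h => h) a ha₀
  have e2 : dg F (fun t => t) (fun x : 𝒜 => al w₁ (x : Module.End F V)) =
      ∑ j, al w₁ ((a j : 𝒜) : Module.End F V) := dg_eq F (fun t => t) _ (fun u v h => h) a ha₁
  have e3 : ∑ j, al (bnorm b m) ((a j : 𝒜) : Module.End F V) ≤
      dg F (fun t => t) (fun x : 𝒜 => al (bnorm b m) (x : Module.End F V)) :=
    le_dg F (fun t => t) (fun x : 𝒜 => al (bnorm b m) (x : Module.End F V)) a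
  have e4 : ∑ j, (al w₀ ((a j : 𝒜) : Module.End F V) + al w₁ ((a j : 𝒜) : Module.End F V)) / 2 ≤
      ∑ j, al (bnorm b m) ((a j : 𝒜) : Module.End F V) :=
    Finset.sum_le_sum fun j _ => al_mid b hb₀ hb₁ h₀.1 h₁.1 _
  rw [← Finset.sum_div, Finset.sum_add_distrib] at e4
  have e5 := dg_sq_eq h₀ b hb₀
  have e6 := dg_sq_eq h₁ b hb₁
  have e7 := dg_sq_eq hw b (adapted_bnorm b m hm1)
  have e8 : ∑ k, bnorm b m (b k) ^ 2 = (∑ k, w₀ (b k) ^ 2) / 2 + (∑ k, w₁ (b k) ^ 2) / 2 -
      ∑ k, (w₀ (b k) - w₁ (b k)) ^ 2 / 4 := by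
    rw [Finset.sum_div, Finset.sum_div, ← Finset.sum_add_distrib, ← Finset.sum_sub_distrib]
    apply Finset.sum_congr rfl
    intro k _
    rw [bnorm_basis b m hm1]
    simp only [hm]
    ring
  have f0 := hm₀ _ hw
  have f1 := hm₁ _ hw
  unfold Psi at f0 f1
  rw [e1, e5, e7, e8] at f0
  rw [e2, e6, e7, e8] at f1
  have hsum : ∑ k, (w₀ (b k) - w₁ (b k)) ^ 2 / 4 ≤ 0 := by linarith
  have hz : ∀ k ∈ (univ : Finset (Fin (finrank F V))), (w₀ (b k) - w₁ (b k)) ^ 2 / 4 = 0 := by
    apply (Finset.sum_eq_zero_iff_of_nonneg fun k _ => by positivity).1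
    exact le_antisymm hsum (Finset.sum_nonneg fun k _ => by positivity)
  apply eq_of_adapted h₀.1 h₁.1 b hb₀ hb₁
  intro k
  have h5 := hz k (mem_univ k)
  have h6 : (w₀ (b k) - w₁ (b k)) ^ 2 = 0 := by linarith
  have h7 := pow_eq_zero_iff (two_ne_zero) |>.1 h6
  linarith

omit [Fintype V] in
theorem comp_mem_NSet {w : V → ℝ} (hw : w ∈ NSet F V) (g : V ≃ₗ[F] V) :
    (fun v => w (g v)) ∈ NSet F V := by
  obtain ⟨⟨h1, h2, h3, h4⟩, h5⟩ := hw
  refine ⟨⟨fun v => h1 _, ?_, fun u v => ?_, fun c v => ?_⟩, fun v => h5 _⟩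
  · show w (g 0) = 1
    rw [map_zero]; exact h2
  · show min (w (g u)) (w (g v)) ≤ w (g (u + v))
    rw [map_add]; exact h3 _ _
  · show w (g v) ≤ w (g (c • v))
    rw [map_smul]; exact h4 _ _

theorem al_comp (w : V → ℝ) (g : V ≃ₗ[F] V) (a : Module.End F V) :
    al (fun v => w (g v)) a = al w (g.conj a) := by
  apply eq_of_forall_le_iff
  intro t
  rw [le_al, le_al]
  apply and_congr Iff.rfl
  constructor
  · intro h v hv
    have h1 : a (g.symm v) ≠ 0 := by
      intro h1
      apply hv
      rw [LinearEquiv.conj_apply_apply, h1, map_zero]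
    have := h (g.symm v) h1
    rw [LinearEquiv.conj_apply_apply]
    rwa [LinearEquiv.apply_symm_apply] at this
  · intro h v hv
    have h1 : g.conj a (g v) ≠ 0 := by
      rw [LinearEquiv.conj_apply_apply, LinearEquiv.symm_apply_apply]
      intro h1
      exact hv ((LinearEquiv.map_eq_zero_iff g).1 h1)
    have := h (g v) h1
    rwa [LinearEquiv.conj_apply_apply, LinearEquiv.symm_apply_apply] at this

theorem Psi_comp (w : V → ℝ) (g : V ≃ₗ[F] V) (hg : ∀ a, g.conj a ∈ 𝒜 ↔ a ∈ 𝒜) :
    Psi 𝒜 w ≤ Psi 𝒜 (fun v => w (g v)) := by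
  unfold Psi
  apply sub_le_sub
  · apply dg_le
    intro a
    let e : 𝒜 ≃ₗ[F] 𝒜 := LinearEquiv.ofSubmodules g.conj.symm 𝒜 𝒜 (by
      ext x
      constructor
      · rintro ⟨y, hy, rfl⟩
        have : g.conj (g.conj.symm y) ∈ 𝒜 := by
          rw [LinearEquiv.apply_symm_apply]; exact hy
        exact (hg _).1 this
      · intro hx
        exact ⟨g.conj x, (hg _).2 hx, by simp⟩)
    have h1 := le_dg F (fun t => t) (fun x : 𝒜 => al (fun v => w (g v)) (x : Module.End F V))
      (a.map e)
    refine le_trans (le_of_eq ?_) h1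
    apply Finset.sum_congr rfl
    intro j _
    show al w ((a j : 𝒜) : Module.End F V) =
      al (fun v => w (g v)) (((a.map e) j : 𝒜) : Module.End F V)
    rw [al_comp]
    congr 1
    rw [Basis.map_apply]
    show _ = g.conj (g.conj.symm _)
    rw [LinearEquiv.apply_symm_apply]
    rfl
  · apply dg_le
    intro b
    have h1 := le_dg F (fun t => t ^ 2) w (b.map g)
    refine le_trans (le_of_eq ?_) h1
    apply Finset.sum_congr rfl
    intro j _
    rw [Basis.map_apply]

/-- the number of basis vectors in a subspace -/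
theorem card_basis_mem_le {X : Type} [AddCommGroup X] [Module F X] [FiniteDimensional F X]
    {n : ℕ} (b : Basis (Fin n) F X) (W : Submodule F X) (s : Finset (Fin n))
    (hs : ∀ k ∈ s, b k ∈ W) : s.card ≤ finrank F W := by
  have h1 : LinearIndependent F (fun k : s => (⟨b k, hs k k.2⟩ : W)) := by
    apply LinearIndependent.of_comp W.subtype
    exact b.linearIndependent.comp (fun k : s => (k : Fin n)) Subtype.coe_injective
  have h2 := h1.fintype_card_le_finrank
  simpa using h2

theorem finrank_le_card_basis_mem {X : Type} [AddCommGroup X] [Module F X] [FiniteDimensional F X]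
    {n : ℕ} (b : Basis (Fin n) F X) (W : Submodule F X) (s : Finset (Fin n))
    (hs : ∀ v ∈ W, ∀ k, b.repr v k ≠ 0 → k ∈ s) : finrank F W ≤ s.card := by
  classical
  have h1 : W ≤ Submodule.span F (((s.image b : Finset X)) : Set X) := by
    intro v hv
    rw [← b.sum_repr v]
    apply Submodule.sum_mem
    intro k _
    by_cases hk : b.repr v k = 0
    · rw [hk, zero_smul]; exact Submodule.zero_mem _
    · apply Submodule.smul_mem
      apply Submodule.subset_span
      exact Finset.mem_coe.2 (Finset.mem_image_of_mem _ (hs v hv k hk))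
  calc finrank F W ≤ finrank F (Submodule.span F (((s.image b : Finset X)) : Set X)) :=
        Submodule.finrank_mono h1
    _ ≤ (s.image b).card := finrank_span_finset_le_card _
    _ ≤ s.card := Finset.card_image_le

end Operators

/-- A large part of square zero can be chosen invariant. -/
theorem stH2 : StH2 := by
  intro F _ V _ _ _ 𝒜 D T₀ N₀ hN𝒜 hNT hT0 hdim
  classical
  letI : Fintype V := Fintype.ofFinite V
  have : FiniteDimensional F V := Module.Finite.of_finite
  have : Finite (Module.End F V) := finite_end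
  -- the norm of `T₀`
  obtain ⟨w₀, hw₀, hw₀1, hw₀0⟩ := isNm_ind (F := F) T₀
  obtain ⟨w, hw, hmax⟩ := (isCompact_NSet (F := F) (V := V)).exists_isMaxOn ⟨w₀, hw₀⟩
    (continuous_Psi 𝒜).continuousOn
  have hmax' : ∀ w' ∈ NSet F V, Psi 𝒜 w' ≤ Psi 𝒜 w := fun w' hw' => hmax hw'
  have hwself : ∀ a : Module.End F V, al w a ≤ 1 ∧ ∀ v, a v ≠ 0 → w v + al w a ≤ w (a v) :=
    fun a => (le_al w a _).1 le_rfl
  refine ⟨ballSub w hw.1 (1 / 2), ⟨𝒜 ⊓ ballSub (fun a : Module.End F V => al w a)
    (isNm_al hw.1) (1 / 2), inf_le_left, ?_, ?_, ?_⟩, ?_⟩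
  · -- maps to `T`
    intro a ha v
    rw [mem_ballSub]
    rcases ha.2 with h | h
    · left; rw [h]; rfl
    · by_cases hv : a v = 0
      · exact Or.inl hv
      · right
        have h1 := (hwself a).2 v hv
        have h2 := hw.2 v
        have h3 : 1 / 2 < al w a := h
        linarith
  · intro a ha v hv
    by_contra hav
    rcases hv with h0 | hv
    · exact hav (by rw [h0, map_zero])
    · rcases ha.2 with h | h
      · exact hav (by rw [h]; rfl)
      · have h1 := (hwself a).2 v hav
        have h2 := hw.1.1 (a v)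
        have h3 : 1 / 2 < al w a := h
        linarith
  · -- dimensions
    -- lower bound for `Psi w₀`
    have hlow : (finrank F 𝒜 : ℝ) - 2 * D - finrank F V ≤ Psi 𝒜 w₀ := by
      obtain ⟨χ, hχ, hχ1, hχ0⟩ := isNm_ind (F := F)
        (V := 𝒜) (Submodule.comap 𝒜.subtype N₀)
      obtain ⟨a, ha, -⟩ := stH1 F 𝒜 χ χ hχ.1 hχ.1
      set s : Finset (Fin (finrank F 𝒜)) := univ.filter fun j => ((a j : 𝒜) : Module.End F V) ∈ N₀
        with hs
      have hc1 : finrank F N₀ ≤ s.card := by
        have h1 : finrank F N₀ = finrank F (Submodule.comap 𝒜.subtype N₀) :=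
          (LinearEquiv.finrank_eq (Submodule.comapSubtypeEquivOfLe hN𝒜)).symm
        rw [h1]
        apply finrank_le_card_basis_mem a
        intro v hv k hk
        rw [hs, Finset.mem_filter]
        refine ⟨mem_univ _, ?_⟩
        by_contra hcon
        have h2 := ha v k hk
        rw [hχ1 v hv, hχ0 (a k) (fun h => hcon h)] at h2
        norm_num at h2
      have hal1 : ∀ x : Module.End F V, x ∈ N₀ → 1 ≤ al w₀ x := by
        intro x hx
        rw [le_al]
        refine ⟨le_rfl, fun v hv => ?_⟩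
        rw [hw₀1 _ (hNT x hx v), hw₀0 v (fun h => hv (hT0 x hx v h))]
        norm_num
      have halm : ∀ x : Module.End F V, -1 ≤ al w₀ x := by
        intro x
        rw [le_al]
        refine ⟨by norm_num, fun v _ => ?_⟩
        have h1 := hw₀.1.1 v
        have h2 := hw₀.2 (x v)
        linarith
      have hsum : (2 * s.card : ℝ) - finrank F 𝒜 ≤
          ∑ j, al w₀ ((a j : 𝒜) : Module.End F V) := by
        have h1 : ∀ j ∈ (univ : Finset (Fin (finrank F 𝒜))),
            (if j ∈ s then (2 : ℝ) else 0) - 1 ≤ al w₀ ((a j : 𝒜) : Module.End F V) := by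
          intro j _
          by_cases hj : j ∈ s
          · rw [if_pos hj]
            have := hal1 _ (Finset.mem_filter.1 hj).2
            linarith
          · rw [if_neg hj]
            have := halm ((a j : 𝒜) : Module.End F V)
            linarith
        have h2 := Finset.sum_le_sum h1
        rw [Finset.sum_sub_distrib, Finset.sum_ite_mem, Finset.univ_inter, Finset.sum_const,
          Finset.sum_const, Finset.card_univ, Fintype.card_fin] at h2
        simp only [nsmul_eq_mul, mul_one] at h2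
        linarith
      have hdg := le_dg F (fun t => t) (fun x : 𝒜 => al w₀ (x : Module.End F V)) a
      have hsq : dg F (fun t => t ^ 2) w₀ ≤ finrank F V := by
        apply dg_le
        intro b
        calc ∑ k, (fun t : ℝ => t ^ 2) (w₀ (b k)) ≤ ∑ _k : Fin (finrank F V), (1 : ℝ) := by
              apply Finset.sum_le_sum
              intro k _
              show w₀ (b k) ^ 2 ≤ 1
              have h1 := hw₀.1.1 (b k)
              have h2 := hw₀.2 (b k)
              nlinarith
          _ = finrank F V := by simp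
      have hc2 : (finrank F N₀ : ℝ) ≤ s.card := by exact_mod_cast hc1
      have hc3 : (finrank F 𝒜 : ℝ) ≤ finrank F N₀ + D := by exact_mod_cast hdim
      unfold Psi
      linarith
    have hPsi := hmax' w₀ hw₀
    obtain ⟨a, ha, -⟩ := stH1 F 𝒜 (fun x => al w (x : Module.End F V))
      (fun x => al w (x : Module.End F V)) ((isNm_al hw.1).restrict 𝒜) ((isNm_al hw.1).restrict 𝒜)
    have hdg : dg F (fun t => t) (fun x : 𝒜 => al w (x : Module.End F V)) =
      ∑ j, al w ((a j : 𝒜) : Module.End F V) := dg_eq F (fun t => t) _ (fun u v h => h) a ha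
    have hsq0 : 0 ≤ dg F (fun t => t ^ 2) w := by
      refine le_trans ?_ (le_dg F (fun t => t ^ 2) w (finBasis F V))
      exact Finset.sum_nonneg fun k _ => sq_nonneg _
    have hlow2 : (finrank F 𝒜 : ℝ) - 2 * D - finrank F V ≤
        ∑ j, al w ((a j : 𝒜) : Module.End F V) := by
      unfold Psi at hPsi hlow
      rw [hdg] at hPsi
      linarith
    set s : Finset (Fin (finrank F 𝒜)) := univ.filter fun j =>
      1 / 2 < al w ((a j : 𝒜) : Module.End F V) with hs
    set W : Submodule F (Module.End F V) := 𝒜 ⊓ ballSub (fun a : Module.End F V => al w a)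
      (isNm_al hw.1) (1 / 2) with hW
    have hc1 : s.card ≤ finrank F W := by
      have h1 : finrank F W = finrank F (Submodule.comap 𝒜.subtype W) :=
        (LinearEquiv.finrank_eq (Submodule.comapSubtypeEquivOfLe inf_le_left)).symm
      rw [h1]
      apply card_basis_mem_le a
      intro k hk
      exact ⟨(a k).2, Or.inr (Finset.mem_filter.1 hk).2⟩
    have hsum : ∑ j, al w ((a j : 𝒜) : Module.End F V) ≤
        (finrank F 𝒜 : ℝ) / 2 + s.card / 2 := by
      have h1 : ∀ j ∈ (univ : Finset (Fin (finrank F 𝒜))),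
          al w ((a j : 𝒜) : Module.End F V) ≤ 1 / 2 + if j ∈ s then (1 / 2 : ℝ) else 0 := by
        intro j _
        by_cases hj : j ∈ s
        · rw [if_pos hj]
          have := (hwself ((a j : 𝒜) : Module.End F V)).1
          linarith
        · rw [if_neg hj, add_zero]
          by_contra hcon
          push Not at hcon
          exact hj (Finset.mem_filter.2 ⟨mem_univ _, hcon⟩)
      have h2 := Finset.sum_le_sum h1
      rw [Finset.sum_add_distrib, Finset.sum_ite_mem, Finset.univ_inter, Finset.sum_const,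
        Finset.sum_const, Finset.card_univ, Fintype.card_fin] at h2
      simp only [nsmul_eq_mul] at h2
      linarith
    have hc2 : (s.card : ℝ) ≤ finrank F W := by exact_mod_cast hc1
    have hfin : (finrank F 𝒜 : ℝ) ≤ finrank F W + (4 * D + 2 * finrank F V) := by linarith
    exact_mod_cast hfin
  · -- invariance
    intro g hg
    have h1 := Psi_comp 𝒜 w g hg
    have h2 : (fun v => w (g v)) = w := by
      apply unique_max 𝒜 _ _ (comp_mem_NSet hw g) hw _ hmax'
      intro w' hw'
      exact (hmax' w' hw').trans h1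
    have h3 : ∀ v, w (g v) = w v := fun v => congrFun h2 v
    ext x
    constructor
    · rintro ⟨y, hy, rfl⟩
      have hy' : y = 0 ∨ 1 / 2 < w y := hy
      show g y = 0 ∨ 1 / 2 < w (g y)
      rw [h3]
      rcases hy' with h | h
      · left; rw [h, map_zero]
      · right; exact h
    · intro hx
      have hx' : x = 0 ∨ 1 / 2 < w x := hx
      refine ⟨g.symm x, ?_, by simp⟩
      show g.symm x = 0 ∨ 1 / 2 < w (g.symm x)
      have h4 := h3 (g.symm x)
      rw [LinearEquiv.apply_symm_apply] at h4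
      rw [← h4]
      rcases hx' with h | h
      · left; rw [h, map_zero]
      · right; exact h

end Pool.Agent.L0h35.Sv
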