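import Pool.Agent.L0h35.SvDefs
import Mathlib

set_option autoImplicit false

/-!
# The Sylow subgroups of an elementary abelian section
-/

namespace Pool.Agent.L0h35.Sv.ModL

open scoped commutatorElement

variable {G : Type} [Group G]

/-- the order of a subgroup that contains the kernel -/
lemma card_map_mk [Finite G] (V M : Subgroup G) [V.Normal] (h : V ≤ M) :
    Nat.card M = Nat.card (M.map (QuotientGroup.mk' V)) * Nat.card V := by
  set f : M →* G ⧸ V := (QuotientGroup.mk' V).comp M.subtype with hf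
  have h1 : f.range = M.map (QuotientGroup.mk' V) := by
    rw [hf, MonoidHom.range_comp, Subgroup.range_subtype]
  have h2 : f.ker = V.subgroupOf M := by
    ext x
    rw [MonoidHom.mem_ker, Subgroup.mem_subgroupOf, hf, MonoidHom.comp_apply,
      QuotientGroup.mk'_apply, QuotientGroup.eq_one_iff]
    rfl
  have h3 := Subgroup.card_mul_index f.ker
  rw [Subgroup.index_ker, h1, h2, Nat.card_congr (Subgroup.subgroupOfEquivOfLe h).toEquiv] at h3
  rw [← h3, mul_comm]

/-- the elements of `S` with `x ^ p` in `[S, S]` -/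
def PP (p : ℕ) (S : Subgroup G) [S.Normal] : Subgroup G where
  carrier := {x | x ∈ S ∧ x ^ p ∈ ⁅S, S⁆}
  one_mem' := ⟨S.one_mem, by rw [one_pow]; exact Subgroup.one_mem _⟩
  mul_mem' := by
    rintro x y ⟨hx, hx'⟩ ⟨hy, hy'⟩
    refine ⟨S.mul_mem hx hy, ?_⟩
    have h1 : Commute (QuotientGroup.mk' ⁅S, S⁆ x) (QuotientGroup.mk' ⁅S, S⁆ y) := by
      rw [commute_iff_eq, ← map_mul, ← map_mul, QuotientGroup.mk'_apply, QuotientGroup.mk'_apply,
        QuotientGroup.eq]
      have h2 : (x * y)⁻¹ * (y * x) = ⁅y⁻¹, x⁻¹⁆ := by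
        rw [commutatorElement_def]; group
      rw [h2]
      exact Subgroup.commutator_mem_commutator (S.inv_mem hy) (S.inv_mem hx)
    rw [← QuotientGroup.eq_one_iff, ← QuotientGroup.mk'_apply, map_pow, map_mul, h1.mul_pow,
      ← map_pow, ← map_pow]
    rw [← QuotientGroup.eq_one_iff, ← QuotientGroup.mk'_apply] at hx' hy'
    rw [hx', hy', one_mul]
  inv_mem' := by
    rintro x ⟨hx, hx'⟩
    refine ⟨S.inv_mem hx, ?_⟩
    rw [inv_pow]
    exact Subgroup.inv_mem _ hx'

lemma mem_PP {p : ℕ} {S : Subgroup G} [S.Normal] {x : G} :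
    x ∈ PP p S ↔ x ∈ S ∧ x ^ p ∈ ⁅S, S⁆ := Iff.rfl

lemma PP_normal (p : ℕ) (S : Subgroup G) [S.Normal] : (PP p S).Normal := by
  constructor
  rintro x ⟨hx, hx'⟩ g
  refine ⟨Subgroup.Normal.conj_mem inferInstance x hx g, ?_⟩
  rw [conj_pow]
  exact Subgroup.Normal.conj_mem inferInstance _ hx' g

/-- the number of elements -/
lemma card_PP [Finite G] (p : ℕ) (S M : Subgroup G) [S.Normal] (hM : ⁅S, S⁆ ≤ M)
    (hp : ∀ x ∈ S, x ^ p ∈ M) (r : ℕ) (hc : Nat.card S = p ^ r * Nat.card M) (hp0 : 0 < p) :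
    p ^ r * Nat.card (⁅S, S⁆ : Subgroup G) ≤ Nat.card (PP p S) := by
  have hcomm : ∀ x ∈ S, ∀ y ∈ S,
      Commute (QuotientGroup.mk' ⁅S, S⁆ x) (QuotientGroup.mk' ⁅S, S⁆ y) := by
    intro x hx y hy
    rw [commute_iff_eq, ← map_mul, ← map_mul, QuotientGroup.mk'_apply, QuotientGroup.mk'_apply,
      QuotientGroup.eq]
    have h2 : (x * y)⁻¹ * (y * x) = ⁅y⁻¹, x⁻¹⁆ := by
      rw [commutatorElement_def]; group
    rw [h2]
    exact Subgroup.commutator_mem_commutator (S.inv_mem hy) (S.inv_mem hx)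
  let F : S →* G ⧸ (⁅S, S⁆ : Subgroup G) :=
    { toFun := fun x => QuotientGroup.mk' ⁅S, S⁆ ((x : G) ^ p)
      map_one' := by
        rw [Subgroup.coe_one, one_pow, map_one]
      map_mul' := fun x y => by
        rw [Subgroup.coe_mul, map_pow, map_mul, (hcomm x x.2 y y.2).mul_pow, ← map_pow, ← map_pow] }
  have hF : ∀ x : S, F x = QuotientGroup.mk' ⁅S, S⁆ ((x : G) ^ p) := fun x => rfl
  have h1 : F.ker = (PP p S).subgroupOf S := by
    ext x
    rw [MonoidHom.mem_ker, Subgroup.mem_subgroupOf, mem_PP, hF, QuotientGroup.mk'_apply,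
      QuotientGroup.eq_one_iff]
    exact ⟨fun h => ⟨x.2, h⟩, fun h => h.2⟩
  have h2 : PP p S ≤ S := fun x hx => hx.1
  have h3 := Subgroup.card_mul_index F.ker
  rw [Subgroup.index_ker, h1, Nat.card_congr (Subgroup.subgroupOfEquivOfLe h2).toEquiv] at h3
  have h4 : F.range ≤ M.map (QuotientGroup.mk' ⁅S, S⁆) := by
    rintro _ ⟨x, rfl⟩
    exact ⟨(x : G) ^ p, hp x x.2, rfl⟩
  have h5 : Nat.card F.range ≤ Nat.card (M.map (QuotientGroup.mk' ⁅S, S⁆)) :=
    Nat.card_le_card_of_injective _ (Subgroup.inclusion_injective h4)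
  have h6 := card_map_mk ⁅S, S⁆ M hM
  have hM0 : 0 < Nat.card M := Nat.card_pos
  have h8 : Nat.card (PP p S) * Nat.card M ≥ p ^ r * Nat.card (⁅S, S⁆ : Subgroup G) * Nat.card M := by
    calc p ^ r * Nat.card (⁅S, S⁆ : Subgroup G) * Nat.card M
        = Nat.card S * Nat.card (⁅S, S⁆ : Subgroup G) := by rw [hc]; ring
      _ = Nat.card (PP p S) * Nat.card F.range * Nat.card (⁅S, S⁆ : Subgroup G) := by rw [h3]
      _ ≤ Nat.card (PP p S) * Nat.card (M.map (QuotientGroup.mk' ⁅S, S⁆)) *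
          Nat.card (⁅S, S⁆ : Subgroup G) := by gcongr
      _ = Nat.card (PP p S) * Nat.card M := by rw [h6]; ring
  exact Nat.le_of_mul_le_mul_right h8 hM0

lemma card_sup_mul [Finite G] (N S : Subgroup G) [N.Normal] :
    Nat.card (N ⊔ S : Subgroup G) * Nat.card (S ⊓ N : Subgroup G) = Nat.card N * Nat.card S := by
  have h1 : N.relIndex (S ⊔ N) = N.relIndex S := Subgroup.relIndex_sup_right _ _
  have h2 : Nat.card N * N.relIndex (S ⊔ N) = Nat.card (S ⊔ N : Subgroup G) := by
    have := Subgroup.card_mul_index (N.subgroupOf (S ⊔ N))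
    rw [Nat.card_congr (Subgroup.subgroupOfEquivOfLe (le_sup_right : N ≤ S ⊔ N)).toEquiv] at this
    exact this
  have h3 : Nat.card (S ⊓ N : Subgroup G) * N.relIndex S = Nat.card S := by
    have h4 := Subgroup.card_mul_index (N.subgroupOf S)
    have h5 : Nat.card (N.subgroupOf S) = Nat.card (S ⊓ N : Subgroup G) := by
      have h6 : N.subgroupOf S = (S ⊓ N).subgroupOf S := by
        ext x
        rw [Subgroup.mem_subgroupOf, Subgroup.mem_subgroupOf, Subgroup.mem_inf]
        exact ⟨fun h => ⟨x.2, h⟩, fun h => h.2⟩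
      rw [h6, Nat.card_congr (Subgroup.subgroupOfEquivOfLe (inf_le_left : S ⊓ N ≤ S)).toEquiv]
    rw [h5] at h4
    exact h4
  rw [sup_comm, ← h2, ← h3, h1]
  ring

end Pool.Agent.L0h35.Sv.ModL

namespace Pool.Agent.L0h35.Sv

open Pool.Agent.L0h35.Sv.ModL
open scoped commutatorElement

theorem stL : StL := by
  intro p _ G _ _ N R r hN hR hNR hp hRR hcard
  have hpp : p.Prime := Fact.out
  obtain ⟨S0⟩ : Nonempty (Sylow p R) := inferInstance
  set S : Subgroup G := (S0 : Subgroup R).map R.subtype with hS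
  have hSR : S ≤ R := by
    rw [hS]
    exact Subgroup.map_subtype_le _
  set K : Subgroup G := Subgroup.normalizer (S : Set G) with hK
  have hSK : S ≤ K := Subgroup.le_normalizer
  have hKR : K ⊔ R = ⊤ := Sylow.normalizer_sup_eq_top S0
  -- `R = N S`
  have hRle : N ⊔ S = R := by
    apply le_antisymm (sup_le hNR hSR)
    rw [← Subgroup.relIndex_eq_one]
    have h1 : (N ⊔ S).relIndex R ∣ N.relIndex R := Subgroup.relIndex_dvd_of_le_left _ le_sup_left
    have h2 : (N ⊔ S).relIndex R ∣ S.relIndex R := Subgroup.relIndex_dvd_of_le_left _ le_sup_right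
    have h3 : N.relIndex R = p ^ r := by
      have := Subgroup.card_mul_index (N.subgroupOf R)
      rw [Nat.card_congr (Subgroup.subgroupOfEquivOfLe hNR).toEquiv, hcard, mul_comm] at this
      exact Nat.eq_of_mul_eq_mul_right Nat.card_pos this
    have h4 : ¬ p ∣ S.relIndex R := by
      have h5 : S.subgroupOf R = (S0 : Subgroup R) := by
        rw [hS, Subgroup.subgroupOf, Subgroup.comap_map_eq_self_of_injective R.subtype_injective]
      unfold Subgroup.relIndex
      rw [h5]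
      exact S0.not_dvd_index
    rw [h3] at h1
    obtain ⟨k, -, hk⟩ := (Nat.dvd_prime_pow hpp).1 h1
    rw [hk] at h2 ⊢
    rcases Nat.eq_zero_or_pos k with rfl | hk0
    · rw [pow_zero]
    · exact absurd ((dvd_pow_self p hk0.ne').trans h2) h4
  have hKN : K ⊔ N = ⊤ := by
    rw [eq_top_iff, ← hKR, ← hRle]
    exact sup_le le_sup_left (sup_le le_sup_right (hSK.trans le_sup_left))
  -- the index of `K`
  have hidx : K.index ≤ Nat.card N := by
    have hsurj : Function.Surjective (fun x : N => (QuotientGroup.mk (x : G) : G ⧸ K)) := by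
      intro y
      obtain ⟨g, rfl⟩ := QuotientGroup.mk_surjective y
      have hg : g ∈ N ⊔ K := by rw [sup_comm, hKN]; trivial
      rw [← SetLike.mem_coe, Subgroup.normal_mul] at hg
      obtain ⟨x, hx, k, hk, rfl⟩ := Set.mem_mul.1 hg
      refine ⟨⟨x, hx⟩, ?_⟩
      show (QuotientGroup.mk x : G ⧸ K) = QuotientGroup.mk (x * k)
      rw [QuotientGroup.eq]
      simpa using hk
    exact Nat.card_le_card_of_surjective _ hsurj
  -- inside `K`
  haveI hS'n : (S.subgroupOf K).Normal := Subgroup.normal_in_normalizer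
  set S' : Subgroup K := S.subgroupOf K with hS'
  have hmapS' : S'.map K.subtype = S := Subgroup.map_subgroupOf_eq_of_le hSK
  set V : Subgroup K := ⁅S', S'⁆ with hV
  have hVmap : V.map K.subtype = ⁅S, S⁆ := by
    rw [hV, Subgroup.map_commutator, hmapS']
  have hSN : ⁅S, S⁆ ≤ N := (Subgroup.commutator_mono hSR hSR).trans hRR
  have hSp : IsPGroup p S := S0.isPGroup'.map R.subtype
  have hS'p : IsPGroup p S' := hSp.comap_subtype
  have hVS' : V ≤ S' := Subgroup.commutator_le_left _ _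
  have hPP : PP p S' ≤ S' := fun x hx => hx.1
  have hVP : V ≤ PP p S' := fun x hx => ⟨hVS' hx, Subgroup.pow_mem _ hx p⟩
  obtain ⟨s, hs⟩ := IsPGroup.iff_card.1 (hS'p.to_le hVS')
  obtain ⟨a, ha⟩ := IsPGroup.iff_card.1 (hS'p.to_le hPP)
  have hsa : s ≤ a := by
    have h1 := Subgroup.card_dvd_of_le hVP
    rw [hs, ha] at h1
    exact (Nat.pow_dvd_pow_iff_le_right hpp.one_lt).1 h1
  -- the count
  have hM : Nat.card S = p ^ r * Nat.card (S ⊓ N : Subgroup G) := by
    have h1 := card_sup_mul N S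
    rw [hRle, hcard] at h1
    have h2 : Nat.card N * (p ^ r * Nat.card (S ⊓ N : Subgroup G)) = Nat.card N * Nat.card S := by
      rw [← h1]; ring
    exact (Nat.eq_of_mul_eq_mul_left Nat.card_pos h2).symm
  have hcount : p ^ r * Nat.card V ≤ Nat.card (PP p S') := by
    refine card_PP p S' ((S ⊓ N).subgroupOf K) ?_ ?_ r ?_ hpp.pos
    · intro x hx
      rw [Subgroup.mem_subgroupOf, Subgroup.mem_inf]
      have h1 : (x : G) ∈ V.map K.subtype := ⟨x, hx, rfl⟩
      rw [hVmap] at h1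
      exact ⟨Subgroup.mem_subgroupOf.1 (hVS' hx), hSN h1⟩
    · intro x hx
      rw [Subgroup.mem_subgroupOf, Subgroup.mem_inf]
      rw [hS', Subgroup.mem_subgroupOf] at hx
      refine ⟨?_, ?_⟩
      · rw [Subgroup.coe_pow]; exact S.pow_mem hx p
      · rw [Subgroup.coe_pow]; exact hp _ (hSR hx)
    · rw [hS', Nat.card_congr (Subgroup.subgroupOfEquivOfLe hSK).toEquiv, hM,
        Nat.card_congr (Subgroup.subgroupOfEquivOfLe ((inf_le_left : S ⊓ N ≤ S).trans hSK)).toEquiv]
  refine ⟨K, S, PP p S', V, a - s, s, hidx, hSp, hSR, hVmap, PP_normal p S', inferInstance, hVP,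
    (Subgroup.commutator_mono hPP hPP), fun x hx => hx.2, hs, ?_, ?_, ?_⟩
  · rw [ha, Nat.sub_add_cancel hsa]
  · rw [hs, ha, ← pow_add] at hcount
    have := (Nat.pow_le_pow_iff_right hpp.one_lt).1 hcount
    omega
  · rw [← hs]
    have h1 : Nat.card V = Nat.card (V.map K.subtype) :=
      Nat.card_congr (V.equivMapOfInjective K.subtype K.subtype_injective).toEquiv
    rw [h1, hVmap]
    exact Nat.card_le_card_of_injective _ (Subgroup.inclusion_injective hSN)

end Pool.Agent.L0h35.Sv
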