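import Pool.Agent.L0h35.SvDefs

/-!
# StL0: a large elementary abelian section in an abelian section of bounded exponent
-/

set_option autoImplicit false

namespace Pool.Agent.L0h35.Sv

open Finset Module
open scoped commutatorElement

theorem stL0 : StL0 := by
  classical
  intro G _ _ N A e hN hA hNA hab he hexp
  set NA : Subgroup A := N.subgroupOf A with hNAd
  have hnorm : NA.Normal := hN.subgroupOf A
  have hcomm : ∀ x y : A ⧸ NA, x * y = y * x := by
    intro x y
    induction x using QuotientGroup.induction_on with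
    | _ x =>
    induction y using QuotientGroup.induction_on with
    | _ y =>
    rw [← QuotientGroup.mk_mul, ← QuotientGroup.mk_mul, QuotientGroup.eq]
    show ((x * y)⁻¹ * (y * x) : A) ∈ NA
    rw [hNAd, Subgroup.mem_subgroupOf]
    have h1 : ⁅(y : G)⁻¹, (x : G)⁻¹⁆ ∈ N :=
      hab (Subgroup.commutator_mem_commutator (A.inv_mem y.2) (A.inv_mem x.2))
    have h2 : (((x * y)⁻¹ * (y * x) : A) : G) = ⁅(y : G)⁻¹, (x : G)⁻¹⁆ := by
      rw [commutatorElement_def]
      push_cast
      group
    rw [h2]
    exact h1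
  let inst : CommGroup (A ⧸ NA) :=
    { (inferInstance : Group (A ⧸ NA)) with mul_comm := hcomm }
  have hcardNA : Nat.card NA = Nat.card N :=
    Nat.card_congr (Subgroup.subgroupOfEquivOfLe hNA).toEquiv
  have hcardA : Nat.card A = Nat.card (A ⧸ NA) * Nat.card N := by
    rw [Subgroup.card_eq_card_quotient_mul_card_subgroup NA, hcardNA]
  -- the rank of the `p`-torsion
  have hrank : ∀ p : ℕ, ∃ r : ℕ, p.Prime →
      Nat.card (powMonoidHom (α := A ⧸ NA) p).ker = p ^ r := by
    intro p
    by_cases hp : p.Prime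
    · have := Fact.mk hp
      have h1 : IsPGroup p (powMonoidHom (α := A ⧸ NA) p).ker := by
        intro x
        refine ⟨1, ?_⟩
        have h2 := x.2
        rw [MonoidHom.mem_ker, powMonoidHom_apply] at h2
        exact Subtype.ext (by rw [pow_one]; exact h2)
      obtain ⟨r, hr⟩ := IsPGroup.iff_card.1 h1
      exact ⟨r, fun _ => hr⟩
    · exact ⟨0, fun h => absurd h hp⟩
  choose r hr using hrank
  have hne : e.primeFactors.Nonempty := by
    rw [Nat.nonempty_primeFactors]
    omega
  obtain ⟨p, hp, hmax⟩ := exists_max_image e.primeFactors r hne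
  have hpp : p.Prime := Nat.prime_of_mem_primeFactors hp
  set K := (powMonoidHom (α := A ⧸ NA) p).ker with hK
  set R' : Subgroup A := K.comap (QuotientGroup.mk' NA) with hR'
  have hmem : ∀ x : G, x ∈ R'.map A.subtype ↔ x ∈ A ∧ x ^ p ∈ N := by
    intro x
    constructor
    · rintro ⟨y, hy, rfl⟩
      refine ⟨y.2, ?_⟩
      have h1 : (QuotientGroup.mk' NA y) ^ p = 1 := hy
      rw [← map_pow, QuotientGroup.mk'_apply, QuotientGroup.eq_one_iff] at h1
      exact h1
    · rintro ⟨hx, hxp⟩
      refine ⟨⟨x, hx⟩, ?_, rfl⟩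
      show (QuotientGroup.mk' NA ⟨x, hx⟩) ^ p = 1
      rw [← map_pow, QuotientGroup.mk'_apply, QuotientGroup.eq_one_iff]
      exact hxp
  refine ⟨p, R'.map A.subtype, r p, hpp, Nat.dvd_of_mem_primeFactors hp, ?_, ?_, ?_, ?_, ?_, ?_⟩
  · refine ⟨fun x hx g => ?_⟩
    rw [hmem] at hx ⊢
    refine ⟨hA.conj_mem x hx.1 g, ?_⟩
    rw [conj_pow]
    exact hN.conj_mem _ hx.2 g
  · intro x hx
    exact (hmem x).2 ⟨hNA hx, N.pow_mem hx p⟩
  · intro x hx
    exact ((hmem x).1 hx).1
  · intro x hx
    exact ((hmem x).1 hx).2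
  · have h1 : Nat.card (R'.map A.subtype) = Nat.card R' :=
      (Nat.card_congr (R'.equivMapOfInjective A.subtype Subtype.val_injective).toEquiv).symm
    have h2 : R'.index = K.index :=
      Subgroup.index_comap_of_surjective K (QuotientGroup.mk'_surjective NA)
    have h3 := Subgroup.card_mul_index R'
    have h4 := Subgroup.card_mul_index K
    have h5 : 0 < K.index := Nat.pos_of_ne_zero Subgroup.FiniteIndex.index_ne_zero
    have h6 : Nat.card R' * K.index = (Nat.card K * Nat.card N) * K.index := by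
      rw [← h2, h3, hcardA, ← h4, h2]
      ring
    rw [h1, Nat.eq_of_mul_eq_mul_right h5 h6, hr p hpp]
  · rw [hcardA]
    refine Nat.mul_le_mul_right _ ?_
    have h1 := Pool.Agent.L0h35.GT.card_torsion_le (A := A ⧸ NA) (r p) e (by omega)
      (fun p' hp' hd => by
        rw [hr p' hp']
        exact Nat.pow_le_pow_right hp'.pos (hmax p' (Nat.mem_primeFactors.2 ⟨hp', hd, by omega⟩)))
    refine le_trans (le_of_eq ?_) h1
    have h2 : (powMonoidHom (α := A ⧸ NA) e).ker = ⊤ := by
      rw [eq_top_iff]
      intro x _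
      rw [MonoidHom.mem_ker, powMonoidHom_apply]
      induction x using QuotientGroup.induction_on with
      | _ x =>
      rw [← QuotientGroup.mk_pow, QuotientGroup.eq_one_iff]
      exact hexp x.1 x.2
    rw [h2]
    exact (Nat.card_congr Subgroup.topEquiv.toEquiv).symm

end Pool.Agent.L0h35.Sv
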