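import Pool.Agent.L0h35.SvDefs

set_option autoImplicit false

/-!
# The bound at one level of the derived series
-/

namespace Pool.Agent.L0h35.Sv

open Finset

lemma map_lcs {G : Type} [Group G] {K : Subgroup G} (V : Subgroup K) (j : ℕ) :
    (lcs V j).map K.subtype = lcs (V.map K.subtype) j := by
  induction j with
  | zero => rfl
  | succ j ih =>
    have h1 : lcs V (j + 1) = ⁅lcs V j, V⁆ := rfl
    have h2 : lcs (V.map K.subtype) (j + 1) = ⁅lcs (V.map K.subtype) j, V.map K.subtype⁆ := rfl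
    rw [h1, h2, Subgroup.map_commutator, ih]

theorem stM1_of (hL0 : StL0) (hL : StL) (hK : StK) (hJ : StJ) (hB : StB) : StM1 := by
  intro G _ _ N A e c hN hA hNA hAA he hexp hS hbig
  obtain ⟨p, R, r, hp, hpe, hR, hNR, hRA, hRp, hRc, hAc⟩ := hL0 G N A e hN hA hNA hAA he
    (fun x hx => by
      rw [hexp x hx]
      exact N.one_mem)
  have hpf : Fact p.Prime := ⟨hp⟩
  obtain ⟨K, S, P, V, n, s, hKi, hSp, hSR, hVS, hP, hV, hVP, hPP, hPp, hVc, hPc, hrn, hsN⟩ :=
    hL p G N R r hN hR hNR hRp ((Subgroup.commutator_mono hRA hRA).trans hAA) hRc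
  have he0 : e ≠ 0 := by omega
  obtain ⟨k, hk⟩ : ∃ k, k = e.factorization p := ⟨_, rfl⟩
  -- the exponent of `V`
  have hVA : ∀ v ∈ V, (v : G) ∈ A := by
    intro v hv
    have h1 : (v : G) ∈ V.map K.subtype := ⟨v, hv, rfl⟩
    rw [hVS] at h1
    have h2 : ⁅S, S⁆ ≤ S := Subgroup.commutator_le.2 fun a ha b hb => by
      rw [commutatorElement_def]
      exact S.mul_mem (S.mul_mem (S.mul_mem ha hb) (S.inv_mem ha)) (S.inv_mem hb)
    exact hRA (hSR (h2 h1))
  have hVk : ∀ v ∈ V, v ^ p ^ k = 1 := by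
    intro v hv
    have h1 : v ^ e = 1 := by
      apply Subtype.ext
      rw [Subgroup.coe_pow, Subgroup.coe_one]
      exact hexp _ (hVA v hv)
    have h2 : orderOf v ∣ e := orderOf_dvd_of_pow_eq_one h1
    have h3 : orderOf v ∣ p ^ s := by
      rw [← hVc]
      exact Subgroup.orderOf_dvd_natCard V hv
    obtain ⟨j, -, hj⟩ := (Nat.dvd_prime_pow hp).1 h3
    rw [hj, hp.pow_dvd_iff_le_factorization he0, ← hk] at h2
    rw [← orderOf_dvd_iff_pow_eq_one, hj]
    exact pow_dvd_pow p h2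
  have hVl : lcs V c = ⊥ := by
    have h1 : (lcs V c).map K.subtype = ⊥ := by
      rw [map_lcs, hVS]
      exact hS p S hp hSp (hSR.trans hRA)
    exact (Subgroup.map_eq_bot_iff_of_injective _ K.subtype_injective).1 h1
  obtain ⟨U, hU0, hU1, hU2, hU3, hU4, hU5⟩ := hK p K V k c hV hVk hVl
  -- numbers
  have hp2 : 2 ≤ p := hp.two_le
  have hpk : p ^ k ≤ e := Nat.le_of_dvd (by omega) (by
    rw [hk]
    exact Nat.ordProj_dvd e p)
  have h2pk : (2 * p) ^ (2 * (c * k)) ≤ e ^ (4 * c) := by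
    have h1 : (2 * p) ^ k ≤ e ^ 2 := by
      rw [mul_pow, pow_two]
      exact Nat.mul_le_mul ((Nat.pow_le_pow_left hp2 k).trans hpk) hpk
    calc (2 * p) ^ (2 * (c * k)) = ((2 * p) ^ k) ^ (2 * c) := by
          rw [← pow_mul]
          ring_nf
      _ ≤ (e ^ 2) ^ (2 * c) := Nat.pow_le_pow_left h1 _
      _ = e ^ (4 * c) := by
          rw [← pow_mul]
          ring_nf
  have hl2 : 0 < Real.log 2 := Real.log_pos (by norm_num)
  have her : (2 : ℝ) ≤ e := by exact_mod_cast he
  have hle : 0 < Real.log e := Real.log_pos (by linarith)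
  have hNpos : (0 : ℝ) < Nat.card N := by exact_mod_cast Nat.card_pos
  have hApos : (0 : ℝ) < Nat.card A := by exact_mod_cast Nat.card_pos
  have hAr : Real.log (Nat.card A) - Real.log (Nat.card N) ≤ r * Real.log e := by
    have h1 : (Nat.card A : ℝ) ≤ (e : ℝ) ^ r * Nat.card N := by exact_mod_cast hAc
    have h2 := Real.log_le_log hApos h1
    rw [Real.log_mul (by positivity) hNpos.ne', Real.log_pow] at h2
    linarith
  have hsl : (s : ℝ) * Real.log 2 ≤ Real.log (Nat.card N) := by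
    have h1 : (2 : ℝ) ^ s ≤ Nat.card N := by
      have : 2 ^ s ≤ Nat.card N := (Nat.pow_le_pow_left hp2 s).trans hsN
      exact_mod_cast this
    have h2 := Real.log_le_log (by positivity) h1
    rwa [Real.log_pow] at h2
  have hns : 30 * (2 * p) ^ (2 * (c * k)) * s ≤ n := by
    have h1 : 30 * (e : ℝ) ^ (4 * c) * s * (Real.log 2 * Real.log e) ≤
        r * (Real.log 2 * Real.log e) := by
      have h2 : 30 * (e : ℝ) ^ (4 * c) * Real.log e * (s * Real.log 2) ≤
          30 * (e : ℝ) ^ (4 * c) * Real.log e * Real.log (Nat.card N) :=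
        mul_le_mul_of_nonneg_left hsl (by positivity)
      have h3 : Real.log 2 * (Real.log (Nat.card A) - Real.log (Nat.card N)) ≤
          Real.log 2 * (r * Real.log e) := mul_le_mul_of_nonneg_left hAr hl2.le
      nlinarith [h2, h3, hbig]
    have h4 : 30 * (e : ℝ) ^ (4 * c) * s ≤ r := le_of_mul_le_mul_right h1 (by positivity)
    have h5 : 30 * e ^ (4 * c) * s ≤ r := by exact_mod_cast h4
    calc 30 * (2 * p) ^ (2 * (c * k)) * s ≤ 30 * e ^ (4 * c) * s := by gcongr
      _ ≤ r := h5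
      _ ≤ n := hrn
  have hrate := hJ p K P V (c * k) U hP hVP hPP hPp hU0 hU1 hU2 hU3 hU4 hU5 n s hVc hPc hns
  have hKpos : (0 : ℝ) < Nat.card K := by exact_mod_cast Nat.card_pos
  have hrate2 := hB G K ((Nat.card K : ℝ) * Real.exp (-(n : ℝ) / 50)) (by positivity) hrate
  have hipos : (0 : ℝ) < K.index := by
    have : K.index ≠ 0 := Subgroup.index_ne_zero_of_finite
    exact_mod_cast Nat.pos_of_ne_zero this
  refine ⟨_, by positivity, hrate2, ?_⟩
  have hGK : (K.index : ℝ) * Nat.card K = Nat.card G := by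
    exact_mod_cast Subgroup.index_mul_card K
  have hin : (K.index : ℝ) ≤ Nat.card N := by exact_mod_cast hKi
  have hex : Real.exp (-(n : ℝ) / 50) ≤
      Real.exp (-(Real.log (Nat.card A) - Real.log (Nat.card N)) / (50 * Real.log e)) := by
    rw [Real.exp_le_exp, neg_div, neg_div, neg_le_neg_iff, div_le_div_iff₀ (by positivity)
      (by norm_num)]
    have h1 : (r : ℝ) ≤ n := by exact_mod_cast hrn
    nlinarith [mul_le_mul_of_nonneg_right h1 hle.le]
  calc (K.index : ℝ) ^ 2 * ((Nat.card K : ℝ) * Real.exp (-(n : ℝ) / 50)) =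
      (Nat.card G : ℝ) * K.index * Real.exp (-(n : ℝ) / 50) := by
        rw [← hGK]
        ring
    _ ≤ (Nat.card G : ℝ) * Nat.card N *
        Real.exp (-(Real.log (Nat.card A) - Real.log (Nat.card N)) / (50 * Real.log e)) := by
        gcongr

end Pool.Agent.L0h35.Sv
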