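import Pool.Agent.L0h35.SvDefs

set_option autoImplicit false

namespace Pool.Agent.L0h35.Sv

open Finset Module Pool.Agent.L0h35.GT

theorem ds_le {G : Type} [Group G] (M : Subgroup G) (n : ℕ) : ds M (n + 1) ≤ ds M n := by
  rw [ds, Subgroup.commutator_le]
  intro g hg h hh
  exact (ds M n).mul_mem ((ds M n).mul_mem ((ds M n).mul_mem hg hh) ((ds M n).inv_mem hg))
    ((ds M n).inv_mem hh)

theorem ds_le_self {G : Type} [Group G] (M : Subgroup G) (n : ℕ) : ds M n ≤ M := by
  induction n with
  | zero => exact le_rfl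
  | succ n ih => exact (ds_le M n).trans ih

theorem ds_normal {G : Type} [Group G] (M : Subgroup G) (hM : M.Normal) (n : ℕ) :
    (ds M n).Normal := by
  induction n with
  | zero => exact hM
  | succ n ih =>
    rw [ds]
    infer_instance

theorem rate_of_subsingleton (G : Type) [Group G] [Subsingleton G] : Rate G 1 := by
  intro n I _ x y z h
  have h1 : Fintype.card I ≤ 1 := by
    rw [Fintype.card_le_one_iff]
    intro i j
    have := (h i j j).1 (Subsingleton.elim _ _)
    exact this.1
  have h2 : (Fintype.card I : ℝ) ≤ 1 := by exact_mod_cast h1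
  rw [one_pow]
  linarith

theorem stM2_of (h1 : StM1) (hE : StE) : StM2 := by
  intro e₀ ℓ c δ he₀ hδ
  set e : ℕ := 2 * e₀ with he
  have he2 : 2 ≤ e := by omega
  have heR : (2 : ℝ) ≤ e := by exact_mod_cast he2
  have hlog : 0 < Real.log e := Real.log_pos (by linarith)
  have hloge : Real.log e ≤ e := Real.log_le_self (by linarith)
  have hlog2 : 0.69 < Real.log 2 := by
    have := Real.log_two_gt_d9
    linarith
  set η : ℝ := 1 / (200 * (e : ℝ) ^ (4 * c + 1)) with hη
  have hpow : (1 : ℝ) ≤ (e : ℝ) ^ (4 * c) := one_le_pow₀ (by linarith)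
  have hpow' : (e : ℝ) ^ (4 * c + 1) = (e : ℝ) ^ (4 * c) * e := pow_succ _ _
  have hη0 : 0 < η := by positivity
  have hden : (200 : ℝ) * (e : ℝ) ^ (4 * c + 1) ≥ 200 * e := by
    rw [hpow']
    nlinarith
  have hη1 : η ≤ 1 / (200 * Real.log e) := by
    rw [hη]
    apply one_div_le_one_div_of_le (by positivity)
    nlinarith
  have hη2 : η ≤ 1 / 2 := by
    rw [hη]
    apply one_div_le_one_div_of_le (by norm_num)
    nlinarith
  have hη3 : 30 * (e : ℝ) ^ (4 * c) * Real.log e * η ≤ Real.log 2 / 2 := by
    rw [hη, hpow']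
    have h3 : 30 * (e : ℝ) ^ (4 * c) * Real.log e * (1 / (200 * ((e : ℝ) ^ (4 * c) * e))) =
        30 / 200 * (Real.log e / e) := by
      field_simp
    rw [h3]
    have h4 : Real.log e / e ≤ 1 := by
      rw [div_le_one (by linarith)]
      exact hloge
    linarith
  set δf : ℕ → ℝ := fun j => δ * η ^ j with hδf
  have hδpos : ∀ j, 0 < δf j := fun j => by positivity
  have hδs : ∀ j, δf (j + 1) = η * δf j := fun j => by
    simp only [hδf, pow_succ]
    ring
  have hδanti : ∀ j, j ≤ ℓ → δf ℓ ≤ δf j := by
    intro j hj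
    simp only [hδf]
    exact mul_le_mul_of_nonneg_left (pow_le_pow_of_le_one hη0.le (by linarith) hj) hδ.le
  set κ : ℝ := δf ℓ / (200 * Real.log e) with hκ
  refine ⟨κ, by have := hδpos ℓ; positivity, ?_⟩
  intro G _ _ M hM hexp hds hcl hcard I _ A B C hS τ hτ
  have hG0 : (0 : ℝ) < Nat.card G := by exact_mod_cast (Nat.card_pos (α := G))
  rcases subsingleton_or_nontrivial G with hsub | hnt
  · -- trivial group
    have hc1 : (Nat.card G : ℝ) = 1 := by
      have : Nat.card G = 1 := by
        rw [Nat.card_eq_one_iff_unique]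
        exact ⟨hsub, ⟨1⟩⟩
      exact_mod_cast this
    have := hE G 1 one_pos (rate_of_subsingleton G) I A B C hS τ hτ
    rw [hc1] at this ⊢
    simpa using this
  · have hg1 : (1 : ℝ) < Nat.card G := by
      have : 1 < Nat.card G := Finite.one_lt_card
      exact_mod_cast this
    set L : ℝ := Real.log (Nat.card G) with hL
    have hL0 : 0 < L := Real.log_pos hg1
    -- the level
    have hex : ∃ j, ((Nat.card (ds M j) : ℝ) < (Nat.card G : ℝ) ^ δf j) := by
      refine ⟨ℓ, ?_⟩
      rw [hds]
      rw [Subgroup.card_bot]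
      push_cast
      exact Real.one_lt_rpow hg1 (hδpos ℓ)
    classical
    obtain ⟨j0, hj0, hj0min⟩ : ∃ j0, ((Nat.card (ds M j0) : ℝ) < (Nat.card G : ℝ) ^ δf j0) ∧
        ∀ i < j0, ¬ ((Nat.card (ds M i) : ℝ) < (Nat.card G : ℝ) ^ δf i) :=
      ⟨Nat.find hex, Nat.find_spec hex, fun i hi => Nat.find_min hex hi⟩
    have hj0ℓ : j0 ≤ ℓ := by
      by_contra hcon
      push Not at hcon
      have := hj0min ℓ hcon
      apply this
      rw [hds, Subgroup.card_bot]
      push_cast
      exact Real.one_lt_rpow hg1 (hδpos ℓ)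
    have hj0pos : j0 ≠ 0 := by
      rintro rfl
      have : δf 0 = δ := by simp [hδf]
      rw [this] at hj0
      exact absurd hcard (not_le.2 hj0)
    obtain ⟨j, rfl⟩ := Nat.exists_eq_succ_of_ne_zero hj0pos
    have hA : (Nat.card G : ℝ) ^ δf j ≤ Nat.card (ds M j) := not_lt.1 (hj0min j (Nat.lt_succ_self j))
    have hN : (Nat.card (ds M (j + 1)) : ℝ) < (Nat.card G : ℝ) ^ δf (j + 1) := hj0
    have hN0 : (0 : ℝ) < Nat.card (ds M (j + 1)) := by
      exact_mod_cast (Nat.card_pos (α := ds M (j + 1)))
    have hA0 : (0 : ℝ) < Nat.card (ds M j) := by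
      exact_mod_cast (Nat.card_pos (α := ds M j))
    have hlA : δf j * L ≤ Real.log (Nat.card (ds M j)) := by
      have := Real.log_le_log (by positivity) hA
      rwa [Real.log_rpow hG0] at this
    have hlN : Real.log (Nat.card (ds M (j + 1))) ≤ δf (j + 1) * L := by
      have := Real.log_le_log hN0 hN.le
      rwa [Real.log_rpow hG0] at this
    have hjpos := hδpos j
    have hdiff : δf j * L / 2 ≤
        Real.log (Nat.card (ds M j)) - Real.log (Nat.card (ds M (j + 1))) := by
      have : δf (j + 1) * L ≤ δf j * L / 2 := by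
        rw [hδs]
        have : η * δf j * L ≤ 1 / 2 * δf j * L := by
          gcongr
        linarith
      linarith
    obtain ⟨Λ, hΛ0, hΛ, hΛle⟩ := h1 G (ds M (j + 1)) (ds M j) e c (ds_normal M hM _)
      (ds_normal M hM _) (ds_le M j) le_rfl he2
      (fun x hx => by
        have := hexp x (ds_le_self M j hx)
        rw [he, mul_comm, pow_mul, this, one_pow])
      (fun p S hp hS hSA => hcl p S hp hS (hSA.trans (ds_le_self M j)))
      (by
        have h5 : 30 * (e : ℝ) ^ (4 * c) * Real.log e * Real.log (Nat.card (ds M (j + 1))) ≤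
            30 * (e : ℝ) ^ (4 * c) * Real.log e * (δf (j + 1) * L) := by
          gcongr
        have h6 : 30 * (e : ℝ) ^ (4 * c) * Real.log e * (δf (j + 1) * L) =
            30 * (e : ℝ) ^ (4 * c) * Real.log e * η * (δf j * L) := by
          rw [hδs]
          ring
        have h7 : 30 * (e : ℝ) ^ (4 * c) * Real.log e * η * (δf j * L) ≤
            Real.log 2 / 2 * (δf j * L) := by
          gcongr
        have h8 : Real.log 2 * (δf j * L / 2) ≤ Real.log 2 *
            (Real.log (Nat.card (ds M j)) - Real.log (Nat.card (ds M (j + 1)))) := by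
          gcongr
        linarith)
    refine (hE G Λ hΛ0 hΛ I A B C hS τ hτ).trans ?_
    rw [Real.rpow_sub hG0, div_eq_mul_inv]
    refine mul_le_mul_of_nonneg_left ?_ (by positivity)
    rw [div_le_iff₀ hG0]
    refine hΛle.trans ?_
    have h9 : (Nat.card (ds M (j + 1)) : ℝ) * Real.exp (-(Real.log (Nat.card (ds M j)) -
        Real.log (Nat.card (ds M (j + 1)))) / (50 * Real.log e)) ≤
        ((Nat.card G : ℝ) ^ κ)⁻¹ := by
      rw [← Real.rpow_neg hG0.le, Real.rpow_def_of_pos hG0]
      calc (Nat.card (ds M (j + 1)) : ℝ) * Real.exp (-(Real.log (Nat.card (ds M j)) -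
          Real.log (Nat.card (ds M (j + 1)))) / (50 * Real.log e))
          ≤ Real.exp (δf (j + 1) * L) * Real.exp (-(δf j * L / 2) / (50 * Real.log e)) := by
            refine mul_le_mul ?_ ?_ (Real.exp_pos _).le (Real.exp_pos _).le
            · rw [← Real.log_le_iff_le_exp hN0]
              exact hlN
            · rw [Real.exp_le_exp]
              gcongr
        _ = Real.exp (δf (j + 1) * L + -(δf j * L / 2) / (50 * Real.log e)) := by
            rw [Real.exp_add]
        _ ≤ Real.exp (L * -κ) := by
            rw [Real.exp_le_exp]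
            have h10 : δf (j + 1) * L ≤ 1 / (200 * Real.log e) * (δf j * L) := by
              rw [hδs]
              calc η * δf j * L = η * (δf j * L) := by ring
                _ ≤ _ := mul_le_mul_of_nonneg_right hη1 (by positivity)
            have h11 : -(δf j * L / 2) / (50 * Real.log e) =
                -(2 * (1 / (200 * Real.log e) * (δf j * L))) := by
              field_simp
              ring
            have h12 : L * -κ = -(1 / (200 * Real.log e) * (δf ℓ * L)) := by
              rw [hκ]
              ring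
            have h13 : 1 / (200 * Real.log e) * (δf ℓ * L) ≤
                1 / (200 * Real.log e) * (δf j * L) := by
              have := hδanti j (by omega)
              gcongr
            rw [h11, h12]
            linarith
    calc (Nat.card G : ℝ) * Nat.card (ds M (j + 1)) * Real.exp (-(Real.log (Nat.card (ds M j)) -
        Real.log (Nat.card (ds M (j + 1)))) / (50 * Real.log e))
        = (Nat.card (ds M (j + 1)) : ℝ) * Real.exp (-(Real.log (Nat.card (ds M j)) -
          Real.log (Nat.card (ds M (j + 1)))) / (50 * Real.log e)) * Nat.card G := by ring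
      _ ≤ _ := mul_le_mul_of_nonneg_right h9 hG0.le

end Pool.Agent.L0h35.Sv
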