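import Pool.Agent.L0h35.SvQ3

/-!
# Matchings in groups with a direct family of subgroups: proof of `StQ`
-/

set_option autoImplicit false
set_option linter.unusedSectionVars false

namespace Pool.Agent.L0h35.Sv

open Finset Module

namespace Q83

section

variable {G ι : Type} [Group G] [Finite G] [Fintype ι] [DecidableEq ι] {T : ι → Subgroup G}
  (hT : DirectFamily T)

theorem gen_sum (u : ℝ) :
    ∑ h : (∀ i, T i), u ^ (S1 h).card = ∏ i, ((Nat.card (T i) : ℝ) + (u - 1)) := by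
  have h1 : ∀ i, (Nat.card (T i) : ℝ) + (u - 1) = ∑ t : T i, if t = 1 then u else 1 := by
    intro i
    rw [← Finset.add_sum_erase _ _ (Finset.mem_univ (1 : T i)), if_pos rfl]
    rw [Finset.sum_congr rfl (g := fun _ => (1 : ℝ))
      (fun t ht => if_neg (Finset.ne_of_mem_erase ht)), Finset.sum_const,
      Finset.card_erase_of_mem (Finset.mem_univ _), Finset.card_univ, Nat.card_eq_fintype_card,
      nsmul_eq_mul, mul_one, Nat.cast_sub Fintype.card_pos]
    push_cast
    ring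
  simp_rw [h1]
  rw [Finset.prod_univ_sum, Fintype.piFinset_univ]
  refine Finset.sum_congr rfl fun h _ => ?_
  unfold S1
  rw [Finset.prod_ite, Finset.prod_const, Finset.prod_const_one, mul_one]

theorem gen_le (u : ℝ) (hu : 0 < u) :
    ∑ h : (∀ i, T i), u ^ (S1 h).card ≤
      (∏ i, (Nat.card (T i) : ℝ)) * Real.exp ((u - 1) * ∑ i, (1 : ℝ) / Nat.card (T i)) := by
  rw [gen_sum, Finset.mul_sum, Real.exp_sum, ← Finset.prod_mul_distrib]
  refine Finset.prod_le_prod (fun i _ => ?_) fun i _ => ?_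
  · have h1 : (1 : ℝ) ≤ Nat.card (T i) := by
      exact_mod_cast Nat.one_le_iff_ne_zero.2 Nat.card_pos.ne'
    linarith
  · have h1 : (0 : ℝ) < Nat.card (T i) := by exact_mod_cast Nat.card_pos
    have h2 := Real.add_one_le_exp ((u - 1) * (1 / (Nat.card (T i) : ℝ)))
    calc (Nat.card (T i) : ℝ) + (u - 1)
        = (Nat.card (T i) : ℝ) * ((u - 1) * (1 / (Nat.card (T i) : ℝ)) + 1) := by
          field_simp
          ring
      _ ≤ _ := mul_le_mul_of_nonneg_left h2 h1.le

theorem card_eq : (Nat.card G : ℝ) =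
    (Fintype.card (G ⧸ (Phi hT).range) : ℝ) * ∏ i, (Nat.card (T i) : ℝ) := by
  have h1 := Subgroup.card_eq_card_quotient_mul_card_subgroup (Phi hT).range
  have h2 : Nat.card (Phi hT).range = ∏ i, Nat.card (T i) := by
    rw [← Nat.card_pi]
    exact (Nat.card_congr (MonoidHom.ofInjective (Phi_inj hT)).toEquiv).symm
  rw [h1, h2, Nat.card_eq_fintype_card]
  push_cast
  rfl

theorem count (u : ℝ) (hu : 0 < u) (a : ℝ)
    (P : (G ⧸ (Phi hT).range) × (∀ i, T i) → Prop) [DecidablePred P]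
    (hP : ∀ c, P c → Real.exp a ≤ u ^ (S1 c.2).card) :
    ((univ.filter P).card : ℝ) ≤ (Nat.card G : ℝ) *
      Real.exp ((u - 1) * (∑ i, (1 : ℝ) / Nat.card (T i)) - a) := by
  have h1 : ((univ.filter P).card : ℝ) * Real.exp a ≤
      (Nat.card G : ℝ) * Real.exp ((u - 1) * ∑ i, (1 : ℝ) / Nat.card (T i)) := by
    calc ((univ.filter P).card : ℝ) * Real.exp a = ∑ c ∈ univ.filter P, Real.exp a := by
          rw [Finset.sum_const, nsmul_eq_mul]
      _ ≤ ∑ c ∈ univ.filter P, u ^ (S1 c.2).card :=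
          Finset.sum_le_sum fun c hc => hP c (Finset.mem_filter.1 hc).2
      _ ≤ ∑ c : (G ⧸ (Phi hT).range) × (∀ i, T i), u ^ (S1 c.2).card :=
          Finset.sum_le_sum_of_subset_of_nonneg (Finset.filter_subset _ _)
            fun c _ _ => by positivity
      _ = (Fintype.card (G ⧸ (Phi hT).range) : ℝ) * ∑ h : (∀ i, T i), u ^ (S1 h).card := by
          rw [Fintype.sum_prod_type]
          dsimp only
          rw [Finset.sum_const, nsmul_eq_mul, Finset.card_univ]
      _ ≤ (Fintype.card (G ⧸ (Phi hT).range) : ℝ) * ((∏ i, (Nat.card (T i) : ℝ)) *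
            Real.exp ((u - 1) * ∑ i, (1 : ℝ) / Nat.card (T i))) :=
          mul_le_mul_of_nonneg_left (gen_le u hu) (by positivity)
      _ = _ := by
          rw [← mul_assoc, ← card_eq hT]
  rw [Real.exp_sub, ← mul_div_assoc, le_div_iff₀ (Real.exp_pos _)]
  exact h1

theorem exp_a : Real.exp (-(7 / 24)) ≤ 3 / 4 := by
  have h1 := Real.quadratic_le_exp_of_nonneg (x := 7 / 24) (by norm_num)
  have h2 : (4 / 3 : ℝ) ≤ Real.exp (7 / 24) := by
    refine le_trans ?_ h1
    norm_num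
  rw [Real.exp_neg]
  rw [inv_le_comm₀ (Real.exp_pos _) (by norm_num)]
  refine le_trans ?_ h2
  norm_num

theorem exp_b : Real.exp (17 / 48) ≤ 3 / 2 := by
  have h1 := Real.add_one_le_exp (-(17 / 96) : ℝ)
  have h2 : (2 / 3 : ℝ) ≤ Real.exp (-(17 / 48)) := by
    have h3 : Real.exp (-(17 / 48)) = Real.exp (-(17 / 96)) ^ 2 := by
      rw [← Real.exp_nat_mul]
      norm_num
    rw [h3]
    calc (2 / 3 : ℝ) ≤ (-(17 / 96) + 1) ^ 2 := by norm_num
      _ ≤ _ := by
        refine pow_le_pow_left₀ (by norm_num) h1 2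
  rw [Real.exp_neg] at h2
  rw [le_inv_comm₀ (by norm_num) (Real.exp_pos _)] at h2
  refine h2.trans ?_
  norm_num

include hT in
theorem one_group_bound (F : Type) [Field F] (hne : ∀ i, T i ≠ ⊥)
    (hc : ∀ i, (Fintype.card (T i) : F) = 0)
    (I : Type) [Fintype I] (x y z : I → G) (hM : Matching x y z) :
    (Fintype.card I : ℝ) ≤ 3 * ((Nat.card G : ℝ) *
      Real.exp (-(∑ i, (1 : ℝ) / Nat.card (T i)) / 32)) := by
  classical
  set μ : ℝ := ∑ i, (1 : ℝ) / Nat.card (T i) with hμ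
  have hμ0 : 0 ≤ μ := Finset.sum_nonneg fun i _ => by positivity
  set m : ℕ := ⌈3 / 4 * μ⌉₊ with hm
  have h1 := one_group F hT hne hc m I x y z hM
  have h2 := count hT (3 / 4) (by norm_num) (-(7 / 32) * μ) (fun c => (S1 c.2).card < m) (by
    intro c hc
    have h3 : ((S1 c.2).card : ℝ) < 3 / 4 * μ := Nat.lt_ceil.1 hc
    calc Real.exp (-(7 / 32) * μ) ≤ Real.exp (((S1 c.2).card : ℝ) * -(7 / 24)) := by
          refine Real.exp_le_exp.2 ?_
          linarith
      _ = Real.exp (-(7 / 24)) ^ (S1 c.2).card := Real.exp_nat_mul _ _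
      _ ≤ _ := pow_le_pow_left₀ (Real.exp_pos _).le exp_a _)
  have h3 := count hT (3 / 2) (by norm_num) (17 / 32 * μ) (fun c => 2 * m ≤ (S1 c.2).card) (by
    intro c hc
    have h3 : 3 / 4 * μ ≤ (m : ℝ) := Nat.le_ceil _
    have h4 : (2 : ℝ) * m ≤ ((S1 c.2).card : ℝ) := by exact_mod_cast hc
    calc Real.exp (17 / 32 * μ) ≤ Real.exp (((S1 c.2).card : ℝ) * (17 / 48)) := by
          refine Real.exp_le_exp.2 ?_
          linarith
      _ = Real.exp (17 / 48) ^ (S1 c.2).card := Real.exp_nat_mul _ _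
      _ ≤ _ := pow_le_pow_left₀ (Real.exp_pos _).le exp_b _)
  rw [← hμ] at h2 h3
  have e1 : (3 / 4 - 1) * μ - -(7 / 32) * μ = -μ / 32 := by ring
  have e2 : (3 / 2 - 1) * μ - 17 / 32 * μ = -μ / 32 := by ring
  rw [e1] at h2
  rw [e2] at h3
  have h4 : (Fintype.card I : ℝ) ≤ 2 * ((univ.filter fun c : (G ⧸ (Phi hT).range) × (∀ i, T i) =>
      (S1 c.2).card < m).card : ℝ) +
      ((univ.filter fun c : (G ⧸ (Phi hT).range) × (∀ i, T i) => 2 * m ≤ (S1 c.2).card).card : ℝ)
      := by exact_mod_cast h1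
  linarith

end

/-! ## Powers -/

section

variable {G ι : Type} [Group G] {T : ι → Subgroup G}

/-- the family in the power -/
def TT (n : ℕ) (T : ι → Subgroup G) (c : Fin n × ι) : Subgroup (Fin n → G) :=
  (T c.2).map (MonoidHom.mulSingle (fun _ : Fin n => G) c.1)

theorem mem_TT (n : ℕ) (c : Fin n × ι) (x : Fin n → G) :
    x ∈ TT n T c ↔ ∃ a ∈ T c.2, Pi.mulSingle c.1 a = x := by
  unfold TT
  rw [Subgroup.mem_map]
  rfl

theorem card_TT (n : ℕ) (c : Fin n × ι) : Nat.card (TT n T c) = Nat.card (T c.2) := by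
  unfold TT
  exact Subgroup.card_map_of_injective (Pi.mulSingle_injective (M := fun _ : Fin n => G) c.1)

theorem direct_TT (hT : DirectFamily T) (n : ℕ) : DirectFamily (TT n T) := by
  classical
  refine ⟨?_, ?_, ?_⟩
  · rintro ⟨t, i⟩ ⟨t', i'⟩ hne x hx y hy
    obtain ⟨a, ha, rfl⟩ := (mem_TT n _ _).1 hx
    obtain ⟨b, hb, rfl⟩ := (mem_TT n _ _).1 hy
    dsimp only at ha hb ⊢
    by_cases ht : t = t'
    · subst ht
      have hi : i ≠ i' := fun h => hne (by rw [h])
      rw [← Pi.mulSingle_mul, ← Pi.mulSingle_mul, hT.1 i i' hi a ha b hb]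
    · exact (Pi.mulSingle_commute (f := fun _ : Fin n => G) ht a b).eq
  · rintro ⟨t, i⟩
    rw [Subgroup.disjoint_def]
    intro x hx hx2
    obtain ⟨a, ha, rfl⟩ := (mem_TT n _ _).1 hx
    dsimp only at ha hx2 ⊢
    have h1 : (⨆ (j) (_ : j ≠ (t, i)), TT n T j) ≤
        (⨆ (j) (_ : j ≠ i), T j).comap (Pi.evalMonoidHom (fun _ : Fin n => G) t) := by
      refine iSup₂_le ?_
      rintro ⟨t', i'⟩ hne y hy
      obtain ⟨b, hb, rfl⟩ := (mem_TT n _ _).1 hy
      dsimp only at hb ⊢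
      rw [Subgroup.mem_comap]
      show (Pi.mulSingle t' b : Fin n → G) t ∈ _
      by_cases ht : t = t'
      · subst ht
        have hi : i' ≠ i := fun h => hne (by rw [h])
        rw [Pi.mulSingle_eq_same]
        exact (le_iSup₂ (f := fun j (_ : j ≠ i) => T j) i' hi) hb
      · rw [Pi.mulSingle_eq_of_ne ht]
        exact Subgroup.one_mem _
    have h2 := h1 hx2
    rw [Subgroup.mem_comap] at h2
    have h3 : a ∈ ⨆ (j) (_ : j ≠ i), T j := by
      have h4 : (Pi.evalMonoidHom (fun _ : Fin n => G) t) (Pi.mulSingle t a) = a :=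
        Pi.mulSingle_eq_same (M := fun _ : Fin n => G) t a
      rwa [h4] at h2
    have h5 : a = 1 := Subgroup.disjoint_def.1 (hT.2.1 i) ha h3
    rw [h5, Pi.mulSingle_one]
  · rintro g ⟨t, i⟩
    obtain ⟨j, hj⟩ := hT.2.2 (g t) i
    have key : ∀ (g : Fin n → G) (a : G), g * Pi.mulSingle t a * g⁻¹ =
        Pi.mulSingle t (g t * a * (g t)⁻¹) := by
      intro g a
      funext s
      by_cases hs : s = t
      · subst hs
        simp
      · simp [Pi.mulSingle_eq_of_ne hs]
    refine ⟨(t, j), fun x => ?_⟩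
    rw [mem_TT, mem_TT]
    dsimp only
    constructor
    · rintro ⟨a, ha, rfl⟩
      exact ⟨_, (hj a).1 ha, (key g a).symm⟩
    · rintro ⟨b, hb, hbx⟩
      refine ⟨(g t)⁻¹ * b * g t, (hj _).2 ?_, ?_⟩
      · have : g t * ((g t)⁻¹ * b * g t) * (g t)⁻¹ = b := by group
        rwa [this]
      · have h1 := key g⁻¹ b
        rw [hbx] at h1
        have h2 : g⁻¹ * (g * x * g⁻¹) * g⁻¹⁻¹ = x := by group
        rw [h2] at h1
        rw [h1, Pi.inv_apply, inv_inv]

end

end Q83

open Q83 in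
theorem stQ : StQ := by
  classical
  intro p _ G _ _ ι _ T hT hp n I _ x y z hM
  have hd := direct_TT hT n
  have hp2 : ∀ c : Fin n × ι, p ∣ Nat.card (TT n T c) := fun c => by
    rw [card_TT]
    exact hp c.2
  have h1 := one_group_bound hd (ZMod p)
    (fun c h => by
      have h2 := hp2 c
      rw [h, Subgroup.card_bot] at h2
      exact (Fact.out : p.Prime).one_lt.ne' (Nat.dvd_one.1 h2))
    (fun c => by
      rw [ZMod.natCast_eq_zero_iff, ← Nat.card_eq_fintype_card]
      exact hp2 c) I x y z hM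
  have h2 : (Nat.card (Fin n → G) : ℝ) = (Nat.card G : ℝ) ^ n := by
    rw [Nat.card_pi]
    simp
  have h3 : ∑ c : Fin n × ι, (1 : ℝ) / Nat.card (TT n T c) =
      n * ∑ i, (1 : ℝ) / Nat.card (T i) := by
    simp_rw [card_TT]
    rw [Fintype.sum_prod_type]
    dsimp only
    rw [Finset.sum_const, Finset.card_univ, Fintype.card_fin, nsmul_eq_mul]
  rw [h2, h3] at h1
  rw [mul_pow, ← Real.exp_nat_mul]
  refine h1.trans (le_of_eq ?_)
  congr 3
  ring

end Pool.Agent.L0h35.Sv
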