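import Pool.Agent.L0h35.SvDefs2

/-!
# Pure tensors in the group algebra of a group with a direct family of subgroups
-/

set_option autoImplicit false

namespace Pool.Agent.L0h35.Sv.Q83

open Finset Module

section

variable {ι : Type} [Fintype ι] [DecidableEq ι] {N : ι → Type} [∀ i, Group (N i)]
  [∀ i, Fintype (N i)] [∀ i, DecidableEq (N i)] {G : Type} [Group G] {F : Type} [Field F]

/-- the pure tensors -/
noncomputable def pt (F : Type) [Field F] (Φ : (∀ i, N i) →* G) :
    MultilinearMap F (fun i => (N i → F)) (MonoidAlgebra F G) :=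
  ∑ f : (∀ i, N i), ((MultilinearMap.mkPiAlgebra F ι F).compLinearMap
    (fun i => (LinearMap.proj (f i) : (N i → F) →ₗ[F] F))).smulRight (MonoidAlgebra.of F G (Φ f))

variable (Φ : (∀ i, N i) →* G)

theorem pt_apply (a : ∀ i, N i → F) :
    pt F Φ a = ∑ f : (∀ i, N i), (∏ i, a i (f i)) • MonoidAlgebra.of F G (Φ f) := by
  unfold pt
  rw [MultilinearMap.sum_apply]
  rfl

/-- translation -/
def shift {H : Type} [Group H] (t : H) (b : H → F) : H → F := fun s => b (t⁻¹ * s)

theorem of_mul_pt (f : ∀ i, N i) (b : ∀ i, N i → F) :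
    MonoidAlgebra.of F G (Φ f) * pt F Φ b = pt F Φ (fun i => shift (f i) (b i)) := by
  rw [pt_apply, pt_apply, Finset.mul_sum]
  refine Fintype.sum_equiv (Equiv.mulLeft f) _ _ fun h => ?_
  rw [mul_smul_comm, ← map_mul, ← map_mul]
  congr 1
  refine Finset.prod_congr rfl fun i _ => ?_
  simp [shift]

theorem pt_mul_pt (a b : ∀ i, N i → F) :
    pt F Φ a * pt F Φ b = pt F Φ (fun i => ∑ t, a i t • shift t (b i)) := by
  rw [MultilinearMap.map_sum (pt F Φ) (fun i t => a i t • shift t (b i))]
  rw [pt_apply Φ a, Finset.sum_mul]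
  refine Finset.sum_congr rfl fun f _ => ?_
  rw [smul_mul_assoc, of_mul_pt, MultilinearMap.map_smul_univ]

/-- the basis elements of one factor -/
def bb {H : Type} [Group H] [DecidableEq H] (F : Type) [Field F] (h : H) : H → F :=
  if h = 1 then (fun _ => 1) else Pi.single h 1

/-- the indicator functions -/
def ind (F : Type) [Field F] (N : ι → Type) [∀ i, Group (N i)] [∀ i, DecidableEq (N i)]
    (S : Finset ι) : ∀ i, N i → F :=
  fun i => if i ∈ S then (fun _ => 1) else Pi.single 1 1

theorem shift_single {H : Type} [Group H] [DecidableEq H] (t s : H) :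
    shift t (Pi.single s 1 : H → F) = Pi.single (t * s) 1 := by
  funext u
  unfold shift
  by_cases h : u = t * s
  · rw [h, Pi.single_eq_same, inv_mul_cancel_left, Pi.single_eq_same]
  · rw [Pi.single_eq_of_ne h, Pi.single_eq_of_ne]
    intro h'
    apply h
    rw [← h']
    group

theorem shift_one {H : Type} [Group H] (t : H) :
    shift t (fun _ => 1 : H → F) = fun _ => 1 := rfl

/-- `s_S` -/
noncomputable def ss (F : Type) [Field F] (Φ : (∀ i, N i) →* G) (S : Finset ι) :
    MonoidAlgebra F G := pt F Φ (ind F N S)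

/-- the coordinates equal to one -/
def S1 (f : ∀ i, N i) : Finset ι := univ.filter fun i => f i = 1

theorem pt_bb (f : ∀ i, N i) :
    pt F Φ (fun i => bb F (f i)) = MonoidAlgebra.of F G (Φ f) * ss F Φ (S1 f) := by
  unfold ss
  rw [of_mul_pt]
  congr 1
  funext i
  unfold ind bb S1
  by_cases h : f i = 1
  · simp [h, shift_one]
  · have : i ∉ (univ.filter fun i => f i = 1) := by simpa using h
    rw [if_neg h, if_neg this, shift_single, mul_one]

theorem expand_single {H : Type} [Group H] [Fintype H] [DecidableEq H] (t : H) :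
    (Pi.single t 1 : H → F) =
      ∑ h, (if t = 1 then (if h = 1 then (1 : F) else -1) else if h = t then 1 else 0) •
        bb F h := by
  classical
  by_cases ht : t = 1
  · subst ht
    simp only [if_true]
    rw [← Finset.add_sum_erase _ _ (Finset.mem_univ (1 : H))]
    have h1 : ∑ h ∈ univ.erase (1 : H), (if h = 1 then (1 : F) else -1) • bb F h =
        ∑ h ∈ univ.erase (1 : H), (-1 : F) • (Pi.single h 1 : H → F) := by
      refine Finset.sum_congr rfl fun h hh => ?_
      have : h ≠ 1 := Finset.ne_of_mem_erase hh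
      rw [if_neg this]
      unfold bb
      rw [if_neg this]
    rw [h1]
    funext u
    simp only [Pi.add_apply, Finset.sum_apply, Pi.smul_apply, smul_eq_mul, bb, if_true, one_mul]
    by_cases hu : u = 1
    · subst hu
      rw [Pi.single_eq_same, Finset.sum_eq_zero, add_zero]
      intro h hh
      have : h ≠ 1 := Finset.ne_of_mem_erase hh
      rw [Pi.single_eq_of_ne (Ne.symm this), mul_zero]
    · rw [Pi.single_eq_of_ne hu, Finset.sum_eq_single u, Pi.single_eq_same]
      · ring
      · intro h _ hne
        rw [Pi.single_eq_of_ne (Ne.symm hne), mul_zero]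
      · intro h
        exact absurd (Finset.mem_erase.2 ⟨hu, Finset.mem_univ u⟩) h
  · rw [Finset.sum_eq_single t]
    · simp [ht, bb]
    · intro h _ hne
      simp [ht, hne]
    · intro h
      exact absurd (Finset.mem_univ t) h

/-- `[Φ f] s_S` is a combination of the basis elements with more ones -/
theorem expand (f : ∀ i, N i) (S : Finset ι) :
    MonoidAlgebra.of F G (Φ f) * ss F Φ S ∈ Submodule.span F
      {y | ∃ h : ∀ i, N i, S ⊆ S1 h ∧ y = pt F Φ (fun i => bb F (h i))} := by
  classical
  unfold ss
  rw [of_mul_pt]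
  have h1 : (fun i => shift (f i) (ind F N S i)) = fun i => ∑ h : N i,
      (if i ∈ S then (if h = 1 then (1 : F) else 0) else
        (if f i = 1 then (if h = 1 then (1 : F) else -1) else if h = f i then 1 else 0)) •
        bb F h := by
    funext i
    unfold ind
    by_cases hi : i ∈ S
    · simp only [hi, if_true]
      rw [shift_one, Finset.sum_eq_single (1 : N i)]
      · simp [bb]
      · intro h _ hne
        simp [hne]
      · intro h
        exact absurd (Finset.mem_univ _) h
    · simp only [hi, if_false]
      rw [shift_single, mul_one]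
      exact expand_single (f i)
  rw [h1, MultilinearMap.map_sum (pt F Φ) (fun i (h : N i) =>
      (if i ∈ S then (if h = 1 then (1 : F) else 0) else
        (if f i = 1 then (if h = 1 then (1 : F) else -1) else if h = f i then 1 else 0)) •
        bb F h)]
  refine Submodule.sum_mem _ fun h _ => ?_
  rw [MultilinearMap.map_smul_univ]
  by_cases hS : S ⊆ S1 h
  · exact Submodule.smul_mem _ _ (Submodule.subset_span ⟨h, hS, rfl⟩)
  · obtain ⟨i, hi, hi2⟩ := Finset.not_subset.1 hS
    have hne : h i ≠ 1 := by
      intro hh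
      exact hi2 (Finset.mem_filter.2 ⟨Finset.mem_univ i, hh⟩)
    rw [Finset.prod_eq_zero (Finset.mem_univ i) (by simp [hi, hne]), zero_smul]
    exact Submodule.zero_mem _

theorem ss_mul_ss_disjoint (A B : Finset ι) (h : Disjoint A B) :
    ss F Φ A * ss F Φ B = ss F Φ (A ∪ B) := by
  unfold ss
  rw [pt_mul_pt]
  congr 1
  funext i
  unfold ind
  by_cases hA : i ∈ A
  · have hB : i ∉ B := Finset.disjoint_left.1 h hA
    simp only [hA, hB, if_true, if_false, Finset.mem_union, true_or, one_smul]
    funext u
    rw [Finset.sum_apply, Finset.sum_eq_single u]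
    · rw [shift_single, mul_one, Pi.single_eq_same]
    · intro t _ hne
      rw [shift_single, mul_one, Pi.single_eq_of_ne (Ne.symm hne)]
    · intro h
      exact absurd (Finset.mem_univ _) h
  · simp only [hA, if_false, Finset.mem_union, false_or]
    rw [Finset.sum_eq_single (1 : N i)]
    · rw [Pi.single_eq_same, one_smul]
      funext u
      unfold shift
      rw [inv_one, one_mul]
    · intro t _ hne
      rw [Pi.single_eq_of_ne hne, zero_smul]
    · intro h
      exact absurd (Finset.mem_univ _) h

theorem ss_mul_ss_zero (A B : Finset ι) (i : ι) (hA : i ∈ A) (hB : i ∈ B)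
    (hc : (Fintype.card (N i) : F) = 0) : ss F Φ A * ss F Φ B = 0 := by
  unfold ss
  rw [pt_mul_pt]
  refine MultilinearMap.map_coord_zero _ i ?_
  unfold ind
  simp only [hA, hB, if_true]
  funext u
  rw [Finset.sum_apply]
  simp [shift, hc]

theorem ss_empty : ss F Φ (∅ : Finset ι) = 1 := by
  unfold ss
  rw [pt_apply, Finset.sum_eq_single (1 : ∀ i, N i)]
  · rw [map_one, map_one]
    simp [ind]
  · intro f _ hne
    obtain ⟨i, hi⟩ := Function.ne_iff.1 hne
    rw [Finset.prod_eq_zero (Finset.mem_univ i), zero_smul]
    simp only [ind, Finset.notMem_empty, if_false]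
    exact Pi.single_eq_of_ne hi _
  · intro h
    exact absurd (Finset.mem_univ _) h

/-- `s_S` as a sum -/
theorem ss_eq (S : Finset ι) :
    ss F Φ S = ∑ f ∈ univ.filter (fun f : ∀ i, N i => ∀ i ∉ S, f i = 1),
      MonoidAlgebra.of F G (Φ f) := by
  classical
  unfold ss
  rw [pt_apply, Finset.sum_filter]
  refine Finset.sum_congr rfl fun f _ => ?_
  split_ifs with h
  · rw [Finset.prod_eq_one, one_smul]
    intro i _
    unfold ind
    by_cases hi : i ∈ S
    · simp [hi]
    · rw [if_neg hi, h i hi, Pi.single_eq_same]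
  · push Not at h
    obtain ⟨i, hi, hne⟩ := h
    rw [Finset.prod_eq_zero (Finset.mem_univ i), zero_smul]
    unfold ind
    rw [if_neg hi, Pi.single_eq_of_ne hne]

end

end Pool.Agent.L0h35.Sv.Q83
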