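import Pool.Agent.L0h35.SvQ1

/-!
# The filtration of the group algebra by a direct family of subgroups
-/

set_option autoImplicit false
set_option linter.unusedSectionVars false

namespace Pool.Agent.L0h35.Sv.Q83

open Finset Module

section

variable {G ι : Type} [Group G] [Fintype ι] [DecidableEq ι] {T : ι → Subgroup G}

theorem comm_of (hT : DirectFamily T) :
    Pairwise fun i j : ι => ∀ x y : G, x ∈ T i → y ∈ T j → Commute x y :=
  fun i j hij x y hx hy => hT.1 i j hij x hx y hy

/-- the product map -/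
def Phi (hT : DirectFamily T) : (∀ i, T i) →* G := Subgroup.noncommPiCoprod (comm_of hT)

theorem Phi_inj (hT : DirectFamily T) : Function.Injective (Phi hT) :=
  Subgroup.injective_noncommPiCoprod_of_iSupIndep hT.2.1

/-- the product of some of the subgroups -/
def PP (T : ι → Subgroup G) (S : Finset ι) : Subgroup G := ⨆ i ∈ S, T i

theorem mem_PP (hT : DirectFamily T) (S : Finset ι) (x : G) :
    x ∈ PP T S ↔ ∃ f : (∀ i, T i), (∀ i ∉ S, f i = 1) ∧ Phi hT f = x := by
  constructor
  · intro hx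
    have h1 : PP T S ≤ (Subgroup.pi {i | i ∉ S} (fun i => (⊥ : Subgroup (T i)))).map
        (Phi hT) := by
      refine iSup₂_le fun i hi => ?_
      intro t ht
      refine ⟨Pi.mulSingle i ⟨t, ht⟩, ?_, ?_⟩
      · rw [SetLike.mem_coe, Subgroup.mem_pi]
        intro j hj
        rw [Subgroup.mem_bot]
        refine Pi.mulSingle_eq_of_ne ?_ _
        rintro rfl
        exact hj hi
      · exact Subgroup.noncommPiCoprod_mulSingle i ⟨t, ht⟩
    obtain ⟨f, hf, hfx⟩ := h1 hx
    rw [SetLike.mem_coe, Subgroup.mem_pi] at hf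
    exact ⟨f, fun i hi => Subgroup.mem_bot.1 (hf i hi), hfx⟩
  · rintro ⟨f, hf, rfl⟩
    show Subgroup.noncommPiCoprod (comm_of hT) f ∈ _
    rw [Subgroup.noncommPiCoprod_apply]
    refine Subgroup.noncommProd_mem _ _ fun i _ => ?_
    by_cases hi : i ∈ S
    · exact (le_iSup₂ (f := fun i (_ : i ∈ S) => T i) i hi) (f i).2
    · rw [hf i hi]
      exact Subgroup.one_mem _

/-- conjugation on the indices -/
noncomputable def sig (hT : DirectFamily T) (g : G) (i : ι) : ι := (hT.2.2 g i).choose

theorem sig_spec (hT : DirectFamily T) (g : G) (i : ι) (x : G) :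
    x ∈ T i ↔ g * x * g⁻¹ ∈ T (sig hT g i) := (hT.2.2 g i).choose_spec x

theorem map_T (hT : DirectFamily T) (g : G) (i : ι) :
    (T i).map (MulAut.conj g).toMonoidHom = T (sig hT g i) := by
  ext x
  rw [Subgroup.mem_map]
  constructor
  · rintro ⟨y, hy, rfl⟩
    exact (sig_spec hT g i y).1 hy
  · intro hx
    refine ⟨g⁻¹ * x * g, (sig_spec hT g i _).2 ?_, ?_⟩
    · have : g * (g⁻¹ * x * g) * g⁻¹ = x := by group
      rwa [this]
    · show g * (g⁻¹ * x * g) * g⁻¹ = x
      group

theorem map_PP (hT : DirectFamily T) (g : G) (S : Finset ι) :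
    (PP T S).map (MulAut.conj g).toMonoidHom = PP T (S.image (sig hT g)) := by
  unfold PP
  rw [Subgroup.map_iSup]
  refine le_antisymm ?_ ?_
  · refine iSup_le fun i => ?_
    rw [Subgroup.map_iSup]
    refine iSup_le fun hi => ?_
    rw [map_T hT]
    exact le_iSup₂ (f := fun j (_ : j ∈ S.image (sig hT g)) => T j) (sig hT g i)
      (Finset.mem_image_of_mem _ hi)
  · refine iSup₂_le fun j hj => ?_
    obtain ⟨i, hi, rfl⟩ := Finset.mem_image.1 hj
    refine le_trans (le_of_eq (map_T hT g i).symm) ?_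
    refine le_trans ?_ (le_iSup _ i)
    rw [Subgroup.map_iSup]
    exact le_iSup (fun _ : i ∈ S => (T i).map (MulAut.conj g).toMonoidHom) hi

theorem sig_inj (hT : DirectFamily T) (hne : ∀ i, T i ≠ ⊥) (g : G) :
    Function.Injective (sig hT g) := by
  intro i j hij
  by_contra hne2
  have h1 : T i = T j := by
    have h3 := map_T hT g i
    rw [hij, ← map_T hT g j] at h3
    exact Subgroup.map_injective (MulAut.conj g).injective h3
  have h2 : Disjoint (T i) (T j) := hT.2.1.pairwiseDisjoint hne2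
  rw [h1, disjoint_self] at h2
  exact hne j h2

end

section

variable {G ι : Type} [Group G] [Finite G] [Fintype ι] [DecidableEq ι] {T : ι → Subgroup G}
  (F : Type) [Field F] (hT : DirectFamily T)

noncomputable instance instFT (T : ι → Subgroup G) (i : ι) : Fintype (T i) := Fintype.ofFinite _

noncomputable instance instDT (T : ι → Subgroup G) (i : ι) : DecidableEq (T i) :=
  Classical.decEq _

/-- `s_S` is the sum of the elements of `P_S` -/
theorem ss_eq' [Fintype G] [DecidableEq G] (S : Finset ι)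
    [DecidablePred fun x => x ∈ PP T S] :
    ss F (Phi hT) S = ∑ x ∈ univ.filter (fun x => x ∈ PP T S), MonoidAlgebra.of F G x := by
  rw [ss_eq]
  refine Finset.sum_bij (fun f _ => Phi hT f) ?_ ?_ ?_ ?_
  · intro f hf
    rw [Finset.mem_filter] at hf ⊢
    exact ⟨Finset.mem_univ _, (mem_PP hT S _).2 ⟨f, hf.2, rfl⟩⟩
  · intro f _ f' _ h
    exact Phi_inj hT h
  · intro x hx
    obtain ⟨f, hf, hfx⟩ := (mem_PP hT S x).1 (Finset.mem_filter.1 hx).2
    exact ⟨f, Finset.mem_filter.2 ⟨Finset.mem_univ _, hf⟩, hfx⟩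
  · intro f _
    rfl

theorem conj_ss (g : G) (S : Finset ι) :
    MonoidAlgebra.of F G g * ss F (Phi hT) S =
      ss F (Phi hT) (S.image (sig hT g)) * MonoidAlgebra.of F G g := by
  classical
  have := Fintype.ofFinite G
  rw [ss_eq', ss_eq', Finset.mul_sum, Finset.sum_mul]
  refine Finset.sum_bij (fun x _ => g * x * g⁻¹) ?_ ?_ ?_ ?_
  · intro x hx
    rw [Finset.mem_filter] at hx ⊢
    refine ⟨Finset.mem_univ _, ?_⟩
    rw [← map_PP hT g S]
    exact Subgroup.mem_map.2 ⟨x, hx.2, rfl⟩
  · intro x _ y _ h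
    simpa using h
  · intro y hy
    have h1 := (Finset.mem_filter.1 hy).2
    rw [← map_PP hT g S] at h1
    obtain ⟨x, hx, hxy⟩ := Subgroup.mem_map.1 h1
    exact ⟨x, Finset.mem_filter.2 ⟨Finset.mem_univ _, hx⟩, hxy⟩
  · intro x _
    rw [← map_mul, ← map_mul]
    congr 1
    group

/-- the filtration -/
noncomputable def XX (m : ℕ) : Submodule F (MonoidAlgebra F G) :=
  Submodule.span F {y | ∃ (g : G) (S : Finset ι), m ≤ S.card ∧
    y = MonoidAlgebra.of F G g * ss F (Phi hT) S}

theorem XX_mul (hne : ∀ i, T i ≠ ⊥) (hc : ∀ i, (Fintype.card (T i) : F) = 0) (m m' : ℕ)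
    (x y : MonoidAlgebra F G) (hx : x ∈ XX F hT m) (hy : y ∈ XX F hT m') :
    x * y ∈ XX F hT (m + m') := by
  have h1 : XX F hT m * XX F hT m' ≤ XX F hT (m + m') := by
    unfold XX
    rw [Submodule.span_mul_span]
    refine Submodule.span_le.2 ?_
    rintro z ⟨a, ⟨g, S, hS, rfl⟩, b, ⟨g', S', hS', rfl⟩, rfl⟩
    show MonoidAlgebra.of F G g * ss F (Phi hT) S * (MonoidAlgebra.of F G g' *
      ss F (Phi hT) S') ∈ _
    have h2 : S = (S.image (sig hT g'⁻¹)).image (sig hT g') := by
      have h4 := map_PP hT g' (S.image (sig hT g'⁻¹))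
      rw [← map_PP hT g'⁻¹ S, Subgroup.map_map] at h4
      have h5 : ((MulAut.conj g').toMonoidHom.comp (MulAut.conj g'⁻¹).toMonoidHom) =
          MonoidHom.id G := by
        ext x
        show g' * (g'⁻¹ * x * g'⁻¹⁻¹) * g'⁻¹ = x
        group
      rw [h5, Subgroup.map_id] at h4
      have h6 : ∀ A B : Finset ι, PP T A ≤ PP T B → A ⊆ B := by
        intro A B hAB i hi
        by_contra hiB
        apply hne i
        have h7 : T i ≤ PP T A := le_iSup₂ (f := fun i (_ : i ∈ A) => T i) i hi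
        have h8 : PP T B ≤ ⨆ (j) (_ : j ≠ i), T j := by
          refine iSup₂_le fun j hj => ?_
          exact le_iSup₂ (f := fun j (_ : j ≠ i) => T j) j (fun h => hiB (h ▸ hj))
        exact disjoint_self.1 (Disjoint.mono_right (h7.trans (hAB.trans h8)) (hT.2.1 i))
      exact Finset.Subset.antisymm (h6 _ _ h4.le) (h6 _ _ h4.ge)
    have h3 : MonoidAlgebra.of F G g * ss F (Phi hT) S * (MonoidAlgebra.of F G g' *
        ss F (Phi hT) S') = MonoidAlgebra.of F G (g * g') *
        (ss F (Phi hT) (S.image (sig hT g'⁻¹)) * ss F (Phi hT) S') := by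
      conv_lhs => rw [h2]
      rw [map_mul, mul_assoc, ← mul_assoc (ss F (Phi hT) _) (MonoidAlgebra.of F G g'),
        ← conj_ss]
      simp only [mul_assoc]
    rw [h3]
    by_cases hd : Disjoint (S.image (sig hT g'⁻¹)) S'
    · rw [ss_mul_ss_disjoint _ _ _ hd]
      refine Submodule.subset_span ⟨_, _, ?_, rfl⟩
      rw [Finset.card_union_of_disjoint hd, Finset.card_image_of_injective _ (sig_inj hT hne _)]
      exact Nat.add_le_add hS hS'
    · obtain ⟨i, hi, hi'⟩ := Finset.not_disjoint_iff.1 hd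
      rw [ss_mul_ss_zero _ _ _ i hi hi' (hc i), mul_zero]
      exact Submodule.zero_mem _
  exact h1 (Submodule.mul_mem_mul hx hy)

end

end Pool.Agent.L0h35.Sv.Q83
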