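import Pool.Agent.L0h35.SvQ2
import Pool.Agent.L0h35.SvA3

/-!
# Dimensions in the filtration, and the bound for one group
-/

set_option autoImplicit false
set_option linter.unusedSectionVars false

namespace Pool.Agent.L0h35.Sv.Q83

open Finset Module

section

variable {G ι : Type} [Group G] [Finite G] [Fintype ι] [DecidableEq ι] {T : ι → Subgroup G}
  (F : Type) [Field F] (hT : DirectFamily T)

/-- the basis -/
noncomputable def vec (c : (G ⧸ (Phi hT).range) × (∀ i, T i)) : MonoidAlgebra F G :=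
  MonoidAlgebra.of F G c.1.out * pt F (Phi hT) (fun i => bb F (c.2 i))

theorem of_decomp (g : G) : ∃ (q : G ⧸ (Phi hT).range) (f : ∀ i, T i),
    g = q.out * Phi hT f := by
  obtain ⟨h, hh⟩ := QuotientGroup.mk_out_eq_mul (Phi hT).range g
  obtain ⟨f, hf⟩ := h.2
  refine ⟨QuotientGroup.mk g, f⁻¹, ?_⟩
  rw [hh, map_inv, hf]
  group

theorem gen_mem (g : G) (S : Finset ι) : MonoidAlgebra.of F G g * ss F (Phi hT) S ∈
    Submodule.span F {y | ∃ c : (G ⧸ (Phi hT).range) × (∀ i, T i), S ⊆ S1 c.2 ∧
      y = vec F hT c} := by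
  obtain ⟨q, f, rfl⟩ := of_decomp hT g
  rw [map_mul, mul_assoc]
  have h1 : Submodule.span F
      {y | ∃ h : ∀ i, T i, S ⊆ S1 h ∧ y = pt F (Phi hT) (fun i => bb F (h i))} ≤
      (Submodule.span F {y | ∃ c : (G ⧸ (Phi hT).range) × (∀ i, T i), S ⊆ S1 c.2 ∧
      y = vec F hT c}).comap (LinearMap.mulLeft F (MonoidAlgebra.of F G q.out)) := by
    refine Submodule.span_le.2 ?_
    rintro _ ⟨h, hS, rfl⟩
    exact Submodule.subset_span ⟨(q, h), hS, rfl⟩
  exact h1 (expand (Phi hT) f S)

theorem vec_mem (c : (G ⧸ (Phi hT).range) × (∀ i, T i)) (m : ℕ) (h : m ≤ (S1 c.2).card) :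
    vec F hT c ∈ XX F hT m := by
  unfold vec
  rw [pt_bb, ← mul_assoc, ← map_mul]
  exact Submodule.subset_span ⟨_, _, h, rfl⟩

instance finMA : FiniteDimensional F (MonoidAlgebra F G) := by
  classical
  exact Module.Finite.of_basis (MonoidAlgebra.basis G F)

theorem finrank_MA : finrank F (MonoidAlgebra F G) = Nat.card G := by
  classical
  have := Fintype.ofFinite G
  rw [finrank_eq_card_basis (MonoidAlgebra.basis G F), Nat.card_eq_fintype_card]

noncomputable instance instQ (H : Subgroup G) : Fintype (G ⧸ H) := Fintype.ofFinite _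

theorem finrank_ge (m : ℕ) : Nat.card G ≤ finrank F (XX F hT m) +
    (univ.filter fun c : (G ⧸ (Phi hT).range) × (∀ i, T i) => (S1 c.2).card < m).card := by
  classical
  rw [← finrank_MA F, ← finrank_top F (MonoidAlgebra F G)]
  have h1 : (⊤ : Submodule F (MonoidAlgebra F G)) ≤ XX F hT m ⊔ Submodule.span F
      (((univ.filter fun c : (G ⧸ (Phi hT).range) × (∀ i, T i) => (S1 c.2).card < m).image
        (vec F hT) : Finset _) : Set (MonoidAlgebra F G)) := by
    rw [← (MonoidAlgebra.basis G F).span_eq]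
    refine Submodule.span_le.2 ?_
    rintro _ ⟨g, rfl⟩
    have h2 := gen_mem F hT g ∅
    rw [ss_empty, mul_one] at h2
    have h3 : (MonoidAlgebra.basis G F) g = MonoidAlgebra.of F G g := by
      simp
    rw [h3]
    refine (Submodule.span_le.2 ?_ : _ ≤ _) h2
    rintro _ ⟨c, -, rfl⟩
    by_cases hc : (S1 c.2).card < m
    · refine Submodule.mem_sup_right (Submodule.subset_span ?_)
      rw [Finset.mem_coe]
      exact Finset.mem_image_of_mem _ (Finset.mem_filter.2 ⟨Finset.mem_univ _, hc⟩)
    · exact Submodule.mem_sup_left (vec_mem F hT c m (not_lt.1 hc))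
  refine (Submodule.finrank_mono h1).trans ?_
  refine (Submodule.finrank_add_le_finrank_add_finrank _ _).trans ?_
  refine Nat.add_le_add_left ?_ _
  exact (finrank_span_finset_le_card _).trans Finset.card_image_le

theorem finrank_le (m : ℕ) : finrank F (XX F hT m) ≤
    (univ.filter fun c : (G ⧸ (Phi hT).range) × (∀ i, T i) => m ≤ (S1 c.2).card).card := by
  classical
  have h1 : XX F hT m ≤ Submodule.span F
      (((univ.filter fun c : (G ⧸ (Phi hT).range) × (∀ i, T i) => m ≤ (S1 c.2).card).image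
        (vec F hT) : Finset _) : Set (MonoidAlgebra F G)) := by
    refine Submodule.span_le.2 ?_
    rintro _ ⟨g, S, hS, rfl⟩
    refine (Submodule.span_mono ?_ : _ ≤ _) (gen_mem F hT g S)
    rintro _ ⟨c, hc, rfl⟩
    rw [Finset.mem_coe]
    exact Finset.mem_image_of_mem _ (Finset.mem_filter.2 ⟨Finset.mem_univ _,
      hS.trans (Finset.card_le_card hc)⟩)
  refine (Submodule.finrank_mono h1).trans ?_
  exact (finrank_span_finset_le_card _).trans Finset.card_image_le

/-- the coefficient of the identity -/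
noncomputable def lam1 (F : Type) [Field F] (G : Type) [Group G] : MonoidAlgebra F G →ₗ[F] F :=
  (Finsupp.lapply (1 : G)).comp (MonoidAlgebra.coeffLinearEquiv F).toLinearMap

theorem lam1_of [DecidableEq G] (g : G) : lam1 F G (MonoidAlgebra.of F G g) =
    if g = 1 then 1 else 0 := by
  show (MonoidAlgebra.single g (1 : F)).coeff 1 = _
  rw [MonoidAlgebra.coeff_single, Finsupp.single_apply]

/-- annihilators -/
theorem exists_ann {R : Type} [Ring R] [Algebra F R] [FiniteDimensional F R]
    (lam : R →ₗ[F] F) (X : Submodule F R) : ∃ Z : Submodule F R,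
    (∀ x ∈ X, ∀ z ∈ Z, lam (x * z) = 0) ∧ finrank F R ≤ finrank F X + finrank F Z := by
  let φ : R →ₗ[F] (X →ₗ[F] F) :=
    LinearMap.mk₂ F (fun (z : R) (x : X) => lam ((x : R) * z))
      (fun a b c => by rw [mul_add, map_add])
      (fun a b c => by rw [mul_smul_comm, map_smul])
      (fun a b c => by rw [Submodule.coe_add, add_mul, map_add])
      (fun a b c => by rw [Submodule.coe_smul, smul_mul_assoc, map_smul])
  refine ⟨LinearMap.ker φ, fun x hx z hz => ?_, ?_⟩
  · exact LinearMap.congr_fun (LinearMap.mem_ker.1 hz) ⟨x, hx⟩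
  · have h1 := LinearMap.finrank_range_add_finrank_ker φ
    have h2 : finrank F (LinearMap.range φ) ≤ finrank F (X →ₗ[F] F) :=
      Submodule.finrank_le _
    have h3 : finrank F (X →ₗ[F] F) = finrank F X := Subspace.dual_finrank_eq
    omega

theorem one_group (hne : ∀ i, T i ≠ ⊥) (hc : ∀ i, (Fintype.card (T i) : F) = 0) (m : ℕ)
    (I : Type) [Fintype I] (x y z : I → G) (hM : Matching x y z) :
    Fintype.card I ≤
      2 * (univ.filter fun c : (G ⧸ (Phi hT).range) × (∀ i, T i) => (S1 c.2).card < m).card +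
      (univ.filter fun c : (G ⧸ (Phi hT).range) × (∀ i, T i) => 2 * m ≤ (S1 c.2).card).card := by
  classical
  obtain ⟨Z, hZ, hZ2⟩ := exists_ann F (lam1 F G) (XX F hT (2 * m))
  have h1 := stA3 F (MonoidAlgebra F G) (lam1 F G) (XX F hT m) (XX F hT m) Z
    (fun a ha b hb c hcc => hZ _ (by
      have := XX_mul F hT hne hc m m a b ha hb
      rwa [← two_mul] at this) _ hcc) I
    (fun i => MonoidAlgebra.of F G (x i)) (fun i => MonoidAlgebra.of F G (y i))
    (fun i => MonoidAlgebra.of F G (z i))
    (fun i j l hijl => by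
      rw [← map_mul, ← map_mul, lam1_of, if_pos ((hM i j l).2 hijl)])
    (fun i j l hijl => by
      rw [← map_mul, ← map_mul, lam1_of, if_neg (fun h => hijl ((hM i j l).1 h))])
  have h2 := finrank_ge F hT m
  have h3 := finrank_le F hT (2 * m)
  rw [finrank_MA] at h1 hZ2
  omega

end

end Pool.Agent.L0h35.Sv.Q83
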