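import Pool.Agent.L0h35.PmMain
import Pool.Agent.Y630.TF.Transfer

/-!
# The language with tags and circuits with faulty negations: definitions and statements
-/

set_option autoImplicit false

namespace Pool.Agent.NPC.L0h35Tg

open Pool.Agent.NPC.L0h35Ng

/-- the number of equations at the scale `κ`, for strings of length `N` -/
def cnt (N κ : ℕ) : ℕ := N / ((N.size + 1) * 2 ^ κ)

/-- the string which is read at the scale `κ`: the bit `e` is one if one of the `2 ^ κ` tags of the
equation `e` is present -/
def rdT (z : List Bool) (κ : ℕ) : List Bool :=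
  (List.range (cnt z.length κ)).map fun e => (List.range z.length).any fun i =>
    z.getD i false && decide (i % (z.length.size + 1) = κ) &&
      decide (i / (z.length.size + 1) / 2 ^ κ = e)

/-- the language: at one of the scales the string which is read is in the language `PadL` -/
def TagL : Set (List Bool) := {z | ∃ κ ≤ z.length.size, rdT z κ ∈ PadL}

/-- Statement: the language is in P. -/
def StTP : Prop := InP TagL

/-- Statement: the language is monotone. -/
def StTM : Prop := ∀ x y : List Bool, x.length = y.length →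
  (∀ i, x.getD i false = true → y.getD i false = true) → x ∈ TagL → y ∈ TagL

end Pool.Agent.NPC.L0h35Tg

open Pool.Agent.NPC Pool.Agent.L0h35.Ng in
open scoped Classical in
/-- Statement: the final theorem on faulty negations. -/
def Pool.Agent.L0h35.StTg : Prop := ∃ L : Set (List Bool), InP L ∧
    (∀ x y : List Bool, x.length = y.length →
      (∀ i, x.getD i false = true → y.getD i false = true) → x ∈ L → y ∈ L) ∧
    ∃ n₀ : ℕ, ∀ n : ℕ, n₀ ≤ n → ∀ D : ℕ, 1 ≤ D → D * Real.logb 2 n ^ 34 ≤ n →
      ∀ (Ω : Type) [Fintype Ω] [Nonempty Ω] (C : Ω → Circuit (n + n)),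
        (∀ ω, (C ω).nots = 0) →
        (∀ x : Fin n → Bool, List.ofFn x ∈ L →
          (4 / 5 : ℝ) * (Fintype.card Ω * (D : ℝ) ^ n) ≤
            Fintype.card {s : Ω × (Fin n → Fin D) // (C s.1).value
              (Fin.append x fun i => !x i && decide ((s.2 i : ℕ) ≠ 0)) = true}) →
        (∀ x : Fin n → Bool, List.ofFn x ∉ L →
          (Fintype.card {ω : Ω // (C ω).value (Fin.append x fun i => !x i) = true} : ℝ) ≤
            1 / 4 * Fintype.card Ω) →
        ∃ ω, (n / (D * Real.logb 2 n ^ 4)) ^ (1 / 30 : ℝ) ≤ ((C ω).depth : ℝ) ∧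
          (2 : ℝ) ^ ((n / (D * Real.logb 2 n ^ 4)) ^ (1 / 30 : ℝ)) ≤ ((C ω).size : ℝ)
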