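import Pool.Agent.L0h35.TgDefs

/-!
# The language with tags: in P, monotone
-/

set_option autoImplicit false

open scoped Classical

namespace Pool.Agent.NPC.L0h35Tg

open Pool.Agent.NPC Pool.Agent.NPC.L0h35Ng Pool.Agent.NPC.L0h35Pm

/-- a power of two which is not too large -/
def pw (N κ : ℕ) : ℕ := 2 ^ (min κ N.size)

/-- the number of equations, second form -/
def cnt' (N κ : ℕ) : ℕ := N / ((N.size + 1) * pw N κ)

/-- the string which is read, second form -/
def rdT' (z : List Bool) (κ : ℕ) : List Bool :=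
  (List.range (cnt' z.length κ)).map fun e => (List.range z.length).any fun i =>
    z.getD i false && decide (i % (z.length.size + 1) = κ) &&
      decide (i / (z.length.size + 1) / pw z.length κ = e)

theorem rdT'_eq {z : List Bool} {κ : ℕ} (h : κ ≤ z.length.size) : rdT' z κ = rdT z κ := by
  unfold rdT' rdT cnt' cnt pw
  rw [min_eq_left h]

/-- the algorithm -/
def algT (z : List Bool) : Bool := (List.range (z.length.size + 1)).any fun κ => algP (rdT' z κ)

section Poly

variable {α : Type} [TEnc α]

theorem uPoly_size' {n : α → ℕ} (hn : Poly n) : UPoly (fun a => (n a).size) := uPoly_size hn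

theorem poly_pw {N κ : α → ℕ} (hN : Poly N) (hκ : Poly κ) : Poly (fun a => pw (N a) (κ a)) := by
  have h1 : UPoly (fun a => (N a).size) := uPoly_size hN
  have h2 : UPoly (fun a => min (κ a) (N a).size) :=
    UPoly.of_le (Poly.min hκ (UPoly.toPoly h1)) h1 (fun a => min_le_right _ _)
  have h3 : Poly (fun a => (List.range (min (κ a) (N a).size)).map (fun _ => false) ++ [true]) := by
    have := h2.range
    fun_prop
  refine (Poly.valBits h3).congr fun a => ?_
  have h4 : (List.range (min (κ a) (N a).size)).map (fun _ => false) =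
      List.replicate (min (κ a) (N a).size) false := by
    simp
  rw [h4, valB_replicate_false]
  unfold pw
  simp

theorem poly_cnt' {N κ : α → ℕ} (hN : Poly N) (hκ : Poly κ) :
    Poly (fun a => cnt' (N a) (κ a)) := by
  have h1 : Poly (fun a => (N a).size) := (uPoly_size hN).toPoly
  have h2 := poly_pw hN hκ
  unfold cnt'
  fun_prop

end Poly

theorem poly_rdT' : Poly (fun p : List Bool × ℕ => rdT' p.1 p.2) := by
  unfold rdT'
  have hl : Poly (fun p : List Bool × ℕ => p.1.length) := Poly.length (Poly.fst Poly.id)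
  have h1 : UPoly (fun p : List Bool × ℕ => cnt' p.1.length p.2) :=
    UPoly.of_le (poly_cnt' hl (Poly.snd Poly.id)) (UPoly.length (Poly.fst Poly.id))
      (fun p => Nat.div_le_self _ _)
  refine Poly.map (α := List Bool × ℕ) (β := ℕ) (γ := Bool)
    (F := fun p e => (List.range p.1.length).any fun i =>
      p.1.getD i false && decide (i % (p.1.length.size + 1) = p.2) &&
        decide (i / (p.1.length.size + 1) / pw p.1.length p.2 = e)) h1.range ?_
  have h2 : Poly (fun q : (List Bool × ℕ) × ℕ => List.range q.1.1.length) :=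
    Poly.range_length (Poly.fst (Poly.fst Poly.id))
  refine Poly.any (α := (List Bool × ℕ) × ℕ) (β := ℕ)
    (p := fun q i => q.1.1.getD i false && decide (i % (q.1.1.length.size + 1) = q.1.2) &&
        decide (i / (q.1.1.length.size + 1) / pw q.1.1.length q.1.2 = q.2)) h2 ?_
  have h3 : Poly (fun q : ((List Bool × ℕ) × ℕ) × ℕ => q.1.1.1.length) :=
    Poly.length (Poly.fst (Poly.fst (Poly.fst Poly.id)))
  have h4 : Poly (fun q : ((List Bool × ℕ) × ℕ) × ℕ => q.1.1.1.length.size) :=
    (uPoly_size h3).toPoly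
  have h5 : Poly (fun q : ((List Bool × ℕ) × ℕ) × ℕ => pw q.1.1.1.length q.1.1.2) :=
    poly_pw h3 (Poly.snd (Poly.fst (Poly.fst Poly.id)))
  fun_prop

theorem poly_algT : Poly algT := by
  unfold algT
  have h1 : UPoly (fun z : List Bool => z.length.size + 1) :=
    (uPoly_size (Poly.length Poly.id)).add (UPoly.const 1)
  refine Poly.any (α := List Bool) (β := ℕ) (p := fun z κ => algP (rdT' z κ)) h1.range ?_
  exact Poly.comp (g := algP) (f := fun q : List Bool × ℕ => rdT' q.1 q.2) poly_algP poly_rdT'

theorem algT_iff (z : List Bool) : algT z = true ↔ z ∈ TagL := by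
  unfold algT TagL
  rw [Set.mem_ofPred_eq, List.any_eq_true]
  constructor
  · rintro ⟨κ, h1, h2⟩
    rw [List.mem_range] at h1
    refine ⟨κ, by omega, ?_⟩
    rw [← rdT'_eq (by omega), ← algP_iff]
    exact h2
  · rintro ⟨κ, h1, h2⟩
    refine ⟨κ, List.mem_range.2 (by omega), ?_⟩
    rw [rdT'_eq h1, algP_iff]
    exact h2

theorem stTP : StTP :=
  ⟨fun x => [algT x], polyTime_of_poly poly_algT, fun x => by
    rw [← algT_iff]
    simp⟩

theorem length_rdT (z : List Bool) (κ : ℕ) : (rdT z κ).length = cnt z.length κ := by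
  unfold rdT
  simp

theorem getD_rdT (z : List Bool) (κ e : ℕ) : (rdT z κ).getD e false = true ↔
    e < cnt z.length κ ∧ ∃ i < z.length, z.getD i false = true ∧
      i % (z.length.size + 1) = κ ∧ i / (z.length.size + 1) / 2 ^ κ = e := by
  unfold rdT
  rw [List.getD_eq_getElem?_getD, List.getElem?_map]
  by_cases he : e < cnt z.length κ
  · rw [List.getElem?_range he]
    simp only [Option.map_some, Option.getD_some, List.any_eq_true, List.mem_range,
      Bool.and_eq_true, decide_eq_true_eq, he, true_and]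
    constructor
    · rintro ⟨i, h1, ⟨h2, h3⟩, h4⟩
      exact ⟨i, h1, h2, h3, h4⟩
    · rintro ⟨i, h1, h2, h3, h4⟩
      exact ⟨i, h1, ⟨h2, h3⟩, h4⟩
  · rw [List.getElem?_eq_none (by simpa using he)]
    simp [he]

theorem stTM : StTM := by
  rintro x y hlen h ⟨κ, hκ, hx⟩
  refine ⟨κ, hlen ▸ hκ, ?_⟩
  refine pad_mono (x := rdT x κ) ?_ ?_ hx
  · rw [length_rdT, length_rdT, hlen]
  · intro e he
    rw [getD_rdT] at he ⊢
    obtain ⟨h1, i, h2, h3, h4, h5⟩ := he
    rw [hlen] at h1 h2 h4 h5
    exact ⟨h1, i, h2, h _ h3, h4, h5⟩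

end Pool.Agent.NPC.L0h35Tg

namespace Pool.Agent.L0h35.Ng.Circuit

variable {n : ℕ}

theorem gate_of_nots (C : Circuit n) (h : C.nots = 0) (k : Fin C.nodes) (i : Fin (k : ℕ)) :
    C.gate k ≠ .not i := by
  intro hk
  unfold nots at h
  rw [Nat.card_eq_zero] at h
  rcases h with h | h
  · exact h.false ⟨k, i, hk⟩
  · exact h.not_finite inferInstance

theorem eval_mono (C : Circuit n) (h : C.nots = 0) {x y : Fin n → Bool}
    (hxy : ∀ i, x i = true → y i = true) (k : Fin C.nodes) :
    C.eval x k = true → C.eval y k = true := by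
  induction k using WellFoundedLT.induction with
  | _ k ih =>
  cases hg : C.gate k with
  | var i =>
    rw [C.eval_var hg, C.eval_var hg]
    exact hxy i
  | const b =>
    rw [C.eval_const hg, C.eval_const hg]
    exact id
  | not i => exact absurd hg (C.gate_of_nots h k i)
  | and i j =>
    rw [C.eval_and hg, C.eval_and hg, Bool.and_eq_true, Bool.and_eq_true]
    exact fun h => ⟨ih _ (C.up_lt k i) h.1, ih _ (C.up_lt k j) h.2⟩
  | or i j =>
    rw [C.eval_or hg, C.eval_or hg, Bool.or_eq_true, Bool.or_eq_true]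
    exact fun h => h.imp (ih _ (C.up_lt k i)) (ih _ (C.up_lt k j))

theorem value_mono (C : Circuit n) (h : C.nots = 0) {x y : Fin n → Bool}
    (hxy : ∀ i, x i = true → y i = true) : C.value x = true → C.value y = true :=
  C.eval_mono h hxy C.out

end Pool.Agent.L0h35.Ng.Circuit
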