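import Pool.Agent.L0h35.TgLang

/-!
# Circuits with faulty negations: the final theorem
-/

set_option autoImplicit false

open scoped Classical

namespace Pool.Agent.NPC.L0h35Tg

open Pool.Agent.NPC Pool.Agent.NPC.L0h35Ng Pool.Agent.Y630.TF Pool.Agent.Y630.NW

section slot

/-- the position of a tag -/
def pos (n κ e t : ℕ) : ℕ := (e * 2 ^ κ + t) * (n.size + 1) + κ

theorem pos_mod {n κ : ℕ} (hκ : κ ≤ n.size) (e t : ℕ) : pos n κ e t % (n.size + 1) = κ := by
  unfold pos
  rw [mul_comm, Nat.mul_add_mod, Nat.mod_eq_of_lt (by omega)]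

theorem pos_div {n κ : ℕ} (hκ : κ ≤ n.size) (e t : ℕ) :
    pos n κ e t / (n.size + 1) = e * 2 ^ κ + t := by
  unfold pos
  rw [mul_comm, Nat.mul_add_div (by omega), Nat.div_eq_of_lt (by omega), add_zero]

theorem pos_div' {n κ : ℕ} (hκ : κ ≤ n.size) (e t : ℕ) (ht : t < 2 ^ κ) :
    pos n κ e t / (n.size + 1) / 2 ^ κ = e := by
  rw [pos_div hκ, mul_comm, Nat.mul_add_div (by positivity), Nat.div_eq_of_lt ht, add_zero]

theorem pos_lt {n κ : ℕ} (hκ : κ ≤ n.size) {e t : ℕ} (he : e < cnt n κ) (ht : t < 2 ^ κ) :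
    pos n κ e t < n := by
  unfold cnt at he
  have h1 : (e + 1) * ((n.size + 1) * 2 ^ κ) ≤ n :=
    (Nat.mul_le_mul_right _ he).trans (Nat.div_mul_le_self _ _)
  refine lt_of_lt_of_le ?_ h1
  unfold pos
  calc (e * 2 ^ κ + t) * (n.size + 1) + κ < (e * 2 ^ κ + t) * (n.size + 1) + (n.size + 1) := by
        omega
    _ = (e * 2 ^ κ + t + 1) * (n.size + 1) := by ring
    _ ≤ (e * 2 ^ κ + 2 ^ κ) * (n.size + 1) := Nat.mul_le_mul_right _ (by omega)
    _ = _ := by ring

/-- the positions of the tags -/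
def slot (n κ : ℕ) (hκ : κ ≤ n.size) : Fin (cnt n κ) × ZMod (2 ^ κ) ↪ Fin n where
  toFun p := ⟨pos n κ p.1 p.2.val, pos_lt hκ p.1.2 (ZMod.val_lt _)⟩
  inj' := by
    rintro ⟨e, t⟩ ⟨e', t'⟩ h
    have h1 : pos n κ e t.val = pos n κ e' t'.val := congrArg Fin.val h
    have h2 : (e : ℕ) = e' := by
      rw [← pos_div' hκ e t.val (ZMod.val_lt _), h1, pos_div' hκ e' t'.val (ZMod.val_lt _)]
    have h3 : t.val = t'.val := by
      have h4 := pos_div hκ e t.val
      rw [h1, pos_div hκ, h2] at h4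
      omega
    exact Prod.ext (Fin.ext h2) (ZMod.val_injective _ h3)

variable {n κ : ℕ} (hκ : κ ≤ n.size) (τ : Fin (cnt n κ) → ZMod (2 ^ κ))
  (y : Fin (cnt n κ) → Bool)

theorem getD_host (i : ℕ) :
    (List.ofFn (host (slot n κ hκ) (fun _ => false) τ y)).getD i false = true ↔
      ∃ e, y e = true ∧ pos n κ e (τ e).val = i := by
  rw [List.getD_eq_getElem?_getD, List.getElem?_ofFn]
  by_cases hi : i < n
  · simp only [hi, dif_pos, Option.getD_some]
    rw [host_true]
    constructor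
    · rintro (h | ⟨x, h1, h2⟩)
      · exact absurd h Bool.false_ne_true
      · exact ⟨x, h1, congrArg Fin.val h2⟩
    · rintro ⟨x, h1, h2⟩
      exact Or.inr ⟨x, h1, Fin.ext h2⟩
  · simp only [hi, dif_neg, not_false_eq_true, Option.getD_none, Bool.false_eq_true, false_iff]
    rintro ⟨x, h1, h2⟩
    exact hi (h2 ▸ pos_lt hκ x.2 (ZMod.val_lt _))

theorem rd_host : rdT (List.ofFn (host (slot n κ hκ) (fun _ => false) τ y)) κ = List.ofFn y := by
  refine List.ext_getElem ?_ fun e h1 h2 => ?_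
  · rw [length_rdT, List.length_ofFn, List.length_ofFn]
  · rw [Bool.eq_iff_iff]
    have h3 : ∀ (l : List Bool) (h : e < l.length), l[e] = l.getD e false := fun l h => by
      rw [List.getD_eq_getElem?_getD, List.getElem?_eq_getElem h, Option.getD_some]
    rw [h3 _ h1, getD_rdT, List.getElem_ofFn]
    rw [List.length_ofFn] at h2
    rw [List.length_ofFn]
    constructor
    · rintro ⟨-, i, -, h5, h6, h7⟩
      rw [getD_host] at h5
      obtain ⟨x, h8, h9⟩ := h5
      rw [← h9, pos_div' hκ _ _ (ZMod.val_lt _)] at h7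
      have : x = ⟨e, h2⟩ := Fin.ext h7
      rw [← this]
      exact h8
    · intro hy
      refine ⟨h2, pos n κ e (τ ⟨e, h2⟩).val, pos_lt hκ h2 (ZMod.val_lt _), ?_, pos_mod hκ _ _,
        pos_div' hκ _ _ (ZMod.val_lt _)⟩
      rw [getD_host]
      exact ⟨⟨e, h2⟩, hy, rfl⟩

theorem rd_other {κ' : ℕ} (h : κ' ≠ κ) :
    rdT (List.ofFn (host (slot n κ hκ) (fun _ => false) τ y)) κ' ∉ PadL := by
  intro hmem
  apply hmem
  refine ⟨fun _ => 0, fun e _ he => ?_⟩
  rw [getD_rdT] at he
  obtain ⟨-, i, -, h5, h6, h7⟩ := he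
  rw [getD_host] at h5
  obtain ⟨x, h8, h9⟩ := h5
  rw [List.length_ofFn, ← h9, pos_mod hκ] at h6
  exact absurd h6.symm h

theorem host_mem : List.ofFn (host (slot n κ hκ) (fun _ => false) τ y) ∈ TagL ↔
    List.ofFn y ∈ PadL := by
  constructor
  · rintro ⟨κ', h1, h2⟩
    by_cases h : κ' = κ
    · rw [h, rd_host] at h2
      exact h2
    · exact absurd h2 (rd_other hκ τ y h)
  · intro h
    refine ⟨κ, by rwa [List.length_ofFn], ?_⟩
    rw [rd_host]
    exact h

end slot

/-- the choice of the scale -/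
theorem tg_num {n D : ℕ} {l : ℝ} (hl : l = Real.logb 2 n) (hl64 : 64 ≤ l) (hn : 1 ≤ n)
    (hD : 1 ≤ D) (hDn : D * l ^ 34 ≤ n) : ∃ κ ≤ n.size,
      (D : ℝ) * (Real.log n + 4) ≤ ((2 ^ κ : ℕ) : ℝ) ∧ (n : ℝ) / (D * l ^ 3) ≤ cnt n κ := by
  have hnr : (1 : ℝ) ≤ n := by exact_mod_cast hn
  have hDr : (1 : ℝ) ≤ D := by exact_mod_cast hD
  have hl0 : 0 < l := by linarith
  have hl2N : (2 : ℝ) ^ l = n := by
    rw [hl]; exact Real.rpow_logb (by norm_num) (by norm_num) (by linarith)
  have hlog0 : 0 ≤ Real.log n := Real.log_nonneg hnr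
  have hlog : Real.log n ≤ l := by
    rw [← hl2N, Real.log_rpow (by norm_num)]
    have h1 : Real.log 2 ≤ 1 := by
      have := Real.log_two_lt_d9
      linarith
    nlinarith
  obtain ⟨A, hA⟩ : ∃ A, A = ⌈(D : ℝ) * (Real.log n + 4)⌉₊ := ⟨_, rfl⟩
  have hA1 : (D : ℝ) * (Real.log n + 4) ≤ A := by rw [hA]; exact Nat.le_ceil _
  have hA2 : (A : ℝ) ≤ D * (l + 5) := by
    have h1 : (A : ℝ) < (D : ℝ) * (Real.log n + 4) + 1 := by
      rw [hA]; exact Nat.ceil_lt_add_one (by positivity)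
    nlinarith
  have hA4 : 1 < A := by
    have h1 : (4 : ℝ) ≤ A := by nlinarith
    have h2 : 4 ≤ A := by exact_mod_cast h1
    omega
  obtain ⟨κ, hκ⟩ : ∃ κ, κ = Nat.clog 2 A := ⟨_, rfl⟩
  have hκ1 : A ≤ 2 ^ κ := by rw [hκ]; exact Nat.le_pow_clog (by norm_num) _
  have hκ0 : 1 ≤ κ := by
    by_contra h
    have h0 : κ = 0 := by omega
    rw [h0] at hκ1
    omega
  have hκ2 : 2 ^ κ ≤ 2 * A := by
    have h1 : 2 ^ (Nat.clog 2 A).pred < A := Nat.pow_pred_clog_lt_self (by norm_num) hA4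
    rw [← hκ] at h1
    have h2 : 2 ^ κ = 2 ^ κ.pred * 2 := by
      rw [← pow_succ]
      congr 1
      simp only [Nat.pred_eq_sub_one]
      omega
    omega
  have hK : ((2 ^ κ : ℕ) : ℝ) ≤ 3 * (D * l) := by
    have h1 : ((2 ^ κ : ℕ) : ℝ) ≤ ((2 * A : ℕ) : ℝ) := by exact_mod_cast hκ2
    push_cast at h1 ⊢
    nlinarith
  have hl34 : 64 * l ≤ l ^ 34 := by
    have h1 : (64 : ℝ) ≤ l ^ 33 := hl64.trans (le_self_pow₀ (by linarith) (by norm_num))
    calc 64 * l ≤ l ^ 33 * l := mul_le_mul_of_nonneg_right h1 hl0.le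
      _ = l ^ 34 := by ring
  have hKn : 2 ^ κ ≤ n := by
    have h1 : ((2 ^ κ : ℕ) : ℝ) ≤ (n : ℝ) := by
      refine hK.trans (le_trans ?_ hDn)
      have : (D : ℝ) * (64 * l) ≤ D * l ^ 34 := mul_le_mul_of_nonneg_left hl34 (by linarith)
      nlinarith
    exact_mod_cast h1
  have hκs : κ < n.size := Nat.lt_size.2 hKn
  refine ⟨κ, hκs.le, hA1.trans (by exact_mod_cast hκ1), ?_⟩
  have hsz : ((n.size : ℕ) : ℝ) ≤ l + 1 := by
    have h2 : 2 ^ (n.size - 1) ≤ n := Nat.lt_size.1 (by omega)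
    have h3 : (2 : ℝ) ^ (n.size - 1 : ℕ) ≤ n := by exact_mod_cast h2
    rw [← hl2N, ← Real.rpow_natCast] at h3
    have h4 := (Real.rpow_le_rpow_left_iff (by norm_num)).1 h3
    rw [Nat.cast_sub (by omega)] at h4
    push_cast at h4
    linarith
  have hK0 : (0 : ℝ) < ((2 ^ κ : ℕ) : ℝ) := by positivity
  have hden : (((n.size + 1) * 2 ^ κ : ℕ) : ℝ) ≤ 6 * (D * l ^ 2) := by
    have h1 : ((n.size : ℝ) + 1) ≤ 2 * l := by linarith
    have h2 : (((n.size + 1) * 2 ^ κ : ℕ) : ℝ) = ((n.size : ℝ) + 1) * ((2 ^ κ : ℕ) : ℝ) := by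
      push_cast
      ring
    rw [h2]
    calc ((n.size : ℝ) + 1) * ((2 ^ κ : ℕ) : ℝ) ≤ (2 * l) * (3 * (D * l)) :=
          mul_le_mul h1 hK hK0.le (by positivity)
      _ = 6 * (D * l ^ 2) := by ring
  have hden0 : (0 : ℝ) < (((n.size + 1) * 2 ^ κ : ℕ) : ℝ) := by positivity
  have hcnt : (n : ℝ) / (6 * (D * l ^ 2)) - 1 ≤ cnt n κ := by
    have h1 : (n : ℝ) / (((n.size + 1) * 2 ^ κ : ℕ) : ℝ) - 1 ≤ cnt n κ := by
      have h3 : n < (n / ((n.size + 1) * 2 ^ κ) + 1) * ((n.size + 1) * 2 ^ κ) :=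
        Nat.lt_mul_of_div_lt (Nat.lt_succ_self _) (by positivity)
      have h4 : (n : ℝ) < ((cnt n κ : ℕ) + 1) * (((n.size + 1) * 2 ^ κ : ℕ) : ℝ) := by
        unfold cnt
        exact_mod_cast h3
      rw [sub_le_iff_le_add, div_le_iff₀ hden0]
      exact h4.le
    have h2 : (n : ℝ) / (6 * (D * l ^ 2)) ≤ (n : ℝ) / (((n.size + 1) * 2 ^ κ : ℕ) : ℝ) :=
      div_le_div_of_nonneg_left (by linarith) hden0 hden
    linarith
  have h5 : (n : ℝ) / (D * l ^ 3) ≤ (n : ℝ) / (6 * (D * l ^ 2)) - 1 := by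
    have hDl : (0 : ℝ) < D * l ^ 2 := by positivity
    have e1 : (n : ℝ) / (D * l ^ 3) = (n / (D * l ^ 2)) / l := by field_simp
    have e2 : (n : ℝ) / (6 * (D * l ^ 2)) = (n / (D * l ^ 2)) / 6 := by field_simp
    rw [e1, e2]
    set q : ℝ := n / (D * l ^ 2) with hq
    have hq1 : l ≤ q := by
      rw [hq, le_div_iff₀ hDl]
      refine le_trans ?_ hDn
      have h6 : l * (D * l ^ 2) = D * l ^ 3 := by ring
      rw [h6]
      exact mul_le_mul_of_nonneg_left (pow_le_pow_right₀ (by linarith) (by norm_num)) (by linarith)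
    have h7 : q / l ≤ q / 64 := div_le_div_of_nonneg_left (by linarith) (by norm_num) hl64
    linarith
  linarith

end Pool.Agent.NPC.L0h35Tg

namespace Pool.Agent.NPC.L0h35Tg

/-- the number of places -/
theorem places {D K : ℕ} (hD : 0 < D) {n : ℝ} (hn : 0 < n)
    (hK : D * (Real.log n + 4) ≤ K) : n * (1 - 1 / (D : ℝ)) ^ K ≤ 1 / 40 := by
  have hDR : (0 : ℝ) < D := by exact_mod_cast hD
  have h0 : (0 : ℝ) ≤ 1 - 1 / (D : ℝ) := by
    rw [sub_nonneg, div_le_one hDR]
    exact_mod_cast hD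
  have h1 : (1 - 1 / (D : ℝ)) ≤ Real.exp (-(1 / D)) := by
    have := Real.add_one_le_exp (-(1 / (D : ℝ)))
    linarith
  have h2 : (1 - 1 / (D : ℝ)) ^ K ≤ Real.exp (-(K / D)) := by
    calc (1 - 1 / (D : ℝ)) ^ K ≤ Real.exp (-(1 / D)) ^ K := pow_le_pow_left₀ h0 h1 K
      _ = Real.exp (-(K / D)) := by
          rw [← Real.exp_nat_mul]
          congr 1
          ring
  have h3 : Real.log n + 4 ≤ K / D := by
    rw [le_div_iff₀ hDR]
    linarith
  have h4 : Real.exp (-(K / D)) ≤ Real.exp (-(Real.log n + 4)) := by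
    apply Real.exp_le_exp.mpr
    linarith
  have h5 : n * Real.exp (-(Real.log n + 4)) = Real.exp (-4) := by
    rw [neg_add, Real.exp_add, Real.exp_neg (Real.log n), Real.exp_log hn]
    field_simp
  have h6 : Real.exp (-4) ≤ 1 / 40 := by
    have h7 : Real.exp (-4) = Real.exp (-1) ^ 4 := by
      rw [← Real.exp_nat_mul]
      norm_num
    have h8 := Real.exp_neg_one_lt_d9
    have h9 : Real.exp (-1) ^ 4 ≤ (0.3678794412 : ℝ) ^ 4 :=
      pow_le_pow_left₀ (Real.exp_pos _).le h8.le 4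
    rw [h7]
    refine h9.trans ?_
    norm_num
  calc n * (1 - 1 / (D : ℝ)) ^ K ≤ n * Real.exp (-(Real.log n + 4)) :=
        mul_le_mul_of_nonneg_left (h2.trans h4) hn.le
    _ = Real.exp (-4) := h5
    _ ≤ 1 / 40 := h6

end Pool.Agent.NPC.L0h35Tg

namespace Pool.Agent.L0h35

open Pool.Agent.NPC Pool.Agent.NPC.L0h35Tg Pool.Agent.NPC.L0h35Pm Pool.Agent.L0h35.Ng
  Pool.Agent.Y630.TF Pool.Agent.Y630.NW Finset

theorem card_sub_ncard {α : Type} [Fintype α] (p : α → Prop) [i : Fintype {a // p a}] :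
    @Fintype.card {a // p a} i = {a | p a}.ncard := by
  rw [← Nat.card_eq_fintype_card, ← Nat.card_coe_set_eq]
  rfl

theorem card_filter_ncard {α : Type} [Fintype α] (p : α → Prop) [DecidablePred p] :
    (univ.filter p).card = {a | p a}.ncard := by
  rw [Set.ncard_eq_toFinset_card']
  congr 1
  ext a
  simp

/-- **The final theorem on faulty negations.** -/
theorem stTg : StTg := by
  obtain ⟨n0, hmain⟩ := L0h35Ng.final_eps
  have ht : Filter.Tendsto (fun n : ℕ => Real.logb 2 (n : ℝ)) Filter.atTop Filter.atTop :=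
    (Real.tendsto_logb_atTop (by norm_num)).comp tendsto_natCast_atTop_atTop
  obtain ⟨n1, hn1⟩ := Filter.eventually_atTop.1
    (ht.eventually (Filter.eventually_ge_atTop (max (n0 : ℝ) 64)))
  refine ⟨TagL, stTP, stTM, max n1 1, ?_⟩
  intro n hn D hD hDn Ω _ _ C hC hyes hno
  have hn1' := hn1 n ((le_max_left _ _).trans hn)
  have hnpos : 1 ≤ n := (le_max_right _ _).trans hn
  have hnr : (1 : ℝ) ≤ n := by exact_mod_cast hnpos
  have hDr : (1 : ℝ) ≤ D := by exact_mod_cast hD
  set l : ℝ := Real.logb 2 n with hl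
  have hln0 : (n0 : ℝ) ≤ l := (le_max_left _ _).trans hn1'
  have hl64 : (64 : ℝ) ≤ l := (le_max_right _ _).trans hn1'
  have hl0 : 0 < l := by linarith
  obtain ⟨κ, hκ, hplaces, hcnt⟩ := tg_num hl hl64 hnpos hD hDn
  obtain ⟨m, hm⟩ : ∃ m, m = cnt n κ := ⟨_, rfl⟩
  have hmn : m ≤ n := by
    rw [hm]
    exact Nat.div_le_self _ _
  -- size of `m`
  have hl31 : l ^ 31 ≤ n / (D * l ^ 3) := by
    rw [le_div_iff₀ (by positivity)]
    calc l ^ 31 * (D * l ^ 3) = D * l ^ 34 := by ring
      _ ≤ (n : ℝ) := hDn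
  rw [← hm] at hcnt
  have hm31 : l ^ 31 ≤ m := hl31.trans hcnt
  have hm0 : (0 : ℝ) < m := lt_of_lt_of_le (by positivity) hm31
  have hm1 : (1 : ℝ) ≤ m := by
    have : 0 < m := by exact_mod_cast hm0
    exact_mod_cast this
  have hlm : l ≤ m := (le_self_pow₀ (by linarith) (by norm_num)).trans hm31
  have hmn0 : n0 ≤ m := by exact_mod_cast hln0.trans hlm
  have hlogm : Real.logb 2 m ≤ l := by
    rw [hl]
    exact Real.logb_le_logb_of_le (by norm_num) hm0 (by exact_mod_cast hmn)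
  have hlogm0 : 0 ≤ Real.logb 2 m := Real.logb_nonneg (by norm_num) hm1
  have hr' : ((1 : ℕ) : ℝ) * (2 : ℝ) ^ 0 * Real.logb 2 m ^ 30 ≤ 1 / 4 * m := by
    have h1 : Real.logb 2 m ^ 30 ≤ l ^ 30 := pow_le_pow_left₀ hlogm0 hlogm 30
    have h2 : 4 * l ^ 30 ≤ l ^ 31 := by
      calc 4 * l ^ 30 ≤ l * l ^ 30 := mul_le_mul_of_nonneg_right (by linarith) (by positivity)
        _ = l ^ 31 := by ring
    rw [Nat.cast_one, one_mul, pow_zero, one_mul]
    linarith
  -- the circuits
  subst hm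
  obtain ⟨F, hF⟩ : ∃ F : Ω → (Fin n × Bool → Bool) → Prop, ∀ ρ u, F ρ u ↔
      (C ρ).value (Fin.append (fun i => u (i, true)) (fun i => u (i, false))) = true :=
    ⟨_, fun _ _ => Iff.rfl⟩
  have hFmono : ∀ ρ u v, u ≤ v → F ρ u → F ρ v := by
    intro ρ u v huv h
    rw [hF] at h ⊢
    refine (C ρ).value_mono (hC ρ) (fun i => ?_) h
    have hle : ∀ e, u e = true → v e = true := fun e he => by
      have := huv e
      rw [he] at this
      exact Bool.eq_true_of_true_le this
    refine Fin.addCases (fun a => ?_) (fun b => ?_) i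
    · rw [Fin.append_left, Fin.append_left]
      exact hle _
    · rw [Fin.append_right, Fin.append_right]
      exact hle _
  have hfix : ∀ (o : Ω × (Fin (cnt n κ) → ZMod (2 ^ κ))), ∃ C' : Circuit (cnt n κ),
      C'.nots = 0 ∧ C'.depth = (C o.1).depth ∧ C'.size = (C o.1).size ∧
      ∀ y : Fin (cnt n κ) → Bool, C'.value y = true ↔
        F o.1 (rlit (slot n κ hκ) (fun _ => false) o.2 y) := by
    rintro ⟨ρ, τ⟩
    obtain ⟨C', h1, h2, h3, h4⟩ := stFix (n + n) (cnt n κ) (C ρ)
      (Fin.append (fun i => if h : ∃ e, slot n κ hκ (e, τ e) = i then Sum.inl h.choose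
        else Sum.inr false)
        (fun i => Sum.inr (!host (slot n κ hκ) (fun _ => false) τ (fun _ => true) i)))
    refine ⟨C', by rw [h1]; exact hC ρ, h2, h3, fun y => ?_⟩
    rw [h4 y, hF]
    have h5 : (fun i => Sum.elim y id ((Fin.append
        (fun i => if h : ∃ e, slot n κ hκ (e, τ e) = i then Sum.inl h.choose else Sum.inr false)
        (fun i => Sum.inr (!host (slot n κ hκ) (fun _ => false) τ (fun _ => true) i)) :
          Fin (n + n) → Fin (cnt n κ) ⊕ Bool) i)) =
        Fin.append (fun i => rlit (slot n κ hκ) (fun _ => false) τ y (i, true))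
          (fun i => rlit (slot n κ hκ) (fun _ => false) τ y (i, false)) := by
      funext i
      refine Fin.addCases (fun a => ?_) (fun b => ?_) i
      · rw [Fin.append_left, Fin.append_left]
        simp only [rlit, if_true]
        by_cases h : ∃ e, slot n κ hκ (e, τ e) = a
        · rw [dif_pos h]
          change y h.choose = _
          rw [Bool.eq_iff_iff, host_true]
          have h6 := h.choose_spec
          constructor
          · intro h7
            exact Or.inr ⟨_, h7, h6⟩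
          · rintro (h7 | ⟨x, h7, h8⟩)
            · exact absurd h7 Bool.false_ne_true
            · have h9 := (slot n κ hκ).injective (h8.trans h6.symm)
              have h10 : x = h.choose := congrArg Prod.fst h9
              rw [← h10]
              exact h7
        · rw [dif_neg h]
          change false = _
          rw [eq_comm, ← Bool.not_eq_true, host_true]
          rintro (h7 | ⟨x, h7, h8⟩)
          · exact absurd h7 Bool.false_ne_true
          · exact h ⟨x, h8⟩
      · rw [Fin.append_right, Fin.append_right]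
        simp only [rlit, Bool.false_eq_true, if_false]
        rfl
    rw [h5]
  choose C' hC1 hC2 hC3 hC4 using hfix
  have hbad : (Fintype.card (Fin (cnt n κ)) : ℝ) *
      (1 - 1 / (D : ℝ)) ^ Fintype.card (ZMod (2 ^ κ)) ≤ (1 / 20) / 2 := by
    rw [Fintype.card_fin, ZMod.card]
    have h1 := places (D := D) (K := 2 ^ κ) (by omega) (by linarith : (0 : ℝ) < n) hplaces
    have h2 : (0 : ℝ) ≤ (1 - 1 / (D : ℝ)) ^ (2 ^ κ) := by
      refine pow_nonneg ?_ _
      rw [sub_nonneg, div_le_one (by linarith)]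
      exact hDr
    have h3 : ((cnt n κ : ℕ) : ℝ) ≤ n := by exact_mod_cast hmn
    have h4 := mul_le_mul_of_nonneg_right h3 h2
    linarith
  have key := hmain (cnt n κ) hmn0 0 (cnt n κ) 1 0 (1 / 4) (by omega) le_rfl le_rfl (by norm_num)
    (by norm_num) hr' (Ω × (Fin (cnt n κ) → ZMod (2 ^ κ))) (fun _ b => b 0) (fun o _ => C' o)
    (fun o _ => by rw [hC1]) ?_
  · push Not at key
    obtain ⟨o, i, h1, h2⟩ := key
    have hmono : (n / (D * l ^ 4)) ^ (1 / 30 : ℝ) ≤
        (1 / 4 * ((cnt n κ : ℕ) : ℝ) / (((1 : ℕ) : ℝ) * 2 ^ 0)) ^ (1 / 30 : ℝ) := by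
      refine Real.rpow_le_rpow (by positivity) ?_ (by norm_num)
      have e1 : (n : ℝ) / (D * l ^ 4) = (n / (D * l ^ 3)) / l := by field_simp
      have e2 : (1 / 4 * ((cnt n κ : ℕ) : ℝ) / (((1 : ℕ) : ℝ) * 2 ^ 0)) =
          ((cnt n κ : ℕ) : ℝ) / 4 := by
        rw [Nat.cast_one, pow_zero]
        ring
      rw [e1, e2]
      have h3 : (0 : ℝ) ≤ n / (D * l ^ 3) := by positivity
      calc (n : ℝ) / (D * l ^ 3) / l ≤ n / (D * l ^ 3) / 4 :=
            div_le_div_of_nonneg_left h3 (by norm_num) (by linarith)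
        _ ≤ ((cnt n κ : ℕ) : ℝ) / 4 := div_le_div_of_nonneg_right hcnt (by norm_num)
    refine ⟨o.1, ?_, ?_⟩
    · rw [← hC2 o]
      exact hmono.trans h2
    · rw [← hC3 o]
      refine le_trans ?_ h1
      exact Real.rpow_le_rpow_of_exponent_le (by norm_num) hmono
  · intro y _ _
    have hT : (0 : ℝ) ≤ Fintype.card (Ω × (Fin (cnt n κ) → ZMod (2 ^ κ))) := Nat.cast_nonneg _
    have hval : ∀ o : Ω × (Fin (cnt n κ) → ZMod (2 ^ κ)), ((C' o).value y = true ↔
        F o.1 (rlit (slot n κ hκ) (fun _ => false) o.2 y)) := fun o => hC4 o y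
    by_cases hy : List.ofFn y ∈ L0h35Ng.PadL
    · have h1 := transfer_yes (slot n κ hκ) (fun _ => false) (by omega) F hFmono (3 / 4) (1 / 20)
        hbad y (fun τ => by
          have h2 := hyes (host (slot n κ hκ) (fun _ => false) τ y) ((host_mem hκ τ y).2 hy)
          rw [card_sub_ncard] at h2
          rw [Fintype.card_fin]
          have e1 : (3 / 4 + 1 / 20 : ℝ) = 4 / 5 := by norm_num
          rw [e1]
          refine h2.trans (le_of_eq ?_)
          congr 2
          ext z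
          rw [Set.mem_ofPred_eq, Set.mem_ofPred_eq, hF]
          have e2 : (fun i => lit (host (slot n κ hκ) (fun _ => false) τ y) (Flt z.2) (i, true)) =
              host (slot n κ hκ) (fun _ => false) τ y := by
            funext i
            simp [lit]
          have e3 : (fun i => lit (host (slot n κ hκ) (fun _ => false) τ y) (Flt z.2) (i, false)) =
              fun i => !host (slot n κ hκ) (fun _ => false) τ y i &&
                decide ((z.2 i : ℕ) ≠ 0) := by
            funext i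
            by_cases h : (z.2 i : ℕ) = 0
            · have h' : i ∈ Flt z.2 := h
              simp [lit, h', h]
            · have h' : i ∉ Flt z.2 := h
              simp [lit, h', h]
          rw [e2, e3])
      have e4 : (univ.filter fun o : Ω × (Fin (cnt n κ) → ZMod (2 ^ κ)) =>
          ((fun (_ : Ω × (Fin (cnt n κ) → ZMod (2 ^ κ))) (b : Fin 1 → Bool) => b 0) o
            (fun i => (C' o).value y) = true ↔ List.ofFn y ∈ L0h35Ng.PadL)).card =
          {ρτ : Ω × (Fin (cnt n κ) → ZMod (2 ^ κ)) |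
            F ρτ.1 (rlit (slot n κ hκ) (fun _ => false) ρτ.2 y)}.ncard := by
        rw [card_filter_ncard]
        congr 1
        ext o
        rw [Set.mem_ofPred_eq, Set.mem_ofPred_eq, ← hval]
        simp [hy]
      rw [e4]
      refine le_trans ?_ h1
      nlinarith
    · have h1 := transfer_no (slot n κ hκ) (fun _ => false) F hFmono (1 / 4) y
        (fun τ => by
          have h2 := hno (host (slot n κ hκ) (fun _ => false) τ y)
            (fun h => hy ((host_mem hκ τ y).1 h))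
          rw [card_sub_ncard] at h2
          refine le_trans (le_of_eq ?_) h2
          congr 2
          ext z
          rw [Set.mem_ofPred_eq, Set.mem_ofPred_eq, hF]
          have e2 : (fun i => lit (host (slot n κ hκ) (fun _ => false) τ y) ∅ (i, true)) =
              host (slot n κ hκ) (fun _ => false) τ y := by
            funext i
            simp [lit]
          have e3 : (fun i => lit (host (slot n κ hκ) (fun _ => false) τ y) ∅ (i, false)) =
              fun i => !host (slot n κ hκ) (fun _ => false) τ y i := by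
            funext i
            simp [lit]
          rw [e2, e3])
      have e4 : ((univ.filter fun o : Ω × (Fin (cnt n κ) → ZMod (2 ^ κ)) =>
          ((fun (_ : Ω × (Fin (cnt n κ) → ZMod (2 ^ κ))) (b : Fin 1 → Bool) => b 0) o
            (fun i => (C' o).value y) = true ↔ List.ofFn y ∈ L0h35Ng.PadL)).card : ℝ) =
          Fintype.card (Ω × (Fin (cnt n κ) → ZMod (2 ^ κ))) -
          ({ρτ : Ω × (Fin (cnt n κ) → ZMod (2 ^ κ)) |
            F ρτ.1 (rlit (slot n κ hκ) (fun _ => false) ρτ.2 y)}.ncard : ℝ) := by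
        rw [eq_sub_iff_add_eq, ← card_filter_ncard]
        have e5 := Finset.card_filter_add_card_filter_not (s := (univ :
          Finset (Ω × (Fin (cnt n κ) → ZMod (2 ^ κ)))))
          (fun o => F o.1 (rlit (slot n κ hκ) (fun _ => false) o.2 y))
        rw [Finset.card_univ] at e5
        rw [← e5]
        push_cast
        rw [add_comm]
        congr 2
        refine congrArg Finset.card (Finset.filter_congr fun o _ => ?_)
        rw [← hval]
        simp [hy]
      rw [e4]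
      nlinarith

end Pool.Agent.L0h35
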