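import Mathlib
import Pool.Agent.L0h35.NgCircDefs

set_option autoImplicit false

/-!
# Monotone formulas, straight-line programs: definitions and module statements
-/

open scoped Classical

namespace Pool.Agent.L0h35.Ts

open Pool.Agent.L0h35.Ng

/-- monotone formulas with leaves in `α` -/
inductive MF (α : Type) : Type
  | leaf (a : α) : MF α
  | const (b : Bool) : MF α
  | and (F G : MF α) : MF α
  | or (F G : MF α) : MF α

namespace MF

variable {α β : Type}

/-- the value -/
def eval (v : α → Bool) : MF α → Bool
  | leaf a => v a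
  | const b => b
  | and F G => eval v F && eval v G
  | or F G => eval v F || eval v G

/-- the depth -/
def depth : MF α → ℕ
  | leaf _ => 0
  | const _ => 0
  | and F G => max (depth F) (depth G) + 1
  | or F G => max (depth F) (depth G) + 1

/-- substitution -/
def bind (s : α → MF β) : MF α → MF β
  | leaf a => s a
  | const b => const b
  | and F G => and (bind s F) (bind s G)
  | or F G => or (bind s F) (bind s G)

theorem eval_bind (s : α → MF β) (v : β → Bool) (F : MF α) :
    (F.bind s).eval v = F.eval fun a => (s a).eval v := by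
  induction F with
  | leaf a => rfl
  | const b => rfl
  | and F G hF hG => simp only [bind, eval, hF, hG]
  | or F G hF hG => simp only [bind, eval, hF, hG]

theorem depth_bind_le (s : α → MF β) (d : ℕ) (hs : ∀ a, (s a).depth ≤ d) (F : MF α) :
    (F.bind s).depth ≤ F.depth + d := by
  induction F with
  | leaf a => simpa [bind, depth] using hs a
  | const b => simp [bind, depth]
  | and F G hF hG => simp only [bind, depth]; omega
  | or F G hF hG => simp only [bind, depth]; omega

end MF

/-- the number of ones -/
def wt {n : ℕ} (x : Fin n → Bool) : ℕ := Fintype.card {i // x i = true}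

/-- **Statement THR** (Valiant): monotone formulas of logarithmic depth for the threshold
functions. -/
def StTHR : Prop := ∃ c : ℕ, ∀ n k : ℕ, ∃ F : MF (Fin n), F.depth ≤ c * (Nat.log 2 (n + 2)) ∧
  ∀ x : Fin n → Bool, F.eval x = decide (k ≤ wt x)

/-- straight-line programs with `r` NOT gates: lists of functions with bounds for the depth
(NOT gates are counted in the depth) -/
inductive SLP (n : ℕ) : ℕ → List (((Fin n → Bool) → Bool) × ℕ) → Prop
  | nil : SLP n 0 []
  | var {r l} (i : Fin n) : SLP n r l → SLP n r ((fun x => x i, 0) :: l)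
  | const {r l} (b : Bool) : SLP n r l → SLP n r ((fun _ => b, 0) :: l)
  | not {r l} (p : ((Fin n → Bool) → Bool) × ℕ) : SLP n r l → p ∈ l →
      SLP n (r + 1) ((fun x => !p.1 x, p.2 + 1) :: l)
  | and {r l} (p q : ((Fin n → Bool) → Bool) × ℕ) : SLP n r l → p ∈ l → q ∈ l →
      SLP n r ((fun x => p.1 x && q.1 x, max p.2 q.2 + 1) :: l)
  | or {r l} (p q : ((Fin n → Bool) → Bool) × ℕ) : SLP n r l → p ∈ l → q ∈ l →
      SLP n r ((fun x => p.1 x || q.1 x, max p.2 q.2 + 1) :: l)

end Pool.Agent.L0h35.Ts

namespace Pool.Agent.L0h35.Ng.Circuit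

variable {n : ℕ}

/-- The length of a longest path to the node `k`, NOT gates included. -/
def fullDepthAt (C : Circuit n) (k : Fin C.nodes) : ℕ :=
  match C.gate k with
  | .var _ => 0
  | .const _ => 0
  | .not i => C.fullDepthAt (C.up k i) + 1
  | .and i j => max (C.fullDepthAt (C.up k i)) (C.fullDepthAt (C.up k j)) + 1
  | .or i j => max (C.fullDepthAt (C.up k i)) (C.fullDepthAt (C.up k j)) + 1
termination_by (k : ℕ)
decreasing_by all_goals simp [up]

/-- The depth of a circuit: the length of a longest path to the output (AND, OR and NOT gates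
are counted). -/
def fullDepth (C : Circuit n) : ℕ := C.fullDepthAt C.out

end Pool.Agent.L0h35.Ng.Circuit

namespace Pool.Agent.L0h35.Ts

open Pool.Agent.L0h35.Ng

/-- **Statement SLP**: from straight-line programs to circuits. -/
def StSLP : Prop := ∀ (n r : ℕ) (l : List (((Fin n → Bool) → Bool) × ℕ)), SLP n r l →
  ∀ p ∈ l, ∃ C : Circuit n, C.nots ≤ r ∧ C.fullDepth ≤ p.2 ∧ ∀ x, C.value x = p.1 x

end Pool.Agent.L0h35.Ts
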