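import Pool.Agent.L0h35.TsFinal

set_option autoImplicit false

/-!
# P and NC1: equivalences with few NOT gates
-/

open scoped Classical
open Finset

namespace Pool.Agent.L0h35.Ts

open Pool.Agent.L0h35.Ng
open Pool.Agent.NPC

/-- The circuit `C` computes the language `L` on the strings of length `n`. -/
def Computes {n : ℕ} (C : Circuit n) (L : Set (List Bool)) : Prop :=
  ∀ x, C.value x = true ↔ List.ofFn x ∈ L

/-- The (nonuniform) class `NC1`: circuits of logarithmic depth. -/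
def NC1 (L : Set (List Bool)) : Prop :=
  ∃ c : ℕ, ∀ n : ℕ, 2 ≤ n → ∃ C : Circuit n, (C.fullDepth : ℝ) ≤ c * Real.logb 2 n ∧ Computes C L

/-- Monotone languages. -/
def MonLang (L : Set (List Bool)) : Prop := ∀ x y : List Bool, x.length = y.length →
  (∀ i, x.getD i false = true → y.getD i false = true) → x ∈ L → y ∈ L

theorem monLang_mon {L : Set (List Bool)} (hL : MonLang L) (n : ℕ) :
    Mon fun x : Fin n → Bool => decide (List.ofFn x ∈ L) := by
  intro x y h hx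
  rw [decide_eq_true_iff] at hx ⊢
  refine hL _ _ (by rw [List.length_ofFn, List.length_ofFn]) (fun i hi => ?_) hx
  by_cases hin : i < n
  · rw [List.getD_eq_getElem _ _ (by rw [List.length_ofFn]; exact hin), List.getElem_ofFn] at hi ⊢
    exact h _ hi
  · rw [List.getD_eq_default _ _ (by rw [List.length_ofFn]; omega)] at hi
    exact absurd hi Bool.false_ne_true

theorem one_le_logb {n : ℕ} (hn : 2 ≤ n) : 1 ≤ Real.logb 2 (n : ℝ) := by
  rw [Real.le_logb_iff_rpow_le (by norm_num) (by positivity), Real.rpow_one]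
  exact_mod_cast hn

theorem depth_le_full {n : ℕ} (C : Circuit n) : C.depth ≤ C.fullDepth := depthAt_le_full C C.out

theorem nc1_of_slc {L : Set (List Bool)} (h : NC1 (L0h35Ts.SlcL L)) : NC1 L := by
  obtain ⟨c, h⟩ := h
  refine ⟨2 * c + 1, fun n hn => ?_⟩
  obtain ⟨C, hC1, hC2⟩ := h (n + n) (by omega)
  obtain ⟨C', h1, h2⟩ := circ_lit (n := n) C
    (Fin.addCases (fun i => (i, true)) (fun i => (i, false)))
  refine ⟨C', ?_, fun x => ?_⟩
  · have e1 := one_le_logb hn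
    have hn0 : (0 : ℝ) < n := by positivity
    have e2 : Real.logb 2 ((n + n : ℕ) : ℝ) = 1 + Real.logb 2 n := by
      push_cast
      rw [← two_mul, Real.logb_mul (by norm_num) hn0.ne', Real.logb_self_eq_one (by norm_num)]
    rw [e2] at hC1
    have e3 : (C'.fullDepth : ℝ) ≤ C.fullDepth + 1 := by
      exact_mod_cast h1.trans (Nat.add_le_add_right (depth_le_full C) 1)
    have e4 : (0 : ℝ) ≤ c := Nat.cast_nonneg c
    push_cast
    nlinarith
  · rw [h2 x]
    have e1 : (fun i : Fin (n + n) => if ((Fin.addCases (fun i => (i, true)) (fun i => (i, false)) i :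
        Fin n × Bool)).2 = true then x ((Fin.addCases (fun i => (i, true)) (fun i => (i, false)) i :
        Fin n × Bool)).1 else !x ((Fin.addCases (fun i => (i, true)) (fun i => (i, false)) i :
        Fin n × Bool)).1) = Fin.append x fun i => !x i := by
      ext i
      induction i using Fin.addCases with
      | left i => simp
      | right i =>
        simp only [Fin.addCases_right, Fin.append_right]
        rfl
    rw [e1, hC2, List.ofFn_fin_append]
    have e2 : List.ofFn (fun i => !x i) = (List.ofFn x).map fun b => !b := by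
      rw [List.map_ofFn]
      rfl
    rw [e2]
    exact L0h35Ts.slc_pair L _

/-- if all is in NC1 then monotone languages in P have good circuits with few NOT gates -/
theorem transfer_lang {c : ℕ} (hc : HasThr c) {L : Set (List Bool)} (hm : MonLang L) (hL : NC1 L) :
    ∃ c' : ℕ, ∀ n : ℕ, 2 ≤ n → ∀ k W r : ℕ, ∃ C : Circuit n, C.nots ≤ r ∧
      (C.fullDepth : ℝ) ≤ c' * ((W : ℝ) / 2 ^ r + 1) * Real.logb 2 n ∧
      ∀ x, k ≤ wt x → wt x ≤ k + W → (C.value x = true ↔ List.ofFn x ∈ L) := by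
  obtain ⟨a, ha⟩ := hL
  refine ⟨a + 4 * (c + 8), fun n hn k W r => ?_⟩
  obtain ⟨C, hC1, hC2⟩ := ha n hn
  obtain ⟨h, C', h1, h2, h3⟩ := repr_real hc hn (fun x : Fin n → Bool => decide (List.ofFn x ∈ L))
    (monLang_mon hm n) C k W 1 r le_rfl fun x _ _ => by
      rw [Bool.eq_iff_iff, decide_eq_true_iff]
      exact hC2 x
  refine ⟨C' 0, (h1 0).1, ?_, fun x hx1 hx2 => ?_⟩
  · refine (h1 0).2.trans ?_
    have e1 : (C.depth : ℝ) ≤ C.fullDepth := by exact_mod_cast depth_le_full C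
    have e2 : (0 : ℝ) ≤ (W : ℝ) / 2 ^ r := by positivity
    have e3 := one_le_logb hn
    have e4 : (a : ℝ) * Real.logb 2 n ≤ a * ((W : ℝ) / 2 ^ r + 1) * Real.logb 2 n := by
      have : (0 : ℝ) ≤ a * Real.logb 2 n * ((W : ℝ) / 2 ^ r) := by positivity
      nlinarith
    push_cast
    rw [one_mul]
    have e5 : ((a : ℝ) + 4 * (c + 8)) * ((W : ℝ) / 2 ^ r + 1) * Real.logb 2 n =
        a * ((W : ℝ) / 2 ^ r + 1) * Real.logb 2 n + 4 * (c + 8) * ((W : ℝ) / 2 ^ r + 1) * Real.logb 2 n := by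
      ring
    rw [e5]
    linarith
  · have e1 := h2 x hx1 hx2
    rw [h3 rfl] at e1
    have e2 : (C' 0).value x = decide (List.ofFn x ∈ L) := e1
    rw [e2, decide_eq_true_iff]

/-- **Equivalence for each `j`.** -/
theorem equiv_j {c : ℕ} (hc : HasThr c) (j : ℕ) : (∃ L, InP L ∧ ¬ NC1 L) ↔
    ∃ L, InP L ∧ MonLang L ∧ ¬ ∃ c' : ℕ, ∀ n : ℕ, 2 ≤ n → ∃ C : Circuit n,
      C.nots ≤ Nat.log 2 n - j ∧ (C.fullDepth : ℝ) ≤ c' * Real.logb 2 n ∧ Computes C L := by
  constructor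
  · rintro ⟨L, h1, h2⟩
    refine ⟨L0h35Ts.SlcL L, L0h35Ts.slc_inP h1, fun x y a b d => L0h35Ts.slc_mono a b d, ?_⟩
    rintro ⟨c', h⟩
    refine h2 (nc1_of_slc ⟨c', fun n hn => ?_⟩)
    obtain ⟨C, -, h3, h4⟩ := h n hn
    exact ⟨C, h3, h4⟩
  · rintro ⟨L, h1, h2, h3⟩
    refine ⟨L, h1, fun h4 => h3 ?_⟩
    obtain ⟨a, ha⟩ := transfer_lang hc h2 h4
    refine ⟨a * (2 ^ (j + 1) + 1), fun n hn => ?_⟩
    obtain ⟨C, e1, e2, e3⟩ := ha n hn 0 n (Nat.log 2 n - j)
    refine ⟨C, e1, e2.trans ?_, fun x => e3 x (Nat.zero_le _) (by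
      have := wt_le x
      omega)⟩
    have e4 : (n : ℝ) / 2 ^ (Nat.log 2 n - j) ≤ 2 ^ (j + 1) := by
      rw [div_le_iff₀ (by positivity), ← pow_add]
      have e5 : n < 2 ^ (Nat.log 2 n + 1) := Nat.lt_pow_succ_log_self (by norm_num) _
      have e6 : 2 ^ (Nat.log 2 n + 1) ≤ 2 ^ (j + 1 + (Nat.log 2 n - j)) :=
        Nat.pow_le_pow_right (by norm_num) (by omega)
      exact_mod_cast (e5.le.trans e6)
    have e7 := one_le_logb hn
    push_cast
    gcongr

/-- **Equivalence with windows.** -/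
theorem equiv_w {c : ℕ} (hc : HasThr c) : (∃ L, InP L ∧ ¬ NC1 L) ↔
    ∃ L, InP L ∧ MonLang L ∧ ¬ ∃ c' : ℕ, ∀ n : ℕ, 2 ≤ n → ∀ k W r : ℕ, ∃ C : Circuit n,
      C.nots ≤ r ∧ (C.fullDepth : ℝ) ≤ c' * ((W : ℝ) / 2 ^ r + 1) * Real.logb 2 n ∧
      ∀ x, k ≤ wt x → wt x ≤ k + W → (C.value x = true ↔ List.ofFn x ∈ L) := by
  constructor
  · rintro ⟨L, h1, h2⟩
    refine ⟨L0h35Ts.SlcL L, L0h35Ts.slc_inP h1, fun x y a b d => L0h35Ts.slc_mono a b d, ?_⟩
    rintro ⟨c', h⟩
    refine h2 (nc1_of_slc ⟨c' * 2, fun n hn => ?_⟩)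
    obtain ⟨C, -, h3, h4⟩ := h n hn 0 n n
    refine ⟨C, h3.trans ?_, fun x => h4 x (Nat.zero_le _) (by
      have := wt_le x
      omega)⟩
    have e4 : (n : ℝ) / 2 ^ n ≤ 1 := by
      rw [div_le_iff₀ (by positivity), one_mul]
      exact_mod_cast Nat.lt_two_pow_self.le
    have e7 := one_le_logb hn
    have e8 : (n : ℝ) / 2 ^ n + 1 ≤ 2 := by linarith
    push_cast
    gcongr
  · rintro ⟨L, h1, h2, h3⟩
    exact ⟨L, h1, fun h4 => h3 (transfer_lang hc h2 h4)⟩

end Pool.Agent.L0h35.Ts
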