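import Pool.Agent.L0h35.TsLang

set_option autoImplicit false

/-!
# Transfer theorems
-/

open scoped Classical
open Finset

namespace Pool.Agent.L0h35.Ts

open Pool.Agent.L0h35.Ng

variable {n : ℕ}

/-- monotone functions -/
def Mon (f : (Fin n → Bool) → Bool) : Prop :=
  ∀ x y : Fin n → Bool, (∀ i, x i = true → y i = true) → f x = true → f y = true

/-- the function `f` on the window, zero below and one above -/
noncomputable def win (f : (Fin n → Bool) → Bool) (k W : ℕ) (x : Fin n → Bool) : Bool :=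
  if wt x < k then false else if wt x ≤ k + W then f x else true

theorem wt_mono {x y : Fin n → Bool} (h : ∀ i, x i = true → y i = true) : wt x ≤ wt y := by
  rw [wt_eq, wt_eq]
  refine card_le_card fun i hi => ?_
  rw [mem_filter] at hi ⊢
  exact ⟨mem_univ _, h i hi.2⟩

theorem win_mon {f : (Fin n → Bool) → Bool} (hf : Mon f) (k W : ℕ) : Mon (win f k W) := by
  intro x y h hx
  have hw := wt_mono h
  unfold win at hx ⊢
  split_ifs at hx with h1 h2
  · rw [if_neg (by omega)]
    split_ifs with h3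
    · exact hf x y h hx
    · rfl
  · rw [if_neg (by omega), if_neg (by omega)]

theorem win_eq {f : (Fin n → Bool) → Bool} {k W : ℕ} {x : Fin n → Bool} (h1 : k ≤ wt x)
    (h2 : wt x ≤ k + W) : win f k W x = f x := by
  unfold win
  rw [if_neg (by omega), if_pos h2]

theorem hasSlices_win {c : ℕ} (hc : HasThr c) (C : Circuit n) (f : (Fin n → Bool) → Bool)
    (k W : ℕ) (hC : ∀ x, k ≤ wt x → wt x ≤ k + W → C.value x = f x) :
    HasSlices (win f k W) (C.depth + (c + 2) * lg n) := by
  intro m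
  have e : (c + 2) * lg n = c * lg n + 2 * lg n := by ring
  by_cases h1 : m < k
  · obtain ⟨T, hT1, hT2⟩ := hc n (m + 1)
    refine ⟨T, by omega, fun x => ⟨fun h => ?_, fun h => ?_, fun h => ?_⟩⟩
    · rw [hT2]
      exact decide_eq_false (by omega)
    · rw [hT2]
      unfold win
      rw [if_pos (by omega)]
      exact decide_eq_false (by omega)
    · rw [hT2]
      exact decide_eq_true (by omega)
  · by_cases h2 : m ≤ k + W
    · obtain ⟨F, hF1, hF2⟩ := slice hc C m
      refine ⟨F, hF1, fun x => ⟨(hF2 x).1, fun h => ?_, (hF2 x).2.2⟩⟩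
      rw [(hF2 x).2.1 h, win_eq (by omega) (by omega), hC x (by omega) (by omega)]
    · obtain ⟨T, hT1, hT2⟩ := hc n m
      refine ⟨T, by omega, fun x => ⟨fun h => ?_, fun h => ?_, fun h => ?_⟩⟩
      · rw [hT2]
        exact decide_eq_false (by omega)
      · rw [hT2]
        unfold win
        rw [if_neg (by omega), if_neg (by omega)]
        exact decide_eq_true (by omega)
      · rw [hT2]
        exact decide_eq_true (by omega)

theorem wt_le (x : Fin n → Bool) : wt x ≤ n := by
  have := zeros x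
  omega

/-- threshold circuits -/
theorem thr_circuit {c : ℕ} (hc : HasThr c) (n k : ℕ) : ∃ C : Circuit n, C.nots ≤ 0 ∧
    C.fullDepth ≤ c * lg n ∧ ∀ x, C.value x = decide (k ≤ wt x) := by
  obtain ⟨T, hT1, hT2⟩ := hc n k
  obtain ⟨l, h1, h2⟩ := slp_vars n
  obtain ⟨l', d, g1, g2, g3, g4⟩ := slp_formula 0 T h1 (fun i => (fun x => x i, 0)) h2
    fun _ => le_rfl
  obtain ⟨C', e1, e2, e3⟩ := stSLP n 0 l' g1 _ g3
  refine ⟨C', e1, e2.trans (g4.trans (by simpa using hT1)), fun x => ?_⟩
  rw [e3 x]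
  exact hT2 x

/-- **The transfer theorem for `K` circuits with `r` NOT gates**, first form. -/
theorem repr_nat {c : ℕ} (hc : HasThr c) (f : (Fin n → Bool) → Bool) (hf : Mon f)
    (C : Circuit n) (k W K r K' r' u : ℕ) (hK : 1 ≤ K) (hK' : K' = (K + 1) / 2)
    (hr' : r' = min r (lg n + 1)) (hu : u = min W n / (K' * 2 ^ r') + 1)
    (hC : ∀ x, k ≤ wt x → wt x ≤ k + W → C.value x = f x) :
    ∃ (h : (Fin K → Bool) → Bool) (C' : Fin K → Circuit n), (∀ i, (C' i).nots ≤ r ∧
      (C' i).fullDepth ≤ C.depth + (c + 2) * lg n + (c + 1) * lg n * (u - 1) + 3 * r') ∧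
      (∀ x, k ≤ wt x → wt x ≤ k + W → h (fun i => (C' i).value x) = f x) ∧
      (∀ h1 : K = 1, ∀ b, h b = b ⟨0, by omega⟩) := by
  have hK1 : 1 ≤ K' := by omega
  have hK2 : K' ≤ K := by omega
  have hu1 : 1 ≤ u := hu ▸ Nat.le_add_left 1 _
  set L : ℕ := u * 2 ^ r' with hL
  have hL1 : 1 ≤ L := Nat.mul_pos hu1 (by positivity)
  have hcov : min W n < K' * L := by
    have h1 : 0 < K' * 2 ^ r' := Nat.mul_pos hK1 (by positivity)
    have h2 := Nat.lt_div_mul_add (a := min W n) h1
    have h3 : K' * L = min W n / (K' * 2 ^ r') * (K' * 2 ^ r') + K' * 2 ^ r' := by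
      rw [hL, hu]
      ring
    omega
  have hS := hasSlices_win hc C f k W hC
  have e : (c + 2) * lg n = c * lg n + 2 * lg n := by ring
  choose B hB1 hB2 hB3 using fun i : ℕ => notree hc (win f k W) (win_mon hf k W) hS (by omega)
    (k + i * L) u r' hu1
  choose T hT1 hT2 hT3 using fun i : ℕ => thr_circuit hc n (k + i * L)
  refine ⟨fun b => decide (∃ j : Fin K, (j : ℕ) < K' ∧ b j = true ∧
      ∀ i : Fin K, K' ≤ (i : ℕ) → (b i = true ↔ (i : ℕ) - K' + 1 ≤ j)),
    fun i => if (i : ℕ) < K' then B i else T (i - K' + 1), fun i => ?_, fun x hx1 hx2 => ?_,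
    fun h1 b => ?_⟩
  · dsimp only
    split_ifs
    · exact ⟨(hB1 i).trans (by omega), hB2 i⟩
    · refine ⟨(hT1 _).trans (Nat.zero_le _), (hT2 _).trans ?_⟩
      omega
  · set j : ℕ := (wt x - k) / L with hj
    have hjK : j < K' := by
      rw [hj, Nat.div_lt_iff_lt_mul hL1]
      refine lt_of_le_of_lt ?_ hcov
      have := wt_le x
      omega
    have hj1 : k + j * L ≤ wt x := by
      have := Nat.div_mul_le_self (wt x - k) L
      rw [← hj] at this
      omega
    have hj2 : wt x < k + j * L + L := by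
      have := Nat.lt_div_mul_add (a := wt x - k) hL1
      rw [← hj] at this
      omega
    have hval : (B j).value x = f x := by
      rw [(hB3 j x).2.1 hj1 hj2, win_eq hx1 hx2]
    have hthr : ∀ i : Fin K, K' ≤ (i : ℕ) →
        ((if (i : ℕ) < K' then B i else T (i - K' + 1)).value x = true ↔ (i : ℕ) - K' + 1 ≤ j) := by
      intro i hi
      rw [if_neg (by omega), hT3, decide_eq_true_iff, hj, Nat.le_div_iff_mul_le hL1]
      have h1 : 1 * L ≤ ((i : ℕ) - K' + 1) * L := Nat.mul_le_mul_right _ (by omega)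
      omega
    clear_value j
    clear hj
    rw [Bool.eq_iff_iff, decide_eq_true_iff]
    constructor
    · rintro ⟨j', h1, h2, h3⟩
      have hjj : (j' : ℕ) = j := by
        by_contra hne
        rcases lt_or_gt_of_ne hne with h4 | h4
        · have h5 : K' + j - 1 < K := by omega
          have h6 := (h3 ⟨K' + j - 1, h5⟩ (by simp only; omega)).symm.trans
            (hthr ⟨K' + j - 1, h5⟩ (by simp only; omega))
          simp only at h6
          omega
        · have h5 : K' + j' - 1 < K := by omega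
          have h6 := (h3 ⟨K' + j' - 1, h5⟩ (by simp only; omega)).symm.trans
            (hthr ⟨K' + j' - 1, h5⟩ (by simp only; omega))
          simp only at h6
          omega
      dsimp only at h2
      rw [if_pos h1, hjj, hval] at h2
      exact h2
    · intro h
      refine ⟨⟨j, by omega⟩, hjK, ?_, hthr⟩
      simp only
      rw [if_pos hjK, hval, h]
  · subst h1
    have hK1' : K' = 1 := by omega
    rw [Bool.eq_iff_iff, decide_eq_true_iff]
    constructor
    · rintro ⟨j, h1, h2, -⟩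
      have : j = ⟨0, by omega⟩ := Fin.ext (by simp only; omega)
      rwa [this] at h2
    · intro h
      exact ⟨⟨0, by omega⟩, by simp only; omega, h, fun i hi => absurd i.2 (by omega)⟩

theorem lg_le_logb {n : ℕ} (hn : 2 ≤ n) : (lg n : ℝ) ≤ 2 * Real.logb 2 n := by
  have hn' : (2 : ℝ) ≤ n := by exact_mod_cast hn
  have h1 : ((Nat.log 2 (n + 2) : ℕ) : ℝ) ≤ Real.logb 2 ((n + 2 : ℕ) : ℝ) :=
    Real.natLog_le_logb _ _
  refine h1.trans ?_
  have h2 : Real.logb 2 ((n : ℝ) ^ (2 : ℕ)) = 2 * Real.logb 2 n := by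
    rw [Real.logb_pow]
    norm_num
  rw [← h2]
  apply Real.logb_le_logb_of_le (by norm_num)
  · positivity
  · push_cast
    nlinarith

/-- **The transfer theorem.** -/
theorem repr_real {c : ℕ} (hc : HasThr c) (hn : 2 ≤ n) (f : (Fin n → Bool) → Bool) (hf : Mon f)
    (C : Circuit n) (k W K r : ℕ) (hK : 1 ≤ K)
    (hC : ∀ x, k ≤ wt x → wt x ≤ k + W → C.value x = f x) :
    ∃ (h : (Fin K → Bool) → Bool) (C' : Fin K → Circuit n), (∀ i, (C' i).nots ≤ r ∧
      ((C' i).fullDepth : ℝ) ≤ C.depth +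
        (4 * (c + 8) : ℕ) * ((W : ℝ) / (K * 2 ^ r) + 1) * Real.logb 2 n) ∧
      (∀ x, k ≤ wt x → wt x ≤ k + W → h (fun i => (C' i).value x) = f x) ∧
      (∀ h1 : K = 1, ∀ b, h b = b ⟨0, by omega⟩) := by
  obtain ⟨h, C', h1, h2, h3⟩ := repr_nat hc f hf C k W K r _ _ _ hK rfl rfl rfl hC
  refine ⟨h, C', fun i => ⟨(h1 i).1, ?_⟩, h2, h3⟩
  have h4 := (h1 i).2
  rw [Nat.add_sub_cancel] at h4
  set w := min W n / ((K + 1) / 2 * 2 ^ min r (lg n + 1)) with hw
  have hK0 : (1 : ℝ) ≤ K := by exact_mod_cast hK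
  have hwR : (w : ℝ) ≤ 2 * ((W : ℝ) / (K * 2 ^ r)) := by
    have hnn : (0 : ℝ) ≤ 2 * ((W : ℝ) / (K * 2 ^ r)) := by positivity
    by_cases hr : r ≤ lg n + 1
    · rw [min_eq_left hr] at hw
      have e1 : (w : ℝ) ≤ (min W n : ℕ) / (((K + 1) / 2 * 2 ^ r : ℕ) : ℝ) := by
        rw [hw]
        exact Nat.cast_div_le
      refine e1.trans ?_
      have e2 : (K : ℝ) / 2 ≤ (((K + 1) / 2 : ℕ) : ℝ) := by
        have : K ≤ 2 * ((K + 1) / 2) := by omega
        have h5 : (K : ℝ) ≤ 2 * (((K + 1) / 2 : ℕ) : ℝ) := by exact_mod_cast this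
        linarith
      have e3 : ((min W n : ℕ) : ℝ) ≤ W := by exact_mod_cast min_le_left _ _
      push_cast
      have e4 : 2 * ((W : ℝ) / (K * 2 ^ r)) = W / (K / 2 * 2 ^ r) := by
        field_simp
      rw [e4]
      have e5 : (0 : ℝ) < K / 2 * 2 ^ r := by positivity
      push_cast at e2 e3
      gcongr
    · have : w = 0 := by
        have hr' : lg n + 1 ≤ r := (not_le.1 hr).le
        rw [hw, min_eq_right hr']
        apply Nat.div_eq_of_lt
        have e1 : n + 2 < 2 ^ (lg n + 1) := Nat.lt_pow_succ_log_self (by norm_num) _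
        have e2 : 1 * 2 ^ (lg n + 1) ≤ (K + 1) / 2 * 2 ^ (lg n + 1) :=
          Nat.mul_le_mul_right _ (by omega)
        have e3 : min W n ≤ n := min_le_right _ _
        exact lt_of_le_of_lt e3 (lt_of_lt_of_le (lt_trans (by omega) e1) (by rwa [one_mul] at e2))
      rw [this]
      simpa using hnn
  have hlg := lg_le_logb hn
  have hlg1 : (1 : ℝ) ≤ lg n := by exact_mod_cast one_le_lg n
  have h5 : 3 * min r (lg n + 1) ≤ 6 * lg n := by
    have := one_le_lg n
    omega
  have h6 : (C' i).fullDepth ≤ C.depth + (c + 8) * lg n * (w + 1) := by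
    have e1 : (c + 8) * lg n * (w + 1) = (c + 1) * lg n * w + 7 * lg n * w + (c + 2) * lg n + 6 * lg n := by
      ring
    omega
  have h7 : ((C' i).fullDepth : ℝ) ≤ C.depth + (c + 8) * lg n * (w + 1) := by exact_mod_cast h6
  refine h7.trans ?_
  have h8 : (0 : ℝ) ≤ (W : ℝ) / (K * 2 ^ r) := by positivity
  have h9 : ((w : ℝ) + 1) ≤ 2 * ((W : ℝ) / (K * 2 ^ r) + 1) := by linarith
  have h11 : 0 ≤ Real.logb 2 (n : ℝ) := by linarith
  have h12 : (0 : ℝ) ≤ (c + 8) * (2 * Real.logb 2 n) := by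
    apply mul_nonneg (by positivity)
    linarith
  have h10 : ((c : ℝ) + 8) * lg n * (w + 1) ≤ (c + 8) * (2 * Real.logb 2 n) *
      (2 * ((W : ℝ) / (K * 2 ^ r) + 1)) := by
    gcongr
  push_cast
  linarith

/-! ### Literals -/

theorem slp_lits (n : ℕ) : ∃ (r : ℕ) (l : List (FD n)), SLP n r l ∧
    ∀ i, (fun x : Fin n → Bool => x i, 0) ∈ l ∧ (fun x : Fin n → Bool => !x i, 1) ∈ l := by
  have h : ∀ L : List (Fin n), ∃ (r : ℕ) (l : List (FD n)), SLP n r l ∧
      ∀ i ∈ L, (fun x : Fin n → Bool => x i, 0) ∈ l ∧ (fun x : Fin n → Bool => !x i, 1) ∈ l := by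
    intro L
    induction L with
    | nil => exact ⟨0, [], SLP.nil, fun i hi => absurd hi List.not_mem_nil⟩
    | cons i L ih =>
      obtain ⟨r, l, h1, h2⟩ := ih
      refine ⟨r + 1, _, SLP.not _ (SLP.var i h1) List.mem_cons_self, fun j hj => ?_⟩
      rcases List.mem_cons.1 hj with rfl | hj
      · exact ⟨List.mem_cons_of_mem _ List.mem_cons_self, List.mem_cons_self⟩
      · exact ⟨List.mem_cons_of_mem _ (List.mem_cons_of_mem _ (h2 j hj).1),
          List.mem_cons_of_mem _ (List.mem_cons_of_mem _ (h2 j hj).2)⟩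
  obtain ⟨r, l, h1, h2⟩ := h (List.finRange n)
  exact ⟨r, l, h1, fun i => h2 i (List.mem_finRange i)⟩

/-- literals are substituted for the variables -/
theorem circ_lit {m : ℕ} (C : Circuit m) (ρ : Fin m → Fin n × Bool) : ∃ C' : Circuit n,
    C'.fullDepth ≤ C.depth + 1 ∧ ∀ x : Fin n → Bool,
      C'.value x = C.value fun i => if (ρ i).2 = true then x (ρ i).1 else !x (ρ i).1 := by
  obtain ⟨F, h1, h2⟩ := exists_lit C C.out true
  obtain ⟨r, l, g1, g2⟩ := slp_lits n
  let σ : Fin m ⊕ Fin m → FD n := Sum.elim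
    (fun i => if (ρ i).2 = true then (fun x => x (ρ i).1, 0) else (fun x => !x (ρ i).1, 1))
    (fun i => if (ρ i).2 = true then (fun x => !x (ρ i).1, 1) else (fun x => x (ρ i).1, 0))
  obtain ⟨l', d, e1, e2, e3, e4⟩ := slp_formula 1 F g1 σ
    (by
      rintro (i | i)
      · simp only [σ, Sum.elim_inl]
        split_ifs
        · exact (g2 _).1
        · exact (g2 _).2
      · simp only [σ, Sum.elim_inr]
        split_ifs
        · exact (g2 _).2
        · exact (g2 _).1)
    (by
      rintro (i | i)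
      · simp only [σ, Sum.elim_inl]
        split_ifs <;> simp
      · simp only [σ, Sum.elim_inr]
        split_ifs <;> simp)
  obtain ⟨C', a1, a2, a3⟩ := stSLP n r l' e1 _ e3
  refine ⟨C', a2.trans (e4.trans (Nat.add_le_add_right h1 _)), fun x => ?_⟩
  rw [a3 x]
  have hσ : (fun a => (σ a).1 x) = Sum.elim
      (fun i => if (ρ i).2 = true then x (ρ i).1 else !x (ρ i).1)
      (fun i => !(if (ρ i).2 = true then x (ρ i).1 else !x (ρ i).1)) := by
    ext a
    rcases a with i | i
    · simp only [σ, Sum.elim_inl]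
      split_ifs <;> rfl
    · simp only [σ, Sum.elim_inr]
      split_ifs <;> simp
  dsimp only
  rw [hσ, h2]
  rfl

end Pool.Agent.L0h35.Ts
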