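import Pool.Agent.L0h35.TsTree
import Pool.Agent.L0h35.NgLang
import Pool.Agent.H622R2.CoNP

set_option autoImplicit false

/-!
# The slice language of a language
-/

open scoped Classical
open Finset

namespace Pool.Agent.NPC.L0h35Ts

/-- the number of ones of a string -/
def wL (z : List Bool) : ℕ := (z.filter fun b => b).length

/-- the first half of a string -/
def half (z : List Bool) : List Bool :=
  ((List.range z.length).filter fun i => decide (2 * i < z.length)).map fun i => z.getD i false

/-- the slice language: the strings of even length with more ones than zeros, and the strings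
`x y` with `x ∈ L` for which `y` is the complement of `x` -/
def SlcL (L : Set (List Bool)) : Set (List Bool) :=
  {z | z.length % 2 = 0 ∧ (z.length < 2 * wL z ∨ (2 * wL z = z.length ∧
    (∀ i < z.length, 2 * i < z.length → z.getD (z.length / 2 + i) false = !z.getD i false) ∧
    half z ∈ L))}

/-- the algorithm -/
def algS (V : List Bool → List Bool) (z : List Bool) : Bool :=
  decide (z.length % 2 = 0) && (decide (z.length < 2 * wL z) || (decide (2 * wL z = z.length) &&
    ((List.range z.length).all fun i => !decide (2 * i < z.length) ||
      (z.getD (z.length / 2 + i) false ^^ z.getD i false)) && decide (V (half z) = [true])))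

theorem poly_wL : Poly wL := by
  unfold wL
  fun_prop

theorem poly_half : Poly half := by
  unfold half
  have h1 : Poly (fun x : List Bool => List.range x.length) := Poly.range_length Poly.id
  have h2 : Poly (fun x : List Bool => (List.range x.length).filter
      (fun i => decide (2 * i < x.length))) := by
    fun_prop
  refine Poly.map (α := List Bool) (β := ℕ) (γ := Bool)
    (F := fun x i => x.getD i false) h2 ?_
  fun_prop

theorem poly_algS {V : List Bool → List Bool} (hV : Poly V) : Poly (algS V) := by
  unfold algS
  have h1 : Poly (fun x : List Bool => List.range x.length) := Poly.range_length Poly.id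
  have h2 := poly_wL
  have h3 := poly_half
  have h4 : Poly (fun z : List Bool => (List.range z.length).all fun i => !decide (2 * i < z.length) ||
      (z.getD (z.length / 2 + i) false ^^ z.getD i false)) := by
    fun_prop
  have h5 : Poly (fun z : List Bool => V (half z)) := Poly.comp (g := V) (f := half) hV h3
  fun_prop

theorem algS_iff {L : Set (List Bool)} {V : List Bool → List Bool}
    (hV : ∀ x, x ∈ L ↔ V x = [true]) (z : List Bool) : algS V z = true ↔ z ∈ SlcL L := by
  unfold algS SlcL
  rw [Set.mem_ofPred_eq]
  simp only [Bool.and_eq_true, Bool.or_eq_true, decide_eq_true_eq, List.all_eq_true,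
    List.mem_range, Bool.not_eq_true', decide_eq_false_iff_not, hV (half z)]
  refine and_congr_right fun _ => or_congr_right ?_
  rw [and_assoc]
  refine and_congr_right fun _ => and_congr_left fun _ => forall_congr' fun i => ?_
  refine forall_congr' fun _ => ?_
  generalize z.getD (z.length / 2 + i) false = a
  generalize z.getD i false = b
  by_cases h : 2 * i < z.length
  · simp only [h, not_true_eq_false, false_or, forall_const]
    cases a <;> cases b <;> simp
  · simp only [h, not_false_eq_true, true_or, true_iff]
    exact fun h' => absurd h' (by simp)

theorem slc_inP {L : Set (List Bool)} (hL : InP L) : InP (SlcL L) := by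
  obtain ⟨V, hV1, hV2⟩ := hL
  refine ⟨fun x => [algS V x], polyTime_of_poly (poly_algS (H622R2.poly_of_polyTime hV1)),
    fun x => ?_⟩
  rw [← algS_iff hV2]
  simp


theorem wL_ofFn {n : ℕ} (x : Fin n → Bool) : wL (List.ofFn x) = Pool.Agent.L0h35.Ts.wt x := by
  unfold wL Pool.Agent.L0h35.Ts.wt
  rw [Fintype.card_subtype]
  induction n with
  | zero => simp
  | succ n ih =>
    rw [List.ofFn_succ, List.filter_cons, Finset.card_filter, Fin.sum_univ_succ]
    have h := ih fun i => x i.succ
    rw [Finset.card_filter] at h
    cases hx : x 0
    · simpa [hx] using h
    · simp only [if_true, List.length_cons, h]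
      omega

/-- the slice language is monotone -/
theorem slc_mono {L : Set (List Bool)} {x y : List Bool} (hlen : x.length = y.length)
    (h : ∀ i, x.getD i false = true → y.getD i false = true) (hx : x ∈ SlcL L) : y ∈ SlcL L := by
  set m := x.length with hm
  let a : Fin m → Bool := fun i => x.getD i false
  let b : Fin m → Bool := fun i => y.getD i false
  have ha : x = List.ofFn a := by
    apply List.ext_getElem
    · rw [List.length_ofFn]
    · intro i h1 h2
      rw [List.getElem_ofFn]
      simp only [a]
      rw [List.getD_eq_getElem _ _ h1]
  have hb : y = List.ofFn b := by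
    apply List.ext_getElem
    · rw [List.length_ofFn, hlen]
    · intro i h1 h2
      rw [List.getElem_ofFn]
      simp only [b]
      rw [List.getD_eq_getElem _ _ h1]
  have hsub : (univ.filter fun i => a i = true) ⊆ univ.filter fun i => b i = true := by
    intro i hi
    rw [mem_filter] at hi ⊢
    exact ⟨mem_univ _, h i hi.2⟩
  have hwx : wL x = (univ.filter fun i => a i = true).card := by
    rw [ha, wL_ofFn]
    unfold Pool.Agent.L0h35.Ts.wt
    rw [Fintype.card_subtype]
  have hwy : wL y = (univ.filter fun i => b i = true).card := by
    rw [hb, wL_ofFn]
    unfold Pool.Agent.L0h35.Ts.wt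
    rw [Fintype.card_subtype]
  have hle := card_le_card hsub
  obtain ⟨h1, h2⟩ := hx
  refine ⟨by omega, ?_⟩
  by_cases hc : (univ.filter fun i => b i = true).card ≤ (univ.filter fun i => a i = true).card
  · have he := Finset.eq_of_subset_of_card_le hsub hc
    have hab : a = b := by
      ext i
      have h3 : i ∈ (univ.filter fun i => a i = true) ↔ i ∈ univ.filter fun i => b i = true := by
        rw [he]
      rw [mem_filter, mem_filter] at h3
      simp only [mem_univ, true_and] at h3
      exact Bool.eq_iff_iff.2 h3
    have hxy : x = y := by rw [ha, hb, hab]
    rw [← hxy]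
    exact h2
  · left
    rcases h2 with h2 | ⟨h2, -⟩ <;> omega

theorem wL_append (u v : List Bool) : wL (u ++ v) = wL u + wL v := by
  unfold wL
  rw [List.filter_append, List.length_append]

theorem wL_not (u : List Bool) : wL u + wL (u.map fun b => !b) = u.length := by
  unfold wL
  induction u with
  | nil => rfl
  | cons a u ih =>
    cases a
    · simp only [List.filter_cons, List.map_cons, List.length_cons, Bool.not_false, if_true,
        Bool.false_eq_true, if_false]
      omega
    · simp only [List.filter_cons, List.map_cons, List.length_cons, Bool.not_true, if_true,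
        Bool.false_eq_true, if_false]
      omega

theorem half_append (u v : List Bool) (h : v.length = u.length) : half (u ++ v) = u := by
  unfold half
  rw [List.length_append, h, List.range_add, List.filter_append]
  have h1 : (List.range u.length).filter (fun i => decide (2 * i < u.length + u.length)) =
      List.range u.length := by
    rw [List.filter_eq_self]
    intro i hi
    rw [List.mem_range] at hi
    exact decide_eq_true (by omega)
  have h2 : ((List.range u.length).map fun x => u.length + x).filter
      (fun i => decide (2 * i < u.length + u.length)) = [] := by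
    rw [List.filter_eq_nil_iff]
    intro i hi
    rw [List.mem_map] at hi
    obtain ⟨j, _, rfl⟩ := hi
    rw [decide_eq_true_iff]
    omega
  rw [h1, h2, List.append_nil]
  apply List.ext_getElem
  · simp
  · intro i h3 h4
    rw [List.getElem_map, List.getElem_range, List.getD_append _ _ _ _ h4,
      List.getD_eq_getElem _ _ h4]

theorem slc_pair (L : Set (List Bool)) (u : List Bool) :
    u ++ u.map (fun b => !b) ∈ SlcL L ↔ u ∈ L := by
  have hl : (u ++ u.map fun b => !b).length = u.length + u.length := by
    rw [List.length_append, List.length_map]
  have hw : wL (u ++ u.map fun b => !b) = u.length := by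
    rw [wL_append, wL_not]
  unfold SlcL
  rw [Set.mem_ofPred_eq, hl, hw, half_append _ _ (List.length_map _)]
  constructor
  · rintro ⟨-, h | ⟨-, -, h⟩⟩
    · omega
    · exact h
  · intro h
    refine ⟨by omega, Or.inr ⟨by omega, fun i _ hi => ?_, h⟩⟩
    have hi' : i < u.length := by omega
    rw [show (u.length + u.length) / 2 + i = u.length + i by omega,
      List.getD_append_right _ _ _ _ (by omega), List.getD_append _ _ _ _ hi',
      show u.length + i - u.length = i by omega, List.getD_eq_getElem _ _ hi',
      List.getD_eq_getElem _ _ (by rw [List.length_map]; exact hi'), List.getElem_map]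

end Pool.Agent.NPC.L0h35Ts
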