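import Pool.Agent.L0h35.TsSlp

set_option autoImplicit false

/-!
# Monotone formulas on windows of slices
-/

open scoped Classical
open Finset

namespace Pool.Agent.L0h35.Ts

open Pool.Agent.L0h35.Ng

variable {n : ℕ}

theorem wt_eq (x : Fin n → Bool) : wt x = (univ.filter fun i => x i = true).card := by
  unfold wt
  rw [Fintype.card_subtype]

/-- one is switched off -/
def off (x : Fin n → Bool) (i : Fin n) : Fin n → Bool := Function.update x i false

theorem off_of_false {x : Fin n → Bool} {i : Fin n} (h : x i = false) : off x i = x := by
  unfold off
  rw [← h, Function.update_eq_self]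

theorem off_le (x : Fin n → Bool) (i j : Fin n) (h : off x i j = true) : x j = true := by
  unfold off at h
  by_cases hj : j = i
  · subst hj
    rw [Function.update_self] at h
    exact absurd h Bool.false_ne_true
  · rwa [Function.update_of_ne hj] at h

theorem wt_off {x : Fin n → Bool} {i : Fin n} (h : x i = true) : wt (off x i) + 1 = wt x := by
  rw [wt_eq, wt_eq]
  have : (univ.filter fun j => off x i j = true) = (univ.filter fun j => x j = true).erase i := by
    ext j
    rw [mem_filter, mem_erase, mem_filter]
    constructor
    · rintro ⟨_, h1⟩
      refine ⟨?_, mem_univ _, off_le x i j h1⟩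
      rintro rfl
      unfold off at h1
      rw [Function.update_self] at h1
      exact Bool.false_ne_true h1
    · rintro ⟨h1, _, h2⟩
      refine ⟨mem_univ _, ?_⟩
      unfold off
      rwa [Function.update_of_ne h1]
  rw [this]
  exact card_erase_add_one (mem_filter.2 ⟨mem_univ _, h⟩)

theorem wt_off_le (x : Fin n → Bool) (i : Fin n) : wt (off x i) ≤ wt x := by
  cases h : x i
  · rw [off_of_false h]
  · have := wt_off h
    omega

/-- the number of zeros -/
theorem zeros (x : Fin n → Bool) : (univ.filter fun i => x i = false).card + wt x = n := by
  rw [wt_eq]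
  have := Finset.card_filter_add_card_filter_not (s := (univ : Finset (Fin n)))
    (fun i => x i = false)
  rw [card_univ, Fintype.card_fin] at this
  convert this using 3
  ext i
  rw [mem_filter, mem_filter]
  simp

/-- a variable is replaced by zero -/
def kill (i : Fin n) (F : MF (Fin n)) : MF (Fin n) :=
  F.bind fun j => if j = i then .const false else .leaf j

theorem eval_kill (i : Fin n) (F : MF (Fin n)) (x : Fin n → Bool) :
    (kill i F).eval x = F.eval (off x i) := by
  unfold kill
  rw [MF.eval_bind]
  congr 1
  ext j
  unfold off
  by_cases h : j = i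
  · subst h
    rw [if_pos rfl, Function.update_self]
    rfl
  · rw [if_neg h, Function.update_of_ne h]
    rfl

theorem depth_kill (i : Fin n) (F : MF (Fin n)) : (kill i F).depth ≤ F.depth := by
  have := MF.depth_bind_le (fun j => if j = i then MF.const false else MF.leaf j) 0
    (fun a => by split_ifs <;> exact le_rfl) F
  exact this

/-- formulas with literals from circuits -/
theorem exists_lit (C : Circuit n) (k : Fin C.nodes) (b : Bool) :
    ∃ F : MF (Fin n ⊕ Fin n), F.depth ≤ C.depthAt k ∧ ∀ x : Fin n → Bool,
      F.eval (Sum.elim x fun i => !x i) = if b = true then C.eval x k else !C.eval x k := by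
  induction k using WellFoundedLT.induction generalizing b with
  | _ k ih =>
  cases hg : C.gate k with
  | var i =>
    refine ⟨.leaf (if b = true then .inl i else .inr i), Nat.zero_le _, fun x => ?_⟩
    rw [C.eval_var hg]
    cases b <;> rfl
  | const a =>
    refine ⟨.const (if b = true then a else !a), Nat.zero_le _, fun x => ?_⟩
    rw [C.eval_const hg]
    rfl
  | not i =>
    obtain ⟨F, h1, h2⟩ := ih _ (C.up_lt k i) (!b)
    refine ⟨F, h1.trans ?_, fun x => ?_⟩
    · rw [Circuit.depthAt.eq_1 C k, hg]
    · rw [h2 x, C.eval_not hg]
      cases b <;> simp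
  | and i j =>
    obtain ⟨F, h1, h2⟩ := ih _ (C.up_lt k i) b
    obtain ⟨G, h3, h4⟩ := ih _ (C.up_lt k j) b
    have hd : C.depthAt k = max (C.depthAt (C.up k i)) (C.depthAt (C.up k j)) + 1 := by
      rw [Circuit.depthAt.eq_1 C k, hg]
    refine ⟨if b = true then .and F G else .or F G, ?_, fun x => ?_⟩
    · rw [hd]
      cases b <;> simp only [Bool.false_eq_true, if_false, if_true, MF.depth] <;> omega
    · rw [C.eval_and hg]
      cases b
      · simp only [Bool.false_eq_true, if_false, MF.eval] at h2 h4 ⊢
        rw [h2 x, h4 x, Bool.not_and]
      · simp only [if_true, MF.eval] at h2 h4 ⊢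
        rw [h2 x, h4 x]
  | or i j =>
    obtain ⟨F, h1, h2⟩ := ih _ (C.up_lt k i) b
    obtain ⟨G, h3, h4⟩ := ih _ (C.up_lt k j) b
    have hd : C.depthAt k = max (C.depthAt (C.up k i)) (C.depthAt (C.up k j)) + 1 := by
      rw [Circuit.depthAt.eq_1 C k, hg]
    refine ⟨if b = true then .or F G else .and F G, ?_, fun x => ?_⟩
    · rw [hd]
      cases b <;> simp only [Bool.false_eq_true, if_false, if_true, MF.depth] <;> omega
    · rw [C.eval_or hg]
      cases b
      · simp only [Bool.false_eq_true, if_false, MF.eval] at h2 h4 ⊢
        rw [h2 x, h4 x, Bool.not_or]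
      · simp only [if_true, MF.eval] at h2 h4 ⊢
        rw [h2 x, h4 x]

/-- the logarithm -/
abbrev lg (n : ℕ) : ℕ := Nat.log 2 (n + 2)

theorem one_le_lg (n : ℕ) : 1 ≤ lg n := Nat.log_pos (by norm_num) (by omega)

/-- threshold formulas with depth at most `c lg n` -/
def HasThr (c : ℕ) : Prop := ∀ n k : ℕ, ∃ F : MF (Fin n), F.depth ≤ c * lg n ∧
  ∀ x : Fin n → Bool, F.eval x = decide (k ≤ wt x)

/-- **A slice** (Berkowitz). -/
theorem slice {c : ℕ} (hc : HasThr c) (C : Circuit n) (k : ℕ) :
    ∃ F : MF (Fin n), F.depth ≤ C.depth + (c + 2) * lg n ∧ ∀ x : Fin n → Bool,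
      (wt x < k → F.eval x = false) ∧ (wt x = k → F.eval x = C.value x) ∧
      (k < wt x → F.eval x = true) := by
  obtain ⟨L, hL1, hL2⟩ := exists_lit C C.out true
  obtain ⟨T, hT1, hT2⟩ := hc n k
  obtain ⟨T', hT1', hT2'⟩ := hc n (k + 1)
  refine ⟨.or (.and (L.bind (Sum.elim .leaf fun i => kill i T)) T) T', ?_, fun x => ?_⟩
  · have h1 := MF.depth_bind_le (Sum.elim MF.leaf fun i => kill i T) (c * lg n)
      (fun a => by
        cases a with
        | inl i => exact Nat.zero_le _
        | inr i => exact (depth_kill i T).trans hT1) L
    have h2 := one_le_lg n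
    have h3 : L.depth ≤ C.depth := hL1
    simp only [MF.depth]
    have h4 : (c + 2) * lg n = c * lg n + 2 * lg n := by ring
    omega
  · simp only [MF.eval, hT2, hT2', MF.eval_bind]
    refine ⟨fun h => ?_, fun h => ?_, fun h => ?_⟩
    · rw [decide_eq_false (by omega), decide_eq_false (by omega), Bool.and_false]
      rfl
    · rw [decide_eq_true (by omega : k ≤ wt x), decide_eq_false (by omega), Bool.and_true,
        Bool.or_false]
      have e1 : (fun a => (Sum.elim MF.leaf (fun i => kill i T) a : MF (Fin n)).eval x) =
          Sum.elim x fun i => !x i := by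
        ext a
        cases a with
        | inl i => rfl
        | inr i =>
          simp only [Sum.elim_inr]
          rw [eval_kill, hT2]
          cases hi : x i
          · rw [off_of_false hi]
            simp [h]
          · have := wt_off hi
            rw [decide_eq_false (by omega)]
            rfl
      rw [e1, hL2 x]
      rfl
    · rw [decide_eq_true (by omega : k + 1 ≤ wt x), Bool.or_true]

/-- formulas of depth at most `D` for all slices of `f` -/
def HasSlices (f : (Fin n → Bool) → Bool) (D : ℕ) : Prop := ∀ m : ℕ, ∃ F : MF (Fin n),
  F.depth ≤ D ∧ ∀ x : Fin n → Bool, (wt x < m → F.eval x = false) ∧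
    (wt x = m → F.eval x = f x) ∧ (m < wt x → F.eval x = true)

/-- **Thick slices.** -/
theorem thick {c D : ℕ} (hc : HasThr c) (f : (Fin n → Bool) → Bool)
    (hf : ∀ x y : Fin n → Bool, (∀ i, x i = true → y i = true) → f x = true → f y = true)
    (hS : HasSlices f D) (k W : ℕ) :
    ∃ F : MF (Fin n), F.depth ≤ D + (c + 1) * lg n * W ∧ ∀ x : Fin n → Bool,
      (wt x < k → F.eval x = false) ∧ (k ≤ wt x → wt x ≤ k + W → F.eval x = f x) ∧
      (k + W < wt x → F.eval x = true) := by
  induction W with
  | zero =>
    obtain ⟨F, h1, h2⟩ := hS k
    refine ⟨F, by omega, fun x => ⟨(h2 x).1, fun h3 h4 => ?_, fun h3 => (h2 x).2.2 (by omega)⟩⟩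
    exact (h2 x).2.1 (by omega)
  | succ W ih =>
    obtain ⟨M, hM1, hM2⟩ := ih
    by_cases hn : n ≤ k + W
    · refine ⟨M, hM1.trans (Nat.add_le_add_left (Nat.mul_le_mul_left _ (by omega)) _),
        fun x => ?_⟩
      have hx : wt x ≤ n := by
        have := zeros x
        omega
      exact ⟨(hM2 x).1, fun h1 _ => (hM2 x).2.1 h1 (by omega), fun h => absurd h (by omega)⟩
    · obtain ⟨S, hS1, hS2⟩ := hS (k + W + 1)
      obtain ⟨T, hT1, hT2⟩ := hc n (n - (k + W))
      refine ⟨.or (T.bind fun i => kill i M) S, ?_, fun x => ?_⟩
      · have h1 := MF.depth_bind_le (fun i => kill i M) _ (fun i => (depth_kill i M).trans hM1) T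
        have h2 := one_le_lg n
        simp only [MF.depth]
        have e1 : (c + 1) * lg n * (W + 1) = (c + 1) * lg n * W + (c * lg n + lg n) := by
          ring
        omega
      · have hz := zeros x
        set v : Fin n → Bool := fun i => M.eval (off x i) with hv
        have he : (T.bind fun i => kill i M).eval x = decide (n - (k + W) ≤ wt v) := by
          rw [MF.eval_bind, hT2]
          simp only [eval_kill, hv]
        simp only [MF.eval, he]
        -- all functions vanish
        have hvan : wt x ≤ k + W + 1 → f x = false → (wt x ≤ k + W → wt v = 0) ∧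
            wt v ≤ (univ.filter fun i => x i = false).card := by
          intro h1 h2
          have h3 : ∀ i, x i = true → v i = false := by
            intro i hi
            have h4 := wt_off hi
            simp only [hv]
            by_cases h5 : k ≤ wt (off x i)
            · rw [(hM2 _).2.1 h5 (by omega)]
              by_contra h6
              rw [Bool.not_eq_false] at h6
              rw [hf (off x i) x (fun j => off_le x i j) h6] at h2
              exact Bool.false_ne_true h2.symm
            · exact (hM2 _).1 (by omega)
          constructor
          · intro h4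
            have h5 : ∀ i, v i = false := by
              intro i
              cases hi : x i
              · simp only [hv]
                rw [off_of_false hi]
                by_cases h6 : k ≤ wt x
                · rw [(hM2 x).2.1 h6 h4, h2]
                · exact (hM2 x).1 (by omega)
              · exact h3 i hi
            rw [wt_eq, card_eq_zero, filter_eq_empty_iff]
            intro i _
            rw [h5 i]
            exact Bool.false_ne_true
          · rw [wt_eq]
            refine card_le_card fun i hi => ?_
            rw [mem_filter] at hi ⊢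
            refine ⟨mem_univ _, ?_⟩
            by_contra h6
            rw [Bool.not_eq_false] at h6
            rw [h3 i h6] at hi
            exact Bool.false_ne_true hi.2
        refine ⟨fun h => ?_, fun h1 h2 => ?_, fun h => ?_⟩
        · rw [(hS2 x).1 (by omega), Bool.or_false]
          apply decide_eq_false
          have : wt v = 0 := by
            rw [wt_eq, card_eq_zero, filter_eq_empty_iff]
            intro i _
            simp only [hv]
            rw [(hM2 _).1 (lt_of_le_of_lt (wt_off_le x i) h)]
            exact Bool.false_ne_true
          omega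
        · cases hfx : f x
          · obtain ⟨g1, g2⟩ := hvan (by omega) hfx
            by_cases h3 : wt x ≤ k + W
            · rw [(hS2 x).1 (by omega), Bool.or_false]
              apply decide_eq_false
              rw [g1 h3]
              omega
            · rw [(hS2 x).2.1 (by omega), hfx, Bool.or_false]
              apply decide_eq_false
              omega
          · by_cases h3 : wt x ≤ k + W
            · have h4 : (univ.filter fun i => x i = false).card ≤ wt v := by
                rw [wt_eq v]
                refine card_le_card fun i hi => ?_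
                rw [mem_filter] at hi ⊢
                refine ⟨mem_univ _, ?_⟩
                simp only [hv]
                rw [off_of_false hi.2, (hM2 x).2.1 h1 h3, hfx]
              rw [decide_eq_true (by omega), Bool.true_or]
            · rw [(hS2 x).2.1 (by omega), hfx, Bool.or_true]
        · rw [(hS2 x).2.2 (by omega), Bool.or_true]

end Pool.Agent.L0h35.Ts
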