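import Pool.Agent.L0h35.TsDefs
import Pool.Agent.L0h35.NgCirc

set_option autoImplicit false

/-!
# From straight-line programs to circuits
-/

open scoped Classical
open Finset

namespace Pool.Agent.L0h35.Ts

open Pool.Agent.L0h35.Ng

variable {n : ℕ}

/-- functions with depths -/
abbrev FD (n : ℕ) : Type := ((Fin n → Bool) → Bool) × ℕ

/-- the gate is consistent with the functions -/
def OKG {N : ℕ} (F : ℕ → FD n) (p : FD n) : Gate n N → Prop
  | .var i => ∀ x, p.1 x = x i
  | .const b => ∀ x, p.1 x = b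
  | .not i => (∀ x, p.1 x = !(F i).1 x) ∧ (F i).2 + 1 ≤ p.2
  | .and i j => (∀ x, p.1 x = ((F i).1 x && (F j).1 x)) ∧ max (F i).2 (F j).2 + 1 ≤ p.2
  | .or i j => (∀ x, p.1 x = ((F i).1 x || (F j).1 x)) ∧ max (F i).2 (F j).2 + 1 ≤ p.2

theorem okg_congr {N : ℕ} {F F' : ℕ → FD n} (h : ∀ k < N, F' k = F k) (p : FD n)
    (γ : Gate n N) (hγ : OKG F p γ) : OKG F' p γ := by
  cases γ with
  | var i => exact hγ
  | const b => exact hγ
  | not i => simpa only [OKG, h i i.2] using hγ
  | and i j => simpa only [OKG, h i i.2, h j j.2] using hγ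
  | or i j => simpa only [OKG, h i i.2, h j j.2] using hγ

/-- is a NOT gate -/
def isNot {N : ℕ} (γ : Gate n N) : Prop := ∃ i, γ = .not i

/-- the state: gates, functions -/
def St (n r : ℕ) (l : List (FD n)) : Prop :=
  ∃ (N : ℕ) (g : (k : Fin N) → Gate n k) (F : ℕ → FD n), (∀ k : Fin N, OKG F (F k) (g k)) ∧
    (∀ p ∈ l, ∃ k : Fin N, F k = p) ∧ (univ.filter fun k : Fin N => isNot (g k)).card ≤ r

theorem st_ext {r : ℕ} {l : List (FD n)} {N : ℕ} {g : (k : Fin N) → Gate n k} {F : ℕ → FD n}
    (h1 : ∀ k : Fin N, OKG F (F k) (g k)) (h2 : ∀ p ∈ l, ∃ k : Fin N, F k = p)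
    (h3 : (univ.filter fun k : Fin N => isNot (g k)).card ≤ r)
    (γ : Gate n N) (p : FD n) (hγ : OKG F p γ) :
    St n (r + if isNot γ then 1 else 0) (p :: l) := by
  have hF : ∀ k < N, Function.update F N p k = F k := fun k hk =>
    Function.update_of_ne (by omega) _ _
  refine ⟨N + 1, Fin.lastCases (motive := fun k => Gate n k) γ g, Function.update F N p,
    ?_, ?_, ?_⟩
  · intro k
    induction k using Fin.lastCases with
    | last =>
      rw [Fin.lastCases_last]
      have e1 : Function.update F N p (Fin.last N : Fin (N + 1)) = p := by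
        rw [Fin.val_last, Function.update_self]
      rw [e1]
      exact okg_congr hF p γ hγ
    | cast k =>
      rw [Fin.lastCases_castSucc]
      have e1 : Function.update F N p (k.castSucc : Fin (N + 1)) = F k := by
        rw [Fin.val_castSucc, hF k k.2]
      rw [e1]
      exact okg_congr (fun j hj => hF j (hj.trans k.2)) _ _ (h1 k)
  · intro q hq
    rcases List.mem_cons.1 hq with rfl | hq
    · exact ⟨Fin.last N, by rw [Fin.val_last, Function.update_self]⟩
    · obtain ⟨k, hk⟩ := h2 q hq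
      exact ⟨k.castSucc, by rw [Fin.val_castSucc, hF k k.2, hk]⟩
  · rw [Finset.card_filter, Fin.sum_univ_castSucc]
    simp only [Fin.lastCases_castSucc, Fin.lastCases_last]
    rw [Finset.card_filter] at h3
    exact Nat.add_le_add_right h3 _

theorem slp_st {r : ℕ} {l : List (FD n)} (h : SLP n r l) : St n r l := by
  induction h with
  | nil => exact ⟨0, fun k => k.elim0, fun _ => (fun _ => false, 0), fun k => k.elim0, by simp, by simp⟩
  | var i _ ih =>
    obtain ⟨N, g, F, h1, h2, h3⟩ := ih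
    have := st_ext h1 h2 h3 (.var i) (fun x => x i, 0) (fun _ => rfl)
    rwa [if_neg (by rintro ⟨_, h⟩; cases h), add_zero] at this
  | const b _ ih =>
    obtain ⟨N, g, F, h1, h2, h3⟩ := ih
    have := st_ext h1 h2 h3 (.const b) (fun _ => b, 0) (fun _ => rfl)
    rwa [if_neg (by rintro ⟨_, h⟩; cases h), add_zero] at this
  | not p _ hp ih =>
    obtain ⟨N, g, F, h1, h2, h3⟩ := ih
    obtain ⟨i, hi⟩ := h2 p hp
    have := st_ext h1 h2 h3 (.not i) (fun x => !p.1 x, p.2 + 1)
      ⟨fun _ => by rw [hi], by rw [hi]⟩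
    rwa [if_pos ⟨_, rfl⟩] at this
  | and p q _ hp hq ih =>
    obtain ⟨N, g, F, h1, h2, h3⟩ := ih
    obtain ⟨i, hi⟩ := h2 p hp
    obtain ⟨j, hj⟩ := h2 q hq
    have := st_ext h1 h2 h3 (.and i j) (fun x => p.1 x && q.1 x, max p.2 q.2 + 1)
      ⟨fun _ => by rw [hi, hj], by rw [hi, hj]⟩
    rwa [if_neg (by rintro ⟨_, h⟩; cases h), add_zero] at this
  | or p q _ hp hq ih =>
    obtain ⟨N, g, F, h1, h2, h3⟩ := ih
    obtain ⟨i, hi⟩ := h2 p hp
    obtain ⟨j, hj⟩ := h2 q hq
    have := st_ext h1 h2 h3 (.or i j) (fun x => p.1 x || q.1 x, max p.2 q.2 + 1)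
      ⟨fun _ => by rw [hi, hj], by rw [hi, hj]⟩
    rwa [if_neg (by rintro ⟨_, h⟩; cases h), add_zero] at this

theorem fullDepthAt_le (C : Circuit n) (F : ℕ → FD n)
    (h1 : ∀ k : Fin C.nodes, OKG F (F k) (C.gate k)) (k : Fin C.nodes) :
    C.fullDepthAt k ≤ (F k).2 := by
  induction k using WellFoundedLT.induction with
  | _ k ih =>
  have hk := h1 k
  rw [Circuit.fullDepthAt]
  cases hg : C.gate k with
  | var i => exact Nat.zero_le _
  | const b => exact Nat.zero_le _
  | not i =>
    rw [hg] at hk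
    have := ih _ (C.up_lt k i)
    have h2 : (F (C.up k i)).2 + 1 ≤ (F k).2 := hk.2
    simp only
    omega
  | and i j =>
    rw [hg] at hk
    have e1 := ih _ (C.up_lt k i)
    have e2 := ih _ (C.up_lt k j)
    have h2 : max (F (C.up k i)).2 (F (C.up k j)).2 + 1 ≤ (F k).2 := hk.2
    simp only
    omega
  | or i j =>
    rw [hg] at hk
    have e1 := ih _ (C.up_lt k i)
    have e2 := ih _ (C.up_lt k j)
    have h2 : max (F (C.up k i)).2 (F (C.up k j)).2 + 1 ≤ (F k).2 := hk.2
    simp only
    omega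

theorem eval_eqF (C : Circuit n) (F : ℕ → FD n)
    (h1 : ∀ k : Fin C.nodes, OKG F (F k) (C.gate k)) (x : Fin n → Bool) (k : Fin C.nodes) :
    C.eval x k = (F k).1 x := by
  induction k using WellFoundedLT.induction with
  | _ k ih =>
  have hk := h1 k
  cases hg : C.gate k with
  | var i =>
    rw [hg] at hk
    rw [C.eval_var hg, hk x]
  | const b =>
    rw [hg] at hk
    rw [C.eval_const hg, hk x]
  | not i =>
    rw [hg] at hk
    rw [C.eval_not hg, ih _ (C.up_lt k i)]
    exact (hk.1 x).symm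
  | and i j =>
    rw [hg] at hk
    rw [C.eval_and hg, ih _ (C.up_lt k i), ih _ (C.up_lt k j)]
    exact (hk.1 x).symm
  | or i j =>
    rw [hg] at hk
    rw [C.eval_or hg, ih _ (C.up_lt k i), ih _ (C.up_lt k j)]
    exact (hk.1 x).symm

theorem stSLP : StSLP := by
  intro n r l h p hp
  obtain ⟨N, g, F, h1, h2, h3⟩ := slp_st h
  obtain ⟨k, hk⟩ := h2 p hp
  refine ⟨⟨N, g, k⟩, ?_, ?_, fun x => ?_⟩
  · unfold Circuit.nots
    rw [Nat.card_eq_fintype_card, Fintype.card_subtype]
    refine le_trans (le_of_eq ?_) h3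
    congr 1
    ext j
    rw [mem_filter, mem_filter]
    exact Iff.rfl
  · have := fullDepthAt_le ⟨N, g, k⟩ F h1 k
    rw [hk] at this
    exact this
  · have := eval_eqF ⟨N, g, k⟩ F h1 x k
    rw [hk] at this
    exact this

/-- the depth of a circuit is at most its full depth -/
theorem depthAt_le_full (C : Circuit n) (k : Fin C.nodes) : C.depthAt k ≤ C.fullDepthAt k := by
  induction k using WellFoundedLT.induction with
  | _ k ih =>
  rw [Circuit.fullDepthAt, Circuit.depthAt]
  cases hg : C.gate k with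
  | var i => exact le_rfl
  | const b => exact le_rfl
  | not i =>
    have := ih _ (C.up_lt k i)
    simp only
    omega
  | and i j =>
    have e1 := ih _ (C.up_lt k i)
    have e2 := ih _ (C.up_lt k j)
    simp only
    omega
  | or i j =>
    have e1 := ih _ (C.up_lt k i)
    have e2 := ih _ (C.up_lt k j)
    simp only
    omega

end Pool.Agent.L0h35.Ts
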