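import Pool.Agent.L0h35.TsDefs

/-!
# Valiant's theorem: monotone formulas of logarithmic depth for the threshold functions
-/

set_option autoImplicit false

open scoped Classical

namespace Pool.Agent.L0h35.Ts

namespace Thr

/-- the probability that the majority of three is true -/
noncomputable def phi (p : ℝ) : ℝ := 3 * p ^ 2 - 2 * p ^ 3

lemma phi_ge {y : ℝ} (h0 : 1 / 2 ≤ y) (h1 : y ≤ 1) : y ≤ phi y := by
  have : phi y - y = y * ((2 * y - 1) * (1 - y)) := by unfold phi; ring
  have h2 : 0 ≤ y * ((2 * y - 1) * (1 - y)) :=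
    mul_nonneg (by linarith) (mul_nonneg (by linarith) (by linarith))
  linarith

lemma phi_le_one {y : ℝ} (h0 : 0 ≤ y) : phi y ≤ 1 := by
  have : 1 - phi y = (1 - y) ^ 2 * (1 + 2 * y) := by unfold phi; ring
  have h2 : 0 ≤ (1 - y) ^ 2 * (1 + 2 * y) := mul_nonneg (sq_nonneg _) (by linarith)
  linarith

lemma phi_symm (y : ℝ) : phi (1 - y) = 1 - phi y := by
  unfold phi; ring

lemma iter_symm (m : ℕ) (y : ℝ) : phi^[m] (1 - y) = 1 - phi^[m] y := by
  induction m with
  | zero => rfl
  | succ m ih => rw [Function.iterate_succ_apply', Function.iterate_succ_apply', ih, phi_symm]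

lemma grow (m : ℕ) (p : ℝ) (hp : 1 / 2 ≤ p) (hp1 : p ≤ 1) :
    min (3 / 4) (1 / 2 + (5 / 4) ^ m * (p - 1 / 2)) ≤ phi^[m] p ∧ phi^[m] p ≤ 1 ∧
      1 / 2 ≤ phi^[m] p := by
  induction m with
  | zero => exact ⟨by simp, hp1, hp⟩
  | succ m ih =>
    rw [Function.iterate_succ_apply']
    obtain ⟨h1, h2, h3⟩ := ih
    set y := phi^[m] p with hy
    refine ⟨?_, phi_le_one (by linarith), h3.trans (phi_ge h3 h2)⟩
    rcases le_total (3 / 4) y with h | h
    · exact (min_le_left _ _).trans (h.trans (phi_ge h3 h2))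
    · have h4 : 1 / 2 + 5 / 4 * (y - 1 / 2) ≤ phi y := by
        have : phi y - (1 / 2 + 5 / 4 * (y - 1 / 2)) =
            (y - 1 / 2) * (1 / 4 - 2 * (y - 1 / 2) ^ 2) := by unfold phi; ring
        have h5 : 0 ≤ (y - 1 / 2) * (1 / 4 - 2 * (y - 1 / 2) ^ 2) := by
          apply mul_nonneg (by linarith)
          nlinarith
        linarith
      rcases min_le_iff.1 h1 with h5 | h5
      · have : y = 3 / 4 := le_antisymm h h5
        exact (min_le_left _ _).trans (h5.trans (phi_ge h3 h2))
      · refine (min_le_right _ _).trans (le_trans ?_ h4)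
        rw [pow_succ]
        nlinarith

lemma shrink (m : ℕ) (p : ℝ) (hp : 3 / 4 ≤ p) (hp1 : p ≤ 1) :
    3 * (1 - phi^[m] p) ≤ (3 / 4) ^ (2 ^ m) ∧ phi^[m] p ≤ 1 ∧ 3 / 4 ≤ phi^[m] p := by
  induction m with
  | zero => refine ⟨?_, hp1, hp⟩; norm_num; linarith
  | succ m ih =>
    rw [Function.iterate_succ_apply']
    obtain ⟨h1, h2, h3⟩ := ih
    set y := phi^[m] p with hy
    refine ⟨?_, phi_le_one (by linarith), h3.trans (phi_ge (by linarith) h2)⟩
    have e1 : 1 - phi y = (1 - y) ^ 2 * (1 + 2 * y) := by unfold phi; ring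
    have e2 : (1 - y) ^ 2 * (1 + 2 * y) ≤ 3 * (1 - y) ^ 2 := by nlinarith [sq_nonneg (1 - y)]
    calc 3 * (1 - phi y) ≤ (3 * (1 - y)) ^ 2 := by rw [e1]; nlinarith
      _ ≤ ((3 / 4) ^ (2 ^ m)) ^ 2 := pow_le_pow_left₀ (by linarith) h1 2
      _ = (3 / 4) ^ (2 ^ (m + 1)) := by rw [← pow_mul, pow_succ]

/-- the majority of three formulas -/
def maj3 {α : Type} (F G H : MF α) : MF α := .or (.and F G) (.and H (.or F G))

lemma ind_maj3 {α : Type} (F G H : MF α) (v : α → Bool) :
    (if (maj3 F G H).eval v = true then (1 : ℝ) else 0) =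
      (if F.eval v = true then (1 : ℝ) else 0) * (if G.eval v = true then (1 : ℝ) else 0) +
      (if H.eval v = true then (1 : ℝ) else 0) * (if F.eval v = true then (1 : ℝ) else 0) +
      (if H.eval v = true then (1 : ℝ) else 0) * (if G.eval v = true then (1 : ℝ) else 0) -
      2 * ((if F.eval v = true then (1 : ℝ) else 0) * (if G.eval v = true then (1 : ℝ) else 0) *
        (if H.eval v = true then (1 : ℝ) else 0)) := by
  have e : (maj3 F G H).eval v =
      ((F.eval v && G.eval v) || (H.eval v && (F.eval v || G.eval v))) := rfl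
  rw [e]
  cases F.eval v <;> cases G.eval v <;> cases H.eval v <;> norm_num

/-- the random formulas -/
lemma family (α : Type) [Fintype α] [Nonempty α] (m : ℕ) :
    ∃ (Ω : Type) (_ : Fintype Ω) (_ : Nonempty Ω) (f : Ω → MF α),
      (∀ ω, (f ω).depth ≤ 3 * m) ∧ ∀ v : α → Bool,
        (∑ ω, (if (f ω).eval v = true then (1 : ℝ) else 0)) / Fintype.card Ω =
          phi^[m] ((∑ i, if v i = true then (1 : ℝ) else 0) / Fintype.card α) := by
  induction m with
  | zero => exact ⟨α, inferInstance, inferInstance, fun i => .leaf i, fun _ => le_rfl,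
      fun v => rfl⟩
  | succ m ih =>
    obtain ⟨Ω, hΩ, hne, f, hf, hv⟩ := ih
    refine ⟨Ω × Ω × Ω, inferInstance, inferInstance, fun w => maj3 (f w.1) (f w.2.1) (f w.2.2),
      fun w => ?_, fun v => ?_⟩
    · have h1 := hf w.1
      have h2 := hf w.2.1
      have h3 := hf w.2.2
      simp only [maj3, MF.depth]
      omega
    · rw [Function.iterate_succ_apply', ← hv v]
      have hN : (Fintype.card Ω : ℝ) ≠ 0 := by
        have : 0 < Fintype.card Ω := Fintype.card_pos
        positivity
      set g : Ω → ℝ := fun ω => if (f ω).eval v = true then (1 : ℝ) else 0 with hg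
      have e1 : ∀ w : Ω × Ω × Ω, (if (maj3 (f w.1) (f w.2.1) (f w.2.2)).eval v = true
          then (1 : ℝ) else 0) = g w.1 * g w.2.1 + g w.2.2 * g w.1 + g w.2.2 * g w.2.1 -
            2 * (g w.1 * g w.2.1 * g w.2.2) := fun w => ind_maj3 _ _ _ v
      simp_rw [e1]
      rw [Fintype.sum_prod_type]
      simp_rw [Fintype.sum_prod_type]
      have e2 : ∑ a, ∑ b, ∑ c, (g a * g b + g c * g a + g c * g b - 2 * (g a * g b * g c)) =
          3 * (∑ a, g a) ^ 2 * Fintype.card Ω - 2 * (∑ a, g a) ^ 3 := by
        set S := ∑ a, g a with hS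
        have i1 : ∀ a b, ∑ c, (g a * g b + g c * g a + g c * g b - 2 * (g a * g b * g c)) =
            Fintype.card Ω * (g a * g b) + S * g a + S * g b - 2 * (g a * g b * S) := by
          intro a b
          rw [Finset.sum_sub_distrib, Finset.sum_add_distrib, Finset.sum_add_distrib,
            Finset.sum_const, ← Finset.sum_mul, ← Finset.sum_mul, ← Finset.mul_sum,
            ← Finset.mul_sum, Finset.card_univ, nsmul_eq_mul]
        have i2 : ∀ a, ∑ b, (Fintype.card Ω * (g a * g b) + S * g a + S * g b -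
            2 * (g a * g b * S)) = Fintype.card Ω * (g a * S) + Fintype.card Ω * (S * g a) +
              S * S - 2 * (g a * S * S) := by
          intro a
          rw [Finset.sum_sub_distrib, Finset.sum_add_distrib, Finset.sum_add_distrib,
            Finset.sum_const, ← Finset.mul_sum, ← Finset.mul_sum, ← Finset.mul_sum,
            ← Finset.mul_sum, ← Finset.sum_mul, ← Finset.mul_sum, Finset.card_univ, nsmul_eq_mul]
        simp_rw [i1, i2]
        rw [Finset.sum_sub_distrib, Finset.sum_add_distrib, Finset.sum_add_distrib,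
          Finset.sum_const, ← Finset.mul_sum, ← Finset.mul_sum, ← Finset.mul_sum,
          ← Finset.mul_sum, ← Finset.sum_mul, ← Finset.sum_mul, ← Finset.sum_mul,
          Finset.card_univ, nsmul_eq_mul]
        ring
      rw [e2, Fintype.card_prod, Fintype.card_prod]
      unfold phi
      push_cast
      field_simp

/-- monotone formulas of logarithmic depth for majority -/
lemma majority (α : Type) [Fintype α] (n : ℕ) (hα : Fintype.card α = 2 * n + 1) :
    ∃ F : MF α, F.depth ≤ 3 * (5 * Nat.log 2 (2 * n + 3) + 7) ∧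
      ∀ v : α → Bool, F.eval v = decide (n + 1 ≤ Fintype.card {i // v i = true}) := by
  have hne : Nonempty α := by
    rw [← Fintype.card_pos_iff, hα]; omega
  set L := Nat.log 2 (2 * n + 3) with hL
  have hL1 : 2 * n + 3 < 2 ^ (L + 1) := Nat.lt_pow_succ_log_self (by norm_num) _
  have hL2 : (2 * n + 3 : ℝ) < 2 ^ (L + 1) := by exact_mod_cast hL1
  -- the two phases
  have hphase : ∀ p : ℝ, 1 / 2 + 1 / (2 * (2 * n + 1)) ≤ p → p ≤ 1 →
      1 - phi^[5 * L + 7] p ≤ (1 / 2) ^ (2 * n + 2) := by
    intro p hp hp1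
    have hp0 : (0 : ℝ) < 1 / (2 * (2 * n + 1)) := by positivity
    have h5 : 5 * L + 7 = (L + 3) + 4 * (L + 1) := by ring
    rw [h5, Function.iterate_add_apply]
    have hg := grow (4 * (L + 1)) p (by linarith) hp1
    have h6 : (2 : ℝ) ^ (L + 1) ≤ (5 / 4) ^ (4 * (L + 1)) := by
      rw [pow_mul]
      exact pow_le_pow_left₀ (by norm_num) (by norm_num) _
    have h7 : (3 : ℝ) / 4 ≤ 1 / 2 + (5 / 4) ^ (4 * (L + 1)) * (p - 1 / 2) := by
      have h8 : (2 * n + 3 : ℝ) * (1 / (2 * (2 * n + 1))) ≤
          (5 / 4) ^ (4 * (L + 1)) * (p - 1 / 2) := by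
        apply mul_le_mul (hL2.le.trans h6) (by linarith) hp0.le (by positivity)
      have h9 : (1 : ℝ) / 2 ≤ (2 * n + 3 : ℝ) * (1 / (2 * (2 * n + 1))) := by
        rw [mul_one_div, div_le_div_iff₀ (by norm_num) (by positivity)]
        linarith
      linarith
    have h10 : 3 / 4 ≤ phi^[4 * (L + 1)] p := by
      have := hg.1
      rw [min_eq_left h7] at this
      exact this
    have hs := shrink (L + 3) _ h10 hg.2.1
    have h11 : ((3 : ℝ) / 4) ^ (2 ^ (L + 3)) ≤ (1 / 2) ^ (2 * n + 2) := by
      have e1 : 2 ^ (L + 3) = 4 * 2 ^ (L + 1) := by ring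
      rw [e1, pow_mul]
      calc (((3 : ℝ) / 4) ^ 4) ^ (2 ^ (L + 1)) ≤ (1 / 2) ^ (2 ^ (L + 1)) :=
            pow_le_pow_left₀ (by norm_num) (by norm_num) _
        _ ≤ (1 / 2) ^ (2 * n + 2) :=
            pow_le_pow_of_le_one (by norm_num) (by norm_num) (by omega)
    have h12 : 0 ≤ 1 - phi^[L + 3] (phi^[4 * (L + 1)] p) := by linarith [hs.2.1]
    linarith [hs.1]
  obtain ⟨Ω, hΩ, hΩne, f, hf, hv⟩ := family α (5 * L + 7)
  have hN : (0 : ℝ) < Fintype.card Ω := by
    have : 0 < Fintype.card Ω := Fintype.card_pos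
    positivity
  -- the bad seeds
  have hbad : ∀ v : α → Bool, ∑ ω, (if (f ω).eval v = decide (n + 1 ≤ Fintype.card {i // v i = true})
      then (0 : ℝ) else 1) ≤ (1 / 2) ^ (2 * n + 2) * Fintype.card Ω := by
    intro v
    have hcount : ∑ i, (if v i = true then (1 : ℝ) else 0) = Fintype.card {i // v i = true} := by
      rw [Fintype.card_subtype, Finset.sum_ite, Finset.sum_const, Finset.sum_const_zero]
      simp
    have hkle : Fintype.card {i // v i = true} ≤ 2 * n + 1 := by
      rw [← hα]; exact Fintype.card_subtype_le _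
    have hvv := hv v
    rw [hcount, hα, div_eq_iff hN.ne'] at hvv
    set k := Fintype.card {i // v i = true} with hk
    have hkle' : (k : ℝ) ≤ 2 * n + 1 := by exact_mod_cast hkle
    by_cases hc : n + 1 ≤ k
    · have hc' : (n : ℝ) + 1 ≤ k := by exact_mod_cast hc
      have e1 : ∀ ω, (if (f ω).eval v = decide (n + 1 ≤ k) then (0 : ℝ) else 1) =
          1 - (if (f ω).eval v = true then (1 : ℝ) else 0) := by
        intro ω
        rw [decide_eq_true hc]
        split_ifs <;> norm_num
      simp_rw [e1]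
      rw [Finset.sum_sub_distrib, Finset.sum_const, Finset.card_univ, nsmul_eq_mul, mul_one, hvv]
      have h1 := hphase ((k : ℝ) / ((2 * n + 1 : ℕ) : ℝ)) (by
        push_cast
        rw [div_add_div _ _ (by norm_num) (by positivity), div_le_div_iff₀ (by positivity)
          (by positivity)]
        nlinarith) (by
        push_cast
        rw [div_le_one (by positivity)]; exact hkle')
      nlinarith
    · have hc' : (k : ℝ) ≤ n := by exact_mod_cast (by omega : k ≤ n)
      have e1 : ∀ ω, (if (f ω).eval v = decide (n + 1 ≤ k) then (0 : ℝ) else 1) =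
          (if (f ω).eval v = true then (1 : ℝ) else 0) := by
        intro ω
        rw [decide_eq_false hc]
        cases (f ω).eval v <;> simp
      simp_rw [e1]
      rw [hvv]
      have h1 := hphase (1 - (k : ℝ) / ((2 * n + 1 : ℕ) : ℝ)) (by
        push_cast
        have e2 : (1 : ℝ) - k / (2 * n + 1) = (2 * n + 1 - k) / (2 * n + 1) := by
          field_simp
        rw [e2, div_add_div _ _ (by norm_num) (by positivity), div_le_div_iff₀ (by positivity)
          (by positivity)]
        nlinarith) (by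
        have : (0 : ℝ) ≤ (k : ℝ) / ((2 * n + 1 : ℕ) : ℝ) := by positivity
        linarith)
      rw [iter_symm] at h1
      apply mul_le_mul_of_nonneg_right _ hN.le
      linarith
  -- union bound
  have hex : ∃ ω, ∀ v : α → Bool,
      (f ω).eval v = decide (n + 1 ≤ Fintype.card {i // v i = true}) := by
    by_contra hcon
    push Not at hcon
    have h1 : (Fintype.card Ω : ℝ) ≤ ∑ ω, ∑ v : α → Bool,
        (if (f ω).eval v = decide (n + 1 ≤ Fintype.card {i // v i = true}) then (0 : ℝ) else 1) := by
      have e1 : (Fintype.card Ω : ℝ) = ∑ _ω : Ω, (1 : ℝ) := by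
        rw [Finset.sum_const, Finset.card_univ, nsmul_eq_mul, mul_one]
      rw [e1]
      apply Finset.sum_le_sum
      intro ω _
      obtain ⟨v, hv'⟩ := hcon ω
      have e2 : (1 : ℝ) = if (f ω).eval v = decide (n + 1 ≤ Fintype.card {i // v i = true})
          then (0 : ℝ) else 1 := by rw [if_neg hv']
      exact e2.le.trans (Finset.single_le_sum (f := fun v : α → Bool => if (f ω).eval v =
        decide (n + 1 ≤ Fintype.card {i // v i = true}) then (0 : ℝ) else 1)
        (fun _ _ => by positivity) (Finset.mem_univ v))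
    rw [Finset.sum_comm] at h1
    have h2 : ∑ v : α → Bool, ∑ ω,
        (if (f ω).eval v = decide (n + 1 ≤ Fintype.card {i // v i = true}) then (0 : ℝ) else 1) ≤
        ∑ _v : α → Bool, (1 / 2) ^ (2 * n + 2) * (Fintype.card Ω : ℝ) :=
      Finset.sum_le_sum fun v _ => hbad v
    rw [Finset.sum_const, Finset.card_univ, Fintype.card_fun, Fintype.card_bool, hα,
      nsmul_eq_mul] at h2
    push_cast at h2
    have e3 : (2 : ℝ) ^ (2 * n + 1) * ((1 / 2) ^ (2 * n + 2) * (Fintype.card Ω : ℝ)) =
        1 / 2 * Fintype.card Ω := by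
      rw [← mul_assoc]
      congr 1
      rw [pow_succ (1 / 2 : ℝ) (2 * n + 1), ← mul_assoc, ← mul_pow]
      norm_num
    rw [e3] at h2
    linarith
  obtain ⟨ω, hω⟩ := hex
  exact ⟨f ω, hf ω, hω⟩

end Thr

open Thr in
/-- **Valiant's theorem** -/
theorem stTHR : StTHR := by
  refine ⟨51, fun n k => ?_⟩
  set L := Nat.log 2 (n + 2) with hL
  have hL0 : 1 ≤ L := Nat.log_pos (by norm_num) (by omega)
  by_cases hk : k ≤ n
  · have hα : Fintype.card (Fin n ⊕ Fin (n + 1)) = 2 * n + 1 := by
      rw [Fintype.card_sum, Fintype.card_fin, Fintype.card_fin]; ring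
    obtain ⟨F, hF, hv⟩ := majority (Fin n ⊕ Fin (n + 1)) n hα
    have hlog : Nat.log 2 (2 * n + 3) ≤ L + 1 := by
      have h1 : n + 2 < 2 ^ (L + 1) := Nat.lt_pow_succ_log_self (by norm_num) _
      have h2 : 2 * n + 3 < 2 ^ (L + 1 + 1) := by rw [pow_succ]; omega
      have := Nat.log_lt_of_lt_pow (b := 2) (by omega) h2
      omega
    let s : Fin n ⊕ Fin (n + 1) → MF (Fin n) := fun a => match a with
      | .inl i => .leaf i
      | .inr j => .const (decide ((j : ℕ) < n + 1 - k))
    refine ⟨F.bind s, ?_, fun x => ?_⟩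
    · have h1 := MF.depth_bind_le s 0 (fun a => by cases a <;> exact le_rfl) F
      omega
    · rw [MF.eval_bind, hv]
      have hcard : Fintype.card {i : Fin n ⊕ Fin (n + 1) // (s i).eval x = true} =
          wt x + (n + 1 - k) := by
        have e1 : Fintype.card {i : Fin n ⊕ Fin (n + 1) // (s i).eval x = true} =
            Fintype.card {i : Fin n // x i = true} +
              Fintype.card {j : Fin (n + 1) // (j : ℕ) < n + 1 - k} := by
          rw [Fintype.card_congr (Equiv.subtypeSum (p := fun i => (s i).eval x = true)),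
            Fintype.card_sum]
          congr 1
          apply Fintype.card_congr
          apply Equiv.subtypeEquivRight
          intro j
          change decide ((j : ℕ) < n + 1 - k) = true ↔ _
          rw [decide_eq_true_iff]
        rw [e1]
        congr 1
        rw [Fintype.card_subtype]
        have : (Finset.univ.filter fun j : Fin (n + 1) => (j : ℕ) < n + 1 - k).card =
            n + 1 - k := by
          rw [Fin.card_filter_val_lt]
          omega
        convert! this
      rw [hcard]
      congr 1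
      apply propext
      omega
  · refine ⟨.const false, by simp [MF.depth], fun x => ?_⟩
    have h1 : wt x ≤ n := by
      have := Fintype.card_subtype_le (fun i : Fin n => x i = true)
      rw [Fintype.card_fin] at this
      unfold wt
      convert! this
    symm
    change decide (k ≤ wt x) = false
    rw [decide_eq_false_iff_not]
    omega

end Pool.Agent.L0h35.Ts
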