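import Pool.Agent.L0h35.TsSlice

set_option autoImplicit false

/-!
# Each NOT gate halves the window
-/

open scoped Classical
open Finset

namespace Pool.Agent.L0h35.Ts

open Pool.Agent.L0h35.Ng

variable {n : ℕ}

/-- **Formulas over the functions of a program.** -/
theorem slp_formula {α : Type} {r : ℕ} (D : ℕ) (F : MF α) :
    ∀ {l : List (FD n)} (_ : SLP n r l) (s : α → FD n), (∀ a, s a ∈ l) → (∀ a, (s a).2 ≤ D) →
      ∃ (l' : List (FD n)) (d : ℕ), SLP n r l' ∧ (∀ p ∈ l, p ∈ l') ∧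
        ((fun x => F.eval fun a => (s a).1 x), d) ∈ l' ∧ d ≤ F.depth + D := by
  induction F with
  | leaf a =>
    intro l hl s hs hD
    exact ⟨l, (s a).2, hl, fun p hp => hp, hs a, by simpa [MF.depth] using hD a⟩
  | const b =>
    intro l hl s hs hD
    exact ⟨_, 0, SLP.const b hl, fun p hp => List.mem_cons_of_mem _ hp, List.mem_cons_self, by omega⟩
  | and F G hF hG =>
    intro l hl s hs hD
    obtain ⟨l1, d1, h1, h2, h3, h4⟩ := hF hl s hs hD
    obtain ⟨l2, d2, g1, g2, g3, g4⟩ := hG h1 s (fun a => h2 _ (hs a)) hD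
    refine ⟨_, _, SLP.and _ _ g1 (g2 _ h3) g3, fun p hp => List.mem_cons_of_mem _ (g2 _ (h2 p hp)),
      List.mem_cons_self, ?_⟩
    simp only [MF.depth]
    omega
  | or F G hF hG =>
    intro l hl s hs hD
    obtain ⟨l1, d1, h1, h2, h3, h4⟩ := hF hl s hs hD
    obtain ⟨l2, d2, g1, g2, g3, g4⟩ := hG h1 s (fun a => h2 _ (hs a)) hD
    refine ⟨_, _, SLP.or _ _ g1 (g2 _ h3) g3, fun p hp => List.mem_cons_of_mem _ (g2 _ (h2 p hp)),
      List.mem_cons_self, ?_⟩
    simp only [MF.depth]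
    omega

/-- the variables -/
theorem slp_vars (n : ℕ) : ∃ l : List (FD n), SLP n 0 l ∧ ∀ i, (fun x : Fin n → Bool => x i, 0) ∈ l := by
  have h : ∀ L : List (Fin n), ∃ l : List (FD n), SLP n 0 l ∧ ∀ i ∈ L, (fun x : Fin n → Bool => x i, 0) ∈ l := by
    intro L
    induction L with
    | nil => exact ⟨[], SLP.nil, fun i hi => absurd hi List.not_mem_nil⟩
    | cons i L ih =>
      obtain ⟨l, h1, h2⟩ := ih
      refine ⟨_, SLP.var i h1, fun j hj => ?_⟩
      rcases List.mem_cons.1 hj with rfl | hj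
      · exact List.mem_cons_self
      · exact List.mem_cons_of_mem _ (h2 j hj)
  obtain ⟨l, h1, h2⟩ := h (List.finRange n)
  exact ⟨l, h1, fun i => h2 i (List.mem_finRange i)⟩

/-- the number of the part of the window -/
def qq (k u r : ℕ) (x : Fin n → Bool) : ℕ := min ((wt x - k) / u) (2 ^ r - 1)

/-- the first `j` bits of the number -/
def pre (k u r j : ℕ) (x : Fin n → Bool) : ℕ := qq k u r x / 2 ^ (r - j)

/-- the bit `j + 1` -/
noncomputable def bt (k u r j : ℕ) (x : Fin n → Bool) : Bool :=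
  decide (k + u * (2 ^ (r - j - 1) * (2 * pre k u r j x + 1)) ≤ wt x)

theorem qq_lt (k u r : ℕ) (x : Fin n → Bool) : qq k u r x < 2 ^ r := by
  unfold qq
  have : 0 < 2 ^ r := by positivity
  omega

theorem pre_lt {k u r j : ℕ} (hj : j ≤ r) (x : Fin n → Bool) : pre k u r j x < 2 ^ j := by
  unfold pre
  rw [Nat.div_lt_iff_lt_mul (by positivity), ← pow_add, Nat.add_sub_cancel' hj]
  exact qq_lt k u r x

theorem pre_zero (k u r : ℕ) (x : Fin n → Bool) : pre k u r 0 x = 0 := by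
  have := pre_lt (k := k) (u := u) (r := r) (j := 0) (Nat.zero_le _) x
  simpa using this

theorem pre_self (k u r : ℕ) (x : Fin n → Bool) : pre k u r r x = qq k u r x := by
  unfold pre
  rw [Nat.sub_self, pow_zero, Nat.div_one]

theorem pre_succ {k u r j : ℕ} (hu : 1 ≤ u) (hj : j < r) (x : Fin n → Bool) :
    pre k u r (j + 1) x = 2 * pre k u r j x + if bt k u r j x = true then 1 else 0 := by
  have hp := pre_lt (k := k) (u := u) (r := r) hj.le x
  have h2 : (2 : ℕ) ^ (r - j) = 2 ^ (r - (j + 1)) * 2 := by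
    rw [← pow_succ]
    congr 1
    omega
  have h1 : pre k u r j x = pre k u r (j + 1) x / 2 := by
    unfold pre
    rw [h2, Nat.div_div_eq_div_mul]
  set s := pre k u r (j + 1) x with hs
  set p := pre k u r j x with hpp
  have hr : (2 : ℕ) ^ r = 2 ^ (r - (j + 1)) * 2 ^ (j + 1) := by
    rw [← pow_add]
    congr 1
    omega
  have h3 : bt k u r j x = true ↔ 2 * p + 1 ≤ s := by
    unfold bt
    rw [decide_eq_true_iff, ← hpp, show r - j - 1 = r - (j + 1) by omega]
    rw [hs]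
    unfold pre qq
    rw [Nat.le_div_iff_mul_le (by positivity), le_min_iff]
    have h4 : (2 * p + 1) * 2 ^ (r - (j + 1)) ≤ 2 ^ r - 1 := by
      have h5 : 2 * p + 2 ≤ 2 ^ (j + 1) := by
        rw [pow_succ]
        omega
      have h6 : 2 ^ (r - (j + 1)) * (2 * p + 2) ≤ 2 ^ r := by
        rw [hr]
        exact Nat.mul_le_mul_left _ h5
      have h7 : 0 < 2 ^ (r - (j + 1)) := by positivity
      have h8 : 2 ^ (r - (j + 1)) * (2 * p + 2) = (2 * p + 1) * 2 ^ (r - (j + 1)) + 2 ^ (r - (j + 1)) := by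
        ring
      omega
    rw [and_iff_left h4, Nat.le_div_iff_mul_le (by omega)]
    have h9 : 0 < (2 * p + 1) * 2 ^ (r - (j + 1)) * u := by positivity
    have h10 : u * (2 ^ (r - (j + 1)) * (2 * p + 1)) = (2 * p + 1) * 2 ^ (r - (j + 1)) * u := by ring
    rw [h10]
    omega
  by_cases h : bt k u r j x = true
  · rw [if_pos h]
    have := h3.1 h
    omega
  · rw [if_neg h]
    have : ¬ 2 * p + 1 ≤ s := fun h' => h (h3.2 h')
    omega

/-- **Selection by the first bits.** -/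
theorem mux {k u r : ℕ} (hu : 1 ≤ u) (dT : ℕ) {R : ℕ} (m : ℕ) (hm : m ≤ r) :
    ∀ (d0 : ℕ) (_ : dT ≤ d0) (v : ℕ → MF (Fin n)) (_ : ∀ p < 2 ^ m, (v p).depth ≤ d0)
      {l : List (FD n)} (_ : SLP n R l) (_ : ∀ i, (fun x : Fin n → Bool => x i, 0) ∈ l)
      (_ : ∀ j < m, ∃ e ≤ dT + 3 * j, ((fun x : Fin n → Bool => bt k u r j x), e) ∈ l ∧
        ((fun x : Fin n → Bool => !bt k u r j x), e + 1) ∈ l),
      ∃ (l' : List (FD n)) (d : ℕ), SLP n R l' ∧ (∀ p ∈ l, p ∈ l') ∧
        ((fun x : Fin n → Bool => (v (pre k u r m x)).eval x), d) ∈ l' ∧ d ≤ d0 + 3 * m := by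
  induction m with
  | zero =>
    intro d0 hd v hv l hl hx hb
    obtain ⟨l', d, h1, h2, h3, h4⟩ := slp_formula 0 (v 0) hl (fun i => (fun x => x i, 0)) hx
      fun _ => le_rfl
    refine ⟨l', d, h1, h2, ?_, h4.trans (by simpa using hv 0 (by norm_num))⟩
    simpa only [pre_zero] using h3
  | succ m ih =>
    intro d0 hd v hv l hl hx hb
    have hlt : ∀ p < 2 ^ m, 2 * p + 1 < 2 ^ (m + 1) := fun p hp => by
      rw [pow_succ]
      omega
    obtain ⟨l1, d1, h1, h2, h3, h4⟩ := ih (by omega) d0 hd (fun p => v (2 * p + 1))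
      (fun p hp => hv _ (hlt p hp)) hl hx fun j hj => hb j (by omega)
    obtain ⟨l2, d2, g1, g2, g3, g4⟩ := ih (by omega) d0 hd (fun p => v (2 * p))
      (fun p hp => hv _ (by have := hlt p hp; omega)) h1 (fun i => h2 _ (hx i))
      fun j hj => by
        obtain ⟨e, he, e1, e2⟩ := hb j (by omega)
        exact ⟨e, he, h2 _ e1, h2 _ e2⟩
    obtain ⟨e, he, e1, e2⟩ := hb m (by omega)
    have a1 := SLP.and _ _ g1 (g2 _ (h2 _ e1)) (g2 _ h3)
    have a2 := SLP.and _ _ a1 (List.mem_cons_of_mem _ (g2 _ (h2 _ e2))) (List.mem_cons_of_mem _ g3)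
    have a3 := SLP.or _ _ a2 (List.mem_cons_of_mem _ List.mem_cons_self) List.mem_cons_self
    refine ⟨_, max (max e d1 + 1) (max (e + 1) d2 + 1) + 1, a3, fun p hp => ?_, ?_, ?_⟩
    · exact List.mem_cons_of_mem _ (List.mem_cons_of_mem _ (List.mem_cons_of_mem _ (g2 _ (h2 _ hp))))
    · have hfun : (fun x : Fin n → Bool => (v (pre k u r (m + 1) x)).eval x) =
          fun x => (bt k u r m x && (v (2 * pre k u r m x + 1)).eval x) ||
            (!bt k u r m x && (v (2 * pre k u r m x)).eval x) := by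
        ext x
        rw [pre_succ hu (by omega)]
        cases bt k u r m x <;> simp
      rw [hfun]
      exact List.mem_cons_self
    · omega

/-- the bits can be computed -/
theorem bits_slp {c : ℕ} (hc : HasThr c) {k u r : ℕ} (hu : 1 ≤ u) (m : ℕ) (hm : m ≤ r) :
    ∃ l : List (FD n), SLP n m l ∧ (∀ i, (fun x : Fin n → Bool => x i, 0) ∈ l) ∧
      ∀ j < m, ∃ e ≤ c * lg n + 3 * j, ((fun x : Fin n → Bool => bt k u r j x), e) ∈ l ∧
        ((fun x : Fin n → Bool => !bt k u r j x), e + 1) ∈ l := by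
  induction m with
  | zero =>
    obtain ⟨l, h1, h2⟩ := slp_vars n
    exact ⟨l, h1, h2, fun j hj => absurd hj (by omega)⟩
  | succ m ih =>
    obtain ⟨l, h1, h2, h3⟩ := ih (by omega)
    choose T hT1 hT2 using fun K : ℕ => hc n K
    obtain ⟨l', d, g1, g2, g3, g4⟩ := mux (k := k) (u := u) (r := r) hu (c * lg n) m (by omega)
      (c * lg n) le_rfl (fun p => T (k + u * (2 ^ (r - m - 1) * (2 * p + 1))))
      (fun p _ => hT1 _) h1 h2 h3
    have e1 : ((fun x : Fin n → Bool => bt k u r m x), d) ∈ l' := by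
      convert g3 using 2
      ext x
      rw [hT2]
      rfl
    refine ⟨_, SLP.not _ g1 e1, fun i => List.mem_cons_of_mem _ (g2 _ (h2 i)), fun j hj => ?_⟩
    rcases Nat.lt_succ_iff_lt_or_eq.1 hj with hj | rfl
    · obtain ⟨e, he, a1, a2⟩ := h3 j hj
      exact ⟨e, he, List.mem_cons_of_mem _ (g2 _ a1), List.mem_cons_of_mem _ (g2 _ a2)⟩
    · exact ⟨d, g4, List.mem_cons_of_mem _ e1, List.mem_cons_self⟩

/-- **Each NOT gate halves the window.** -/
theorem notree {c D : ℕ} (hc : HasThr c) (f : (Fin n → Bool) → Bool)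
    (hf : ∀ x y : Fin n → Bool, (∀ i, x i = true → y i = true) → f x = true → f y = true)
    (hS : HasSlices f D) (hD : c * lg n ≤ D) (k u r : ℕ) (hu : 1 ≤ u) :
    ∃ C' : Circuit n, C'.nots ≤ r ∧ C'.fullDepth ≤ D + (c + 1) * lg n * (u - 1) + 3 * r ∧
      ∀ x : Fin n → Bool, (wt x < k → C'.value x = false) ∧
        (k ≤ wt x → wt x < k + u * 2 ^ r → C'.value x = f x) ∧
        (k + u * 2 ^ r ≤ wt x → C'.value x = true) := by
  choose M hM using fun p : ℕ => thick hc f hf hS (k + u * p) (u - 1)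
  obtain ⟨l, h1, h2, h3⟩ := bits_slp (n := n) hc (k := k) (u := u) (r := r) hu r le_rfl
  obtain ⟨l', d, g1, g2, g3, g4⟩ := mux (k := k) (u := u) (r := r) hu (c * lg n) r le_rfl
    (D + (c + 1) * lg n * (u - 1)) (by omega) M (fun p _ => (hM p).1) h1 h2 h3
  obtain ⟨C', e1, e2, e3⟩ := stSLP n r l' g1 _ g3
  refine ⟨C', e1, e2.trans g4, fun x => ?_⟩
  rw [e3 x]
  simp only [pre_self]
  obtain ⟨m1, m2, m3⟩ := (hM (qq k u r x)).2 x
  have hr : 0 < 2 ^ r := by positivity
  refine ⟨fun h => ?_, fun h h' => ?_, fun h => ?_⟩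
  · apply m1
    omega
  · have e4 : (wt x - k) / u < 2 ^ r := by
      rw [Nat.div_lt_iff_lt_mul (by omega), mul_comm]
      omega
    have e5 : qq k u r x = (wt x - k) / u := by
      unfold qq
      omega
    have e6 := Nat.div_add_mod (wt x - k) u
    have e7 := Nat.mod_lt (wt x - k) (show 0 < u by omega)
    rw [e5] at m2 ⊢
    apply m2 <;> omega
  · have e5 : qq k u r x = 2 ^ r - 1 := by
      unfold qq
      rw [min_eq_right]
      rw [Nat.le_div_iff_mul_le (by omega)]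
      have : (2 ^ r - 1) * u ≤ 2 ^ r * u := Nat.mul_le_mul_right _ (by omega)
      rw [mul_comm u] at h
      omega
    rw [e5] at m3 ⊢
    apply m3
    have e6 : u * (2 ^ r - 1) + u = u * 2 ^ r := by
      rw [← Nat.mul_succ]
      congr 1
      omega
    omega

end Pool.Agent.L0h35.Ts
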